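import Mathlib

namespace Pool.Agent.P.MP_9484ad_co

open Finset

variable {K : Type*} [Field K] [Fintype K] [DecidableEq K]

theorem sum_char_quad (hK : ringChar K ≠ 2) {a b : K} (hab : a ≠ b) :
    ∑ z : K, quadraticChar K ((z - a) * (z - b)) = -1 := by
  have hd : b - a ≠ 0 := sub_ne_zero.2 hab.symm
  have h1 := jacobiSum_nontrivial_inv (quadraticChar_ne_one hK)
  rw [(quadraticChar_isQuadratic K).inv, jacobiSum] at h1
  have h2 : ∑ z : K, quadraticChar K ((z - a) * (z - b)) =
      ∑ t : K, quadraticChar K (-1) * (quadraticChar K t * quadraticChar K (1 - t)) := by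
    refine (Fintype.sum_equiv ((Equiv.mulLeft₀ (b - a) hd).trans (Equiv.addRight a)) _ _
      fun t => ?_).symm
    simp only [Equiv.trans_apply, Equiv.mulLeft₀_apply, Equiv.coe_addRight]
    rw [← map_mul, ← map_mul, show ((b - a) * t + a - a) * ((b - a) * t + a - b) =
      (b - a) ^ 2 * (-1 * (t * (1 - t))) by ring, map_mul _ ((b - a) ^ 2),
      quadraticChar_sq_one' hd, one_mul]
  rw [h2, ← mul_sum, h1, mul_neg, ← sq, quadraticChar_sq_one (neg_ne_zero.2 one_ne_zero)]

/-- Two different monic quadratics agree at exactly one point, or have the same trace. -/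
theorem line_sum (f : K → ℝ) (a b c d : K) (h : ¬(a + b = c + d ∧ a * b = c * d)) :
    (∑ z : K, if (z - a) * (z - b) = (z - c) * (z - d) then f z else 0) =
      if a + b = c + d then 0 else f ((a * b - c * d) / (a + b - (c + d))) := by
  split_ifs with e
  · refine sum_eq_zero fun z _ => if_neg fun h' => h ⟨e, ?_⟩
    linear_combination h' + z * e
  · have e' : a + b - (c + d) ≠ 0 := sub_ne_zero.2 e
    rw [sum_eq_single ((a * b - c * d) / (a + b - (c + d)))]
    · rw [if_pos]
      have : (a * b - c * d) / (a + b - (c + d)) * (a + b - (c + d)) = a * b - c * d :=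
        div_mul_cancel₀ _ e'
      linear_combination -this
    · intro z _ hz
      refine if_neg fun h' => hz ?_
      rw [eq_div_iff e']
      linear_combination -h'
    · simp

theorem kernel_eq (hK : ringChar K ≠ 2) {a b c d : K} (hab : a ≠ b) (hcd : c ≠ d) :
    (quadraticChar K ((a - c) * (a - d) * (b - c) * (b - d)) : ℝ) =
      (∑ z : K, if (z - a) * (z - b) = (z - c) * (z - d) then
        (quadraticChar K ((z - a) * (z - b)) : ℝ) else 0) + if a + b = c + d then 1 else 0 := by
  by_cases h : a + b = c + d ∧ a * b = c * d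
  · have h1 : ∀ z : K, (z - a) * (z - b) = (z - c) * (z - d) := fun z => by
      linear_combination h.2 - z * h.1
    have h2 : (a - c) * (a - d) = 0 := by rw [← h1]; simp
    simp only [h1, if_true, h.1]
    have := sum_char_quad hK hcd
    rw [← Int.cast_sum, this, h2]
    simp
  · rw [line_sum _ a b c d h]
    split_ifs with e
    · have h3 : a * b - c * d ≠ 0 := fun h' => h ⟨e, sub_eq_zero.1 h'⟩
      have : (a - c) * (a - d) * (b - c) * (b - d) = (a * b - c * d) ^ 2 := by
        have : d = a + b - c := by linear_combination -e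
        subst this; ring
      rw [this, quadraticChar_sq_one' h3]; simp
    · have e' : a + b - (c + d) ≠ 0 := sub_ne_zero.2 e
      set z := (a * b - c * d) / (a + b - (c + d)) with hz
      have h4 : z * (a + b - (c + d)) = a * b - c * d := div_mul_cancel₀ _ e'
      have : (a - c) * (a - d) * (b - c) * (b - d) =
          (a + b - (c + d)) ^ 2 * ((z - a) * (z - b)) := by
        have h5 : (a + b - (c + d)) * (z - a) = (a - c) * (d - a) + 0 := by
          linear_combination h4
        have h6 : (a + b - (c + d)) * (z - b) = (b - c) * (d - b) + 0 := by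
          linear_combination h4
        calc _ = ((a - c) * (d - a) + 0) * ((b - c) * (d - b) + 0) := by ring
          _ = _ := by rw [← h5, ← h6]; ring
      rw [this, map_mul, quadraticChar_sq_one' e']; simp

theorem count_eq (a b c d : K) :
    (∑ z : K, if (z - a) * (z - b) = (z - c) * (z - d) then (1 : ℝ) else 0) +
      (if a + b = c + d then 1 else 0) =
      1 + if a + b = c + d ∧ a * b = c * d then (Fintype.card K : ℝ) else 0 := by
  by_cases h : a + b = c + d ∧ a * b = c * d
  · have h1 : ∀ z : K, (z - a) * (z - b) = (z - c) * (z - d) := fun z => by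
      linear_combination h.2 - z * h.1
    simp [h1, h, add_comm]
  · rw [line_sum _ a b c d h, if_neg h]
    split_ifs <;> simp

/-- A quadratic form constant on the fibres of `g`, written through the fibre sums. -/
theorem fibre_form {ι : Type*} [Fintype ι] (x : ι → ℝ) (g : ι → K) (φ : K → ℝ) :
    ∑ i, ∑ j, x i * x j * (if g i = g j then φ (g i) else 0) =
      ∑ w, φ w * (∑ i, if g i = w then x i else 0) ^ 2 := by
  simp only [sq, sum_mul_sum]
  simp only [mul_sum]
  rw [sum_comm (s := univ (α := K))]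
  refine sum_congr rfl fun i _ => ?_
  rw [sum_comm]
  refine sum_congr rfl fun j _ => ?_
  rw [sum_eq_single (g i)]
  · by_cases h : g i = g j
    · simp [h]; ring
    · simp [h, Ne.symm h]
  · intro w _ hw
    simp [Ne.symm hw]
  · simp

theorem fibre_lin {ι : Type*} [Fintype ι] (x : ι → ℝ) (g : ι → K) (φ : K → ℝ) :
    ∑ w, φ w * (∑ i, if g i = w then x i else 0) = ∑ i, x i * φ (g i) := by
  simp only [mul_sum]
  rw [sum_comm]
  refine sum_congr rfl fun i _ => ?_
  simp [mul_comm]

/-- Centering: `|∑ φ X² - 2 m ∑ φ X| ≤ ∑ X² - q m²` when `∑ φ = 0`, `|φ| ≤ 1`, `∑ X = q m`. -/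
theorem centre (X φ : K → ℝ) (m : ℝ) (h0 : ∑ w, φ w = 0) (h1 : ∀ w, |φ w| ≤ 1)
    (hm : ∑ w, X w = Fintype.card K * m) :
    |∑ w, φ w * X w ^ 2 - 2 * m * ∑ w, φ w * X w| ≤ ∑ w, X w ^ 2 - Fintype.card K * m ^ 2 := by
  have e1 : ∑ w, φ w * X w ^ 2 - 2 * m * ∑ w, φ w * X w = ∑ w, φ w * (X w - m) ^ 2 := by
    have : ∀ w, φ w * (X w - m) ^ 2 = φ w * X w ^ 2 - 2 * m * (φ w * X w) + m ^ 2 * φ w :=
      fun w => by ring
    simp only [this, sum_add_distrib, sum_sub_distrib, ← mul_sum, h0]; ring
  have e2 : ∑ w, X w ^ 2 - Fintype.card K * m ^ 2 = ∑ w, (X w - m) ^ 2 := by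
    have : ∀ w, (X w - m) ^ 2 = X w ^ 2 - 2 * m * X w + m ^ 2 := fun w => by ring
    simp only [this, sum_add_distrib, sum_sub_distrib, ← mul_sum, hm, sum_const, card_univ,
      nsmul_eq_mul]; ring
  rw [e1, e2]
  refine (abs_sum_le_sum_abs _ _).trans (sum_le_sum fun w _ => ?_)
  rw [abs_mul, abs_of_nonneg (sq_nonneg (X w - m))]
  exact mul_le_of_le_one_left (sq_nonneg _) (h1 w)

theorem form_bound (hK : ringChar K ≠ 2) {ι : Type*} [Fintype ι] [DecidableEq ι] (a b : ι → K)
    (hab : ∀ i, a i ≠ b i) (hinj : ∀ i j, a i + b i = a j + b j → a i * b i = a j * b j → i = j)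
    (x : ι → ℝ) :
    |∑ i, ∑ j, x i * x j *
      (quadraticChar K ((a i - a j) * (a i - b j) * (b i - a j) * (b i - b j)) : ℝ)| ≤
      Fintype.card K * ∑ i, x i ^ 2 := by
  set q : ℝ := (Fintype.card K : ℝ) with hq
  have hq0 : 0 < q := Nat.cast_pos.2 Fintype.card_pos
  set m : ℝ := (∑ i, x i) / q with hm
  have hs : ∑ i, x i = q * m := by rw [hm]; field_simp
  let χ : K → ℝ := fun w => quadraticChar K w
  let X : K → K → ℝ := fun z w => ∑ i, if (z - a i) * (z - b i) = w then x i else 0
  let V : K → ℝ := fun w => ∑ i, if a i + b i = w then x i else 0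
  have hX : ∀ z, ∑ w, X z w = q * m := fun z => by
    simpa [hs] using fibre_lin x (fun i => (z - a i) * (z - b i)) fun _ => 1
  have hV : ∑ w, V w = q * m := by simpa [hs] using fibre_lin x (fun i => a i + b i) fun _ => 1
  have h0 : ∑ w, χ w = 0 := by
    simp only [χ]; rw [← Int.cast_sum, quadraticChar_sum_zero hK]; simp
  have h1 : ∀ w, |χ w| ≤ 1 := fun w => by
    by_cases hw : w = 0
    · simp [χ, hw]
    · rcases quadraticChar_dichotomy hw with h | h <;> simp only [χ, h] <;> simp
  have swap : ∀ F : K → ι → ι → ℝ, ∀ G : ι → ι → ℝ,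
      ∑ i, ∑ j, x i * x j * ((∑ z, F z i j) + G i j) =
        ∑ z, ∑ i, ∑ j, x i * x j * F z i j + ∑ i, ∑ j, x i * x j * G i j := by
    intro F G
    simp only [mul_add, sum_add_distrib, mul_sum]
    congr 1
    rw [sum_comm (s := univ (α := K))]
    exact sum_congr rfl fun i _ => sum_comm
  have eV := fibre_form x (fun i => a i + b i) fun _ => 1
  have e1 : ∑ i, ∑ j, x i * x j *
      (quadraticChar K ((a i - a j) * (a i - b j) * (b i - a j) * (b i - b j)) : ℝ) =
      ∑ z, ∑ w, χ w * X z w ^ 2 + ∑ w, V w ^ 2 := by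
    simp only [fun i j => kernel_eq hK (hab i) (hab j)]
    rw [swap, eV]
    simp only [one_mul]
    congr 1
    exact sum_congr rfl fun z _ => fibre_form x (fun i => (z - a i) * (z - b i)) χ
  have e2 : ∑ z, ∑ w, X z w ^ 2 + ∑ w, V w ^ 2 = (q * m) ^ 2 + q * ∑ i, x i ^ 2 := by
    have := swap (fun z i j => if (z - a i) * (z - b i) = (z - a j) * (z - b j) then 1 else 0)
      fun i j => if a i + b i = a j + b j then 1 else 0
    simp only [count_eq] at this
    rw [eV] at this
    simp only [fun z => fibre_form x (fun i => (z - a i) * (z - b i)) fun _ => 1, one_mul] at this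
    rw [← this, ← hs, sq, sum_mul_sum, mul_sum, ← sum_add_distrib]
    refine sum_congr rfl fun i _ => ?_
    simp only [mul_add, sum_add_distrib, mul_one]
    congr 1
    rw [sum_eq_single i]
    · simp [hq]; ring
    · intro j _ hj
      rw [if_neg fun h => hj (hinj i j h.1 h.2).symm, mul_zero]
    · simp
  have e3 : ∑ z, ∑ w, χ w * X z w = -(q * m) := by
    simp only [X, fibre_lin]
    rw [sum_comm, ← hs, ← sum_neg_distrib]
    refine sum_congr rfl fun i _ => ?_
    simp only [χ]
    rw [← mul_sum, ← Int.cast_sum, sum_char_quad hK (hab i)]; simp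
  have e4 : |∑ z, ∑ w, χ w * X z w ^ 2 + 2 * m * (q * m)| ≤
      ∑ z, ∑ w, X z w ^ 2 - q * (q * m ^ 2) := by
    have := (abs_sum_le_sum_abs _ _).trans
      (sum_le_sum (s := univ) fun z _ => centre (X z) χ m h0 h1 (hX z))
    simp only [sum_sub_distrib, ← mul_sum, e3, sum_const, card_univ, nsmul_eq_mul] at this
    simpa [hq] using this
  have e5 : q * m ^ 2 ≤ ∑ w, V w ^ 2 := by
    have := (abs_nonneg _).trans (centre V χ m h0 h1 hV)
    linarith
  have e6 : 0 ≤ q * m ^ 2 := by positivity
  rw [e1, abs_le] at *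
  constructor <;> nlinarith [e4.1, e4.2]

end Pool.Agent.P.MP_9484ad_co
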