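import Mathlib
import Pool.Agent.P.MP_9484ad_co.Lines

namespace Pool.Agent.P.MP_9484ad_co

open Finset

variable {K : Type*} [Field K] [Fintype K] [DecidableEq K]

/-- The Paley sign matrix. -/
noncomputable def sg (a b : K) : ℝ := (quadraticChar K (a - b) : ℝ)

/-- The four-point correlation. -/
noncomputable def cw (a b c d : K) : ℝ := ∑ s : K, sg s a * sg s b * sg s c * sg s d

theorem sg_self (a : K) : sg a a = 0 := by simp [sg]

theorem sg_cases {a b : K} (h : a ≠ b) : sg a b = 1 ∨ sg a b = -1 := by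
  rcases quadraticChar_dichotomy (sub_ne_zero.2 h) with h | h <;> simp only [sg, h] <;> simp

theorem sg_sq {a b : K} (h : a ≠ b) : sg a b * sg a b = 1 := by
  rcases sg_cases h with h | h <;> rw [h] <;> norm_num

theorem sg_sq_le (a b : K) : sg a b ^ 2 ≤ 1 := by
  by_cases h : a = b
  · simp [h, sg_self]
  · rw [sq, sg_sq h]

theorem sg_comm (h1 : IsSquare (-1 : K)) (a b : K) : sg a b = sg b a := by
  have : quadraticChar K (-1) = 1 := (quadraticChar_one_iff_isSquare (by simp)).2 h1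
  rw [sg, sg, ← neg_sub, ← neg_one_mul, map_mul, this, one_mul]

theorem sg_gram (hK : ringChar K ≠ 2) (a b : K) :
    ∑ s, sg s a * sg s b = (if a = b then (Fintype.card K : ℝ) else 0) - 1 := by
  split_ifs with h
  · subst h
    have : ∀ s : K, sg s a * sg s a = 1 - if s = a then 1 else 0 := fun s => by
      split_ifs with h
      · simp [h, sg_self]
      · simp [sg_sq h]
    simp [this]
  · have := sum_char_quad hK h
    simp only [map_mul] at this
    simp only [sg]
    exact_mod_cast this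

theorem sg_norm (hK : ringChar K ≠ 2) (x : K → ℝ) :
    ∑ s, (∑ a, sg s a * x a) ^ 2 ≤ Fintype.card K * ∑ a, x a ^ 2 := by
  have : ∑ s, (∑ a, sg s a * x a) ^ 2 = ∑ a, ∑ b, x a * x b * ∑ s, sg s a * sg s b := by
    simp only [sq, sum_mul_sum]
    simp only [mul_sum]
    rw [sum_comm]
    refine sum_congr rfl fun a _ => ?_
    rw [sum_comm]
    exact sum_congr rfl fun b _ => sum_congr rfl fun s _ => by ring
  rw [this]
  simp only [sg_gram hK, mul_sub, sum_sub_distrib, mul_ite, mul_zero, sum_ite_eq, mem_univ,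
    if_true, mul_one, ← sum_mul_sum, ← sum_mul, ← sq]
  nlinarith [sq_nonneg (∑ a, x a)]

/-- `|∑ u v| ≤ M` from `∑ u² ≤ t² M`-type bounds. -/
theorem abs_inner_le {ι : Type*} [Fintype ι] (u v : ι → ℝ) {A B : ℝ} (hA : 0 ≤ A) (hB : 0 ≤ B)
    {N : ℝ} (hN : 0 ≤ N) (hu : ∑ i, u i ^ 2 ≤ A ^ 2 * N) (hv : ∑ i, v i ^ 2 ≤ B ^ 2 * N) :
    |∑ i, u i * v i| ≤ A * B * N := by
  refine abs_le_of_sq_le_sq' ?_ (by positivity) |> abs_le.2
  calc _ ≤ _ := sum_mul_sq_le_sq_mul_sq univ u v
    _ ≤ (A ^ 2 * N) * (B ^ 2 * N) :=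
      mul_le_mul hu hv (sum_nonneg fun _ _ => sq_nonneg _) (by positivity)
    _ = _ := by ring

theorem sg_form (hK : ringChar K ≠ 2) {r : ℝ} (hr : 0 ≤ r) (hq : r ^ 2 = Fintype.card K)
    (x : K → ℝ) : |∑ a, ∑ b, sg a b * x a * x b| ≤ r * ∑ a, x a ^ 2 := by
  have := abs_inner_le x (fun a => ∑ b, sg a b * x b) zero_le_one hr (N := ∑ a, x a ^ 2)
    (sum_nonneg fun _ _ => sq_nonneg (x _)) (by simp) (by rw [hq]; exact sg_norm hK x)
  rw [one_mul] at this
  refine le_of_eq_of_le (congrArg abs (sum_congr rfl fun a _ => ?_)) this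
  rw [mul_sum]
  exact sum_congr rfl fun b _ => by ring

theorem four_cycle (hK : ringChar K ≠ 2) (x : K × K → ℝ) (hx : ∀ a, x (a, a) = 0) :
    |∑ e : K × K, ∑ f : K × K, x e * x f *
      (sg e.1 f.1 * sg e.1 f.2 * sg e.2 f.1 * sg e.2 f.2)| ≤
      2 * Fintype.card K * ∑ e, x e ^ 2 := by
  classical
  obtain ⟨n, ⟨φ⟩⟩ := Finite.exists_equiv_fin K
  let z : K × K → ℝ := fun e => x e + x e.swap
  let G : K × K → K × K → ℝ := fun e f => sg e.1 f.1 * sg e.1 f.2 * sg e.2 f.1 * sg e.2 f.2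
  have key : ∀ F : K × K → ℝ, (∀ a, F (a, a) = 0) →
      ∑ e, F e = ∑ e : {e : K × K // φ e.1 < φ e.2}, (F e.1 + F e.1.swap) := by
    intro F hF
    rw [← sum_subtype (univ.filter fun e : K × K => φ e.1 < φ e.2) (by simp)
      (fun e => F e + F e.swap), sum_add_distrib, sum_filter, sum_filter,
      ← Equiv.sum_comp (Equiv.prodComm K K) fun e => if φ e.1 < φ e.2 then F e.swap else 0,
      ← sum_add_distrib]
    refine sum_congr rfl fun e _ => ?_
    obtain ⟨a, b⟩ := e
    rcases lt_trichotomy (φ a) (φ b) with h | h | h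
    · simp [h, h.not_gt]
    · simp [φ.injective h, hF]
    · simp [h, h.not_gt]
  have h := form_bound hK (ι := {e : K × K // φ e.1 < φ e.2}) (fun e => e.1.1) (fun e => e.1.2)
    (fun e h => e.2.ne (congrArg φ h)) (fun e f h1 h2 => by
      have h3 : (e.1.1 - f.1.1) * (e.1.1 - f.1.2) = 0 := by
        linear_combination e.1.1 * h1 - h2
      rcases mul_eq_zero.1 h3 with h4 | h4
      · exact Subtype.ext (Prod.ext (sub_eq_zero.1 h4) (by linear_combination h1 - h4))
      · have h5 : e.1.2 = f.1.1 := by linear_combination h1 - h4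
        have h6 := e.2
        rw [sub_eq_zero.1 h4, h5] at h6
        exact absurd f.2 h6.not_gt) fun e => z e.1
  have e1 : ∑ e : K × K, ∑ f : K × K, x e * x f * G e f =
      ∑ e : {e : K × K // φ e.1 < φ e.2}, ∑ f : {e : K × K // φ e.1 < φ e.2},
        z e.1 * z f.1 * G e.1 f.1 := by
    rw [key _ (by simp [hx])]
    refine sum_congr rfl fun e _ => ?_
    rw [key _ (by simp [hx]), key _ (by simp [hx]), ← sum_add_distrib]
    refine sum_congr rfl fun f _ => ?_
    simp only [z, G, Prod.fst_swap, Prod.snd_swap]; ring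
  have e2 : ∑ e : {e : K × K // φ e.1 < φ e.2}, z e.1 ^ 2 ≤ 2 * ∑ e, x e ^ 2 := by
    rw [key (fun e => x e ^ 2) (by simp [hx]), mul_sum]
    exact sum_le_sum fun e _ => by simp only [z]; nlinarith [sq_nonneg (x e.1 - x e.1.swap)]
  simp only [map_mul, Int.cast_mul] at h
  have h0 : (0 : ℝ) ≤ Fintype.card K := Nat.cast_nonneg _
  calc _ = _ := congrArg abs e1
    _ ≤ _ := h
    _ ≤ _ := by nlinarith

theorem four_cycle_bil (hK : ringChar K ≠ 2) (h1 : IsSquare (-1 : K)) (x y : K × K → ℝ)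
    (hx : ∀ a, x (a, a) = 0) (hy : ∀ a, y (a, a) = 0) :
    |∑ e : K × K, ∑ f : K × K, x e * y f *
      (sg e.1 f.1 * sg e.1 f.2 * sg e.2 f.1 * sg e.2 f.2)| ≤
      Fintype.card K * (∑ e, x e ^ 2 + ∑ e, y e ^ 2) := by
  let G : K × K → K × K → ℝ := fun e f => sg e.1 f.1 * sg e.1 f.2 * sg e.2 f.1 * sg e.2 f.2
  have a1 := four_cycle hK (fun e => x e + y e) (by simp [hx, hy])
  have a2 := four_cycle hK (fun e => x e - y e) (by simp [hx, hy])
  have e0 : ∑ e, ∑ f, y e * x f * G e f = ∑ e, ∑ f, x e * y f * G e f := by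
    rw [sum_comm]
    refine sum_congr rfl fun e _ => sum_congr rfl fun f _ => ?_
    simp only [G, sg_comm h1 f.1, sg_comm h1 f.2]; ring
  have e1 : ∑ e, ∑ f, (x e + y e) * (x f + y f) * G e f -
      ∑ e, ∑ f, (x e - y e) * (x f - y f) * G e f =
      2 * ∑ e, ∑ f, x e * y f * G e f + 2 * ∑ e, ∑ f, y e * x f * G e f := by
    simp only [mul_sum, ← sum_sub_distrib, ← sum_add_distrib]
    exact sum_congr rfl fun e _ => sum_congr rfl fun f _ => by ring
  have e2 : ∑ e, (x e + y e) ^ 2 + ∑ e, (x e - y e) ^ 2 =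
      2 * (∑ e, x e ^ 2 + ∑ e, y e ^ 2) := by
    simp only [mul_sum, ← sum_add_distrib]
    exact sum_congr rfl fun e _ => by ring
  rw [e0] at e1
  rw [abs_le] at *
  have e3 := congrArg (fun t => (Fintype.card K : ℝ) * t) e2
  simp only [G] at e1
  constructor <;> nlinarith [a1.1, a1.2, a2.1, a2.2]

end Pool.Agent.P.MP_9484ad_co
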