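import Mathlib
import Pool.Agent.P.MP_9484ad_co.Forms

namespace Pool.Agent.P.MP_9484ad_co

open Finset

variable {K : Type*} [Field K] [Fintype K] [DecidableEq K]

/-- The quadratic form of a kernel on ordered pairs. -/
noncomputable def qf (x : K → K → ℝ) (F : K → K → K → K → ℝ) : ℝ :=
  ∑ a, ∑ b, ∑ c, ∑ d, x a b * x c d * F a b c d

/-- The squared norm of a function on ordered pairs. -/
noncomputable def nn (x : K → K → ℝ) : ℝ := ∑ a, ∑ b, x a b ^ 2

omit [Field K] [DecidableEq K] in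
theorem nn_nonneg (x : K → K → ℝ) : 0 ≤ nn x :=
  sum_nonneg fun _ _ => sum_nonneg fun _ _ => sq_nonneg _

omit [Field K] [DecidableEq K] in
theorem qf_add (x : K → K → ℝ) (F G : K → K → K → K → ℝ) :
    qf x (fun a b c d => F a b c d + G a b c d) = qf x F + qf x G := by
  simp only [qf, mul_add, sum_add_distrib]

omit [Field K] [DecidableEq K] in
theorem qf_smul (x : K → K → ℝ) (t : ℝ) (F : K → K → K → K → ℝ) :
    qf x (fun a b c d => t * F a b c d) = t * qf x F := by
  simp only [qf, mul_sum]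
  exact sum_congr rfl fun _ _ => sum_congr rfl fun _ _ => sum_congr rfl fun _ _ =>
    sum_congr rfl fun _ _ => by ring

omit [Field K] [DecidableEq K] in
theorem qf_congr {x : K → K → ℝ} {F G : K → K → K → K → ℝ}
    (h : ∀ a b c d, x a b ≠ 0 → x c d ≠ 0 → F a b c d = G a b c d) : qf x F = qf x G := by
  refine sum_congr rfl fun a _ => sum_congr rfl fun b _ => sum_congr rfl fun c _ =>
    sum_congr rfl fun d _ => ?_
  by_cases h1 : x a b = 0
  · simp [h1]
  by_cases h2 : x c d = 0
  · simp [h2]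
  rw [h a b c d h1 h2]

omit [Field K] [DecidableEq K] in
theorem qf_swap {x : K → K → ℝ} (hx : ∀ a b, x a b = x b a) (F : K → K → K → K → ℝ) :
    qf x (fun a b c d => F b a c d) = qf x F := by
  rw [qf, sum_comm]
  exact sum_congr rfl fun a _ => sum_congr rfl fun b _ => by simp only [hx a b]

omit [Field K] [DecidableEq K] in
theorem qf_prod (x : K → K → ℝ) (F : K → K → K → K → ℝ) :
    qf x F = ∑ e : K × K, ∑ f : K × K, x e.1 e.2 * x f.1 f.2 * F e.1 e.2 f.1 f.2 := by
  simp only [qf, Fintype.sum_prod_type]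

omit [Field K] [DecidableEq K] in
theorem nn_prod (x : K → K → ℝ) : nn x = ∑ e : K × K, x e.1 e.2 ^ 2 := by
  simp only [nn, Fintype.sum_prod_type]

omit [Field K] [DecidableEq K] in
theorem qf_flip (x : K → K → ℝ) (F : K → K → K → K → ℝ) :
    qf x (fun a b c d => F c d a b) = qf x F := by
  rw [qf_prod, qf_prod, sum_comm]
  exact sum_congr rfl fun _ _ => sum_congr rfl fun _ _ => by ring

/-- The symmetrisation of a kernel. -/
def sym8 (F : K → K → K → K → ℝ) (a b c d : K) : ℝ :=
  F a b c d + F b a c d + F a b d c + F b a d c + F c d a b + F d c a b + F c d b a + F d c b a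

omit [Field K] [DecidableEq K] in
theorem qf_sym8 {x : K → K → ℝ} (hx : ∀ a b, x a b = x b a) (F : K → K → K → K → ℝ) :
    qf x (sym8 F) = 8 * qf x F := by
  have s2 : ∀ F : K → K → K → K → ℝ, qf x (fun a b c d => F a b d c) = qf x F := fun F => by
    rw [← qf_flip, ← qf_flip x F]
    exact qf_swap hx fun a b c d => F c d a b
  have h1 := qf_swap hx F
  have h2 := s2 F
  have h3 := (s2 fun a b c d => F b a c d).trans h1
  have h4 := qf_flip x F
  have h5 := (qf_flip x fun a b c d => F b a c d).trans h1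
  have h6 := (qf_flip x fun a b c d => F a b d c).trans h2
  have h7 := (qf_flip x fun a b c d => F b a d c).trans h3
  unfold sym8
  simp only [qf_add]
  rw [h1, h2, h3, h4, h5, h6, h7]
  ring

omit [Field K] [DecidableEq K] in
theorem qf_of_sym8 {x : K → K → ℝ} (hx : ∀ a b, x a b = x b a) {F G : K → K → K → K → ℝ}
    (h : ∀ a b c d, sym8 F a b c d = sym8 G a b c d) : qf x F = qf x G := by
  have := qf_congr (x := x) fun a b c d _ _ => h a b c d
  rw [qf_sym8 hx, qf_sym8 hx] at this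
  linarith

/-- Row sums. -/
noncomputable def rs (x : K → K → ℝ) (a : K) : ℝ := ∑ b, x a b

/-- The quadratic form of the signed neighbourhood of a vertex. -/
noncomputable def nb (x : K → K → ℝ) (v : K) : ℝ := ∑ a, ∑ b, x a b * (sg v a * sg v b)

omit [Field K] [DecidableEq K] in
theorem rs_norm (x : K → K → ℝ) : ∑ a, rs x a ^ 2 ≤ Fintype.card K * nn x := by
  rw [nn, mul_sum]
  exact sum_le_sum fun a _ => by simpa [rs] using sq_sum_le_card_mul_sum_sq (s := univ) (f := x a)

theorem row_norm (hK : ringChar K ≠ 2) (x : K → K → ℝ) :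
    ∑ a, ∑ s, (∑ b, sg s b * x a b) ^ 2 ≤ Fintype.card K * nn x := by
  rw [nn, mul_sum]
  exact sum_le_sum fun a _ => sg_norm hK (x a)

theorem path_bound (hK : ringChar K ≠ 2) (h1 : IsSquare (-1 : K)) {r : ℝ} (hr : 0 ≤ r)
    (hq : r ^ 2 = Fintype.card K) {x : K → K → ℝ} (hx : ∀ a b, x a b = x b a)
    (w : K → K → ℝ) (hw : ∀ a d, w a d ^ 2 ≤ 1) :
    |qf x fun a b c d => sg a c * sg b d * w a d| ≤ r ^ 2 * nn x := by
  have := abs_inner_le (fun e : K × K => w e.1 e.2 * ∑ b, sg e.2 b * x e.1 b)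
    (fun e : K × K => ∑ c, sg e.1 c * x e.2 c) hr hr (nn_nonneg x) (by
      rw [hq, Fintype.sum_prod_type]
      refine le_trans (sum_le_sum fun a _ => sum_le_sum fun d _ => ?_) (row_norm hK x)
      rw [mul_pow]
      exact mul_le_of_le_one_left (sq_nonneg _) (hw _ _)) (by
      rw [hq, Fintype.sum_prod_type, sum_comm]
      exact row_norm hK x)
  rw [← sq] at this
  refine le_of_eq_of_le (congrArg abs ?_) this
  rw [Fintype.sum_prod_type]
  refine sum_congr rfl fun a _ => ?_
  simp only [mul_assoc, sum_mul_sum]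
  simp only [mul_sum]
  rw [eq_comm, sum_comm]
  refine sum_congr rfl fun b _ => ?_
  rw [sum_comm]
  refine sum_congr rfl fun c _ => sum_congr rfl fun d _ => ?_
  rw [sg_comm h1 d b, hx d c]
  ring

theorem cyc_bound (hK : ringChar K ≠ 2) {x : K → K → ℝ} (hx : ∀ a, x a a = 0) :
    |qf x fun a b c d => sg a c * sg a d * sg b c * sg b d| ≤ 2 * Fintype.card K * nn x := by
  rw [qf_prod, nn_prod]
  exact four_cycle hK (fun e => x e.1 e.2) hx

theorem share_bound (hK : ringChar K ≠ 2) {r : ℝ} (hr : 0 ≤ r)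
    (hq : r ^ 2 = Fintype.card K) (x : K → K → ℝ) :
    |∑ a, ∑ b, ∑ d, sg b d * x a b * x a d| ≤ r * nn x := by
  rw [nn, mul_sum]
  exact (abs_sum_le_sum_abs _ _).trans (sum_le_sum fun a _ => sg_form hK hr hq (x a))

theorem qf_cw (x : K → K → ℝ) (F : K → K → K → K → ℝ) :
    qf x (fun a b c d => F a b c d * cw a b c d) =
      ∑ s, qf x fun a b c d => F a b c d * (sg s a * sg s b * sg s c * sg s d) := by
  simp only [qf_prod, cw, mul_sum]
  rw [eq_comm, sum_comm]
  exact sum_congr rfl fun _ _ => sum_comm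

theorem edge_bound (hK : ringChar K ≠ 2) {r : ℝ} (hr : 0 ≤ r)
    (hq : r ^ 2 = Fintype.card K) (x : K → K → ℝ) :
    |qf x fun a b c d => sg a c * cw a b c d| ≤ r ^ 3 * nn x := by
  rw [qf_cw]
  have h : ∀ s, |qf x fun a b c d => sg a c * (sg s a * sg s b * sg s c * sg s d)| ≤
      r * ∑ a, (∑ b, sg s b * x a b) ^ 2 := fun s => by
    have := sg_form hK hr hq fun a => sg s a * ∑ b, sg s b * x a b
    refine (le_of_eq_of_le (congrArg abs ?_) this).trans
      (mul_le_mul_of_nonneg_left (sum_le_sum fun a _ => ?_) hr)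
    · refine sum_congr rfl fun a _ => ?_
      rw [sum_comm]
      refine sum_congr rfl fun c _ => ?_
      simp only [mul_sum, sum_mul]
      rw [sum_comm]
      exact sum_congr rfl fun _ _ => sum_congr rfl fun _ _ => by ring
    · rw [mul_pow]
      exact mul_le_of_le_one_left (sq_nonneg _) (sg_sq_le _ _)
  refine (abs_sum_le_sum_abs _ _).trans ((sum_le_sum fun s _ => h s).trans ?_)
  rw [← mul_sum, sum_comm]
  calc _ ≤ r * (Fintype.card K * nn x) := mul_le_mul_of_nonneg_left (row_norm hK x) hr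
    _ = _ := by rw [← hq]; ring

theorem star_bound (hK : ringChar K ≠ 2) (h1 : IsSquare (-1 : K)) {r : ℝ} (hr : 0 < r)
    (hq : r ^ 2 = Fintype.card K) {x : K → K → ℝ} (hx : ∀ a, x a a = 0) :
    |qf x fun a b c d => sg a c * sg a d * cw a b c d| ≤ 2 * r ^ 3 * nn x := by
  have h := four_cycle_bil hK h1 (fun e => sg e.1 e.2 * ∑ b, sg e.1 b * x e.2 b)
    (fun e => r * x e.1 e.2) (by simp [sg_self]) (by simp [hx])
  have e1 : ∑ e : K × K, (sg e.1 e.2 * ∑ b, sg e.1 b * x e.2 b) ^ 2 ≤ r ^ 2 * nn x := by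
    rw [hq, Fintype.sum_prod_type, sum_comm]
    refine le_trans (sum_le_sum fun a _ => sum_le_sum fun d _ => ?_) (row_norm hK x)
    rw [mul_pow]
    exact mul_le_of_le_one_left (sq_nonneg _) (sg_sq_le _ _)
  have e2 : ∑ e : K × K, (r * x e.1 e.2) ^ 2 = r ^ 2 * nn x := by
    simp only [nn_prod, mul_sum, mul_pow]
  have e3 : ∑ e : K × K, ∑ f : K × K, (sg e.1 e.2 * ∑ b, sg e.1 b * x e.2 b) * (r * x f.1 f.2) *
      (sg e.1 f.1 * sg e.1 f.2 * sg e.2 f.1 * sg e.2 f.2) =
      r * qf x fun a b c d => sg a c * sg a d * cw a b c d := by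
    rw [qf_cw, Fintype.sum_prod_type, mul_sum]
    refine sum_congr rfl fun s _ => ?_
    simp only [qf, mul_sum, sum_mul, Fintype.sum_prod_type]
    refine sum_congr rfl fun a _ => ?_
    rw [eq_comm, sum_comm]
    refine sum_congr rfl fun c _ => ?_
    rw [sum_comm]
    exact sum_congr rfl fun _ _ => sum_congr rfl fun _ _ => by ring
  rw [e3, e2, abs_mul, abs_of_pos hr, ← hq] at h
  refine le_of_mul_le_mul_left (h.trans ?_) hr
  nlinarith [mul_le_mul_of_nonneg_left e1 (sq_nonneg r)]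

end Pool.Agent.P.MP_9484ad_co
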