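import Mathlib
import Pool.Agent.P.MP_9484ad_co.SosForms

namespace Pool.Agent.P.MP_9484ad_co

open Finset

variable {K : Type*} [Field K] [Fintype K] [DecidableEq K]

/-- Cliques of the Paley graph. -/
def clq (T : Finset K) : Prop := ∀ a ∈ T, ∀ b ∈ T, a ≠ b → sg a b = 1

open Classical in
/-- The corrected pseudo-moments. -/
noncomputable def mom (κ C : ℝ) (T : Finset K) : ℝ :=
  if clq T then κ ^ T.card * 2 ^ T.card.choose 2 *
    (if T.card = 4 then 1 + κ * (2 * ∑ s, ∏ a ∈ T, sg s a + C) else 1) else 0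

variable {κ C : ℝ}

theorem mom_empty : mom κ C (∅ : Finset K) = 1 := by simp [mom, clq]

theorem mom_one (a : K) : mom κ C {a} = κ := by simp [mom, clq]

theorem mom_two (h1 : IsSquare (-1 : K)) {a b : K} (h : a ≠ b) :
    mom κ C {a, b} = κ ^ 2 * (1 + sg a b) := by
  have hc : clq {a, b} ↔ sg a b = 1 := by simp [clq, h, h.symm, sg_comm h1 b a]
  rw [mom, card_pair h]
  rcases sg_cases h with e | e <;> norm_num [hc, e]

theorem mom_three (h1 : IsSquare (-1 : K)) {a b c : K} (hab : a ≠ b) (hac : a ≠ c) (hbc : b ≠ c) :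
    mom κ C {a, b, c} = κ ^ 3 * ((1 + sg a b) * (1 + sg a c) * (1 + sg b c)) := by
  have hc : clq {a, b, c} ↔ sg a b = 1 ∧ sg a c = 1 ∧ sg b c = 1 := by
    simp [clq, hab, hac, hbc, hab.symm, hac.symm, hbc.symm, sg_comm h1 b a, sg_comm h1 c a,
      sg_comm h1 c b]
    tauto
  have hn : ({a, b, c} : Finset K).card = 3 := card_eq_three.2 ⟨a, b, c, hab, hac, hbc, rfl⟩
  rw [mom, hn]
  rcases sg_cases hab with e1 | e1 <;> rcases sg_cases hac with e2 | e2 <;>
    rcases sg_cases hbc with e3 | e3 <;> norm_num [hc, e1, e2, e3, Nat.choose]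

theorem mom_four (h1 : IsSquare (-1 : K)) {a b c d : K} (hab : a ≠ b) (hac : a ≠ c) (had : a ≠ d)
    (hbc : b ≠ c) (hbd : b ≠ d) (hcd : c ≠ d) :
    mom κ C {a, b, c, d} = κ ^ 4 * ((1 + sg a b) * (1 + sg c d) *
      ((1 + sg a c) * (1 + sg a d) * (1 + sg b c) * (1 + sg b d))) *
      (1 + κ * (2 * cw a b c d + C)) := by
  have hc : clq {a, b, c, d} ↔ sg a b = 1 ∧ sg c d = 1 ∧ sg a c = 1 ∧ sg a d = 1 ∧ sg b c = 1 ∧
      sg b d = 1 := by
    simp [clq, hab, hac, hbc, had, hbd, hcd, hab.symm, hac.symm, hbc.symm, had.symm, hbd.symm,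
      hcd.symm, sg_comm h1 b a, sg_comm h1 c a, sg_comm h1 c b, sg_comm h1 d a, sg_comm h1 d b,
      sg_comm h1 d c]
    tauto
  have hn : ({a, b, c, d} : Finset K).card = 4 := by simp [card_insert_of_notMem, *]
  have hw : ∑ s, ∏ v ∈ ({a, b, c, d} : Finset K), sg s v = cw a b c d :=
    sum_congr rfl fun s _ => by simp [prod_insert, *, mul_assoc]
  rw [mom, hn, hw]
  by_cases h : clq {a, b, c, d}
  · obtain ⟨e1, e2, e3, e4, e5, e6⟩ := hc.1 h
    norm_num [h, e1, e2, e3, e4, e5, e6, Nat.choose]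
  · rw [if_neg h]
    rw [hc] at h
    rcases sg_cases hab with e | e <;> rcases sg_cases hcd with e | e <;>
      rcases sg_cases hac with e | e <;> rcases sg_cases had with e | e <;>
      rcases sg_cases hbc with e | e <;> rcases sg_cases hbd with e | e <;> simp_all

theorem mom_nonedge {T : Finset K} {a b : K} (ha : a ∈ T) (hb : b ∈ T) (h : a ≠ b)
    (hs : sg a b ≠ 1) : mom κ C T = 0 := if_neg fun hc => hs (hc a ha b hb h)

theorem cw_share (hK : ringChar K ≠ 2) (a b d : K) :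
    cw a b a d = (if b = d then (Fintype.card K : ℝ) else 0) - 1 - sg a b * sg a d := by
  rw [← sg_gram hK, cw, eq_sub_iff_add_eq, ← sum_erase_add _ _ (mem_univ a),
    ← sum_erase_add _ _ (mem_univ a)]
  simp only [sg_self, zero_mul, add_zero, add_left_inj]
  refine sum_congr rfl fun s hs => ?_
  linear_combination sg s b * sg s d * sg_sq (ne_of_mem_erase hs)

omit [Field K] in
theorem split_sum (F : Finset K → ℝ) (hF : ∀ S : Finset K, 2 < S.card → F S = 0) :
    ∑ S, F S = F ∅ + ∑ a, F {a} + (∑ a, ∑ b, if a = b then 0 else F {a, b}) / 2 := by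
  have e0 : F ∅ = ∑ S, if ∅ = S then F S else 0 := by simp
  have e1 : ∑ a, F {a} = ∑ S, ∑ a, if {a} = S then F S else 0 := by
    rw [sum_comm]; simp
  have e2 : (∑ a, ∑ b, if a = b then 0 else F {a, b}) =
      ∑ S, ∑ e : K × K, if e.1 ≠ e.2 ∧ {e.1, e.2} = S then F S else 0 := by
    rw [sum_comm (s := univ (α := Finset K)), Fintype.sum_prod_type]
    refine sum_congr rfl fun a _ => sum_congr rfl fun b _ => ?_
    by_cases h : a = b <;> simp [h]
  rw [e0, e1, e2, sum_div, ← sum_add_distrib, ← sum_add_distrib]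
  refine sum_congr rfl fun S _ => ?_
  have z1 : S.card ≠ 1 → ∀ a, ¬({a} = S) := fun h a e => h (by simp [← e])
  have z2 : S.card ≠ 2 → ∀ e : K × K, ¬(e.1 ≠ e.2 ∧ {e.1, e.2} = S) := fun h e he =>
    h (by rw [← he.2, card_pair he.1])
  have z0 : S.card ≠ 0 → ¬(∅ = S) := fun h e => h (by simp [← e])
  rcases Nat.lt_or_ge 2 S.card with h | h
  · simp [hF S h]
  interval_cases hS : S.card
  · simp [card_eq_zero.1 hS]
  · obtain ⟨x, rfl⟩ := card_eq_one.1 hS
    simp only [z0 (by omega), z2 (by omega)]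
    simp
  · obtain ⟨x, y, hxy, rfl⟩ := card_eq_two.1 hS
    simp only [z0 (by omega), z1 (by omega)]
    have : (univ.filter fun e : K × K => e.1 ≠ e.2 ∧ ({e.1, e.2} : Finset K) = {x, y}) =
        {(x, y), (y, x)} := by
      ext ⟨a, b⟩
      simp only [mem_filter, mem_univ, true_and, mem_insert, mem_singleton, Prod.mk.injEq,
        ← coe_inj, coe_pair, Set.pair_eq_pair_iff]
      grind
    rw [← sum_filter (s := univ (α := K × K)), this, sum_pair (by simp [hxy])]
    simp

/-- The Kronecker delta. -/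
def sdl (a b : K) : ℝ := if a = b then 1 else 0

omit [Field K] [Fintype K] in
theorem dl_comm (a b : K) : sdl a b = sdl b a := by simp only [sdl, eq_comm]

theorem mom_vw (h1 : IsSquare (-1 : K)) (v w : K) :
    mom κ C ({v} ∪ {w}) = κ ^ 2 * (1 + sg v w) + (κ - κ ^ 2) * sdl v w := by
  by_cases h : v = w
  · simp [h, mom_one, sg_self, sdl]
  · simp [mom_two h1 h, sdl, h]

theorem mom_vab (h1 : IsSquare (-1 : K)) (v : K) {a b : K} (h : a ≠ b) (hs : sg a b = 1) :
    mom κ C ({v} ∪ {a, b}) = 2 * κ ^ 3 * ((1 + sg v a) * (1 + sg v b)) +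
      (2 * κ ^ 2 - 4 * κ ^ 3) * (sdl v a + sdl v b) := by
  by_cases ha : v = a
  · simp [ha, h, mom_two h1 h, hs, sg_self, sdl]; ring
  by_cases hb : v = b
  · simp [hb, h.symm, mom_two h1 h, hs, sg_self, sg_comm h1 b a, sdl]; ring
  rw [singleton_union, mom_three h1 ha hb h, sdl, sdl, if_neg ha, if_neg hb, hs]; ring

/-- The correction for one shared vertex. -/
noncomputable def d0 (κ C : ℝ) : ℝ := 4 * κ ^ 3 - 16 * κ ^ 4 * (1 + κ * (C - 4))

/-- The correction for equal pairs. -/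
noncomputable def e0 (κ C q : ℝ) : ℝ :=
  κ ^ 2 - 8 * κ ^ 4 * (1 + κ * (2 * (q - 2) + C)) - d0 κ C

theorem mom_abcd (hK : ringChar K ≠ 2) (h1 : IsSquare (-1 : K)) {a b c d : K} (h : a ≠ b)
    (hs : sg a b = 1) (h' : c ≠ d) (hs' : sg c d = 1) :
    mom κ C ({a, b} ∪ {c, d}) =
      4 * κ ^ 4 * ((1 + sg a c) * (1 + sg a d) * (1 + sg b c) * (1 + sg b d)) *
        (1 + κ * (2 * cw a b c d + C)) +
      d0 κ C * (sdl a c * (1 + sg b d) + sdl a d * (1 + sg b c) + sdl b c * (1 + sg a d) +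
        sdl b d * (1 + sg a c)) +
      2 * e0 κ C (Fintype.card K) * (sdl a c * sdl b d + sdl a d * sdl b c) := by
  have w1 : ∀ a b c d : K, cw a b c d = cw b a c d := fun a b c d =>
    sum_congr rfl fun s _ => by ring
  have w2 : ∀ a b c d : K, cw a b c d = cw a b d c := fun a b c d =>
    sum_congr rfl fun s _ => by ring
  have hs1 := sg_comm h1 b a ▸ hs
  have hs2 := sg_comm h1 d c ▸ hs'
  by_cases ac : a = c
  · subst ac
    by_cases bd : b = d
    · subst bd
      rw [union_self, mom_two h1 h, cw_share hK]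
      simp [h, h.symm, hs, hs1, sg_self, e0, sdl]; ring
    · rw [show ({a, b} ∪ {a, d} : Finset K) = {a, b, d} by grind, mom_three h1 h h' bd,
        cw_share hK]
      simp [h', h.symm, bd, hs, hs1, hs', sg_self, d0, sdl]; ring
  by_cases ad : a = d
  · subst ad
    by_cases bc : b = c
    · subst bc
      rw [pair_comm b a, union_self, mom_two h1 h, w2, cw_share hK]
      simp [h, h.symm, hs, hs1, sg_self, e0, sdl]; ring
    · rw [show ({a, b} ∪ {c, a} : Finset K) = {a, b, c} by grind, mom_three h1 h ac bc, w2,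
        cw_share hK]
      simp [ac, h.symm, bc, hs, hs1, hs2, sg_self, d0, sdl]; ring
  by_cases bc : b = c
  · subst bc
    rw [show ({a, b} ∪ {b, d} : Finset K) = {a, b, d} by grind, mom_three h1 h ad h', w1,
      cw_share hK]
    simp [h, h', ad, hs, hs1, hs', sg_self, d0, sdl]; ring
  by_cases bd : b = d
  · subst bd
    rw [show ({a, b} ∪ {c, b} : Finset K) = {a, b, c} by grind, mom_three h1 h ac bc, w1, w2,
      cw_share hK]
    simp [h, ac, bc, hs, hs1, hs2, sg_self, d0, sdl]; ring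
  rw [show ({a, b} ∪ {c, d} : Finset K) = {a, b, c, d} by grind, mom_four h1 h ac ad bc bd h']
  simp only [sdl, ac, ad, bc, bd, hs, hs', if_false]; ring

end Pool.Agent.P.MP_9484ad_co
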