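import Mathlib
import Pool.Agent.P.MP_9484ad_co.SosMoments

namespace Pool.Agent.P.MP_9484ad_co

open Finset

variable {K : Type*} [Field K] [Fintype K] [DecidableEq K] {κ C : ℝ}

/-- The bowtie kernel. -/
noncomputable def bow (a b c d : K) : ℝ := sg a c * sg b d * cw a b c d

/-- The fan kernel. -/
noncomputable def fan (a b c d : K) : ℝ := sg a c * sg b c * sg b d * cw a b c d

/-- The wheel kernel. -/
noncomputable def whl (a b c d : K) : ℝ := sg a c * sg a d * sg b c * sg b d * cw a b c d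

variable (K) in
/-- The estimate on the three hard kernels. -/
def Hard (B C : ℝ) : Prop :=
  ∀ x : K → K → ℝ, (∀ a b, x a b = x b a) → (∀ a b, x a b ≠ 0 → a ≠ b ∧ sg a b = 1) →
    -(B * nn x) - C * (∑ a, rs x a) ^ 2 ≤ 2 * qf x bow + 4 * qf x fan + qf x whl

omit [Field K] [DecidableEq K] in
theorem qf_mul (x F G : K → K → ℝ) :
    qf x (fun a b c d => F a b * G c d) = (∑ a, ∑ b, x a b * F a b) * ∑ c, ∑ d, x c d * G c d := by
  simp only [qf, sum_mul]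
  simp only [mul_sum]
  exact sum_congr rfl fun _ _ => sum_congr rfl fun _ _ => sum_congr rfl fun _ _ =>
    sum_congr rfl fun _ _ => by ring

theorem pair_form (hK : ringChar K ≠ 2) (h1 : IsSquare (-1 : K)) {x : K → K → ℝ}
    (hx : ∀ a b, x a b = x b a) (he : ∀ a b, x a b ≠ 0 → a ≠ b ∧ sg a b = 1) :
    qf x (fun a b c d => mom κ C ({a, b} ∪ {c, d})) =
      4 * κ ^ 4 * (1 + κ * C) * ((∑ a, rs x a) ^ 2 + 4 * ∑ a, ∑ c, sg a c * rs x a * rs x c +
        4 * ∑ a, rs x a * nb x a + 2 * qf x (fun a b c d => sg a c * sg b d * 1) +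
        4 * qf x (fun a b c d => sg a c * sg b d * sg a d) +
        qf x (fun a b c d => sg a c * sg a d * sg b c * sg b d)) +
      8 * κ ^ 5 * (∑ a, nb x a ^ 2 + 4 * qf x (fun a b c d => sg a c * cw a b c d) +
        4 * qf x (fun a b c d => sg a c * sg a d * cw a b c d) +
        (2 * qf x bow + 4 * qf x fan + qf x whl)) +
      4 * d0 κ C * (∑ a, rs x a ^ 2 + ∑ a, ∑ b, ∑ d, sg b d * x a b * x a d) +
      4 * e0 κ C (Fintype.card K) * nn x := by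
  have q1 : (∑ a, rs x a) ^ 2 = qf x fun _ _ _ _ => 1 * 1 := by
    rw [qf_mul x (fun _ _ => 1) fun _ _ => 1]; simp [rs, sq]
  have q2 : ∑ a, ∑ c, sg a c * rs x a * rs x c = qf x fun a _ c _ => sg a c := by
    refine sum_congr rfl fun a _ => ?_
    rw [eq_comm, sum_comm]
    simp only [rs, mul_assoc, sum_mul_sum]
    simp only [mul_sum]
    exact sum_congr rfl fun _ _ => sum_congr rfl fun _ _ => sum_congr rfl fun _ _ => by ring
  have q3 : ∑ a, rs x a * nb x a = qf x fun a _ c d => sg a c * sg a d := by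
    refine sum_congr rfl fun a _ => ?_
    simp only [rs, nb, sum_mul]
    simp only [mul_sum, mul_assoc]
  have q4 : ∑ a, nb x a ^ 2 = qf x fun a b c d => 1 * cw a b c d := by
    rw [qf_cw]
    refine sum_congr rfl fun s _ => ?_
    rw [sq, nb, ← qf_mul]
    exact qf_congr fun _ _ _ _ _ _ => by ring
  have q5 : ∑ a, rs x a ^ 2 + ∑ a, ∑ b, ∑ d, sg b d * x a b * x a d =
      qf x fun a b c d => sdl a c * (1 + sg b d) := by
    rw [← sum_add_distrib]
    refine sum_congr rfl fun a _ => ?_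
    simp only [rs, sq, sum_mul_sum, ← sum_add_distrib]
    refine sum_congr rfl fun b _ => ?_
    rw [eq_comm, sum_eq_single a (fun c _ h => by simp [sdl, h.symm]) (by simp)]
    exact sum_congr rfl fun _ _ => by simp [sdl]; ring
  have q6 : nn x = qf x fun a b c d => sdl a c * sdl b d := by
    simp [nn, qf, sdl, sq]
  rw [qf_congr fun a b c d h h' => mom_abcd hK h1 (he a b h).1 (he a b h).2 (he c d h').1
    (he c d h').2, q1, q2, q3, q4, q5, q6]
  simp only [← qf_smul, ← qf_add]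
  refine qf_of_sym8 hx fun a b c d => ?_
  have w : cw b a c d = cw a b c d ∧ cw a b d c = cw a b c d ∧ cw b a d c = cw a b c d ∧
      cw c d a b = cw a b c d ∧ cw d c a b = cw a b c d ∧ cw c d b a = cw a b c d ∧
      cw d c b a = cw a b c d := by
    refine ⟨?_, ?_, ?_, ?_, ?_, ?_, ?_⟩ <;> exact sum_congr rfl fun s _ => by ring
  simp only [sym8, bow, fan, whl, w, sg_comm h1 c a, sg_comm h1 c b, sg_comm h1 d a,
    sg_comm h1 d b, dl_comm c a, dl_comm c b, dl_comm d a, dl_comm d b]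
  ring

theorem mixed_form (h1 : IsSquare (-1 : K)) {x : K → K → ℝ} (hx : ∀ a b, x a b = x b a)
    (he : ∀ a b, x a b ≠ 0 → a ≠ b ∧ sg a b = 1) (v : K) :
    ∑ a, ∑ b, x a b * mom κ C ({v} ∪ {a, b}) =
      2 * κ ^ 3 * (∑ a, rs x a + 2 * ∑ a, sg v a * rs x a + nb x v) +
        2 * (2 * κ ^ 2 - 4 * κ ^ 3) * rs x v := by
  have e : ∀ a b, x a b * mom κ C ({v} ∪ {a, b}) = 2 * κ ^ 3 * (x a b + (sg v a * x a b +
      sg v b * x b a) + x a b * (sg v a * sg v b)) + (2 * κ ^ 2 - 4 * κ ^ 3) *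
      (sdl v a * x a b + sdl v b * x b a) := fun a b => by
    rw [hx b a]
    by_cases h : x a b = 0
    · simp [h]
    · rw [mom_vab h1 v (he a b h).1 (he a b h).2]; ring
  simp only [e, sum_add_distrib, ← mul_sum]
  rw [sum_comm (f := fun a b => sg v b * x b a), sum_comm (f := fun a b => sdl v b * x b a)]
  simp only [← mul_sum]
  simp only [sdl, ite_mul, one_mul, zero_mul, sum_ite_eq, mem_univ, if_true, rs, nb]
  ring

theorem single_form (h1 : IsSquare (-1 : K)) (u : K → ℝ) :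
    ∑ v, ∑ w, u v * u w * mom κ C ({v} ∪ {w}) =
      κ ^ 2 * ((∑ v, u v) ^ 2 + ∑ v, ∑ w, sg v w * u v * u w) + (κ - κ ^ 2) * ∑ v, u v ^ 2 := by
  rw [sq (∑ v, u v), sum_mul_sum]
  simp only [mom_vw h1, mul_sum, ← sum_add_distrib]
  refine sum_congr rfl fun v _ => ?_
  simp only [mul_add, sum_add_distrib, sdl, mul_ite, mul_one, mul_zero, sum_ite_eq, mem_univ,
    if_true]
  simp only [← sum_add_distrib]
  congr 1
  · exact sum_congr rfl fun _ _ => by ring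
  · ring

theorem total_form (h1 : IsSquare (-1 : K)) (c : Finset K → ℝ)
    (hc : ∀ S : Finset K, 2 < S.card → c S = 0) :
    ∃ x : K → K → ℝ, (∀ a b, x a b = x b a) ∧ (∀ a b, x a b ≠ 0 → a ≠ b ∧ sg a b = 1) ∧
      ∑ S, ∑ T, c S * c T * mom κ C (S ∪ T) =
        c ∅ ^ 2 + 2 * c ∅ * κ * ∑ v, c {v} + 2 * c ∅ * κ ^ 2 * ∑ a, rs x a +
        ∑ v, ∑ w, c {v} * c {w} * mom κ C ({v} ∪ {w}) +
        ∑ v, c {v} * ∑ a, ∑ b, x a b * mom κ C ({v} ∪ {a, b}) +
        qf x (fun a b c d => mom κ C ({a, b} ∪ {c, d})) / 4 := by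
  classical
  set x : K → K → ℝ := fun a b => if a ≠ b ∧ sg a b = 1 then c {a, b} else 0 with hxd
  have he : ∀ a b, x a b ≠ 0 → a ≠ b ∧ sg a b = 1 := fun a b h => by
    by_contra h'
    exact h (if_neg h')
  have key : ∀ G : Finset K → ℝ, (∀ a b, a ≠ b → sg a b ≠ 1 → G {a, b} = 0) →
      ∑ S, c S * G S = c ∅ * G ∅ + ∑ a, c {a} * G {a} + (∑ a, ∑ b, x a b * G {a, b}) / 2 := by
    intro G hG
    rw [split_sum _ fun S h => by simp [hc S h]]
    congr 2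
    refine sum_congr rfl fun a _ => sum_congr rfl fun b _ => ?_
    by_cases h : a = b
    · simp [x, h]
    by_cases h' : sg a b = 1
    · simp [x, h, h']
    · simp [x, h, h', hG a b h h']
  have k2 : ∀ S, ∑ T, c T * mom κ C (S ∪ T) = _ := fun S =>
    key (fun T => mom κ C (S ∪ T)) fun a b h h' =>
      mom_nonedge (a := a) (b := b) (by simp) (by simp) h h'
  have e2 : ∀ a b, x a b * mom κ C {a, b} = 2 * κ ^ 2 * x a b := fun a b => by
    by_cases h : x a b = 0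
    · simp [h]
    · rw [mom_two h1 (he a b h).1, (he a b h).2]; ring
  refine ⟨x, fun a b => ?_, he, ?_⟩
  · simp only [x, sg_comm h1 a b, pair_comm a b, ne_comm (a := a)]
  simp only [mul_assoc, ← mul_sum]
  rw [key _ fun a b h h' => sum_eq_zero fun T _ => by
    rw [mom_nonedge (a := a) (b := b) (by simp) (by simp) h h', mul_zero]]
  simp only [k2]
  simp only [empty_union, union_empty, mom_empty, mom_one, e2, mul_add, sum_add_distrib]
  have e3 : ∑ a, ∑ b, x a b * ∑ v, c {v} * mom κ C ({a, b} ∪ {v}) =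
      ∑ v, c {v} * ∑ a, ∑ b, x a b * mom κ C ({v} ∪ {a, b}) := by
    simp only [mul_sum]
    rw [eq_comm, sum_comm]
    refine sum_congr rfl fun a _ => ?_
    rw [sum_comm]
    exact sum_congr rfl fun b _ => sum_congr rfl fun v _ => by rw [union_comm]; ring
  have e4 : ∑ a, ∑ b, x a b * (c ∅ * mom κ C {a, b}) = c ∅ * (2 * κ ^ 2) * ∑ a, rs x a := by
    simp only [rs, mul_sum]
    exact sum_congr rfl fun a _ => sum_congr rfl fun b _ => by
      linear_combination c ∅ * e2 a b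
  have e5 : ∑ a, ∑ b, x a b * ((∑ c, ∑ d, x c d * mom κ C ({a, b} ∪ {c, d})) / 2) =
      qf x (fun a b c d => mom κ C ({a, b} ∪ {c, d})) / 2 := by
    simp only [qf, ← mul_div_assoc, ← sum_div, mul_sum, mul_assoc]
  rw [e3, e4, e5]
  simp only [← mul_div_assoc, ← sum_div, ← mul_sum, ← sum_mul, mul_left_comm _ (c ∅), rs]
  ring

theorem rest_nonneg {κ r C B N nl T Sll R T5 : ℝ} (hκ : 0 ≤ κ) (hr : 1 ≤ r) (hC : 0 ≤ C)
    (hCr : C ≤ r) (ht : κ * r ≤ 1 / 40) (hCt : C * (κ * r) ≤ 1) (hB : κ ^ 3 * B ≤ 1 / 10)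
    (hN : 0 ≤ N) (h0 : 0 ≤ nl) (hl : nl ≤ r ^ 2 * N) (hT : -(8 * r ^ 2 * N) ≤ T)
    (hS : -(r * nl) ≤ Sll) (hR : -(3 * r ^ 3 * N) ≤ R) (h5 : -(r * N) ≤ T5) :
    0 ≤ κ ^ 2 * N - 8 * κ ^ 4 * nl - 8 * C ^ 2 * κ ^ 5 * nl + κ ^ 4 * (1 + κ * C) * T +
      4 * C * κ ^ 5 * Sll + 8 * κ ^ 5 * R - 2 * κ ^ 5 * B * N - 16 * κ ^ 5 * (C - 4) * nl +
      d0 κ C * (T5 - N) - 8 * κ ^ 4 * (1 + κ * (2 * (r ^ 2 - 2) + C)) * N := by
  set t := κ * r with htd
  have t0 : κ ≤ t := le_mul_of_one_le_right hκ hr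
  have t1 : 0 ≤ t := hκ.trans t0
  have c0 : 0 ≤ κ * C := by positivity
  have c1 : κ * C ≤ 1 := by nlinarith
  have c2 : C ^ 2 * κ ≤ 1 := by nlinarith [mul_le_mul_of_nonneg_left hCr c0]
  have t2 : t ^ 2 ≤ 1 / 1600 := by nlinarith
  have t3 : t ^ 3 ≤ 1 / 1600 := by nlinarith
  set M := κ ^ 2 * N with hM
  have M0 : 0 ≤ M := by positivity
  have a0 : 0 ≤ κ ^ 4 * nl := by positivity
  have a1 : κ ^ 4 * nl ≤ M / 1600 :=
    calc _ ≤ κ ^ 4 * (r ^ 2 * N) := by gcongr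
      _ = t ^ 2 * M := by rw [hM, htd]; ring
      _ ≤ _ := by nlinarith
  have b1 : C ^ 2 * κ ^ 5 * nl ≤ κ ^ 4 * nl := by nlinarith
  have b2 : κ ^ 5 * (C - 4) * nl ≤ κ ^ 4 * nl := by nlinarith [mul_nonneg hκ a0]
  have b3 : -(M / 100) ≤ κ ^ 4 * (1 + κ * C) * T :=
    calc _ ≤ -(8 * (1 + κ * C) * t ^ 2 * M) := by
          have : (1 + κ * C) * t ^ 2 ≤ 1 / 800 := by nlinarith
          nlinarith
      _ = κ ^ 4 * (1 + κ * C) * -(8 * r ^ 2 * N) := by rw [hM, htd]; ring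
      _ ≤ _ := by gcongr
  have b4 : -(κ ^ 4 * nl) ≤ C * κ ^ 5 * Sll :=
    calc _ ≤ -(C * t * (κ ^ 4 * nl)) := by nlinarith
      _ = C * κ ^ 5 * -(r * nl) := by rw [htd]; ring
      _ ≤ _ := by gcongr
  have b5 : -(3 * M / 1600) ≤ κ ^ 5 * R :=
    calc _ ≤ -(3 * t ^ 3 * M) := by nlinarith
      _ = κ ^ 5 * -(3 * r ^ 3 * N) := by rw [hM, htd]; ring
      _ ≤ _ := by gcongr
  have b6 : κ ^ 5 * B * N ≤ M / 10 :=
    calc _ = κ ^ 3 * B * M := by rw [hM]; ring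
      _ ≤ _ := by nlinarith
  have b7 : -(M / 5) ≤ d0 κ C * (T5 - N) := by
    have e : d0 κ C = κ ^ 3 * (4 - 16 * κ * (1 + κ * (C - 4))) := by rw [d0]; ring
    have f0 : 0 ≤ 1 + κ * (C - 4) := by nlinarith
    have f1 : 0 ≤ 4 - 16 * κ * (1 + κ * (C - 4)) := by nlinarith
    have f2 : 4 - 16 * κ * (1 + κ * (C - 4)) ≤ 4 := by nlinarith [mul_nonneg hκ f0]
    calc _ ≤ -(4 * (t + κ) * M) := by nlinarith
      _ ≤ -((4 - 16 * κ * (1 + κ * (C - 4))) * ((t + κ) * M)) := by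
          nlinarith [mul_nonneg (add_nonneg t1 hκ) M0]
      _ = d0 κ C * (-(r * N) - N) := by rw [e, hM, htd]; ring
      _ ≤ _ := by rw [e]; gcongr
  have b8 : κ ^ 4 * (1 + κ * (2 * (r ^ 2 - 2) + C)) * N ≤ M / 400 :=
    calc _ = (κ ^ 2 * (1 + κ * C) + 2 * κ * t ^ 2 - 4 * κ ^ 3) * M := by rw [hM, htd]; ring
      _ ≤ 1 / 400 * M := by
          gcongr
          have : κ ^ 2 ≤ 1 / 1600 := by nlinarith
          nlinarith [pow_nonneg hκ 3, sq_nonneg κ, sq_nonneg t]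
      _ = _ := by ring
  linarith

theorem sos_layer (hK : ringChar K ≠ 2) (h1 : IsSquare (-1 : K)) {r B : ℝ} (hr : 1 ≤ r)
    (hq : r ^ 2 = Fintype.card K) (hκ : 0 ≤ κ) (hC : 0 ≤ C) (hCr : C ≤ r) (ht : κ * r ≤ 1 / 40)
    (hCt : C * (κ * r) ≤ 1) (hB : κ ^ 3 * B ≤ 1 / 10) (H : Hard K B (C / 2))
    (c : Finset K → ℝ) (hc : ∀ S : Finset K, 2 < S.card → c S = 0) :
    0 ≤ ∑ S, ∑ T, c S * c T * mom κ C (S ∪ T) := by
  obtain ⟨x, hx, he, h⟩ := total_form (κ := κ) (C := C) h1 c hc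
  have hd : ∀ a, x a a = 0 := fun a => by_contra fun h => (he a a h).1 rfl
  have hH := H x hx he
  have r0 : 0 ≤ r := zero_le_one.trans hr
  have p1 := abs_le.1 (path_bound hK h1 r0 hq hx (fun _ _ => 1) (by simp))
  have p2 := abs_le.1 (path_bound hK h1 r0 hq hx sg sg_sq_le)
  have p3 := abs_le.1 (cyc_bound hK hd)
  have p4 := abs_le.1 (edge_bound hK r0 hq x)
  have p5 := abs_le.1 (star_bound hK h1 (zero_lt_one.trans_le hr) hq hd)
  have p6 := rs_norm x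
  rw [← hq] at p3 p6
  have key := rest_nonneg hκ hr hC hCr ht hCt hB (nn_nonneg x)
    (sum_nonneg fun a _ => sq_nonneg (rs x a)) p6
    (T := 2 * qf x (fun a b c d => sg a c * sg b d * 1) +
        4 * qf x (fun a b c d => sg a c * sg b d * sg a d) +
        qf x (fun a b c d => sg a c * sg a d * sg b c * sg b d)) (by linarith [p1.1, p2.1, p3.1])
    (abs_le.1 (sg_form hK r0 hq (rs x))).1
    (R := qf x (fun a b c d => sg a c * cw a b c d) +
      qf x (fun a b c d => sg a c * sg a d * cw a b c d)) (by linarith [p4.1, p5.1])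
    (abs_le.1 (share_bound hK r0 hq x)).1
  rw [h, pair_form hK h1 hx he, single_form h1 fun v => c {v}]
  simp only [mixed_form h1 hx he]
  set u : K → ℝ := fun v => c {v}
  set l := rs x
  set k := nb x
  have s1 := (abs_le.1 (sg_form hK r0 hq fun v => u v + 2 * κ * l v)).1
  have s2 : 0 ≤ ∑ v, (u v + 2 * κ * l v + 3 / 2 * κ ^ 2 * k v) ^ 2 :=
    sum_nonneg fun _ _ => sq_nonneg _
  have s3 : 0 ≤ ∑ v, (k v + 4 * C * l v) ^ 2 := sum_nonneg fun _ _ => sq_nonneg _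
  have s4 : 0 ≤ ∑ v, u v ^ 2 := sum_nonneg fun _ _ => sq_nonneg _
  have s5 : 0 ≤ ∑ v, (u v + 2 * κ * l v) ^ 2 := sum_nonneg fun _ _ => sq_nonneg _
  have i1 : ∑ v, ∑ w, sg v w * (u v + 2 * κ * l v) * (u w + 2 * κ * l w) =
      ∑ v, ∑ w, sg v w * u v * u w + 4 * κ * ∑ v, u v * ∑ w, sg v w * l w +
        4 * κ ^ 2 * ∑ v, ∑ w, sg v w * l v * l w := by
    have : ∑ v, ∑ w, sg v w * l v * u w = ∑ v, ∑ w, sg v w * u v * l w := by
      rw [sum_comm]
      exact sum_congr rfl fun v _ => sum_congr rfl fun w _ => by rw [sg_comm h1 v w]; ring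
    have e : ∀ v w, sg v w * (u v + 2 * κ * l v) * (u w + 2 * κ * l w) = sg v w * u v * u w +
      2 * κ * (sg v w * u v * l w) + 2 * κ * (sg v w * l v * u w) +
        4 * κ ^ 2 * (sg v w * l v * l w) := fun v w => by ring
    have e' : ∑ v, u v * ∑ w, sg v w * l w = ∑ v, ∑ w, sg v w * u v * l w := by
      simp only [mul_sum]
      exact sum_congr rfl fun v _ => sum_congr rfl fun w _ => by ring
    simp only [e, sum_add_distrib, ← mul_sum, this, e']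
    ring
  have i2 : ∑ v, (u v + 2 * κ * l v) ^ 2 =
      ∑ v, u v ^ 2 + 4 * κ * ∑ v, u v * l v + 4 * κ ^ 2 * ∑ v, l v ^ 2 := by
    simp only [mul_sum, ← sum_add_distrib]
    exact sum_congr rfl fun _ _ => by ring
  have i3 : ∑ v, (u v + 2 * κ * l v + 3 / 2 * κ ^ 2 * k v) ^ 2 = ∑ v, (u v + 2 * κ * l v) ^ 2 +
      3 * κ ^ 2 * ∑ v, u v * k v + 6 * κ ^ 3 * ∑ v, l v * k v + 9 / 4 * κ ^ 4 * ∑ v, k v ^ 2 := by
    simp only [mul_sum, ← sum_add_distrib]
    exact sum_congr rfl fun _ _ => by ring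
  have i4 : ∑ v, (k v + 4 * C * l v) ^ 2 =
      ∑ v, k v ^ 2 + 8 * C * ∑ v, l v * k v + 16 * C ^ 2 * ∑ v, l v ^ 2 := by
    simp only [mul_sum, ← sum_add_distrib]
    exact sum_congr rfl fun _ _ => by ring
  have i5 : ∀ (σ : ℝ) (m : K → ℝ), ∑ v, u v * (2 * κ ^ 3 * (σ + 2 * m v + k v) +
      2 * (2 * κ ^ 2 - 4 * κ ^ 3) * l v) = 2 * κ ^ 3 * (∑ v, u v) * σ +
      4 * κ ^ 3 * ∑ v, u v * m v + 2 * κ ^ 3 * ∑ v, u v * k v +
      2 * (2 * κ ^ 2 - 4 * κ ^ 3) * ∑ v, u v * l v := fun σ m => by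
    simp only [mul_sum, sum_mul, ← sum_add_distrib]
    exact sum_congr rfl fun _ _ => by ring
  have k0 : κ ≤ 1 / 40 := (le_mul_of_one_le_right hκ hr).trans ht
  have j1 := mul_nonneg (mul_nonneg hκ (show 0 ≤ 1 / 3 - κ * r - 2 * κ by linarith)) s5
  have j2 := mul_le_mul_of_nonneg_left s1 (sq_nonneg κ)
  have j3 := mul_le_mul_of_nonneg_left hH (pow_nonneg hκ 5)
  have j4 := mul_nonneg hκ s2
  have j5 := mul_nonneg (pow_nonneg hκ 5) s3
  have j6 := mul_nonneg (sq_nonneg κ) s4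
  rw [i3] at j4
  rw [i1] at j2
  rw [i4] at j5
  rw [i2] at j1 j2 j4
  rw [i5, e0, ← hq]
  rw [d0] at key ⊢
  linarith [sq_nonneg (c ∅ + κ * ∑ v, u v + κ ^ 2 * ∑ a, l a)]

end Pool.Agent.P.MP_9484ad_co
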