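import Pool.Agent.P.MP_9484ad_co.Nuc

/-! The Banach algebra of power series with `∑ ‖a n‖ R ^ n < ∞`. -/

namespace Pool.Agent.P.MP_9484ad_co

open Finset

noncomputable section

theorem an_summable_of_fin {A : Type*} [NormedCommRing A] (R : ℕ) (a : ℕ → A) (s : Finset ℕ)
    (h : ∀ n ∉ s, a n = 0) : Summable fun n => ‖a n‖ * (R : ℝ) ^ n :=
  summable_of_ne_finset_zero (s := s) fun n hn => by simp [h n hn]

theorem an_coeff_mul_le {A : Type*} [NormedCommRing A] (R : ℕ) (f g : PowerSeries A) (n : ℕ) :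
    ‖PowerSeries.coeff n (f * g)‖ * (R : ℝ) ^ n ≤
      ∑ p ∈ antidiagonal n, (‖PowerSeries.coeff p.1 f‖ * (R : ℝ) ^ p.1) *
        (‖PowerSeries.coeff p.2 g‖ * (R : ℝ) ^ p.2) := by
  rw [PowerSeries.coeff_mul]
  refine (mul_le_mul_of_nonneg_right (norm_sum_le _ _) (by positivity)).trans ?_
  rw [sum_mul]
  refine sum_le_sum fun p hp => ?_
  rw [HasAntidiagonal.mem_antidiagonal] at hp
  rw [← hp, pow_add]
  calc ‖PowerSeries.coeff p.1 f * PowerSeries.coeff p.2 g‖ * ((R : ℝ) ^ p.1 * (R : ℝ) ^ p.2)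
      ≤ (‖PowerSeries.coeff p.1 f‖ * ‖PowerSeries.coeff p.2 g‖) *
          ((R : ℝ) ^ p.1 * (R : ℝ) ^ p.2) :=
        mul_le_mul_of_nonneg_right (norm_mul_le _ _) (by positivity)
    _ = _ := by ring

theorem an_summable_norm {A : Type*} [NormedCommRing A] {R : ℕ} {a : ℕ → A}
    (h : Summable fun n => ‖a n‖ * (R : ℝ) ^ n) : Summable fun n => ‖‖a n‖ * (R : ℝ) ^ n‖ := by
  refine h.congr fun n => ?_
  rw [Real.norm_of_nonneg (by positivity)]

theorem an_summable_anti {A : Type*} [NormedCommRing A] {R : ℕ} {a b : ℕ → A}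
    (ha : Summable fun n => ‖a n‖ * (R : ℝ) ^ n) (hb : Summable fun n => ‖b n‖ * (R : ℝ) ^ n) :
    Summable fun n => ∑ p ∈ antidiagonal n, (‖a p.1‖ * (R : ℝ) ^ p.1) * (‖b p.2‖ * (R : ℝ) ^ p.2) :=
  (summable_norm_sum_mul_antidiagonal_of_summable_norm (f := fun n => ‖a n‖ * (R : ℝ) ^ n)
    (g := fun n => ‖b n‖ * (R : ℝ) ^ n) (an_summable_norm ha) (an_summable_norm hb)).of_norm

theorem an_summable_mul {A : Type*} [NormedCommRing A] {R : ℕ} {f g : PowerSeries A}
    (hf : Summable fun n => ‖PowerSeries.coeff n f‖ * (R : ℝ) ^ n)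
    (hg : Summable fun n => ‖PowerSeries.coeff n g‖ * (R : ℝ) ^ n) :
    Summable fun n => ‖PowerSeries.coeff n (f * g)‖ * (R : ℝ) ^ n := by
  have h := an_summable_anti (a := fun n => PowerSeries.coeff n f)
    (b := fun n => PowerSeries.coeff n g) hf hg
  exact Summable.of_nonneg_of_le (fun n => by positivity) (fun n => an_coeff_mul_le R f g n) h

theorem an_tsum_mul_le {A : Type*} [NormedCommRing A] {R : ℕ} {f g : PowerSeries A}
    (hf : Summable fun n => ‖PowerSeries.coeff n f‖ * (R : ℝ) ^ n)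
    (hg : Summable fun n => ‖PowerSeries.coeff n g‖ * (R : ℝ) ^ n) :
    ∑' n, ‖PowerSeries.coeff n (f * g)‖ * (R : ℝ) ^ n ≤
      (∑' n, ‖PowerSeries.coeff n f‖ * (R : ℝ) ^ n) *
        ∑' n, ‖PowerSeries.coeff n g‖ * (R : ℝ) ^ n := by
  have h := an_summable_anti (a := fun n => PowerSeries.coeff n f)
    (b := fun n => PowerSeries.coeff n g) hf hg
  have h2 := tsum_mul_tsum_eq_tsum_sum_antidiagonal_of_summable_norm
    (f := fun n => ‖PowerSeries.coeff n f‖ * (R : ℝ) ^ n)
    (g := fun n => ‖PowerSeries.coeff n g‖ * (R : ℝ) ^ n)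
    (an_summable_norm (a := fun n => PowerSeries.coeff n f) hf)
    (an_summable_norm (a := fun n => PowerSeries.coeff n g) hg)
  rw [h2]
  exact (an_summable_mul hf hg).tsum_le_tsum (fun n => an_coeff_mul_le R f g n) h

def anSub (A : Type*) [NormedCommRing A] (R : ℕ) : Subring (PowerSeries A) where
  carrier := {f | Summable fun n => ‖PowerSeries.coeff n f‖ * (R : ℝ) ^ n}
  zero_mem' := an_summable_of_fin R _ ∅ fun n _ => by simp
  one_mem' := an_summable_of_fin R _ {0} fun n hn => by
    rw [mem_singleton] at hn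
    simp [PowerSeries.coeff_one, hn]
  add_mem' := by
    intro f g hf hg
    refine Summable.of_nonneg_of_le (fun n => by positivity) (fun n => ?_) (Summable.add hf hg)
    rw [map_add, ← add_mul]
    exact mul_le_mul_of_nonneg_right (norm_add_le _ _) (by positivity)
  neg_mem' := by
    intro f hf
    refine Summable.congr hf fun n => ?_
    simp
  mul_mem' := by
    intro f g hf hg
    exact an_summable_mul hf hg

def An (A : Type*) [NormedCommRing A] (R : ℕ) : Type _ := anSub A R

namespace An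

variable {A B : Type*} [NormedCommRing A] [NormedCommRing B] {R R' : ℕ}

instance : CommRing (An A R) := inferInstanceAs (CommRing (anSub A R))

/-- the underlying power series -/
def val : An A R →+* PowerSeries A := (anSub A R).subtype

theorem val_injective : Function.Injective (val : An A R → PowerSeries A) := Subtype.val_injective

def co (n : ℕ) (f : An A R) : A := PowerSeries.coeff n (val f)

theorem ext_co {f g : An A R} (h : ∀ n, co n f = co n g) : f = g :=
  val_injective (PowerSeries.ext h)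

theorem summable (f : An A R) : Summable fun n => ‖co n f‖ * (R : ℝ) ^ n := f.2

def mk (a : ℕ → A) (h : Summable fun n => ‖a n‖ * (R : ℝ) ^ n) : An A R :=
  ⟨PowerSeries.mk a, by simpa [anSub] using h⟩

@[simp] theorem co_mk (a : ℕ → A) (h : Summable fun n => ‖a n‖ * (R : ℝ) ^ n) (n : ℕ) :
    co n (mk a h) = a n := PowerSeries.coeff_mk _ _

theorem co_zero (n : ℕ) : co n (0 : An A R) = 0 := by
  simp [co]

theorem co_add (n : ℕ) (f g : An A R) : co n (f + g) = co n f + co n g := by
  simp [co]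

theorem co_neg (n : ℕ) (f : An A R) : co n (-f) = -co n f := by
  simp [co]

theorem co_sub (n : ℕ) (f g : An A R) : co n (f - g) = co n f - co n g := by
  simp [co]

theorem co_sum {α : Type*} (s : Finset α) (n : ℕ) (f : α → An A R) :
    co n (∑ i ∈ s, f i) = ∑ i ∈ s, co n (f i) := by
  simp [co]

theorem co_mul (n : ℕ) (f g : An A R) :
    co n (f * g) = ∑ p ∈ antidiagonal n, co p.1 f * co p.2 g := by
  simp only [co, map_mul, PowerSeries.coeff_mul]

/-- polynomials as elements of `An A R` -/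
def ofPoly : Polynomial A →+* An A R :=
  (Polynomial.coeToPowerSeries.ringHom (R := A)).codRestrict (anSub A R) (fun P =>
    an_summable_of_fin R _ P.support fun n hn => by
      rw [Polynomial.coeToPowerSeries.ringHom_apply, Polynomial.coeff_coe]
      exact Polynomial.notMem_support_iff.1 hn)

@[simp] theorem co_ofPoly (P : Polynomial A) (n : ℕ) : co n (ofPoly P : An A R) = P.coeff n :=
  Polynomial.coeff_coe _ _

def X : An A R := ofPoly Polynomial.X

def C : A →+* An A R := ofPoly.comp Polynomial.C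

theorem C_mul_X_pow (a : A) (n : ℕ) :
    (C a * X ^ n : An A R) = ofPoly (Polynomial.monomial n a) := by
  rw [← Polynomial.C_mul_X_pow_eq_monomial, map_mul, map_pow]
  rfl

theorem co_C_mul_X_pow (a : A) (n m : ℕ) :
    co m (C a * X ^ n : An A R) = if n = m then a else 0 := by
  rw [C_mul_X_pow, co_ofPoly, Polynomial.coeff_monomial]

theorem val_C (a : A) : val (C a : An A R) = PowerSeries.C a :=
  Polynomial.coe_C a

theorem co_C_mul (a : A) (f : An A R) (n : ℕ) : co n (C a * f) = a * co n f := by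
  simp only [co, map_mul, val_C, PowerSeries.coeff_C_mul]

variable [R.AtLeastTwo] [R'.AtLeastTwo]

theorem R_pos : (0 : ℝ) < R := by
  have := Nat.AtLeastTwo.prop (n := R)
  have : 0 < R := by omega
  exact_mod_cast this

instance : NormedAddCommGroup (An A R) :=
  AddGroupNorm.toNormedAddCommGroup
    { toFun := fun f => ∑' n, ‖co n f‖ * (R : ℝ) ^ n
      map_zero' := by simp [co_zero]
      add_le' := fun f g => by
        rw [← (summable f).tsum_add (summable g)]
        refine (summable (f + g)).tsum_le_tsum (fun n => ?_) ((summable f).add (summable g))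
        rw [co_add, ← add_mul]
        exact mul_le_mul_of_nonneg_right (norm_add_le _ _) (by positivity)
      neg' := fun f => by simp [co_neg]
      eq_zero_of_map_eq_zero' := fun f hf => by
        refine ext_co fun n => ?_
        have h1 : ‖co n f‖ * (R : ℝ) ^ n ≤ ∑' n, ‖co n f‖ * (R : ℝ) ^ n :=
          (summable f).le_tsum n fun m _ => by positivity
        have hf' : ∑' n, ‖co n f‖ * (R : ℝ) ^ n = 0 := hf
        rw [hf'] at h1
        have h2 : (0 : ℝ) < (R : ℝ) ^ n := pow_pos R_pos n
        have h3 : ‖co n f‖ ≤ 0 := by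
          by_contra h
          push Not at h
          exact absurd h1 (not_le.2 (mul_pos h h2))
        rw [co_zero]
        exact norm_le_zero_iff.1 h3 }

theorem norm_def (f : An A R) : ‖f‖ = ∑' n, ‖co n f‖ * (R : ℝ) ^ n := rfl

instance : NormedCommRing (An A R) :=
  { (inferInstance : CommRing (An A R)), (inferInstance : NormedAddCommGroup (An A R)) with
    norm_mul_le := fun f g => by
      have h := an_tsum_mul_le (f := val f) (g := val g) (summable f) (summable g)
      rw [← map_mul] at h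
      exact h }

theorem norm_co_le (f : An A R) (n : ℕ) : ‖co n f‖ * (R : ℝ) ^ n ≤ ‖f‖ :=
  (summable f).le_tsum n fun m _ => by positivity

theorem norm_C_mul_X_pow' (a : A) (n : ℕ) : ‖(C a * X ^ n : An A R)‖ = ‖a‖ * (R : ℝ) ^ n := by
  rw [norm_def, tsum_eq_single n]
  · simp [co_C_mul_X_pow]
  · intro m hm
    simp [co_C_mul_X_pow, hm.symm]

theorem norm_C (a : A) : ‖(C a : An A R)‖ = ‖a‖ := by
  simpa using norm_C_mul_X_pow' (R := R) a 0

theorem norm_C_mul_X_pow (a : A) (n : ℕ) : ‖(C a * X ^ n : An A R)‖ = ‖a‖ * (R : ℝ) ^ n :=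
  norm_C_mul_X_pow' a n

theorem norm_ofPoly_le (P : Polynomial A) {n : ℕ} (h : P.natDegree < n) :
    ‖(ofPoly P : An A R)‖ = ∑ i ∈ range n, ‖P.coeff i‖ * (R : ℝ) ^ i := by
  rw [norm_def, tsum_eq_sum (s := range n)]
  · simp
  · intro m hm
    rw [mem_range, not_lt] at hm
    rw [co_ofPoly, Polynomial.coeff_eq_zero_of_natDegree_lt (h.trans_le hm)]
    simp

instance [NormOneClass A] : NormOneClass (An A R) := ⟨by
  simpa using norm_C (R := R) (1 : A)⟩

theorem norm_X [NormOneClass A] : ‖(X : An A R)‖ = R := by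
  simpa using norm_C_mul_X_pow (R := R) (1 : A) 1

theorem norm_co_le' (f : An A R) (n : ℕ) : ‖co n f‖ ≤ ‖f‖ := by
  have h1 : (1 : ℝ) ≤ (R : ℝ) ^ n := by
    refine one_le_pow₀ ?_
    have := Nat.AtLeastTwo.prop (n := R)
    have : 1 ≤ R := by omega
    exact_mod_cast this
  exact (le_mul_of_one_le_right (norm_nonneg _) h1).trans (norm_co_le f n)

theorem continuous_co' (n : ℕ) : Continuous (co n : An A R → A) := by
  refine (LipschitzWith.of_dist_le_mul (K := 1) fun f g => ?_).continuous
  rw [dist_eq_norm, dist_eq_norm, ← co_sub, NNReal.coe_one, one_mul]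
  exact norm_co_le' _ n

theorem sum_le_norm (f : An A R) (s : Finset ℕ) : ∑ n ∈ s, ‖co n f‖ * (R : ℝ) ^ n ≤ ‖f‖ :=
  (summable f).sum_le_tsum s fun m _ => by positivity

instance [CompleteSpace A] : CompleteSpace (An A R) := by
  refine Metric.complete_of_cauchySeq_tendsto fun u hu => ?_
  have hc : ∀ n, CauchySeq fun k => co n (u k) := fun n =>
    (LipschitzWith.of_dist_le_mul (K := 1) (f := (co n : An A R → A)) fun f g => by
      rw [dist_eq_norm, dist_eq_norm, ← co_sub, NNReal.coe_one, one_mul]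
      exact norm_co_le' _ n).uniformContinuous.comp_cauchySeq hu
  choose a ha using fun n => cauchySeq_tendsto_of_complete (hc n)
  have key : ∀ ε > 0, ∃ N, ∀ k ≥ N, ∀ s : Finset ℕ,
      ∑ n ∈ s, ‖co n (u k) - a n‖ * (R : ℝ) ^ n ≤ ε := by
    intro ε hε
    obtain ⟨N, hN⟩ := Metric.cauchySeq_iff.1 hu ε hε
    refine ⟨N, fun k hk s => ?_⟩
    have ht : Filter.Tendsto (fun l => ∑ n ∈ s, ‖co n (u k) - co n (u l)‖ * (R : ℝ) ^ n)
        Filter.atTop (nhds (∑ n ∈ s, ‖co n (u k) - a n‖ * (R : ℝ) ^ n)) :=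
      tendsto_finsetSum _ fun n _ => ((tendsto_const_nhds.sub (ha n)).norm).mul_const _
    refine le_of_tendsto ht (Filter.eventually_atTop.2 ⟨N, fun l hl => ?_⟩)
    have h1 := hN k hk l hl
    rw [dist_eq_norm] at h1
    have h2 := sum_le_norm (u k - u l) s
    simp only [co_sub] at h2
    exact h2.trans h1.le
  have hs : Summable fun n => ‖a n‖ * (R : ℝ) ^ n := by
    obtain ⟨N, hN⟩ := key 1 one_pos
    have h1 : Summable fun n => ‖co n (u N) - a n‖ * (R : ℝ) ^ n :=
      summable_of_sum_le (fun n => by positivity) (hN N le_rfl)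
    refine Summable.of_nonneg_of_le (fun n => by positivity) (fun n => ?_)
      ((summable (u N)).add h1)
    rw [← add_mul]
    refine mul_le_mul_of_nonneg_right ?_ (by positivity)
    have := norm_sub_le (co n (u N)) (co n (u N) - a n)
    rwa [sub_sub_cancel] at this
  refine ⟨mk a hs, Metric.tendsto_atTop.2 fun ε hε => ?_⟩
  obtain ⟨N, hN⟩ := key (ε / 2) (half_pos hε)
  refine ⟨N, fun k hk => ?_⟩
  rw [dist_eq_norm, norm_def]
  refine lt_of_le_of_lt ?_ (half_lt_self hε)
  refine (summable _).tsum_le_of_sum_le fun s => ?_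
  simpa only [co_sub, co_mk] using hN k hk s

theorem hasSum (f : An A R) : HasSum (fun n => C (co n f) * X ^ n) f := by
  have h1 : ∀ s : Finset ℕ, ‖∑ n ∈ s, C (co n f) * X ^ n - f‖ =
      ∑' n : {x // x ∉ s}, ‖co n f‖ * (R : ℝ) ^ (n : ℕ) := by
    intro s
    have h2 := tsum_subtype {x | x ∉ s} fun n => ‖co n f‖ * (R : ℝ) ^ n
    rw [norm_def]
    refine Eq.trans (tsum_congr fun n => ?_) h2.symm
    rw [co_sub, co_sum]
    simp only [co_C_mul_X_pow, sum_ite_eq']
    by_cases hn : n ∈ s
    · simp [hn]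
    · simp [hn]
  have h3 := tendsto_tsum_compl_atTop_zero fun n => ‖co n f‖ * (R : ℝ) ^ n
  rw [HasSum, SummationFilter.unconditional_filter, tendsto_iff_norm_sub_tendsto_zero]
  simpa only [h1] using h3

theorem continuous_co (n : ℕ) : Continuous (co n : An A R → A) := continuous_co' n

/-- coefficientwise application of a contraction of rings -/
def map (φ : A →+* B) (h : ∀ a, ‖φ a‖ ≤ ‖a‖) : An A R →+* An B R :=
  ((PowerSeries.map φ).comp val).codRestrict (anSub B R) (fun f => by
    refine Summable.of_nonneg_of_le (fun n => by positivity) (fun n => ?_) (summable f)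
    rw [RingHom.comp_apply, PowerSeries.coeff_map]
    exact mul_le_mul_of_nonneg_right (h _) (by positivity))

@[simp] theorem co_map (φ : A →+* B) (h : ∀ a, ‖φ a‖ ≤ ‖a‖) (f : An A R) (n : ℕ) :
    co n (map φ h f) = φ (co n f) := PowerSeries.coeff_map _ _ _

theorem norm_map_le (φ : A →+* B) (h : ∀ a, ‖φ a‖ ≤ ‖a‖) (f : An A R) : ‖map φ h f‖ ≤ ‖f‖ := by
  rw [norm_def, norm_def]
  refine (summable _).tsum_le_tsum (fun n => ?_) (summable f)
  rw [co_map]
  exact mul_le_mul_of_nonneg_right (h _) (by positivity)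

theorem map_ofPoly (φ : A →+* B) (h : ∀ a, ‖φ a‖ ≤ ‖a‖) (P : Polynomial A) :
    map φ h (ofPoly P : An A R) = ofPoly (P.map φ) :=
  ext_co fun n => by rw [co_map, co_ofPoly, co_ofPoly, Polynomial.coeff_map]

section Alg

variable {K : Type*} [NontriviallyNormedField K] [NormedAlgebra K A]

instance : Algebra K (An A R) := (C.comp (algebraMap K A)).toAlgebra

theorem smul_def (k : K) (f : An A R) : k • f = C (algebraMap K A k) * f := rfl

instance : NormedAlgebra K (An A R) where
  norm_smul_le := fun k f => by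
    rw [norm_def, norm_def, ← tsum_mul_left]
    refine (summable _).tsum_le_tsum (fun n => ?_) ((summable f).mul_left _)
    rw [smul_def, co_C_mul, ← Algebra.smul_def, norm_smul, mul_assoc]

theorem co_smul (k : K) (f : An A R) (n : ℕ) : co n (k • f) = k • co n f := by
  rw [smul_def, co_C_mul, Algebra.smul_def]

end Alg

section Field

variable {K : Type*} [NontriviallyNormedField K] [CompleteSpace K]
  {D : Type*} [NormedCommRing D] [NormedAlgebra K D] [CompleteSpace D]

omit [R.AtLeastTwo] in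
theorem anb_co_add (n : ℕ) (f g : An A R) : co n (f + g) = co n f + co n g := by
  simp [co]

omit [R.AtLeastTwo] in
theorem anb_co_X_pow (m n : ℕ) : co m (X ^ n : An A R) = if m = n then 1 else 0 := by
  rw [X, ← map_pow, co_ofPoly, Polynomial.coeff_X_pow]

theorem anb_one_le (n : ℕ) : (1 : ℝ) ≤ (R : ℝ) ^ n :=
  one_le_pow₀ (by exact_mod_cast (Nat.AtLeastTwo.one_lt (n := R)).le)

theorem anb_norm_co (f : An A R) (n : ℕ) : ‖co n f‖ ≤ ‖f‖ :=
  (le_mul_of_one_le_right (norm_nonneg _) (anb_one_le n)).trans (norm_co_le f n)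

omit [CompleteSpace K] in
theorem anb_smul (k : K) (f : An K R) : k • f = C k * f := rfl

omit [CompleteSpace K] in
theorem anb_hasSum (f : An K R) : HasSum (fun n => co n f • (X ^ n : An K R)) f := hasSum f

omit [CompleteSpace K] in
theorem anb_norm_X_pow (n : ℕ) : ‖(X ^ n : An K R)‖ = (R : ℝ) ^ n := by
  simpa using norm_C_mul_X_pow (R := R) (1 : K) n

omit [CompleteSpace K] [R.AtLeastTwo] in
theorem anb_bound {V : Type*} [NormedAddCommGroup V] [NormedSpace K V] {v : ℕ → V} {c : ℝ}
    (h : ∀ n, ‖v n‖ ≤ c * (R : ℝ) ^ n) (f : An K R) (n : ℕ) :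
    ‖co n f • v n‖ ≤ c * (‖co n f‖ * (R : ℝ) ^ n) := by
  rw [norm_smul, mul_left_comm]
  exact mul_le_mul_of_nonneg_left (h n) (norm_nonneg _)

omit [CompleteSpace K] [R.AtLeastTwo] in
theorem anb_summable {V : Type*} [NormedAddCommGroup V] [NormedSpace K V] [CompleteSpace V]
    {v : ℕ → V} {c : ℝ} (h : ∀ n, ‖v n‖ ≤ c * (R : ℝ) ^ n) (f : An K R) :
    Summable fun n => co n f • v n :=
  Summable.of_norm_bounded ((summable f).mul_left c) (anb_bound h f)

omit [CompleteSpace K] in
theorem anb_tsum_le {V : Type*} [NormedAddCommGroup V] [NormedSpace K V] [CompleteSpace V]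
    {v : ℕ → V} {c : ℝ} (h : ∀ n, ‖v n‖ ≤ c * (R : ℝ) ^ n) (f : An K R) :
    ‖∑' n, co n f • v n‖ ≤ c * ‖f‖ :=
  (anb_summable h f).hasSum.norm_le_of_bounded ((summable f).hasSum.mul_left c) (anb_bound h f)

def coL (n : ℕ) : An K R →L[K] K :=
  LinearMap.mkContinuous
    { toFun := co n, map_add' := anb_co_add n, map_smul' := fun k f => co_smul k f n } 1
    (fun f => by rw [one_mul]; exact anb_norm_co f n)

@[simp] theorem coL_apply (n : ℕ) (f : An K R) : coL n f = co n f := rfl

/-- the continuous linear map with `X ^ n ↦ v n`; junk unless `‖v n‖ ≤ C * R ^ n` -/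
def lift {V : Type*} [NormedAddCommGroup V] [NormedSpace K V] [CompleteSpace V] (v : ℕ → V) :
    An K R →L[K] V := by
  classical
  exact if h : ∃ C : ℝ, ∀ n, ‖v n‖ ≤ C * (R : ℝ) ^ n then
    LinearMap.mkContinuous
      { toFun := fun f => ∑' n, co n f • v n
        map_add' := fun f g => by
          simp only [anb_co_add, add_smul]
          exact (anb_summable h.choose_spec f).tsum_add (anb_summable h.choose_spec g)
        map_smul' := fun k f => by
          simp only [co_smul, smul_assoc, RingHom.id_apply]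
          exact (anb_summable h.choose_spec f).tsum_const_smul k }
      h.choose (fun f => anb_tsum_le h.choose_spec f) else 0

section Lift

variable {V : Type*} [NormedAddCommGroup V] [NormedSpace K V] [CompleteSpace V] {v : ℕ → V} {c : ℝ}

theorem hasSum_lift (h : ∀ n, ‖v n‖ ≤ c * (R : ℝ) ^ n) (f : An K R) :
    HasSum (fun n => co n f • v n) (lift v f) := by
  have e : lift v f = ∑' n, co n f • v n := by
    unfold lift
    rw [dif_pos ⟨c, h⟩]
    rfl
  rw [e]
  exact (anb_summable h f).hasSum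

theorem norm_lift_le (h : ∀ n, ‖v n‖ ≤ c * (R : ℝ) ^ n) (f : An K R) : ‖lift v f‖ ≤ c * ‖f‖ := by
  rw [← (hasSum_lift h f).tsum_eq]
  exact anb_tsum_le h f

theorem lift_X_pow (h : ∀ n, ‖v n‖ ≤ c * (R : ℝ) ^ n) (n : ℕ) : lift v (X ^ n : An K R) = v n := by
  refine (hasSum_lift h _).unique ?_
  have := hasSum_single (f := fun m => co m (X ^ n : An K R) • v m) n
    (fun m hm => by rw [anb_co_X_pow, if_neg hm, zero_smul])
  rwa [anb_co_X_pow, if_pos rfl, one_smul] at this

theorem lift_ofPoly (h : ∀ n, ‖v n‖ ≤ c * (R : ℝ) ^ n) (P : Polynomial K) :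
    lift v (ofPoly P : An K R) = P.sum fun n a => a • v n := by
  refine (hasSum_lift h _).unique ?_
  simp only [co_ofPoly]
  exact hasSum_sum_of_ne_finset_zero fun n hn => by
    rw [Polynomial.notMem_support_iff.1 hn, zero_smul]

omit [CompleteSpace V] in
theorem clm_ext {S T : An K R →L[K] V} (h : ∀ n, S (X ^ n) = T (X ^ n)) : S = T := by
  ext f
  have h1 := (anb_hasSum f).mapL S
  have h2 := (anb_hasSum f).mapL T
  simp only [map_smul] at h1 h2
  simp only [h] at h1
  exact h1.unique h2

end Lift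

/-- substitution of `y` for `X`; junk unless the powers of `y` are `O (R ^ n)` -/
def ev (y : D) : An K R →L[K] D := lift fun n => y ^ n

/-- the powers of `y` are `O (R ^ n)` -/
def PB (R : ℕ) (y : D) : Prop := ∃ c : ℝ, ∀ n, ‖y ^ n‖ ≤ c * (R : ℝ) ^ n

theorem PB.of_le {y : D} (h : ‖y‖ ≤ R) : PB R y := by
  refine ⟨max 1 ‖(1 : D)‖, fun n => ?_⟩
  rcases Nat.eq_zero_or_pos n with rfl | hn
  · simp
  · exact ((norm_pow_le' y hn).trans (pow_le_pow_left₀ (norm_nonneg _) h n)).trans
      (le_mul_of_one_le_left (by positivity) (le_max_left _ _))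

theorem anb_ev_X_pow {y : D} (h : PB R y) (n : ℕ) : ev y (X ^ n : An K R) = y ^ n :=
  lift_X_pow h.choose_spec n

theorem ev_mul {y : D} (h : PB R y) (f g : An K R) : ev y (f * g) = ev y f * ev y g := by
  have h1 : ∀ (n : ℕ) (g : An K R), ev y (X ^ n * g) = y ^ n * ev y g := fun n g => by
    have := clm_ext (S := (ev y : An K R →L[K] D) ∘L ContinuousLinearMap.mul K (An K R) (X ^ n))
      (T := ContinuousLinearMap.mul K D (y ^ n) ∘L ev y) fun m => by
        simp only [ContinuousLinearMap.comp_apply, ContinuousLinearMap.mul_apply']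
        rw [← pow_add, anb_ev_X_pow h, anb_ev_X_pow h, pow_add]
    exact congrArg (fun L => L g) this
  have := clm_ext (S := (ev y : An K R →L[K] D) ∘L (ContinuousLinearMap.mul K (An K R)).flip g)
    (T := (ContinuousLinearMap.mul K D).flip (ev y g) ∘L ev y) fun m => by
      simp only [ContinuousLinearMap.comp_apply, ContinuousLinearMap.flip_apply,
        ContinuousLinearMap.mul_apply']
      rw [h1, anb_ev_X_pow h]
  exact congrArg (fun L => L f) this

theorem ev_ofPoly {y : D} (h : PB R y) (P : Polynomial K) :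
    ev y (ofPoly P : An K R) = Polynomial.aeval y P := by
  rw [ev, lift_ofPoly h.choose_spec, Polynomial.aeval_def, Polynomial.eval₂_eq_sum]
  simp only [Algebra.smul_def]

/-- evaluation as a ring homomorphism -/
def evH (y : D) (h : PB R y) : An K R →+* D where
  toFun := ev y
  map_one' := by simpa using anb_ev_X_pow (K := K) h 0
  map_mul' := ev_mul h
  map_zero' := map_zero _
  map_add' := map_add _

@[simp] theorem evH_apply (y : D) (h : PB R y) (f : An K R) : evH y h f = ev y f := rfl

theorem norm_ev_le [NormOneClass D] {y : D} (h : ‖y‖ ≤ R) (f : An K R) : ‖ev y f‖ ≤ ‖f‖ := by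
  have := norm_lift_le (v := fun n => y ^ n) (c := 1) (fun n => by
    rw [one_mul]
    exact (norm_pow_le y n).trans (pow_le_pow_left₀ (norm_nonneg _) h n)) f
  rwa [one_mul] at this

theorem ev_zero (f : An K R) : ev (0 : K) f = co 0 f := by
  have := clm_ext (S := (ev (0 : K) : An K R →L[K] K)) (T := coL 0) fun n => by
    rw [anb_ev_X_pow (PB.of_le (by simp)), coL_apply, anb_co_X_pow]
    rcases Nat.eq_zero_or_pos n with rfl | hn
    · simp
    · rw [if_neg hn.ne, zero_pow hn.ne']
  exact congrArg (fun L => L f) this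

theorem ev_ev {y : An K R'} (hy : PB R y) {z : D} (hz : PB R' z) (f : An K R) :
    PB R (ev z y) ∧ ev z (ev y f) = ev (ev z y) f := by
  have hp : ∀ n, ev z y ^ n = ev z (y ^ n) := fun n => (map_pow (evH z hz) y n).symm
  have h1 : PB R (ev z y) := by
    obtain ⟨c, hc⟩ := hy
    refine ⟨‖(ev z : An K R' →L[K] D)‖ * c, fun n => ?_⟩
    rw [hp, mul_assoc]
    exact (ContinuousLinearMap.le_opNorm _ _).trans
      (mul_le_mul_of_nonneg_left (hc n) (norm_nonneg _))
  refine ⟨h1, ?_⟩
  have := clm_ext (S := (ev z : An K R' →L[K] D) ∘L (ev y : An K R →L[K] An K R'))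
    (T := ev (ev z y)) fun n => by
      rw [ContinuousLinearMap.comp_apply, anb_ev_X_pow hy, anb_ev_X_pow h1, hp]
  exact congrArg (fun L => L f) this

/-- the basis of monomials -/
def basis : L1B K (An K R) ℕ where
  e n := X ^ n
  c := coL
  w n := (R : ℝ) ^ n
  C := 1
  w_pos := fun n => one_pos.trans_le (anb_one_le n)
  norm_e := fun n => (anb_norm_X_pow n).le
  summ := summable
  tsum_le := fun f => by rw [one_mul]; exact (norm_def f).ge
  hasSum := anb_hasSum
  ce_self := fun n => by rw [coL_apply, anb_co_X_pow, if_pos rfl]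
  ce_ne := fun m n h => by rw [coL_apply, anb_co_X_pow, if_neg h]

omit [CompleteSpace K] [R.AtLeastTwo] in
theorem anb_summ_pi {ι : Type} [Fintype ι] (v : ι → An K R) :
    Summable fun i : ι × ℕ => ‖co i.2 (v i.1)‖ * (R : ℝ) ^ i.2 :=
  (summable_prod_of_nonneg fun i => by positivity).2
    ⟨fun i => summable (v i), Summable.of_finite⟩

/-- the basis of monomial vectors -/
def basisPi (ι : Type) [Fintype ι] [DecidableEq ι] : L1B K (ι → An K R) (ι × ℕ) where
  e i := Pi.single i.1 (X ^ i.2)
  c i := coL i.2 ∘L ContinuousLinearMap.proj i.1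
  w i := (R : ℝ) ^ i.2
  C := Fintype.card ι
  w_pos := fun i => one_pos.trans_le (anb_one_le i.2)
  norm_e := fun i => by rw [Pi.norm_single, anb_norm_X_pow]
  summ := anb_summ_pi
  tsum_le := fun v => by
    refine ((anb_summ_pi v).tsum_prod).trans_le ?_
    rw [tsum_fintype, ← Finset.card_univ, ← nsmul_eq_mul]
    exact Finset.sum_le_card_nsmul _ _ _ fun i _ => norm_le_pi_norm v i
  hasSum := fun v => by
    have hs : Summable fun i : ι × ℕ =>
        co i.2 (v i.1) • (Pi.single i.1 (X ^ i.2) : ι → An K R) :=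
      Summable.of_norm_bounded (anb_summ_pi v) fun i => by
        rw [norm_smul, Pi.norm_single, anb_norm_X_pow]
    have h1 : HasSum (fun i : ι => (Pi.single i (v i) : ι → An K R)) _ :=
      hs.hasSum.prod_fiberwise fun i => by
        simpa only [map_smul, ContinuousLinearMap.single_apply] using
          (anb_hasSum (v i)).mapL (ContinuousLinearMap.single K (fun _ : ι => An K R) i)
    have h2 := h1.unique (hasSum_fintype _)
    rw [Finset.univ_sum_single] at h2
    have h3 := hs.hasSum
    rw [h2] at h3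
    exact h3
  ce_self := fun i => by
    simp [anb_co_X_pow]
  ce_ne := fun i j h => by
    by_cases h1 : i.1 = j.1
    · have h2 : i.2 ≠ j.2 := fun h2 => h (Prod.ext h1 h2)
      simp [h1, anb_co_X_pow, h2]
    · simp [h1, co]

variable [IsUltrametricDist K] [CharZero K]

theorem pb_X_add_C {a : K} (ha : ‖a‖ ≤ 1) : PB R (X + C a : An K R) := by
  have hR : (2 : ℝ) ≤ R := by exact_mod_cast Nat.AtLeastTwo.prop (n := R)
  have hg : ∀ n : ℕ, ∑ i ∈ range (n + 1), (R : ℝ) ^ i ≤ 2 * (R : ℝ) ^ n := by
    intro n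
    induction n with
    | zero => simp
    | succ n ih =>
      rw [Finset.sum_range_succ, pow_succ]
      have : (0 : ℝ) ≤ (R : ℝ) ^ n := by positivity
      nlinarith
  refine ⟨2, fun n => ?_⟩
  rw [add_pow]
  refine (norm_sum_le _ _).trans (le_trans (Finset.sum_le_sum fun i _ => ?_) (hg n))
  have e : (X ^ i * C a ^ (n - i) * (n.choose i : An K R) : An K R)
      = C (a ^ (n - i) * (n.choose i : K)) * X ^ i := by
    rw [map_mul, map_pow, map_natCast]
    ring
  rw [e, norm_C_mul_X_pow, norm_mul, norm_pow]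
  refine mul_le_of_le_one_left (by positivity) (mul_le_one₀ (pow_le_one₀ (norm_nonneg _) ha)
    (norm_nonneg _) (IsUltrametricDist.norm_natCast_le_one K _))

/-- the identity theorem -/
theorem eq_zero_of_nat (hp : ∃ p : ℕ, p ≠ 0 ∧ ‖(p : K)‖ < 1) {f : An K R}
    (h : ∀ n : ℕ, ev (n : K) f = 0) : f = 0 := by
  obtain ⟨p, hp0, hp1⟩ := hp
  have hR : (1 : ℝ) ≤ R := by exact_mod_cast (Nat.AtLeastTwo.one_lt (n := R)).le
  have key : ∀ k, co k f = 0 := by
    intro k
    induction k using Nat.strong_induction_on with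
    | _ k ih =>
    have h1 : ∀ t : ℕ, t ≠ 0 → ‖co k f‖ ≤ ‖(t : K)‖ * ‖f‖ := by
      intro t ht
      have ht1 : ‖(t : K)‖ ≤ 1 := IsUltrametricDist.norm_natCast_le_one K t
      have ht0 : 0 < ‖(t : K)‖ := norm_pos_iff.2 (Nat.cast_ne_zero.2 ht)
      have h2 : HasSum (fun n => co n f • (t : K) ^ n) 0 := by
        rw [← h t]
        exact hasSum_lift (PB.of_le (ht1.trans hR)).choose_spec f
      have h3 := (hasSum_ite_sub_hasSum h2 k).norm_le_of_bounded
        ((summable f).hasSum.mul_left (‖(t : K)‖ ^ (k + 1))) fun n => by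
          rcases lt_trichotomy n k with hn | hn | hn
          · rw [ih n hn]
            simp
          · rw [if_pos hn, norm_zero]
            positivity
          · rw [if_neg hn.ne', norm_smul, norm_pow, mul_comm]
            exact mul_le_mul (pow_le_pow_of_le_one ht0.le ht1 hn)
              (le_mul_of_one_le_right (norm_nonneg _) (anb_one_le n)) (norm_nonneg _)
              (by positivity)
      rw [zero_sub, norm_neg, norm_smul, norm_pow, ← norm_def, pow_succ, mul_assoc, mul_comm] at h3
      exact le_of_mul_le_mul_left h3 (pow_pos ht0 k)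
    have h2 : Filter.Tendsto (fun m : ℕ => ‖(p : K)‖ ^ m * ‖f‖) Filter.atTop (nhds 0) := by
      simpa using (tendsto_pow_atTop_nhds_zero_of_lt_one (norm_nonneg _) hp1).mul_const ‖f‖
    refine norm_le_zero_iff.1 (ge_of_tendsto' h2 fun m => ?_)
    have := h1 (p ^ m) (pow_ne_zero m hp0)
    rwa [Nat.cast_pow, norm_pow] at this
  exact ext_co fun n => by rw [key n]; simp [co]

end Field

end An

end

end Pool.Agent.P.MP_9484ad_co
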