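import Pool.Agent.P.MP_9484ad_co.An

/-! Weighted composition operators `f ↦ w * f (Q X + i)` and their traces. -/

namespace Pool.Agent.P.MP_9484ad_co

open Finset

noncomputable section

variable {K : Type} [NontriviallyNormedField K] [CompleteSpace K] {R R' : ℕ} [R.AtLeastTwo]
  [R'.AtLeastTwo]

/-- `f ↦ w * f (Q X + i)` -/
def brS (R' : ℕ) [R'.AtLeastTwo] (w : An K R) (Q i : K) : An K R' →L[K] An K R :=
  ContinuousLinearMap.mul K (An K R) w ∘L An.ev (An.C Q * An.X + An.C i : An K R)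

/-- multiplication by a matrix -/
def mulM {ι : Type} [Fintype ι] (M : Matrix ι ι (An K R)) : (ι → An K R) →L[K] (ι → An K R) :=
  ContinuousLinearMap.pi fun a => ∑ b, ContinuousLinearMap.mul K (An K R) (M a b) ∘L
    ContinuousLinearMap.proj b

/-- `v ↦ M * v (Q X + i)` -/
def brM {ι : Type} [Fintype ι] (M : Matrix ι ι (An K R)) (Q i : K) :
    (ι → An K R) →L[K] (ι → An K R) :=
  ContinuousLinearMap.pi fun a => ∑ b, brS R (M a b) Q i ∘L ContinuousLinearMap.proj b

/-- the value of a matrix of power series -/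
def evM {ι : Type} (s : K) (M : Matrix ι ι (An K R)) : Matrix ι ι K := M.map (An.ev s)

theorem branch_ev_X {D : Type*} [NormedCommRing D] [NormedAlgebra K D] [CompleteSpace D] {y : D}
    (h : An.PB R y) : An.ev y (An.X : An K R) = y := by
  simpa using An.anb_ev_X_pow (K := K) h 1

theorem branch_ev_C {D : Type*} [NormedCommRing D] [NormedAlgebra K D] [CompleteSpace D] {y : D}
    (h : An.PB R y) (c : K) : An.ev y (An.C c : An K R) = algebraMap K D c := by
  have h1 : (An.C c : An K R) = c • (1 : An K R) := by rw [An.anb_smul, mul_one]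
  have h2 : An.ev y (1 : An K R) = 1 := map_one (An.evH (K := K) y h)
  rw [h1, map_smul, h2, Algebra.algebraMap_eq_smul_one]

theorem branch_ev_aff {D : Type*} [NormedCommRing D] [NormedAlgebra K D] [CompleteSpace D] {y : D}
    (h : An.PB R y) (Q i : K) : An.ev y (An.C Q * An.X + An.C i : An K R) =
      algebraMap K D Q * y + algebraMap K D i := by
  rw [map_add, An.ev_mul h, branch_ev_C h, branch_ev_C h, branch_ev_X h]

omit [CompleteSpace K] in
theorem branch_alg (c : K) : algebraMap K (An K R) c = An.C c := rfl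

theorem branch_brS_apply (w : An K R) (Q i : K) (f : An K R') :
    brS R' w Q i f = w * An.ev (An.C Q * An.X + An.C i : An K R) f := rfl

variable {ι : Type} [Fintype ι] [DecidableEq ι]

theorem mulM_apply (M : Matrix ι ι (An K R)) (v : ι → An K R) : mulM M v = M.mulVec v := by
  funext a
  simp [mulM, Matrix.mulVec, dotProduct]

theorem brM_apply (M : Matrix ι ι (An K R)) (Q i : K) (v : ι → An K R) :
    brM M Q i v = M.mulVec fun a => An.ev (An.C Q * An.X + An.C i : An K R) (v a) := by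
  funext a
  simp [brM, Matrix.mulVec, dotProduct, branch_brS_apply]

theorem norm_aff_le (Q i : K) : ‖(An.C Q * An.X + An.C i : An K R)‖ ≤ ‖Q‖ * R + ‖i‖ := by
  refine (norm_add_le _ _).trans ?_
  have h := An.norm_C_mul_X_pow (R := R) Q 1
  rw [pow_one, pow_one] at h
  rw [h, An.norm_C]

theorem evM_mul {s : K} (hs : ‖s‖ ≤ R) (M N : Matrix ι ι (An K R)) :
    evM s (M * N) = evM s M * evM s N := by
  exact Matrix.map_mul (f := An.evH (K := K) (R := R) s (An.PB.of_le hs))

theorem branch_norm_brS (w : An K R) {Q i : K} (h : ‖Q‖ * R + ‖i‖ ≤ R') (n : ℕ) :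
    ‖brS R' w Q i (An.X ^ n)‖ ≤ ‖w‖ * (‖Q‖ * R + ‖i‖) ^ n := by
  rw [branch_brS_apply, An.anb_ev_X_pow (An.PB.of_le ((norm_aff_le Q i).trans h))]
  refine (norm_mul_le _ _).trans (mul_le_mul_of_nonneg_left ?_ (norm_nonneg _))
  exact (norm_pow_le _ n).trans (pow_le_pow_left₀ (norm_nonneg _) (norm_aff_le Q i) n)

theorem nuc_brS (w : An K R) {Q i : K} (h : ‖Q‖ * R + ‖i‖ < R') : Nuc (brS R' w Q i) := by
  refine Nuc.of_cols An.basis ?_
  have hR : (0 : ℝ) < R' := An.R_pos
  have h0 : 0 ≤ (‖Q‖ * R + ‖i‖) / R' := by positivity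
  have h1 : (‖Q‖ * R + ‖i‖) / R' < 1 := (div_lt_one hR).2 h
  refine Summable.of_nonneg_of_le (fun n => div_nonneg (norm_nonneg _) (An.basis.w_pos n).le)
    (fun n => ?_) ((summable_geometric_of_lt_one h0 h1).mul_left ‖w‖)
  change ‖brS R' w Q i (An.X ^ n)‖ / (R' : ℝ) ^ n ≤ _
  rw [div_pow, ← mul_div_assoc]
  exact div_le_div_of_nonneg_right (branch_norm_brS w h.le n) (by positivity)

theorem branch_brM_eq (M : Matrix ι ι (An K R)) (Q i : K) :
    brM M Q i = ∑ a, ∑ b, ContinuousLinearMap.single K (fun _ : ι => An K R) a ∘L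
      (brS R (M a b) Q i ∘L ContinuousLinearMap.proj b) := by
  refine ContinuousLinearMap.ext fun v => funext fun c => ?_
  simp [brM, Finset.sum_apply, Pi.single_apply]

theorem nuc_brM (M : Matrix ι ι (An K R)) {Q i : K} (h : ‖Q‖ * R + ‖i‖ < R) : Nuc (brM M Q i) := by
  rw [branch_brM_eq]
  exact Nuc.sum _ fun a _ => Nuc.sum _ fun b _ => ((nuc_brS _ h).comp_right _).comp_left _

theorem norm_brM_basis (M : Matrix ι ι (An K R)) {Q i : K} (h : ‖Q‖ * R + ‖i‖ ≤ R) :
    ∃ c : ℝ, ∀ j : ι × ℕ, ‖brM M Q i ((An.basisPi ι).e j)‖ ≤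
      c * ((‖Q‖ * R + ‖i‖) / R) ^ j.2 * (An.basisPi (K := K) (R := R) ι).w j := by
  refine ⟨∑ a, ∑ b, ‖M a b‖, fun j => ?_⟩
  have hR : (0 : ℝ) < R := An.R_pos
  change ‖brM M Q i (Pi.single j.1 (An.X ^ j.2))‖ ≤ _ * (R : ℝ) ^ j.2
  rw [div_pow, mul_assoc, div_mul_cancel₀ _ (pow_pos hR _).ne']
  refine (pi_norm_le_iff_of_nonneg (by positivity)).2 fun a => ?_
  have e : brM M Q i (Pi.single j.1 (An.X ^ j.2)) a = brS R (M a j.1) Q i (An.X ^ j.2) := by
    simp only [brM, ContinuousLinearMap.pi_apply, _root_.sum_apply,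
      ContinuousLinearMap.comp_apply, ContinuousLinearMap.proj_apply]
    rw [Finset.sum_eq_single j.1]
    · rw [Pi.single_eq_same]
    · intro b _ hb
      rw [Pi.single_eq_of_ne hb, map_zero]
    · simp
  rw [e]
  refine (branch_norm_brS _ h _).trans (mul_le_mul_of_nonneg_right ?_ (by positivity))
  exact (Finset.single_le_sum (f := fun b => ‖M a b‖) (fun b _ => norm_nonneg _)
    (mem_univ j.1)).trans (Finset.single_le_sum (f := fun a => ∑ b, ‖M a b‖)
      (fun a _ => Finset.sum_nonneg fun b _ => norm_nonneg _) (mem_univ a))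

theorem brM_comp (M N : Matrix ι ι (An K R)) {Q i Q' i' : K} (h : ‖Q‖ * R + ‖i‖ ≤ R)
    (h' : ‖Q'‖ * R + ‖i'‖ ≤ R) :
    brM M Q i ∘L brM N Q' i' =
      brM (M * N.map (An.ev (An.C Q * An.X + An.C i : An K R))) (Q' * Q) (Q' * i + i') := by
  have hy := An.PB.of_le ((norm_aff_le (R := R) Q i).trans h)
  have hy' := An.PB.of_le ((norm_aff_le (R := R) Q' i').trans h')
  refine ContinuousLinearMap.ext fun v => ?_
  rw [ContinuousLinearMap.comp_apply, brM_apply, brM_apply, brM_apply, ← Matrix.mulVec_mulVec]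
  congr 1
  funext a
  have e1 : An.ev (An.C Q * An.X + An.C i : An K R) (An.C Q' * An.X + An.C i' : An K R) =
      An.C (Q' * Q) * An.X + An.C (Q' * i + i') := by
    rw [branch_ev_aff hy, branch_alg, branch_alg, map_add, map_mul, map_mul]
    ring
  simp only [Matrix.mulVec, dotProduct, map_sum, Matrix.map_apply]
  refine Finset.sum_congr rfl fun b _ => ?_
  rw [An.ev_mul hy, (An.ev_ev hy' hy (v b)).2, e1]

variable [IsUltrametricDist K] [CharZero K]

omit [CompleteSpace K] [R.AtLeastTwo] [IsUltrametricDist K] [CharZero K] in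
theorem branch_co_mul_X_pow (f : An K R) (n : ℕ) : An.co n (f * An.X ^ n) = An.co 0 f := by
  have hX : An.val (An.X : An K R) = PowerSeries.X := Polynomial.coe_X
  have := PowerSeries.coeff_mul_X_pow (An.val f) n 0
  rw [zero_add] at this
  simp only [An.co, map_mul, map_pow, hX, this]

omit [IsUltrametricDist K] [CharZero K] in
theorem branch_tr_diag (w : An K R) {Q : K} (hQ : ‖Q‖ < 1) :
    An.basis.tr (brS R w Q 0) = (1 - Q)⁻¹ * An.co 0 w := by
  have hR : (0 : ℝ) < R := An.R_pos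
  have hy : An.PB R (An.C Q * An.X + An.C 0 : An K R) := by
    refine An.PB.of_le ((norm_aff_le Q 0).trans ?_)
    rw [norm_zero, add_zero]
    exact mul_le_of_le_one_left hR.le hQ.le
  rw [← tsum_geometric_of_norm_lt_one hQ, ← tsum_mul_right]
  refine tsum_congr fun n => ?_
  change An.co n (brS R w Q 0 (An.X ^ n)) = _
  rw [branch_brS_apply, An.anb_ev_X_pow hy, map_zero, add_zero, mul_pow, ← map_pow,
    mul_left_comm, An.co_C_mul, branch_co_mul_X_pow]

omit [CompleteSpace K] [IsUltrametricDist K] [CharZero K] in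
theorem branch_lt {Q i : K} (hQ : ‖Q‖ ≤ 1 / 4) (hi : ‖i‖ ≤ 1) : ‖Q‖ * R + ‖i‖ < R := by
  have hR : (2 : ℝ) ≤ R := by exact_mod_cast Nat.AtLeastTwo.prop (n := R)
  nlinarith

theorem tr_brS (w : An K R) {Q i : K} (hQ : ‖Q‖ ≤ 1 / 4) (hi : ‖i‖ ≤ 1) :
    An.basis.tr (brS R w Q i) = (1 - Q)⁻¹ * An.ev (i / (1 - Q)) w := by
  have hQ1 : ‖Q‖ < 1 := by linarith
  have hn : ‖1 - Q‖ = 1 := by
    rw [sub_eq_add_neg, IsUltrametricDist.norm_add_eq_max_of_norm_ne_norm, norm_one, norm_neg,
      max_eq_left hQ1.le]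
    rw [norm_one, norm_neg]
    exact hQ1.ne'
  have hne : (1 : K) - Q ≠ 0 := fun h => by
    rw [h, norm_zero] at hn
    exact zero_ne_one hn
  set a : K := i / (1 - Q) with ha
  have ha1 : ‖a‖ ≤ 1 := by rw [ha, norm_div, hn, div_one]; exact hi
  have hia : a * (1 - Q) = i := div_mul_cancel₀ _ hne
  have hp : An.PB R (An.X + An.C a : An K R) := An.pb_X_add_C ha1
  have hm : An.PB R (An.X + An.C (-a) : An K R) := An.pb_X_add_C (by rwa [norm_neg])
  have h0 : ‖Q‖ * R + ‖(0 : K)‖ < R := branch_lt hQ (by simp)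
  have hy0 := An.PB.of_le ((norm_aff_le (R := R) Q 0).trans h0.le)
  have hy := An.PB.of_le ((norm_aff_le (R := R) Q i).trans (branch_lt hQ hi).le)
  have hX : An.PB R (An.X : An K R) := An.PB.of_le An.norm_X.le
  have hid : (An.ev (An.X : An K R) : An K R →L[K] An K R) = ContinuousLinearMap.id K _ :=
    An.clm_ext fun n => by rw [An.anb_ev_X_pow hX, ContinuousLinearMap.id_apply]
  have hpm : ∀ f : An K R, An.ev (An.X + An.C a : An K R)
      (An.ev (An.X + An.C (-a) : An K R) f) = f := fun f => by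
    rw [(An.ev_ev hm hp f).2, map_add, branch_ev_X hp, branch_ev_C hp, branch_alg, map_neg,
      add_neg_cancel_right, hid, ContinuousLinearMap.id_apply]
  have hmp : ∀ f : An K R, An.ev (An.X + An.C (-a) : An K R)
      (An.ev (An.X + An.C a : An K R) f) = f := fun f => by
    rw [(An.ev_ev hp hm f).2, map_add, branch_ev_X hm, branch_ev_C hm, branch_alg, map_neg,
      neg_add_cancel_right, hid, ContinuousLinearMap.id_apply]
  have e1 : brS R w Q i = (An.ev (An.X + An.C (-a) : An K R) : An K R →L[K] An K R) ∘L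
      (brS R (An.ev (An.X + An.C a : An K R) w) Q 0 ∘L
        (An.ev (An.X + An.C a : An K R) : An K R →L[K] An K R)) := by
    refine ContinuousLinearMap.ext fun f => ?_
    rw [ContinuousLinearMap.comp_apply, ContinuousLinearMap.comp_apply, branch_brS_apply,
      branch_brS_apply, An.ev_mul hm, hmp]
    obtain ⟨k1, k2⟩ := An.ev_ev hp hy0 f
    rw [k2, (An.ev_ev k1 hm f).2]
    congr 3
    rw [map_add, branch_ev_X hy0, branch_ev_C hy0, branch_alg, map_add, branch_ev_aff hm,
      branch_ev_C hm, branch_alg, branch_alg, branch_alg, ← hia, map_zero, map_neg, map_mul,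
      map_sub, map_one]
    ring
  have e2 : (brS R (An.ev (An.X + An.C a : An K R) w) Q 0 ∘L
        (An.ev (An.X + An.C a : An K R) : An K R →L[K] An K R)) ∘L
      (An.ev (An.X + An.C (-a) : An K R) : An K R →L[K] An K R) =
      brS R (An.ev (An.X + An.C a : An K R) w) Q 0 := by
    refine ContinuousLinearMap.ext fun f => ?_
    rw [ContinuousLinearMap.comp_apply, ContinuousLinearMap.comp_apply, hpm]
  have hz : An.PB R (0 : K) := An.PB.of_le (by simp)
  rw [e1, L1B.tr_comm (An.basis (R := R)) (An.basis (R := R)) ((nuc_brS _ h0).comp_right _), e2,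
    branch_tr_diag _ hQ1,
    ← An.ev_zero, (An.ev_ev hp hz w).2, map_add, branch_ev_X hz, branch_ev_C hz, zero_add]
  rfl

theorem tr_brM (M : Matrix ι ι (An K R)) {Q i : K} (hQ : ‖Q‖ ≤ 1 / 4) (hi : ‖i‖ ≤ 1) :
    (An.basisPi ι).tr (brM M Q i) = (1 - Q)⁻¹ * (evM (i / (1 - Q)) M).trace := by
  have h := branch_lt (R := R) hQ hi
  rw [branch_brM_eq, L1B.tr_sum _ _ fun a _ =>
    Nuc.sum _ fun b _ => ((nuc_brS _ h).comp_right _).comp_left _, Matrix.trace, mul_sum]
  refine sum_congr rfl fun a _ => ?_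
  rw [L1B.tr_sum _ _ fun b _ => ((nuc_brS _ h).comp_right _).comp_left _, sum_eq_single a]
  · rw [L1B.tr_comm _ (An.basis (R := R)) ((nuc_brS _ h).comp_right _)]
    have e : (brS R (M a a) Q i ∘L ContinuousLinearMap.proj a) ∘L
        ContinuousLinearMap.single K (fun _ : ι => An K R) a = brS R (M a a) Q i := by
      refine ContinuousLinearMap.ext fun f => ?_
      simp
    rw [e, tr_brS _ hQ hi]
    rfl
  · intro b _ hb
    rw [L1B.tr_comm _ (An.basis (R := R)) ((nuc_brS _ h).comp_right _)]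
    have e : (brS R (M a b) Q i ∘L ContinuousLinearMap.proj b) ∘L
        ContinuousLinearMap.single K (fun _ : ι => An K R) a = 0 := by
      refine ContinuousLinearMap.ext fun f => ?_
      simp [hb]
    rw [e]
    simp [L1B.tr]
  · simp

end

end Pool.Agent.P.MP_9484ad_co
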