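import Pool.Agent.P.MP_9484ad_co.Iface

/-! The starting points: sums that reduce to Jacobi sums by the duplication formula. -/

namespace Pool.Agent.P.MP_9484ad_co

open Finset

variable {F : Type*} [Field F] [Fintype F]

theorem special_chi_ne_one (h2 : ringChar F ≠ 2) : chi F ≠ 1 := by
  classical
  unfold chi
  rw [MulChar.ringHomComp_ne_one_iff (RingHom.injective_int _)]
  convert quadraticChar_ne_one h2

theorem special_chi_mul_chi : chi F * chi F = 1 := by
  classical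
  have h : (chi F).IsQuadratic := by
    unfold chi
    exact MulChar.IsQuadratic.comp (by convert quadraticChar_isQuadratic F) _
  have := h.sq_eq_one
  rwa [sq] at this

omit [Fintype F] in
theorem special_two_ne (h2 : ringChar F ≠ 2) : (2 : F) ≠ 0 := Ring.two_ne_zero h2

omit [Fintype F] in
theorem special_four_ne (h2 : ringChar F ≠ 2) : (4 : F) ≠ 0 := by
  have : (4 : F) = 2 * 2 := by norm_num
  rw [this]; exact mul_ne_zero (special_two_ne h2) (special_two_ne h2)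

theorem special_sum_sq (h2 : ringChar F ≠ 2) (f : F → ℂ) :
    ∑ u : F, f (u ^ 2) = ∑ s : F, (1 + chi F s) * f s := by
  classical
  rw [← Finset.sum_fiberwise (s := univ) (g := fun u : F => u ^ 2) (f := fun u => f (u ^ 2))]
  refine Finset.sum_congr rfl fun s _ => ?_
  rw [Finset.sum_congr rfl (g := fun _ => f s) (fun u hu => by rw [(Finset.mem_filter.1 hu).2])]
  rw [Finset.sum_const, nsmul_eq_mul]
  congr 1
  have h := quadraticChar_card_sqrts h2 s
  have h' : (({x : F | x ^ 2 = s}.toFinset.card : ℤ) : ℂ) = ((quadraticChar F s + 1 : ℤ) : ℂ) := by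
    rw [h]
  have e : ({x : F | x ^ 2 = s}.toFinset) = univ.filter fun u : F => u ^ 2 = s := by
    ext u; simp
  rw [e] at h'
  push_cast at h'
  rw [h', add_comm]
  congr 1

theorem special_sum_quad (h2 : ringChar F ≠ 2) (f : F → ℂ) :
    ∑ x : F, f (x * (1 - x)) = ∑ t : F, (1 + chi F (1 - 4 * t)) * f t := by
  have h4 := special_four_ne h2
  have h2' := special_two_ne h2
  have e1 : ∑ x : F, f (x * (1 - x)) = ∑ u : F, f ((1 - u ^ 2) / 4) := by
    refine Fintype.sum_bijective (fun x : F => 1 - 2 * x) ?_ _ _ fun x => ?_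
    · refine Finite.injective_iff_bijective.1 fun x y hxy => ?_
      have : 2 * x = 2 * y := by simpa using hxy
      exact mul_left_cancel₀ h2' this
    · congr 1
      field_simp
      ring
  rw [e1, special_sum_sq h2 fun s => f ((1 - s) / 4)]
  symm
  refine Fintype.sum_bijective (fun t : F => 1 - 4 * t) ?_ _ _ fun t => ?_
  · refine Finite.injective_iff_bijective.1 fun x y hxy => ?_
    have : 4 * x = 4 * y := by simpa using hxy
    exact mul_left_cancel₀ h4 this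
  · congr 2
    field_simp
    ring

theorem special_sum_four (h2 : ringChar F ≠ 2) (α β : MulChar F ℂ) :
    ∑ t : F, α t * β (1 - 4 * t) = α⁻¹ 4 * jacobiSum α β := by
  have h4 := special_four_ne h2
  unfold jacobiSum
  rw [Finset.mul_sum]
  refine Fintype.sum_bijective (fun t : F => 4 * t) ?_ _ _ fun t => ?_
  · exact Finite.injective_iff_bijective.1 fun x y hxy => mul_left_cancel₀ h4 hxy
  · rw [MulChar.inv_apply', ← mul_assoc, ← map_mul, ← mul_assoc, inv_mul_cancel₀ h4, one_mul]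

theorem special_card_ne : ((Fintype.card F : ℕ) : ℂ) ≠ 0 :=
  Nat.cast_ne_zero.2 Fintype.card_ne_zero

theorem special_quad_unique (h2 : ringChar F ≠ 2) {a : MulChar F ℂ} (ha : a * a = 1)
    (h1 : a ≠ 1) : a * chi F = 1 := by
  classical
  by_contra h
  have e := special_sum_sq h2 fun s => a s
  have l : ∑ u : F, a (u ^ 2) = ∑ u : F, (1 : MulChar F ℂ) u := by
    refine Finset.sum_congr rfl fun u _ => ?_
    rw [← ha, MulChar.mul_apply, sq, map_mul]
  have r : ∑ s : F, (1 + chi F s) * a s = 0 := by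
    have : ∀ s : F, (1 + chi F s) * a s = a s + (a * chi F) s := fun s => by
      rw [MulChar.mul_apply]; ring
    simp_rw [this, Finset.sum_add_distrib]
    rw [MulChar.sum_eq_zero_of_ne_one h1, MulChar.sum_eq_zero_of_ne_one h, add_zero]
  rw [l, r, MulChar.sum_one_eq_card_units] at e
  exact (Nat.cast_ne_zero.2 Fintype.card_ne_zero) e

theorem special_jacobi_self (h2 : ringChar F ≠ 2) {a : MulChar F ℂ} (h1 : a ≠ 1) :
    jacobiSum a a = a⁻¹ 4 * jacobiSum a (chi F) := by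
  have e : jacobiSum a a = ∑ x : F, a (x * (1 - x)) := by
    unfold jacobiSum
    exact Finset.sum_congr rfl fun x _ => by rw [map_mul]
  rw [e, special_sum_quad h2 fun t => a t, ← special_sum_four h2]
  have : ∀ t : F, (1 + chi F (1 - 4 * t)) * a t = a t + a t * chi F (1 - 4 * t) := fun t => by ring
  simp_rw [this, Finset.sum_add_distrib]
  rw [MulChar.sum_eq_zero_of_ne_one h1, zero_add]

theorem gauss_dup (h2 : ringChar F ≠ 2) {ψ : AddChar F ℂ} (hψ : ψ.IsPrimitive) (a : MulChar F ℂ) :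
    gaussSum a ψ * gaussSum (a * chi F) ψ =
      a⁻¹ 4 * gaussSum (a * a) ψ * gaussSum (chi F) ψ := by
  classical
  have h4 := special_four_ne h2
  by_cases h1 : a = 1
  · subst h1
    rw [inv_one, MulChar.one_apply (Ne.isUnit h4), one_mul, one_mul, one_mul]
  by_cases hc : a * chi F = 1
  · have hac : a = chi F := by
      have : a * chi F * chi F = chi F := by rw [hc, one_mul]
      rwa [mul_assoc, special_chi_mul_chi, mul_one] at this
    have hi : (chi F)⁻¹ = chi F := inv_eq_of_mul_eq_one_right special_chi_mul_chi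
    have h44 : chi F 4 = 1 := by
      have : (4 : F) = 2 * 2 := by norm_num
      rw [this, map_mul, ← MulChar.mul_apply, special_chi_mul_chi,
        MulChar.one_apply (Ne.isUnit (special_two_ne h2))]
    rw [hac, special_chi_mul_chi, hi, h44]
    ring
  have haa : a * a ≠ 1 := fun h => hc (special_quad_unique h2 h h1)
  have g1 := jacobiSum_mul_nontrivial haa ψ
  have g2 := jacobiSum_mul_nontrivial hc ψ
  have g0 : gaussSum a ψ ≠ 0 := gaussSum_ne_zero_of_nontrivial special_card_ne h1 hψ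
  rw [special_jacobi_self h2 h1] at g1
  refine mul_left_cancel₀ g0 ?_
  linear_combination (gaussSum (a * chi F) ψ) * g1.symm + (a⁻¹ 4 * gaussSum (a * a) ψ) * g2

theorem special_norm_apply_le (α : MulChar F ℂ) (x : F) : ‖α x‖ ≤ 1 := by
  by_cases hx : x = 0
  · simp [hx, MulChar.map_zero]
  have h : ‖α x‖ * ‖α x‖ = 1 := by
    have h1 : star (α x) * α x = 1 := by
      rw [MulChar.star_apply', ← MulChar.mul_apply, inv_mul_cancel, MulChar.one_apply (Ne.isUnit hx)]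
    have h2 := congrArg norm h1
    rwa [norm_mul, norm_star, norm_one] at h2
  nlinarith [norm_nonneg (α x)]

theorem special_norm_gauss {ψ : AddChar F ℂ} (hψ : ψ.IsPrimitive) {α : MulChar F ℂ} (h : α ≠ 1) :
    ‖gaussSum α ψ‖ = √(Fintype.card F) := by
  have h1 := gaussSum_mul_gaussSum_eq_card h hψ
  rw [← star_gaussSum_eq] at h1
  have h2 := congrArg norm h1
  rw [norm_mul, norm_star, Complex.norm_natCast] at h2
  rw [← h2, Real.sqrt_mul_self (norm_nonneg _)]

theorem special_one_le_sqrt : (1 : ℝ) ≤ √(Fintype.card F) := by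
  rw [Real.one_le_sqrt]
  exact_mod_cast Fintype.card_pos

theorem special_norm_jacobi {ψ : AddChar F ℂ} (hψ : ψ.IsPrimitive) {α : MulChar F ℂ} (h : α ≠ 1)
    (β : MulChar F ℂ) : ‖jacobiSum α β‖ ≤ √(Fintype.card F) := by
  classical
  by_cases hβ : β = 1
  · rw [hβ, jacobiSum_comm, jacobiSum_one_nontrivial h, norm_neg, norm_one]
    exact special_one_le_sqrt
  by_cases hαβ : α * β = 1
  · rw [eq_inv_of_mul_eq_one_right hαβ, jacobiSum_nontrivial_inv h, norm_neg]
    exact (special_norm_apply_le _ _).trans special_one_le_sqrt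
  have g := congrArg norm (jacobiSum_mul_nontrivial hαβ ψ)
  rw [norm_mul, norm_mul, special_norm_gauss hψ h, special_norm_gauss hψ hβ,
    special_norm_gauss hψ hαβ] at g
  have hp : (0 : ℝ) < √(Fintype.card F) := lt_of_lt_of_le one_pos special_one_le_sqrt
  exact le_of_eq (mul_left_cancel₀ hp.ne' g)

open Classical in
theorem special_orth (t : F) :
    ∑ ρ : MulChar F ℂ, ρ t = if t = 1 then ((Fintype.card F : ℂ) - 1) else 0 := by
  classical
  split_ifs with ht
  · subst ht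
    simp only [MulChar.map_one, Finset.sum_const, nsmul_eq_mul, mul_one, Finset.card_univ]
    rw [← Nat.card_eq_fintype_card, MulChar.card_eq_card_units_of_hasEnoughRootsOfUnity F ℂ,
      Nat.card_eq_fintype_card, Fintype.card_units, Nat.cast_sub Fintype.card_pos, Nat.cast_one]
  · obtain ⟨σ, hσ⟩ := MulChar.exists_apply_ne_one_of_hasEnoughRootsOfUnity F ℂ ht
    have e : ∑ ρ : MulChar F ℂ, ρ t = ∑ ρ : MulChar F ℂ, (σ * ρ) t :=
      (Equiv.sum_comp (Equiv.mulLeft σ) fun ρ : MulChar F ℂ => ρ t).symm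
    simp_rw [MulChar.mul_apply, ← Finset.mul_sum] at e
    have : (1 - σ t) * ∑ ρ : MulChar F ℂ, ρ t = 0 := by linear_combination e
    exact (mul_eq_zero.1 this).resolve_left (sub_ne_zero.2 hσ.symm)

theorem special_jacobi_twist (A ρ : MulChar F ℂ) :
    jacobiSum (A * (ρ⁻¹ * ρ⁻¹)) (A * (ρ * ρ)) =
      ∑ x : F, A (x * (1 - x)) * ρ (((1 - x) * x⁻¹) ^ 2) := by
  unfold jacobiSum
  refine Finset.sum_congr rfl fun x _ => ?_
  simp only [MulChar.mul_apply, MulChar.inv_apply', map_mul, sq]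
  ring

open Classical in
theorem special_inner (h2 : ringChar F ≠ 2) (A B : MulChar F ℂ) (x : F) :
    ∑ y : F, A (x * (1 - x)) * B (y * (1 - y)) *
        (if ((1 - x) * x⁻¹) ^ 2 * ((1 - y) * y⁻¹) ^ 2 = 1 then (1 : ℂ) else 0) =
      A (x * (1 - x)) * B (x * (1 - x)) +
        A (x * (1 - x)) * B (-(x * (1 - x)) * (1 - 4 * (x * (1 - x)))⁻¹) := by
  classical
  have h2' := special_two_ne h2
  by_cases hx0 : x = 0
  · simp [hx0, MulChar.map_zero]
  by_cases hx1 : x = 1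
  · simp [hx1, MulChar.map_zero]
  have hx1' : 1 - x ≠ 0 := sub_ne_zero.2 (Ne.symm hx1)
  have key : ∀ y : F, A (x * (1 - x)) * B (y * (1 - y)) *
      (if ((1 - x) * x⁻¹) ^ 2 * ((1 - y) * y⁻¹) ^ 2 = 1 then (1 : ℂ) else 0) =
      (if y = 1 - x then A (x * (1 - x)) * B (y * (1 - y)) else 0) +
      (if y * (1 - 2 * x) = 1 - x then A (x * (1 - x)) * B (y * (1 - y)) else 0) := by
    intro y
    by_cases hy0 : y = 0
    · simp [hy0, MulChar.map_zero]
    have hiff : ((1 - x) * x⁻¹) ^ 2 * ((1 - y) * y⁻¹) ^ 2 = 1 ↔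
        (y = 1 - x ∨ y * (1 - 2 * x) = 1 - x) := by
      have e : ((1 - x) * x⁻¹) ^ 2 * ((1 - y) * y⁻¹) ^ 2 - 1 =
          ((y - (1 - x)) * (y * (1 - 2 * x) - (1 - x))) * (x⁻¹ * y⁻¹) ^ 2 := by
        field_simp
        ring
      have hn : (x⁻¹ * y⁻¹) ^ 2 ≠ 0 := pow_ne_zero _ (mul_ne_zero (inv_ne_zero hx0) (inv_ne_zero hy0))
      rw [← sub_eq_zero, e, mul_eq_zero, mul_eq_zero, sub_eq_zero, sub_eq_zero]
      simp [hn]
    by_cases c1 : y = 1 - x
    · have c2 : ¬ y * (1 - 2 * x) = 1 - x := by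
        intro c2
        have : 2 * x * y = 0 := by linear_combination c1 - c2
        exact mul_ne_zero (mul_ne_zero h2' hx0) hy0 this
      rw [if_pos (hiff.2 (Or.inl c1)), if_pos c1, if_neg c2, mul_one, add_zero]
    · by_cases c2 : y * (1 - 2 * x) = 1 - x
      · rw [if_pos (hiff.2 (Or.inr c2)), if_neg c1, if_pos c2, mul_one, zero_add]
      · rw [if_neg (fun h => (hiff.1 h).elim c1 c2), if_neg c1, if_neg c2, mul_zero, add_zero]
  simp_rw [key]
  rw [Finset.sum_add_distrib, Finset.sum_ite_eq' univ (1 - x), if_pos (mem_univ _)]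
  congr 1
  · congr 2
    ring
  by_cases hh : 1 - 2 * x = 0
  · have e : 1 - 4 * (x * (1 - x)) = 0 := by linear_combination (1 - 2 * x) * hh
    rw [e, inv_zero, mul_zero, MulChar.map_zero, mul_zero]
    refine Finset.sum_eq_zero fun y _ => if_neg ?_
    rw [hh, mul_zero]
    exact hx1'.symm
  · have e : ∀ y : F, y * (1 - 2 * x) = 1 - x ↔ y = (1 - x) * (1 - 2 * x)⁻¹ := fun y =>
      (eq_mul_inv_iff_mul_eq₀ hh).symm
    simp_rw [e]
    rw [Finset.sum_ite_eq' univ, if_pos (mem_univ _)]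
    congr 2
    have e4 : 1 - 4 * (x * (1 - x)) = (1 - 2 * x) ^ 2 := by ring
    have hi : (1 - 2 * x) * (1 - 2 * x)⁻¹ = 1 := mul_inv_cancel₀ hh
    rw [e4, ← inv_pow]
    linear_combination (-((1 - x) * (1 - 2 * x)⁻¹)) * hi

theorem special_sum_jacobi (h2 : ringChar F ≠ 2) (A B : MulChar F ℂ) :
    ∑ ρ : MulChar F ℂ, jacobiSum (A * (ρ⁻¹ * ρ⁻¹)) (A * (ρ * ρ)) *
        jacobiSum (B * (ρ⁻¹ * ρ⁻¹)) (B * (ρ * ρ)) =
      ((Fintype.card F : ℂ) - 1) * (jacobiSum (A * B) (A * B) +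
        B (-1) * ((A * B)⁻¹ 4 * (jacobiSum (A * B) B⁻¹ + jacobiSum (A * B) (B⁻¹ * chi F)))) := by
  classical
  have e1 : ∀ ρ : MulChar F ℂ, jacobiSum (A * (ρ⁻¹ * ρ⁻¹)) (A * (ρ * ρ)) *
      jacobiSum (B * (ρ⁻¹ * ρ⁻¹)) (B * (ρ * ρ)) =
      ∑ x : F, ∑ y : F, A (x * (1 - x)) * B (y * (1 - y)) *
        ρ (((1 - x) * x⁻¹) ^ 2 * ((1 - y) * y⁻¹) ^ 2) := by
    intro ρ
    rw [special_jacobi_twist, special_jacobi_twist, Finset.sum_mul_sum]
    refine Finset.sum_congr rfl fun x _ => Finset.sum_congr rfl fun y _ => ?_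
    rw [map_mul ρ]
    ring
  simp_rw [e1]
  rw [Finset.sum_comm]
  have e2 : ∀ x : F, ∑ ρ : MulChar F ℂ, ∑ y : F, A (x * (1 - x)) * B (y * (1 - y)) *
      ρ (((1 - x) * x⁻¹) ^ 2 * ((1 - y) * y⁻¹) ^ 2) =
      ((Fintype.card F : ℂ) - 1) * (A (x * (1 - x)) * B (x * (1 - x)) +
        A (x * (1 - x)) * B (-(x * (1 - x)) * (1 - 4 * (x * (1 - x)))⁻¹)) := by
    intro x
    rw [Finset.sum_comm, ← special_inner h2, Finset.mul_sum]
    refine Finset.sum_congr rfl fun y _ => ?_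
    rw [← Finset.mul_sum, special_orth]
    split_ifs <;> ring
  simp_rw [e2]
  rw [← Finset.mul_sum, Finset.sum_add_distrib]
  congr 2
  · unfold jacobiSum
    refine Finset.sum_congr rfl fun x _ => ?_
    simp only [MulChar.mul_apply, map_mul]
    ring
  · rw [special_sum_quad h2 fun t => A t * B (-t * (1 - 4 * t)⁻¹), mul_add, ← special_sum_four h2,
      ← special_sum_four h2, ← Finset.sum_add_distrib, Finset.mul_sum]
    refine Finset.sum_congr rfl fun t _ => ?_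
    have : -t * (1 - 4 * t)⁻¹ = -1 * (t * (1 - 4 * t)⁻¹) := by ring
    rw [this]
    simp only [MulChar.mul_apply, map_mul, MulChar.inv_apply']
    ring

theorem special_pair (h2 : ringChar F ≠ 2) {ψ : AddChar F ℂ} (hψ : ψ.IsPrimitive)
    (a ρ : MulChar F ℂ) (ha : a ^ 4 ≠ 1) :
    gaussSum (a * ρ⁻¹) ψ * gaussSum (a * chi F * ρ⁻¹) ψ *
      (gaussSum (a * ρ) ψ * gaussSum (a * chi F * ρ) ψ) =
      (a * a)⁻¹ 4 * gaussSum (chi F) ψ ^ 2 * gaussSum (a ^ 4) ψ *
        jacobiSum (a * a * (ρ⁻¹ * ρ⁻¹)) (a * a * (ρ * ρ)) := by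
  classical
  have h4 := special_four_ne h2
  have d1 := gauss_dup h2 hψ (a * ρ⁻¹)
  have d2 := gauss_dup h2 hψ (a * ρ)
  have m : a * a * (ρ⁻¹ * ρ⁻¹) * (a * a * (ρ * ρ)) = a ^ 4 := by
    rw [mul_mul_mul_comm, mul_mul_mul_comm ρ⁻¹, inv_mul_cancel, mul_one, mul_one,
      show (4 : ℕ) = 1 + 1 + (1 + 1) from rfl, pow_add, pow_add, pow_one]
  have j := jacobiSum_mul_nontrivial (χ := a * a * (ρ⁻¹ * ρ⁻¹)) (φ := a * a * (ρ * ρ))
    (by rw [m]; exact ha) ψ
  rw [m] at j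
  rw [mul_right_comm a ρ⁻¹, mul_mul_mul_comm a ρ⁻¹ a] at d1
  rw [mul_right_comm a ρ, mul_mul_mul_comm a ρ a] at d2
  have c : (a * ρ⁻¹)⁻¹ 4 * (a * ρ)⁻¹ 4 = (a * a)⁻¹ 4 := by
    rw [← MulChar.mul_apply, ← mul_inv, mul_mul_mul_comm, inv_mul_cancel, mul_one]
  rw [d1, d2, ← c]
  linear_combination (-((a * ρ⁻¹)⁻¹ 4 * (a * ρ)⁻¹ 4 * gaussSum (chi F) ψ ^ 2)) * j

theorem special (h2 : ringChar F ≠ 2) {ψ : AddChar F ℂ} (hψ : ψ.IsPrimitive) (a b : MulChar F ℂ)
    (ha : a ^ 4 ≠ 1) (hb : b ^ 4 ≠ 1) (hab : (a * b) ^ 2 ≠ 1) :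
    ‖hypS ψ ![a, a * chi F, b, b * chi F] ![a, a * chi F, b, b * chi F]‖ ≤
      3 * √(Fintype.card F) ^ 9 := by
  have hAB : a * a * (b * b) ≠ 1 := by
    rwa [mul_mul_mul_comm, ← sq]
  have e : hypS ψ ![a, a * chi F, b, b * chi F] ![a, a * chi F, b, b * chi F] =
      ((a * a)⁻¹ 4 * gaussSum (chi F) ψ ^ 2 * gaussSum (a ^ 4) ψ) *
      ((b * b)⁻¹ 4 * gaussSum (chi F) ψ ^ 2 * gaussSum (b ^ 4) ψ) *
      ∑ ρ : MulChar F ℂ, jacobiSum (a * a * (ρ⁻¹ * ρ⁻¹)) (a * a * (ρ * ρ)) *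
        jacobiSum (b * b * (ρ⁻¹ * ρ⁻¹)) (b * b * (ρ * ρ)) := by
    unfold hypS
    rw [Finset.mul_sum]
    refine Finset.sum_congr rfl fun ρ _ => ?_
    have p1 := special_pair h2 hψ a ρ ha
    have p2 := special_pair h2 hψ b ρ hb
    simp only [Fin.prod_univ_four, Matrix.cons_val_zero, Matrix.cons_val_one, Matrix.cons_val]
    calc _ = (gaussSum (a * ρ⁻¹) ψ * gaussSum (a * chi F * ρ⁻¹) ψ *
          (gaussSum (a * ρ) ψ * gaussSum (a * chi F * ρ) ψ)) *
          (gaussSum (b * ρ⁻¹) ψ * gaussSum (b * chi F * ρ⁻¹) ψ *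
          (gaussSum (b * ρ) ψ * gaussSum (b * chi F * ρ) ψ)) := by ring
      _ = _ := by rw [p1, p2]; ring
  rw [e, special_sum_jacobi h2]
  set s : ℝ := √(Fintype.card F) with hs
  have hs1 : 1 ≤ s := special_one_le_sqrt
  have hs0 : 0 ≤ s := by linarith
  have hss : s ^ 2 = Fintype.card F := Real.sq_sqrt (Nat.cast_nonneg _)
  have n1 : ∀ c : MulChar F ℂ, c ^ 4 ≠ 1 →
      ‖(c * c)⁻¹ 4 * gaussSum (chi F) ψ ^ 2 * gaussSum (c ^ 4) ψ‖ ≤ s ^ 3 := by
    intro c hc
    rw [norm_mul, norm_mul, norm_pow, special_norm_gauss hψ hc,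
      special_norm_gauss hψ (special_chi_ne_one h2), ← hs]
    have := special_norm_apply_le (c * c)⁻¹ (4 : F)
    calc _ ≤ 1 * s ^ 2 * s := by gcongr
      _ = _ := by ring
  have n2 : ‖(Fintype.card F : ℂ) - 1‖ ≤ s ^ 2 := by
    have : (Fintype.card F : ℂ) - 1 = ((Fintype.card F - 1 : ℝ) : ℂ) := by push_cast; ring
    rw [this, Complex.norm_real, Real.norm_eq_abs, hss, abs_le]
    have : (1 : ℝ) ≤ Fintype.card F := by exact_mod_cast Fintype.card_pos
    constructor <;> linarith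
  have n3 : ‖jacobiSum (a * a * (b * b)) (a * a * (b * b)) +
      (b * b) (-1) * ((a * a * (b * b))⁻¹ 4 * (jacobiSum (a * a * (b * b)) (b * b)⁻¹ +
        jacobiSum (a * a * (b * b)) ((b * b)⁻¹ * chi F)))‖ ≤ 3 * s := by
    have j1 := special_norm_jacobi hψ hAB (a * a * (b * b))
    have j2 := special_norm_jacobi hψ hAB (b * b)⁻¹
    have j3 := special_norm_jacobi hψ hAB ((b * b)⁻¹ * chi F)
    have u1 := special_norm_apply_le (b * b) (-1 : F)
    have u2 := special_norm_apply_le (a * a * (b * b))⁻¹ (4 : F)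
    rw [← hs] at j1 j2 j3
    refine (norm_add_le _ _).trans ?_
    rw [norm_mul, norm_mul]
    have j4 := (norm_add_le _ _).trans (add_le_add j2 j3)
    calc _ ≤ s + 1 * (1 * (s + s)) := by gcongr
      _ = _ := by ring
  have m1 := n1 a ha
  have m2 := n1 b hb
  have fin : ∀ z1 z2 z3 z4 : ℂ, ‖z1‖ ≤ s ^ 3 → ‖z2‖ ≤ s ^ 3 → ‖z3‖ ≤ s ^ 2 → ‖z4‖ ≤ 3 * s →
      ‖z1 * z2 * (z3 * z4)‖ ≤ 3 * s ^ 9 := by
    intro z1 z2 z3 z4 k1 k2 k3 k4
    rw [norm_mul, norm_mul, norm_mul]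
    calc _ ≤ s ^ 3 * s ^ 3 * (s ^ 2 * (3 * s)) := by gcongr
      _ = _ := by ring
  exact fin _ _ _ _ m1 m2 n2 n3

end Pool.Agent.P.MP_9484ad_co
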