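import Mathlib

/-! The hypergeometric sums whose size has to be bounded. -/

namespace Pool.Agent.P.MP_9484ad_co

open Finset

noncomputable section

instance fintypeMulChar (M : Type*) [CommMonoid M] [Finite M] : Fintype (MulChar M ℂ) :=
  Fintype.ofFinite _

variable {F E : Type*} [Field F] [Fintype F] [Field E] [Fintype E] [Algebra F E]

open Classical in
/-- the quadratic character with complex values -/
def chi (F : Type*) [Field F] [Fintype F] : MulChar F ℂ :=
  (quadraticChar F).ringHomComp (Int.castRingHom ℂ)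

/-- a character composed with the norm -/
def nrm (E : Type*) [Field E] [Fintype E] [Algebra F E] (ρ : MulChar F ℂ) : MulChar E ℂ where
  toFun x := ρ (Algebra.norm F x)
  map_one' := by simp
  map_mul' x y := by simp
  map_nonunit' x hx := by
    have : x = 0 := by simpa using hx
    have h2 : Module.Finite F E := Module.Finite.of_finite
    simp [this, Algebra.norm_zero, MulChar.map_zero]

/-- restriction of a character to the ground field -/
def res (F : Type*) [Field F] [Algebra F E] (Ξ : MulChar E ℂ) : MulChar F ℂ where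
  toFun x := Ξ (algebraMap F E x)
  map_one' := by simp
  map_mul' x y := by simp
  map_nonunit' x hx := by
    have : x = 0 := by simpa using hx
    simp [this, MulChar.map_zero]

/-- an additive character composed with the trace -/
def trc (E : Type*) [Field E] [Algebra F E] (ψ : AddChar F ℂ) : AddChar E ℂ :=
  ψ.compAddMonoidHom (Algebra.trace F E).toAddMonoidHom

def hypS (ψ : AddChar F ℂ) (u l : Fin 4 → MulChar F ℂ) : ℂ :=
  ∑ ρ : MulChar F ℂ, (∏ i, gaussSum (u i * ρ⁻¹) ψ) * ∏ j, gaussSum (l j * ρ) ψ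

def hypT (ψ : AddChar F ℂ) (Ξ : MulChar E ℂ) (u : Fin 2 → MulChar F ℂ) (l : Fin 4 → MulChar F ℂ) :
    ℂ :=
  ∑ ρ : MulChar F ℂ, gaussSum (Ξ * nrm E ρ⁻¹) (trc E ψ) * (∏ i, gaussSum (u i * ρ⁻¹) ψ) *
    ∏ j, gaussSum (l j * ρ) ψ

/-- the three families: bowtie, fan, wheel -/
def Adm (τ κ : MulChar F ℂ) : Prop :=
  (κ = 1 ∧ (τ = 1 ∨ τ = chi F)) ∨ (κ * κ = chi F ∧ τ = chi F)

/-- square-root cancellation in the three families -/
structure RHin (E : Type*) [Field E] [Fintype E] [Algebra F E] (ψ : AddChar F ℂ) (C : ℝ) : Prop where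
  prim : ψ.IsPrimitive
  split : ∀ a b κ : MulChar F ℂ, Adm (a * b) κ →
    ‖hypS ψ ![a, b, chi F, chi F] ![1, 1, κ, κ]‖ ≤ C * √(Fintype.card F) ^ 9
  twist : ∀ (Ξ : MulChar E ℂ) (κ : MulChar F ℂ), Adm (res F Ξ) κ →
    ‖hypT ψ Ξ ![chi F, chi F] ![1, 1, κ, κ]‖ ≤ C * √(Fintype.card F) ^ 9

end

end Pool.Agent.P.MP_9484ad_co
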