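import Pool.Agent.P.MP_9484ad_co.Hasse
import Pool.Agent.P.MP_9484ad_co.Iface

/-! Teichmueller lifts: from `p`-adic Gauss sums to complex Gauss sums. -/

namespace Pool.Agent.P.MP_9484ad_co

open Finset

noncomputable section

variable {K : Type} [NontriviallyNormedField K] {k E : Type} [Field k] [Fintype k] [Field E]
  [Fintype E] [Algebra k E]

structure IsTeich (ω : k →*₀ K) : Prop where
  add : ∀ x y, ‖ω (x + y) - ω x - ω y‖ < 1

open Classical in
/-- the `κ`-th power of the Teichmueller character -/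
def mc (φ : K →+* ℂ) (ω : k →*₀ K) (κ : ℤ) : MulChar k ℂ where
  toFun x := if x = 0 then 0 else φ (ω x) ^ κ
  map_one' := by simp
  map_mul' x y := by
    by_cases hx : x = 0
    · simp [hx]
    by_cases hy : y = 0
    · simp [hy]
    simp [hx, hy, mul_zpow]
  map_nonunit' x hx := by
    have : x = 0 := by simpa using hx
    simp [this]

/-- `ψ` is the additive character given by the splitting function -/
def IsPsi (φ : K →+* ℂ) (π : K) (ω : k →*₀ K) (ψ : AddChar k ℂ) : Prop :=
  ∀ x, ψ x = φ (dwF π (Fintype.card k) (ω x))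

/-- restriction to a subfield -/
def resT (k : Type) [Field k] [Algebra k E] (ω : E →*₀ K) : k →*₀ K :=
  ω.comp (algebraMap k E).toMonoidWithZeroHom

variable [CompleteSpace K] [IsUltrametricDist K] [CharZero K] [IsAlgClosed K] {π : K} {p : ℕ}
  {φ : K →+* ℂ}

section A

omit [CompleteSpace K] [CharZero K] [IsAlgClosed K] in
theorem teicha_add_lt {a b : K} {r : ℝ} (ha : ‖a‖ < r) (hb : ‖b‖ < r) : ‖a + b‖ < r :=
  (IsUltrametricDist.norm_add_le_max a b).trans_lt (max_lt ha hb)

omit [CompleteSpace K] [CharZero K] [IsAlgClosed K] in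
theorem teicha_sub_lt {a b : K} {r : ℝ} (ha : ‖a‖ < r) (hb : ‖b‖ < r) : ‖a - b‖ < r := by
  rw [sub_eq_add_neg]
  exact teicha_add_lt ha (by simpa using hb)

omit [CompleteSpace K] [CharZero K] [IsAlgClosed K] in
theorem teicha_add_le {a b : K} {r : ℝ} (ha : ‖a‖ ≤ r) (hb : ‖b‖ ≤ r) : ‖a + b‖ ≤ r :=
  (IsUltrametricDist.norm_add_le_max a b).trans (max_le ha hb)

omit [CompleteSpace K] [CharZero K] [IsAlgClosed K] in
theorem teicha_sum_lt {ι : Type*} (s : Finset ι) (f : ι → K) {r : ℝ} (hr : 0 < r)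
    (h : ∀ i ∈ s, ‖f i‖ < r) : ‖∑ i ∈ s, f i‖ < r := by
  classical
  induction s using Finset.induction_on with
  | empty => simpa using hr
  | insert a s ha ih =>
    rw [sum_insert ha]
    exact teicha_add_lt (h a (mem_insert_self _ _)) (ih fun i hi => h i (mem_insert_of_mem hi))

omit [CompleteSpace K] [IsUltrametricDist K] [CharZero K] [IsAlgClosed K] in
theorem teicha_norm_root {x : K} {n : ℕ} (hn : n ≠ 0) (hx : x ^ n = 1) : ‖x‖ = 1 := by
  have h : ‖x‖ ^ n = 1 := by rw [← norm_pow, hx, norm_one]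
  exact (pow_eq_one_iff_of_nonneg (norm_nonneg x) hn).1 h

omit [CompleteSpace K] [IsUltrametricDist K] [CharZero K] [IsAlgClosed K] in
theorem teicha_norm_le {x : K} {Q : ℕ} (hQ : 2 ≤ Q) (hx : x ^ Q = x) : ‖x‖ ≤ 1 := by
  by_cases h0 : x = 0
  · simp [h0]
  have h1 : x ^ (Q - 1) = 1 := by
    have : x ^ (Q - 1) * x = 1 * x := by
      rw [← pow_succ, Nat.sub_add_cancel (by omega), hx, one_mul]
    exact mul_right_cancel₀ h0 this
  exact (teicha_norm_root (by omega) h1).le

omit [CompleteSpace K] [CharZero K] [IsAlgClosed K] in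
theorem teicha_pow_sub_one {u : K} (hu : ‖u‖ ≤ 1) (i : ℕ) : ‖u ^ i - 1‖ ≤ ‖u - 1‖ := by
  induction i with
  | zero => simp
  | succ i ih =>
    have : u ^ (i + 1) - 1 = u * (u ^ i - 1) + (u - 1) := by ring
    rw [this]
    refine teicha_add_le ?_ le_rfl
    rw [norm_mul]
    calc ‖u‖ * ‖u ^ i - 1‖ ≤ 1 * ‖u - 1‖ := by gcongr
      _ = ‖u - 1‖ := one_mul _

omit [CompleteSpace K] [CharZero K] [IsAlgClosed K] in
/-- solutions of `x ^ Q = x` are determined by their residue -/
theorem teicha_unique {Q : ℕ} (hQ : 2 ≤ Q) (hn : ‖(Q : K)‖ < 1) {t t' : K} (ht : t ^ Q = t)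
    (ht' : t' ^ Q = t') (h : ‖t - t'‖ < 1) : t = t' := by
  have key : ∀ {x : K}, x ^ Q = x → x ≠ 0 → x ^ (Q - 1) = 1 := by
    intro x hx h0
    have : x ^ (Q - 1) * x = 1 * x := by
      rw [← pow_succ, Nat.sub_add_cancel (by omega), hx, one_mul]
    exact mul_right_cancel₀ h0 this
  by_cases h0 : t' = 0
  · by_contra hne
    have h1 : t ≠ 0 := by rw [h0] at hne; exact hne
    rw [h0, sub_zero, teicha_norm_root (n := Q - 1) (by omega) (key ht h1)] at h
    exact lt_irrefl _ h
  have n' : ‖t'‖ = 1 := teicha_norm_root (n := Q - 1) (by omega) (key ht' h0)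
  by_cases h1 : t = 0
  · rw [h1, zero_sub, norm_neg, n'] at h
    exact absurd h (lt_irrefl _)
  by_contra hne
  set u := t / t' with hu
  have hu1 : u ≠ 1 := by
    intro e
    rw [hu, div_eq_one_iff_eq h0] at e
    exact hne e
  have hup : u ^ (Q - 1) = 1 := by rw [hu, div_pow, key ht h1, key ht' h0, div_one]
  have hun : ‖u‖ = 1 := teicha_norm_root (n := Q - 1) (by omega) hup
  have hud : ‖u - 1‖ < 1 := by
    have : u - 1 = (t - t') / t' := by rw [hu]; field_simp
    rw [this, norm_div, n', div_one]; exact h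
  have hs : ∑ i ∈ range (Q - 1), u ^ i = 0 := by
    have := mul_geom_sum u (Q - 1)
    rw [hup, sub_self] at this
    exact (mul_eq_zero.1 this).resolve_left (sub_ne_zero.2 hu1)
  have hs2 : ‖∑ i ∈ range (Q - 1), (u ^ i - 1)‖ < 1 :=
    teicha_sum_lt _ _ one_pos fun i _ => (teicha_pow_sub_one hun.le i).trans_lt hud
  have he : ∑ i ∈ range (Q - 1), (u ^ i - 1) = 1 - (Q : K) := by
    rw [sum_sub_distrib, hs, sum_const, card_range, nsmul_eq_mul, mul_one,
      Nat.cast_sub (by omega)]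
    simp
  rw [he] at hs2
  have := teicha_add_lt hs2 hn
  simp at this

omit [CompleteSpace K] [IsUltrametricDist K] [CharZero K] [IsAlgClosed K] in
theorem teicha_norm_p (c : Ctx K p π) : ‖(p : K)‖ < 1 := by
  rw [c.norm_p]
  have : (1 : ℝ) < p := by exact_mod_cast c.prime.one_lt
  exact inv_lt_one_of_one_lt₀ this

theorem teicha_card (c : Ctx K p π) (k : Type) [Field k] [Fintype k] [CharP k p] :
    ∃ f : ℕ, 1 ≤ f ∧ Fintype.card k = p ^ f := by
  obtain ⟨n, -, hn⟩ := FiniteField.card k p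
  exact ⟨n, n.pos, hn⟩

open Polynomial in
theorem exists_teich (c : Ctx K p π) (k : Type) [Field k] [Fintype k] [CharP k p] :
    ∃ ω : k →*₀ K, IsTeich ω := by
  haveI : Fact p.Prime := ⟨c.prime⟩
  obtain ⟨f, hf, hcard⟩ := teicha_card c k
  set Q := Fintype.card k with hQdef
  have hQ2 : 2 ≤ Q := Fintype.one_lt_card
  have hQn : ‖(Q : K)‖ < 1 := by
    rw [hcard, Nat.cast_pow, norm_pow]
    exact pow_lt_one₀ (norm_nonneg _) (teicha_norm_p c) (by omega)
  let v : Valuation K NNReal := NormedField.valuation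
  let O := v.integer
  let R := IsLocalRing.ResidueField O
  have hres : ∀ x : O, IsLocalRing.residue O x = 0 ↔ ‖(x : K)‖ < 1 := by
    intro x
    rw [IsLocalRing.residue_eq_zero_iff, IsLocalRing.mem_maximalIdeal, mem_nonunits_iff,
      Valuation.Integer.not_isUnit_iff_valuation_lt_one]
    exact Iff.rfl
  haveI : CharP R p := by
    rw [CharP.charP_iff_prime_eq_zero c.prime]
    have : IsLocalRing.residue O (p : O) = 0 := by
      rw [hres]
      simpa using teicha_norm_p c
    simpa using this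
  letI : Algebra (ZMod p) R := ZMod.algebra R p
  letI : Algebra (ZMod p) k := ZMod.algebra k p
  have hmon : (X ^ Q - X : O[X]).Monic := by
    refine monic_X_pow_sub ?_
    rw [degree_X]
    exact_mod_cast hQ2
  have hspl : (X ^ Q - X : O[X]).Splits := by
    refine Splits.of_splits_map_of_injective (i := O.subtype) Subtype.val_injective
      (IsAlgClosed.splits _) ?_
    intro a ha
    have h1 : a ^ Q = a := by
      have := (mem_roots'.1 ha).2
      simp only [Polynomial.map_sub, Polynomial.map_pow, map_X, IsRoot.def, eval_sub, eval_pow,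
        eval_X] at this
      exact sub_eq_zero.1 this
    exact ⟨⟨a, teicha_norm_le hQ2 h1⟩, rfl⟩
  have hsplR : ((X ^ Q - X : (ZMod p)[X]).map (algebraMap (ZMod p) R)).Splits := by
    have := hspl.map (IsLocalRing.residue O)
    simpa using this
  let j : k →ₐ[ZMod p] R := IsSplittingField.lift k (X ^ Q - X) hsplR
  have hex : ∀ x : k, ∃ t : O, t ^ Q = t ∧ IsLocalRing.residue O t = j x := by
    intro x
    obtain ⟨z, hz⟩ := IsLocalRing.residue_surjective (R := O) (j x)
    have h1 := hspl.eval_eq_prod_roots_of_monic hmon z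
    have h2 : IsLocalRing.residue O (eval z (X ^ Q - X : O[X])) = 0 := by
      simp only [eval_sub, eval_pow, eval_X, map_sub, map_pow, hz]
      rw [← map_pow, hQdef, FiniteField.pow_card, sub_self]
    rw [h1, map_multiset_prod, Multiset.prod_eq_zero_iff, Multiset.map_map, Multiset.mem_map] at h2
    obtain ⟨t, ht, ht0⟩ := h2
    refine ⟨t, ?_, ?_⟩
    · have := (mem_roots'.1 ht).2
      simp only [IsRoot.def, eval_sub, eval_pow, eval_X] at this
      exact sub_eq_zero.1 this
    · simp only [Function.comp, map_sub] at ht0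
      rw [← hz]
      exact (sub_eq_zero.1 ht0).symm
  choose w hw1 hw2 using hex
  have huniq : ∀ t t' : O, t ^ Q = t → t' ^ Q = t' →
      IsLocalRing.residue O t = IsLocalRing.residue O t' → t = t' := by
    intro t t' h1 h2 h3
    have h4 : IsLocalRing.residue O (t - t') = 0 := by rw [map_sub, h3, sub_self]
    rw [hres] at h4
    apply Subtype.ext
    refine teicha_unique hQ2 hQn ?_ ?_ (by simpa using h4)
    · have := congrArg Subtype.val h1
      simpa using this
    · have := congrArg Subtype.val h2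
      simpa using this
  have hw0 : w 0 = 0 := huniq _ _ (hw1 0) (zero_pow (by omega)) (by rw [hw2]; simp)
  have hwone : w 1 = 1 := huniq _ _ (hw1 1) (one_pow _) (by rw [hw2]; simp)
  have hwm : ∀ x y, w (x * y) = w x * w y := fun x y =>
    huniq _ _ (hw1 _) (by rw [mul_pow, hw1, hw1]) (by rw [map_mul, hw2, hw2, hw2, map_mul])
  refine ⟨{ toFun := fun x => (w x : K), map_zero' := by simp [hw0], map_one' := by simp [hwone],
            map_mul' := fun x y => by simp [hwm] }, ⟨fun x y => ?_⟩⟩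
  have h : IsLocalRing.residue O (w (x + y) - w x - w y) = 0 := by
    rw [map_sub, map_sub, hw2, hw2, hw2, map_add]; ring
  rw [hres] at h
  simpa using h

theorem IsTeich.resT {ω : E →*₀ K} (h : IsTeich ω) : IsTeich (resT k ω) := by
  refine ⟨fun x y => ?_⟩
  have := h.add (algebraMap k E x) (algebraMap k E y)
  rw [← map_add] at this
  exact this

omit [CompleteSpace K] [IsUltrametricDist K] [CharZero K] [IsAlgClosed K] in
theorem teicha_pow_card (ω : k →*₀ K) (x : k) : ω x ^ Fintype.card k = ω x := by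
  rw [← map_pow, FiniteField.pow_card]

omit [CompleteSpace K] [IsUltrametricDist K] [CharZero K] [IsAlgClosed K] in
theorem teicha_norm_eq (ω : k →*₀ K) {x : k} (hx : x ≠ 0) : ‖ω x‖ = 1 := by
  have h1 : 1 < Fintype.card k := Fintype.one_lt_card
  refine teicha_norm_root (n := Fintype.card k - 1) (by omega) ?_
  rw [← map_pow, FiniteField.pow_card_sub_one_eq_one x hx, map_one]

omit [CompleteSpace K] [IsUltrametricDist K] [CharZero K] [IsAlgClosed K] in
theorem teicha_norm_om (ω : k →*₀ K) (x : k) : ‖ω x‖ ≤ 1 :=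
  teicha_norm_le Fintype.one_lt_card (teicha_pow_card ω x)

theorem IsTeich.injective {ω : k →*₀ K} (h : IsTeich ω) : Function.Injective ω := by
  intro x y hxy
  by_contra hne
  have h1 := h.add (x - y) y
  rw [sub_add_cancel, hxy, sub_right_comm, sub_self, zero_sub, norm_neg,
    teicha_norm_eq ω (sub_ne_zero.2 hne)] at h1
  exact lt_irrefl _ h1

/-- sums over the roots of unity are sums over the nonzero elements -/
theorem IsTeich.sum_mu [DecidableEq k] {ω : k →*₀ K} (h : IsTeich ω) {M : Type*} [AddCommMonoid M]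
    (f : K → M) : ∑ x ∈ mu K (Fintype.card k - 1), f x = ∑ x ∈ univ.erase (0 : k), f (ω x) := by
  classical
  have h1 : 1 < Fintype.card k := Fintype.one_lt_card
  have hpos : 0 < Fintype.card k - 1 := by omega
  have he : (univ.erase (0 : k)).image ω = mu K (Fintype.card k - 1) := by
    apply Finset.eq_of_subset_of_card_le
    · intro y hy
      obtain ⟨x, hx, rfl⟩ := mem_image.1 hy
      rw [mem_mu hpos, ← map_pow, FiniteField.pow_card_sub_one_eq_one x (ne_of_mem_erase hx),
        map_one]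
    · rw [card_mu hpos, card_image_of_injective _ h.injective, card_erase_of_mem (mem_univ _),
        card_univ]
  rw [← he, sum_image fun x _ y _ e => h.injective e]

omit [Fintype k] [CompleteSpace K] [CharZero K] [IsAlgClosed K] in
theorem teicha_om_sum {ω : k →*₀ K} (h : IsTeich ω) {ι : Type*} (s : Finset ι) (a : ι → k) :
    ‖ω (∑ i ∈ s, a i) - ∑ i ∈ s, ω (a i)‖ < 1 := by
  classical
  induction s using Finset.induction_on with
  | empty => simp
  | insert i s hi ih =>
    rw [sum_insert hi, sum_insert hi]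
    have := teicha_add_lt (h.add (a i) (∑ j ∈ s, a j)) ih
    convert this using 2
    ring

omit [CharZero K] [IsAlgClosed K] in
/-- two `p`-th roots of unity at distance less than the norm of `π` are equal -/
theorem teicha_root_eq [CharZero K] (c : Ctx K p π) {A B : K} (hA : A ^ p = 1) (hB : B ^ p = 1)
    (h : ‖A - B‖ < ‖π‖) : A = B := by
  have hp := c.prime
  have hp0 : p ≠ 0 := hp.ne_zero
  have nB : ‖B‖ = 1 := teicha_norm_root hp0 hB
  have hB0 : B ≠ 0 := by rintro rfl; simp at nB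
  by_contra hne
  set u := A / B with hu
  have hu1 : u ≠ 1 := by
    intro e
    rw [hu, div_eq_one_iff_eq hB0] at e
    exact hne e
  have hup : u ^ p = 1 := by rw [hu, div_pow, hA, hB, div_one]
  have hun : ‖u‖ = 1 := teicha_norm_root hp0 hup
  have hud : ‖u - 1‖ < ‖π‖ := by
    have : u - 1 = (A - B) / B := by rw [hu]; field_simp
    rw [this, norm_div, nB, div_one]; exact h
  haveI : Fact p.Prime := ⟨hp⟩
  have hprim : IsPrimitiveRoot u p := by
    have := orderOf_eq_prime hup hu1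
    rw [← this]
    exact IsPrimitiveRoot.orderOf u
  obtain ⟨n, rfl⟩ : ∃ n, p = n + 1 := ⟨p - 1, by omega⟩
  have hprod := hprim.prod_one_sub_pow_eq_order
  have hn : n ≠ 0 := by have := hp.two_le; omega
  have h1 : ‖((n + 1 : ℕ) : K)‖ ≤ ‖u - 1‖ ^ n := by
    push_cast
    rw [← hprod, norm_prod]
    calc ∏ i ∈ range n, ‖1 - u ^ (i + 1)‖ ≤ ∏ _i ∈ range n, ‖u - 1‖ := by
          refine prod_le_prod (fun _ _ => norm_nonneg _) fun i _ => ?_
          rw [norm_sub_rev]
          exact teicha_pow_sub_one hun.le _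
      _ = ‖u - 1‖ ^ n := by simp
  have h2 : ‖u - 1‖ ^ n < ‖π‖ ^ n := pow_lt_pow_left₀ hud (norm_nonneg _) hn
  have h3 := c.norm_pi.1
  rw [Nat.add_sub_cancel] at h3
  rw [c.norm_p, ← h3] at h1
  exact absurd h1 (not_le.2 h2)

omit [CompleteSpace K] [CharZero K] [IsAlgClosed K] in
theorem teicha_mul_approx (hπ : ‖π‖ < 1) {A B a b : K} (ha : ‖a‖ ≤ 1) (hb : ‖b‖ ≤ 1)
    (hA : ‖A - 1 - π * a‖ < ‖π‖) (hB : ‖B - 1 - π * b‖ < ‖π‖) :
    ‖A * B - 1 - π * (a + b)‖ < ‖π‖ := by
  have h0 : 0 < ‖π‖ := (norm_nonneg _).trans_lt hA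
  have hpa : ‖π * a‖ ≤ ‖π‖ := by
    rw [norm_mul]; exact mul_le_of_le_one_right (norm_nonneg _) ha
  have hpb : ‖π * b‖ ≤ ‖π‖ := by
    rw [norm_mul]; exact mul_le_of_le_one_right (norm_nonneg _) hb
  have hA1 : ‖A - 1‖ ≤ ‖π‖ := by
    have := teicha_add_le hA.le hpa
    rwa [sub_add_cancel] at this
  have hB1 : ‖B - 1‖ ≤ ‖π‖ := by
    have := teicha_add_le hB.le hpb
    rwa [sub_add_cancel] at this
  have e : A * B - 1 - π * (a + b) =
      (A - 1 - π * a) + (B - 1 - π * b) + (A - 1) * (B - 1) := by ring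
  rw [e]
  refine teicha_add_lt (teicha_add_lt hA hB) ?_
  rw [norm_mul]
  calc ‖A - 1‖ * ‖B - 1‖ ≤ ‖π‖ * ‖π‖ := by gcongr
    _ < ‖π‖ := mul_lt_of_lt_one_right h0 hπ

omit [CompleteSpace K] [CharZero K] [IsAlgClosed K] in
theorem teicha_approx_congr {A a b : K} (hA : ‖A - 1 - π * a‖ < ‖π‖) (hab : ‖a - b‖ < 1) :
    ‖A - 1 - π * b‖ < ‖π‖ := by
  have h0 : 0 < ‖π‖ := (norm_nonneg _).trans_lt hA
  have e : A - 1 - π * b = (A - 1 - π * a) + π * (a - b) := by ring
  rw [e]
  refine teicha_add_lt hA ?_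
  rw [norm_mul]
  exact mul_lt_of_lt_one_right h0 hab

omit [IsAlgClosed K] in
/-- first order expansion of the splitting function at a Teichmueller point -/
theorem teicha_F_approx (c : Ctx K p π) {ω : k →*₀ K} (h : IsTeich ω) {f : ℕ} (hf : 1 ≤ f) (x : k) :
    ‖dwF π (p ^ f) (ω x) - 1 - π * ω (∑ t ∈ range f, x ^ p ^ t)‖ < ‖π‖ := by
  have hπ := c.norm_pi.2.2
  have h0 : 0 < ‖π‖ := lt_of_lt_of_le (by norm_num) c.norm_pi.2.1
  rw [dwF_pow c.bd_p (teicha_norm_om ω x) hf]
  clear hf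
  induction f with
  | zero => simpa using h0
  | succ f ih =>
    rw [prod_range_succ, sum_range_succ]
    have h1 := norm_dwF_sub c c.bd_p (teicha_norm_om ω (x ^ p ^ f))
    rw [← map_pow]
    have h2 := teicha_mul_approx hπ (teicha_norm_om ω _) (teicha_norm_om ω _) ih h1
    refine teicha_approx_congr h2 ?_
    have h3 := h.add (∑ t ∈ range f, x ^ p ^ t) (x ^ p ^ f)
    rw [norm_sub_rev, ← sub_sub]
    exact h3

omit [IsAlgClosed K] in
theorem teicha_eq_of_approx (c : Ctx K p π) {A B a : K} (hA : A ^ p = 1) (hB : B ^ p = 1)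
    (h1 : ‖A - 1 - π * a‖ < ‖π‖) (h2 : ‖B - 1 - π * a‖ < ‖π‖) : A = B := by
  refine teicha_root_eq c hA hB ?_
  have := teicha_sub_lt h1 h2
  convert this using 2
  ring

theorem exists_psi (c : Ctx K p π) [CharP k p] (φ : K →+* ℂ) {ω : k →*₀ K} (h : IsTeich ω) :
    ∃ ψ : AddChar k ℂ, ψ.IsPrimitive ∧ IsPsi φ π ω ψ := by
  haveI : Fact p.Prime := ⟨c.prime⟩
  obtain ⟨f, hf, hcard⟩ := teicha_card c k
  have hbd : Bd π (p ^ f) := c.bd hf
  have hπ := c.norm_pi.2.2
  have hroot : ∀ x : k, dwF π (p ^ f) (ω x) ^ p = 1 := fun x =>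
    dwF_pow_p c hbd (by rw [← hcard, teicha_pow_card])
  have hadd : ∀ x y : k, dwF π (p ^ f) (ω (x + y)) = dwF π (p ^ f) (ω x) * dwF π (p ^ f) (ω y) := by
    intro x y
    refine teicha_eq_of_approx c (hroot _) (by rw [mul_pow, hroot, hroot, one_mul])
      (teicha_F_approx c h hf (x + y)) ?_
    have h2 := teicha_mul_approx hπ (teicha_norm_om ω _) (teicha_norm_om ω _)
      (teicha_F_approx c h hf x) (teicha_F_approx c h hf y)
    refine teicha_approx_congr h2 ?_
    have e : ∑ t ∈ range f, (x + y) ^ p ^ t =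
        ∑ t ∈ range f, x ^ p ^ t + ∑ t ∈ range f, y ^ p ^ t := by
      rw [← sum_add_distrib]
      exact sum_congr rfl fun t _ => add_pow_char_pow x y p t
    rw [e, norm_sub_rev, ← sub_sub]
    exact h.add _ _
  let ψ : AddChar k ℂ :=
    { toFun := fun x => φ (dwF π (p ^ f) (ω x))
      map_zero_eq_one' := by rw [map_zero, dwF_zero, map_one]
      map_add_eq_mul' := fun x y => by rw [hadd, map_mul] }
  refine ⟨ψ, AddChar.IsPrimitive.of_ne_one ?_, fun x => by rw [hcard]; rfl⟩
  intro h1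
  letI : Algebra (ZMod p) k := ZMod.algebra k p
  have hfr : Module.finrank (ZMod p) k = f := by
    have := Module.card_eq_pow_finrank (K := ZMod p) (V := k)
    rw [ZMod.card, hcard] at this
    exact (Nat.pow_right_injective c.prime.two_le this).symm
  obtain ⟨x, hx⟩ := Algebra.trace_surjective (ZMod p) k 1
  have h2 := FiniteField.algebraMap_trace_eq_sum_pow (ZMod p) k x
  rw [hx, map_one, hfr, Nat.card_zmod] at h2
  have h3 := teicha_F_approx c h hf x
  have h4 : dwF π (p ^ f) (ω x) = 1 := by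
    apply φ.injective
    rw [map_one]
    exact congrArg (fun χ : AddChar k ℂ => χ x) h1
  rw [h4, ← h2, map_one] at h3
  simp at h3

theorem IsPsi.trc (c : Ctx K p π) [CharP k p] {ω : E →*₀ K} (h : IsTeich ω) {ψ : AddChar k ℂ}
    (hψ : IsPsi φ π (resT k ω) ψ) : IsPsi φ π ω (trc E ψ) := by
  haveI : Fact p.Prime := ⟨c.prime⟩
  haveI : CharP E p := charP_of_injective_algebraMap (algebraMap k E).injective p
  obtain ⟨f, hf, hcard⟩ := teicha_card c k
  set d := Module.finrank k E with hd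
  have hd1 : 1 ≤ d := Module.finrank_pos
  have hcardE : Fintype.card E = p ^ (f * d) := by
    rw [Module.card_eq_pow_finrank (K := k) (V := E), hcard, pow_mul]
  have hfd : 1 ≤ f * d := Nat.mul_pos hf hd1
  intro x
  have e1 : (MP_9484ad_co.trc E ψ) x = ψ (Algebra.trace k E x) := rfl
  rw [e1, hψ, hcard, hcardE]
  congr 1
  have e2 : (resT k ω) (Algebra.trace k E x) = ω (algebraMap k E (Algebra.trace k E x)) := rfl
  refine teicha_eq_of_approx c
    (dwF_pow_p c (c.bd hf) (by rw [← hcard, teicha_pow_card]))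
    (dwF_pow_p c (c.bd hfd) (by rw [← hcardE, teicha_pow_card])) ?_ (teicha_F_approx c h hfd x)
  rw [e2]
  have h1 := teicha_F_approx c h hf (algebraMap k E (Algebra.trace k E x))
  have e3 : ∑ t ∈ range f, (algebraMap k E (Algebra.trace k E x)) ^ p ^ t =
      ∑ t ∈ range (f * d), x ^ p ^ t := by
    rw [FiniteField.algebraMap_trace_eq_sum_pow, ← hd, Nat.card_eq_fintype_card, hcard]
    simp only [sum_pow_char_pow]
    rw [sum_comm]
    generalize d = n
    induction n with
    | zero => simp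
    | succ n ih =>
      rw [sum_range_succ, ih, Nat.mul_succ, sum_range_add]
      congr 1
      refine sum_congr rfl fun t _ => ?_
      rw [← pow_mul, ← pow_mul, ← pow_add]
  rwa [e3] at h1

end A

section B

variable {ω : k →*₀ K} {ψ : AddChar k ℂ}

omit [Fintype k] [CompleteSpace K] [IsUltrametricDist K] [CharZero K] [IsAlgClosed K] in
theorem teichb_apply (φ : K →+* ℂ) (ω : k →*₀ K) (a : ℤ) {x : k} (hx : x ≠ 0) :
    mc φ ω a x = φ (ω x) ^ a := if_neg hx

omit [Fintype k] [CompleteSpace K] [IsUltrametricDist K] [CharZero K] [IsAlgClosed K] in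
theorem teichb_ne (φ : K →+* ℂ) (ω : k →*₀ K) {x : k} (hx : x ≠ 0) : φ (ω x) ≠ 0 := by
  rw [map_ne_zero, map_ne_zero]; exact hx

theorem teichb_gen (h : IsTeich ω) : ∃ g : kˣ, (∀ x, x ∈ Subgroup.zpowers g) ∧
    IsPrimitiveRoot (φ (ω g)) (Fintype.card k - 1) := by
  classical
  obtain ⟨g, hg⟩ := IsCyclic.exists_generator (α := kˣ)
  refine ⟨g, hg, ?_⟩
  have h1 : IsPrimitiveRoot g (Fintype.card k - 1) := by
    rw [← Fintype.card_units, ← Nat.card_eq_fintype_card, ← orderOf_eq_card_of_forall_mem_zpowers hg]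
    exact IsPrimitiveRoot.orderOf g
  have h2 : IsPrimitiveRoot (g : k) (Fintype.card k - 1) := IsPrimitiveRoot.coe_units_iff.2 h1
  exact (h2.map_of_injective h.injective).map_of_injective φ.injective

omit [CompleteSpace K] [IsUltrametricDist K] [CharZero K] [IsAlgClosed K] in
theorem teichb_cast : ((Fintype.card k - 1 : ℕ) : ℤ) = (Fintype.card k : ℤ) - 1 := by
  rw [Nat.cast_sub Fintype.card_pos, Nat.cast_one]

theorem mc_add (φ : K →+* ℂ) (ω : k →*₀ K) (a b : ℤ) : mc φ ω (a + b) = mc φ ω a * mc φ ω b := by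
  refine MulChar.ext fun x => ?_
  rw [MulChar.mul_apply, teichb_apply _ _ _ x.ne_zero, teichb_apply _ _ _ x.ne_zero,
    teichb_apply _ _ _ x.ne_zero, zpow_add₀ (teichb_ne φ ω x.ne_zero)]

theorem mc_neg (φ : K →+* ℂ) (ω : k →*₀ K) (a : ℤ) : mc φ ω (-a) = (mc φ ω a)⁻¹ := by
  refine MulChar.ext fun x => ?_
  rw [MulChar.inv_apply_eq_inv', teichb_apply _ _ _ x.ne_zero, teichb_apply _ _ _ x.ne_zero,
    zpow_neg]

theorem mc_zero (φ : K →+* ℂ) (ω : k →*₀ K) : mc φ ω 0 = 1 := by
  refine MulChar.ext fun x => ?_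
  rw [MulChar.one_apply_coe, teichb_apply _ _ _ x.ne_zero, zpow_zero]

theorem mc_eq_iff (h : IsTeich ω) (a b : ℤ) :
    mc φ ω a = mc φ ω b ↔ a ≡ b [ZMOD ((Fintype.card k : ℤ) - 1)] := by
  obtain ⟨g, hg, hζ⟩ := teichb_gen (φ := φ) h
  rw [MulChar.eq_iff hg, teichb_apply _ _ _ g.ne_zero, teichb_apply _ _ _ g.ne_zero,
    Int.modEq_iff_dvd, ← teichb_cast, ← hζ.zpow_eq_one_iff_dvd,
    zpow_sub₀ (teichb_ne φ ω g.ne_zero),
    div_eq_one_iff_eq (zpow_ne_zero _ (teichb_ne φ ω g.ne_zero)), eq_comm]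

theorem mc_surj (h : IsTeich ω) (χ : MulChar k ℂ) : ∃ a, χ = mc φ ω a := by
  obtain ⟨g, hg, hζ⟩ := teichb_gen (φ := φ) h
  have : NeZero (Fintype.card k - 1) := ⟨by have := Fintype.one_lt_card (α := k); omega⟩
  have h1 : χ g ^ (Fintype.card k - 1) = 1 := by
    rw [← map_pow, FiniteField.pow_card_sub_one_eq_one _ g.ne_zero, map_one]
  obtain ⟨i, -, hi⟩ := hζ.eq_pow_of_pow_eq_one h1
  refine ⟨i, (MulChar.eq_iff hg _ _).2 ?_⟩
  rw [teichb_apply _ _ _ g.ne_zero, zpow_natCast, hi]

theorem mc_half (h : IsTeich ω) {a : ℤ} (ha : 2 * a = (Fintype.card k : ℤ) - 1) :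
    mc φ ω a = chi k := by
  classical
  have hK : ringChar k ≠ 2 := by
    intro h2
    have := FiniteField.even_card_iff_char_two.1 h2
    omega
  have ha' : a = ((Fintype.card k / 2 : ℕ) : ℤ) := by omega
  refine MulChar.ext fun x => ?_
  have e : chi k x = ((quadraticChar k x : ℤ) : ℂ) := rfl
  rw [e, teichb_apply _ _ _ x.ne_zero, ha', zpow_natCast, ← map_pow, ← map_pow,
    quadraticChar_eq_pow_of_char_ne_two hK x.ne_zero]
  split_ifs with h1
  · rw [h1, map_one, map_one, Int.cast_one]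
  · have h2 := (FiniteField.pow_dichotomy hK x.ne_zero).resolve_left h1
    have h3 : ω (-1) = -1 := by
      have h4 : ω (-1) ^ 2 = 1 := by rw [← map_pow, neg_one_sq, map_one]
      refine (sq_eq_one_iff.1 h4).resolve_left fun h5 => ?_
      exact h1 (h2.trans (h.injective (h5.trans (map_one ω).symm)))
    rw [h2, h3, map_neg, map_one, Int.cast_neg, Int.cast_one]

theorem sum_mc (h : IsTeich ω) (f : MulChar k ℂ → ℂ) :
    ∑ ρ, f ρ = ∑ i ∈ range (Fintype.card k - 1), f (mc φ ω i) := by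
  have hq : (0 : ℤ) < (Fintype.card k : ℤ) - 1 := by
    have := Fintype.one_lt_card (α := k); omega
  symm
  refine sum_bij (fun i _ => mc φ ω i) (fun _ _ => mem_univ _) ?_ ?_ fun _ _ => rfl
  · intro i hi j hj hij
    rw [mem_range] at hi hj
    rw [mc_eq_iff h, ← teichb_cast, Int.natCast_modEq_iff] at hij
    exact Nat.ModEq.eq_of_lt_of_lt hij hi hj
  · intro χ _
    obtain ⟨a, rfl⟩ := mc_surj (φ := φ) h χ
    have h0 := Int.emod_nonneg a hq.ne'
    have h1 := Int.emod_lt_of_pos a hq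
    refine ⟨(a % ((Fintype.card k : ℤ) - 1)).toNat, mem_range.2 (by omega), ?_⟩
    rw [mc_eq_iff h, Int.toNat_of_nonneg h0]
    exact Int.mod_modEq _ _

theorem gauss_mc (h : IsTeich ω) (hψ : IsPsi φ π ω ψ) (a : ℤ) :
    gaussSum (mc φ ω a) ψ = φ (G π (Fintype.card k) a) := by
  classical
  rw [G, h.sum_mu, map_sum, gaussSum, ← add_sum_erase _ _ (mem_univ (0 : k)), MulChar.map_zero,
    zero_mul, zero_add]
  refine sum_congr rfl fun x hx => ?_
  rw [teichb_apply _ _ _ (ne_of_mem_erase hx), hψ x, map_mul, map_zpow₀]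

theorem res_mc (φ : K →+* ℂ) (ω : E →*₀ K) (a : ℤ) : res k (mc φ ω a) = mc φ (resT k ω) a := by
  refine MulChar.ext fun x => ?_
  have e : res k (mc φ ω a) x = mc φ ω a (algebraMap k E x) := rfl
  rw [e, teichb_apply _ _ _ x.ne_zero, teichb_apply _ _ _ ((map_ne_zero _).2 x.ne_zero)]
  rfl

theorem nrm_mc (h2 : Module.finrank k E = 2) (φ : K →+* ℂ) (ω : E →*₀ K) (a : ℤ) :
    nrm E (mc φ (resT k ω) a) = mc φ ω ((Fintype.card k + 1) * a) := by
  refine MulChar.ext fun x => ?_
  have e : nrm E (mc φ (resT k ω) a) x = mc φ (resT k ω) a (Algebra.norm k (x : E)) := rfl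
  have e2 : resT k ω (Algebra.norm k (x : E)) = ω (algebraMap k E (Algebra.norm k (x : E))) := rfl
  rw [e, teichb_apply _ _ _ (x.isUnit.map (Algebra.norm k)).ne_zero,
    teichb_apply _ _ _ x.ne_zero, e2, FiniteField.algebraMap_norm_eq_pow_sum, h2,
    Nat.card_eq_fintype_card, map_pow, map_pow, ← zpow_natCast, ← zpow_mul]
  congr 2
  simp [sum_range_succ, add_comm]

omit [CompleteSpace K] [IsUltrametricDist K] [CharZero K] [IsAlgClosed K] in
theorem teichb_cancel (φ : K →+* ℂ) (y : K) :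
    φ y = ((Fintype.card k : ℂ) - 1) * φ (((Fintype.card k : K) - 1)⁻¹ * y) := by
  have : (Fintype.card k : ℂ) - 1 ≠ 0 := by
    rw [sub_ne_zero]
    exact_mod_cast Fintype.one_lt_card.ne'
  rw [map_mul, map_inv₀, map_sub, map_natCast, map_one, mul_inv_cancel_left₀ this]

theorem hypS_mc (h : IsTeich ω) (hψ : IsPsi φ π ω ψ) (ku kl : Fin 4 → ℤ) :
    hypS ψ (fun m => mc φ ω (ku m)) (fun m => mc φ ω (kl m)) =
      ((Fintype.card k : ℂ) - 1) * φ (Hs π (Fintype.card k) ku kl) := by
  rw [hypS, sum_mc (φ := φ) h, Hs, ← teichb_cancel, map_sum]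
  refine sum_congr rfl fun i _ => ?_
  simp only [← mc_neg, ← mc_add, gauss_mc h hψ, map_mul, map_prod, sub_eq_add_neg]

theorem hypT_mc (c : Ctx K p π) [CharP k p] (h2 : Module.finrank k E = 2) {ω : E →*₀ K}
    (h : IsTeich ω) (hψ : IsPsi φ π (resT k ω) ψ) (n : ℤ) (ku : Fin 2 → ℤ) (kl : Fin 4 → ℤ) :
    hypT ψ (mc φ ω n) (fun m => mc φ (resT k ω) (ku m)) (fun m => mc φ (resT k ω) (kl m)) =
      ((Fintype.card k : ℂ) - 1) * φ (Ht π (Fintype.card k) n ku kl) := by
  have hcard : Fintype.card E = Fintype.card k ^ 2 := by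
    rw [Module.card_eq_pow_finrank (K := k) (V := E), h2]
  have h' : IsTeich (resT k ω) := h.resT
  rw [hypT, sum_mc (φ := φ) h', Ht, ← teichb_cancel, map_sum]
  refine sum_congr rfl fun i _ => ?_
  rw [← mc_neg, nrm_mc h2, ← mc_add, gauss_mc h (hψ.trc c h), hcard]
  simp only [← mc_add, gauss_mc h' hψ, map_mul, map_prod, sub_eq_add_neg, mul_neg]

end B

end

end Pool.Agent.P.MP_9484ad_co
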