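import Pool.Agent.P.MP_9484ad_co.Step
import Pool.Agent.P.MP_9484ad_co.Teich
import Pool.Agent.P.MP_9484ad_co.Special

/-! From the special points to the three families. -/

namespace Pool.Agent.P.MP_9484ad_co

open Finset

noncomputable section

variable {K : Type} [NontriviallyNormedField K] [CompleteSpace K] [IsUltrametricDist K] [CharZero K]
  [IsAlgClosed K] {π : K} {p f : ℕ} {φ : K →+* ℂ} {w : ℤ}

section Moves

variable {q : ℕ} {A : ℝ}

theorem chain_two_le (hq : 2 ≤ q) {r : ℕ} (hr : 1 ≤ r) : 2 ≤ q ^ r :=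
  hq.trans (Nat.le_self_pow (by omega) q)

omit [IsAlgClosed K] in
theorem chain_congr (hq : 2 ≤ q) {ku kl ku' kl' : Fin 4 → ℤ}
    (hu : ∀ m, ku m ≡ ku' m [ZMOD ((q : ℤ) - 1)]) (hl : ∀ m, kl m ≡ kl' m [ZMOD ((q : ℤ) - 1)])
    (h : RB φ π q ku kl A) : RB φ π q ku' kl' A := by
  intro r hr
  have e : (((q ^ r : ℕ) : ℤ) - 1) = Nr q r * ((q : ℤ) - 1) := by
    rw [Nr_mul]; push_cast; ring
  rw [← Hs_congr π (chain_two_le hq hr) (ku := fun m => Nr q r * ku m)
    (kl := fun m => Nr q r * kl m) (fun m => e ▸ (hu m).mul_left') (fun m => e ▸ (hl m).mul_left')]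
  exact h r hr

omit [IsAlgClosed K] in
theorem chain_perm {ku kl : Fin 4 → ℤ} (σ τ : Equiv.Perm (Fin 4)) (h : RB φ π q ku kl A) :
    RB φ π q (fun m => ku (σ m)) (fun m => kl (τ m)) A := by
  intro r hr
  rw [Hs_perm π (q ^ r) (fun m => Nr q r * ku m) (fun m => Nr q r * kl m) σ τ]
  exact h r hr

omit [IsAlgClosed K] in
theorem chain_swap (hq : 2 ≤ q) {ku kl : Fin 4 → ℤ} (h : RB φ π q ku kl A) :
    RB φ π q kl ku A := by
  intro r hr
  rw [Hs_swap π (chain_two_le hq hr)]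
  exact h r hr

omit [IsAlgClosed K] in
theorem chain_shift (hq : 2 ≤ q) {ku kl : Fin 4 → ℤ} (x : ℤ) (h : RB φ π q ku kl A) :
    RB φ π q (fun m => ku m - x) (fun m => kl m + x) A := by
  intro r hr
  have e := Hs_shift π (chain_two_le hq hr) (fun m => Nr q r * ku m) (fun m => Nr q r * kl m)
    (Nr q r * x)
  simp only [mul_sub, mul_add]
  rw [e]
  exact h r hr

omit [IsAlgClosed K] in
theorem chain_neg (c : Ctx K p π) (hB : Bd π q) (hq : Odd q) {ku kl : Fin 4 → ℤ}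
    (h : RB φ π q ku kl A) : RB φ π q (fun m => -ku m) (fun m => -kl m) A := by
  intro r hr
  have e := congrArg norm (conj_Hs c (hB.pow hr) hq.pow φ (fun m => Nr q r * ku m)
    (fun m => Nr q r * kl m))
  rw [Complex.norm_conj, norm_mul, norm_zpow, norm_neg, norm_one, one_zpow, one_mul] at e
  simp only [mul_neg]
  rw [← e]
  exact h r hr

end Moves

/-- the bound for characters of order dividing `16` -/
def chain_RW (φ : K →+* ℂ) (π : K) (q : ℕ) (w : ℤ) (a b : Fin 4 → ℤ) (A : ℝ) : Prop :=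
  RB φ π q (fun m => a m * w) (fun m => b m * w) A

section Units

variable {A : ℝ} {a b a' b' : Fin 4 → ℤ}

omit [CompleteSpace K] [IsUltrametricDist K] [CharZero K] [IsAlgClosed K] in
theorem chain_q (c : Ctx K p π) (hf : 1 ≤ f) : 2 ≤ p ^ f := chain_two_le c.prime.two_le hf

omit [CompleteSpace K] [IsUltrametricDist K] [CharZero K] [IsAlgClosed K] in
theorem chain_odd (c : Ctx K p π) : Odd (p ^ f) := by
  have h := c.big
  exact (c.prime.odd_of_ne_two (by omega)).pow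

theorem chain_cast (hw : 16 * w = (p : ℤ) ^ f - 1) : ((p ^ f : ℕ) : ℤ) - 1 = 16 * w := by
  rw [hw]; push_cast; ring

omit [CompleteSpace K] [IsUltrametricDist K] [CharZero K] [IsAlgClosed K] in
theorem chain_w (c : Ctx K p π) (hf : 1 ≤ f) (hw : 16 * w = (p : ℤ) ^ f - 1) : 0 < w := by
  have h1 := chain_q c hf
  have h2 := chain_cast hw
  omega

theorem chain_mod {x y : ℤ} (h : 16 ∣ y - x) (w : ℤ) : x * w ≡ y * w [ZMOD 16 * w] :=
  (Int.modEq_iff_dvd.2 h).mul_right'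

omit [IsAlgClosed K] in
theorem chain_eqv (c : Ctx K p π) (hf : 1 ≤ f) (hw : 16 * w = (p : ℤ) ^ f - 1)
    (σ τ : Equiv.Perm (Fin 4)) (hu : ∀ m, 16 ∣ a' m - a (σ m)) (hl : ∀ m, 16 ∣ b' m - b (τ m))
    (h : chain_RW φ π (p ^ f) w a b A) : chain_RW φ π (p ^ f) w a' b' A := by
  refine chain_congr (chain_q c hf) ?_ ?_ (chain_perm σ τ h)
  · intro m
    rw [chain_cast hw]
    exact chain_mod (hu m) w
  · intro m
    rw [chain_cast hw]
    exact chain_mod (hl m) w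

omit [IsAlgClosed K] in
theorem chain_swapW (c : Ctx K p π) (hf : 1 ≤ f) (h : chain_RW φ π (p ^ f) w a b A) :
    chain_RW φ π (p ^ f) w b a A := chain_swap (chain_q c hf) h

omit [IsAlgClosed K] in
theorem chain_shiftW (c : Ctx K p π) (hf : 1 ≤ f) (x : ℤ) (h : chain_RW φ π (p ^ f) w a b A) :
    chain_RW φ π (p ^ f) w (fun m => a m - x) (fun m => b m + x) A := by
  have := chain_shift (chain_q c hf) (x * w) h
  unfold chain_RW
  simpa only [sub_mul, add_mul] using this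

theorem chain_line (c : Ctx K p π) (hf : 1 ≤ f) (hw : 16 * w = (p : ℤ) ^ f - 1)
    (g : ∀ m m', ¬ 16 ∣ a m + b m') (hs : 8 ∣ a 0 + a 1 + a 2 + a 3 + (b 0 + b 1 + b 2 + b 3))
    (h : chain_RW φ π (p ^ f) w a b A) {x y : ℤ} (hxy : x + y ≡ (a 0 + a 1) * w [ZMOD 16 * w]) :
    RB φ π (p ^ f) ![x, y, a 2 * w, a 3 * w] (fun m => b m * w) 4 := by
  have hw0 := chain_w c hf hw
  have h1 := step c (c.bd hf) (chain_odd c) φ (fun m => a m * w) (fun m => b m * w)
    (fun m m' hd => g m m' (by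
      rw [chain_cast hw, ← add_mul] at hd
      exact Int.dvd_of_mul_dvd_mul_right hw0.ne' hd))
    (by
      rw [chain_cast hw]
      obtain ⟨t, ht⟩ := hs
      refine ⟨t, ?_⟩
      simp only [Fin.sum_univ_four]
      linear_combination 2 * w * ht) h (a 0 * w - x)
  refine chain_congr (chain_q c hf) ?_ (fun m => Int.ModEq.refl _) h1
  rw [chain_cast hw]
  intro m
  fin_cases m
  · show 1 * (a 0 * w) - (a 0 * w - x) ≡ x [ZMOD 16 * w]
    rw [show 1 * (a 0 * w) - (a 0 * w - x) = x by ring]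
  · show 1 * (a 1 * w) + (a 0 * w - x) ≡ y [ZMOD 16 * w]
    have := (hxy.sub_right x).symm
    rwa [show (a 0 + a 1) * w - x = 1 * (a 1 * w) + (a 0 * w - x) by ring,
      show x + y - x = y by ring] at this
  · show 1 * (a 2 * w) ≡ a 2 * w [ZMOD 16 * w]
    rw [one_mul]
  · show 1 * (a 3 * w) ≡ a 3 * w [ZMOD 16 * w]
    rw [one_mul]

theorem chain_move (c : Ctx K p π) (hf : 1 ≤ f) (hw : 16 * w = (p : ℤ) ^ f - 1) (x y : ℤ)
    (g : ∀ m m', ¬ 16 ∣ a m + b m') (hs : 8 ∣ a 0 + a 1 + a 2 + a 3 + (b 0 + b 1 + b 2 + b 3))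
    (hxy : 16 ∣ a 0 + a 1 - (x + y)) (h : chain_RW φ π (p ^ f) w a b A) :
    chain_RW φ π (p ^ f) w ![x, y, a 2, a 3] b 4 := by
  have h1 := chain_line c hf hw g hs h (x := x * w) (y := y * w)
    (by rw [← add_mul]; exact chain_mod hxy w)
  have e : (fun m => ![x, y, a 2, a 3] m * w) = ![x * w, y * w, a 2 * w, a 3 * w] := by
    funext m
    fin_cases m <;> rfl
  unfold chain_RW
  rw [e]
  exact h1

end Units

theorem chain_sqrt (x : ℝ) (hx : 0 ≤ x) (r : ℕ) : √(x ^ r) = √x ^ r := by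
  induction r with
  | zero => simp
  | succ r ih => rw [pow_succ, pow_succ, Real.sqrt_mul (pow_nonneg hx r), ih]

theorem chain_mc_pow {k : Type} [Field k] [Fintype k] (φ : K →+* ℂ) (ω : k →*₀ K) (a : ℤ) (n : ℕ) :
    mc φ ω a ^ n = mc φ ω (n * a) := by
  induction n with
  | zero => simp [mc_zero]
  | succ n ih => rw [pow_succ, ih, ← mc_add]; congr 1; push_cast; ring

theorem rb_special (c : Ctx K p π) (hf : 1 ≤ f) (hw : 16 * w = (p : ℤ) ^ f - 1) (φ : K →+* ℂ)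
    (a b : ℤ) (ha : ¬ 4 ∣ a) (hb : ¬ 4 ∣ b) (hab : ¬ 8 ∣ a + b) :
    RB φ π (p ^ f) ![a * w, (a + 8) * w, b * w, (b + 8) * w]
      ![a * w, (a + 8) * w, b * w, (b + 8) * w] 6 := by
  intro r hr
  have : Fact p.Prime := ⟨c.prime⟩
  have hfr : f * r ≠ 0 := Nat.mul_ne_zero (by omega) (by omega)
  let k := GaloisField p (f * r)
  let _ : Fintype k := Fintype.ofFinite k
  have hk : Fintype.card k = (p ^ f) ^ r := by
    rw [← Nat.card_eq_fintype_card, GaloisField.card p (f * r) hfr, pow_mul]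
  obtain ⟨ω, hω⟩ := exists_teich c k
  obtain ⟨ψ, hψ, hP⟩ := exists_psi c φ hω
  set N := Nr (p ^ f) r with hN
  have hQ2 : 2 ≤ (p ^ f) ^ r := chain_two_le (chain_q c hf) hr
  have hNw : (Fintype.card k : ℤ) - 1 = 16 * (N * w) := by
    have h1 := Nr_mul (p ^ f) r
    rw [chain_cast hw] at h1
    rw [hk, Nat.cast_pow, ← h1]
    ring
  have hpos : N * w ≠ 0 := by
    intro h0
    rw [h0, hk] at hNw
    omega
  have hne : ∀ (t : ℤ), ¬ 16 ∣ t → mc φ ω (t * (N * w)) ≠ 1 := by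
    intro t ht h1
    rw [← mc_zero φ ω, mc_eq_iff hω, hNw] at h1
    exact ht (Int.dvd_of_mul_dvd_mul_right hpos ((Int.modEq_zero_iff_dvd).1 h1))
  have hchi : ∀ t : ℤ, mc φ ω (N * ((t + 8) * w)) = mc φ ω (N * (t * w)) * chi k := by
    intro t
    rw [← mc_half (φ := φ) hω (a := 8 * (N * w)) (by rw [hNw]; ring), ← mc_add]
    congr 1
    ring
  have h4 : ∀ t : ℤ, ¬ 4 ∣ t → mc φ ω (N * (t * w)) ^ 4 ≠ 1 := by
    intro t ht
    rw [chain_mc_pow, show ((4 : ℕ) : ℤ) * (N * (t * w)) = (4 * t) * (N * w) by push_cast; ring]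
    exact hne _ (by omega)
  have h2 : (mc φ ω (N * (a * w)) * mc φ ω (N * (b * w))) ^ 2 ≠ 1 := by
    rw [← mc_add, chain_mc_pow, show ((2 : ℕ) : ℤ) * (N * (a * w) + N * (b * w)) =
      (2 * (a + b)) * (N * w) by push_cast; ring]
    exact hne _ (by omega)
  have hch : ringChar k ≠ 2 := by
    rw [ringChar.eq k p]
    have := c.big
    omega
  have hS := special hch hψ _ _ (h4 a ha) (h4 b hb) h2
  have e : (fun m => mc φ ω (N * ![a * w, (a + 8) * w, b * w, (b + 8) * w] m)) =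
      ![mc φ ω (N * (a * w)), mc φ ω (N * (a * w)) * chi k, mc φ ω (N * (b * w)),
        mc φ ω (N * (b * w)) * chi k] := by
    funext m
    fin_cases m
    · rfl
    · exact hchi a
    · rfl
    · exact hchi b
  have hH := hypS_mc hω hP (fun m => N * ![a * w, (a + 8) * w, b * w, (b + 8) * w] m)
    (fun m => N * ![a * w, (a + 8) * w, b * w, (b + 8) * w] m)
  rw [e] at hH
  rw [hH, norm_mul, hk] at hS
  set Q := (p ^ f) ^ r with hQ
  have hQr : (2 : ℝ) ≤ Q := by exact_mod_cast hQ2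
  have hn : ‖(Q : ℂ) - 1‖ = (Q : ℝ) - 1 := by
    rw [show (Q : ℂ) - 1 = (((Q : ℝ) - 1 : ℝ) : ℂ) by push_cast; ring, Complex.norm_real,
      Real.norm_of_nonneg (by linarith)]
  have hs : (√((p ^ f : ℕ) : ℝ) ^ 7) ^ r = √(Q : ℝ) ^ 7 := by
    rw [hQ, Nat.cast_pow (p ^ f) r, chain_sqrt _ (Nat.cast_nonneg _), ← pow_mul, ← pow_mul, mul_comm]
  have h9 : √(Q : ℝ) ^ 9 = Q * √(Q : ℝ) ^ 7 := by
    rw [show 9 = 2 + 7 from rfl, pow_add, Real.sq_sqrt (Nat.cast_nonneg _)]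
  rw [hn, h9] at hS
  rw [hs]
  have h7 : 0 ≤ √(Q : ℝ) ^ 7 := by positivity
  refine le_of_mul_le_mul_left (hS.trans ?_) (show (0 : ℝ) < Q - 1 by linarith)
  nlinarith [mul_nonneg h7 (show (0 : ℝ) ≤ Q - 2 by linarith)]

theorem chain_start (c : Ctx K p π) (hf : 1 ≤ f) (hw : 16 * w = (p : ℤ) ^ f - 1) (φ : K →+* ℂ)
    (a b : ℤ) (ha : ¬ 4 ∣ a) (hb : ¬ 4 ∣ b) (hab : ¬ 8 ∣ a + b) :
    chain_RW φ π (p ^ f) w ![a, a + 8, b, b + 8] ![a, a + 8, b, b + 8] 6 := by
  have e : (fun m => ![a, a + 8, b, b + 8] m * w) = ![a * w, (a + 8) * w, b * w, (b + 8) * w] := by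
    funext m
    fin_cases m <;> rfl
  unfold chain_RW
  rw [e]
  exact rb_special c hf hw φ a b ha hb hab

theorem chain_zero (w : ℤ) : (fun m => (![0, 0, 0, 0] : Fin 4 → ℤ) m * w) = ![0, 0, 0, 0] := by
  funext m
  fin_cases m <;> simp

theorem rb_bowtie (c : Ctx K p π) (hf : 1 ≤ f) (hw : 16 * w = (p : ℤ) ^ f - 1) (φ : K →+* ℂ)
    (x y : ℤ) (h : x + y ≡ 0 [ZMOD 16 * w]) :
    RB φ π (p ^ f) ![x, y, 8 * w, 8 * w] ![0, 0, 0, 0] 4 := by
  have h0 := chain_start c hf hw φ 1 3 (by decide) (by decide) (by decide)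
  have h1 : chain_RW φ π (p ^ f) w ![11, 9, 3, 1] ![1, 9, 3, 11] 6 :=
    chain_eqv c hf hw (Equiv.swap 0 3) 1 (by decide) (by decide) h0
  have h2 := chain_swapW c hf (chain_move c hf hw 10 10 (by decide) (by decide) (by decide) h1)
  have h3 : chain_RW φ π (p ^ f) w ![1, 11, 3, 9] ![10, 10, 3, 1] 4 :=
    chain_eqv c hf hw (Equiv.swap 1 3) 1 (by decide) (by decide) h2
  have h4 := chain_move c hf hw 14 14 (by decide) (by decide) (by decide) h3
  have h5 : chain_RW φ π (p ^ f) w ![3, 9, 14, 14] ![10, 10, 3, 1] 4 :=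
    chain_eqv c hf hw (Equiv.swap 0 2 * Equiv.swap 1 3) 1 (by decide) (by decide) h4
  have h6 := chain_shiftW c hf 2
    (chain_swapW c hf (chain_move c hf hw 14 14 (by decide) (by decide) (by decide) h5))
  have h7 : chain_RW φ π (p ^ f) w ![1, -1, 8, 8] ![0, 0, 0, 0] 4 :=
    chain_eqv c hf hw (Equiv.swap 0 2 * Equiv.swap 1 3) 1 (by decide) (by decide) h6
  have h8 := chain_line c hf hw (by decide) (by decide) h7 (x := x) (y := y) (by simpa using h)
  rw [chain_zero] at h8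
  exact h8

theorem rb_fan (c : Ctx K p π) (hf : 1 ≤ f) (hw : 16 * w = (p : ℤ) ^ f - 1) (φ : K →+* ℂ)
    (x y : ℤ) (h : x + y ≡ 8 * w [ZMOD 16 * w]) :
    RB φ π (p ^ f) ![x, y, 8 * w, 8 * w] ![0, 0, 0, 0] 4 := by
  have h0 := chain_start c hf hw φ 1 5 (by decide) (by decide) (by decide)
  have h1 : chain_RW φ π (p ^ f) w ![1, 13, 5, 9] ![1, 9, 5, 13] 6 :=
    chain_eqv c hf hw (Equiv.swap 1 3) 1 (by decide) (by decide) h0
  have h2 := chain_swapW c hf (chain_move c hf hw 5 9 (by decide) (by decide) (by decide) h1)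
  have h3 : chain_RW φ π (p ^ f) w ![1, 13, 5, 9] ![5, 9, 5, 9] 4 :=
    chain_eqv c hf hw (Equiv.swap 1 3) 1 (by decide) (by decide) h2
  have h4 := chain_move c hf hw 15 15 (by decide) (by decide) (by decide) h3
  have h5 : chain_RW φ π (p ^ f) w ![5, 9, 15, 15] ![5, 9, 5, 9] 4 :=
    chain_eqv c hf hw (Equiv.swap 0 2 * Equiv.swap 1 3) 1 (by decide) (by decide) h4
  have h6 := chain_shiftW c hf 1
    (chain_swapW c hf (chain_move c hf hw 15 15 (by decide) (by decide) (by decide) h5))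
  have h7 : chain_RW φ π (p ^ f) w ![4, 4, 8, 8] ![0, 0, 0, 0] 4 :=
    chain_eqv c hf hw (Equiv.swap 1 2) 1 (by decide) (by decide) h6
  have h8 := chain_line c hf hw (by decide) (by decide) h7 (x := x) (y := y) h
  rw [chain_zero] at h8
  exact h8

theorem chain_wheel (c : Ctx K p π) (hf : 1 ≤ f) (hw : 16 * w = (p : ℤ) ^ f - 1) (φ : K →+* ℂ)
    (x y : ℤ) (h : x + y ≡ 8 * w [ZMOD 16 * w]) :
    RB φ π (p ^ f) ![x, y, 8 * w, 8 * w] ![0, 0, 4 * w, 4 * w] 4 := by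
  have h0 := chain_start c hf hw φ 1 3 (by decide) (by decide) (by decide)
  have h1 := chain_move c hf hw 2 8 (by decide) (by decide) (by decide) h0
  have h2 : chain_RW φ π (p ^ f) w ![3, 11, 2, 8] ![1, 3, 9, 11] 4 :=
    chain_eqv c hf hw (Equiv.swap 0 2 * Equiv.swap 1 3) (Equiv.swap 1 2) (by decide) (by decide) h1
  have h3 := chain_swapW c hf (chain_move c hf hw 6 8 (by decide) (by decide) (by decide) h2)
  have h4 := chain_move c hf hw 0 4 (by decide) (by decide) (by decide) h3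
  have h5 : chain_RW φ π (p ^ f) w ![9, 11, 0, 4] ![6, 8, 2, 8] 4 :=
    chain_eqv c hf hw (Equiv.swap 0 2 * Equiv.swap 1 3) 1 (by decide) (by decide) h4
  have h6 := chain_swapW c hf (chain_move c hf hw 0 4 (by decide) (by decide) (by decide) h5)
  have h7 : chain_RW φ π (p ^ f) w ![6, 2, 8, 8] ![0, 0, 4, 4] 4 :=
    chain_eqv c hf hw (Equiv.swap 1 2) (Equiv.swap 1 2) (by decide) (by decide) h6
  have h8 := chain_line c hf hw (by decide) (by decide) h7 (x := x) (y := y) h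
  have e : (fun m => (![0, 0, 4, 4] : Fin 4 → ℤ) m * w) = ![0, 0, 4 * w, 4 * w] := by
    funext m
    fin_cases m <;> simp
  rw [e] at h8
  exact h8

theorem rb_wheel (c : Ctx K p π) (hf : 1 ≤ f) (hw : 16 * w = (p : ℤ) ^ f - 1) (φ : K →+* ℂ)
    (x y : ℤ) (h : x + y ≡ 8 * w [ZMOD 16 * w]) {e : ℤ} (he : e = 1 ∨ e = -1) :
    RB φ π (p ^ f) ![x, y, 8 * w, 8 * w] ![0, 0, e * (4 * w), e * (4 * w)] 4 := by
  rcases he with rfl | rfl
  · rw [one_mul]
    exact chain_wheel c hf hw φ x y h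
  · have h8 : -(8 * w) ≡ 8 * w [ZMOD 16 * w] := Int.modEq_iff_dvd.2 ⟨1, by ring⟩
    have h1 := chain_neg c (c.bd hf) (chain_odd c) (chain_wheel c hf hw φ (-x) (-y)
      (by rw [← neg_add]; exact h.neg.trans h8))
    refine chain_congr (chain_q c hf) ?_ ?_ h1
    · rw [chain_cast hw]
      intro m
      fin_cases m
      · show - -x ≡ x [ZMOD 16 * w]
        rw [neg_neg]
      · show - -y ≡ y [ZMOD 16 * w]
        rw [neg_neg]
      · exact h8
      · exact h8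
    · intro m
      fin_cases m <;> simp [Int.ModEq]

end

end Pool.Agent.P.MP_9484ad_co
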