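import Pool.Agent.P.MP_9484ad_co.DiagDefs

/-! The three kernels in terms of class functions. -/

namespace Pool.Agent.P.MP_9484ad_co

open Finset

variable {F : Type*} [Field F] [Fintype F] [DecidableEq F]

theorem k1_sub (a b : F) : sg a b = sg (a - b) 0 := by simp [sg]

theorem k1_mul (a b : F) : sg (a * b) 0 = sg a 0 * sg b 0 := by
  simp only [sg, sub_zero, map_mul, Int.cast_mul]

theorem k1_one : sg (1 : F) 0 = 1 := by simp [sg]

theorem k1_of_sq {x y w : F} (hw : w ≠ 0) (h : x = y * w ^ 2) : sg x 0 = sg y 0 := by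
  rw [h, sq, k1_mul, k1_mul, sg_sq hw, mul_one]

theorem k1_div (a b : F) : sg (a / b) 0 = sg a 0 * sg b 0 := by
  by_cases hb : b = 0
  · simp [hb, sg_self]
  · rw [← k1_mul]
    exact k1_of_sq (inv_ne_zero hb) (by field_simp)

theorem k1_sq (a : F) : sg a 0 ^ 2 = 1 - sdl a 0 := by
  unfold sdl
  split_ifs with h
  · simp [h, sg_self]
  · rw [sq, sg_sq h, sub_zero]

theorem k1_sum (hK : ringChar F ≠ 2) (a : F) : ∑ x, sg x a = 0 := by
  have h := quadraticChar_sum_zero hK
  have h2 : ∑ x, sg x a = ∑ x : F, (quadraticChar F x : ℝ) :=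
    (Equiv.subRight a).sum_comp fun x => (quadraticChar F x : ℝ)
  rw [h2]
  exact_mod_cast h

theorem k1_sum_sq : ∑ x : F, sg x 0 ^ 2 = Fintype.card F - 1 := by
  simp [k1_sq, sdl]

omit [DecidableEq F] in
theorem k1_aff {A : F} (hA : A ≠ 0) (B : F) (f : F → ℝ) : ∑ l, f (l * A + B) = ∑ x, f x :=
  ((Equiv.mulRight₀ A hA).trans (Equiv.addRight B)).sum_comp f

theorem k1_quad (hK : ringChar F ≠ 2) (A L C : F) :
    ∑ c, sg (A * c ^ 2 - L * c + C) 0 = -sg A 0 + if L ^ 2 = 4 * A * C then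
      (Fintype.card F : ℝ) * (if A = 0 then sg C 0 else sg A 0) else 0 := by
  have := quad_sum hK A L C
  simp only [sg, sub_zero]
  split_ifs at this ⊢ <;> exact_mod_cast this

theorem leg_symm (h1 : IsSquare (-1 : F)) (c : F) : leg (1 - c) = leg c := by
  unfold leg
  rw [← (Equiv.subLeft (1 : F)).sum_comp]
  refine sum_congr rfl fun x _ => ?_
  have e1 : sg (1 - x) 0 = sg x 1 := by rw [← k1_sub, sg_comm h1]
  have e2 : sg (1 - x) 1 = sg x 0 := by
    rw [k1_sub, sg_comm h1 x 0, k1_sub 0 x]; congr 1; ring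
  have e3 : sg (1 - x) (1 - c) = sg x c := by
    rw [k1_sub, sg_comm h1 x c, k1_sub c x]; congr 1; ring
  rw [Equiv.subLeft_apply, e1, e2, e3]
  ring

theorem cw_eq_leg {a b c d : F} (hab : a ≠ b) (hcd : c ≠ d) (had : a ≠ d) (hbd : b ≠ d) :
    sg a b * sg c d * (cw a b c d + 1) = leg ((c - b) * (a - d) / ((a - b) * (c - d))) := by
  have hab' := sub_ne_zero.2 hab
  have hcd' := sub_ne_zero.2 hcd
  have had' := sub_ne_zero.2 had
  have hbd' := sub_ne_zero.2 hbd
  let σ : F → F := fun s =>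
    if s = d then (a - d) / (a - b) else (s - b) * (a - d) / ((a - b) * (s - d))
  have hσ : Function.Injective σ := by
    intro s t h
    by_cases hs : s = d <;> by_cases ht : t = d
    · rw [hs, ht]
    · exfalso
      have ht' := sub_ne_zero.2 ht
      simp only [σ, if_pos hs, if_neg ht] at h
      field_simp at h
      exact hbd' (by linear_combination h)
    · exfalso
      have hs' := sub_ne_zero.2 hs
      simp only [σ, if_pos ht, if_neg hs] at h
      field_simp at h
      exact hbd' (by linear_combination -h)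
    · have ht' := sub_ne_zero.2 ht
      have hs' := sub_ne_zero.2 hs
      simp only [σ, if_neg ht, if_neg hs] at h
      field_simp at h
      have : (s - t) * (b - d) = 0 := by linear_combination h
      exact sub_eq_zero.1 ((mul_eq_zero.1 this).resolve_right hbd')
  unfold leg cw
  symm
  rw [← (Finite.injective_iff_bijective.1 hσ).sum_comp]
  have key : ∀ s, sg (σ s) 0 * sg (σ s) 1 * sg (σ s) ((c - b) * (a - d) / ((a - b) * (c - d))) =
      sg a b * sg c d * (sg s a * sg s b * sg s c * sg s d) +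
        if s = d then sg a b * sg c d else 0 := by
    intro s
    rw [k1_sub (σ s) 1, k1_sub (σ s) (_ / _), ← k1_mul, ← k1_mul]
    by_cases hs : s = d
    · rw [if_pos hs, hs, sg_self, mul_zero, mul_zero, zero_add, k1_sub a b, k1_sub c d, ← k1_mul]
      refine k1_of_sq (w := (a - d) * (b - d) / ((a - b) ^ 2 * (c - d))) (by positivity) ?_
      simp only [σ, if_true]
      field_simp
      ring
    · have hs' := sub_ne_zero.2 hs
      rw [if_neg hs, add_zero, k1_sub a b, k1_sub c d, k1_sub s a, k1_sub s b, k1_sub s c,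
        k1_sub s d]
      simp only [← k1_mul]
      refine k1_of_sq (w := (a - d) * (b - d) / ((a - b) ^ 2 * (s - d) ^ 2 * (c - d)))
        (by positivity) ?_
      simp only [σ, if_neg hs]
      field_simp
      ring
  simp only [key, sum_add_distrib, ← mul_sum, sum_ite_eq', mem_univ, if_true]
  ring

theorem leg_zero (hK : ringChar F ≠ 2) (h1 : IsSquare (-1 : F)) : leg (0 : F) = -1 := by
  have : ∀ x : F, sg x 0 * sg x 1 * sg x 0 = sg x 1 - if x = 0 then sg x 1 else 0 := fun x => by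
    split_ifs with h
    · simp [h, sg_self]
    · linear_combination sg x 1 * sg_sq h
  simp only [leg, this, sum_sub_distrib, k1_sum hK, sum_ite_eq', mem_univ, if_true]
  rw [sg_comm h1, k1_one, zero_sub]

theorem sum_leg (hK : ringChar F ≠ 2) (h1 : IsSquare (-1 : F)) : ∑ m : F, sg m 0 * leg m = 1 := by
  have : ∀ x : F, ∑ m, sg m 0 * (sg x 0 * sg x 1 * sg x m) = -(sg x 0 * sg x 1) := fun x => by
    have h := sg_gram hK 0 x
    have h2 : ∑ m, sg m 0 * (sg x 0 * sg x 1 * sg x m) =
        sg x 0 * sg x 1 * ∑ m, sg m 0 * sg m x := by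
      rw [mul_sum]
      exact sum_congr rfl fun m _ => by rw [sg_comm h1 x m]; ring
    rw [h2, h]
    split_ifs with h3
    · simp [← h3, sg_self]
    · ring
  simp only [leg, mul_sum]
  rw [sum_comm]
  simp only [this, sum_neg_distrib, sg_gram hK, zero_ne_one, if_false]
  ring

theorem sum_leg' (hK : ringChar F ≠ 2) (h1 : IsSquare (-1 : F)) :
    |∑ m : F, sg m 0 * sg m 1 * leg m| ≤ 2 * Fintype.card F := by
  have hb := cyc_bound hK (x := (sg : F → F → ℝ)) sg_self
  set H := ∑ m : F, sg m 0 * sg m 1 * leg m with hH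
  have hq : (1 : ℝ) < Fintype.card F := by exact_mod_cast Fintype.one_lt_card
  have inner : ∀ a b : F, ∑ c, ∑ d, sg a b * sg c d * (sg a c * sg a d * sg b c * sg b d) =
      sg a b ^ 2 * H := by
    intro a b
    by_cases hab : a = b
    · simp [hab, sg_self]
    have hba : b - a ≠ 0 := sub_ne_zero.2 (Ne.symm hab)
    rw [← k1_aff hba a, sq, sg_sq hab, one_mul, hH]
    refine sum_congr rfl fun c _ => ?_
    rw [← k1_aff hba a, leg, mul_sum]
    refine sum_congr rfl fun d _ => ?_
    have e0 : sg a b = sg (b - a) 0 := by rw [sg_comm h1, k1_sub]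
    have e1 : sg (c * (b - a) + a) (d * (b - a) + a) = sg d c * sg (b - a) 0 := by
      rw [sg_comm h1, k1_sub d c, ← k1_mul, k1_sub]; congr 1; ring
    have e2 : ∀ z : F, sg a (z * (b - a) + a) = sg z 0 * sg (b - a) 0 := fun z => by
      rw [sg_comm h1, ← k1_mul, k1_sub]; congr 1; ring
    have e3 : ∀ z : F, sg b (z * (b - a) + a) = sg z 1 * sg (b - a) 0 := fun z => by
      rw [sg_comm h1, k1_sub z 1, ← k1_mul, k1_sub]; congr 1; ring
    rw [e0, e1, e2, e2, e3, e3]
    rcases sg_cases hba with h | h <;> rw [h] <;> ring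
  have hrow : ∀ a : F, ∑ b, sg a b ^ 2 = (Fintype.card F : ℝ) - 1 := fun a => by
    have := sg_gram hK a a
    rw [if_pos rfl] at this
    rw [← this]
    exact sum_congr rfl fun b _ => by rw [sg_comm h1 a b, sq]
  have hn : nn (sg : F → F → ℝ) = Fintype.card F * ((Fintype.card F : ℝ) - 1) := by
    simp only [nn, hrow, sum_const, card_univ, nsmul_eq_mul]
  have hqf : (qf (sg : F → F → ℝ) fun a b c d => sg a c * sg a d * sg b c * sg b d) =
      nn (sg : F → F → ℝ) * H := by
    simp only [qf, inner, nn, sum_mul]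
  have hpos : 0 < nn (sg : F → F → ℝ) := by
    rw [hn]; exact mul_pos (by linarith) (by linarith)
  rw [hqf, abs_mul, abs_of_pos hpos, mul_comm] at hb
  exact le_of_mul_le_mul_right hb hpos

theorem k1_f (h1 : IsSquare (-1 : F)) (m : F) :
    sg (1 - m) 0 * leg (1 - m) = sg m 1 * leg m := by
  rw [← k1_sub, sg_comm h1, leg_symm h1]

theorem k1_ClB (hK : ringChar F ≠ 2) (h1 : IsSquare (-1 : F)) (t : F → ℝ) (α δ : F) {D : F}
    (hD : D ≠ 0) :
    Cl t gB α δ D =
      t (α / D) * (Fintype.card F * (sg (α * δ / D) 1 * leg (α * δ / D)) - 1) + ∑ u, t u -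
        ∑ u, t u * (sg (δ * u) 1 * leg (δ * u)) -
          (Fintype.card F - 1) / Fintype.card F * ∑ u, t u := by
  have mean : ∀ D' : F, ∑ s, gB s D' = 1 := fun D' => by
    rw [← sum_leg hK h1, ← k1_aff (A := -1) (by simp) (D' + 1) fun m => sg m 0 * leg m]
    refine sum_congr rfl fun s _ => ?_
    rw [gB, show D' - s + 1 = s * -1 + (D' + 1) by ring]
  have row : ∀ u : F, ∑ l ∈ univ.erase (0 : F), gB (α * l + δ * u) (D * l * u) =
      (if u = α / D then Fintype.card F * (sg (α * δ / D) 1 * leg (α * δ / D)) - 1 else 0) + 1 -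
        sg (δ * u) 1 * leg (δ * u) := fun u => by
    have e : ∀ l : F, gB (α * l + δ * u) (D * l * u) =
        sg (l * (D * u - α) + (1 - δ * u)) 0 * leg (l * (D * u - α) + (1 - δ * u)) := fun l => by
      rw [gB, show D * l * u - (α * l + δ * u) + 1 = l * (D * u - α) + (1 - δ * u) by ring]
    rw [sum_erase_eq_sub (mem_univ _)]
    simp only [e, zero_mul, zero_add, k1_f h1]
    congr 1
    split_ifs with h
    · have h0 : D * u - α = 0 := by rw [h]; field_simp; ring
      have h2 : δ * u = α * δ / D := by rw [h]; ring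
      simp [h0, k1_f h1, h2]
    · have h0 : D * u - α ≠ 0 := fun h0 => h (by field_simp; linear_combination h0)
      rw [k1_aff h0 (1 - δ * u) fun m => sg m 0 * leg m, sum_leg hK h1, zero_add]
  unfold Cl
  rw [sum_comm]
  have e2 : ∀ u : F, ∑ l ∈ univ.erase (0 : F), t u *
      (gB (α * l + δ * u) (D * l * u) - (∑ s, gB s (D * l * u)) / Fintype.card F) =
      (if u = α / D then t u *
        (Fintype.card F * (sg (α * δ / D) 1 * leg (α * δ / D)) - 1) else 0) + t u -
        t u * (sg (δ * u) 1 * leg (δ * u)) - (Fintype.card F - 1) / Fintype.card F * t u :=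
    fun u => by
    simp only [mean]
    rw [← mul_sum, sum_sub_distrib, row, sum_const, card_erase_of_mem (mem_univ _), card_univ,
      nsmul_eq_mul, Nat.cast_pred Fintype.card_pos]
    split_ifs <;> ring
  simp only [e2, sum_add_distrib, sum_sub_distrib, sum_ite_eq', mem_univ, if_true, ← mul_sum]

theorem Cl_bow (hK : ringChar F ≠ 2) (h1 : IsSquare (-1 : F)) (α δ : F) {D : F} (hD : D ≠ 0) :
    Cl (fun z => sg z 0 ^ 2) gB α δ D =
      (1 - sdl α 0) * (Fintype.card F * (sg (α * δ / D) 1 * leg (α * δ / D)) - 1) +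
        sdl δ 0 * (Fintype.card F + 1) - (Fintype.card F + 1) / Fintype.card F := by
  have hq : (Fintype.card F : ℝ) ≠ 0 := by exact_mod_cast Fintype.card_ne_zero
  have e1 : sg (α / D) 0 ^ 2 = 1 - sdl α 0 := by
    rw [k1_div, mul_pow, k1_sq, sq, sg_sq hD, mul_one]
  have f0 : sg (0 : F) 1 * leg (0 : F) = -1 := by
    rw [sg_comm h1, k1_one, leg_zero hK h1, one_mul]
  have e2 : ∑ u : F, sg u 0 ^ 2 * (sg (δ * u) 1 * leg (δ * u)) =
      2 - sdl δ 0 * (Fintype.card F + 1) := by
    have e3 : ∀ u : F, sg u 0 ^ 2 * (sg (δ * u) 1 * leg (δ * u)) =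
        sg (δ * u) 1 * leg (δ * u) + if u = 0 then 1 else 0 := fun u => by
      rw [k1_sq, sdl]
      split_ifs with h
      · rw [h, mul_zero, f0]; ring
      · ring
    simp only [e3, sum_add_distrib, sum_ite_eq', mem_univ, if_true]
    unfold sdl
    split_ifs with h
    · simp only [h, zero_mul, f0, sum_const, card_univ, nsmul_eq_mul]; ring
    · have := k1_aff (neg_ne_zero.2 h) 1 fun m => sg m 0 * leg m
      rw [sum_leg hK h1] at this
      have e4 : ∑ u : F, sg (δ * u) 1 * leg (δ * u) = 1 := by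
        rw [← this]
        refine sum_congr rfl fun u _ => ?_
        rw [← k1_f h1, show 1 - δ * u = u * -δ + 1 by ring]
      rw [e4]; ring
  rw [k1_ClB hK h1 _ α δ hD, e1, e2, k1_sum_sq]
  field_simp
  ring

theorem Cl_fan (hK : ringChar F ≠ 2) (h1 : IsSquare (-1 : F)) (α δ : F) {D : F} (hD : D ≠ 0) :
    Cl (fun z => sg z 0) gB α δ D =
      sg (α * D) 0 * (Fintype.card F * (sg (α * δ / D) 1 * leg (α * δ / D)) - 1) -
        sg δ 0 * ∑ m : F, sg m 0 * sg m 1 * leg m := by
  have e1 : sg (α / D) 0 = sg (α * D) 0 := by rw [k1_div, k1_mul]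
  have e2 : ∑ u : F, sg u 0 * (sg (δ * u) 1 * leg (δ * u)) =
      sg δ 0 * ∑ m : F, sg m 0 * sg m 1 * leg m := by
    by_cases h : δ = 0
    · simp only [h, zero_mul, ← sum_mul, k1_sum hK, sg_self]
    · rw [← k1_aff h 0 fun m => sg m 0 * sg m 1 * leg m, mul_sum]
      refine sum_congr rfl fun u _ => ?_
      rw [add_zero, k1_mul, mul_comm u δ]
      linear_combination -(sg u 0 * (sg (δ * u) 1 * leg (δ * u))) * sg_sq h
  rw [k1_ClB hK h1 _ α δ hD, e1, e2, k1_sum hK]
  ring

theorem Cl_whl (hK : ringChar F ≠ 2) (α δ : F) {D : F} (hD : D ≠ 0) :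
    Cl (fun z => sg z 0 ^ 2) gW α δ D = (Fintype.card F - 1) *
      (Fintype.card F * (sg (α * δ / D) 0 * sg (α * δ / D) 1 * leg (α * δ / D)) +
        (sdl α 0 + sdl δ 0 - (Fintype.card F + 1) / Fintype.card F) *
          ∑ m : F, sg m 0 * sg m 1 * leg m) := by
  have hq : (Fintype.card F : ℝ) ≠ 0 := by exact_mod_cast Fintype.card_ne_zero
  have h2 : (2 : F) ≠ 0 := Ring.two_ne_zero hK
  have h16 : (16 : F) ≠ 0 := by
    rw [show (16 : F) = 2 ^ 4 by norm_num]; exact pow_ne_zero _ h2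
  set H := ∑ m : F, sg m 0 * sg m 1 * leg m with hH
  have sq1 : ∀ a : F, sg (a ^ 2) 0 = 1 - sdl a 0 := fun a => by rw [sq, k1_mul, ← sq, k1_sq]
  have mean : ∀ D' : F, D' ≠ 0 → ∑ s, gW s D' = -H := fun D' hD' => by
    unfold gW
    rw [sum_comm, hH, ← sum_neg_distrib]
    refine sum_congr rfl fun m _ => ?_
    rw [← mul_sum]
    by_cases hm : m = 0
    · simp [hm, sg_self]
    have h := k1_quad hK 1 0 (-(4 * m * D'))
    rw [if_neg (fun h => mul_ne_zero (mul_ne_zero h16 hm) hD' (by linear_combination h)), k1_one,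
      add_zero] at h
    have e : ∑ s, sg (s ^ 2) (4 * m * D') = -1 := by
      rw [← h]
      refine sum_congr rfl fun s _ => ?_
      rw [k1_sub]; congr 1; ring
    rw [e]; ring
  have row : ∀ u : F, u ≠ 0 → ∑ l ∈ univ.erase (0 : F), gW (α * l + δ * u) (D * l * u) =
      Fintype.card F * (sg (α * δ / D) 0 * sg (α * δ / D) 1 * leg (α * δ / D)) +
        (sdl α 0 + sdl δ 0 - 2) * H := fun u hu => by
    rw [sum_erase_eq_sub (mem_univ _), ← k1_aff hu 0 fun l => gW (α * l + δ * u) (D * l * u)]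
    have e : ∀ w m : F, sg ((α * (w * u + 0) + δ * u) ^ 2) (4 * m * (D * (w * u + 0) * u)) =
        sg (α ^ 2 * w ^ 2 - (4 * m * D - 2 * α * δ) * w + δ ^ 2) 0 := fun w m => by
      rw [k1_sub]
      exact k1_of_sq hu (by ring)
    have e0 : gW (α * 0 + δ * u) (D * 0 * u) = (1 - sdl δ 0) * H := by
      unfold gW
      rw [hH, mul_sum]
      refine sum_congr rfl fun m _ => ?_
      have : sg ((α * 0 + δ * u) ^ 2) (4 * m * (D * 0 * u)) = sg (δ ^ 2) 0 := by
        rw [k1_sub]
        exact k1_of_sq hu (by ring)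
      rw [this, sq1, mul_comm]
    have e1 : ∀ m : F, ∑ w : F, sg m 0 * sg m 1 * leg m *
        sg (α ^ 2 * w ^ 2 - (4 * m * D - 2 * α * δ) * w + δ ^ 2) 0 =
        (if m = α * δ / D then Fintype.card F * (sg m 0 * sg m 1 * leg m) else 0) -
          (1 - sdl α 0) * (sg m 0 * sg m 1 * leg m) := fun m => by
      by_cases hm : m = 0
      · simp [hm, sg_self]
      rw [← mul_sum, k1_quad hK, sq1]
      by_cases h : m = α * δ / D
      · have hα : α ≠ 0 := fun h0 => hm (by rw [h, h0]; simp)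
        have hc : (4 * m * D - 2 * α * δ) ^ 2 = 4 * α ^ 2 * δ ^ 2 := by
          rw [h]; field_simp; ring
        rw [if_pos hc, if_pos h, if_neg (pow_ne_zero 2 hα), sdl, if_neg hα]
        ring
      · have hc : ¬(4 * m * D - 2 * α * δ) ^ 2 = 4 * α ^ 2 * δ ^ 2 := fun hc => by
          have h3 : 16 * m * D * (m * D - α * δ) = 0 := by linear_combination hc
          have h4 := (mul_eq_zero.1 h3).resolve_left (mul_ne_zero (mul_ne_zero h16 hm) hD)
          exact h (by field_simp; linear_combination h4)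
        rw [if_neg hc, if_neg h]
        ring
    rw [e0]
    unfold gW
    simp only [e]
    rw [sum_comm]
    simp only [e1, sum_sub_distrib, sum_ite_eq', mem_univ, if_true, ← mul_sum]
    rw [← hH]
    ring
  unfold Cl
  rw [sum_comm, ← k1_sum_sq, sum_mul]
  refine sum_congr rfl fun u _ => ?_
  rw [← mul_sum]
  by_cases hu : u = 0
  · simp [hu, sg_self]
  congr 1
  have e3 : ∑ l ∈ univ.erase (0 : F), (∑ s, gW s (D * l * u)) / Fintype.card F =
      (Fintype.card F - 1) * (-H / Fintype.card F) := by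
    rw [sum_congr rfl fun l hl => by
      rw [mean _ (mul_ne_zero (mul_ne_zero hD (ne_of_mem_erase hl)) hu)]]
    rw [sum_const, card_erase_of_mem (mem_univ _), card_univ, nsmul_eq_mul,
      Nat.cast_pred Fintype.card_pos]
  rw [sum_sub_distrib, row u hu, e3]
  field_simp
  ring

omit [Field F] [DecidableEq F] in
theorem k2_swap {x : F → F → ℝ} (hx : ∀ a b, x a b = x b a) (G : F → F → F → F → ℝ) :
    qf x (fun a b c d => G a b d c) = qf x G := by
  rw [← qf_flip, ← qf_flip x G]
  exact qf_swap hx fun a b c d => G c d a b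

omit [Field F] [DecidableEq F] in
theorem k2_ac (x G : F → F → ℝ) :
    qf x (fun a _ c _ => G a c) = ∑ a, ∑ c, G a c * rs x a * rs x c := by
  refine sum_congr rfl fun a _ => ?_
  rw [sum_comm]
  simp only [rs, mul_assoc, sum_mul_sum]
  simp only [mul_sum]
  exact sum_congr rfl fun _ _ => sum_congr rfl fun _ _ => sum_congr rfl fun _ _ => by ring

theorem k2_sg_div {u v : F} (hv : sg v 0 = 1) : sg (u / v) 0 = sg u 0 := by
  have h0 : v ≠ 0 := fun h => by simp [h, sg_self] at hv
  have : sg (u / v) 0 * sg v 0 = sg u 0 := by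
    simp only [sg, sub_zero]
    rw [← Int.cast_mul, ← map_mul, div_mul_cancel₀ _ h0]
  rwa [hv, mul_one] at this

theorem k2_sg_mul (u v : F) : sg (u * v) 0 = sg u 0 * sg v 0 := by
  simp only [sg, sub_zero, map_mul, Int.cast_mul]

theorem k2_sg_sub (a b : F) : sg (a - b) 0 = sg a b := by
  simp only [sg, sub_zero]

theorem k2_edge (hK : ringChar F ≠ 2) (h1 : IsSquare (-1 : F)) {a b c d : F} (hab : a ≠ b)
    (sab : sg a b = 1) (hcd : c ≠ d) (scd : sg c d = 1) :
    (Fintype.card F * bow a b c d = ClK (fun z => sg z 0 ^ 2) gB a b c d +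
      (1 + (Fintype.card F + 1) / Fintype.card F) * (1 * 1) + -(Fintype.card F + 1) * sdl b c +
      -(Fintype.card F + 1) * sdl a d + -(Fintype.card F : ℝ) * (sg a c * sg b d * 1) +
      (Fintype.card F : ℝ) ^ 2 * (sdl a d * sdl b c)) ∧
    (Fintype.card F * fan a b c d = ClK (fun z => sg z 0) gB a b c d + sg b c +
      (∑ m : F, sg m 0 * sg m 1 * leg m) * sg a d +
      -(Fintype.card F : ℝ) * (sg b d * sg a c * sg b c)) ∧
    (Fintype.card F * (Fintype.card F - 1) * whl a b c d =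
      ClK (fun z => sg z 0 ^ 2) gW a b c d +
      -((Fintype.card F - 1) * ∑ m : F, sg m 0 * sg m 1 * leg m) * sdl b c +
      -((Fintype.card F - 1) * ∑ m : F, sg m 0 * sg m 1 * leg m) * sdl a d +
      ((Fintype.card F - 1) * ((Fintype.card F + 1) / Fintype.card F) *
        ∑ m : F, sg m 0 * sg m 1 * leg m) * (1 * 1) +
      -(Fintype.card F * (Fintype.card F - 1) : ℝ) * (sg a c * sg a d * sg b c * sg b d)) := by
  have hab' : a - b ≠ 0 := sub_ne_zero.2 hab
  have hcd' : c - d ≠ 0 := sub_ne_zero.2 hcd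
  have hD : (c - d) / (a - b) ≠ 0 := div_ne_zero hcd' hab'
  have tab : sg (a - b) 0 = 1 := by rw [k2_sg_sub, sab]
  have tcd : sg (c - d) 0 = 1 := by rw [k2_sg_sub, scd]
  have tp : sg ((a - b) * (c - d)) 0 = 1 := by rw [k2_sg_mul, tab, tcd, one_mul]
  have em : (c - b) / (a - b) * ((a - d) / (a - b)) / ((c - d) / (a - b)) =
      (c - b) * (a - d) / ((a - b) * (c - d)) := by field_simp
  set m := (c - b) * (a - d) / ((a - b) * (c - d)) with hm
  have m1 : sg m 1 = sg a c * sg b d := by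
    have : m - 1 = (a - c) * (d - b) / ((a - b) * (c - d)) := by rw [hm]; field_simp; ring
    rw [← k2_sg_sub, this, k2_sg_div tp, k2_sg_mul, k2_sg_sub, k2_sg_sub, sg_comm h1 d b]
  have m0 : sg m 0 = sg b c * sg a d := by
    rw [hm, k2_sg_div tp, k2_sg_mul, k2_sg_sub, k2_sg_sub, sg_comm h1 c b]
  have s1 : sg ((c - b) / (a - b) * ((c - d) / (a - b))) 0 = sg b c := by
    rw [k2_sg_mul, k2_sg_div tab, k2_sg_div tab, tcd, mul_one, k2_sg_sub, sg_comm h1 c b]
  have s2 : sg ((a - d) / (a - b)) 0 = sg a d := by rw [k2_sg_div tab, k2_sg_sub]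
  have d1 : sdl ((c - b) / (a - b)) 0 = sdl b c := by
    simp only [sdl, div_eq_zero_iff, hab', or_false, sub_eq_zero, eq_comm (a := c)]
  have d2 : sdl ((a - d) / (a - b)) 0 = sdl a d := by
    simp only [sdl, div_eq_zero_iff, hab', or_false, sub_eq_zero]
  have z1 : sg b c * sdl b c = 0 := by
    by_cases h : b = c
    · simp [h, sg_self]
    · simp [sdl, h]
  have z2 : sdl b c * (sg a c * sg b d * leg m + 1) = 0 := by
    by_cases h : b = c
    · subst h
      have : m = 0 := by simp [hm]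
      rw [this, leg_zero hK h1, sab, scd]; ring
    · simp [sdl, h]
  have hb : bow a b c d = sg a c * sg b d * leg m - sg a c * sg b d +
      Fintype.card F * (sdl a d * sdl b c) := by
    by_cases had : a = d
    · subst had
      have e0 : m = 0 := by simp [hm]
      have e1 : cw a b c a = cw a b a c := sum_congr rfl fun s _ => by ring
      have e2 : sg a c = 1 := by rw [sg_comm h1, scd]
      have e3 : sg b a = 1 := by rw [sg_comm h1, sab]
      rw [bow, e0, leg_zero hK h1, e1, cw_share hK, e2, e3, sab]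
      simp only [sdl, if_true]
      split_ifs <;> ring
    by_cases hbd : b = d
    · subst hbd
      simp [bow, sg_self, sdl, had]
    · have := cw_eq_leg hab hcd had hbd
      rw [sab, scd, ← hm] at this
      rw [bow, ← this]
      simp only [sdl, had, if_false]; ring
  have hf : fan a b c d = sg b c * bow a b c d := by rw [fan, bow]; ring
  have hw : whl a b c d = sg a d * (sg b c * bow a b c d) := by rw [whl, bow]; ring
  refine ⟨?_, ?_, ?_⟩
  · rw [ClK, Cl_bow hK h1 _ _ hD, em, m1, d1, d2, hb]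
    linear_combination (Fintype.card F : ℝ) * z2
  · rw [ClK, Cl_fan hK h1 _ _ hD, em, m1, s1, s2, hf, hb]
    linear_combination (Fintype.card F : ℝ) ^ 2 * sdl a d * z1
  · rw [ClK, Cl_whl hK _ _ hD, em, m1, m0, d1, d2, hw, hb]
    linear_combination (Fintype.card F : ℝ) ^ 2 * (Fintype.card F - 1) * sg a d * sdl a d * z1

theorem hard_of_Cl (hK : ringChar F ≠ 2) (h1 : IsSquare (-1 : F)) {r e : ℝ} (hr : 1 ≤ r)
    (hq : r ^ 2 = Fintype.card F)
    (hb : ∀ x : F → F → ℝ, (∀ a, x a a = 0) →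
      |qf x (ClK (fun z => sg z 0 ^ 2) gB)| ≤ r ^ 2 * e * nn x)
    (hf : ∀ x : F → F → ℝ, (∀ a, x a a = 0) →
      |qf x (ClK (fun z => sg z 0) gB)| ≤ r ^ 2 * e * nn x)
    (hw : ∀ x : F → F → ℝ, (∀ a, x a a = 0) →
      |qf x (ClK (fun z => sg z 0 ^ 2) gW)| ≤ r ^ 2 * ((r ^ 2 - 1) * e) * nn x) :
    Hard F (7 * e + 100 * r ^ 3) 4 := by
  intro x hx he
  have hd : ∀ a, x a a = 0 := fun a => by_contra fun h => (he a a h).1 rfl
  have r0 : 0 ≤ r := zero_le_one.trans hr
  have q1 : (1 : ℝ) < Fintype.card F := by exact_mod_cast Fintype.one_lt_card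
  have E := fun a b c d (h : x a b ≠ 0) (h' : x c d ≠ 0) =>
    k2_edge hK h1 (he a b h).1 (he a b h).2 (he c d h').1 (he c d h').2
  have Eb := qf_congr fun a b c d h h' => (E a b c d h h').1
  have Ef := qf_congr fun a b c d h h' => (E a b c d h h').2.1
  have Ew := qf_congr fun a b c d h h' => (E a b c d h h').2.2
  have u1 : 1 * qf x (fun _ _ _ _ => 1) = (∑ a, rs x a) ^ 2 := by
    rw [← qf_smul, qf_mul x (fun _ _ => 1) fun _ _ => 1]; simp [rs, sq]
  have u0 : qf x (fun a _ c _ => sdl a c) = ∑ a, rs x a ^ 2 := by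
    rw [k2_ac]; simp [sdl, sq]
  have u2 : qf x (fun _ b c _ => sdl b c) = ∑ a, rs x a ^ 2 :=
    (qf_swap hx fun a _ c _ => sdl a c).trans u0
  have u3 : qf x (fun a _ _ d => sdl a d) = ∑ a, rs x a ^ 2 :=
    (k2_swap hx fun a _ c _ => sdl a c).trans u0
  have u4 : qf x (fun a b c d => sdl a d * sdl b c) = nn x :=
    (k2_swap hx fun a b c d => sdl a c * sdl b d).trans (by simp [nn, qf, sdl, sq])
  have u5 : qf x (fun _ b c _ => sg b c) = ∑ a, ∑ c, sg a c * rs x a * rs x c :=
    (qf_swap hx fun a _ c _ => sg a c).trans (k2_ac x sg)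
  have u6 : qf x (fun a _ _ d => sg a d) = ∑ a, ∑ c, sg a c * rs x a * rs x c :=
    (k2_swap hx fun a _ c _ => sg a c).trans (k2_ac x sg)
  have u7 : qf x (fun a b c d => sg b d * sg a c * sg b c) =
      qf x (fun a b c d => sg a c * sg b d * sg a d) :=
    (k2_swap hx fun a b c d => sg b c * sg a d * sg b d).trans
      (qf_swap hx fun a b c d => sg a c * sg b d * sg a d)
  simp only [qf_add, qf_smul] at Eb Ef Ew
  rw [u1, u2, u3, u4] at Eb
  rw [u5, u6, u7] at Ef
  rw [u1, u2, u3] at Ew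
  have p1 := abs_le.1 (path_bound hK h1 r0 hq hx (fun _ _ => 1) (by simp))
  have p2 := abs_le.1 (path_bound hK h1 r0 hq hx sg sg_sq_le)
  have p3 := abs_le.1 (cyc_bound hK hd)
  have p4 := sg_form hK r0 hq (rs x)
  have p5 := rs_norm x
  have p6 := sum_leg' hK h1
  have b1 := abs_le.1 (hb x hd)
  have b2 := abs_le.1 (hf x hd)
  have b3 := abs_le.1 (hw x hd)
  rw [hq] at p1 p2 b1 b2 b3
  have N0 := nn_nonneg x
  have R0 : 0 ≤ ∑ a, rs x a ^ 2 := sum_nonneg fun _ _ => sq_nonneg _
  have S0 : 0 ≤ (∑ a, rs x a) ^ 2 := sq_nonneg _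
  set q : ℝ := (Fintype.card F : ℝ)
  set N := nn x
  set R := ∑ a, rs x a ^ 2
  set S := (∑ a, rs x a) ^ 2
  set H := ∑ m : F, sg m 0 * sg m 1 * leg m
  set T := ∑ a, ∑ c, sg a c * rs x a * rs x c
  have q0 : 0 < q := by linarith
  have qN : 0 ≤ q * N := by positivity
  have c1 : -(e * N) - 4 * (q * N) ≤ qf x bow := by
    refine le_of_mul_le_mul_left ?_ q0
    have t1 : 0 ≤ (1 + (q + 1) / q) * S := by positivity
    have t2 : (q + 1) * R ≤ (q + 1) * (q * N) := by gcongr
    have t3 := mul_le_mul_of_nonneg_left p1.2 q0.le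
    have t4 : 1 * (q * N) ≤ q * (q * N) := by gcongr
    rw [Eb]
    linarith [b1.1]
  have hT : |T| ≤ r * (q * N) := p4.trans (by gcongr)
  have c2 : -(e * N) - 4 * (r * (q * N)) ≤ qf x fan := by
    refine le_of_mul_le_mul_left ?_ q0
    have t1 : |H * T| ≤ 2 * q * (r * (q * N)) := by rw [abs_mul]; gcongr
    have t3 := mul_le_mul_of_nonneg_left p2.2 q0.le
    have t4 : 1 * (r * (q * N)) ≤ q * (r * (q * N)) := by gcongr
    have t5 : 1 * (q * (q * N)) ≤ r * (q * (q * N)) := by gcongr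
    rw [Ef]
    linarith [b2.1, (abs_le.1 t1).1, (abs_le.1 hT).1]
  have c3 : -(e * N) - 6 * (q * N) - 4 * S ≤ qf x whl := by
    have q2 : 0 < q - 1 := by linarith
    refine le_of_mul_le_mul_left ?_ (mul_pos q0 q2)
    have t1 : H * R ≤ 2 * q * (q * N) :=
      (mul_le_mul_of_nonneg_right (abs_le.1 p6).2 R0).trans (by gcongr)
    have t2 := mul_le_mul_of_nonneg_left t1 q2.le
    have t3 := mul_le_mul_of_nonneg_left p3.2 (mul_pos q0 q2).le
    have t4 : -(4 * q) ≤ (q + 1) / q * H := by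
      have a1 : (q + 1) / q ≤ 2 := by rw [div_le_iff₀ q0]; linarith
      have a2 : 0 ≤ (q + 1) / q := by positivity
      nlinarith [mul_le_mul_of_nonneg_left (abs_le.1 p6).1 a2]
    have t5 := mul_le_mul_of_nonneg_left t4 (mul_nonneg q2.le S0)
    rw [Ew]
    linarith [b3.1]
  have c4 : r ^ 3 * N = r * (q * N) := by rw [← hq]; ring
  have c5 : 1 * (q * N) ≤ r * (q * N) := by gcongr
  linarith

end Pool.Agent.P.MP_9484ad_co
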