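import Pool.Agent.P.MP_9484ad_co.DiagJac
import Pool.Agent.P.MP_9484ad_co.DiagKer

/-! The transforms of the class functions along the tori. -/

namespace Pool.Agent.P.MP_9484ad_co

open Finset

variable {F : Type*} [Field F] [Fintype F] [DecidableEq F]

theorem eig1_neg_one (h1 : IsSquare (-1 : F)) : chi F (-1) = 1 := by
  rw [chi_apply, (quadraticChar_one_iff_isSquare (by simp)).2 h1]; simp

theorem eig1_neg (h1 : IsSquare (-1 : F)) (a : F) : chi F (-a) = chi F a := by
  rw [← neg_one_mul, map_mul, eig1_neg_one h1, one_mul]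

theorem eig1_sq {a : F} (ha : a ≠ 0) : chi F (a ^ 2) = 1 := by
  rw [chi_apply, quadraticChar_sq_one' ha]; simp

theorem eig1_mul_self {a : F} (ha : a ≠ 0) : chi F a * chi F a = 1 := by
  rw [← map_mul, ← sq, eig1_sq ha]

theorem eig1_of_sq {a b c : F} (hc : c ≠ 0) (h : a = b * c ^ 2) : chi F a = chi F b := by
  rw [h, map_mul, eig1_sq hc, mul_one]

omit [DecidableEq F] in
theorem eig1_zero : chi F 0 = 0 := MulChar.map_zero _

theorem eig1_sum (hK : ringChar F ≠ 2) : ∑ a, chi F a = 0 := by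
  simp only [chi_apply]
  exact_mod_cast quadraticChar_sum_zero hK

theorem eig1_ne_one (hK : ringChar F ≠ 2) : chi F ≠ 1 := by
  obtain ⟨a, ha⟩ := quadraticChar_exists_neg_one' hK
  intro h
  have h2 := chi_apply (a : F)
  rw [h, MulChar.one_apply_coe, ha] at h2
  norm_num at h2

theorem eig1_count (hK : ringChar F ≠ 2) (D : F) :
    (∑ s : F, if s ^ 2 = D then (1 : ℂ) else 0) = 1 + chi F D := by
  have h := quadraticChar_card_sqrts hK D
  rw [sum_boole, chi_apply, add_comm]
  have e : (univ.filter fun s : F => s ^ 2 = D) = {x : F | x ^ 2 = D}.toFinset := by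
    ext x; simp
  rw [e]
  exact_mod_cast h

theorem eig1_quad (hK : ringChar F ≠ 2) {a : F} (ha : a ≠ 0) (b c : F) :
    (∑ s : F, if a * s ^ 2 + b * s + c = 0 then (1 : ℂ) else 0)
      = 1 + chi F (b ^ 2 - 4 * a * c) := by
  have h2 : (2 : F) ≠ 0 := Ring.two_ne_zero hK
  have h4 : (4 : F) * a ≠ 0 := by
    have : (4 : F) = 2 * 2 := by norm_num
    rw [this]; exact mul_ne_zero (mul_ne_zero h2 h2) ha
  rw [← eig1_count hK]
  refine Fintype.sum_equiv ((Equiv.mulLeft₀ (2 * a) (mul_ne_zero h2 ha)).trans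
    (Equiv.addRight b)) _ _ fun s => if_congr ?_ rfl rfl
  simp only [Equiv.trans_apply, Equiv.mulLeft₀_apply, Equiv.coe_addRight]
  constructor
  · intro h; linear_combination 4 * a * h
  · intro h
    apply mul_left_cancel₀ h4
    linear_combination h

/-- the sum of the character over the roots of `l ^ 2 + 2 x l + t ^ 2` -/
theorem eig1_roots (hK : ringChar F ≠ 2) (h1 : IsSquare (-1 : F)) (x t : F) :
    (∑ l : F, if t ^ 2 = -(l ^ 2 + 2 * x * l) then chi F l else 0)
      = chi F 2 * (chi F (x - t) + chi F (x + t)) - if t = 0 then chi F (2 * x) else 0 := by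
  have h2 : (2 : F) ≠ 0 := Ring.two_ne_zero hK
  by_cases ht : t = 0
  · subst ht
    rw [if_pos rfl, sum_eq_single (-(2 * x))]
    · rw [if_pos (by ring), eig1_neg h1, map_mul, sub_zero, add_zero]; ring
    · intro l _ hl
      split_ifs with h
      · have : l * (l + 2 * x) = 0 := by linear_combination h
        rcases mul_eq_zero.1 this with h0 | h0
        · rw [h0, eig1_zero]
        · exact absurd (by linear_combination h0) hl
      · rfl
    · simp
  rw [if_neg ht, sub_zero]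
  by_cases htx : x - t = 0
  · have hx : x = t := sub_eq_zero.1 htx
    subst hx
    rw [sum_eq_single (-x)]
    · rw [if_pos (by ring), eig1_neg h1, sub_self, eig1_zero, zero_add, ← map_mul]
      exact (eig1_of_sq h2 (by ring)).symm
    · intro l _ hl
      refine if_neg fun h => hl ?_
      have : (l + x) ^ 2 = 0 := by linear_combination h
      linear_combination pow_eq_zero_iff two_ne_zero |>.1 this
    · simp
  have e : ∀ l : F, (if t ^ 2 = -(l ^ 2 + 2 * x * l) then chi F l else 0)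
      = chi F (2 * (x - t)) * if 1 * l ^ 2 + 2 * x * l + t ^ 2 = 0 then 1 else 0 := by
    intro l
    by_cases h : t ^ 2 = -(l ^ 2 + 2 * x * l)
    · rw [if_pos h, if_pos (by linear_combination h), mul_one]
      have hl : l ≠ 0 := by
        rintro rfl
        exact ht (pow_eq_zero_iff two_ne_zero |>.1 (by linear_combination h))
      have hlt : l + t ≠ 0 := by
        intro h0
        have : l * (2 * (x - t)) = 0 := by linear_combination h - (l + t) * h0
        exact mul_ne_zero hl (mul_ne_zero h2 htx) this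
      rw [← eig1_neg h1 l]
      refine (eig1_of_sq (c := (l + t) / l) (div_ne_zero hlt hl) ?_).symm
      field_simp
      linear_combination h
    · rw [if_neg h, if_neg (fun h' => h (by linear_combination h')), mul_zero]
  simp only [e]
  rw [← mul_sum, eig1_quad hK one_ne_zero,
    eig1_of_sq (a := (2 * x) ^ 2 - 4 * 1 * t ^ 2) (b := (x - t) * (x + t)) h2 (by ring),
    map_mul, map_mul]
  linear_combination chi F 2 * chi F (x + t) * eig1_mul_self htx

theorem eig1_omega (hK : ringChar F ≠ 2) (h1 : IsSquare (-1 : F)) {ω : MulChar F ℂ}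
    (hω : ω * ω = chi F) (u : F) :
    ω u + ω⁻¹ u = ∑ l : F, if l ^ 2 = u then chi F l else 0 := by
  have hsq : ∀ a, ω a * ω a = chi F a := fun a => by rw [← hω, MulChar.mul_apply]
  by_cases hu : u = 0
  · subst hu
    rw [MulChar.map_zero, MulChar.map_zero, add_zero]
    refine (sum_eq_zero fun l _ => ?_).symm
    split_ifs with h
    · rw [pow_eq_zero_iff two_ne_zero |>.1 h, eig1_zero]
    · rfl
  by_cases hs : IsSquare u
  · obtain ⟨r, rfl⟩ := hs
    have hr : r ≠ 0 := fun h => hu (by rw [h, mul_zero])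
    have e : ∀ l : F, (if l ^ 2 = r * r then chi F l else 0)
        = chi F r * if l ^ 2 = r * r then 1 else 0 := by
      intro l
      split_ifs with h
      · rcases sq_eq_sq_iff_eq_or_eq_neg.1 (h.trans (sq r).symm) with h' | h'
        · rw [h', mul_one]
        · rw [h', eig1_neg h1, mul_one]
      · rw [mul_zero]
    simp only [e]
    rw [← mul_sum, eig1_count hK, MulChar.inv_apply_eq_inv', map_mul, hsq, map_mul,
      eig1_mul_self hr, inv_eq_of_mul_eq_one_right (eig1_mul_self hr)]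
    ring
  · have hm : chi F u = -1 := by
      rw [chi_apply, quadraticChar_neg_one_iff_not_isSquare.2 hs]; simp
    have hi : (ω u)⁻¹ = -ω u := inv_eq_of_mul_eq_one_right (by rw [mul_neg, hsq, hm, neg_neg])
    rw [MulChar.inv_apply_eq_inv', hi, add_neg_cancel]
    exact (sum_eq_zero fun l _ => if_neg fun h => hs ⟨l, by rw [← h, sq]⟩).symm

theorem eig1_leg (hK : ringChar F ≠ 2) (t : F) :
    (leg ((1 + t) / 2) : ℂ) = ∑ y : F, chi F (y ^ 2 - 4) * chi F (y - 2 * t) := by
  have h2 : (2 : F) ≠ 0 := Ring.two_ne_zero hK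
  have h4 : (4 : F) ≠ 0 := by
    have : (4 : F) = 2 * 2 := by norm_num
    rw [this]; exact mul_ne_zero h2 h2
  rw [← ((Equiv.mulLeft₀ 4 h4).trans (Equiv.subRight 2)).sum_comp, leg]
  push_cast
  refine sum_congr rfl fun x _ => ?_
  simp only [sg_chi, Equiv.trans_apply, Equiv.mulLeft₀_apply, Equiv.subRight_apply]
  rw [eig1_of_sq (a := (4 * x - 2) ^ 2 - 4) (b := (x - 0) * (x - 1)) h4 (by ring),
    eig1_of_sq (a := 4 * x - 2 - 2 * t) (b := x - (1 + t) / 2) h2 (by field_simp; ring), map_mul]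

theorem eig1_Bk (hK : ringChar F ≠ 2) (h1 : IsSquare (-1 : F)) {ω : MulChar F ℂ}
    (hω : ω * ω = chi F) (c : F) :
    Bk ω c + Bk ω⁻¹ c = ∑ l : F, chi F l * chi F ((l ^ 2 - 1 - c) ^ 2 - 4 * c) := by
  have e1 : Bk ω c + Bk ω⁻¹ c = ∑ x ∈ univ.erase (0 : F), ∑ l : F,
      chi F l * if 1 * x ^ 2 + (l ^ 2 - 1 - c) * x + c = 0 then 1 else 0 := by
    rw [Bk, Bk, ← sum_add_distrib]
    refine sum_congr rfl fun x hx => ?_
    have hx0 : x ≠ 0 := ne_of_mem_erase hx
    rw [← map_mul, ← map_mul, eig1_omega hK h1 hω]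
    refine sum_congr rfl fun l _ => ?_
    rw [mul_ite, mul_one, mul_zero]
    refine if_congr ?_ rfl rfl
    have e : (1 - x) * (1 - c / x) = (1 - x) * (x - c) / x := by field_simp
    rw [e, eq_div_iff hx0]
    constructor <;> intro h <;> linear_combination h
  rw [e1, sum_comm]
  have e2 : ∀ l : F, ∑ x ∈ univ.erase (0 : F),
      (chi F l * if 1 * x ^ 2 + (l ^ 2 - 1 - c) * x + c = 0 then 1 else 0)
      = chi F l * chi F ((l ^ 2 - 1 - c) ^ 2 - 4 * c)
        + chi F l * (1 - if c = 0 then 1 else 0) := by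
    intro l
    rw [← mul_sum, sum_erase_eq_sub (mem_univ _), eig1_quad hK one_ne_zero]
    simp only [mul_one, mul_zero, zero_add, zero_pow two_ne_zero]
    ring
  simp only [e2]
  rw [sum_add_distrib, ← sum_mul, eig1_sum hK, zero_mul, add_zero]

theorem leg_eq_Bk (h1 : IsSquare (-1 : F)) (c : F) : (leg c : ℂ) = Bk (chi F) c := by
  rw [leg, Bk, sum_erase_eq_sub (mem_univ _)]
  push_cast
  have e : ∀ x : F, (sg x 0 : ℂ) * sg x 1 * sg x c
      = chi F (1 - x) * chi F (1 - c / x) - if x = 0 then chi F (1 - 0) * chi F (1 - c / 0) else 0 := by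
    intro x
    simp only [sg_chi]
    by_cases hx : x = 0
    · simp [hx, eig1_zero]
    rw [if_neg hx, sub_zero, sub_zero, ← eig1_neg h1 (1 - x), neg_sub,
      eig1_of_sq (a := 1 - c / x) (b := x * (x - c)) (inv_ne_zero hx) (by field_simp), map_mul]
    ring
  simp only [e]
  rw [sum_sub_distrib, sum_ite_eq' univ 0, if_pos (mem_univ _)]

theorem key_sum (hK : ringChar F ≠ 2) (h1 : IsSquare (-1 : F)) (h : F → ℂ) (x : F) :
    chi F 2 * ∑ t, h (1 - t ^ 2) * chi F (x - t) = ∑ l, chi F l * h (1 + 2 * l * x + l ^ 2) := by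
  have hS : (∑ t : F, ∑ l : F, h (1 - t ^ 2) * if t ^ 2 = -(l ^ 2 + 2 * x * l) then chi F l else 0)
      = ∑ l : F, ∑ t : F, (chi F l * h (1 + 2 * l * x + l ^ 2)) *
        if t ^ 2 = -(l ^ 2 + 2 * x * l) then 1 else 0 := by
    rw [sum_comm]
    refine sum_congr rfl fun l _ => sum_congr rfl fun t _ => ?_
    split_ifs with ht
    · have : 1 - t ^ 2 = 1 + 2 * l * x + l ^ 2 := by linear_combination -ht
      rw [this]; ring
    · simp
  simp only [← mul_sum, eig1_roots hK h1, eig1_count hK] at hS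
  have hA : ∑ t : F, h (1 - t ^ 2) * chi F (x + t) = ∑ t : F, h (1 - t ^ 2) * chi F (x - t) := by
    refine Fintype.sum_equiv (Equiv.neg F) _ _ fun t => ?_
    simp only [Equiv.neg_apply, neg_sq, sub_neg_eq_add]
  have hB : ∑ l : F, chi F (l + 2 * x) * h (1 + 2 * l * x + l ^ 2)
      = ∑ l : F, chi F l * h (1 + 2 * l * x + l ^ 2) := by
    rw [← ((Equiv.neg F).trans (Equiv.subRight (2 * x))).sum_comp]
    refine sum_congr rfl fun l _ => ?_
    simp only [Equiv.trans_apply, Equiv.neg_apply, Equiv.subRight_apply, sub_add_cancel,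
      eig1_neg h1]
    congr 2
    ring
  have hL : ∀ t : F, h (1 - t ^ 2) * (chi F 2 * (chi F (x - t) + chi F (x + t))
      - if t = 0 then chi F (2 * x) else 0)
      = chi F 2 * (h (1 - t ^ 2) * chi F (x - t)) + chi F 2 * (h (1 - t ^ 2) * chi F (x + t))
        - if t = 0 then chi F (2 * x) * h 1 else 0 := by
    intro t
    split_ifs with ht
    · subst ht
      simp only [zero_pow two_ne_zero, sub_zero]
      ring
    · ring
  have hR : ∀ l : F, chi F l * h (1 + 2 * l * x + l ^ 2) * (1 + chi F (-(l ^ 2 + 2 * x * l)))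
      = chi F l * h (1 + 2 * l * x + l ^ 2) + chi F (l + 2 * x) * h (1 + 2 * l * x + l ^ 2)
        - if l = 0 then chi F (2 * x) * h 1 else 0 := by
    intro l
    split_ifs with hl
    · subst hl
      simp [eig1_zero]
    · have : l ^ 2 + 2 * x * l = l * (l + 2 * x) := by ring
      rw [eig1_neg h1, this, map_mul]
      linear_combination chi F (l + 2 * x) * h (1 + 2 * l * x + l ^ 2) * eig1_mul_self hl
  simp only [hL, hR, sum_sub_distrib, sum_add_distrib, ← mul_sum, hA, hB] at hS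
  linear_combination hS / 2

theorem eig1_fibre (hK : ringChar F ≠ 2) (h1 : IsSquare (-1 : F)) (c : F) :
    (∑ t : F, (if 1 - t ^ 2 = c then (1 : ℂ) else 0) * leg ((1 + t) / 2))
      = ∑ l : F, chi F l * chi F ((l ^ 2 - 1 - c) ^ 2 - 4 * c) := by
  have h2 : (2 : F) ≠ 0 := Ring.two_ne_zero hK
  have e1 : ∀ y : F, (∑ t : F, (if 1 - t ^ 2 = c then (1 : ℂ) else 0) * chi F (y - 2 * t))
      = ∑ l : F, chi F l * if 1 + l * y + l ^ 2 = c then 1 else 0 := by
    intro y
    have := key_sum hK h1 (fun z => if z = c then (1 : ℂ) else 0) (y / 2)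
    rw [mul_sum] at this
    have e : ∀ l : F, 2 * l * (y / 2) = l * y := fun l => by field_simp
    simp only [e] at this
    rw [← this]
    refine sum_congr rfl fun t _ => ?_
    have e' : y - 2 * t = 2 * (y / 2 - t) := by field_simp
    rw [e', map_mul]
    ring
  calc _ = ∑ y : F, chi F (y ^ 2 - 4) *
        ∑ t : F, (if 1 - t ^ 2 = c then (1 : ℂ) else 0) * chi F (y - 2 * t) := by
        simp only [eig1_leg hK, mul_sum]
        rw [sum_comm]
        exact sum_congr rfl fun y _ => sum_congr rfl fun t _ => by ring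
    _ = ∑ l : F, ∑ y : F, chi F (y ^ 2 - 4) *
        (chi F l * if 1 + l * y + l ^ 2 = c then 1 else 0) := by
        simp only [e1, mul_sum]
        exact sum_comm
    _ = _ := by
        refine sum_congr rfl fun l _ => ?_
        by_cases hl : l = 0
        · simp [hl, eig1_zero]
        rw [sum_eq_single ((c - 1 - l ^ 2) / l)]
        · rw [if_pos (by field_simp; ring), mul_one, mul_comm]
          congr 1
          refine (eig1_of_sq hl ?_).symm
          field_simp
          ring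
        · intro y _ hy
          rw [if_neg, mul_zero, mul_zero]
          intro h
          apply hy
          rw [eq_div_iff hl]
          linear_combination h
        · simp

theorem leg_half (hK : ringChar F ≠ 2) (h1 : IsSquare (-1 : F)) {ω : MulChar F ℂ}
    (hω : ω * ω = chi F) (t : F) :
    (2 * leg ((1 + t) / 2) : ℂ) =
      (if t = 0 then 2 else 1) * (Bk ω (1 - t ^ 2) + Bk ω⁻¹ (1 - t ^ 2)) := by
  have h2 : (2 : F) ≠ 0 := Ring.two_ne_zero hK
  rw [eig1_Bk hK h1 hω, ← eig1_fibre hK h1]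
  have e : ∀ s : F, (if 1 - s ^ 2 = 1 - t ^ 2 then (1 : ℂ) else 0) * leg ((1 + s) / 2)
      = leg ((1 + t) / 2) * if s ^ 2 = t ^ 2 then 1 else 0 := by
    intro s
    by_cases h : s ^ 2 = t ^ 2
    · rw [if_pos h, if_pos (by rw [h]), one_mul, mul_one]
      rcases sq_eq_sq_iff_eq_or_eq_neg.1 h with h' | h'
      · rw [h']
      · rw [h', ← leg_symm h1]
        congr 2
        field_simp
        ring
    · rw [if_neg h, if_neg (fun h' => h (by linear_combination -h')), zero_mul, mul_zero]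
  simp only [e]
  rw [← mul_sum, eig1_count hK]
  split_ifs with ht
  · rw [ht, zero_pow two_ne_zero, eig1_zero]; ring
  · rw [eig1_sq ht]; ring

theorem norm_Bk_one (hK : ringChar F ≠ 2) {ω : MulChar F ℂ} (hω : ω * ω = chi F) :
    ‖Bk ω 1‖ ≤ √(Fintype.card F) := by
  have e : Bk ω 1 = ω (-1) * jacobiSum ω⁻¹ (chi F) := by
    rw [Bk, jacobiSum, mul_sum, ← sum_erase (f := fun x => ω (-1) * (ω⁻¹ x * chi F (1 - x)))
      univ (a := 0) (by simp only [MulChar.map_zero, zero_mul, mul_zero])]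
    refine sum_congr rfl fun x hx => ?_
    have hx0 : x ≠ 0 := ne_of_mem_erase hx
    have : 1 - 1 / x = -1 * x⁻¹ * (1 - x) := by field_simp; ring
    rw [this, map_mul, map_mul, MulChar.inv_apply', ← hω, MulChar.mul_apply]
    ring
  rw [e, norm_mul]
  calc _ ≤ 1 * √(Fintype.card F) :=
        mul_le_mul (norm_mulChar_le _ _) (norm_jacobi_le (Or.inr (eig1_ne_one hK)))
          (norm_nonneg _) zero_le_one
    _ = _ := one_mul _

theorem exists_quartic (hK : ringChar F ≠ 2) (h1 : IsSquare (-1 : F)) :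
    ∃ ω : MulChar F ℂ, ω * ω = chi F := by
  obtain ⟨g, hg⟩ := IsCyclic.exists_generator (α := Fˣ)
  have h4 : 4 ∣ Fintype.card Fˣ := by
    have ha := FiniteField.isSquare_neg_one_iff.1 h1
    have hb := FiniteField.odd_card_of_char_ne_two hK
    rw [Fintype.card_units]
    omega
  have hζ : Units.mk0 Complex.I Complex.I_ne_zero ∈ rootsOfUnity (Fintype.card Fˣ) ℂ := by
    obtain ⟨k, hk⟩ := h4
    rw [mem_rootsOfUnity, hk, pow_mul, Units.ext_iff]
    simp
  refine ⟨MulChar.ofRootOfUnity hζ hg, (MulChar.eq_iff hg _ _).2 ?_⟩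
  rw [MulChar.mul_apply, MulChar.ofRootOfUnity_spec, Units.val_mk0, Complex.I_mul_I]
  rcases quadraticChar_dichotomy g.ne_zero with h | h
  · refine absurd ((MulChar.eq_iff hg _ _).2 ?_) (eig1_ne_one hK)
    rw [chi_apply, h, MulChar.one_apply_coe]; simp
  · rw [chi_apply, h]; simp

theorem eigB_gB (h1 : IsSquare (-1 : F)) {n : F} {e : ℝ} (H : EEB n e) {τ : MulChar F ℂ}
    (hτ : τ = 1 ∨ τ = chi F) : EigB n τ gB e := by
  intro X hX
  refine le_of_eq_of_le ?_ (H X (chi F) τ hX (Or.inl ⟨rfl, hτ⟩))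
  rw [EE]
  congr 1
  refine sum_congr rfl fun ξ _ => ?_
  have e : (1 - ξ).norm = ξ.norm - 2 * ξ.re + 1 := by
    rw [norm_QA, norm_QA]
    simp only [QuadraticAlgebra.re_sub, QuadraticAlgebra.im_sub, QuadraticAlgebra.re_one,
      QuadraticAlgebra.im_one]
    ring
  rw [e, gB]
  push_cast
  rw [sg_chi, sub_zero, leg_eq_Bk h1]

section Eig2

omit [DecidableEq F] in
theorem e2_chi_ne (z : F) (hz : z ≠ 0) : chi F z * chi F z = 1 := by
  classical
  rw [chi_apply]
  have := quadraticChar_sq_one hz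
  rw [sq] at this
  exact_mod_cast this

omit [DecidableEq F] in
theorem e2_chi_neg_one (h1 : IsSquare (-1 : F)) : chi F (-1) = 1 := by
  obtain ⟨i, hi⟩ := h1
  have hi0 : i ≠ 0 := by
    rintro rfl
    simp at hi
  rw [hi, map_mul, e2_chi_ne i hi0]

omit [DecidableEq F] in
theorem e2_chi_inv : (chi F)⁻¹ = chi F := by
  ext z
  rw [MulChar.inv_apply_eq_inv']
  exact inv_eq_of_mul_eq_one_left (e2_chi_ne _ z.ne_zero)

/-- the class function of the wheel in terms of the rank two sums -/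
theorem e2_gW (hK : ringChar F ≠ 2) (h1 : IsSquare (-1 : F)) {ω : MulChar F ℂ}
    (hω : ω * ω = chi F) (s : F) {N : F} (hN : N ≠ 0) :
    (2 * gW s N : ℂ) =
      chi F N * ∑ l, chi F l * (chi F (1 + 2 * l * ((s ^ 2 - 2 * N) / (2 * N)) + l ^ 2) *
        (Bk ω (1 + 2 * l * ((s ^ 2 - 2 * N) / (2 * N)) + l ^ 2) +
          Bk ω⁻¹ (1 + 2 * l * ((s ^ 2 - 2 * N) / (2 * N)) + l ^ 2))) +
      chi F (2 * N) * chi F ((s ^ 2 - 2 * N) / (2 * N)) * (Bk ω 1 + Bk ω⁻¹ 1) := by
  have h2 : (2 : F) ≠ 0 := Ring.two_ne_zero hK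
  set x := (s ^ 2 - 2 * N) / (2 * N) with hx
  rw [← key_sum hK h1 (fun c => chi F c * (Bk ω c + Bk ω⁻¹ c)) x]
  have hb : Function.Bijective (fun t : F => (1 + t) / 2) := by
    refine Finite.injective_iff_bijective.mp fun a b hab => ?_
    have := (div_left_inj' h2).mp hab
    simpa using this
  have e1 : (2 * gW s N : ℂ) = ∑ t : F, (if t = 0 then 2 else 1) *
      (chi F (2 * N) * (chi F (1 - t ^ 2) * (Bk ω (1 - t ^ 2) + Bk ω⁻¹ (1 - t ^ 2)) *
        chi F (x - t))) := by
    rw [gW]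
    push_cast
    rw [← hb.sum_comp, mul_sum]
    refine sum_congr rfl fun t _ => ?_
    have a1 : (sg ((1 + t) / 2) 0 : ℂ) * sg ((1 + t) / 2) 1 = chi F (1 - t ^ 2) := by
      rw [sg_chi, sg_chi, ← map_mul]
      have : ((1 + t) / 2 - 0) * ((1 + t) / 2 - 1) = (1 - t ^ 2) * (-1) * (2⁻¹ * 2⁻¹) := by
        field_simp; ring
      rw [this, map_mul, map_mul, map_mul, e2_chi_ne _ (inv_ne_zero h2), e2_chi_neg_one h1]
      ring
    have a2 : (sg (s ^ 2) (4 * ((1 + t) / 2) * N) : ℂ) = chi F (2 * N) * chi F (x - t) := by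
      rw [sg_chi, ← map_mul]
      congr 1
      rw [hx]; field_simp; ring
    have a3 := leg_half hK h1 hω t
    calc 2 * ((sg ((1 + t) / 2) 0 : ℂ) * sg ((1 + t) / 2) 1 * leg ((1 + t) / 2) *
          sg (s ^ 2) (4 * ((1 + t) / 2) * N))
        = ((sg ((1 + t) / 2) 0 : ℂ) * sg ((1 + t) / 2) 1) * (2 * leg ((1 + t) / 2)) *
          sg (s ^ 2) (4 * ((1 + t) / 2) * N) := by ring
      _ = _ := by rw [a1, a2, a3]; ring
  rw [e1]
  have e2 : ∀ (f : F → ℂ), ∑ t : F, (if t = 0 then 2 else 1) * f t = ∑ t, f t + f 0 := by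
    intro f
    have : ∀ t : F, (if t = 0 then (2 : ℂ) else 1) * f t = f t + if t = 0 then f t else 0 := by
      intro t; split_ifs <;> ring
    simp_rw [this, sum_add_distrib]
    simp
  rw [e2, ← mul_sum, map_mul]
  simp only [ne_eq, OfNat.ofNat_ne_zero, not_false_eq_true, zero_pow, sub_zero, map_one, one_mul]
  ring

omit [Fintype F] [DecidableEq F] in
theorem e2_unit {n : F} {v : QA n} : IsUnit v ↔ v.norm ≠ 0 := by
  rw [QuadraticAlgebra.isUnit_iff_norm_isUnit, isUnit_iff_ne_zero]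

omit [Fintype F] [DecidableEq F] in
theorem e2_norm (hK : ringChar F ≠ 2) {n : F} (v : QA n) (hv : v.norm ≠ 0) (l : F) :
    1 + 2 * (-v.norm * l) * (((2 * v.re) ^ 2 - 2 * v.norm) / (2 * v.norm)) + (-v.norm * l) ^ 2 =
      (1 - algebraMap F (QA n) l * (v * v)).norm := by
  have h2 : (2 : F) ≠ 0 := Ring.two_ne_zero hK
  have e : 2 * (-v.norm * l) * (((2 * v.re) ^ 2 - 2 * v.norm) / (2 * v.norm)) =
      -l * ((2 * v.re) ^ 2 - 2 * v.norm) := by
    field_simp
  rw [e, norm_QA, norm_QA]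
  simp [QuadraticAlgebra.re_one, QuadraticAlgebra.im_one]
  ring

/-- the same formula along a torus -/
theorem e2_gW' (hK : ringChar F ≠ 2) (h1 : IsSquare (-1 : F)) {ω : MulChar F ℂ}
    (hω : ω * ω = chi F) {n : F} (v : QA n) (hv : v.norm ≠ 0) :
    (2 * gW (2 * v.re) v.norm : ℂ) =
      ∑ l, chi F l * (chi F (1 - algebraMap F (QA n) l * (v * v)).norm *
        (Bk ω (1 - algebraMap F (QA n) l * (v * v)).norm +
          Bk ω⁻¹ (1 - algebraMap F (QA n) l * (v * v)).norm)) +
      chi F (2 * v.norm) * chi F (((2 * v.re) ^ 2 - 2 * v.norm) / (2 * v.norm)) *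
        (Bk ω 1 + Bk ω⁻¹ 1) := by
  rw [e2_gW hK h1 hω _ hv]
  congr 1
  have hb : Function.Bijective (fun l : F => -v.norm * l) :=
    Finite.injective_iff_bijective.mp fun a b hab => mul_left_cancel₀ (neg_ne_zero.mpr hv) hab
  rw [← hb.sum_comp, mul_sum]
  refine sum_congr rfl fun l _ => ?_
  simp only [e2_norm hK v hv l]
  rw [neg_eq_neg_one_mul, map_mul, map_mul, e2_chi_neg_one h1, ← mul_assoc, ← mul_assoc, one_mul,
    ← mul_assoc (chi F v.norm), e2_chi_ne _ hv, one_mul, mul_assoc]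

section Fourier

variable {M : Type*} [CommMonoid M] [Fintype M] [DecidableEq M]

theorem e2_inversion (H : M → ℂ) {z : M} (hz : IsUnit z) :
    (Nat.card Mˣ : ℂ) * H z = ∑ Y : MulChar M ℂ, Y⁻¹ z * ∑ ζ, Y ζ * H ζ := by
  obtain ⟨u, rfl⟩ := hz
  simp_rw [mul_sum]
  rw [sum_comm]
  have : ∀ ζ : M, ∑ Y : MulChar M ℂ, Y⁻¹ u * (Y ζ * H ζ) =
      if ζ = u then (Nat.card Mˣ : ℂ) * H ζ else 0 := by
    intro ζ
    have e : ∀ Y : MulChar M ℂ, Y⁻¹ u * (Y ζ * H ζ) = Y (↑u⁻¹ * ζ) * H ζ := by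
      intro Y
      have hu : Y (u : M) * Y (↑u⁻¹ : M) = 1 := by rw [← map_mul]; simp
      rw [MulChar.inv_apply_eq_inv', map_mul, ← mul_assoc, inv_eq_of_mul_eq_one_right hu]
    simp_rw [e]
    rw [← sum_mul, sum_mulChar]
    have : (↑u⁻¹ * ζ = 1) ↔ ζ = u := by
      rw [Units.inv_mul_eq_one, eq_comm]
    simp only [this]
    split_ifs <;> simp
  simp_rw [this]
  simp

open Classical in
theorem e2_sum_eq (X Y : MulChar M ℂ) :
    ∑ v, (X * Y⁻¹) v = if Y = X then (Nat.card Mˣ : ℂ) else 0 := by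
  split_ifs with h
  · rw [h, mul_inv_cancel, MulChar.sum_one_eq_card_units, Nat.card_eq_fintype_card]
  · exact MulChar.sum_eq_zero_of_ne_one fun h' => h (mul_inv_eq_one.mp h').symm

open Classical in
/-- the number of square roots of a character -/
theorem e2_roots (X : MulChar M ℂ) :
    #{Y : MulChar M ℂ | Y * Y = X} ≤ #{v : M | v * v = 1} := by
  have hU : (Nat.card Mˣ : ℂ) ≠ 0 := by exact_mod_cast Nat.card_pos.ne'
  have e : (Nat.card Mˣ : ℂ) * (#{Y : MulChar M ℂ | Y * Y = X} : ℂ) =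
      (Nat.card Mˣ : ℂ) * ∑ v with v * v = 1, X⁻¹ v := by
    calc (Nat.card Mˣ : ℂ) * (#{Y : MulChar M ℂ | Y * Y = X} : ℂ)
        = ∑ Y : MulChar M ℂ, ∑ v, (Y * Y * X⁻¹) v := by
          simp_rw [e2_sum_eq, eq_comm (a := X)]
          rw [← sum_filter, sum_const, nsmul_eq_mul, mul_comm]
      _ = ∑ v, (∑ Y : MulChar M ℂ, Y (v * v)) * X⁻¹ v := by
          rw [sum_comm]
          simp_rw [sum_mul, MulChar.mul_apply, map_mul]
      _ = _ := by
          simp_rw [sum_mulChar]
          rw [mul_sum, sum_filter]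
          refine sum_congr rfl fun v _ => ?_
          split_ifs <;> simp
  have e' := mul_left_cancel₀ hU e
  have : ((#{Y : MulChar M ℂ | Y * Y = X} : ℕ) : ℝ) ≤ (#{v : M | v * v = 1} : ℕ) := by
    calc ((#{Y : MulChar M ℂ | Y * Y = X} : ℕ) : ℝ)
        = ‖((#{Y : MulChar M ℂ | Y * Y = X} : ℕ) : ℂ)‖ := by simp
      _ ≤ ∑ v with v * v = 1, ‖X⁻¹ v‖ := by rw [e']; exact norm_sum_le _ _
      _ ≤ ∑ v : M with v * v = 1, (1 : ℝ) := sum_le_sum fun v _ => norm_mulChar_le _ _
      _ = _ := by simp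
  exact_mod_cast this

end Fourier

theorem e2_card_sq {c d : F} (hc : c ≠ 0) : #{a : F | c * a ^ 2 = d} ≤ 2 := by
  rcases ({a : F | c * a ^ 2 = d} : Finset F).eq_empty_or_nonempty with h | ⟨a, ha⟩
  · rw [h]; simp
  · refine le_trans (card_le_card (t := {a, -a}) fun b hb => ?_) card_le_two
    simp only [mem_filter, mem_univ, true_and] at ha hb
    have : b ^ 2 = a ^ 2 := mul_left_cancel₀ hc (hb.trans ha.symm)
    simpa using sq_eq_sq_iff_eq_or_eq_neg.mp this

theorem e2_card_inv (hK : ringChar F ≠ 2) {n : F} (hn : n ≠ 0) :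
    #{v : QA n | v * v = 1} ≤ 4 := by
  have h2 : (2 : F) ≠ 0 := Ring.two_ne_zero hK
  have hs : ({v : QA n | v * v = 1} : Finset (QA n)) ⊆
      (({a : F | 1 * a ^ 2 = 1} : Finset F).image fun a => (⟨a, 0⟩ : QA n)) ∪
        (({b : F | n * b ^ 2 = 1} : Finset F).image fun b => (⟨0, b⟩ : QA n)) := by
    rintro ⟨a, b⟩ hv
    simp only [mem_filter, mem_univ, true_and] at hv
    have hre := congrArg QuadraticAlgebra.re hv
    have him := congrArg QuadraticAlgebra.im hv
    simp only [QuadraticAlgebra.re_mul, QuadraticAlgebra.im_mul, QuadraticAlgebra.re_one,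
      QuadraticAlgebra.im_one] at hre him
    have hab : 2 * (a * b) = 0 := by linear_combination him
    rcases mul_eq_zero.mp ((mul_eq_zero.mp hab).resolve_left h2) with rfl | rfl
    · refine mem_union_right _ (mem_image.mpr ⟨b, ?_, rfl⟩)
      simp only [mem_filter, mem_univ, true_and]
      linear_combination hre
    · refine mem_union_left _ (mem_image.mpr ⟨a, ?_, rfl⟩)
      simp only [mem_filter, mem_univ, true_and]
      linear_combination hre
  refine (card_le_card hs).trans ((card_union_le _ _).trans ?_)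
  have a1 := (card_image_le (s := ({a : F | 1 * a ^ 2 = 1} : Finset F))
    (f := fun a => (⟨a, 0⟩ : QA n))).trans (e2_card_sq one_ne_zero)
  have a2 := (card_image_le (s := ({b : F | n * b ^ 2 = 1} : Finset F))
    (f := fun b => (⟨0, b⟩ : QA n))).trans (e2_card_sq hn)
  omega

/-- restriction of a character of the torus to the scalars -/
noncomputable def resQ {n : F} (Y : MulChar (QA n) ℂ) : MulChar F ℂ where
  toFun z := Y (algebraMap F (QA n) z)
  map_one' := by simp
  map_mul' x y := by simp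
  map_nonunit' x hx := by
    have : x = 0 := by simpa using hx
    have _i : Nontrivial (QA n) := QuadraticAlgebra.algebraMap_injective.nontrivial
    rw [this, map_zero, MulChar.map_zero]

theorem e2_res {n : F} (Y : MulChar (QA n) ℂ) {e : ℝ} (he : 0 ≤ e) {S : ℂ}
    (hS : Res Y (chi F) → ‖S‖ ≤ e) :
    ‖(∑ l, chi F l * Y⁻¹ (algebraMap F (QA n) l)) * S‖ ≤ (Fintype.card F - 1) * e := by
  have hq : (1 : ℝ) ≤ Fintype.card F := by exact_mod_cast Fintype.card_pos
  have e1 : ∑ l, chi F l * Y⁻¹ (algebraMap F (QA n) l) = ∑ l, (chi F * (resQ Y)⁻¹) l := by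
    refine sum_congr rfl fun l _ => ?_
    rw [MulChar.mul_apply, MulChar.inv_apply_eq_inv', MulChar.inv_apply_eq_inv']
    rfl
  rw [e1, e2_sum_eq]
  split_ifs with h
  · have hR : Res Y (chi F) := fun z => by rw [← h]; rfl
    rw [norm_mul, Nat.card_eq_fintype_card, Fintype.card_units, Complex.norm_natCast,
      Nat.cast_sub Fintype.card_pos, Nat.cast_one]
    exact mul_le_mul_of_nonneg_left (hS hR) (by linarith)
  · rw [zero_mul, norm_zero]
    exact mul_nonneg (by linarith) he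

theorem e2_main (hK : ringChar F ≠ 2) {n : F} (hn : n ≠ 0) {e : ℝ} (he : 0 ≤ e)
    (X : MulChar (QA n) ℂ) (H : QA n → ℂ)
    (hH : ∀ Y : MulChar (QA n) ℂ, Res Y (chi F) → ‖∑ ζ, Y ζ * H ζ‖ ≤ e) :
    ‖∑ v, X v * ∑ l, chi F l * H (algebraMap F (QA n) l * (v * v))‖ ≤
      (Fintype.card F - 1) * (4 * e) := by
  classical
  have hq : (1 : ℝ) ≤ Fintype.card F := by exact_mod_cast Fintype.card_pos
  have hU : (0 : ℝ) < Nat.card (QA n)ˣ := by exact_mod_cast Nat.card_pos
  have key : (Nat.card (QA n)ˣ : ℂ) *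
      ∑ v, X v * ∑ l, chi F l * H (algebraMap F (QA n) l * (v * v)) =
      ∑ Y : MulChar (QA n) ℂ, (∑ v, (X * (Y * Y)⁻¹) v) *
        ((∑ l, chi F l * Y⁻¹ (algebraMap F (QA n) l)) * ∑ ζ, Y ζ * H ζ) := by
    have pt : ∀ (v : QA n) (l : F), (Nat.card (QA n)ˣ : ℂ) *
        (X v * (chi F l * H (algebraMap F (QA n) l * (v * v)))) =
        ∑ Y : MulChar (QA n) ℂ, (X * (Y * Y)⁻¹) v *
          (chi F l * Y⁻¹ (algebraMap F (QA n) l) * ∑ ζ, Y ζ * H ζ) := by
      intro v l
      by_cases hv : IsUnit v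
      · by_cases hl : l = 0
        · simp [hl, MulChar.map_zero]
        · have hz : IsUnit (algebraMap F (QA n) l * (v * v)) :=
            ((isUnit_iff_ne_zero.mpr hl).map _).mul (hv.mul hv)
          have := e2_inversion H hz
          calc _ = X v * chi F l * ((Nat.card (QA n)ˣ : ℂ) *
                H (algebraMap F (QA n) l * (v * v))) := by ring
            _ = _ := by
              rw [this, mul_sum]
              refine sum_congr rfl fun Y _ => ?_
              rw [mul_inv, MulChar.mul_apply, MulChar.mul_apply, map_mul, map_mul]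
              ring
      · simp [MulChar.map_nonunit _ hv]
    calc _ = ∑ v : QA n, ∑ l : F, (Nat.card (QA n)ˣ : ℂ) *
          (X v * (chi F l * H (algebraMap F (QA n) l * (v * v)))) := by
          rw [mul_sum]
          refine sum_congr rfl fun v _ => ?_
          rw [mul_sum, mul_sum]
      _ = ∑ Y : MulChar (QA n) ℂ, ∑ v : QA n, ∑ l : F, (X * (Y * Y)⁻¹) v *
          (chi F l * Y⁻¹ (algebraMap F (QA n) l) * ∑ ζ, Y ζ * H ζ) := by
          simp_rw [pt]
          exact (sum_congr rfl fun v _ => sum_comm).trans sum_comm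
      _ = _ := by
          refine sum_congr rfl fun Y _ => ?_
          rw [sum_mul]
          refine sum_congr rfl fun v _ => ?_
          rw [← mul_sum, sum_mul]
  have hb : (Nat.card (QA n)ˣ : ℝ) *
      ‖∑ v, X v * ∑ l, chi F l * H (algebraMap F (QA n) l * (v * v))‖ ≤
      (Nat.card (QA n)ˣ : ℝ) * ((Fintype.card F - 1) * (4 * e)) := by
    have hc : ((#{Y : MulChar (QA n) ℂ | Y * Y = X} : ℕ) : ℝ) ≤ 4 := by
      have := (e2_roots X).trans (by convert e2_card_inv hK hn)
      exact_mod_cast this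
    calc _ = ‖(Nat.card (QA n)ˣ : ℂ) *
          ∑ v, X v * ∑ l, chi F l * H (algebraMap F (QA n) l * (v * v))‖ := by
          rw [norm_mul, Complex.norm_natCast]
      _ ≤ ∑ Y : MulChar (QA n) ℂ, if Y * Y = X then
            (Nat.card (QA n)ˣ : ℝ) * ((Fintype.card F - 1) * e) else 0 := by
          rw [key]
          refine (norm_sum_le _ _).trans (sum_le_sum fun Y _ => ?_)
          rw [e2_sum_eq]
          split_ifs with h
          · rw [norm_mul, Complex.norm_natCast]
            exact mul_le_mul_of_nonneg_left (e2_res Y he (hH Y)) hU.le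
          · simp
      _ = (#{Y : MulChar (QA n) ℂ | Y * Y = X} : ℕ) *
            ((Nat.card (QA n)ˣ : ℝ) * ((Fintype.card F - 1) * e)) := by
          rw [← sum_filter, sum_const, nsmul_eq_mul]
      _ ≤ 4 * ((Nat.card (QA n)ˣ : ℝ) * ((Fintype.card F - 1) * e)) :=
          mul_le_mul_of_nonneg_right hc
            (mul_nonneg hU.le (mul_nonneg (by linarith) he))
      _ = _ := by ring
  exact le_of_mul_le_mul_left hb hU

end Eig2

theorem eigB_gW (hK : ringChar F ≠ 2) (h1 : IsSquare (-1 : F)) {n : F} (hn : n ≠ 0) {e : ℝ}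
    (he : 0 ≤ e) (H : EEB n e) :
    EigB n 1 gW ((Fintype.card F - 1) * (4 * e + 2 * √(Fintype.card F) ^ 3)) := by
  intro X _
  obtain ⟨ω, hω⟩ := exists_quartic hK h1
  have hω' : ω⁻¹ * ω⁻¹ = chi F := by rw [← mul_inv, hω, e2_chi_inv]
  set G : QA n → ℂ := fun ζ => chi F (1 - ζ).norm * (Bk ω (1 - ζ).norm + Bk ω⁻¹ (1 - ζ).norm)
    with hG
  have hH : ∀ Y : MulChar (QA n) ℂ, Res Y (chi F) → ‖∑ ζ, Y ζ * G ζ‖ ≤ 2 * e := by
    intro Y hY
    have : ∑ ζ, Y ζ * G ζ = EE ω Y + EE ω⁻¹ Y := by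
      rw [EE, EE, ← sum_add_distrib]
      exact sum_congr rfl fun ζ _ => by rw [hG]; ring
    rw [this]
    have b1 := H Y ω (chi F) hY (Or.inr ⟨hω, rfl⟩)
    have b2 := H Y ω⁻¹ (chi F) hY (Or.inr ⟨hω', rfl⟩)
    linarith [norm_add_le (EE ω Y) (EE ω⁻¹ Y)]
  have hm := e2_main hK hn (by linarith : 0 ≤ 2 * e) X G hH
  have e1 : 2 * ∑ ξ : QA n, X ξ * (gW (2 * ξ.re) ξ.norm : ℂ) =
      (∑ v, X v * ∑ l, chi F l * G (algebraMap F (QA n) l * (v * v))) +
      ∑ v : QA n, X v * (chi F (2 * v.norm) *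
        chi F (((2 * v.re) ^ 2 - 2 * v.norm) / (2 * v.norm)) * (Bk ω 1 + Bk ω⁻¹ 1)) := by
    rw [mul_sum, ← sum_add_distrib]
    refine sum_congr rfl fun v _ => ?_
    by_cases hv : IsUnit v
    · rw [← mul_add, ← e2_gW' hK h1 hω v (e2_unit.mp hv)]
      ring
    · simp [MulChar.map_nonunit _ hv]
  set r := √(Fintype.card F : ℝ) with hr
  have hr0 : 0 ≤ r := Real.sqrt_nonneg _
  have hr2 : r ^ 2 = Fintype.card F := Real.sq_sqrt (by positivity)
  have hq : (2 : ℝ) ≤ Fintype.card F := by exact_mod_cast Fintype.one_lt_card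
  have hB : ‖Bk ω 1 + Bk ω⁻¹ 1‖ ≤ 2 * r := by
    linarith [norm_add_le (Bk ω 1) (Bk ω⁻¹ 1), norm_Bk_one hK hω, norm_Bk_one hK hω']
  have hc : ‖∑ v : QA n, X v * (chi F (2 * v.norm) *
        chi F (((2 * v.re) ^ 2 - 2 * v.norm) / (2 * v.norm)) * (Bk ω 1 + Bk ω⁻¹ 1))‖ ≤
      (Fintype.card F : ℝ) ^ 2 * (2 * r) := by
    refine (norm_sum_le _ _).trans ?_
    calc _ ≤ ∑ _v : QA n, 2 * r := by
          refine sum_le_sum fun v _ => ?_
          rw [norm_mul, norm_mul, norm_mul]
          refine (mul_le_of_le_one_left (by positivity) (norm_mulChar_le _ _)).trans ?_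
          refine (mul_le_of_le_one_left (norm_nonneg _) ?_).trans hB
          exact mul_le_one₀ (norm_mulChar_le _ _) (norm_nonneg _) (norm_mulChar_le _ _)
      _ = _ := by
          rw [sum_QA]
          simp only [sum_const, card_univ, nsmul_eq_mul]
          ring
  have e2 : 2 * ‖∑ ξ : QA n, X ξ * (gW (2 * ξ.re) ξ.norm : ℂ)‖ ≤
      (Fintype.card F - 1) * (4 * (2 * e)) + (Fintype.card F : ℝ) ^ 2 * (2 * r) := by
    calc _ = ‖2 * ∑ ξ : QA n, X ξ * (gW (2 * ξ.re) ξ.norm : ℂ)‖ := by simp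
      _ ≤ _ := by rw [e1]; exact (norm_add_le _ _).trans (add_le_add hm hc)
  have e3 : (Fintype.card F : ℝ) ^ 2 * r ≤ (Fintype.card F - 1) * (2 * r ^ 3) := by
    have : r ^ 3 = Fintype.card F * r := by rw [← hr2]; ring
    rw [this]
    nlinarith [mul_nonneg (mul_nonneg (by linarith : (0 : ℝ) ≤ Fintype.card F) hr0)
      (by linarith : (0 : ℝ) ≤ Fintype.card F - 2)]
  nlinarith

end Pool.Agent.P.MP_9484ad_co
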