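import Pool.Agent.P.MP_9484ad_co.DiagJac

/-! From Gauss sums to the eigenvalue sums. -/

namespace Pool.Agent.P.MP_9484ad_co

open Finset

variable {F E : Type*} [Field F] [Fintype F] [DecidableEq F] [Field E] [Fintype E] [Algebra F E]

namespace G1

omit [DecidableEq F] in
theorem chi_ne_one (hK : ringChar F ≠ 2) : chi F ≠ 1 := by
  classical
  rw [chi]
  exact (MulChar.ringHomComp_ne_one_iff (RingHom.injective_int _)).2
    (by convert quadraticChar_ne_one hK)

omit [DecidableEq F] in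
theorem chi_inv : (chi F)⁻¹ = chi F := by
  rw [chi]
  exact ((@quadraticChar_isQuadratic F _ _ (Classical.decEq F)).comp _).inv

omit [DecidableEq F] in
theorem chi_mul_chi : chi F * chi F = 1 := by
  nth_rewrite 1 [← chi_inv]
  exact inv_mul_cancel _

/-- the element of the split algebra with given coordinates -/
def pr (x y : F) : QA (1 : F) := ⟨(x + y) / 2, (x - y) / 2⟩

omit [Fintype F] [DecidableEq F] in
theorem pr_mul (h2 : (2 : F) ≠ 0) (x y z w : F) : pr x y * pr z w = pr (x * z) (y * w) := by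
  ext <;> simp only [pr, QuadraticAlgebra.re_mul, QuadraticAlgebra.im_mul] <;> field_simp <;> ring

omit [Fintype F] [DecidableEq F] in
theorem pr_diag (h2 : (2 : F) ≠ 0) (z : F) : pr z z = algebraMap F (QA (1 : F)) z := by
  rw [QuadraticAlgebra.algebraMap_eq]
  ext <;> simp only [pr] <;> field_simp <;> ring

omit [Fintype F] [DecidableEq F] in
theorem pr_norm (h2 : (2 : F) ≠ 0) (x y : F) : (pr x y).norm = x * y := by
  rw [norm_QA]
  simp only [pr]
  field_simp
  ring

omit [Fintype F] [DecidableEq F] in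
theorem one_sub_pr (h2 : (2 : F) ≠ 0) (x y : F) : 1 - pr x y = pr (1 - x) (1 - y) := by
  rw [← map_one (algebraMap F (QA (1 : F))), QuadraticAlgebra.algebraMap_eq]
  ext <;> simp only [pr, QuadraticAlgebra.re_sub, QuadraticAlgebra.im_sub] <;> field_simp <;> ring

/-- coordinates on the split algebra -/
def prE (h2 : (2 : F) ≠ 0) : F × F ≃ QA (1 : F) where
  toFun p := pr p.1 p.2
  invFun z := (z.re + z.im, z.re - z.im)
  left_inv p := by
    ext <;> simp only [pr] <;> field_simp <;> ring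
  right_inv z := by
    ext <;> simp only [pr] <;> field_simp <;> ring

omit [DecidableEq F] in
theorem sum_pr (h2 : (2 : F) ≠ 0) (f : QA (1 : F) → ℂ) : ∑ ζ, f ζ = ∑ x, ∑ y, f (pr x y) := by
  rw [← (prE h2).sum_comp, Fintype.sum_prod_type]
  rfl

omit [Fintype F] [DecidableEq F] in
theorem X_pr_zero (h2 : (2 : F) ≠ 0) (X : MulChar (QA (1 : F)) ℂ) {x y : F} (h : x * y = 0) :
    X (pr x y) = 0 := by
  refine X.map_nonunit fun hu => ?_
  rw [QuadraticAlgebra.isUnit_iff_norm_isUnit, pr_norm h2, h] at hu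
  exact not_isUnit_zero hu

/-- the first component of a character of the split algebra -/
noncomputable def c1 (h2 : (2 : F) ≠ 0) (X : MulChar (QA (1 : F)) ℂ) : MulChar F ℂ where
  toFun x := X (pr x 1)
  map_one' := by rw [pr_diag h2, map_one, map_one]
  map_mul' x y := by rw [← map_mul, pr_mul h2, mul_one]
  map_nonunit' x hx := X_pr_zero h2 X (by simpa using hx)

/-- the second component of a character of the split algebra -/
noncomputable def c2 (h2 : (2 : F) ≠ 0) (X : MulChar (QA (1 : F)) ℂ) : MulChar F ℂ where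
  toFun x := X (pr 1 x)
  map_one' := by rw [pr_diag h2, map_one, map_one]
  map_mul' x y := by rw [← map_mul, pr_mul h2, mul_one]
  map_nonunit' x hx := X_pr_zero h2 X (by simpa using hx)

omit [Fintype F] in
theorem X_pr (h2 : (2 : F) ≠ 0) (X : MulChar (QA (1 : F)) ℂ) (x y : F) :
    X (pr x y) = c1 h2 X x * c2 h2 X y := by
  change _ = X (pr x 1) * X (pr 1 y)
  rw [← map_mul, pr_mul h2, mul_one, one_mul]

omit [Fintype F] in
theorem c1_mul_c2 (h2 : (2 : F) ≠ 0) {X : MulChar (QA (1 : F)) ℂ} {τ : MulChar F ℂ}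
    (h : ∀ z : F, X (algebraMap F (QA (1 : F)) z) = τ z) : c1 h2 X * c2 h2 X = τ := by
  ext z
  rw [MulChar.mul_apply, ← X_pr, pr_diag h2, h]

theorem EE_eq (h2 : (2 : F) ≠ 0) (X : MulChar (QA (1 : F)) ℂ) (κ : MulChar F ℂ) :
    ((Fintype.card F : ℂ) - 1) * EE κ X = ∑ ρ : MulChar F ℂ, jacobiSum (chi F * ρ⁻¹) κ ^ 2 *
      (jacobiSum (c1 h2 X) ρ * jacobiSum (c2 h2 X) ρ) := by
  rw [EE, mul_sum]
  have e : ∀ ζ : QA (1 : F), ((Fintype.card F : ℂ) - 1) *
      (X ζ * (chi F (1 - ζ).norm * Bk κ (1 - ζ).norm)) =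
      ∑ ρ : MulChar F ℂ, jacobiSum (chi F * ρ⁻¹) κ ^ 2 * (X ζ * ρ (1 - ζ).norm) := by
    intro ζ
    rw [mul_left_comm, chi_mul_Bk, mul_sum]
    exact sum_congr rfl fun ρ _ => by ring
  rw [sum_congr rfl fun ζ _ => e ζ, sum_comm]
  refine sum_congr rfl fun ρ _ => ?_
  rw [← mul_sum, sum_pr h2, jacobiSum, jacobiSum, jacobiSum, sum_mul_sum]
  congr 1
  refine sum_congr rfl fun x _ => sum_congr rfl fun y _ => ?_
  rw [X_pr h2, one_sub_pr h2, pr_norm h2, map_mul]
  ring

theorem norm_jacobi_triv (ρ σ : MulChar F ℂ) : ‖jacobiSum ρ σ‖ ≤ Fintype.card F := by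
  rw [jacobiSum]
  refine (norm_sum_le _ _).trans ?_
  refine (sum_le_card_nsmul _ _ 1 fun x _ => ?_).trans (by simp)
  rw [norm_mul]
  exact mul_le_one₀ (norm_mulChar_le _ _) (norm_nonneg _) (norm_mulChar_le _ _)

theorem jac_bound (hK : ringChar F ≠ 2) {a b κ : MulChar F ℂ}
    (h : κ = chi F ∨ (κ * κ = chi F ∧ a * b = chi F)) (ρ : MulChar F ℂ) :
    ‖jacobiSum (chi F * ρ⁻¹) κ ^ 2 * (jacobiSum a ρ * jacobiSum b ρ)‖
      ≤ (Fintype.card F : ℝ) ^ 2 := by
  have hq : √(Fintype.card F : ℝ) ^ 2 = Fintype.card F := Real.sq_sqrt (by positivity)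
  have hκ : κ ≠ 1 := by
    rintro rfl
    rcases h with h | h
    · exact chi_ne_one hK h.symm
    · exact chi_ne_one hK (by simpa using h.1.symm)
  have h0 : ‖jacobiSum (chi F * ρ⁻¹) κ‖ ^ 2 ≤ Fintype.card F :=
    hq ▸ pow_le_pow_left₀ (norm_nonneg _) (norm_jacobi_le (.inr hκ)) 2
  rw [norm_mul, norm_mul, norm_pow]
  by_cases hρ : ρ = 1
  · subst hρ
    rcases h with rfl | ⟨-, h⟩
    · have e : ‖jacobiSum (chi F * 1⁻¹) (chi F)‖ ≤ 1 := by
        rw [inv_one, mul_one]
        nth_rewrite 2 [← chi_inv]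
        rw [jacobiSum_nontrivial_inv (chi_ne_one hK), norm_neg]
        exact norm_mulChar_le _ _
      calc _ ≤ (1 : ℝ) ^ 2 * ((Fintype.card F : ℝ) * Fintype.card F) := by
            gcongr <;> exact norm_jacobi_triv _ _
        _ = _ := by ring
    · have e : ‖jacobiSum a 1‖ * ‖jacobiSum b 1‖ ≤ Fintype.card F := by
        by_cases ha : a = 1
        · have hb : b ≠ 1 := by
            rintro rfl
            exact chi_ne_one hK (by simpa [ha] using h.symm)
          rw [jacobiSum_comm b, jacobiSum_one_nontrivial hb, norm_neg, norm_one, mul_one]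
          exact norm_jacobi_triv _ _
        · rw [jacobiSum_comm a, jacobiSum_one_nontrivial ha, norm_neg, norm_one, one_mul]
          exact norm_jacobi_triv _ _
      rw [sq (Fintype.card F : ℝ)]
      gcongr
  · have e : ‖jacobiSum a ρ‖ * ‖jacobiSum b ρ‖ ≤ Fintype.card F := by
      rw [← hq, sq]
      gcongr <;> exact norm_jacobi_le (.inr hρ)
    rw [sq (Fintype.card F : ℝ)]
    gcongr

end G1

theorem eeb_split (hK : ringChar F ≠ 2) (h1 : IsSquare (-1 : F)) {ψ : AddChar F ℂ} {C : ℝ}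
    (H : RHin E ψ C) : EEB (1 : F) ((2 * C + 8) * √(Fintype.card F) ^ 3) := by
  intro X κ τ hX hκ
  have h2 : (2 : F) ≠ 0 := Ring.two_ne_zero hK
  set a := G1.c1 h2 X with ha
  set b := G1.c2 h2 X with hb
  have hab : a * b = τ := G1.c1_mul_c2 h2 hX
  have hq : √(Fintype.card F : ℝ) * √(Fintype.card F : ℝ) = Fintype.card F :=
    Real.mul_self_sqrt (by positivity)
  have hτ : a⁻¹ * b⁻¹ = τ := by
    rw [← mul_inv, hab]
    rcases hκ with ⟨-, rfl | rfl⟩ | ⟨-, rfl⟩
    · exact inv_one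
    · exact G1.chi_inv
    · exact G1.chi_inv
  have hadm : Adm (a⁻¹ * b⁻¹) (κ⁻¹ * chi F) := by
    rw [hτ]
    rcases hκ with ⟨rfl, h⟩ | ⟨h, h'⟩
    · exact .inl ⟨inv_mul_cancel _, h⟩
    · refine .inr ⟨?_, h'⟩
      rw [mul_mul_mul_comm, ← mul_inv, h, G1.chi_mul_chi, mul_one, G1.chi_inv]
  have hH := H.split a⁻¹ b⁻¹ (κ⁻¹ * chi F) hadm
  have key := mellin_bound h1 H.prim (κ := κ) (hκ.imp And.left And.left) hK
    (fun ρ => jacobiSum a ρ * jacobiSum b ρ)
    (fun ρ => gaussSum (a⁻¹ * ρ⁻¹) ψ * gaussSum (b⁻¹ * ρ⁻¹) ψ)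
    (c := (a * b) (-1) * (gaussSum a ψ * gaussSum b ψ))
    (by
      rw [norm_mul, norm_mul, ← hq, ← one_mul (√(Fintype.card F : ℝ) * _)]
      gcongr
      · exact norm_mulChar_le _ _
      · exact norm_gauss_le H.prim _
      · exact norm_gauss_le H.prim _)
    (by classical exact {a⁻¹, b⁻¹}) (by classical exact card_le_two)
    (fun ρ => by
      rw [norm_mul, ← hq]
      gcongr <;> exact norm_gauss_le H.prim _)
    (fun ρ hρ => by
      simp only [mem_insert, mem_singleton, not_or] at hρ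
      have e1 := jacobi_eq_gauss H.prim (ρ := a) (σ := ρ)
        fun h => hρ.1 (eq_inv_of_mul_eq_one_right h)
      have e2 := jacobi_eq_gauss H.prim (ρ := b) (σ := ρ)
        fun h => hρ.2 (eq_inv_of_mul_eq_one_right h)
      have e3 : ρ (-1) * ρ (-1) = 1 := by rw [← map_mul]; simp
      rw [mul_inv, MulChar.mul_apply] at e1 e2
      rw [MulChar.mul_apply]
      calc _ = (Fintype.card F * jacobiSum a ρ) * (Fintype.card F * jacobiSum b ρ) := by ring
        _ = (ρ (-1) * ρ (-1)) * (a (-1) * b (-1) * (gaussSum a ψ * gaussSum b ψ) *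
            (gaussSum (a⁻¹ * ρ⁻¹) ψ * gaussSum (b⁻¹ * ρ⁻¹) ψ) * gaussSum ρ ψ ^ 2) := by
          rw [e1, e2]; ring
        _ = _ := by rw [e3, one_mul])
    (G1.jac_bound hK (hκ.imp And.left fun h => ⟨h.1, hab.trans h.2⟩)) (C := C)
    (by
      convert hH using 2
      rw [hypS]
      refine sum_congr rfl fun ρ _ => ?_
      simp only [Fin.prod_univ_four, Matrix.cons_val, one_mul]
      ring)
  rw [← G1.EE_eq h2 X κ, norm_mul] at key
  have q1 : (1 : ℝ) < Fintype.card F := by exact_mod_cast Fintype.one_lt_card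
  have e : ‖(Fintype.card F : ℂ) - 1‖ = Fintype.card F - 1 := by
    rw [show ((Fintype.card F : ℂ) - 1) = ((Fintype.card F - 1 : ℝ) : ℂ) by simp,
      Complex.norm_real, Real.norm_of_nonneg (by linarith)]
  rw [e] at key
  exact le_of_mul_le_mul_left key (by linarith)

namespace Tw

omit [Fintype F] [DecidableEq F] in
theorem exists_equiv (hE : Module.finrank F E = 2) {n : F} (hn : ¬IsSquare n) :
    Nonempty (QA n ≃ₐ[F] E) := by
  haveI : Fact (∀ r : F, r ^ 2 ≠ n + 0 * r) := ⟨fun r hr => hn ⟨r, by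
    rw [zero_mul, add_zero] at hr; rw [← hr, sq]⟩⟩
  have h2 : Module.finrank F (QA n) = 2 := QuadraticAlgebra.finrank_eq_two n 0
  obtain ⟨f⟩ := FiniteField.nonempty_algHom_of_finrank_dvd (F := F) (K := QA n) (L := E)
    (by rw [h2, hE])
  have hinj : Function.Injective f := f.toRingHom.injective
  haveI : Module.Finite F E := Module.finite_of_finrank_pos (by rw [hE]; norm_num)
  have hsurj : Function.Surjective f :=
    (LinearMap.injective_iff_surjective_of_finrank_eq_finrank (f := f.toLinearMap)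
      (by rw [h2, hE])).1 hinj
  exact ⟨AlgEquiv.ofBijective f ⟨hinj, hsurj⟩⟩

omit [Fintype F] [DecidableEq F] in
theorem algNorm_QA {n : F} (z : QA n) : Algebra.norm F z = z.norm := by
  rw [Algebra.norm_apply, ← QuadraticAlgebra.det_toLinearMap_eq_norm]
  congr 1

omit [Fintype F] [DecidableEq F] in
theorem algTrace_QA {n : F} (z : QA n) : Algebra.trace F (QA n) z = 2 * z.re := by
  rw [Algebra.trace_eq_matrix_trace (QuadraticAlgebra.basis n 0), Matrix.trace, Fin.sum_univ_two]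
  simp only [Matrix.diag_apply, Algebra.leftMulMatrix_eq_repr_mul]
  simp [QuadraticAlgebra.basis]
  ring

/-- a character carried along an isomorphism -/
noncomputable def carry {n : F} (φ : QA n ≃ₐ[F] E) (X : MulChar (QA n) ℂ) : MulChar E ℂ where
  toFun x := X (φ.symm x)
  map_one' := by simp
  map_mul' x y := by simp
  map_nonunit' x hx := X.map_nonunit fun h => hx (by simpa using h.map φ)

omit [Fintype F] [DecidableEq F] [Fintype E] in
theorem carry_apply {n : F} (φ : QA n ≃ₐ[F] E) (X : MulChar (QA n) ℂ) (z : QA n) :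
    carry φ X (φ z) = X z := by
  change X (φ.symm (φ z)) = X z
  rw [φ.symm_apply_apply]

omit [DecidableEq F] in
theorem nrm_apply (ρ : MulChar F ℂ) (x : E) : nrm E ρ x = ρ (Algebra.norm F x) := rfl

omit [Fintype F] [DecidableEq F] [Fintype E] in
theorem trc_apply (ψ : AddChar F ℂ) (x : E) : trc E ψ x = ψ (Algebra.trace F E x) := rfl

omit [Fintype F] [DecidableEq F] [Fintype E] in
theorem res_apply (Ξ : MulChar E ℂ) (x : F) : res F Ξ x = Ξ (algebraMap F E x) := rfl

omit [DecidableEq F] in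
theorem nrm_inj {ρ σ : MulChar F ℂ} (h : nrm E ρ = nrm E σ) : ρ = σ := by
  refine MulChar.ext' fun a => ?_
  obtain ⟨x, rfl⟩ := FiniteField.norm_surjective F E a
  rw [← nrm_apply, h, nrm_apply]

omit [DecidableEq F] in
theorem nrm_one : nrm E (1 : MulChar F ℂ) = 1 := by
  refine MulChar.ext fun a => ?_
  rw [nrm_apply, MulChar.one_apply_coe, MulChar.one_apply (a.isUnit.map _)]

omit [DecidableEq F] in
theorem nrm_mul (ρ σ : MulChar F ℂ) : nrm E (ρ * σ) = nrm E ρ * nrm E σ := by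
  refine MulChar.ext' fun a => ?_
  rw [MulChar.mul_apply, nrm_apply, nrm_apply, nrm_apply, MulChar.mul_apply]

omit [DecidableEq F] in
theorem nrm_inv (ρ : MulChar F ℂ) : nrm E ρ⁻¹ = (nrm E ρ)⁻¹ := by
  refine eq_inv_of_mul_eq_one_left ?_
  rw [← nrm_mul, inv_mul_cancel, nrm_one]

omit [Fintype F] [DecidableEq F] [Fintype E] in
theorem res_inv (Ξ : MulChar E ℂ) : res F Ξ⁻¹ = (res F Ξ)⁻¹ := by
  refine MulChar.ext' fun a => ?_
  rw [res_apply, MulChar.inv_apply_eq_inv', MulChar.inv_apply_eq_inv', res_apply]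

omit [DecidableEq F] in
theorem trc_prim {ψ : AddChar F ℂ} (hψ : ψ.IsPrimitive) : (trc E ψ).IsPrimitive := by
  refine AddChar.IsPrimitive.of_ne_one fun h => hψ one_ne_zero ?_
  rw [AddChar.mulShift_one]
  ext a
  haveI : Module.Finite F E := Module.Finite.of_finite
  obtain ⟨x, rfl⟩ := Algebra.trace_surjective F E a
  rw [← trc_apply, h]
  rfl

/-- sums over the algebra through trace and norm -/
theorem sum_tr_nm (hK : ringChar F ≠ 2) {n : F} (hn : n ≠ 0) (f : F → F → ℂ) :
    ∑ ξ : QA n, f (2 * ξ.re) ξ.norm =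
      ∑ s, ∑ D, (1 + (quadraticChar F n : ℂ) * quadraticChar F (s ^ 2 - 4 * D)) * f s D := by
  have h : ∀ s D, (1 + (quadraticChar F n : ℂ) * quadraticChar F (s ^ 2 - 4 * D)) * f s D =
      ∑ ξ : QA n, if 2 * ξ.re = s ∧ ξ.norm = D then f s D else 0 := by
    intro s D
    have := congrArg (Int.cast : ℤ → ℂ) (count_QA hK hn s D)
    push_cast at this
    rw [← this, sum_mul]
    refine sum_congr rfl fun ξ _ => ?_
    split_ifs <;> simp
  simp_rw [h]
  symm
  calc ∑ s, ∑ D, ∑ ξ : QA n, (if 2 * ξ.re = s ∧ ξ.norm = D then f s D else 0)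
      = ∑ s, ∑ ξ : QA n, ∑ D, (if 2 * ξ.re = s ∧ ξ.norm = D then f s D else 0) :=
        sum_congr rfl fun s _ => sum_comm
    _ = ∑ ξ : QA n, ∑ s, ∑ D, (if 2 * ξ.re = s ∧ ξ.norm = D then f s D else 0) := sum_comm
    _ = _ := by
      refine sum_congr rfl fun ξ _ => ?_
      simp only [ite_and, sum_ite_irrel, sum_ite_eq, mem_univ, if_true, sum_const_zero]

theorem gauss_split (hK : ringChar F ≠ 2) (ρ : MulChar F ℂ) (ψ : AddChar F ℂ) :
    ∑ ξ : QA (1 : F), ρ ξ.norm * ψ (2 * ξ.re) = gaussSum ρ ψ ^ 2 := by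
  have h2 : (2 : F) ≠ 0 := Ring.two_ne_zero hK
  rw [sq, gaussSum, sum_mul_sum, ← Fintype.sum_prod_type', sum_QA, ← Fintype.sum_prod_type']
  refine Fintype.sum_bijective (fun p : F × F => (p.1 + p.2, p.1 - p.2)) ?_ _ _ ?_
  · refine Finite.injective_iff_bijective.1 ?_
    rintro ⟨a, b⟩ ⟨c, d⟩ h
    simp only [Prod.mk.injEq] at h ⊢
    obtain ⟨h3, h4⟩ := h
    constructor
    · apply mul_left_cancel₀ h2; linear_combination h3 + h4
    · apply mul_left_cancel₀ h2; linear_combination h3 - h4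
  · rintro ⟨a, b⟩
    simp only [norm_QA]
    rw [show a ^ 2 - 1 * b ^ 2 = (a + b) * (a - b) by ring, map_mul,
      show 2 * a = (a + b) + (a - b) by ring, AddChar.map_add_eq_mul]
    ring

/-- the lifting relation in degree two -/
theorem gauss_nrm (hK : ringChar F ≠ 2) {n : F} (hn : ¬IsSquare n) (φ : QA n ≃ₐ[F] E)
    (ρ : MulChar F ℂ) {ψ : AddChar F ℂ} (hψ : ψ.IsPrimitive) :
    gaussSum (nrm E ρ) (trc E ψ) = -gaussSum ρ ψ ^ 2 := by
  have hn0 : n ≠ 0 := fun h => hn (h ▸ IsSquare.zero)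
  have e1 : gaussSum (nrm E ρ) (trc E ψ) = ∑ ξ : QA n, ρ ξ.norm * ψ (2 * ξ.re) := by
    rw [gaussSum, ← φ.toEquiv.sum_comp]
    refine sum_congr rfl fun ξ _ => ?_
    change nrm E ρ (φ ξ) * trc E ψ (φ ξ) = _
    rw [nrm_apply, trc_apply, Algebra.norm_eq_of_algEquiv, Algebra.trace_eq_of_algEquiv,
      algNorm_QA, algTrace_QA]
  have hψ1 : ψ ≠ 1 := fun h => hψ one_ne_zero (by rw [AddChar.mulShift_one, h])
  have hs : ∑ s, ψ s = 0 := AddChar.sum_eq_zero_of_ne_one hψ1
  rw [e1, ← gauss_split hK, sum_tr_nm hK hn0 (fun s D => ρ D * ψ s),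
    sum_tr_nm hK one_ne_zero (fun s D => ρ D * ψ s), eq_neg_iff_add_eq_zero, ← sum_add_distrib]
  have hq : quadraticChar F n = -1 := quadraticChar_neg_one_iff_not_isSquare.2 hn
  simp only [← sum_add_distrib, hq, map_one]
  have : ∀ s D : F, (1 + ((-1 : ℤ) : ℂ) * (quadraticChar F (s ^ 2 - 4 * D) : ℂ)) * (ρ D * ψ s) +
      (1 + ((1 : ℤ) : ℂ) * (quadraticChar F (s ^ 2 - 4 * D) : ℂ)) * (ρ D * ψ s) =
      2 * ρ D * ψ s := by
    intro s D; push_cast; ring
  simp only [this]
  rw [sum_comm]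
  simp only [← mul_sum, hs, mul_zero, sum_const_zero]

theorem chi_ne_one (hK : ringChar F ≠ 2) : chi F ≠ 1 := by
  obtain ⟨a, ha⟩ := quadraticChar_exists_neg_one hK
  intro h
  have ha0 : a ≠ 0 := by rintro rfl; simp at ha
  have := chi_apply a
  rw [h, ha, MulChar.one_apply (IsUnit.mk0 a ha0)] at this
  norm_num at this

theorem chi_mul_chi : chi F * chi F = 1 := by
  refine MulChar.ext fun a => ?_
  rw [MulChar.mul_apply, MulChar.one_apply_coe, chi_apply, ← Int.cast_mul, ← sq,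
    quadraticChar_sq_one a.ne_zero, Int.cast_one]

theorem chi_inv : (chi F)⁻¹ = chi F := inv_eq_of_mul_eq_one_left chi_mul_chi

end Tw

open Tw in
theorem eeb_twist (hK : ringChar F ≠ 2) (h1 : IsSquare (-1 : F)) (hE : Module.finrank F E = 2)
    {n : F} (hn : ¬IsSquare n) {ψ : AddChar F ℂ} {C : ℝ} (H : RHin E ψ C) :
    EEB n ((2 * C + 8) * √(Fintype.card F) ^ 3) := by
  classical
  intro X κ τ hX hκ
  obtain ⟨φ⟩ := exists_equiv hE hn
  set Ξ := carry φ X with hΞ
  have hcard : Fintype.card E = Fintype.card F ^ 2 := by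
    rw [Module.card_eq_pow_finrank (K := F) (V := E), hE]
  have hsq : √(Fintype.card E : ℝ) = Fintype.card F := by
    rw [hcard]; push_cast; exact Real.sqrt_sq (Nat.cast_nonneg _)
  have hΨ : (trc E ψ).IsPrimitive := trc_prim H.prim
  have hres : res F Ξ = τ := by
    refine MulChar.ext' fun a => ?_
    rw [res_apply, ← φ.commutes, hΞ, carry_apply, hX]
  have hκ' : κ = chi F ∨ κ * κ = chi F := hκ.imp And.left And.left
  have hκ1 : κ ≠ 1 := by
    rintro rfl
    rcases hκ' with h | h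
    · exact chi_ne_one hK h.symm
    · exact chi_ne_one hK (by rw [← h, mul_one])
  have key : ((Fintype.card F : ℂ) - 1) * EE κ X =
      ∑ ρ : MulChar F ℂ, jacobiSum (chi F * ρ⁻¹) κ ^ 2 * jacobiSum Ξ (nrm E ρ) := by
    rw [EE, mul_sum]
    have : ∀ ρ : MulChar F ℂ, jacobiSum Ξ (nrm E ρ) = ∑ ζ : QA n, X ζ * ρ (1 - ζ).norm := by
      intro ρ
      rw [jacobiSum, ← φ.toEquiv.sum_comp]
      refine sum_congr rfl fun ζ _ => ?_
      change Ξ (φ ζ) * nrm E ρ (1 - φ ζ) = _
      rw [hΞ, carry_apply, ← map_one φ, ← map_sub, nrm_apply, Algebra.norm_eq_of_algEquiv,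
        algNorm_QA]
    simp only [this, mul_sum]
    rw [sum_comm]
    refine sum_congr rfl fun ζ _ => ?_
    rw [mul_left_comm, chi_mul_Bk, mul_sum]
    refine sum_congr rfl fun ρ _ => ?_
    ring
  have hadm : Adm (res F Ξ⁻¹) (κ⁻¹ * chi F) := by
    rw [res_inv, hres]
    rcases hκ with ⟨rfl, h⟩ | ⟨h, rfl⟩
    · refine Or.inl ⟨inv_mul_cancel _, ?_⟩
      rcases h with rfl | rfl
      · exact Or.inl inv_one
      · exact Or.inr chi_inv
    · refine Or.inr ⟨?_, chi_inv⟩
      rw [mul_mul_mul_comm, chi_mul_chi, mul_one, ← mul_inv, h, chi_inv]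
  have hT := H.twist Ξ⁻¹ _ hadm
  have hb := mellin_bound h1 H.prim hκ' hK (fun ρ => jacobiSum Ξ (nrm E ρ))
    (fun ρ => gaussSum (Ξ⁻¹ * nrm E ρ⁻¹) (trc E ψ)) (c := -(Ξ (-1) * gaussSum Ξ (trc E ψ)))
    (by
      rw [norm_neg, norm_mul, ← hsq]
      exact mul_le_of_le_one_left (norm_nonneg _) (norm_mulChar_le _ _) |>.trans
        (norm_gauss_le hΨ _))
    (univ.filter fun ρ => Ξ * nrm E ρ = 1)
    (by
      refine (card_le_one.2 fun ρ hρ σ hσ => ?_).trans one_le_two
      rw [mem_filter] at hρ hσ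
      exact nrm_inj (E := E) (mul_left_cancel (hρ.2.trans hσ.2.symm)))
    (fun ρ => by rw [← hsq]; exact norm_gauss_le hΨ _)
    (fun ρ hρ => by
      have hρ' : Ξ * nrm E ρ ≠ 1 := fun h => hρ (mem_filter.2 ⟨mem_univ _, h⟩)
      have := jacobi_eq_gauss hΨ hρ'
      rw [hcard, gauss_nrm hK hn φ ρ H.prim, mul_inv, ← nrm_inv, MulChar.mul_apply, nrm_apply,
        ← map_one φ, ← map_neg, Algebra.norm_eq_of_algEquiv, algNorm_QA, QuadraticAlgebra.norm_neg,
        map_one, map_one, map_neg, map_one] at this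
      push_cast at this
      rw [this]; ring)
    (fun ρ => by
      rw [norm_mul, norm_pow]
      by_cases h : Ξ ≠ 1 ∨ nrm E ρ ≠ 1
      · have a1 := norm_jacobi_le h
        have a2 := norm_jacobi_le (ρ := chi F * ρ⁻¹) (Or.inr hκ1)
        rw [hsq] at a1
        calc _ ≤ √(Fintype.card F : ℝ) ^ 2 * (Fintype.card F : ℝ) := by gcongr
          _ = _ := by rw [Real.sq_sqrt (Nat.cast_nonneg _), sq]
      · push Not at h
        obtain ⟨h2, h3⟩ := h
        have hρ : ρ = 1 := nrm_inj (E := E) (h3.trans nrm_one.symm)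
        have hτ : τ = 1 := by
          rw [← hres, h2]
          refine MulChar.ext fun a => ?_
          rw [res_apply, MulChar.one_apply_coe, MulChar.one_apply (a.isUnit.map _)]
        have hκc : κ = chi F := by
          rcases hκ with h | h
          · exact h.1
          · exact absurd (h.2.symm.trans hτ) (chi_ne_one hK)
        have a1 : ‖jacobiSum (chi F * ρ⁻¹) κ‖ ≤ 1 := by
          rw [hρ, inv_one, mul_one, hκc]
          nth_rewrite 2 [← chi_inv]
          rw [jacobiSum_nontrivial_inv (chi_ne_one hK), norm_neg]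
          exact norm_mulChar_le _ _
        have a2 : ‖jacobiSum Ξ (nrm E ρ)‖ ≤ (Fintype.card F : ℝ) ^ 2 := by
          rw [jacobiSum]
          refine (norm_sum_le _ _).trans ?_
          calc _ ≤ ∑ _x : E, (1 : ℝ) := sum_le_sum fun x _ => by
                rw [norm_mul]
                exact mul_le_one₀ (norm_mulChar_le _ _) (norm_nonneg _) (norm_mulChar_le _ _)
            _ = _ := by rw [sum_const, card_univ, hcard]; simp
        calc _ ≤ 1 ^ 2 * (Fintype.card F : ℝ) ^ 2 := by gcongr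
          _ = _ := by ring)
    (C := C)
    (by
      refine le_of_eq_of_le ?_ hT
      congr 1
      rw [hypT]
      refine sum_congr rfl fun ρ _ => ?_
      simp only [Fin.prod_univ_two, Fin.prod_univ_four, Matrix.cons_val_zero, Matrix.cons_val_one,
        Matrix.cons_val, one_mul]
      ring)
  rw [← key, norm_mul] at hb
  have hq : (1 : ℝ) < Fintype.card F := by exact_mod_cast Fintype.one_lt_card
  have hn1 : ‖(Fintype.card F : ℂ) - 1‖ = Fintype.card F - 1 := by
    rw [show ((Fintype.card F : ℂ) - 1) = ((Fintype.card F - 1 : ℝ) : ℂ) by push_cast; rfl,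
      Complex.norm_real, Real.norm_of_nonneg (by linarith)]
  rw [hn1] at hb
  exact le_of_mul_le_mul_left hb (by linarith)

end Pool.Agent.P.MP_9484ad_co
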