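import Pool.Agent.P.MP_9484ad_co.DiagPair
import Pool.Agent.P.MP_9484ad_co.DiagGauss
import Pool.Agent.P.MP_9484ad_co.DiagEig

/-! The three norm bounds from square-root cancellation in the hypergeometric sums. -/

namespace Pool.Agent.P.MP_9484ad_co

open Finset

variable {F E : Type*} [Field F] [Fintype F] [DecidableEq F] [Field E] [Fintype E] [Algebra F E]

theorem hard_of_RHin (hK : ringChar F ≠ 2) (h1 : IsSquare (-1 : F)) (hE : Module.finrank F E = 2)
    {ψ : AddChar F ℂ} {C : ℝ} (hC : 0 ≤ C) (H : RHin E ψ C) :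
    Hard F ((56 * C + 338) * √(Fintype.card F) ^ 3) (56 * C + 338) := by
  obtain ⟨n, hn⟩ := FiniteField.exists_nonsquare hK
  have n0 : n ≠ 0 := fun h => hn (h ▸ IsSquare.zero)
  have q1 : (1 : ℝ) ≤ Fintype.card F := by exact_mod_cast Fintype.card_pos
  set r := √(Fintype.card F) with hr
  have hq : r ^ 2 = Fintype.card F := Real.sq_sqrt (by positivity)
  have r1 : 1 ≤ r := Real.one_le_sqrt.2 q1
  have s1 := eeb_split hK h1 H
  have s2 := eeb_twist hK h1 hE hn H
  have e0 : 0 ≤ (2 * C + 8) * r ^ 3 := by positivity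
  have t1 : ∀ z : F, (1 : MulChar F ℂ) z = (sg z 0 ^ 2 : ℝ) := fun z => by
    by_cases h : z = 0
    · simp [h, sg_self, MulChar.map_zero]
    · rw [sq, sg_sq h, MulChar.one_apply (isUnit_iff_ne_zero.2 h)]; simp
  have t2 : ∀ z : F, chi F z = (sg z 0 : ℝ) := fun z => by rw [sg_chi, sub_zero]
  have m : ∀ x : F → F → ℝ, (Fintype.card F : ℝ) * ((2 * C + 8) * r ^ 3) * nn x ≤
      r ^ 2 * (4 * ((2 * C + 8) * r ^ 3) + 2 * r ^ 3) * nn x := fun x => by
    rw [hq]
    have := nn_nonneg x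
    gcongr
    nlinarith [pow_pos (zero_lt_one.trans_le r1) 3]
  have := hard_of_Cl hK h1 r1 hq (e := 4 * ((2 * C + 8) * r ^ 3) + 2 * r ^ 3)
    (fun x hx => (pair_bound hK hn _ _ t1 _ (eigB_gB h1 s1 (.inl rfl)) (eigB_gB h1 s2 (.inl rfl))
      x hx).trans (m x))
    (fun x hx => (pair_bound hK hn _ _ t2 _ (eigB_gB h1 s1 (.inr rfl)) (eigB_gB h1 s2 (.inr rfl))
      x hx).trans (m x))
    (fun x hx => by
      rw [hq]
      exact pair_bound hK hn _ _ t1 _ (eigB_gW hK h1 one_ne_zero e0 s1) (eigB_gW hK h1 n0 e0 s2)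
        x hx)
  intro x hx he
  have h := this x hx he
  nlinarith [mul_nonneg hC (sq_nonneg (∑ a, rs x a)), sq_nonneg (∑ a, rs x a)]

end Pool.Agent.P.MP_9484ad_co
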