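import Pool.Agent.P.MP_9484ad_co.DiagDefs

/-! Products of class sums in `GL₂`. -/

namespace Pool.Agent.P.MP_9484ad_co

open Finset Matrix

variable {F : Type*} [Field F] [Fintype F] [DecidableEq F]

theorem quadric_count (hK : ringChar F ≠ 2) (A : F) :
    (∑ x : F, ∑ b : F, ∑ c : F, if x ^ 2 + b * c = A then (1 : ℤ) else 0) =
      Fintype.card F ^ 2 + Fintype.card F * quadraticChar F A := by
  have e : ∀ b c, (∑ x : F, if x ^ 2 + b * c = A then (1 : ℤ) else 0) =
      1 + quadraticChar F (-b * c + A) := fun b c => by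
    rw [← sq_count hK]
    exact sum_congr rfl fun x _ => if_congr (by constructor <;> intro h <;> linear_combination h)
      rfl rfl
  rw [sum_comm]
  simp only [sum_comm (f := fun x c : F => if x ^ 2 + _ * c = A then (1 : ℤ) else 0), e,
    sum_add_distrib]
  rw [sum_eq_single (0 : F) (f := fun b => ∑ c, quadraticChar F (-b * c + A))
    (fun b _ h => by rw [sum_aff _ (neg_ne_zero.2 h), quadraticChar_sum_zero hK]) (by simp)]
  simp [sq]

theorem plane_aux (hK : ringChar F ≠ 2) (A L y k : F) {l : F} (hl : l ≠ 0) :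
    (∑ x : F, ∑ b : F, ∑ c : F, if x ^ 2 + b * c = A ∧ x * y + b * l + c * k = L then (1 : ℤ)
      else 0) = Fintype.card F + ∑ c, quadraticChar F ((y ^ 2 + 4 * k * l) * c ^ 2 - 2 * L * c + A) := by
  have h2 : (2 : F) ≠ 0 := Ring.two_ne_zero hK
  have e : ∀ x c, (∑ b : F, if x ^ 2 + b * c = A ∧ x * y + b * l + c * k = L then (1 : ℤ) else 0) =
      if l * x ^ 2 - c * y * x + (c * L - c ^ 2 * k - A * l) = 0 then 1 else 0 := fun x c => by
    have := div_mul_cancel₀ (L - x * y - c * k) hl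
    rw [sum_eq_single ((L - x * y - c * k) / l) (fun b _ hb => if_neg fun h =>
      hb (eq_div_of_mul_eq hl (by linear_combination h.2))) (by simp)]
    refine if_congr ⟨fun h => ?_, fun h => ⟨mul_left_cancel₀ hl ?_, ?_⟩⟩ rfl rfl
    · linear_combination l * h.1 - c * this
    · linear_combination h + c * this
    · linear_combination this
  simp only [sum_comm (f := fun b c : F => if _ ^ 2 + b * c = A ∧ _ * y + b * l + c * k = L then
    (1 : ℤ) else 0), e]
  rw [sum_comm]
  simp only [root_count hK hl, sum_add_distrib]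
  simp only [sum_const, card_univ, nsmul_eq_mul, mul_one, add_right_inj]
  rw [← sum_aff _ (mul_ne_zero h2 hl) 0]
  refine sum_congr rfl fun c _ => ?_
  rw [← one_mul (quadraticChar F (_ + A)), ← quadraticChar_sq_one' (mul_ne_zero h2 hl), ← map_mul]
  congr 1
  ring

theorem plane_count (hK : ringChar F ≠ 2) (A L : F) {y k l : F} (h : ¬(k = 0 ∧ l = 0 ∧ y = 0)) :
    (∑ x : F, ∑ b : F, ∑ c : F, if x ^ 2 + b * c = A ∧ x * y + b * l + c * k = L then (1 : ℤ)
      else 0) = Fintype.card F + ∑ c, quadraticChar F ((y ^ 2 + 4 * k * l) * c ^ 2 - 2 * L * c + A) := by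
  by_cases hl : l = 0
  swap
  · exact plane_aux hK A L y k hl
  by_cases hk : k = 0
  swap
  · rw [mul_right_comm, ← plane_aux hK A L y l hk]
    refine sum_congr rfl fun x _ => ?_
    rw [sum_comm]
    simp only [mul_comm, add_right_comm]
  have hy : y ≠ 0 := fun hy => h ⟨hk, hl, hy⟩
  have h4 : (2 : F) * 2 ≠ 0 := mul_ne_zero (Ring.two_ne_zero hK) (Ring.two_ne_zero hK)
  have := div_mul_cancel₀ L hy
  subst hl hk
  have e1 : ∀ b ∈ univ.erase (0 : F), (∑ c : F, if (L / y) ^ 2 + b * c = A ∧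
      L / y * y + b * 0 + c * 0 = L then (1 : ℤ) else 0) = 1 := fun b hb => by
    rw [sum_eq_single ((A - (L / y) ^ 2) / b) (fun c _ hc => if_neg fun h =>
      hc (eq_div_of_mul_eq (ne_of_mem_erase hb) (by linear_combination h.1))) (by simp), if_pos
      ⟨by rw [mul_div_cancel₀ _ (ne_of_mem_erase hb)]; ring, by linear_combination this⟩]
  rw [quad_sum hK, sum_eq_single (L / y) (fun x _ hx => by
    simp [show x * y ≠ L from fun h => hx (eq_div_of_mul_eq hy h)]) (by simp), ← add_sum_erase _ _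
    (mem_univ 0), sum_congr rfl e1]
  have e : (2 * L) ^ 2 = 4 * y ^ 2 * A ↔ (L / y) ^ 2 = A := by
    rw [div_pow, div_eq_iff (pow_ne_zero 2 hy)]
    exact ⟨fun h => mul_left_cancel₀ h4 (by linear_combination h),
      fun h => by linear_combination 4 * h⟩
  have q1 : 1 ≤ Fintype.card F := Fintype.card_pos
  simp [this, e, hy, quadraticChar_sq_one' hy, -map_pow, q1]
  split_ifs <;> ring

omit [DecidableEq F] in
theorem sum_mat (hK : ringChar F ≠ 2) {M : Type*} [AddCommMonoid M]
    (f : Matrix (Fin 2) (Fin 2) F → M) :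
    ∑ h, f h = ∑ p, ∑ x, ∑ b, ∑ c, f !![p + x, b; c, p - x] := by
  have h2 : (2 : F) ≠ 0 := Ring.two_ne_zero hK
  simp only [← Fintype.sum_prod_type']
  refine (Fintype.sum_equiv
    { toFun := fun e : F × F × F × F => !![e.1 + e.2.1, e.2.2.1; e.2.2.2, e.1 - e.2.1]
      invFun := fun h => ((h 0 0 + h 1 1) / 2, (h 0 0 - h 1 1) / 2, h 0 1, h 1 0)
      left_inv := fun e => by ext <;> simp <;> field_simp <;> ring
      right_inv := fun h => by
        ext i j
        fin_cases i <;> fin_cases j <;> simp <;> field_simp <;> ring } _ _ fun _ => rfl).symm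

/-- scalar matrices -/
def Sc (k : Matrix (Fin 2) (Fin 2) F) : Prop := k 0 1 = 0 ∧ k 1 0 = 0 ∧ k 0 0 - k 1 1 = 0

instance (k : Matrix (Fin 2) (Fin 2) F) : Decidable (Sc k) := by unfold Sc; infer_instance

/-- centred class sums -/
def ca (s D : F) (k : Matrix (Fin 2) (Fin 2) F) : ℤ :=
  if k.det = D then (if k.trace = s then Fintype.card F else 0) - 1 else 0

/-- the indicator of a scalar matrix -/
def cz (s D : F) (k : Matrix (Fin 2) (Fin 2) F) : ℤ :=
  if k.det = D ∧ k.trace = s ∧ Sc k then 1 else 0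

theorem class_sum (hK : ringChar F ≠ 2) (u D : F) (f : Matrix (Fin 2) (Fin 2) F → Prop)
    [DecidablePred f] :
    (∑ h : Matrix (Fin 2) (Fin 2) F, if h.det = D ∧ h.trace = 2 * u ∧ f h then (1 : ℤ) else 0) =
      ∑ x, ∑ b, ∑ c, if x ^ 2 + b * c = u ^ 2 - D ∧ f !![u + x, b; c, u - x] then 1 else 0 := by
  have h2 : (2 : F) ≠ 0 := Ring.two_ne_zero hK
  rw [sum_mat hK, sum_eq_single u (fun p _ hp => by
    simp [show p + p ≠ 2 * u from fun h =>
      hp (mul_left_cancel₀ h2 (by linear_combination h))]) (by simp)]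
  refine sum_congr rfl fun x _ => sum_congr rfl fun b _ => sum_congr rfl fun c _ =>
    if_congr ?_ rfl rfl
  simp only [det_fin_two_of, trace_fin_two_of]
  exact ⟨fun h => ⟨by linear_combination -h.1, h.2.2⟩,
    fun h => ⟨by linear_combination -h.1, by ring, h.2⟩⟩

theorem class_count (hK : ringChar F ≠ 2) (u D : F) :
    (∑ h : Matrix (Fin 2) (Fin 2) F, if h.det = D ∧ h.trace = 2 * u then (1 : ℤ) else 0) =
      Fintype.card F ^ 2 + Fintype.card F * quadraticChar F (u ^ 2 - D) := by
  simpa only [and_true, quadric_count hK] using class_sum hK u D fun _ => True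

theorem det_count (hK : ringChar F ≠ 2) {D : F} (hD : D ≠ 0) :
    (∑ h : Matrix (Fin 2) (Fin 2) F, if h.det = D then (1 : ℤ) else 0) =
      Fintype.card F ^ 3 - Fintype.card F := by
  have h2 : (2 : F) ≠ 0 := Ring.two_ne_zero hK
  have e : ∀ h : Matrix (Fin 2) (Fin 2) F, (if h.det = D then (1 : ℤ) else 0) =
      ∑ u, if h.det = D ∧ h.trace = 2 * u then 1 else 0 := fun h => by
    rw [sum_eq_single (h.trace / 2) (fun u _ hu => if_neg fun e =>
      hu (eq_div_of_mul_eq h2 (by linear_combination -e.2))) (by simp)]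
    simp [mul_div_cancel₀ _ h2]
  have := quad_sum hK 1 0 (-D)
  rw [if_neg (by simpa using ⟨fun h => mul_ne_zero h2 h2 (by linear_combination h), hD⟩)] at this
  simp only [one_mul, zero_mul, sub_zero, ← sub_eq_add_neg, map_one] at this
  rw [sum_congr rfl fun h _ => e h, sum_comm]
  simp only [class_count hK, sum_add_distrib, ← mul_sum, this]
  simp
  ring

omit [DecidableEq F] in
theorem sum_mul_left {k : Matrix (Fin 2) (Fin 2) F} (hk : k.det ≠ 0) {M : Type*} [AddCommMonoid M]
    (f : Matrix (Fin 2) (Fin 2) F → M) : ∑ h, f (k * h) = ∑ h, f h :=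
  Equiv.sum_comp ((isUnit_iff_isUnit_det k).2 hk.isUnit).unit.mulLeft f

theorem conv_aa (hK : ringChar F ≠ 2) {u D u' D' : F} (hD' : D' ≠ 0)
    {k : Matrix (Fin 2) (Fin 2) F} (hk : k.det ≠ 0) (h : k.det * D' = D) :
    ∑ h, ca (2 * u) D (k * h) * ca (2 * u') D' h = Fintype.card F ^ 2 *
      (∑ x, ∑ b, ∑ c, if x ^ 2 + b * c = u' ^ 2 - D' ∧
        x * (k 0 0 - k 1 1) + b * k 1 0 + c * k 0 1 = 2 * u - u' * k.trace then (1 : ℤ) else 0) -
      Fintype.card F ^ 3 - Fintype.card F ^ 2 *
        (quadraticChar F (u ^ 2 - D) + quadraticChar F (u' ^ 2 - D')) - Fintype.card F := by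
  have e : ∀ g : Matrix (Fin 2) (Fin 2) F, ca (2 * u) D (k * g) * ca (2 * u') D' g =
      Fintype.card F ^ 2 * (if g.det = D' ∧ g.trace = 2 * u' ∧ (k * g).trace = 2 * u then 1 else 0) -
      Fintype.card F * (if (k * g).det = D ∧ (k * g).trace = 2 * u then 1 else 0) -
      Fintype.card F * (if g.det = D' ∧ g.trace = 2 * u' then 1 else 0) +
      (if g.det = D' then 1 else 0) := fun g => by
    simp only [ca, det_mul, ← h, mul_right_inj' hk]
    by_cases h1 : g.det = D' <;> by_cases h2 : g.trace = 2 * u' <;>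
      by_cases h3 : (k * g).trace = 2 * u <;> simp [h1, h2, h3] <;> ring
  simp only [e, sum_add_distrib, sum_sub_distrib, ← mul_sum]
  rw [sum_mul_left hk fun g => if g.det = D ∧ g.trace = 2 * u then (1 : ℤ) else 0, class_count hK,
    class_count hK, det_count hK hD', class_sum hK]
  rw [sum_congr rfl fun x _ => sum_congr rfl fun b _ => sum_congr rfl fun c _ => if_congr
    (and_congr_right fun _ => show _ ↔ x * (k 0 0 - k 1 1) + b * k 1 0 + c * k 0 1 =
      2 * u - u' * k.trace by
        simp only [trace_fin_two, mul_apply, Fin.sum_univ_two, of_apply, cons_val', cons_val_zero,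
          cons_val_one, cons_val_fin_one]
        constructor <;> intro h <;> linear_combination h) rfl rfl]
  ring

theorem conv_z (hK : ringChar F ≠ 2) (u D : F) (f : Matrix (Fin 2) (Fin 2) F → ℤ) :
    ∑ h, f h * cz (2 * u) D h = if u ^ 2 = D then f (u • 1) else 0 := by
  have h2 : (2 : F) ≠ 0 := Ring.two_ne_zero hK
  rw [sum_eq_single (u • 1) (fun g _ hg => by
    rw [cz, if_neg, mul_zero]
    rintro ⟨-, h1, h3, h4, h5⟩
    rw [trace_fin_two] at h1
    refine hg ?_
    ext i j
    fin_cases i <;> fin_cases j <;> simp [h3, h4] <;> exact mul_left_cancel₀ h2 (by grind))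
    (by simp)]
  simp [cz, Sc, mul_comm]

/-- the kernel attached to an element of a torus -/
noncomputable def vv {n : F} (ξ : QA n) (k : Matrix (Fin 2) (Fin 2) F) : ℤ :=
  quadraticChar F n * ca (2 * ξ.re) ξ.norm k + Fintype.card F ^ 2 * cz (2 * ξ.re) ξ.norm k

/-- the exceptional kernel -/
noncomputable def rho (k : Matrix (Fin 2) (Fin 2) F) : ℤ :=
  Fintype.card F * quadraticChar F (k.trace ^ 2 - 4 * k.det) +
    Fintype.card F ^ 2 * (if Sc k then 1 else 0) + 1

theorem conv_v (hK : ringChar F ≠ 2) {n : F} (hn : n ≠ 0) {ζ ζ' η : QA n} (hη : η.norm ≠ 0)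
    (h : ζ' * star η = ζ * η) {k : Matrix (Fin 2) (Fin 2) F} (hk : k.det ≠ 0) :
    ∑ g, vv (ζ * η) (k * g) * vv η g = Fintype.card F ^ 2 * (vv ζ k + vv ζ' k) -
      Fintype.card F * if k.det = ζ.norm then rho k else 0 := by
  have h2 : (2 : F) ≠ 0 := Ring.two_ne_zero hK
  have hN : ζ'.norm = ζ.norm := mul_right_cancel₀ hη (by
    rw [← map_mul _ ζ, ← h, map_mul, QuadraticAlgebra.norm_star])
  by_cases hd : k.det = ζ.norm
  swap
  · rw [sum_eq_zero fun g _ => ?_]
    · simp [vv, ca, cz, hN, hd]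
    · by_cases hg : g.det = η.norm <;> simp [vv, ca, cz, hg, hη, hd]
  have hD : k.det * η.norm = (ζ * η).norm := by rw [map_mul, hd]
  have ε2 := quadraticChar_sq_one (F := F) hn
  have e : ∀ g, vv (ζ * η) (k * g) * vv η g =
      ca (2 * (ζ * η).re) (ζ * η).norm (k * g) * ca (2 * η.re) η.norm g + quadraticChar F n *
        Fintype.card F ^ 2 * (ca (2 * (ζ * η).re) (ζ * η).norm (k * g) * cz (2 * η.re) η.norm g) +
      quadraticChar F n * Fintype.card F ^ 2 * (ca (2 * η.re) η.norm (k⁻¹ * (k * g)) *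
        cz (2 * (ζ * η).re) (ζ * η).norm (k * g)) + Fintype.card F ^ 4 *
      (cz (2 * (ζ * η).re) (ζ * η).norm (k * g) * cz (2 * η.re) η.norm g) := fun g => by
    rw [nonsing_inv_mul_cancel_left _ _ hk.isUnit, vv, vv]
    linear_combination ca (2 * (ζ * η).re) (ζ * η).norm (k * g) * ca (2 * η.re) η.norm g * ε2
  simp only [e, sum_add_distrib, ← mul_sum]
  rw [sum_mul_left hk fun g => ca (2 * η.re) η.norm (k⁻¹ * g) * cz (2 * (ζ * η).re) (ζ * η).norm g,
    conv_aa hK hη hk hD, conv_z hK, conv_z hK, conv_z hK]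
  have hu := congrArg QuadraticAlgebra.re h
  have hw := congrArg QuadraticAlgebra.im h
  have hu' : (ζ * η).re = ζ.re * η.re + n * ζ.im * η.im := by simp
  have hw' : (ζ * η).im = ζ.re * η.im + ζ.im * η.re := by simp
  have n0 := norm_QA (ζ * η)
  have n1 := norm_QA ζ
  have n2 := norm_QA ζ'
  have n3 := norm_QA η
  have ti : k⁻¹.trace = k.trace / k.det := by
    simp [Matrix.inv_def, adjugate_fin_two, trace_fin_two, div_eq_inv_mul, mul_add, add_comm]
  have hΔ : (k 0 0 - k 1 1) ^ 2 + 4 * k 0 1 * k 1 0 = k.trace ^ 2 - 4 * k.det := by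
    rw [trace_fin_two, det_fin_two]; ring
  have sc : ∀ c : F, c ≠ 0 → (Sc (c • k) ↔ Sc k) := fun c hc => by
    simp [Sc, hc, ← mul_sub]
  simp only [QuadraticAlgebra.re_mul, QuadraticAlgebra.im_mul, QuadraticAlgebra.re_star,
    QuadraticAlgebra.im_star, zero_mul, add_zero] at hu hw
  rw [← hu'] at hu
  rw [← hw'] at hw
  simp only [vv, ca, cz, rho, Matrix.mul_smul, Matrix.mul_one, det_smul, trace_smul, det_nonsing_inv,
    Ring.inverse_eq_inv', Fintype.card_fin, smul_eq_mul, ti, hN, ← hD, ← hd, true_and, if_true]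
  rw [← hD] at n0
  rw [hN] at n2
  rw [← hd] at n1 n2
  generalize (ζ * η).re = u at *
  generalize (ζ * η).im = w at *
  generalize ζ.re = a at *
  generalize ζ.im = b at *
  generalize ζ'.re = a' at *
  generalize ζ'.im = b' at *
  generalize η.re = u' at *
  generalize η.im = w' at *
  generalize η.norm = D at *
  have c0 : ∀ y : F, quadraticChar F (n * y ^ 2) = if y = 0 then 0 else quadraticChar F n :=
    fun y => by
      split_ifs with hy
      · simp [hy]
      · rw [map_mul, quadraticChar_sq_one' hy, mul_one]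
  have c1 := c0 w'
  have c2 := c0 w
  rw [show n * w' ^ 2 = u' ^ 2 - D by linear_combination n3] at c1
  rw [show n * w ^ 2 = u ^ 2 - k.det * D by linear_combination n0] at c2
  have d1 : u' ^ 2 = D ↔ w' = 0 := by rw [n3]; simp [hn, eq_sub_iff_add_eq]
  have d2 : u ^ 2 = k.det * D ↔ w = 0 := by rw [n0]; simp [hn, eq_sub_iff_add_eq]
  have a1 : a' * D = u * u' + n * w * w' := by linear_combination a' * n3 + u' * hu + n * w' * hw
  have a2 : a * D = u * u' - n * w * w' := by linear_combination a * n3 - u' * hu' + n * w' * hw'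
  have u1 : w' = 0 → u' ≠ 0 := fun h e => hη (by rw [n3, h, e]; ring)
  have u2 : w = 0 → u ≠ 0 := fun h e => mul_ne_zero hk hη (by rw [n0, h, e]; ring)
  have y1 : w = 0 ∨ w' = 0 → a' = a := fun h => mul_right_cancel₀ hη (by
    linear_combination a1 - a2 + 2 * n * mul_eq_zero.2 h)
  have y2 : k.trace = 2 * a → k.trace = 2 * a' → w = 0 ∨ w' = 0 := fun h h' =>
    mul_eq_zero.1 (mul_left_cancel₀ (mul_ne_zero (mul_ne_zero h2 h2) hn) (by
      linear_combination 2 * a2 - 2 * a1 + D * h - D * h'))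
  have x1 : w' = 0 → (u' * k.trace = 2 * u ↔ k.trace = 2 * a) := fun h =>
    ⟨fun e => mul_left_cancel₀ (u1 h) (by linear_combination e + 2 * hu' + 2 * n * b * h),
      fun e => by linear_combination u' * e - 2 * hu' - 2 * n * b * h⟩
  have x2 : w = 0 → (u * (k.trace / k.det) = 2 * u' ↔ k.trace = 2 * a) := fun h => by
    rw [← mul_div_assoc, div_eq_iff hk]
    exact ⟨fun e => mul_left_cancel₀ (mul_ne_zero (u2 h) hη) (by
        linear_combination D * e + 2 * u' * n0 - 2 * u * a2 + 2 * n * (u * w' - u' * w) * h),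
      fun e => mul_left_cancel₀ hη (by
        linear_combination D * u * e - 2 * u' * n0 + 2 * u * a2 - 2 * n * (u * w' - u' * w) * h)⟩
  have x3 : w' = 0 → u' ^ 2 * k.det = k.det * D := fun h => by rw [d1.2 h, mul_comm]
  have x4 : w = 0 → u ^ 2 * (k.det)⁻¹ = D := fun h => by rw [d2.2 h]; field_simp
  have fL : (2 * (2 * u - u' * k.trace)) ^ 2 = 4 * (k.trace ^ 2 - 4 * k.det) * (u' ^ 2 - D) ↔
      k.trace = 2 * a ∨ k.trace = 2 * a' := by
    rw [← sub_eq_zero, show (2 * (2 * u - u' * k.trace)) ^ 2 - 4 * (k.trace ^ 2 - 4 * k.det) *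
      (u' ^ 2 - D) = 2 * 2 * D * ((k.trace - 2 * a) * (k.trace - 2 * a')) from
        mul_left_cancel₀ hη (by
          linear_combination 8 * (D * k.trace - 2 * a' * D) * a2 + 8 * (D * k.trace -
            2 * (u * u' - n * w * w')) * a1 + 16 * n * w' ^ 2 * n0 + 16 * (u ^ 2 - k.det * D) * n3)]
    simp [h2, hη, sub_eq_zero]
  have z1 : k.trace = 2 * a ∨ k.trace = 2 * a' → ∃ y, k.trace ^ 2 - 4 * k.det = n * (2 * y) ^ 2 ∧
      (y = 0 → (w = 0 ↔ w' = 0)) ∧ (w = 0 → w' = 0 → y = 0) := by
    rintro (e | e)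
    · refine ⟨b, by rw [e, n1]; ring, fun hb => ?_, fun h h' => mul_right_cancel₀ (u1 h')
        (by linear_combination h - hw' - a * h')⟩
      have : a ≠ 0 := fun h => hk (by rw [n1, h, hb]; ring)
      simp [hw', hb, this]
    · refine ⟨b', by rw [e, n2]; ring, fun hb => ?_, fun h h' => mul_right_cancel₀ (u1 h')
        (by linear_combination h + hw + a' * h')⟩
      have : a' ≠ 0 := fun h => hk (by rw [n2, h, hb]; ring)
      simp [← hw, hb, this]
  have t21 : w = 0 ∨ w' = 0 → (k.trace = 2 * a' ↔ k.trace = 2 * a) := fun e => by rw [y1 e]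
  rw [c1, c2]
  simp only [d1, d2]
  have x5 : w' = 0 → (Sc (u' • k) ↔ Sc k) := fun h => sc _ (u1 h)
  simp +contextual only [x1, x2, x3, x4, x5, if_true, true_and]
  by_cases hs : Sc k
  · have hΔ' : k.trace ^ 2 - 4 * k.det = 0 := by rw [← hΔ, hs.1, hs.2.2]; ring
    rw [hΔ', mul_zero, zero_mul, sq_eq_zero_iff, mul_eq_zero, or_iff_right h2] at fL
    have z2 : k.trace = 2 * a ∨ k.trace = 2 * a' → (w = 0 ↔ w' = 0) := fun h => by
      obtain ⟨y, e1, e2, -⟩ := z1 h
      exact e2 (by simpa [hΔ', hn, h2] using e1)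
    simp only [hs.1, hs.2.1, hs.2.2, mul_zero, add_zero, eq_comm (a := (0 : F)), fL, hΔ']
    have qc := quadric_count hK (u' ^ 2 - D)
    rw [c1] at qc
    rcases Classical.propComplete (w' = 0) with p1 | p1 <;>
      rcases Classical.propComplete (w = 0) with p2 | p2 <;>
      rcases Classical.propComplete (k.trace = 2 * a) with T1 | T1 <;>
      rcases Classical.propComplete (k.trace = 2 * a') with T2 | T2 <;>
      simp only [p1, p2, T1, T2, eq_true hs, and_true, and_false, or_true, or_false, qc,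
        imp_false, true_imp_iff, iff_true, iff_false, not_true, if_true, if_false]
        at y2 t21 z2 ⊢ <;> simp <;> ring
  · rw [plane_count hK _ _ hs, hΔ, quad_sum hK, c1]
    simp only [fL]
    have z2 : k.trace = 2 * a ∨ k.trace = 2 * a' → (if k.trace ^ 2 - 4 * k.det = 0 then
        if w' = 0 then 0 else quadraticChar F n else quadraticChar F (k.trace ^ 2 - 4 * k.det)) =
        if w = 0 ∧ w' = 0 then 0 else quadraticChar F n := fun h => by
      obtain ⟨y, e1, e2, e3⟩ := z1 h
      rw [e1, c0]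
      by_cases hy : y = 0
      · simp [hy, e2 hy]
      · simp [hy, hn, h2, show ¬(w = 0 ∧ w' = 0) from fun h => hy (e3 h.1 h.2)]
    simp +contextual only [z2]
    rcases Classical.propComplete (w' = 0) with p1 | p1 <;>
      rcases Classical.propComplete (w = 0) with p2 | p2 <;>
      rcases Classical.propComplete (k.trace = 2 * a) with T1 | T1 <;>
      rcases Classical.propComplete (k.trace = 2 * a') with T2 | T2 <;>
      simp only [p1, p2, T1, T2, eq_false hs, and_true, and_false, or_true, or_false,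
        imp_false, true_imp_iff, iff_true, iff_false, not_true, if_true, if_false]
        at y2 t21 ⊢ <;> simp <;> ring

end Pool.Agent.P.MP_9484ad_co
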