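import Mathlib
import Pool.Agent.P.MP_9484ad_co.SosLayer

namespace Pool.Agent.P.MP_9484ad_co

open Finset

theorem not_main_of_hard
    (H : ∀ δ : ℝ, 0 < δ → ∃ C : ℝ, 0 ≤ C ∧ ∀ n : ℕ, ∃ (p : ℕ) (_ : Fact p.Prime), n ≤ p ∧
      p % 4 = 1 ∧ Hard (ZMod p) (C * (p : ℝ) ^ (3 / 2 + δ)) C) :
    ¬ (∃ ε : ℝ, 0 < ε ∧ ∃ C : ℝ, 0 < C ∧
      ∀ (p : ℕ) [NeZero p], p.Prime → p % 4 = 1 →
        ∀ y : Finset (ZMod p) → ℝ,
          y ∅ = 1 →
          (∀ S : Finset (ZMod p), S.card ≤ 4 →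
              (∃ a ∈ S, ∃ b ∈ S, a ≠ b ∧ ¬ IsSquare (a - b)) → y S = 0) →
          (∀ c : Finset (ZMod p) → ℝ, (∀ S : Finset (ZMod p), 2 < S.card → c S = 0) →
              0 ≤ ∑ S : Finset (ZMod p), ∑ T : Finset (ZMod p), c S * c T * y (S ∪ T)) →
          ∑ i : ZMod p, y {i} ≤ C * (p : ℝ) ^ ((1 : ℝ) / 2 - ε)) := by
  rintro ⟨ε, hε, D, hD, h⟩
  obtain ⟨C, hC, H⟩ := H ε hε
  have t : ∀ a : ℝ, 0 < a → ∀ᶠ n : ℕ in Filter.atTop, 40 + 10 * C + D ≤ (n : ℝ) ^ a := fun a ha =>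
    ((tendsto_rpow_atTop ha).comp tendsto_natCast_atTop_atTop).eventually_ge_atTop _
  obtain ⟨n, hn⟩ := Filter.eventually_atTop.1 ((t (ε / 2) (by positivity)).and (t (1 / 2) (by simp)))
  obtain ⟨p, hp, hnp, h4, H⟩ := H n
  obtain ⟨hs, hr⟩ := hn p hnp
  have p0 : (0 : ℝ) < p := by exact_mod_cast hp.out.pos
  set s := (p : ℝ) ^ (ε / 2) with hsd
  set r := (p : ℝ) ^ (1 / 2 : ℝ) with hrd
  have s0 : 0 < s := by positivity
  have r0 : 0 < r := by positivity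
  have hq : r ^ 2 = p := by rw [hrd, ← Real.rpow_natCast, ← Real.rpow_mul p0.le]; norm_num
  have e1 : (p : ℝ) ^ (3 / 2 + ε) = r ^ 3 * s ^ 2 := by
    rw [hrd, hsd, ← Real.rpow_natCast, ← Real.rpow_natCast, ← Real.rpow_mul p0.le,
      ← Real.rpow_mul p0.le, ← Real.rpow_add p0]
    congr 1; push_cast; ring
  have e2 : (p : ℝ) ^ (1 / 2 - ε) = r / s ^ 2 := by
    rw [hrd, hsd, ← Real.rpow_natCast, ← Real.rpow_mul p0.le, ← Real.rpow_sub p0]
    congr 1; push_cast; ring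
  have e3 : 1 / (r * s) * r = 1 / s := by field_simp
  have hK : ringChar (ZMod p) ≠ 2 := by rw [ZMod.ringChar_zmod_n]; omega
  have h1 : IsSquare (-1 : ZMod p) := ZMod.exists_sq_eq_neg_one_iff.2 (by omega)
  have := h p hp.out h4 (mom (1 / (r * s)) (2 * C)) mom_empty
    (fun S _ ⟨a, ha, b, hb, hab, hsq⟩ => mom_nonedge ha hb hab fun e => hsq
      ((quadraticChar_one_iff_isSquare (sub_ne_zero.2 hab)).1 (by
        rw [sg] at e; exact_mod_cast e)))
    (sos_layer (r := r) (B := C * (p : ℝ) ^ (3 / 2 + ε)) hK h1 (by linarith) (by simpa using hq)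
      (by positivity) (by positivity) (by linarith)
      (by rw [e3]; exact one_div_le_one_div_of_le (by norm_num) (by linarith))
      (by rw [e3, mul_one_div, div_le_one s0]; linarith)
      (by
        rw [e1, show (1 / (r * s)) ^ 3 * (C * (r ^ 3 * s ^ 2)) = C / s by field_simp,
          div_le_iff₀ s0]
        linarith)
      (by simpa using H))
  simp only [mom_one, sum_const, card_univ, ZMod.card, nsmul_eq_mul] at this
  rw [e2, ← hq, show r ^ 2 * (1 / (r * s)) = s * (r / s ^ 2) by field_simp] at this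
  have := le_of_mul_le_mul_right this (by positivity)
  linarith

end Pool.Agent.P.MP_9484ad_co
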