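import Pool.Agent.P.MP_9484ad_co.Iface
import Pool.Agent.P.MP_9484ad_co.SosFinal

/-! Definitions for the diagonalisation of the three kernels. -/

namespace Pool.Agent.P.MP_9484ad_co

open Finset

noncomputable section

variable {F : Type*} [Field F] [Fintype F] [DecidableEq F]

/-- the algebra `F [√n]` -/
abbrev QA (n : F) : Type _ := QuadraticAlgebra F n 0

instance (n : F) : Fintype (QA n) := Fintype.ofEquiv _ (QuadraticAlgebra.equivProd n 0).symm

omit [DecidableEq F] in
theorem sum_QA {M : Type*} [AddCommMonoid M] {n : F} (f : QA n → M) :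
    ∑ ξ, f ξ = ∑ u, ∑ v, f ⟨u, v⟩ := by
  rw [← (QuadraticAlgebra.equivProd n 0).symm.sum_comp, Fintype.sum_prod_type]
  rfl

omit [Fintype F] [DecidableEq F] in
theorem norm_QA {n : F} (ξ : QA n) : ξ.norm = ξ.re ^ 2 - n * ξ.im ^ 2 := by
  rw [QuadraticAlgebra.norm_def]; ring

theorem chi_apply (z : F) : chi F z = (quadraticChar F z : ℂ) := by
  rw [chi, MulChar.ringHomComp_apply, eq_intCast]
  congr
  exact Subsingleton.elim _ _

theorem sg_chi (a b : F) : (sg a b : ℂ) = chi F (a - b) := by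
  rw [chi_apply, sg]; simp

/-- the Legendre sum -/
def leg (c : F) : ℝ := ∑ x, sg x 0 * sg x 1 * sg x c

/-- a hypergeometric sum of rank two -/
def Bk (κ : MulChar F ℂ) (c : F) : ℂ := ∑ x ∈ univ.erase 0, κ (1 - x) * κ (1 - c / x)

/-- the eigenvalue sums -/
def EE (κ : MulChar F ℂ) {n : F} (X : MulChar (QA n) ℂ) : ℂ :=
  ∑ ζ : QA n, X ζ * (chi F (1 - ζ).norm * Bk κ (1 - ζ).norm)

/-- `X` restricts to `τ` on the scalars -/
def Res {n : F} (X : MulChar (QA n) ℂ) (τ : MulChar F ℂ) : Prop :=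
  ∀ z : F, X (algebraMap F (QA n) z) = τ z

/-- a bound for the three families of eigenvalue sums -/
def EEB (n : F) (e : ℝ) : Prop :=
  ∀ (X : MulChar (QA n) ℂ) (κ τ : MulChar F ℂ), Res X τ →
    (κ = chi F ∧ (τ = 1 ∨ τ = chi F)) ∨ (κ * κ = chi F ∧ τ = chi F) → ‖EE κ X‖ ≤ e

/-- a bound for the transforms of a function of trace and determinant along a torus -/
def EigB (n : F) (τ : MulChar F ℂ) (G : F → F → ℝ) (e : ℝ) : Prop :=
  ∀ X : MulChar (QA n) ℂ, Res X τ → ‖∑ ξ : QA n, X ξ * (G (2 * ξ.re) ξ.norm : ℂ)‖ ≤ e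

/-- the class function for the bowtie and the fan -/
def gB (s D : F) : ℝ := sg (D - s + 1) 0 * leg (D - s + 1)

/-- the class function for the wheel -/
def gW (s D : F) : ℝ := ∑ m, sg m 0 * sg m 1 * leg m * sg (s ^ 2) (4 * m * D)

/-- the average of a centred class function over the diagonal torus -/
def Cl (t : F → ℝ) (G : F → F → ℝ) (α δ D : F) : ℝ :=
  ∑ l ∈ univ.erase 0, ∑ u, t u *
    (G (α * l + δ * u) (D * l * u) - (∑ s, G s (D * l * u)) / Fintype.card F)

/-- the kernel on ordered pairs given by a class function -/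
def ClK (t : F → ℝ) (G : F → F → ℝ) (a b c d : F) : ℝ :=
  Cl t G ((c - b) / (a - b)) ((a - d) / (a - b)) ((c - d) / (a - b))

theorem sq_count (hK : ringChar F ≠ 2) (a : F) :
    (∑ x : F, if x ^ 2 = a then (1 : ℤ) else 0) = 1 + quadraticChar F a := by
  have := quadraticChar_card_sqrts hK a
  rw [add_comm, ← this]
  simp

omit [DecidableEq F] in
theorem sum_aff {M : Type*} [AddCommMonoid M] (f : F → M) {a : F} (ha : a ≠ 0) (b : F) :
    ∑ x, f (a * x + b) = ∑ x, f x :=
  ((Equiv.mulLeft₀ a ha).trans (Equiv.addRight b)).sum_comp f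

theorem root_count (hK : ringChar F ≠ 2) {A : F} (hA : A ≠ 0) (L C : F) :
    (∑ x : F, if A * x ^ 2 - L * x + C = 0 then (1 : ℤ) else 0) =
      1 + quadraticChar F (L ^ 2 - 4 * A * C) := by
  have h2 : (2 : F) ≠ 0 := Ring.two_ne_zero hK
  rw [← sq_count hK, eq_comm, ← sum_aff _ (mul_ne_zero h2 hA) (-L), eq_comm]
  refine sum_congr rfl fun x _ => if_congr ⟨fun h => ?_, fun h => ?_⟩ rfl rfl
  · linear_combination 4 * A * h
  · refine mul_left_cancel₀ (mul_ne_zero (mul_ne_zero h2 h2) hA) ?_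
    linear_combination h

theorem sum_comp_sq (hK : ringChar F ≠ 2) (f : F → ℤ) :
    ∑ y, f (y ^ 2) = ∑ v, (1 + quadraticChar F v) * f v := by
  simp only [← sq_count hK, sum_mul]
  rw [sum_comm]
  simp

open Classical in
/-- the value of a complete quadratic character sum -/
theorem quad_sum (hK : ringChar F ≠ 2) (A L C : F) :
    ∑ c, quadraticChar F (A * c ^ 2 - L * c + C) = -quadraticChar F A +
      if L ^ 2 = 4 * A * C then
        Fintype.card F * (if A = 0 then quadraticChar F C else quadraticChar F A) else 0 := by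
  have h2 : (2 : F) ≠ 0 := Ring.two_ne_zero hK
  by_cases hA : A = 0
  · subst hA
    by_cases hL : L = 0
    · simp [hL]
    · have := sum_aff (quadraticChar F) (neg_ne_zero.2 hL) C
      rw [quadraticChar_sum_zero hK] at this
      simpa [hL] using this
  have e : ∀ c, quadraticChar F (A * c ^ 2 - L * c + C) =
      quadraticChar F A * quadraticChar F ((2 * A * c + -L) ^ 2 - (L ^ 2 - 4 * A * C)) := fun c => by
    rw [← map_mul, show A * ((2 * A * c + -L) ^ 2 - (L ^ 2 - 4 * A * C)) =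
      (2 * A) ^ 2 * (A * c ^ 2 - L * c + C) by ring, map_mul _ ((2 * A) ^ 2),
      quadraticChar_sq_one' (mul_ne_zero h2 hA), one_mul]
  simp only [e, ← mul_sum, if_neg hA]
  rw [sum_aff (fun y => quadraticChar F (y ^ 2 - (L ^ 2 - 4 * A * C))) (mul_ne_zero h2 hA),
    sum_comp_sq hK fun v => quadraticChar F (v - (L ^ 2 - 4 * A * C))]
  have := sum_aff (quadraticChar F) one_ne_zero (-(L ^ 2 - 4 * A * C))
  have g := sg_gram hK (0 : F) (L ^ 2 - 4 * A * C)
  simp only [quadraticChar_sum_zero hK, one_mul, ← sub_eq_add_neg] at this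
  simp only [sg, sub_zero, eq_comm (a := (0 : F)), sub_eq_zero] at g
  simp only [add_mul, one_mul, sum_add_distrib, this, zero_add]
  rw [show ∑ v, quadraticChar F v * quadraticChar F (v - (L ^ 2 - 4 * A * C)) =
    (if L ^ 2 = 4 * A * C then (Fintype.card F : ℤ) else 0) - 1 by exact_mod_cast g]
  split_ifs <;> ring

/-- elements with given trace and norm -/
theorem count_QA (hK : ringChar F ≠ 2) {n : F} (hn : n ≠ 0) (s D : F) :
    (∑ ξ : QA n, if 2 * ξ.re = s ∧ ξ.norm = D then (1 : ℤ) else 0) =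
      1 + quadraticChar F n * quadraticChar F (s ^ 2 - 4 * D) := by
  have h2 : (2 : F) ≠ 0 := Ring.two_ne_zero hK
  rw [sum_QA, sum_eq_single (s / 2) (fun u _ hu => sum_eq_zero fun v _ => if_neg fun h =>
    hu (eq_div_of_mul_eq h2 (by linear_combination h.1))) (by simp), ← map_mul,
    show n * (s ^ 2 - 4 * D) = 0 ^ 2 - 4 * n * (D - (s / 2) ^ 2) by field_simp; ring,
    ← root_count hK hn]
  refine sum_congr rfl fun v _ => if_congr ?_ rfl rfl
  simp only [norm_QA, mul_div_cancel₀ s h2, true_and]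
  constructor <;> intro h <;> linear_combination -h

end

end Pool.Agent.P.MP_9484ad_co
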