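import Pool.Agent.P.MP_9484ad_co.DiagDefs
import Pool.Agent.P.MP_9484ad_co.Special

/-! Gauss sums, Jacobi sums and Mellin expansions. -/

namespace Pool.Agent.P.MP_9484ad_co

open Finset

section

variable {M : Type*} [CommMonoid M] [Fintype M] [DecidableEq M]

/-- orthogonality over the characters of a finite commutative monoid -/
theorem sum_mulChar (a : M) :
    ∑ X : MulChar M ℂ, X a = if a = 1 then (Nat.card Mˣ : ℂ) else 0 := by
  split_ifs with ht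
  · subst ht
    simp only [MulChar.map_one, Finset.sum_const, nsmul_eq_mul, mul_one, Finset.card_univ]
    rw [← Nat.card_eq_fintype_card, MulChar.card_eq_card_units_of_hasEnoughRootsOfUnity M ℂ]
  · obtain ⟨σ, hσ⟩ := MulChar.exists_apply_ne_one_of_hasEnoughRootsOfUnity M ℂ ht
    have e : ∑ ρ : MulChar M ℂ, ρ a = ∑ ρ : MulChar M ℂ, (σ * ρ) a :=
      (Equiv.sum_comp (Equiv.mulLeft σ) fun ρ : MulChar M ℂ => ρ a).symm
    simp_rw [MulChar.mul_apply, ← Finset.mul_sum] at e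
    have : (1 - σ a) * ∑ ρ : MulChar M ℂ, ρ a = 0 := by linear_combination e
    exact (mul_eq_zero.1 this).resolve_left (sub_ne_zero.2 hσ.symm)

theorem norm_mulChar_le (X : MulChar M ℂ) (a : M) : ‖X a‖ ≤ 1 := by
  by_cases hx : IsUnit a
  · obtain ⟨u, rfl⟩ := hx
    have h : X u ^ Nat.card Mˣ = 1 := by
      rw [← map_pow, ← Units.val_pow_eq_pow_val, pow_card_eq_one', Units.val_one, MulChar.map_one]
    exact (Complex.norm_eq_one_of_pow_eq_one h Nat.card_pos.ne').le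
  · simp [MulChar.map_nonunit _ hx]

end

variable {F : Type*} [Field F] [Fintype F] [DecidableEq F]

theorem norm_gauss_le {ψ : AddChar F ℂ} (hψ : ψ.IsPrimitive) (ρ : MulChar F ℂ) :
    ‖gaussSum ρ ψ‖ ≤ √(Fintype.card F) := by
  by_cases h : ρ = 1
  · have h1 : ψ ≠ 1 := by simpa using hψ one_ne_zero
    rw [h, gaussSum_one_left h1, norm_neg, norm_one]
    exact special_one_le_sqrt
  · exact (special_norm_gauss hψ h).le

theorem norm_jacobi_le {ρ σ : MulChar F ℂ} (h : ρ ≠ 1 ∨ σ ≠ 1) :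
    ‖jacobiSum ρ σ‖ ≤ √(Fintype.card F) := by
  have hψ := AddChar.FiniteField.primitiveChar_to_Complex_isPrimitive F
  rcases h with h | h
  · exact special_norm_jacobi hψ h σ
  · rw [jacobiSum_comm]; exact special_norm_jacobi hψ h ρ

theorem jacobi_eq_gauss {ψ : AddChar F ℂ} (hψ : ψ.IsPrimitive) {ρ σ : MulChar F ℂ}
    (h : ρ * σ ≠ 1) : Fintype.card F * jacobiSum ρ σ =
      (ρ * σ) (-1) * gaussSum ρ ψ * gaussSum σ ψ * gaussSum (ρ * σ)⁻¹ ψ := by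
  have h1 := jacobiSum_mul_nontrivial h ψ
  have h2 := gaussSum_mul_gaussSum_eq_card h hψ
  have h3 := mul_gaussSum_inv_eq_gaussSum (ρ * σ)⁻¹ ψ
  have h4 : (ρ * σ) (-1) * (ρ * σ)⁻¹ (-1) = 1 := by
    rw [← MulChar.mul_apply, mul_inv_cancel, MulChar.one_apply isUnit_one.neg]
  rw [← h2, ← h3]
  linear_combination gaussSum (ρ * σ)⁻¹ ψ⁻¹ * h1 -
    gaussSum ρ ψ * gaussSum σ ψ * gaussSum (ρ * σ)⁻¹ ψ⁻¹ * h4

theorem chi_mul_Bk (κ : MulChar F ℂ) (c : F) :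
    ((Fintype.card F : ℂ) - 1) * (chi F c * Bk κ c) =
      ∑ ρ : MulChar F ℂ, ρ c * jacobiSum (chi F * ρ⁻¹) κ ^ 2 := by
  classical
  have e : ∀ ρ : MulChar F ℂ, ρ c * jacobiSum (chi F * ρ⁻¹) κ ^ 2 =
      ∑ x, ∑ y, chi F (x * y) * κ (1 - x) * κ (1 - y) * ρ (c * (x * y)⁻¹) := fun ρ => by
    rw [sq, jacobiSum, sum_mul_sum, mul_sum]
    refine sum_congr rfl fun x _ => ?_
    rw [mul_sum]
    refine sum_congr rfl fun y _ => ?_
    simp only [MulChar.mul_apply, MulChar.inv_apply', mul_inv, map_mul]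
    ring
  simp only [e]
  rw [sum_comm, ← sum_erase (a := 0) _ (by simp [MulChar.map_zero]), Bk, mul_sum, mul_sum]
  refine sum_congr rfl fun x hx => ?_
  have x0 : x ≠ 0 := ne_of_mem_erase hx
  rw [sum_comm]
  simp only [← mul_sum, special_orth]
  by_cases hc : c = 0
  · simp [hc, MulChar.map_zero]
  rw [sum_eq_single (c / x)]
  · rw [mul_div_cancel₀ c x0, mul_inv_cancel₀ hc, if_pos rfl]; ring
  · intro y _ hy
    rw [if_neg, mul_zero]
    intro h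
    apply hy
    have : x * y ≠ 0 := fun h0 => by simp [h0] at h
    rw [mul_inv_eq_one₀ this] at h
    rw [h]; field_simp
  · simp

/-- The estimate common to both tori: `j ρ` is the Jacobi sum on the torus, `g ρ` the Gauss sum
which replaces it outside at most two characters. -/
theorem mellin_bound (h1 : IsSquare (-1 : F)) {ψ : AddChar F ℂ} (hψ : ψ.IsPrimitive)
    {κ : MulChar F ℂ} (hκ : κ = chi F ∨ κ * κ = chi F) (hK : ringChar F ≠ 2)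
    (j g : MulChar F ℂ → ℂ) {c : ℂ} (hc : ‖c‖ ≤ Fintype.card F) (s : Finset (MulChar F ℂ))
    (hs : s.card ≤ 2) (hg : ∀ ρ, ‖g ρ‖ ≤ Fintype.card F)
    (hj : ∀ ρ, ρ ∉ s → (Fintype.card F : ℂ) ^ 2 * j ρ = c * g ρ * gaussSum ρ ψ ^ 2)
    (hj' : ∀ ρ, ‖jacobiSum (chi F * ρ⁻¹) κ ^ 2 * j ρ‖ ≤ (Fintype.card F : ℝ) ^ 2) {C : ℝ}
    (H : ‖∑ ρ, g ρ * gaussSum (chi F * ρ⁻¹) ψ ^ 2 * gaussSum ρ ψ ^ 2 *
      gaussSum (κ⁻¹ * chi F * ρ) ψ ^ 2‖ ≤ C * √(Fintype.card F) ^ 9) :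
    ‖∑ ρ, jacobiSum (chi F * ρ⁻¹) κ ^ 2 * j ρ‖ ≤
      (Fintype.card F - 1) * ((2 * C + 8) * √(Fintype.card F) ^ 3) := by
  classical
  set r := √(Fintype.card F) with hr
  have hq : r ^ 2 = Fintype.card F := Real.sq_sqrt (by positivity)
  have q3 : (3 : ℝ) ≤ r ^ 2 := by
    have h1 := FiniteField.odd_card_of_char_ne_two hK
    have h2 : 1 < Fintype.card F := Fintype.one_lt_card
    rw [hq]
    exact_mod_cast (by omega : 3 ≤ Fintype.card F)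
  have r1 : 1 ≤ r := special_one_le_sqrt
  have r0 : 0 < r := by linarith
  have q0 : (Fintype.card F : ℂ) ≠ 0 := special_card_ne
  set T : MulChar F ℂ → ℂ := fun ρ => g ρ * gaussSum (chi F * ρ⁻¹) ψ ^ 2 * gaussSum ρ ψ ^ 2 *
      gaussSum (κ⁻¹ * chi F * ρ) ψ ^ 2 with hT
  set u : ℂ := gaussSum κ ψ ^ 2 * c / (Fintype.card F : ℂ) ^ 4 with hu
  have nu : ‖u‖ * r ^ 4 ≤ 1 := by
    rw [hu, norm_div, norm_mul, norm_pow, norm_pow, Complex.norm_natCast, ← hq,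
      div_mul_eq_mul_div, div_le_one (by positivity)]
    have := norm_gauss_le hψ κ
    rw [← hq] at hc
    calc ‖gaussSum κ ψ‖ ^ 2 * ‖c‖ * r ^ 4 ≤ r ^ 2 * r ^ 2 * r ^ 4 := by gcongr
      _ = _ := by ring
  have nT : ∀ ρ, ‖T ρ‖ ≤ r ^ 8 := fun ρ => by
    have a1 := norm_gauss_le hψ (chi F * ρ⁻¹)
    have a2 := norm_gauss_le hψ ρ
    have a3 := norm_gauss_le hψ (κ⁻¹ * chi F * ρ)
    have a4 := hg ρ
    rw [← hq] at a4
    simp only [hT, norm_mul, norm_pow]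
    calc _ ≤ r ^ 2 * r ^ 2 * r ^ 2 * r ^ 2 := by gcongr
      _ = _ := by ring
  have ci : (chi F)⁻¹ = chi F := inv_eq_of_mul_eq_one_right special_chi_mul_chi
  have key : ∀ ρ, ρ ∉ insert (chi F * κ) s →
      jacobiSum (chi F * ρ⁻¹) κ ^ 2 * j ρ - u * T ρ = 0 := fun ρ hρ => by
    rw [mem_insert, not_or] at hρ
    have hne : chi F * ρ⁻¹ * κ ≠ 1 := fun h => hρ.1 (by
      rw [mul_right_comm, mul_inv_eq_one] at h; exact h.symm)
    have b1 := jacobi_eq_gauss hψ hne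
    have b2 := hj ρ hρ.2
    have b3 : (chi F * ρ⁻¹ * κ)⁻¹ = κ⁻¹ * chi F * ρ := by
      rw [mul_inv, mul_inv, inv_inv, ci, mul_comm, mul_assoc]
    have b4 : (chi F * ρ⁻¹ * κ) (-1) ^ 2 = 1 := by rw [← map_pow]; simp
    rw [b3] at b1
    have b5 : ((Fintype.card F : ℂ) * jacobiSum (chi F * ρ⁻¹) κ) ^ 2 =
        gaussSum (chi F * ρ⁻¹) ψ ^ 2 * gaussSum κ ψ ^ 2 * gaussSum (κ⁻¹ * chi F * ρ) ψ ^ 2 := by
      rw [b1, mul_pow, mul_pow, mul_pow, b4, one_mul]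
    rw [sub_eq_zero, hu, div_mul_eq_mul_div, eq_div_iff (pow_ne_zero _ q0), hT]
    linear_combination ((Fintype.card F : ℂ) ^ 2 * j ρ) * b5 +
      gaussSum (chi F * ρ⁻¹) ψ ^ 2 * gaussSum κ ψ ^ 2 * gaussSum (κ⁻¹ * chi F * ρ) ψ ^ 2 * b2
  have e : ∑ ρ, jacobiSum (chi F * ρ⁻¹) κ ^ 2 * j ρ = u * ∑ ρ, T ρ +
      ∑ ρ ∈ insert (chi F * κ) s, (jacobiSum (chi F * ρ⁻¹) κ ^ 2 * j ρ - u * T ρ) := by
    rw [sum_subset (subset_univ _) fun ρ _ h => key ρ h, sum_sub_distrib, ← mul_sum]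
    ring
  have c3 : ((insert (chi F * κ) s).card : ℝ) ≤ 3 := by
    exact_mod_cast (card_insert_le _ _).trans (by omega)
  have n2 : ‖∑ ρ ∈ insert (chi F * κ) s, (jacobiSum (chi F * ρ⁻¹) κ ^ 2 * j ρ - u * T ρ)‖ ≤
      3 * (2 * r ^ 4) := by
    refine (norm_sum_le _ _).trans ((sum_le_card_nsmul _ _ (2 * r ^ 4) fun ρ _ => ?_).trans ?_)
    · refine (norm_sub_le _ _).trans ?_
      have d1 := hj' ρ
      rw [← hq] at d1
      have d2 : ‖u * T ρ‖ ≤ r ^ 4 := by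
        rw [norm_mul]
        calc ‖u‖ * ‖T ρ‖ ≤ ‖u‖ * r ^ 8 := by gcongr; exact nT ρ
          _ = ‖u‖ * r ^ 4 * r ^ 4 := by ring
          _ ≤ 1 * r ^ 4 := by gcongr
          _ = _ := one_mul _
      nlinarith
    · rw [nsmul_eq_mul]; gcongr
  have C0 : 0 ≤ C := by
    have := (norm_nonneg _).trans H
    exact nonneg_of_mul_nonneg_left this (by positivity)
  have n1 : ‖u * ∑ ρ, T ρ‖ ≤ C * r ^ 5 := by
    rw [norm_mul]
    calc ‖u‖ * ‖∑ ρ, T ρ‖ ≤ ‖u‖ * (C * r ^ 9) := by gcongr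
      _ = ‖u‖ * r ^ 4 * (C * r ^ 5) := by ring
      _ ≤ 1 * (C * r ^ 5) := by gcongr
      _ = _ := one_mul _
  rw [e, ← hq]
  refine (norm_add_le _ _).trans ((add_le_add n1 n2).trans ?_)
  have f1 : 0 ≤ C * r ^ 3 * (r ^ 2 - 2) := by
    have : 0 ≤ r ^ 2 - 2 := by linarith
    positivity
  have f2 : 0 ≤ r ^ 3 * (8 * r ^ 2 - 8 - 6 * r) := by
    have : 0 ≤ 8 * r ^ 2 - 8 - 6 * r := by nlinarith [sq_nonneg (r - 2)]
    positivity
  nlinarith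

end Pool.Agent.P.MP_9484ad_co
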