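import Pool.Agent.P.MP_9484ad_co.DiagCount
import Pool.Agent.P.MP_9484ad_co.DiagJac

/-! Positive definite class functions on `GL₂`. -/

namespace Pool.Agent.P.MP_9484ad_co

open Finset Matrix

variable {F : Type*} [Field F] [Fintype F] [DecidableEq F] {n : F}

theorem sum_tr_nm (hK : ringChar F ≠ 2) (hn : n ≠ 0) {R : Type*} [CommRing R] (H : F → F → R) :
    ∑ ξ : QA n, H (2 * ξ.re) ξ.norm = ∑ s, ∑ D,
      ((1 + quadraticChar F n * quadraticChar F (s ^ 2 - 4 * D) : ℤ) : R) * H s D := by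
  simp only [← count_QA hK hn, Int.cast_sum, sum_mul]
  rw [eq_comm, sum_congr rfl fun s _ => sum_comm, sum_comm]
  refine sum_congr rfl fun ξ _ => ?_
  simp [ite_and]

theorem sum_mul_vv (hK : ringChar F ≠ 2) (hn : n ≠ 0) {R : Type*} [CommRing R] (G : F → F → R)
    (k : Matrix (Fin 2) (Fin 2) F) :
    ∑ ξ : QA n, G (2 * ξ.re) ξ.norm * (vv ξ k : R) = (quadraticChar F n : R) *
      (Fintype.card F * ((1 + quadraticChar F n * quadraticChar F (k.trace ^ 2 - 4 * k.det) : ℤ) *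
        G k.trace k.det) - ∑ s, ((1 + quadraticChar F n *
          quadraticChar F (s ^ 2 - 4 * k.det) : ℤ) : R) * G s k.det) +
      Fintype.card F ^ 2 * if Sc k then G k.trace k.det else 0 := by
  unfold vv
  rw [sum_tr_nm hK hn fun s D => G s D * ((quadraticChar F n * ca s D k +
    Fintype.card F ^ 2 * cz s D k : ℤ) : R)]
  rw [sum_congr rfl fun s _ => sum_eq_single k.det (fun D _ h => by simp [ca, cz, h.symm]) (by simp)]
  have e : ∀ s, ((1 + quadraticChar F n * quadraticChar F (s ^ 2 - 4 * k.det) : ℤ) : R) *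
      (G s k.det * ((quadraticChar F n * ca s k.det k +
        Fintype.card F ^ 2 * cz s k.det k : ℤ) : R)) = (if k.trace = s then
      ((1 + quadraticChar F n * quadraticChar F (s ^ 2 - 4 * k.det) : ℤ) : R) * G s k.det *
        (quadraticChar F n * Fintype.card F + Fintype.card F ^ 2 * if Sc k then 1 else 0) else 0) -
      quadraticChar F n * (((1 + quadraticChar F n * quadraticChar F (s ^ 2 - 4 * k.det) : ℤ) : R) *
        G s k.det) := fun s => by
    by_cases h : k.trace = s <;> by_cases h' : Sc k <;> simp [ca, cz, h, h'] <;> ring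
  simp only [e, sum_sub_distrib, sum_ite_eq, mem_univ, if_true, ← mul_sum]
  by_cases h : Sc k
  · have : k.trace ^ 2 - 4 * k.det = 0 := by
      rw [trace_fin_two, det_fin_two, h.1]
      linear_combination (k 0 0 - k 1 1) * h.2.2
    simp [h, this]; ring
  · simp [h]; ring

theorem sum_sq_sub (hK : ringChar F ≠ 2) {D : F} (hD : D ≠ 0) :
    ∑ s : F, quadraticChar F (s ^ 2 - 4 * D) = -1 := by
  have h2 : (2 : F) ≠ 0 := Ring.two_ne_zero hK
  have h4 : (4 : F) ≠ 0 := fun h => mul_ne_zero h2 h2 (by linear_combination h)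
  simpa [h4, hD, ← sub_eq_add_neg] using quad_sum hK 1 0 (-(4 * D))

theorem sum_vv (hK : ringChar F ≠ 2) (hn : n ≠ 0) {k : Matrix (Fin 2) (Fin 2) F} (hk : k.det ≠ 0) :
    (∑ ξ : QA n, (if k.det = ξ.norm then 1 else 0) * vv ξ k) = rho k := by
  have := sum_mul_vv hK hn (fun _ D => if k.det = D then (1 : ℤ) else 0) k
  simp only [Int.cast_id, if_true, mul_one, sum_add_distrib, ← mul_sum, sum_sq_sub hK hk] at this
  rw [this, rho]
  simp only [sum_const, card_univ, nsmul_eq_mul]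
  linear_combination (Fintype.card F * quadraticChar F (k.trace ^ 2 - 4 * k.det) + 1) *
    quadraticChar_sq_one (F := F) hn

theorem ker_count (hK : ringChar F ≠ 2) (hn : n ≠ 0) :
    (∑ ξ : QA n, if ξ.norm = 1 then (1 : ℤ) else 0) = Fintype.card F - quadraticChar F n := by
  rw [sum_tr_nm hK hn fun _ D => if D = 1 then (1 : ℤ) else 0]
  simp only [Int.cast_id, mul_ite, mul_one, mul_zero, sum_ite_eq', mem_univ, if_true,
    sum_add_distrib, ← mul_sum]
  rw [show ∑ s : F, quadraticChar F (s ^ 2 - 4) = -1 by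
    simpa only [mul_one] using sum_sq_sub hK (one_ne_zero (α := F))]
  simp [sub_eq_add_neg]

/-- the characters of `GL₂` attached to characters of a torus, up to a factor -/
noncomputable def ee (X : MulChar (QA n) ℂ) (k : Matrix (Fin 2) (Fin 2) F) : ℂ :=
  ∑ ξ : QA n, X ξ * vv ξ k

theorem sum_units (X : MulChar (QA n) ℂ) (f : QA n → ℂ) :
    ∑ ξ, X ξ * f ξ = ∑ ξ : (QA n)ˣ, X ξ * f ξ :=
  (Fintype.sum_of_injective _ Units.val_injective _ _ (fun ξ h => by
    rw [X.map_nonunit fun ⟨u, e⟩ => h ⟨u, e⟩, zero_mul]) fun _ => rfl).symm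

omit [Fintype F] [DecidableEq F] in
theorem norm_unit (η : (QA n)ˣ) : (η : QA n).norm ≠ 0 :=
  (QuadraticAlgebra.isUnit_iff_norm_isUnit.1 η.isUnit).ne_zero

theorem conv_e (hK : ringChar F ≠ 2) (hn : n ≠ 0) (X : MulChar (QA n) ℂ) :
    ∃ c : ℝ, 0 < c ∧ ∀ k : Matrix (Fin 2) (Fin 2) F, k.det ≠ 0 →
      ∑ h, ee X (k * h) * star (ee X h) = c * ee X k := by
  have st : ∀ η, star (X η) = X⁻¹ η := fun η => by rw [← MulChar.star_eq_inv, MulChar.star_apply]
  have iv : ∀ η : (QA n)ˣ, X η * X⁻¹ η = 1 := fun η => by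
    rw [← MulChar.mul_apply, mul_inv_cancel, MulChar.one_apply_coe]
  set S := ∑ η : (QA n)ˣ, X (star η : (QA n)ˣ) * X⁻¹ η with hS
  set τ := ∑ ω : QA n, X ω * if ω.norm = 1 then 1 else 0 with hτ
  set U : ℂ := (Fintype.card (QA n)ˣ : ℂ) with hU
  have key : ∀ k : Matrix (Fin 2) (Fin 2) F, k.det ≠ 0 → ∑ h, ee X (k * h) * star (ee X h) =
      (Fintype.card F ^ 2 * (U + S) - Fintype.card F * U * τ) * ee X k := fun k hk => by
    have e1 : ∀ η : (QA n)ˣ, ∑ h, ee X (k * h) * (X⁻¹ η * vv (η : QA n) h) =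
        Fintype.card F ^ 2 * (ee X k + X (star η : (QA n)ˣ) * X⁻¹ η * ee X k) -
          Fintype.card F * (τ * ee X k) := fun η => by
      have e2 : ∀ h, ee X (k * h) = X η * ∑ ζ : QA n, X ζ * vv (ζ * (η : QA n)) (k * h) := fun h => by
        rw [ee, ← Equiv.sum_comp η.mulRight, mul_sum]
        exact sum_congr rfl fun ζ _ => by simp only [Units.mulRight_apply, map_mul]; ring
      have e3 : ∑ ζ : QA n, X ζ * vv (ζ * (η * (star η)⁻¹ : (QA n)ˣ) : QA n) k =
          X (star η : (QA n)ˣ) * X⁻¹ η * ee X k := by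
        rw [ee, ← Equiv.sum_comp (η * (star η)⁻¹)⁻¹.mulRight, mul_sum]
        refine sum_congr rfl fun ζ _ => ?_
        rw [Units.mulRight_apply, Units.inv_mul_cancel_right, map_mul, _root_.mul_inv_rev, inv_inv,
          Units.val_mul, map_mul, MulChar.inv_apply, Ring.inverse_unit]
        ring
      have e4 : ∑ ζ : QA n, X ζ * ((if k.det = ζ.norm then rho k else 0 : ℤ) : ℂ) = τ * ee X k := by
        rw [show ∑ ζ : QA n, X ζ * ((if k.det = ζ.norm then rho k else 0 : ℤ) : ℂ) =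
          (∑ ζ : QA n, X ζ * if k.det = ζ.norm then 1 else 0) * rho k by simp [sum_mul],
          ← sum_vv hK hn hk, ee, Int.cast_sum, mul_sum, mul_sum]
        refine sum_congr rfl fun ξ _ => ?_
        by_cases h : k.det = ξ.norm
        · obtain ⟨u, rfl⟩ := QuadraticAlgebra.isUnit_iff_norm_isUnit.2 (h ▸ hk).isUnit
          rw [← Equiv.sum_comp u.mulRight, hτ, sum_mul, sum_mul]
          refine sum_congr rfl fun ω _ => ?_
          simp [h, norm_unit u, mul_assoc]
        · simp [vv, ca, cz, h]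
      calc _ = ∑ ζ : QA n, X ζ * ((∑ h, vv (ζ * (η : QA n)) (k * h) * vv (η : QA n) h : ℤ) : ℂ) := by
            simp only [e2, Int.cast_sum, Int.cast_mul, mul_sum, sum_mul]
            rw [sum_comm]
            exact sum_congr rfl fun ζ _ => sum_congr rfl fun h _ => by
              linear_combination (X ζ * vv (ζ * (η : QA n)) (k * h) * vv (η : QA n) h) * iv η
        _ = _ := by
            rw [← e3, ← e4, ee]
            simp only [mul_sum, ← sum_add_distrib, ← sum_sub_distrib]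
            refine sum_congr rfl fun ζ _ => ?_
            rw [conv_v hK hn (ζ' := ζ * (η * (star η)⁻¹ : (QA n)ˣ)) (norm_unit η)
              (by rw [← Units.coe_star, mul_assoc, ← Units.val_mul, inv_mul_cancel_right]) hk]
            push_cast
            ring
    simp only [ee, star_sum, star_mul', st, star_intCast, sum_units X⁻¹, mul_sum]
    rw [sum_comm]
    simp only [← ee.eq_1, e1, sum_sub_distrib, sum_add_distrib, ← mul_sum, ← sum_mul]
    simp only [sum_const, card_univ, nsmul_eq_mul]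
    ring
  have q1 : (1 : ℝ) < Fintype.card F := by exact_mod_cast Fintype.one_lt_card
  have U0 : (0 : ℝ) < Fintype.card (QA n)ˣ := by exact_mod_cast Fintype.card_pos
  by_cases h : ∀ ω : (QA n)ˣ, (ω : QA n).norm = 1 → X ω = 1
  · have h1 : S = U := by
      have e : ∀ η : (QA n)ˣ, X (star η : (QA n)ˣ) * X⁻¹ η = 1 := fun η => by
        rw [MulChar.inv_apply, Ring.inverse_unit, ← map_mul, ← Units.val_mul]
        refine h _ (mul_right_cancel₀ (norm_unit η) ?_)
        rw [← map_mul, ← Units.val_mul, inv_mul_cancel_right, one_mul, Units.coe_star,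
          QuadraticAlgebra.norm_star]
      simp [hS, hU, e, -Units.coe_star]
    have h2 : τ = Fintype.card F - quadraticChar F n := by
      have := congrArg (Int.cast : ℤ → ℂ) (ker_count hK hn)
      push_cast at this
      rw [← this]
      refine sum_congr rfl fun ω _ => ?_
      split_ifs with e
      · obtain ⟨u, rfl⟩ := QuadraticAlgebra.isUnit_iff_norm_isUnit.2 (e ▸ isUnit_one)
        rw [h u e, one_mul]
      · simp
    refine ⟨Fintype.card F * Fintype.card (QA n)ˣ * (Fintype.card F + quadraticChar F n), ?_,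
      fun k hk => by rw [key k hk, h1, h2, hU]; push_cast; ring⟩
    rcases quadraticChar_dichotomy hn with e | e <;> rw [e] <;> push_cast <;>
      refine mul_pos (by positivity) (by linarith)
  · push Not at h
    obtain ⟨ω, h1, h2⟩ := h
    have h3 : τ = 0 := by
      refine eq_zero_of_mul_eq_self_left h2 ?_
      rw [hτ, mul_sum, eq_comm, ← Equiv.sum_comp ω.mulLeft]
      exact sum_congr rfl fun _ _ => by simp [h1]
    have h4 : S = U ∨ S = 0 := by
      by_cases e : ∀ η : (QA n)ˣ, X (star η : (QA n)ˣ) * X⁻¹ η = 1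
      · exact .inl (by simp [hS, hU, e, -Units.coe_star])
      · push Not at e
        obtain ⟨η, e⟩ := e
        refine .inr (eq_zero_of_mul_eq_self_left e ?_)
        rw [hS, mul_sum, eq_comm, ← Equiv.sum_comp (Equiv.mulLeft η)]
        exact sum_congr rfl fun _ _ => by simp [star_mul']; ring
    rcases h4 with e | e
    · exact ⟨Fintype.card F ^ 2 * (2 * Fintype.card (QA n)ˣ), by positivity,
        fun k hk => by rw [key k hk, e, h3, hU]; push_cast; ring⟩
    · exact ⟨Fintype.card F ^ 2 * Fintype.card (QA n)ˣ, by positivity,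
        fun k hk => by rw [key k hk, e, h3, hU]; push_cast; ring⟩

/-- the quadratic form of a convolution kernel -/
noncomputable def bil (Φ : Matrix (Fin 2) (Fin 2) F → ℝ) (f : Matrix (Fin 2) (Fin 2) F → ℂ) : ℂ :=
  ∑ g, ∑ g', Φ g * Φ g' * f (g⁻¹ * g')

omit [DecidableEq F] in
theorem bil_congr {Φ : Matrix (Fin 2) (Fin 2) F → ℝ} (hΦ : ∀ g, Φ g ≠ 0 → g.det ≠ 0)
    {f f' : Matrix (Fin 2) (Fin 2) F → ℂ} (h : ∀ k, k.det ≠ 0 → f k = f' k) :
    bil Φ f = bil Φ f' := by
  refine sum_congr rfl fun g _ => sum_congr rfl fun g' _ => ?_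
  by_cases h1 : Φ g = 0
  · simp [h1]
  by_cases h2 : Φ g' = 0
  · simp [h2]
  rw [h _ (by simp [hΦ g h1, hΦ g' h2])]

omit [DecidableEq F] in
theorem bil_sum (Φ : Matrix (Fin 2) (Fin 2) F → ℝ) {ι : Type*} [Fintype ι] (c : ι → ℂ)
    (f : ι → Matrix (Fin 2) (Fin 2) F → ℂ) :
    bil Φ (fun k => ∑ i, c i * f i k) = ∑ i, c i * bil Φ (f i) := by
  simp only [bil, mul_sum]
  rw [eq_comm, sum_comm]
  refine sum_congr rfl fun _ _ => ?_
  rw [sum_comm]
  exact sum_congr rfl fun _ _ => sum_congr rfl fun _ _ => by ring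

theorem bil_ee (hK : ringChar F ≠ 2) (hn : n ≠ 0) (X : MulChar (QA n) ℂ)
    {Φ : Matrix (Fin 2) (Fin 2) F → ℝ} (hΦ : ∀ g, Φ g ≠ 0 → g.det ≠ 0) :
    ∃ b : ℝ, 0 ≤ b ∧ bil Φ (ee X) = b := by
  obtain ⟨c, hc, h⟩ := conv_e hK hn X
  refine ⟨(∑ h, Complex.normSq (∑ g, Φ g * ee X (g⁻¹ * h))) / c,
    div_nonneg (sum_nonneg fun _ _ => Complex.normSq_nonneg _) hc.le, ?_⟩
  rw [Complex.ofReal_div, eq_div_iff (by exact_mod_cast hc.ne')]
  simp only [Complex.ofReal_sum, ← Complex.mul_conj, map_sum, sum_mul_sum]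
  simp only [bil, sum_mul]
  rw [eq_comm, sum_comm]
  refine sum_congr rfl fun g _ => ?_
  rw [sum_comm]
  refine sum_congr rfl fun g' _ => ?_
  by_cases h1 : Φ g = 0
  · simp [h1]
  by_cases h2 : Φ g' = 0
  · simp [h2]
  rw [mul_assoc, mul_comm _ (c : ℂ), ← h _ (by simp [hΦ g h1, hΦ g' h2]), mul_sum,
    ← sum_mul_left (hΦ g' h2)]
  refine sum_congr rfl fun k _ => ?_
  rw [nonsing_inv_mul_cancel_left _ _ (hΦ g' h2).isUnit, Matrix.mul_assoc]
  simp
  ring

theorem vv_smul {z : F} (hz : z ≠ 0) (ξ : QA n) (k : Matrix (Fin 2) (Fin 2) F) :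
    vv (algebraMap F (QA n) z * ξ) (z • k) = vv ξ k := by
  have : Sc (z • k) ↔ Sc k := by simp [Sc, hz, ← mul_sub]
  simp [vv, ca, cz, this, hz, mul_left_comm (2 : F) z]

theorem bil_ee_eq_zero {X : MulChar (QA n) ℂ} {τ : MulChar F ℂ} (h : ¬Res X τ)
    {Φ : Matrix (Fin 2) (Fin 2) F → ℝ} (hc : ∀ z g, z ≠ 0 → (Φ (z • g) : ℂ) = τ z * Φ g) :
    bil Φ (ee X⁻¹) = 0 := by
  obtain ⟨z, hz⟩ := not_forall.1 h
  have z0 : z ≠ 0 := by
    rintro rfl
    simp [MulChar.map_zero] at hz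
  have hu : IsUnit (algebraMap F (QA n) z) := z0.isUnit.map _
  have iv : X (algebraMap F (QA n) z) * X⁻¹ (algebraMap F (QA n) z) = 1 := by
    rw [← MulChar.mul_apply, mul_inv_cancel, MulChar.one_apply hu]
  have e : ∀ k, ee X⁻¹ (z • k) = X⁻¹ (algebraMap F (QA n) z) * ee X⁻¹ k := fun k => by
    rw [ee, ← Equiv.sum_comp hu.unit.mulLeft, ee, mul_sum]
    exact sum_congr rfl fun ξ _ => by simp only [Units.mulLeft_apply, hu.unit_spec, vv_smul z0,
      map_mul, mul_assoc]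
  refine eq_zero_of_mul_eq_self_left (b := τ z * X⁻¹ (algebraMap F (QA n) z)) (fun h => hz ?_) ?_
  · linear_combination τ z * iv - X (algebraMap F (QA n) z) * h
  · rw [bil, mul_sum]
    refine sum_congr rfl fun g _ => ?_
    rw [mul_sum, eq_comm, ← Equiv.sum_comp (MulAction.toPerm (Units.mk0 z z0))]
    refine sum_congr rfl fun g' _ => ?_
    simp only [MulAction.toPerm_apply, Units.smul_mk0, hc z _ z0, Matrix.mul_smul, e]
    ring

theorem torus_bound (hK : ringChar F ≠ 2) (hn : n ≠ 0) {τ : MulChar F ℂ} {G : F → F → ℝ} {e : ℝ}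
    (H : EigB n τ G e) {Φ : Matrix (Fin 2) (Fin 2) F → ℝ} (hΦ : ∀ g, Φ g ≠ 0 → g.det ≠ 0)
    (hc : ∀ z g, z ≠ 0 → (Φ (z • g) : ℂ) = τ z * Φ g) :
    ‖bil Φ fun k => ∑ ξ : QA n, (G (2 * ξ.re) ξ.norm : ℂ) * vv ξ k‖ ≤
      e * (bil Φ fun k => vv (1 : QA n) k).re := by
  have U0 : (0 : ℝ) < Nat.card (QA n)ˣ := by exact_mod_cast Nat.card_pos
  have inv : ∀ (f : QA n → ℂ), (Nat.card (QA n)ˣ : ℂ) * bil Φ (fun k => ∑ ξ, f ξ * vv ξ k) =
      ∑ X : MulChar (QA n) ℂ, (∑ ξ, X ξ * f ξ) * bil Φ (ee X⁻¹) := fun f => by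
    rw [← bil_sum, bil_sum, mul_sum, sum_congr rfl fun ξ _ => (mul_assoc _ _ _).symm, ← bil_sum]
    refine bil_congr hΦ fun k hk => ?_
    simp only [ee, sum_mul_sum]
    rw [eq_comm, sum_comm]
    refine sum_congr rfl fun ξ _ => ?_
    simp only [← mul_sum, sum_units, mul_assoc]
    simp only [mul_sum, MulChar.inv_apply, Ring.inverse_unit]
    have e : ∀ ζ : (QA n)ˣ, ∑ X : MulChar (QA n) ℂ, X ξ * (f ξ * (X ↑ζ⁻¹ * vv (ζ : QA n) k)) =
        (∑ X : MulChar (QA n) ℂ, X (ξ * ↑ζ⁻¹)) * (f ξ * vv (ζ : QA n) k) := fun ζ => by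
      rw [sum_mul]
      exact sum_congr rfl fun _ _ => by rw [map_mul]; ring
    rw [sum_comm]
    simp only [e, sum_mulChar, Units.mul_inv_eq_one]
    by_cases h : IsUnit ξ
    · obtain ⟨u, rfl⟩ := h
      simp [Units.val_inj]
    · have : k.det ≠ ξ.norm := fun e =>
        h (QuadraticAlgebra.isUnit_iff_norm_isUnit.2 (e ▸ hk).isUnit)
      simp [show ∀ ζ : (QA n)ˣ, ξ ≠ ζ from fun ζ e => h ⟨ζ, e.symm⟩, vv, ca, cz, this]
  have i1 := inv fun ξ => if ξ = 1 then 1 else 0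
  simp only [ite_mul, mul_ite, one_mul, zero_mul, mul_one, mul_zero, sum_ite_eq', mem_univ, if_true,
    map_one] at i1
  refine le_of_mul_le_mul_left ?_ U0
  calc _ = ‖∑ X : MulChar (QA n) ℂ, (∑ ξ, X ξ * G (2 * ξ.re) ξ.norm) * bil Φ (ee X⁻¹)‖ := by
        rw [← inv, norm_mul, Complex.norm_natCast]
    _ ≤ ∑ X : MulChar (QA n) ℂ, e * (bil Φ (ee X⁻¹)).re := by
        refine (norm_sum_le _ _).trans (sum_le_sum fun X _ => ?_)
        by_cases h : Res X τ
        · obtain ⟨b, hb, e⟩ := bil_ee hK hn X⁻¹ hΦ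
          rw [norm_mul, e, Complex.norm_real, Real.norm_of_nonneg hb, Complex.ofReal_re]
          exact mul_le_mul_of_nonneg_right (H X h) hb
        · simp [bil_ee_eq_zero h hc]
    _ = _ := by
        rw [← mul_sum, ← Complex.re_sum, ← i1]
        simp
        ring

theorem gl_bound (hK : ringChar F ≠ 2) (hn : ¬IsSquare n) {τ : MulChar F ℂ} {G : F → F → ℝ} {e : ℝ}
    (h1 : EigB 1 τ G e) (h2 : EigB n τ G e) {Φ : Matrix (Fin 2) (Fin 2) F → ℝ}
    (hΦ : ∀ g, Φ g ≠ 0 → g.det ≠ 0) (hc : ∀ z g, z ≠ 0 → (Φ (z • g) : ℂ) = τ z * Φ g) :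
    |∑ g, ∑ g', Φ g * Φ g' * (G (g⁻¹ * g').trace (g⁻¹ * g').det -
      (∑ s, G s (g⁻¹ * g').det) / Fintype.card F)| ≤ Fintype.card F * e * ∑ g, Φ g ^ 2 := by
  have h2' : (2 : F) ≠ 0 := Ring.two_ne_zero hK
  have n0 : n ≠ 0 := fun h => hn (h ▸ IsSquare.zero)
  have q0 : (0 : ℝ) < Fintype.card F := by exact_mod_cast Fintype.card_pos
  have hε := quadraticChar_neg_one_iff_not_isSquare.2 hn
  have a1 := torus_bound hK one_ne_zero h1 hΦ hc
  have a2 := torus_bound hK n0 h2 hΦ hc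
  have e1 : (bil Φ fun k => vv (1 : QA (1 : F)) k) + (bil Φ fun k => vv (1 : QA n) k) =
      (2 * Fintype.card F ^ 2 * ∑ g, Φ g ^ 2 : ℝ) := by
    simp only [bil, ← sum_add_distrib, ← mul_add, ← Int.cast_add]
    push_cast
    rw [mul_sum]
    refine sum_congr rfl fun g _ => ?_
    by_cases h : Φ g = 0
    · simp [h]
    rw [← sum_mul_left (hΦ g h)]
    simp only [nonsing_inv_mul_cancel_left _ _ (hΦ g h).isUnit]
    rw [sum_eq_single 1 (fun k _ hk => ?_) (by simp)]
    · simp [vv, cz, Sc, hε, QuadraticAlgebra.re_one]; ring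
    · have := conv_z hK (1 : F) 1 fun h => if h = k then 1 else 0
      simp [hk.symm] at this
      simp [vv, hε, this, QuadraticAlgebra.re_one]
  have e2 : (bil Φ fun k => ∑ ξ : QA (1 : F), (G (2 * ξ.re) ξ.norm : ℂ) * vv ξ k) -
      (bil Φ fun k => ∑ ξ : QA n, (G (2 * ξ.re) ξ.norm : ℂ) * vv ξ k) =
      (2 * Fintype.card F * ∑ g, ∑ g', Φ g * Φ g' * (G (g⁻¹ * g').trace (g⁻¹ * g').det -
        (∑ s, G s (g⁻¹ * g').det) / Fintype.card F) : ℝ) := by
    simp only [bil, ← sum_sub_distrib, ← mul_sub,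
      sum_mul_vv hK one_ne_zero fun s D => (G s D : ℂ), sum_mul_vv hK n0 fun s D => (G s D : ℂ)]
    push_cast
    simp only [mul_sum (a := 2 * (Fintype.card F : ℂ))]
    refine sum_congr rfl fun g _ => sum_congr rfl fun g' _ => ?_
    have : (Fintype.card F : ℂ) ≠ 0 := by exact_mod_cast q0.ne'
    simp only [hε, map_one, add_mul, sum_add_distrib, Int.cast_one, Int.cast_neg, neg_mul, one_mul,
      sum_neg_distrib]
    field_simp
    ring
  have e3 := (norm_sub_le _ _).trans (add_le_add a1 a2)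
  rw [e2, ← mul_add, ← Complex.add_re, e1, Complex.norm_real, Complex.ofReal_re, Real.norm_eq_abs,
    abs_mul, abs_of_pos (by positivity)] at e3
  refine le_of_mul_le_mul_left (e3.trans_eq (by ring)) (by positivity : 0 < 2 * (Fintype.card F : ℝ))

end Pool.Agent.P.MP_9484ad_co
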