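import Pool.Agent.P.MP_9484ad_co.DiagPD

/-! Class functions on `GL₂` bound the kernels on pairs. -/

namespace Pool.Agent.P.MP_9484ad_co

open Finset Matrix

variable {F : Type*} [Field F] [Fintype F] [DecidableEq F]

theorem sum_pairs (H : Matrix (Fin 2) (Fin 2) F → ℝ) (h : ∀ g, g 1 0 = 0 ∨ g 1 1 = 0 → H g = 0) :
    ∑ g, H g = ∑ a, ∑ b, ∑ l ∈ univ.erase 0, ∑ u ∈ univ.erase 0, H !![a * l, b * u; l, u] := by
  have e : ∑ g, H g = ∑ l, ∑ u, ∑ a, ∑ b, H !![a, b; l, u] := by
    simp only [← Fintype.sum_prod_type']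
    exact (Fintype.sum_equiv
      { toFun := fun e : F × F × F × F => !![e.2.2.1, e.2.2.2; e.1, e.2.1]
        invFun := fun h => (h 1 0, h 1 1, h 0 0, h 0 1)
        left_inv := fun e => rfl
        right_inv := fun h => (eta_fin_two h).symm } _ _ fun _ => rfl).symm
  rw [e, ← sum_erase_add _ _ (mem_univ 0), sum_eq_zero (s := univ) fun u _ => sum_eq_zero fun a _ =>
    sum_eq_zero fun b _ => h _ (.inl rfl), add_zero, eq_comm, sum_congr rfl fun a _ => sum_comm,
    sum_comm]
  refine sum_congr rfl fun l hl => ?_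
  rw [← sum_erase_add _ (fun u => ∑ a, ∑ b, H !![a, b; l, u]) (mem_univ 0),
    sum_eq_zero (s := univ) fun a _ => sum_eq_zero fun b _ => h !![a, b; l, 0] (.inr rfl), add_zero,
    sum_congr rfl fun a _ => sum_comm, sum_comm]
  refine sum_congr rfl fun u hu => ?_
  rw [← Equiv.sum_comp (Equiv.mulRight₀ l (ne_of_mem_erase hl)) fun a => ∑ b, H !![a, b; l, u]]
  exact sum_congr rfl fun a _ => Equiv.sum_comp (Equiv.mulRight₀ u (ne_of_mem_erase hu))
    fun b => H !![a * l, b; l, u]

theorem sum_erase_mul (f : F → ℝ) {l : F} (hl : l ≠ 0) :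
    ∑ x ∈ univ.erase 0, f x = ∑ x ∈ univ.erase 0, f (l * x) :=
  (sum_equiv (Equiv.mulLeft₀ l hl) (by simp [hl]) fun _ _ => rfl).symm

theorem pair_bound (hK : ringChar F ≠ 2) {n : F} (hn : ¬IsSquare n) (τ : MulChar F ℂ) (t : F → ℝ)
    (ht : ∀ z, τ z = t z) (G : F → F → ℝ) {e : ℝ} (h1 : EigB 1 τ G e) (h2 : EigB n τ G e)
    (x : F → F → ℝ) (hx : ∀ a, x a a = 0) :
    |qf x (ClK t G)| ≤ Fintype.card F * e * nn x := by
  have t0 : t 0 = 0 := by exact_mod_cast (ht 0).symm.trans τ.map_zero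
  have tm : ∀ y z, t (y * z) = t y * t z := fun y z => by
    have := map_mul τ y z
    rw [ht, ht, ht] at this
    exact_mod_cast this
  have t2 : ∀ z, z ≠ 0 → t z * t z = 1 := fun z hz => by
    have := τ.star_apply' z
    have h := congrArg (· z) (mul_inv_cancel τ)
    simp only [MulChar.mul_apply, ← this, ht z, MulChar.one_apply hz.isUnit] at h
    simp only [RCLike.star_def, Complex.conj_ofReal] at h
    exact_mod_cast h
  set Φ : Matrix (Fin 2) (Fin 2) F → ℝ := fun g =>
    if g 1 0 = 0 then 0 else x (g 0 0 / g 1 0) (g 0 1 / g 1 1) * t (g 1 1) with hΦ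
  have z : ∀ g : Matrix (Fin 2) (Fin 2) F, g 1 0 = 0 ∨ g 1 1 = 0 → Φ g = 0 := by
    rintro g (h | h) <;> simp [Φ, h, t0]
  have v : ∀ a b l u : F, l ≠ 0 → u ≠ 0 → Φ !![a * l, b * u; l, u] = x a b * t u :=
    fun a b l u hl hu => by simp [Φ, hl, hu]
  have key := gl_bound hK hn h1 h2 (Φ := Φ) (fun g h e => by
    have h0 : g 1 0 ≠ 0 := fun e => h (z g (.inl e))
    have h1 : g 1 1 ≠ 0 := fun e => h (z g (.inr e))
    rw [det_fin_two] at e
    have : g 0 0 / g 1 0 = g 0 1 / g 1 1 := by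
      rw [div_eq_div_iff h0 h1]; linear_combination e
    exact h (by simp [Φ, this, hx])) (fun c g hc => by
    by_cases h : g 1 0 = 0 <;> simp [Φ, hc, h, mul_div_mul_left _ _ hc, tm, ht]
    ring)
  have q1 : (1 : ℝ) < Fintype.card F := by exact_mod_cast Fintype.one_lt_card
  have cq : ((univ.erase (0 : F)).card : ℝ) = Fintype.card F - 1 := by
    rw [card_erase_of_mem (mem_univ _), card_univ, Nat.cast_pred Fintype.card_pos]
  have e1 : ∑ g, Φ g ^ 2 = (Fintype.card F - 1) ^ 2 * nn x := by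
    rw [sum_pairs _ fun g h => by simp [z g h], nn]
    simp only [mul_sum]
    refine sum_congr rfl fun a _ => sum_congr rfl fun b _ => ?_
    rw [sum_congr rfl fun l hl => sum_congr rfl fun u hu => show _ = x a b ^ 2 by
      rw [v a b l u (ne_of_mem_erase hl) (ne_of_mem_erase hu)]
      linear_combination x a b ^ 2 * t2 u (ne_of_mem_erase hu)]
    simp only [sum_const, nsmul_eq_mul, cq]
    ring
  have e2 : ∑ g, ∑ g', Φ g * Φ g' * (G (g⁻¹ * g').trace (g⁻¹ * g').det -
      (∑ s, G s (g⁻¹ * g').det) / Fintype.card F) = (Fintype.card F - 1) ^ 2 * qf x (ClK t G) := by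
    rw [sum_pairs _ fun g h => by simp [z g h], qf]
    simp only [mul_sum]
    refine sum_congr rfl fun a _ => sum_congr rfl fun b _ => ?_
    rw [sum_congr rfl fun l hl => sum_congr rfl fun u hu => show _ =
      ∑ c, ∑ d, x a b * x c d * ClK t G a b c d from ?_]
    · simp only [sum_const, nsmul_eq_mul, cq, ← mul_sum]
      ring
    have hl := ne_of_mem_erase hl
    have hu := ne_of_mem_erase hu
    rw [sum_pairs _ fun g h => by simp [z g h]]
    refine sum_congr rfl fun c _ => sum_congr rfl fun d _ => ?_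
    by_cases hab : a = b
    · simp [v _ _ _ _ hl hu, hab, hx]
    have hab' := sub_ne_zero.2 hab
    rw [ClK, Cl, sum_erase_mul _ hl, mul_sum]
    refine sum_congr rfl fun l' hl' => ?_
    rw [sum_erase_mul _ hu, ← sum_erase_add _ _ (mem_univ 0), t0, zero_mul, add_zero, mul_sum]
    refine sum_congr rfl fun u' hu' => ?_
    have d0 : a * l * u - b * u * l ≠ 0 := by
      rw [show a * l * u - b * u * l = (a - b) * l * u by ring]; simp [hab', hl, hu]
    have i1 : (!![a * l, b * u; l, u]⁻¹ * !![c * (l * l'), d * (u * u'); l * l', u * u']).det =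
        (c - d) / (a - b) * l' * u' := by
      rw [det_mul, det_nonsing_inv, Ring.inverse_eq_inv', det_fin_two_of, det_fin_two_of]
      field_simp
    have i2 : (!![a * l, b * u; l, u]⁻¹ * !![c * (l * l'), d * (u * u'); l * l', u * u']).trace =
        (c - b) / (a - b) * l' + (a - d) / (a - b) * u' := by
      simp [Matrix.inv_def, trace_fin_two]
      field_simp
      ring
    rw [i1, i2, v _ _ _ _ hl hu, v _ _ _ _ (mul_ne_zero hl (ne_of_mem_erase hl'))
      (mul_ne_zero hu (ne_of_mem_erase hu')), tm]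
    generalize G _ _ - _ = y
    linear_combination x a b * x c d * t u' * y * t2 u hu
  rw [e1, e2, abs_mul, abs_of_nonneg (sq_nonneg _), mul_left_comm] at key
  exact le_of_mul_le_mul_left key (pow_pos (by linarith) 2)

end Pool.Agent.P.MP_9484ad_co
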