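import Pool.Agent.P.MP_9484ad_co.Ex

/-! The splitting functions `exp (π (x - x ^ Q))` and `p`-adic Gauss sums. -/

namespace Pool.Agent.P.MP_9484ad_co

open Finset

noncomputable section

section Defs

variable {K : Type} [NontriviallyNormedField K]

structure Ctx (K : Type) [NontriviallyNormedField K] (p : ℕ) (π : K) : Prop where
  prime : p.Prime
  big : 10 ^ 5 ≤ p
  norm_p : ‖(p : K)‖ = (p : ℝ)⁻¹
  pi_pow : π ^ (p - 1) = -(p : K)

/-- `exp (π (x - x ^ Q)) = exp (∑ dwt π Q r * x ^ r / r)` -/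
def dwt (π : K) (Q r : ℕ) : K := (if r = 1 then π else 0) - (if r = Q then π * Q else 0)

/-- the coefficients of `exp (π (x - x ^ Q))`, zero for negative index -/
def dwc (π : K) (Q : ℕ) (n : ℤ) : K := if 0 ≤ n then exC (dwt π Q) n.toNat else 0

/-- overconvergence -/
structure Bd (π : K) (Q : ℕ) : Prop where
  pi_ne : π ≠ 0
  pi_le : ‖π‖ ≤ 1
  two_le : 2 ≤ Q
  norm_Q : ‖(Q : K)‖ * 10 ^ 5 ≤ 1
  bd : ∃ ρ : ℝ, 0 ≤ ρ ∧ ρ < 1 ∧ ρ ^ Q * 10 ^ 4 ≤ ‖π‖ ∧ ∀ n : ℕ, ‖dwc π Q n‖ ≤ ρ ^ n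

def dwF (π : K) (Q : ℕ) (x : K) : K := ∑' n : ℕ, dwc π Q n * x ^ n

/-- the `n`-th roots of unity -/
def mu (K : Type) [Field K] (n : ℕ) : Finset K := Polynomial.nthRootsFinset n (1 : K)

/-- Gauss sums -/
def G (π : K) (Q : ℕ) (κ : ℤ) : K := ∑ x ∈ mu K (Q - 1), x ^ κ * dwF π Q x

/-- `1 + q + ... + q ^ (r - 1)` -/
def Nr (q r : ℕ) : ℤ := ∑ t ∈ range r, (q : ℤ) ^ t

/-- hypergeometric sums at the point `1` -/
def Hs (π : K) (Q : ℕ) (ku kl : Fin 4 → ℤ) : K :=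
  ((Q : K) - 1)⁻¹ * ∑ i ∈ range (Q - 1), (∏ m, G π Q (ku m - i)) * ∏ m, G π Q (kl m + i)

/-- the same with two conjugate upper characters -/
def Ht (π : K) (p : ℕ) (n : ℤ) (ku : Fin 2 → ℤ) (kl : Fin 4 → ℤ) : K :=
  ((p : K) - 1)⁻¹ * ∑ i ∈ range (p - 1),
    G π (p ^ 2) (n - (p + 1) * i) * (∏ m, G π p (ku m - i)) * ∏ m, G π p (kl m + i)

end Defs

variable {K : Type} [NontriviallyNormedField K] [CompleteSpace K] [IsUltrametricDist K] [CharZero K]
  {π : K} {p Q Q' : ℕ}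

theorem dwa_nat (π : K) (Q n : ℕ) : dwc π Q n = exC (dwt π Q) n := by simp [dwc]

theorem dwc_neg (π : K) (Q : ℕ) {n : ℤ} (h : n < 0) : dwc π Q n = 0 := if_neg h.not_ge

theorem dwc_zero (π : K) (Q : ℕ) : dwc π Q 0 = 1 := by simp [dwc, exC_zero]

theorem dwc_rec (π : K) (hQ : 2 ≤ Q) (n : ℤ) :
    (n : K) * dwc π Q n = π * dwc π Q (n - 1) - π * Q * dwc π Q (n - Q) := by
  rcases le_or_gt n 0 with hn | hn
  · rw [dwc_neg π Q (by omega : n - 1 < 0), dwc_neg π Q (by omega : n - Q < 0)]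
    rcases hn.eq_or_lt with rfl | hn
    · simp
    · simp [dwc_neg π Q hn]
  obtain ⟨m, rfl⟩ : ∃ m : ℕ, n = (m + 1 : ℕ) := ⟨(n - 1).toNat, by omega⟩
  obtain ⟨P, rfl⟩ : ∃ P, Q = P + 1 := ⟨Q - 1, by omega⟩
  rw [dwa_nat, Int.cast_natCast, exC_succ, show ((m + 1 : ℕ) : ℤ) - 1 = m by omega, dwa_nat]
  simp only [dwt, sub_mul, sum_sub_distrib, ite_mul, zero_mul, Nat.add_eq_right,
    Nat.add_right_cancel_iff, sum_ite_eq', mem_range, Nat.zero_lt_succ, if_true, Nat.sub_zero]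
  congr 1
  split_ifs with h
  · rw [show ((m + 1 : ℕ) : ℤ) - (P + 1 : ℕ) = (m - P : ℕ) by omega, dwa_nat]
  · rw [dwc_neg π _ (by omega), mul_zero]

/-- substitution of `x ^ d` -/
def dwaEx (d : ℕ) (t : ℕ → K) (r : ℕ) : K := if d ∣ r then d * t (r / d) else 0

theorem dwa_ex (t : ℕ → K) {d : ℕ} (hd : 0 < d) (n : ℕ) :
    exC (dwaEx d t) n = if d ∣ n then exC t (n / d) else 0 := exC_expand t hd n

theorem dwa_mul (π : K) (hQ' : 2 ≤ Q') :
    exC (dwt π (Q * Q')) = exC fun r => dwaEx Q' (dwt π Q) r + dwt π Q' r := by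
  refine exC_congr fun r _ => ?_
  have q0 : 0 < Q' := by omega
  unfold dwaEx dwt
  by_cases h : Q' ∣ r
  · obtain ⟨k, rfl⟩ := h
    have e1 : Q' * k = Q * Q' ↔ k = Q := by rw [mul_comm Q, Nat.mul_right_inj q0.ne']
    have e2 : Q' * k = Q' ↔ k = 1 := Nat.mul_eq_left q0.ne'
    simp only [dvd_mul_right, if_true, Nat.mul_div_cancel_left k q0, e1, e2]
    push_cast
    split_ifs <;> ring
  · have e1 : r ≠ Q * Q' := fun e => h (e ▸ dvd_mul_left _ _)
    have e2 : r ≠ Q' := fun e => h (e ▸ dvd_rfl)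
    simp [h, e1, e2]

/-- `F_{Q Q'} (x) = F_Q (x ^ Q') * F_{Q'} (x)` -/
theorem dwc_mul (π : K) (hQ : 2 ≤ Q) (hQ' : 2 ≤ Q') (n : ℤ) {N : ℕ} (hN : n < Q' * N) :
    dwc π (Q * Q') n = ∑ m ∈ range N, dwc π Q m * dwc π Q' (n - Q' * m) := by
  have q0 : 0 < Q' := by omega
  rcases lt_or_ge n 0 with hn | hn
  · rw [dwc_neg π _ hn, eq_comm]
    refine sum_eq_zero fun m _ => ?_
    have : (0 : ℤ) ≤ Q' * m := by positivity
    rw [dwc_neg π Q' (by omega), mul_zero]
  lift n to ℕ using hn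
  have hN' : n + 1 ≤ Q' * N := by exact_mod_cast hN
  rw [dwa_nat, dwa_mul π hQ', exC_add, Nat.sum_antidiagonal_eq_sum_range_succ_mk]
  have e1 : ∑ k ∈ range (n + 1), exC (dwaEx Q' (dwt π Q)) k * exC (dwt π Q') (n - k) =
      ∑ k ∈ range (Q' * N), exC (dwaEx Q' (dwt π Q)) k * dwc π Q' (n - k) := by
    rw [← sum_subset (range_subset_range.2 hN') fun k _ hk => by
      rw [mem_range] at hk
      rw [dwc_neg π Q' (by omega), mul_zero]]
    refine sum_congr rfl fun k hk => ?_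
    rw [mem_range] at hk
    rw [show (n : ℤ) - k = (n - k : ℕ) by omega, dwa_nat]
  refine e1.trans ?_
  simp only [dwa_ex _ q0, ite_mul, zero_mul]
  rw [← sum_filter, eq_comm]
  refine sum_nbij' (fun m => Q' * m) (fun k => k / Q') ?_ ?_ ?_ ?_ ?_
  · intro m hm
    simp only [mem_filter, mem_range] at hm ⊢
    exact ⟨Nat.mul_lt_mul_of_pos_left hm q0, dvd_mul_right _ _⟩
  · intro k hk
    simp only [mem_filter, mem_range] at hk ⊢
    exact Nat.div_lt_of_lt_mul hk.1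
  · intro m _
    exact Nat.mul_div_cancel_left m q0
  · intro k hk
    exact Nat.mul_div_cancel' (mem_filter.1 hk).2
  · intro m _
    rw [Nat.mul_div_cancel_left m q0, dwa_nat]
    push_cast
    rfl

theorem Bd.mul (h : Bd π Q) (h' : Bd π Q') : Bd π (Q * Q') := by
  have q2 := h.two_le
  have q2' := h'.two_le
  refine ⟨h.pi_ne, h.pi_le, by nlinarith, ?_, ?_⟩
  · rw [Nat.cast_mul, norm_mul]
    nlinarith [h.norm_Q, IsUltrametricDist.norm_natCast_le_one K Q', norm_nonneg (Q : K),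
      norm_nonneg (Q' : K)]
  obtain ⟨ρ, a0, a1, a2, a3⟩ := h.bd
  obtain ⟨σ, b0, b1, b2, b3⟩ := h'.bd
  have e := Real.rpow_inv_natCast_pow (n := Q') a0 (by omega)
  set τ := ρ ^ (Q' : ℝ)⁻¹ with hτ
  have t0 : 0 ≤ τ := by positivity
  have t1 : τ < 1 := lt_of_pow_lt_pow_left₀ Q' zero_le_one (by rwa [e, one_pow])
  have m0 : 0 ≤ max τ σ := le_max_of_le_left t0
  refine ⟨max τ σ, m0, max_lt t1 b1, ?_, fun n => ?_⟩
  · rcases max_choice τ σ with h | h <;> rw [h]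
    · rwa [mul_comm Q, pow_mul, e]
    · have : σ ^ (Q * Q') ≤ σ ^ Q' := pow_le_pow_of_le_one b0 b1.le (by nlinarith)
      linarith
  · rw [dwa_nat, dwa_mul π q2', exC_add]
    refine IsUltrametricDist.norm_sum_le_of_forall_le_of_nonneg (by positivity) fun ij hij => ?_
    rw [norm_mul, ← mem_antidiagonal.1 hij, pow_add]
    refine mul_le_mul ?_ ?_ (norm_nonneg _) (by positivity)
    · rw [dwa_ex _ (by omega)]
      split_ifs with hd
      · obtain ⟨k, hk⟩ := hd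
        rw [hk, Nat.mul_div_cancel_left k (by omega), ← dwa_nat, pow_mul]
        refine (a3 k).trans (pow_le_pow_left₀ a0 ?_ k)
        rw [← e]
        exact pow_le_pow_left₀ t0 (le_max_left _ _) _
      · rw [norm_zero]; positivity
    · rw [← dwa_nat]
      exact (b3 _).trans (pow_le_pow_left₀ b0 (le_max_right _ _) _)

theorem Bd.pow (h : Bd π Q) {r : ℕ} (hr : 1 ≤ r) : Bd π (Q ^ r) := by
  induction r, hr using Nat.le_induction with
  | base => rwa [pow_one]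
  | succ r _ ih => rw [pow_succ]; exact ih.mul h

theorem dwa_sm {c : ℕ → K} {ρ : ℝ} (h0 : 0 ≤ ρ) (h1 : ρ < 1) (h : ∀ n, ‖c n‖ ≤ ρ ^ n) {x : K}
    (hx : ‖x‖ ≤ 1) : Summable fun n : ℕ => ‖c n * x ^ n‖ := by
  refine .of_nonneg_of_le (fun _ => norm_nonneg _) (fun n => ?_)
    (summable_geometric_of_lt_one h0 h1)
  rw [norm_mul, norm_pow]
  exact (mul_le_of_le_one_right (norm_nonneg _) (pow_le_one₀ (norm_nonneg _) hx)).trans (h n)

theorem Bd.summable (h : Bd π Q) {x : K} (hx : ‖x‖ ≤ 1) :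
    Summable fun n : ℕ => ‖dwc π Q n * x ^ n‖ := by
  obtain ⟨ρ, a0, a1, -, a3⟩ := h.bd
  exact dwa_sm a0 a1 a3 hx

/-- the value `y` of the exponential series at `x` -/
def DwaEv (t : ℕ → K) (x y : K) : Prop :=
  (Summable fun n => ‖exC t n * x ^ n‖) ∧ ∑' n, exC t n * x ^ n = y

theorem DwaEv.add {s t : ℕ → K} {x y z : K} (hs : DwaEv s x y) (ht : DwaEv t x z) :
    DwaEv (fun r => s r + t r) x (y * z) := by
  have e : ∀ n, exC (fun r => s r + t r) n * x ^ n =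
      ∑ ij ∈ antidiagonal n, (exC s ij.1 * x ^ ij.1) * (exC t ij.2 * x ^ ij.2) := fun n => by
    rw [exC_add, sum_mul]
    refine sum_congr rfl fun ij hij => ?_
    rw [← mem_antidiagonal.1 hij, pow_add]
    ring
  have h1 := summable_norm_sum_mul_antidiagonal_of_summable_norm
    (f := fun n => exC s n * x ^ n) (g := fun n => exC t n * x ^ n) hs.1 ht.1
  have h2 := tsum_mul_tsum_eq_tsum_sum_antidiagonal_of_summable_norm
    (f := fun n => exC s n * x ^ n) (g := fun n => exC t n * x ^ n) hs.1 ht.1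
  refine ⟨h1.congr fun n => by rw [e], ?_⟩
  rw [← hs.2, ← ht.2, h2]
  exact tsum_congr e

theorem DwaEv.ex {t : ℕ → K} {x y : K} {d : ℕ} (hd : 0 < d) (h : DwaEv t (x ^ d) y) :
    DwaEv (dwaEx d t) x y := by
  have inj : Function.Injective fun n : ℕ => d * n := mul_right_injective₀ hd.ne'
  have z : ∀ n, n ∉ Set.range (fun n : ℕ => d * n) → exC (dwaEx d t) n * x ^ n = 0 := fun n hn => by
    rw [dwa_ex _ hd, if_neg fun ⟨k, hk⟩ => hn ⟨k, hk.symm⟩, zero_mul]
  have e : ∀ n, exC (dwaEx d t) (d * n) * x ^ (d * n) = exC t n * (x ^ d) ^ n := fun n => by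
    rw [dwa_ex _ hd, if_pos (dvd_mul_right _ _), Nat.mul_div_cancel_left n hd, pow_mul]
  refine ⟨(inj.summable_iff fun n hn => by rw [z n hn, norm_zero]).1 ?_, ?_⟩
  · simpa only [Function.comp_def, e] using h.1
  · refine ((inj.hasSum_iff z).1 ?_).tsum_eq
    simpa only [Function.comp_def, e, h.2] using h.1.of_norm.hasSum

theorem DwaEv.congr {s t : ℕ → K} {x y : K} (h : DwaEv s x y) (e : exC s = exC t) :
    DwaEv t x y := by
  unfold DwaEv at h ⊢
  rwa [← e]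

theorem dwa_single (y : K) (m : ℕ) :
    exC (fun r => if r = 1 then y else 0) m = y ^ m / m.factorial := by
  symm
  refine congrFun (exC_unique (e := fun m => y ^ m / m.factorial) (by simp) fun n => ?_) m
  rw [sum_eq_single 0]
  · have h1 : ((n + 1 : ℕ) : K) ≠ 0 := Nat.cast_ne_zero.2 n.succ_ne_zero
    have h2 : (n.factorial : K) ≠ 0 := Nat.cast_ne_zero.2 n.factorial_ne_zero
    rw [Nat.factorial_succ, Nat.cast_mul]
    simp only [zero_add, if_true, Nat.sub_zero]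
    field_simp
    ring
  · intro b _ hb
    simp [hb]
  · simp

theorem dwa_scale (a : K) (t : ℕ → K) (n : ℕ) :
    exC (fun r => a ^ r * t r) n = a ^ n * exC t n := by
  symm
  refine congrFun (exC_unique (e := fun n => a ^ n * exC t n) (by simp [exC_zero]) fun n => ?_) n
  rw [mul_left_comm, exC_succ, mul_sum]
  refine sum_congr rfl fun r hr => ?_
  rw [mem_range] at hr
  have : n + 1 = r + 1 + (n - r) := by omega
  rw [this, pow_add]
  ring

theorem dwa_zero (x : K) : DwaEv (fun _ => 0) x 1 := by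
  have e : ∀ n, n ≠ 0 → exC (fun _ => (0 : K)) n * x ^ n = 0 := fun n hn => by
    have := dwa_single (0 : K) n
    simp only [ite_self] at this
    rw [this, zero_pow hn, zero_div, zero_mul]
  refine ⟨summable_of_ne_finset_zero (s := {0}) fun n hn => ?_, ?_⟩
  · rw [e n (by simpa using hn), norm_zero]
  · rw [tsum_eq_single 0 e, exC_zero, pow_zero, one_mul]

theorem Bd.ev (h : Bd π Q) {x : K} (hx : ‖x‖ ≤ 1) : DwaEv (dwt π Q) x (dwF π Q x) := by
  have := h.summable hx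
  simp only [dwa_nat] at this
  exact ⟨this, by simp only [dwF, dwa_nat]⟩

theorem dwF_mul (h : Bd π Q) (h' : Bd π Q') {x : K} (hx : ‖x‖ ≤ 1) :
    dwF π (Q * Q') x = dwF π Q (x ^ Q') * dwF π Q' x := by
  have q2 := h'.two_le
  have := (((h.ev (x := x ^ Q') (by rw [norm_pow]; exact pow_le_one₀ (norm_nonneg _) hx)).ex
    (by omega)).add (h'.ev hx)).congr (dwa_mul π q2).symm
  rw [← this.2, ((h.mul h').ev hx).2]

theorem dwF_pow (h : Bd π Q) {x : K} (hx : ‖x‖ ≤ 1) {r : ℕ} (hr : 1 ≤ r) :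
    dwF π (Q ^ r) x = ∏ t ∈ range r, dwF π Q (x ^ Q ^ t) := by
  induction r, hr using Nat.le_induction with
  | base => simp
  | succ r hr ih => rw [pow_succ', dwF_mul h (h.pow hr) hx, ih, prod_range_succ, mul_comm]

theorem dwF_neg (h : Bd π Q) (hQ : Odd Q) {x : K} (hx : ‖x‖ ≤ 1) :
    dwF π Q x * dwF π Q (-x) = 1 := by
  have h1 := h.ev (x := -x) (by rwa [norm_neg])
  have h2 : DwaEv (fun r => (-1) ^ r * dwt π Q r) x (dwF π Q (-x)) := by
    have e : ∀ n, exC (fun r => (-1) ^ r * dwt π Q r) n * x ^ n = exC (dwt π Q) n * (-x) ^ n :=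
      fun n => by rw [dwa_scale, neg_pow x]; ring
    simpa only [DwaEv, e] using h1
  have h3 := ((h.ev hx).add h2).congr (t := fun _ => 0) (exC_congr fun r _ => by
    unfold dwt
    by_cases h1 : r = 1
    · rw [h1]; ring
    by_cases h2 : r = Q
    · rw [h2, hQ.neg_one_pow]; ring
    simp [h1, h2])
  rw [← h3.2, (dwa_zero x).2]

theorem dwF_zero (π : K) (Q : ℕ) : dwF π Q 0 = 1 := by
  rw [dwF, tsum_eq_single 0 fun n hn => by rw [zero_pow hn, mul_zero]]
  simp [dwc_zero]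

theorem Ctx.norm_pi (c : Ctx K p π) : ‖π‖ ^ (p - 1) = (p : ℝ)⁻¹ ∧ 1 / 2 ≤ ‖π‖ ∧ ‖π‖ < 1 := by
  have hb := c.big
  have h : ‖π‖ ^ (p - 1) = (p : ℝ)⁻¹ := by rw [← norm_pow, c.pi_pow, norm_neg, c.norm_p]
  have p1 : (1 : ℝ) < p := by exact_mod_cast c.prime.one_lt
  refine ⟨h, le_of_pow_le_pow_left₀ (n := p - 1) (by omega) (norm_nonneg _) ?_,
    lt_of_pow_lt_pow_left₀ (p - 1) zero_le_one ?_⟩
  · rw [h, one_div, inv_pow]
    refine inv_anti₀ (by linarith) ?_
    have : p - 1 < 2 ^ (p - 1) := Nat.lt_two_pow_self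
    exact_mod_cast (by omega : p ≤ 2 ^ (p - 1))
  · rw [h, one_pow]
    exact inv_lt_one_of_one_lt₀ p1

theorem dwF_pow_p (c : Ctx K p π) (h : Bd π Q) {x : K} (hx : x ^ Q = x) : dwF π Q x ^ p = 1 := by
  have q2 := h.two_le
  have x1 : ‖x‖ ≤ 1 := by
    by_contra hlt
    have := pow_lt_pow_right₀ (not_le.1 hlt) (show 1 < Q by omega)
    rw [pow_one, ← norm_pow, hx] at this
    exact lt_irrefl _ this
  have pw : ∀ k : ℕ, DwaEv (fun r => k * dwt π Q r) x (dwF π Q x ^ k) := fun k => by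
    induction k with
    | zero => simpa using dwa_zero x
    | succ k ih =>
      rw [pow_succ]
      exact (ih.add (h.ev x1)).congr (exC_congr fun r _ => by push_cast; ring)
  have p1 : (1 : ℝ) < p := by exact_mod_cast c.prime.one_lt
  have π0 : 0 < ‖π‖ := norm_pos_iff.2 h.pi_ne
  have sg : ∀ y : K, ‖y‖ = ‖(p : K) * π‖ → ∃ z, DwaEv (fun r => if r = 1 then y else 0) x z :=
    fun y hy => ⟨_, dwa_sm (ρ := (p : ℝ)⁻¹) (by positivity) (inv_lt_one_of_one_lt₀ p1)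
      (fun n => by
        have := pow_le_norm_factorial c.prime c.norm_p π0.le c.norm_pi.1 n
        rw [dwa_single, norm_div, norm_pow, hy, norm_mul, c.norm_p, mul_pow,
          div_le_iff₀ (lt_of_lt_of_le (by positivity) this)]
        gcongr) x1, rfl⟩
  obtain ⟨a, ha⟩ := sg (p * π) rfl
  obtain ⟨b, hb⟩ := sg (-(p * π)) (norm_neg _)
  have h1 := (ha.add hb).congr (t := fun _ => 0) (exC_congr fun r _ => by split_ifs <;> ring)
  have h2 := (ha.add ((hx.symm ▸ hb : DwaEv _ (x ^ Q) b).ex (by omega))).congr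
    (t := fun r => p * dwt π Q r) (exC_congr fun r _ => by
      unfold dwaEx dwt
      by_cases hd : Q ∣ r
      · obtain ⟨k, rfl⟩ := hd
        have e2 : Q * k = Q ↔ k = 1 := Nat.mul_eq_left (by omega)
        simp only [dvd_mul_right, if_true, Nat.mul_div_cancel_left k (by omega : 0 < Q), e2]
        split_ifs <;> ring
      · have e2 : r ≠ Q := fun e => hd (e ▸ dvd_rfl)
        simp [hd, e2])
  rw [← (pw p).2, h2.2, ← h1.2, (dwa_zero x).2]

theorem norm_dwF_sub (c : Ctx K p π) (h : Bd π p) {x : K} (hx : ‖x‖ ≤ 1) :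
    ‖dwF π p x - 1 - π * x‖ < ‖π‖ := by
  have hb := c.big
  obtain ⟨-, a1, a2⟩ := c.norm_pi
  obtain ⟨ρ, r0, r1, r2, r3⟩ := h.bd
  have sm : ∀ n : ℕ, n < p → ‖dwc π p n‖ = ‖π‖ ^ n := fun n hn => by
    induction n with
    | zero => simp [dwc_zero]
    | succ n ih =>
      have e := congrArg norm (dwc_rec π h.two_le (n + 1 : ℕ))
      rw [dwc_neg π p (by omega : ((n + 1 : ℕ) : ℤ) - p < 0), mul_zero, sub_zero, norm_mul,
        norm_mul, Int.cast_natCast, norm_coprime c.prime c.norm_p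
          (Nat.not_dvd_of_pos_of_lt n.succ_pos hn), one_mul,
        show ((n + 1 : ℕ) : ℤ) - 1 = n by omega, ih (by omega)] at e
      rw [e, pow_succ']
  have c1 : dwc π p 1 = π := by
    have e := dwc_rec π h.two_le 1
    rw [dwc_neg π p (by omega : (1 : ℤ) - p < 0), sub_self, dwc_zero] at e
    simpa using e
  have e : dwF π p x - 1 - π * x = ∑' n : ℕ, dwc π p (n + 2 : ℕ) * x ^ (n + 2) := by
    rw [dwF, ← (h.summable hx).of_norm.sum_add_tsum_nat_add 2]
    simp [sum_range_succ, dwc_zero, c1]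
    ring
  rw [e]
  refine (IsUltrametricDist.norm_tsum_le_of_forall_le_of_nonneg (C := max (‖π‖ ^ 2) (‖π‖ / 2))
    (by positivity) fun n => ?_).trans_lt (max_lt (by nlinarith) (by linarith))
  rw [norm_mul, norm_pow]
  refine (mul_le_of_le_one_right (norm_nonneg _) (pow_le_one₀ (norm_nonneg _) hx)).trans ?_
  rcases lt_or_ge (n + 2) p with hn | hn
  · rw [sm _ hn]
    exact le_max_of_le_left (pow_le_pow_of_le_one (norm_nonneg _) a2.le (by omega))
  · refine le_max_of_le_right ((r3 _).trans ((pow_le_pow_of_le_one r0 r1.le hn).trans ?_))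
    nlinarith [pow_nonneg r0 p]

omit [CompleteSpace K] [IsUltrametricDist K] [CharZero K] in
theorem mem_mu {n : ℕ} (hn : 0 < n) {x : K} : x ∈ mu K n ↔ x ^ n = 1 :=
  Polynomial.mem_nthRootsFinset hn 1

omit [CompleteSpace K] [IsUltrametricDist K] [CharZero K] in
theorem norm_of_mem_mu {n : ℕ} (hn : 0 < n) {x : K} (hx : x ∈ mu K n) : ‖x‖ = 1 := by
  have h := congrArg norm ((mem_mu hn).1 hx)
  rw [norm_pow, norm_one] at h
  exact (pow_eq_one_iff_of_nonneg (norm_nonneg x) hn.ne').1 h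

omit [CompleteSpace K] [IsUltrametricDist K] [CharZero K] in
theorem dworkb_ne {n : ℕ} (hn : 0 < n) {x : K} (hx : x ∈ mu K n) : x ≠ 0 := by
  intro h
  have := norm_of_mem_mu hn hx
  rw [h, norm_zero] at this
  exact zero_ne_one this

omit [CompleteSpace K] [IsUltrametricDist K] [CharZero K] in
theorem dworkb_zpow {n : ℕ} (hn : 0 < n) {x : K} (hx : x ∈ mu K n) {e : ℤ} (he : (n : ℤ) ∣ e) :
    x ^ e = 1 := by
  obtain ⟨t, rfl⟩ := he
  rw [zpow_mul, zpow_natCast, (mem_mu hn).1 hx, one_zpow]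

omit [CompleteSpace K] [IsUltrametricDist K] [CharZero K] in
theorem G_congr (π : K) (hQ : 2 ≤ Q) {κ κ' : ℤ} (h : κ ≡ κ' [ZMOD ((Q : ℤ) - 1)]) :
    G π Q κ = G π Q κ' := by
  have hn : 0 < Q - 1 := by omega
  refine sum_congr rfl fun x hx => ?_
  have hd : ((Q - 1 : ℕ) : ℤ) ∣ κ' - κ := by
    rw [Nat.cast_sub (by omega), Nat.cast_one]
    exact h.dvd
  have e : x ^ κ' = x ^ κ * x ^ (κ' - κ) := by
    rw [← zpow_add₀ (dworkb_ne hn hx)]
    congr 1
    ring
  rw [e, dworkb_zpow hn hx hd, mul_one]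

omit [CompleteSpace K] [IsUltrametricDist K] [CharZero K] in
open Classical in
theorem sum_range_zpow {n : ℕ} (hn : 0 < n) {x : K} (hx : x ∈ mu K n) (e : ℤ) :
    ∑ j ∈ range n, x ^ (e * j) = if x ^ e = 1 then (n : K) else 0 := by
  simp only [zpow_mul, zpow_natCast]
  split_ifs with h
  · simp [h]
  · rw [geom_sum_eq h, ← zpow_natCast, ← zpow_mul, dworkb_zpow hn hx (dvd_mul_left _ _), sub_self,
      zero_div]

theorem dworkb_conj {z : ℂ} {n : ℕ} (hn : n ≠ 0) (h : z ^ n = 1) : (starRingEnd ℂ) z = z⁻¹ := by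
  have h1 : ‖z‖ = 1 := by
    have h2 := congrArg norm h
    rw [norm_pow, norm_one] at h2
    exact (pow_eq_one_iff_of_nonneg (norm_nonneg z) hn).1 h2
  exact (Complex.inv_eq_conj h1).symm

theorem conj_G (c : Ctx K p π) (h : Bd π Q) (hQ : Odd Q) (φ : K →+* ℂ) (κ : ℤ) :
    (starRingEnd ℂ) (φ (G π Q κ)) = (-1) ^ κ * φ (G π Q (-κ)) := by
  have h2 := h.two_le
  have hn : 0 < Q - 1 := by omega
  have hev : Even (Q - 1) := Nat.Odd.sub_odd hQ odd_one
  have hneg : ∀ x ∈ mu K (Q - 1), -x ∈ mu K (Q - 1) := fun x hx => by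
    rw [mem_mu hn] at hx ⊢
    rw [hev.neg_pow, hx]
  unfold G
  rw [map_sum, map_sum, map_sum, mul_sum]
  refine sum_nbij' (fun x => -x) (fun x => -x) hneg hneg (fun x _ => neg_neg x)
    (fun x _ => neg_neg x) fun x hx => ?_
  have hx1 := (mem_mu hn).1 hx
  have hxQ : x ^ Q = x := by
    have : Q = Q - 1 + 1 := by omega
    rw [this, pow_succ, hx1, one_mul]
  have a1 : (starRingEnd ℂ) (φ x) = (φ x)⁻¹ := dworkb_conj hn.ne' (by rw [← map_pow, hx1, map_one])
  have a2 : (starRingEnd ℂ) (φ (dwF π Q x)) = φ (dwF π Q (-x)) := by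
    rw [dworkb_conj c.prime.ne_zero (by rw [← map_pow, dwF_pow_p c h hxQ, map_one])]
    refine inv_eq_of_mul_eq_one_right ?_
    rw [← map_mul, dwF_neg h hQ (norm_of_mem_mu hn hx).le, map_one]
  have a3 : ((-1 : ℂ)) ^ κ * (-φ x) ^ (-κ) = (φ x)⁻¹ ^ κ := by
    rw [zpow_neg, ← inv_zpow, ← mul_zpow, inv_neg, neg_one_mul, neg_neg]
  rw [map_mul, map_mul, map_zpow₀, map_zpow₀, a1, a2, map_mul, map_zpow₀, map_neg, ← mul_assoc, a3]

theorem Nr_mul (q r : ℕ) : Nr q r * ((q : ℤ) - 1) = (q : ℤ) ^ r - 1 :=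
  geom_sum_mul _ _

theorem Nr_succ (q r : ℕ) : Nr q (r + 1) = (q : ℤ) ^ r + Nr q r := by
  unfold Nr
  rw [sum_range_succ, add_comm]

theorem Nr_comp (q d r : ℕ) : Nr (q ^ d) r * Nr q d = Nr q (d * r) := by
  induction r with
  | zero => simp [Nr]
  | succ r ih =>
    rw [Nr_succ, add_mul, ih, Nat.mul_succ]
    unfold Nr
    rw [sum_range_add, mul_sum, add_comm]
    congr 1
    refine sum_congr rfl fun t _ => ?_
    rw [Nat.cast_pow, ← pow_mul, pow_add]

theorem Nr_nonneg (q r : ℕ) : 0 ≤ Nr q r :=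
  sum_nonneg fun _ _ => by positivity

variable [IsAlgClosed K]

omit [CompleteSpace K] [IsUltrametricDist K] in
theorem dworkb_prim {n : ℕ} (hn : 0 < n) : ∃ ζ : K, IsPrimitiveRoot ζ n := by
  have : NeZero n := ⟨hn.ne'⟩
  exact HasEnoughRootsOfUnity.exists_primitiveRoot K n

omit [CompleteSpace K] [IsUltrametricDist K] in
theorem card_mu {n : ℕ} (hn : 0 < n) : (mu K n).card = n := by
  obtain ⟨ζ, hζ⟩ := dworkb_prim (K := K) hn
  exact hζ.card_nthRootsFinset

omit [CompleteSpace K] [IsUltrametricDist K] in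
theorem sum_mu_zpow {n : ℕ} (hn : 0 < n) (e : ℤ) :
    ∑ x ∈ mu K n, x ^ e = if (n : ℤ) ∣ e then (n : K) else 0 := by
  split_ifs with h
  · rw [sum_congr rfl fun x hx => dworkb_zpow hn hx h, sum_const, card_mu hn, nsmul_eq_mul, mul_one]
  · obtain ⟨ζ, hζ⟩ := dworkb_prim (K := K) hn
    have h0 : ζ ≠ 0 := hζ.ne_zero hn.ne'
    have h1 : ζ ^ e ≠ 1 := fun k => h ((hζ.zpow_eq_one_iff_dvd e).1 k)
    have k : ∑ x ∈ mu K n, ζ ^ e * x ^ e = ∑ x ∈ mu K n, x ^ e := by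
      refine sum_nbij' (fun x => ζ * x) (fun x => ζ⁻¹ * x) (fun x hx => ?_) (fun x hx => ?_)
        (fun x _ => inv_mul_cancel_left₀ h0 x) (fun x _ => mul_inv_cancel_left₀ h0 x)
        fun x _ => (mul_zpow _ _ _).symm
      · rw [mem_mu hn] at hx ⊢
        rw [mul_pow, hx, hζ.pow_eq_one, mul_one]
      · rw [mem_mu hn] at hx ⊢
        rw [mul_pow, hx, inv_pow, hζ.pow_eq_one, inv_one, mul_one]
    rw [← mul_sum] at k
    have k2 : (ζ ^ e - 1) * ∑ x ∈ mu K n, x ^ e = 0 := by rw [sub_mul, k, one_mul, sub_self]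
    exact (mul_eq_zero.1 k2).resolve_left (sub_ne_zero.2 h1)

open Classical in
/-- the trace formula on the torus -/
theorem hasSum_G (h : Bd π Q) {κ : ℤ} (hκ : 1 - (Q : ℤ) < κ) :
    HasSum (fun k : ℕ => ((Q : K) - 1) * dwc π Q (((Q : ℤ) - 1) * k - κ)) (G π Q κ) := by
  have h2 := h.two_le
  have hn : 0 < Q - 1 := by omega
  have hc : ((Q - 1 : ℕ) : ℤ) = (Q : ℤ) - 1 := by rw [Nat.cast_sub (by omega), Nat.cast_one]
  have hcK : ((Q - 1 : ℕ) : K) = (Q : K) - 1 := by rw [Nat.cast_sub (by omega), Nat.cast_one]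
  have hq : (0 : ℤ) < (Q : ℤ) - 1 := by omega
  obtain ⟨f, hf⟩ : ∃ f : ℤ → K,
      f = fun m => if ((Q : ℤ) - 1) ∣ κ + m then ((Q : K) - 1) * dwc π Q m else 0 := ⟨_, rfl⟩
  have s1 : HasSum (fun n : ℕ => ∑ x ∈ mu K (Q - 1), x ^ κ * (dwc π Q n * x ^ n)) (G π Q κ) :=
    hasSum_sum fun x hx =>
      ((h.summable (norm_of_mem_mu hn hx).le).of_norm.hasSum).mul_left (x ^ κ)
  have s2 : HasSum (f ∘ fun n : ℕ => (n : ℤ)) (G π Q κ) := by
    refine s1.congr_fun fun n => ?_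
    have e : ∑ x ∈ mu K (Q - 1), x ^ κ * (dwc π Q n * x ^ n) =
        dwc π Q n * ∑ x ∈ mu K (Q - 1), x ^ (κ + n) := by
      rw [mul_sum]
      refine sum_congr rfl fun x hx => ?_
      rw [zpow_add₀ (dworkb_ne hn hx), zpow_natCast]
      ring
    rw [e, sum_mu_zpow hn, hc, hcK, hf]
    simp only [Function.comp]
    split_ifs
    · ring
    · ring
  have s3 : HasSum f (G π Q κ) := by
    refine (Nat.cast_injective.hasSum_iff fun m hm => ?_).1 s2
    have : m < 0 := by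
      by_contra k
      exact hm ⟨m.toNat, Int.toNat_of_nonneg (not_lt.1 k)⟩
    rw [hf]
    simp only [dwc_neg π Q this, mul_zero, ite_self]
  have inj : Function.Injective fun k : ℕ => ((Q : ℤ) - 1) * k - κ := fun a b hab => by
    have : ((Q : ℤ) - 1) * a = ((Q : ℤ) - 1) * b := by linarith
    exact_mod_cast mul_left_cancel₀ hq.ne' this
  have s4 := (inj.hasSum_iff (f := f) (a := G π Q κ) fun m hm => ?_).2 s3
  · refine s4.congr_fun fun k => ?_
    rw [hf]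
    simp only [Function.comp]
    rw [if_pos ⟨k, by ring⟩]
  · rw [hf]
    simp only
    split_ifs with hd
    · obtain ⟨t, ht⟩ := hd
      have ht0 : t < 0 := by
        by_contra k
        exact hm ⟨t.toNat, by simp only [Int.toNat_of_nonneg (not_lt.1 k)]; linarith⟩
      have : m < 0 := by nlinarith
      rw [dwc_neg π Q this, mul_zero]
    · rfl

end

end Pool.Agent.P.MP_9484ad_co
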