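import Pool.Agent.P.MP_9484ad_co.ExAlg

/-! Norm bounds for formal exponentials, the product formula and the positivity argument. -/

set_option autoImplicit false

namespace Pool.Agent.P.MP_9484ad_co

open Finset Filter Topology

/-- Archimedean (in fact any) norm with `‖n‖ = n`: `‖t r‖ ≤ C ^ r` gives `‖e n‖ ≤ C ^ n`. -/
theorem Ex_le_complex {t : ℕ → ℂ} {C : ℝ} (h : ∀ r, 1 ≤ r → ‖t r‖ ≤ C ^ r) (n : ℕ) :
    ‖Ex t n‖ ≤ C ^ n := by
  induction n using Nat.strong_induction_on with
  | _ n ih =>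
    cases n with
    | zero => simp [Ex_zero]
    | succ n =>
      have h1 : ‖((n : ℂ) + 1)‖ = (n : ℝ) + 1 := by exact_mod_cast Complex.norm_natCast (n + 1)
      have h2 : ((n : ℝ) + 1) * ‖Ex t (n + 1)‖ ≤ ((n : ℝ) + 1) * C ^ (n + 1) := by
        rw [← h1, ← norm_mul, Ex_succ, h1]
        refine (norm_sum_le _ _).trans ?_
        refine (sum_le_card_nsmul _ _ (C ^ (n + 1)) fun r hr => ?_).trans (by simp)
        have hr' := mem_range.1 hr
        rw [norm_mul, show n + 1 = r + 1 + (n - r) by omega, pow_add]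
        have h3 := h (r + 1) (by omega)
        exact mul_le_mul h3 (ih _ (by omega)) (norm_nonneg _) ((norm_nonneg _).trans h3)
      exact le_of_mul_le_mul_left h2 (by positivity)

section Ultra

variable {K : Type*} [NormedField K] [IsUltrametricDist K] [CharZero K]

theorem factorial_mul_Ex_le {t : ℕ → K} {θ : ℝ} (h : ∀ r, 1 ≤ r → ‖t r‖ ≤ θ ^ r) (n : ℕ) :
    ‖(n.factorial : K) * Ex t n‖ ≤ θ ^ n := by
  have hθ : 0 ≤ θ := by simpa using (norm_nonneg _).trans (h 1 le_rfl)
  induction n using Nat.strong_induction_on with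
  | _ n ih =>
    cases n with
    | zero => simp [Ex_zero]
    | succ n =>
      have h1 : ((n + 1).factorial : K) * Ex t (n + 1) = ∑ r ∈ range (n + 1),
          (n.descFactorial r : K) * (t (r + 1) * (((n - r).factorial : K) * Ex t (n - r))) := by
        rw [Nat.factorial_succ, Nat.cast_mul, Nat.cast_succ, mul_comm ((n : K) + 1), mul_assoc,
          Ex_succ, mul_sum]
        refine sum_congr rfl fun r hr => ?_
        have hr' := mem_range.1 hr
        rw [← Nat.factorial_mul_descFactorial (by omega : r ≤ n), Nat.cast_mul]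
        ring
      rw [h1]
      refine IsUltrametricDist.norm_sum_le_of_forall_le_of_nonneg (by positivity) fun r hr => ?_
      have hr' := mem_range.1 hr
      rw [norm_mul, norm_mul, show n + 1 = r + 1 + (n - r) by omega, pow_add]
      refine (mul_le_of_le_one_left (by positivity)
        (IsUltrametricDist.norm_natCast_le_one K _)).trans ?_
      exact mul_le_mul (h _ (by omega)) (ih _ (by omega)) (norm_nonneg _) (by positivity)

omit [CharZero K] in
theorem norm_aeval_le_one (P : Polynomial ℤ) {x : K} (hx : ‖x‖ ≤ 1) :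
    ‖Polynomial.aeval x P‖ ≤ 1 := by
  rw [Polynomial.aeval_eq_sum_range]
  refine IsUltrametricDist.norm_sum_le_of_forall_le_of_nonneg zero_le_one fun i _ => ?_
  rw [zsmul_eq_mul, norm_mul, norm_pow]
  exact mul_le_one₀ (IsUltrametricDist.norm_intCast_le_one K _) (by positivity)
    (pow_le_one₀ (norm_nonneg _) hx)

omit [IsUltrametricDist K] in
/-- Every complex root of the minimal polynomial comes from a homomorphism of `O`. -/
theorem exists_hom_of_root (O : Subring K) [Module.Finite ℤ O] (x : O) {z : ℂ}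
    (hz : Polynomial.aeval z (minpoly ℤ x) = 0) : ∃ σ : O →+* ℂ, σ x = z := by
  have hint : ∀ y : O, IsIntegral ℤ (y : K) := fun y =>
    (IsIntegral.of_finite ℤ y).map (O.subtype.toIntAlgHom)
  have h1 : minpoly ℤ (x : K) = minpoly ℤ x :=
    minpoly.algHom_eq O.subtype.toIntAlgHom Subtype.val_injective x
  have h2 : Polynomial.aeval z (minpoly ℚ (x : K)) = 0 := by
    rw [minpoly.isIntegrallyClosed_eq_field_fractions' ℚ (hint x), h1,
      Polynomial.aeval_map_algebraMap, hz]
  obtain ⟨φ, hφ⟩ := IntermediateField.exists_algHom_adjoin_of_splits_of_aeval (F := ℚ) (K := ℂ)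
    (S := (O : Set K)) (fun s hs => ⟨(hint ⟨s, hs⟩).tower_top, IsAlgClosed.splits _⟩)
    (IntermediateField.subset_adjoin ℚ _ x.2) h2
  let ι : O →+* IntermediateField.adjoin ℚ (O : Set K) :=
    O.subtype.codRestrict (IntermediateField.adjoin ℚ (O : Set K))
      fun y => IntermediateField.subset_adjoin ℚ _ y.2
  exact ⟨φ.toRingHom.comp ι, hφ⟩

/-- The product formula, as an inequality. -/
theorem prod_formula (hK : ∀ c : ℤ, c ≠ 0 → 1 ≤ |(c : ℝ)| * ‖(c : K)‖) (O : Subring K)
    [Module.Finite ℤ O] {x : O} (hx : x ≠ 0) {B : ℝ} (h1 : 1 ≤ B)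
    (hB : ∀ σ : O →+* ℂ, ‖σ x‖ ≤ B) : 1 ≤ B ^ Module.finrank ℤ O * ‖(x : K)‖ := by
  have hBD : 1 ≤ B ^ Module.finrank ℤ O := one_le_pow₀ h1
  rcases le_total ‖(x : K)‖ 1 with hx1 | hx1
  swap
  · exact one_le_mul_of_one_le_of_one_le hBD hx1
  have hint : IsIntegral ℤ x := IsIntegral.of_finite ℤ x
  set P := minpoly ℤ x with hP
  have hm : P.Monic := minpoly.monic hint
  have hdeg : P.natDegree ≤ Module.finrank ℤ O := minpoly.natDegree_le x
  have hc : P.coeff 0 ≠ 0 := by
    intro h0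
    have h2 : P = P.divX * Polynomial.X := by
      conv_lhs => rw [← Polynomial.divX_mul_X_add P, h0]
      simp
    have h3 : Polynomial.aeval x P.divX = 0 := by
      have h4 := minpoly.aeval ℤ x
      rw [← hP, h2, map_mul, Polynomial.aeval_X] at h4
      exact (mul_eq_zero.1 h4).resolve_right hx
    have h5 : P.divX ≠ 0 := fun h => hm.ne_zero (by rw [h2, h, zero_mul])
    have h6 := minpoly.IsIntegrallyClosed.degree_le_of_ne_zero h5 h3
    exact absurd (Polynomial.degree_divX_lt hm.ne_zero) (not_lt.2 h6)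
  have h2 : ‖((P.coeff 0 : ℤ) : K)‖ ≤ ‖(x : K)‖ := by
    have h3 : Polynomial.aeval (x : K) P = 0 := by
      have := congrArg O.subtype.toIntAlgHom (minpoly.aeval ℤ x)
      rwa [← Polynomial.aeval_algHom_apply, map_zero] at this
    rw [← Polynomial.divX_mul_X_add P, map_add, map_mul, Polynomial.aeval_X,
      Polynomial.aeval_C] at h3
    have h4 : ((P.coeff 0 : ℤ) : K) = -(Polynomial.aeval (x : K) P.divX * x) := by
      rw [eq_neg_iff_add_eq_zero, add_comm]
      simpa using h3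
    rw [h4, norm_neg, norm_mul]
    exact mul_le_of_le_one_left (norm_nonneg _) (norm_aeval_le_one _ hx1)
  have h3 : |((P.coeff 0 : ℤ) : ℝ)| ≤ B ^ Module.finrank ℤ O := by
    set Q := P.map (Int.castRingHom ℂ) with hQ
    have hQm : Q.Monic := hm.map _
    have hsp := IsAlgClosed.splits Q
    have h4 := hsp.coeff_zero_eq_prod_roots_of_monic hQm
    have h5 : Q.roots.card = P.natDegree := by
      rw [← hsp.natDegree_eq_card_roots, hQ, hm.natDegree_map]
    have h6 : ‖Q.roots.prod‖ ≤ B ^ Q.roots.card := by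
      have h7 : ∀ s : Multiset ℂ, (∀ z ∈ s, ‖z‖ ≤ B) → ‖s.prod‖ ≤ B ^ s.card := by
        intro s
        induction s using Multiset.induction_on with
        | empty => simp
        | cons a s ih =>
          intro h
          rw [Multiset.prod_cons, Multiset.card_cons, norm_mul, pow_succ']
          exact mul_le_mul (h a (Multiset.mem_cons_self a s))
            (ih fun z hz => h z (Multiset.mem_cons_of_mem hz)) (norm_nonneg _) (by positivity)
      refine h7 _ fun z hz => ?_
      obtain ⟨σ, rfl⟩ := exists_hom_of_root O x (z := z) (by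
        have h8 := (Polynomial.mem_roots hQm.ne_zero).1 hz
        rwa [Polynomial.IsRoot.def, hQ, Polynomial.eval_map, ← algebraMap_int_eq,
          ← Polynomial.aeval_def] at h8)
      exact hB σ
    have h8 : ‖Q.coeff 0‖ = |((P.coeff 0 : ℤ) : ℝ)| := by
      rw [hQ, Polynomial.coeff_map, eq_intCast, Complex.norm_intCast]
    rw [← h8, h4, norm_mul, norm_pow, norm_neg, norm_one, one_pow, one_mul]
    exact h6.trans (pow_le_pow_right₀ h1 (h5.le.trans hdeg))
  exact (hK _ hc).trans (mul_le_mul h3 h2 (norm_nonneg _) (by positivity))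

/-- Integral coefficients, geometric growth at all complex places and fast decay at the given
place force a polynomial. -/
theorem Ex_eventually_zero (hK : ∀ c : ℤ, c ≠ 0 → 1 ≤ |(c : ℝ)| * ‖(c : K)‖) (O : Subring K)
    [Module.Finite ℤ O] (t : ℕ → O) (hint : ∀ n, Ex (fun r => (t r : K)) n ∈ O) {C A θ : ℝ}
    (h1 : 1 ≤ C) (hC : ∀ (σ : O →+* ℂ) r, 1 ≤ r → ‖σ (t r)‖ ≤ C ^ r) (h0 : 0 ≤ θ)
    (hθ : C ^ Module.finrank ℤ O * θ < 1)
    (hA : ∀ n, ‖Ex (fun r => (t r : K)) n‖ ≤ A * θ ^ n) :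
    ∃ N, ∀ n, N < n → Ex (fun r => (t r : K)) n = 0 := by
  have h2 : Tendsto (fun n : ℕ => A * (C ^ Module.finrank ℤ O * θ) ^ n) atTop (𝓝 (A * 0)) :=
    (tendsto_pow_atTop_nhds_zero_of_lt_one (by positivity) hθ).const_mul A
  rw [mul_zero] at h2
  obtain ⟨N, hN⟩ := eventually_atTop.1 (h2.eventually (gt_mem_nhds zero_lt_one))
  refine ⟨N, fun n hn => ?_⟩
  by_contra hne
  have h3 := prod_formula hK O (x := ⟨_, hint n⟩) (fun h => hne (congrArg Subtype.val h))
    (one_le_pow₀ h1 (n := n)) fun σ => by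
      rw [Ex_map_subring O σ t hint n]
      exact Ex_le_complex (hC σ) n
  have h4 := hN n hn.le
  have h5 : (C ^ n) ^ Module.finrank ℤ O * ‖Ex (fun r => (t r : K)) n‖ ≤
      A * (C ^ Module.finrank ℤ O * θ) ^ n := by
    calc (C ^ n) ^ Module.finrank ℤ O * ‖Ex (fun r => (t r : K)) n‖
        ≤ (C ^ n) ^ Module.finrank ℤ O * (A * θ ^ n) :=
          mul_le_mul_of_nonneg_left (hA n) (by positivity)
      _ = A * (C ^ Module.finrank ℤ O * θ) ^ n := by
          rw [mul_pow, ← pow_mul, ← pow_mul, mul_comm n]; ring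
  exact absurd (h3.trans h5) (not_le.2 h4)

/-- The form used in the end: an entire exponential gives complex power sums. -/
theorem exists_power_sums (hK : ∀ c : ℤ, c ≠ 0 → 1 ≤ |(c : ℝ)| * ‖(c : K)‖) (O : Subring K)
    [Module.Finite ℤ O] (t : ℕ → O) (hint : ∀ n, Ex (fun r => (t r : K)) n ∈ O) {C : ℝ}
    (hC : ∀ (σ : O →+* ℂ) r, 1 ≤ r → ‖σ (t r)‖ ≤ C ^ r)
    (hA : ∀ θ : ℝ, 0 < θ → ∃ A : ℝ, ∀ n, ‖Ex (fun r => (t r : K)) n‖ ≤ A * θ ^ n)
    (σ : O →+* ℂ) : ∃ s : Multiset ℂ, ∀ r, 1 ≤ r → σ (t r) = -(s.map (· ^ r)).sum := by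
  have h1 : 1 ≤ max C 1 := le_max_right _ _
  have h2 : 0 < max C 1 ^ Module.finrank ℤ O := by positivity
  obtain ⟨A, hA'⟩ := hA (1 / (2 * max C 1 ^ Module.finrank ℤ O)) (by positivity)
  obtain ⟨N, hN⟩ := Ex_eventually_zero hK O t hint h1 (fun τ r hr => by
    have h3 : 0 ≤ C := by simpa using (norm_nonneg _).trans (hC τ 1 le_rfl)
    exact (hC τ r hr).trans (pow_le_pow_left₀ h3 (le_max_left _ _) r)) (by positivity)
    (by field_simp; norm_num) hA'
  obtain ⟨s, _, hs⟩ := exists_multiset (t := fun r => σ (t r)) (N := N) fun n hn => by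
    rw [← Ex_map_subring O σ t hint n]
    have : (⟨_, hint n⟩ : O) = 0 := Subtype.ext (hN n hn)
    rw [this, map_zero]
  exact ⟨s, hs⟩

end Ultra

/-- The ring generated by one element. -/
def cycO {K : Type*} [Field K] (ζ : K) : Subring K := (Algebra.adjoin ℤ {ζ}).toSubring

theorem cycO_self {K : Type*} [Field K] (ζ : K) : ζ ∈ cycO ζ := Algebra.self_mem_adjoin_singleton ℤ ζ

theorem cycO_finite {K : Type*} [Field K] {ζ : K} {M : ℕ} (hM : 0 < M) (h : ζ ^ M = 1) :
    Module.Finite ℤ (cycO ζ) :=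
  Algebra.finite_adjoin_simple_of_isIntegral
    (IsIntegral.of_pow hM (by rw [h]; exact isIntegral_one))

section Padic

variable (p : ℕ) [hp : Fact p.Prime]

theorem norm_ratCast_padic (q : ℚ) : ‖(q : ℂ_[p])‖ = padicNorm p q := by
  rw [← Padic.eq_padicNorm, ← PadicComplex.norm_extends']
  congr 1
  rw [PadicComplex.coe_eq, map_ratCast, map_ratCast]

theorem norm_natCast_padic {n : ℕ} (hn : n ≠ 0) :
    ‖(n : ℂ_[p])‖ = ((p : ℝ) ^ padicValNat p n)⁻¹ := by
  have h := norm_ratCast_padic p n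
  rw [Rat.cast_natCast, padicNorm.eq_zpow_of_nonzero (by exact_mod_cast hn),
    ← padicValRat_of_nat] at h
  rw [h]
  simp

theorem norm_p_padic : ‖(p : ℂ_[p])‖ = (p : ℝ)⁻¹ := by
  rw [norm_natCast_padic p hp.out.ne_zero, padicValNat_self, pow_one]

theorem one_le_mul_norm_nat {n : ℕ} (hn : n ≠ 0) : 1 ≤ (n : ℝ) * ‖(n : ℂ_[p])‖ := by
  have h0 : (0 : ℝ) < (p : ℝ) ^ padicValNat p n := pow_pos (by exact_mod_cast hp.out.pos) _
  rw [norm_natCast_padic p hn, ← div_eq_mul_inv, one_le_div h0]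
  exact_mod_cast Nat.le_of_dvd (Nat.pos_of_ne_zero hn) pow_padicValNat_dvd

theorem one_le_mul_norm_int (c : ℤ) (hc : c ≠ 0) : 1 ≤ |(c : ℝ)| * ‖(c : ℂ_[p])‖ := by
  have h := one_le_mul_norm_nat p (Int.natAbs_ne_zero.2 hc)
  have h2 : ‖((c.natAbs : ℕ) : ℂ_[p])‖ = ‖(c : ℂ_[p])‖ := by
    rcases Int.natAbs_eq c with h1 | h1
    · conv_rhs => rw [h1]
      simp only [Int.cast_natCast]
    · conv_rhs => rw [h1]
      simp only [Int.cast_neg, Int.cast_natCast, norm_neg]
  rwa [h2, Nat.cast_natAbs, Int.cast_abs] at h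

end Padic

/-- Simultaneous return: infinitely often all powers point to the right. -/
theorem frequently_re_ge (s : Finset ℂ) :
    ∃ᶠ r : ℕ in atTop, ∀ z ∈ s, ‖z‖ ^ r / 2 ≤ (z ^ r).re := by
  let u : s → Circle := fun z => Circle.exp (Complex.arg z)
  have h1 := mapClusterPt_one_atTop_pow u
  have h2 : {v : s → Circle | ∀ z, 1 / 2 < ((v z : Circle) : ℂ).re} ∈ 𝓝 (1 : s → Circle) := by
    refine IsOpen.mem_nhds ?_ fun z => by norm_num
    rw [Set.ofPred_forall]
    exact isOpen_iInter_of_finite fun z => isOpen_lt continuous_const (by fun_prop)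
  refine (h1.frequently h2).mono fun r hr z hz => ?_
  have h3 := hr ⟨z, hz⟩
  have h4 : z ^ r = ((‖z‖ ^ r : ℝ) : ℂ) * (((u ^ r) ⟨z, hz⟩ : Circle) : ℂ) := by
    have h5 : (((u ^ r) ⟨z, hz⟩ : Circle) : ℂ) = Complex.exp (Complex.arg z * Complex.I) ^ r := by
      simp [u]
    rw [h5, Complex.ofReal_pow, ← mul_pow, Complex.norm_mul_exp_arg_mul_I]
  rw [h4, Complex.re_ofReal_mul]
  have h5 : 0 ≤ ‖z‖ ^ r := by positivity
  nlinarith

/-- Positivity: a one-sided bound for the power sums bounds every term. -/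
theorem norm_le_of_re_sum_le (s : Multiset ℂ) {A B : ℝ} (hB : 0 ≤ B)
    (h : ∀ᶠ r : ℕ in atTop, ((s.map (· ^ r)).sum).re ≤ A * B ^ r) : ∀ z ∈ s, ‖z‖ ≤ B := by
  classical
  intro z hz
  by_contra hlt
  have h1 : B < ‖z‖ := not_le.1 hlt
  have h0 : 0 < ‖z‖ := hB.trans_lt h1
  have h2 : Tendsto (fun r : ℕ => A * (B / ‖z‖) ^ r) atTop (𝓝 (A * 0)) :=
    (tendsto_pow_atTop_nhds_zero_of_lt_one (by positivity) ((div_lt_one h0).2 h1)).const_mul A
  rw [mul_zero] at h2
  obtain ⟨r, h3, h4, h5⟩ := ((frequently_re_ge s.toFinset).and_eventually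
    (h.and (h2.eventually (gt_mem_nhds (by norm_num : (0 : ℝ) < 1 / 2))))).exists
  obtain ⟨s', rfl⟩ := Multiset.exists_cons_of_mem hz
  rw [Multiset.map_cons, Multiset.sum_cons, Complex.add_re] at h4
  have h6 : 0 ≤ ((s'.map (· ^ r)).sum).re := by
    have h7 := map_multiset_sum Complex.reCLM (s'.map (· ^ r))
    rw [Complex.reCLM_apply] at h7
    rw [h7]
    refine Multiset.sum_nonneg fun x hx => ?_
    simp only [Multiset.map_map, Multiset.mem_map, Function.comp] at hx
    obtain ⟨y, hy, rfl⟩ := hx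
    exact le_trans (by positivity)
      (h3 y (Multiset.mem_toFinset.2 (Multiset.mem_cons_of_mem hy)))
  have h7 := h3 z (Multiset.mem_toFinset.2 hz)
  rw [div_pow, ← mul_div_assoc, div_lt_iff₀ (by positivity)] at h5
  linarith

/-- Bounded terms give bounded power sums. -/
theorem norm_power_sum_le (s : Multiset ℂ) {B : ℝ} (h : ∀ z ∈ s, ‖z‖ ≤ B) (r : ℕ) :
    ‖(s.map (· ^ r)).sum‖ ≤ s.card * B ^ r := by
  induction s using Multiset.induction_on with
  | empty => simp
  | cons a s ih =>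
    rw [Multiset.map_cons, Multiset.sum_cons, Multiset.card_cons, Nat.cast_succ, add_mul, one_mul,
      add_comm _ (B ^ r)]
    refine (norm_add_le _ _).trans (add_le_add ?_ (ih fun z hz => h z (Multiset.mem_cons_of_mem hz)))
    rw [norm_pow]
    exact pow_le_pow_left₀ (norm_nonneg _) (h a (Multiset.mem_cons_self a s)) r

end Pool.Agent.P.MP_9484ad_co
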