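import Pool.Agent.P.MP_9484ad_co.Ex

/-! Integrality, the product formula and positivity. -/

namespace Pool.Agent.P.MP_9484ad_co

open Finset

/-- `t r` is a sum over the points of period `r` of a map `F`, with weights that are `M`-th roots
of unity, constant on orbits and multiplicative in the period; there are at most `C ^ r` points -/
def Dold {K : Type*} [Field K] (M : ℕ) (t : ℕ → K) : Prop :=
  ∃ (Ω : Type) (F : Ω → Ω) (S : ℕ → Finset Ω) (w : ℕ → Ω → K) (C : ℕ),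
    (∀ r x, 1 ≤ r → (x ∈ S r ↔ F^[r] x = x)) ∧ (∀ r, 1 ≤ r → (S r).card ≤ C ^ r) ∧
    (∀ r, 1 ≤ r → ∀ x ∈ S r, w r (F x) = w r x ∧ w r x ^ M = 1 ∧
      ∀ k, 1 ≤ k → w (r * k) x = w r x ^ k) ∧
    ∀ r, 1 ≤ r → t r = ∑ x ∈ S r, w r x

theorem Dold.spec {K : Type*} [Field K] [CharZero K] {M : ℕ} (hM : 0 < M) {ζ : K}
    (hζ : IsPrimitiveRoot ζ M) {t : ℕ → K} (ht : Dold M t) :
    IntE (cycO ζ) t ∧ ∃ C : ℝ, 0 ≤ C ∧ ∀ r, 1 ≤ r → ∃ h : t r ∈ cycO ζ,
      ∀ σ : cycO ζ →+* ℂ, ‖σ ⟨t r, h⟩‖ ≤ C ^ r := by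
  obtain ⟨Ω, F, S, w, C, h1, h2, h3, h4⟩ := ht
  have := NeZero.of_pos hM
  have hO : ∀ r, 1 ≤ r → ∀ x ∈ S r, w r x ∈ cycO ζ := fun r hr x hx => by
    obtain ⟨i, _, hi⟩ := hζ.eq_pow_of_pow_eq_one (h3 r hr x hx).2.1
    exact hi ▸ (cycO ζ).pow_mem (cycO_self ζ) i
  refine ⟨(dold (cycO ζ) F w S h1 (fun r v hr hv => (h3 r hr v ((h1 r v hr).2 hv)).1)
    (fun d k v hd hk hv => (h3 d hd v ((h1 d v hd).2 hv)).2.2 k hk)
    fun r v hr hv => hO r hr v ((h1 r v hr).2 hv)).congr h4, C, C.cast_nonneg, fun r hr => ?_⟩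
  refine ⟨h4 r hr ▸ (cycO ζ).sum_mem (hO r hr), fun σ => ?_⟩
  have h5 : ∀ h, (⟨t r, h⟩ : cycO ζ) = ∑ x ∈ (S r).attach, ⟨w r x, hO r hr x x.2⟩ := fun h => by
    apply Subtype.ext
    rw [AddSubmonoidClass.coe_finsetSum]
    exact (h4 r hr).trans (sum_attach _ _).symm
  rw [h5, map_sum]
  refine (norm_sum_le _ _).trans ((sum_le_card_nsmul _ _ 1 fun x _ => ?_).trans ?_)
  · refine (Complex.norm_eq_one_of_pow_eq_one (n := M) ?_ hM.ne').le
    rw [← map_pow, ← map_one σ]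
    exact congrArg σ (Subtype.ext (h3 r hr x x.2).2.1)
  · rw [card_attach, nsmul_one]
    exact_mod_cast h2 r hr

/-- Borel-Dwork: the difference of two such sequences whose series is `p`-adically entire is minus
a finite power sum -/
theorem exists_powerSum {K : Type*} [NontriviallyNormedField K] [IsUltrametricDist K] [CharZero K]
    [IsAlgClosed K] {p : ℕ} (hp : p.Prime) (hn : ‖(p : K)‖ = (p : ℝ)⁻¹) {M : ℕ} (hM : 0 < M)
    {s t : ℕ → K} (hs : Dold M s) (ht : Dold M t)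
    (h : ∀ θ : ℝ, 0 < θ → Dec θ fun r => s r - t r) :
    ∃ m : Multiset K, ∀ r, 1 ≤ r → s r - t r = -(m.map (· ^ r)).sum := by
  have := NeZero.of_pos hM
  have : NeZero (M : K) := ⟨Nat.cast_ne_zero.2 hM.ne'⟩
  obtain ⟨ζ, hζ⟩ := HasEnoughRootsOfUnity.exists_primitiveRoot K M
  obtain ⟨h1, C, hC, h2⟩ := hs.spec hM hζ
  obtain ⟨h3, E, hE, h4⟩ := ht.spec hM hζ
  have := cycO_finite hM hζ.pow_eq_one
  choose h2 h2' using h2
  choose h4 h4' using h4
  let u : ℕ → cycO ζ := fun r => if hr : 1 ≤ r then ⟨s r, h2 r hr⟩ - ⟨t r, h4 r hr⟩ else 0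
  have hu : ∀ r, 1 ≤ r → (u r : K) = s r - t r := fun r hr => by simp [u, hr]
  have hE1 : ∀ n, Ex (fun r => (u r : K)) n = Ex (fun r => s r - t r) n := fun n =>
    Ex_congr fun r hr _ => hu r hr
  have h5 : 1 ≤ C + E + 1 := by linarith
  have h6 : 0 < (C + E + 1) ^ Module.finrank ℤ (cycO ζ) := by positivity
  obtain ⟨A, hA⟩ := h (1 / (2 * (C + E + 1) ^ Module.finrank ℤ (cycO ζ))) (by positivity)
  obtain ⟨N, hN⟩ := Ex_eventually_zero (one_le_mul_norm hp hn) (cycO ζ) u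
    (fun n => hE1 n ▸ ((h1.sub h3) n).1) h5 (fun σ r hr => by
      simp only [u, dif_pos hr, map_sub]
      refine (norm_sub_le _ _).trans ((add_le_add (h2' r hr σ) (h4' r hr σ)).trans ?_)
      exact (pow_add_pow_le hC hE (by omega)).trans
        (pow_le_pow_left₀ (by positivity) (by linarith) r))
    (θ := 1 / (2 * (C + E + 1) ^ Module.finrank ℤ (cycO ζ))) (A := A) (by positivity)
    (by field_simp; norm_num) fun n => by rw [hE1, ← exC_eq]; exact hA n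
  obtain ⟨m, _, hm⟩ := exists_multiset (t := fun r => s r - t r) (N := N) fun n hn => by
    rw [← hE1, hN n hn]
  exact ⟨m, hm⟩

theorem norm_le_of_re_powerSum (m : Multiset ℂ) {A B : ℝ} (hB : 0 ≤ B)
    (h : ∀ r, 1 ≤ r → ((m.map (· ^ r)).sum).re ≤ A * B ^ r) : ∀ z ∈ m, ‖z‖ ≤ B := by
  exact norm_le_of_re_sum_le m hB (Filter.eventually_atTop.2 ⟨1, h⟩)

theorem pow_norm_le_of_powerSum (m : Multiset ℂ) {k : ℕ} (hk : k ≠ 0) {A D : ℝ} (hD : 0 ≤ D)
    (h : ∀ r, 1 ≤ r → ‖(m.map (· ^ r)).sum‖ ^ k ≤ A * D ^ r) : ∀ z ∈ m, ‖z‖ ^ k ≤ D := by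
  intro z hz
  have h1 : 0 ≤ D ^ (k⁻¹ : ℝ) := Real.rpow_nonneg hD _
  have h2 : 0 ≤ |A| ^ (k⁻¹ : ℝ) := Real.rpow_nonneg (abs_nonneg A) _
  have h3 := norm_le_of_re_powerSum m (A := |A| ^ (k⁻¹ : ℝ)) h1 (fun r hr => by
    refine (Complex.re_le_norm _).trans (le_of_pow_le_pow_left₀ hk (by positivity) ?_)
    rw [mul_pow, ← pow_mul, mul_comm r, pow_mul, Real.rpow_inv_natCast_pow hD hk,
      Real.rpow_inv_natCast_pow (abs_nonneg A) hk]
    exact (h r hr).trans (mul_le_mul_of_nonneg_right (le_abs_self A) (by positivity))) z hz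
  exact (pow_le_pow_left₀ (norm_nonneg _) h3 k).trans (Real.rpow_inv_natCast_pow hD hk).le

theorem norm_trace_pow_le_of_roots {ι : Type*} [Fintype ι] [DecidableEq ι] (M : Matrix ι ι ℂ)
    {B : ℝ} (h : ∀ z ∈ M.charpoly.roots, ‖z‖ ≤ B) (r : ℕ) :
    ‖(M ^ r).trace‖ ≤ Fintype.card ι * B ^ r := by
  rw [trace_pow_eq, ← M.charpoly_natDegree_eq_dim,
    (IsAlgClosed.splits M.charpoly).natDegree_eq_card_roots]
  exact norm_power_sum_le _ h r

/-- a bound for the traces of the powers `M ^ (d * r)` gives the sharp bound for all powers -/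
theorem norm_trace_pow_le {ι : Type*} [Fintype ι] [DecidableEq ι] (M : Matrix ι ι ℂ) {d : ℕ}
    (hd : 0 < d) {A B : ℝ} (hB : 0 ≤ B) (h : ∀ r, 1 ≤ r → ‖(M ^ (d * r)).trace‖ ≤ A * B ^ (d * r))
    (r : ℕ) : ‖(M ^ r).trace‖ ≤ Fintype.card ι * B ^ r := by
  refine norm_trace_pow_le_of_roots M (fun z hz => ?_) r
  have h1 := norm_le_of_re_powerSum (M.charpoly.roots.map (· ^ d)) (A := A) (B := B ^ d)
    (by positivity) (fun r hr => by
      have h2 := h r hr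
      rw [trace_pow_eq, pow_mul] at h2
      refine (Complex.re_le_norm _).trans (le_trans (le_of_eq ?_) h2)
      simp only [Multiset.map_map, Function.comp, pow_mul]) _ (Multiset.mem_map_of_mem _ hz)
  rw [norm_pow] at h1
  exact le_of_pow_le_pow_left₀ hd.ne' hB h1

/-- The Rankin trick. `h r` is the trace at the new point, `s m r` the moment over the line and
`t m r` the `m`-th power of the trace at the base point. -/
theorem rankin {ι : Type*} [Fintype ι] [DecidableEq ι] (M : Matrix ι ι ℂ) {q B : ℝ} (hq : 1 ≤ q)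
    (hB : 0 ≤ B) (s t : ℕ → ℕ → ℂ)
    (hs : ∀ m r, 1 ≤ m → 1 ≤ r → ‖(M ^ r).trace‖ ^ (4 * m) ≤ q ^ r * (s m r).re)
    (ht : ∀ m, 1 ≤ m → ∃ A, ∀ r, 1 ≤ r → ‖t m r‖ ≤ A * (B ^ (4 * m)) ^ r)
    (h : ∀ m, 1 ≤ m → ∃ n : Multiset ℂ, ∀ r, 1 ≤ r → s m r - t m r = -(n.map (· ^ r)).sum)
    (r : ℕ) : ‖(M ^ r).trace‖ ≤ Fintype.card ι * B ^ r := by
  refine norm_trace_pow_le_of_roots M (fun z hz => ?_) r
  have hq0 : 0 < q := zero_lt_one.trans_le hq
  have key : ∀ m, 1 ≤ m → ‖z‖ ^ (4 * m) ≤ q * B ^ (4 * m) := by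
    intro m hm
    obtain ⟨A, hA⟩ := ht m hm
    obtain ⟨n, hn⟩ := h m hm
    have h1 := norm_le_of_re_powerSum n (A := A) (B := B ^ (4 * m)) (by positivity) fun r hr => by
      have h2 : 0 ≤ (s m r).re :=
        nonneg_of_mul_nonneg_right (le_trans (by positivity) (hs m r hm hr)) (pow_pos hq0 r)
      have h3 := congrArg Complex.re (hn r hr)
      rw [Complex.sub_re, Complex.neg_re] at h3
      have h4 := (Complex.re_le_norm _).trans (hA r hr)
      linarith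
    refine pow_norm_le_of_powerSum _ (by omega) (A := A + n.card) (by positivity)
      (fun r hr => ?_) z hz
    rw [← trace_pow_eq]
    refine (hs m r hm hr).trans ?_
    have h3 := congrArg Complex.re (hn r hr)
    rw [Complex.sub_re] at h3
    have h4 := (Complex.re_le_norm _).trans (hA r hr)
    have h5 := Complex.re_le_norm (-(n.map (· ^ r)).sum)
    rw [norm_neg] at h5
    have h6 := norm_power_sum_le n h1 r
    rw [mul_pow, mul_left_comm]
    refine mul_le_mul_of_nonneg_left ?_ (by positivity)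
    linarith
  by_contra hlt
  have h1 : B < ‖z‖ := not_le.1 hlt
  have h0 : 0 < ‖z‖ := hB.trans_lt h1
  have h2 : Filter.Tendsto (fun m : ℕ => q * ((B / ‖z‖) ^ 4) ^ m) Filter.atTop (nhds (q * 0)) :=
    (tendsto_pow_atTop_nhds_zero_of_lt_one (by positivity)
      (pow_lt_one₀ (by positivity) ((div_lt_one h0).2 h1) (by norm_num))).const_mul q
  rw [mul_zero] at h2
  obtain ⟨m, h3, h4⟩ := ((h2.eventually (gt_mem_nhds zero_lt_one)).and
    (Filter.eventually_ge_atTop 1)).exists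
  rw [← pow_mul, div_pow, ← mul_div_assoc, div_lt_one (by positivity)] at h3
  exact absurd (key m h4) (not_le.2 h3)

end Pool.Agent.P.MP_9484ad_co
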