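import Pool.Agent.P.MP_9484ad_co.EndAux

/-! The series `exp (∑ t r * T ^ r / r)` and the endgame of the Rankin trick. -/

namespace Pool.Agent.P.MP_9484ad_co

open Finset

section Ex

variable {K : Type*} [Field K]

/-- coefficients of `exp (∑_{r ≥ 1} t r * T ^ r / r)`; the value `t 0` is not used -/
noncomputable def exC (t : ℕ → K) : ℕ → K
  | 0 => 1
  | n + 1 => ((n + 1 : ℕ) : K)⁻¹ * ∑ r : Fin (n + 1), t (r + 1) * exC t (n - r)
decreasing_by omega

theorem exC_realize : True := by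
  have := @exC.eq_def.{0}
  have := @exC.eq_1.{0}
  have := @exC.eq_2.{0}
  trivial

theorem exC_zero (t : ℕ → K) : exC t 0 = 1 := by rw [exC]

variable [CharZero K]

theorem exC_succ (t : ℕ → K) (n : ℕ) :
    ((n + 1 : ℕ) : K) * exC t (n + 1) = ∑ r ∈ range (n + 1), t (r + 1) * exC t (n - r) := by
  rw [exC, ← mul_assoc, mul_inv_cancel₀ (Nat.cast_ne_zero.2 n.succ_ne_zero), one_mul,
    Fin.sum_univ_eq_sum_range (fun r => t (r + 1) * exC t (n - r))]

theorem exC_eq (t : ℕ → K) : exC t = Ex t :=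
  funext (Ex_unique (exC_zero t) fun n => by rw [← exC_succ, Nat.cast_succ])

theorem exC_unique {t e : ℕ → K} (h0 : e 0 = 1)
    (h : ∀ n, ((n + 1 : ℕ) : K) * e (n + 1) = ∑ r ∈ range (n + 1), t (r + 1) * e (n - r)) :
    e = exC t := by
  rw [exC_eq]
  exact funext (Ex_unique h0 fun n => by rw [← h, Nat.cast_succ])

theorem exC_congr {s t : ℕ → K} (h : ∀ r, 1 ≤ r → s r = t r) : exC s = exC t := by
  rw [exC_eq, exC_eq]
  exact funext fun n => Ex_congr fun r h1 _ => h r h1

theorem exC_add (s t : ℕ → K) (n : ℕ) :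
    exC (fun r => s r + t r) n = ∑ ij ∈ antidiagonal n, exC s ij.1 * exC t ij.2 := by
  rw [exC_eq, exC_eq, exC_eq]
  exact Ex_add s t n

theorem exC_map {L : Type*} [Field L] [CharZero L] (φ : K →+* L) (t : ℕ → K) (n : ℕ) :
    φ (exC t n) = exC (fun r => φ (t r)) n := by
  rw [exC_eq, exC_eq]
  exact Ex_map φ t n

/-- substitution `T ↦ T ^ d` -/
theorem exC_expand (t : ℕ → K) {d : ℕ} (hd : 0 < d) (n : ℕ) :
    exC (fun r => if d ∣ r then d * t (r / d) else 0) n = if d ∣ n then exC t (n / d) else 0 := by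
  symm
  refine congrFun (exC_unique (e := fun n => if d ∣ n then exC t (n / d) else 0) ?_ fun n => ?_) n
  · simp [exC_zero]
  by_cases h : d ∣ n + 1
  · obtain ⟨m, hm⟩ := h
    obtain ⟨m, rfl⟩ : ∃ k, m = k + 1 := ⟨m - 1, by
      rcases m with _ | m
      · simp at hm
      · rfl⟩
    have h1 : ∀ r ∈ range (m + 1), d * (r + 1) - 1 + 1 = d * (r + 1) := fun r _ =>
      Nat.sub_add_cancel (Nat.mul_pos hd r.succ_pos)
    have h2 : ∀ r ∈ range (m + 1), n - (d * (r + 1) - 1) = d * (m - r) := fun r hr => by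
      have h3 := h1 r hr
      have h4 : d * (m + 1) = d * (r + 1) + d * (m - r) := by
        rw [← mul_add]
        congr 1
        have := mem_range.1 hr
        omega
      omega
    rw [if_pos ⟨_, hm⟩, hm, Nat.mul_div_cancel_left _ hd, Nat.cast_mul, mul_assoc, exC_succ,
      mul_sum, ← hm]
    refine sum_of_injOn (fun r => d * (r + 1) - 1) ?_ ?_ ?_ ?_
    · intro a ha b hb hab
      have h3 := h1 a ha
      have h4 := h1 b hb
      have h5 : d * (a + 1) = d * (b + 1) := by simp only at hab; omega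
      have := Nat.eq_of_mul_eq_mul_left hd h5
      omega
    · intro r hr
      have h3 := h1 r hr
      have h4 : d * (r + 1) ≤ d * (m + 1) := Nat.mul_le_mul_left d (mem_range.1 hr)
      exact mem_range.2 (show d * (r + 1) - 1 < n + 1 by omega)
    · intro r hr hr'
      rw [if_neg, zero_mul]
      rintro ⟨k, hk⟩
      obtain ⟨k, rfl⟩ : ∃ j, k = j + 1 := ⟨k - 1, by
        rcases k with _ | k
        · simp at hk
        · rfl⟩
      refine hr' ⟨k, mem_coe.2 (mem_range.2 ?_), show d * (k + 1) - 1 = r by omega⟩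
      have h3 := mem_range.1 hr
      have h4 : d * (k + 1) ≤ d * (m + 1) := by omega
      exact Nat.le_of_mul_le_mul_left h4 hd
    · intro r hr
      rw [h1 r hr, h2 r hr, if_pos (dvd_mul_right _ _), if_pos (dvd_mul_right _ _),
        Nat.mul_div_cancel_left _ hd, Nat.mul_div_cancel_left _ hd, mul_assoc]
  · rw [if_neg h, mul_zero]
    refine (sum_eq_zero fun r hr => ?_).symm
    by_cases h1 : d ∣ r + 1
    · rw [if_neg (c := d ∣ n - r), mul_zero]
      intro h2
      have h3 := mem_range.1 hr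
      exact h (by rw [show n + 1 = r + 1 + (n - r) by omega]; exact dvd_add h1 h2)
    · rw [if_neg h1, zero_mul]

open Polynomial in
/-- Jacobi's formula -/
theorem derivative_det {R : Type*} [CommRing R] {ι : Type*} [Fintype ι] [DecidableEq ι]
    (B : Matrix ι ι R[X]) :
    derivative B.det = (B.adjugate * B.map derivative).trace := by
  have h1 : (B.adjugate * B.map derivative).trace =
      ∑ i, (B.updateCol i fun j => derivative (B j i)).det := by
    refine sum_congr rfl fun i _ => ?_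
    rw [← Matrix.cramer_apply, Matrix.cramer_eq_adjugate_mulVec]
    rfl
  rw [h1]
  simp only [Matrix.det_apply]
  rw [sum_comm, derivative_sum]
  refine sum_congr rfl fun σ _ => ?_
  rw [← smul_sum, Units.smul_def, Units.smul_def, map_zsmul, derivative_prod_finset]
  congr 1
  refine sum_congr rfl fun i _ => ?_
  rw [← mul_prod_erase _ _ (mem_univ i), Matrix.updateCol_self, mul_comm]
  congr 1
  exact prod_congr rfl fun j hj => (Matrix.updateCol_ne (ne_of_mem_erase hj)).symm

open Polynomial in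
/-- `exp (- ∑ tr (M ^ r) T ^ r / r) = det (1 - T M)` -/
theorem exC_trace {ι : Type*} [Fintype ι] [DecidableEq ι] (M : Matrix ι ι K) (n : ℕ) :
    exC (fun r => -(M ^ r).trace) n = M.charpolyRev.coeff n := by
  symm
  refine congrFun (exC_unique (e := fun n => M.charpolyRev.coeff n) ?_ fun n => ?_) n
  · simp only [coeff_zero_eq_eval_zero, Matrix.eval_charpolyRev]
  set N : Matrix ι ι K[X] := M.map C with hN
  set B : Matrix ι ι K[X] := 1 - (X : K[X]) • N with hB
  have h1 : B.map derivative = -N := by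
    ext1 i j
    simp only [hB, hN, Matrix.map_apply, Matrix.sub_apply, Matrix.smul_apply, Matrix.neg_apply,
      smul_eq_mul, map_sub, Matrix.one_apply]
    split_ifs <;> simp
  have h2 : ∀ k, (B.adjugate * N ^ k).trace =
      B.det * C (M ^ k).trace + X * (B.adjugate * N ^ (k + 1)).trace := by
    intro k
    have h3 : B.adjugate = B.det • (1 : Matrix ι ι K[X]) + (X : K[X]) • (B.adjugate * N) := by
      rw [← Matrix.adjugate_mul, ← Matrix.mul_smul, ← Matrix.mul_add, hB, sub_add_cancel,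
        Matrix.mul_one]
    have h4 : (N ^ k).trace = C (M ^ k).trace := by
      rw [hN, ← RingHom.mapMatrix_apply, ← map_pow, RingHom.mapMatrix_apply, AddMonoidHom.map_trace]
    conv_lhs => rw [h3]
    rw [Matrix.add_mul, Matrix.smul_mul, Matrix.smul_mul, Matrix.one_mul, Matrix.trace_add,
      Matrix.trace_smul, Matrix.trace_smul, h4, Matrix.mul_assoc, ← pow_succ', smul_eq_mul,
      smul_eq_mul]
  have h3 : ∀ m k, ((B.adjugate * N ^ k).trace).coeff m =
      ∑ r ∈ range (m + 1), (M ^ (k + r)).trace * B.det.coeff (m - r) := by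
    intro m
    induction m with
    | zero => intro k; rw [h2]; simp [mul_comm]
    | succ m ih =>
      intro k
      rw [h2, coeff_add, coeff_X_mul, ih, coeff_mul_C, sum_range_succ' _ (m + 1), add_comm,
        mul_comm]
      congr 1
      exact sum_congr rfl fun r _ => by
        rw [Nat.add_sub_add_right, add_assoc, add_comm 1 r]
  have h4 := congrArg (fun f => f.coeff n) (derivative_det B)
  simp only [h1, Matrix.mul_neg, Matrix.trace_neg, coeff_neg, coeff_derivative] at h4
  have h5 := h3 n 1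
  rw [pow_one] at h5
  rw [h5, ← sum_neg_distrib] at h4
  rw [mul_comm, Nat.cast_succ]
  refine h4.trans (sum_congr rfl fun r _ => ?_)
  rw [neg_mul, add_comm 1 r]
  rfl

open Polynomial in
/-- traces of powers are power sums of the eigenvalues -/
theorem trace_pow_eq {ι : Type*} [Fintype ι] [DecidableEq ι] [IsAlgClosed K] (M : Matrix ι ι K)
    (r : ℕ) : (M ^ r).trace = (M.charpoly.roots.map (· ^ r)).sum := by
  have hsp := IsAlgClosed.splits M.charpoly
  rcases Nat.eq_zero_or_pos r with rfl | hr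
  · simp [← hsp.natDegree_eq_card_roots]
  have h1 : ∀ s : Multiset K, (s.map fun a => X - C a).prod.reverse =
      (s.map fun a => 1 - C a * X).prod := by
    intro s
    induction s using Multiset.induction_on with
    | empty => simp [reverse]
    | cons a s ih =>
      rw [Multiset.map_cons, Multiset.prod_cons, reverse_mul_of_domain, ih, Multiset.map_cons,
        Multiset.prod_cons]
      congr 1
      rw [reverse, natDegree_X_sub_C, reflect_sub, reflect_one_X, reflect_C, pow_one]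
  have h2 := h1 M.charpoly.roots
  rw [← hsp.eq_prod_roots_of_monic M.charpoly_monic, Matrix.reverse_charpoly] at h2
  have h3 : ES (fun r => -(M.charpoly.roots.map (· ^ r)).sum) = (M.charpolyRev : PowerSeries K) := by
    rw [ES_neg_multiset, h2, ← Polynomial.coeToPowerSeries.ringHom_apply, map_multiset_prod,
      Multiset.map_map]
    congr 1
    refine Multiset.map_congr rfl fun a _ => ?_
    simp
  refine neg_injective (Ex_inj (s := fun r => -(M ^ r).trace)
    (t := fun r => -(M.charpoly.roots.map (· ^ r)).sum) (fun n => ?_) r hr)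
  rw [← exC_eq, exC_trace, ← coeff_ES, h3, Polynomial.coeff_coe]

end Ex

section Padic

variable {K : Type*} [NontriviallyNormedField K] [IsUltrametricDist K] [CharZero K] {p : ℕ}

omit [CharZero K] in
theorem norm_coprime (hp : p.Prime) (hn : ‖(p : K)‖ = (p : ℝ)⁻¹) {m : ℕ} (h : ¬ p ∣ m) :
    ‖(m : K)‖ = 1 := by
  refine le_antisymm (IsUltrametricDist.norm_natCast_le_one K m) (not_lt.1 fun h1 => ?_)
  have h2 : ‖(p : K)‖ < 1 := by
    rw [hn]
    exact inv_lt_one_of_one_lt₀ (by exact_mod_cast hp.one_lt)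
  obtain ⟨a, b, hab⟩ := Nat.isCoprime_iff_coprime.2 ((Nat.Prime.coprime_iff_not_dvd hp).2 h)
  have h3 : (a : K) * p + b * m = 1 := by exact_mod_cast congrArg (Int.cast : ℤ → K) hab
  have h4 := IsUltrametricDist.norm_add_le_max ((a : K) * p) (b * m)
  rw [h3, norm_one, norm_mul, norm_mul] at h4
  have h5 := mul_le_of_le_one_left (norm_nonneg (p : K)) (IsUltrametricDist.norm_intCast_le_one K a)
  have h6 := mul_le_of_le_one_left (norm_nonneg (m : K)) (IsUltrametricDist.norm_intCast_le_one K b)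
  rcases le_max_iff.1 h4 with h7 | h7 <;> linarith

omit [CharZero K] in
theorem norm_natCast_eq (hp : p.Prime) (hn : ‖(p : K)‖ = (p : ℝ)⁻¹) {n : ℕ} (h : n ≠ 0) :
    ‖(n : K)‖ = ((p : ℝ) ^ padicValNat p n)⁻¹ := by
  obtain ⟨e, m, hm, rfl⟩ := Nat.exists_eq_pow_mul_and_not_dvd h p hp.ne_one
  have := Fact.mk hp
  rw [padicValNat.mul (pow_pos hp.pos e).ne' (fun h : m = 0 => hm (h ▸ dvd_zero p)),
    padicValNat.prime_pow, padicValNat.eq_zero_of_not_dvd hm, add_zero, Nat.cast_mul, norm_mul,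
    norm_coprime hp hn hm, mul_one, Nat.cast_pow, norm_pow, hn, inv_pow]

omit [CharZero K] in
theorem one_le_mul_norm (hp : p.Prime) (hn : ‖(p : K)‖ = (p : ℝ)⁻¹) (c : ℤ) (hc : c ≠ 0) :
    1 ≤ |(c : ℝ)| * ‖(c : K)‖ := by
  have hc' := Int.natAbs_ne_zero.2 hc
  have h0 : (0 : ℝ) < (p : ℝ) ^ padicValNat p c.natAbs := pow_pos (by exact_mod_cast hp.pos) _
  have h : 1 ≤ (c.natAbs : ℝ) * ‖(c.natAbs : K)‖ := by
    rw [norm_natCast_eq hp hn hc', ← div_eq_mul_inv, one_le_div h0]
    exact_mod_cast Nat.le_of_dvd (Nat.pos_of_ne_zero hc') pow_padicValNat_dvd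
  have h2 : ‖((c.natAbs : ℕ) : K)‖ = ‖(c : K)‖ := by
    rcases Int.natAbs_eq c with h1 | h1
    · conv_rhs => rw [h1]
      simp only [Int.cast_natCast]
    · conv_rhs => rw [h1]
      simp only [Int.cast_neg, Int.cast_natCast, norm_neg]
  rwa [h2, Nat.cast_natAbs, Int.cast_abs] at h

omit [CharZero K] in
theorem pow_le_norm_factorial' (hp : p.Prime) (hn : ‖(p : K)‖ = (p : ℝ)⁻¹) {a : ℝ} (ha : 0 ≤ a)
    (hap : a ^ (p - 1) ≤ (p : ℝ)⁻¹) (n : ℕ) : a ^ n ≤ ‖(n.factorial : K)‖ := by
  have := Fact.mk hp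
  have hp2 := hp.two_le
  have hp1 : (1 : ℝ) ≤ p := by exact_mod_cast hp.one_le
  have hc1 : a ≤ 1 := by
    by_contra h
    have h1 : 1 < a ^ (p - 1) := one_lt_pow₀ (not_le.1 h) (by omega)
    have h2 : (p : ℝ)⁻¹ ≤ 1 := inv_le_one_of_one_le₀ hp1
    linarith
  have h1 : (p - 1) * padicValNat p n.factorial ≤ n := by
    rw [sub_one_mul_padicValNat_factorial]; exact Nat.sub_le _ _
  rw [norm_natCast_eq hp hn n.factorial_ne_zero, ← inv_pow]
  calc a ^ n ≤ a ^ ((p - 1) * padicValNat p n.factorial) := pow_le_pow_of_le_one ha hc1 h1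
    _ ≤ _ := by rw [pow_mul]; exact pow_le_pow_left₀ (by positivity) hap _

omit [CharZero K] in
/-- `π` is any element with `‖π‖ ^ (p - 1) = 1 / p` -/
theorem pow_le_norm_factorial (hp : p.Prime) (hn : ‖(p : K)‖ = (p : ℝ)⁻¹) {a : ℝ} (ha : 0 ≤ a)
    (hap : a ^ (p - 1) = (p : ℝ)⁻¹) (n : ℕ) : a ^ n ≤ ‖(n.factorial : K)‖ :=
  pow_le_norm_factorial' hp hn ha hap.le n

theorem norm_exC_le (hp : p.Prime) (hn : ‖(p : K)‖ = (p : ℝ)⁻¹) {t : ℕ → K} {θ : ℝ} (_hθ : 0 ≤ θ)
    (h : ∀ r, 1 ≤ r → ‖t r‖ ≤ θ ^ r) (n : ℕ) : ‖exC t n‖ ≤ (p * θ) ^ n := by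
  have hp1 : (1 : ℝ) ≤ p := by exact_mod_cast hp.one_le
  have hp2 := hp.two_le
  have h1 := factorial_mul_Ex_le h n
  have h2 := pow_le_norm_factorial' hp hn (a := (p : ℝ)⁻¹) (by positivity)
    (pow_le_of_le_one (by positivity) (inv_le_one_of_one_le₀ hp1) (by omega)) n
  rw [norm_mul] at h1
  have h3 := (mul_le_mul_of_nonneg_right h2 (norm_nonneg _)).trans h1
  rw [inv_pow, inv_mul_le_iff₀ (by positivity)] at h3
  rwa [exC_eq, mul_pow]

/-- `exC t` decays like `θ ^ n` -/
def Dec (θ : ℝ) (t : ℕ → K) : Prop := ∃ A : ℝ, ∀ n, ‖exC t n‖ ≤ A * θ ^ n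

theorem Dec.add {θ : ℝ} (hθ : 0 ≤ θ) {s t : ℕ → K} (hs : Dec θ s) (ht : Dec θ t) :
    Dec θ fun r => s r + t r := by
  obtain ⟨A, hA⟩ := hs
  obtain ⟨B, hB⟩ := ht
  have hA0 : 0 ≤ A := by simpa using (norm_nonneg _).trans (hA 0)
  have hB0 : 0 ≤ B := by simpa using (norm_nonneg _).trans (hB 0)
  refine ⟨A * B, fun n => ?_⟩
  rw [exC_add]
  refine IsUltrametricDist.norm_sum_le_of_forall_le_of_nonneg (by positivity) fun x hx => ?_
  rw [norm_mul, ← mem_antidiagonal.1 hx, pow_add, mul_mul_mul_comm]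
  exact mul_le_mul (hA _) (hB _) (norm_nonneg _) (by positivity)

omit [IsUltrametricDist K] [CharZero K] in
theorem dec_of_eventually_zero {θ : ℝ} (hθ : 0 < θ) {t : ℕ → K} {N : ℕ}
    (h : ∀ n, N ≤ n → exC t n = 0) : Dec θ t := by
  refine ⟨∑ k ∈ range N, ‖exC t k‖ / θ ^ k, fun n => ?_⟩
  rcases le_or_gt N n with h1 | h1
  · rw [h n h1, norm_zero]
    positivity
  · rw [← div_le_iff₀ (by positivity)]
    exact single_le_sum (f := fun k => ‖exC t k‖ / θ ^ k) (fun k _ => by positivity)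
      (mem_range.2 h1)

omit [IsUltrametricDist K] in
theorem dec_trace {θ : ℝ} (hθ : 0 < θ) {ι : Type*} [Fintype ι] [DecidableEq ι]
    (M : Matrix ι ι K) : Dec θ fun r => -(M ^ r).trace :=
  dec_of_eventually_zero hθ (N := M.charpolyRev.natDegree + 1) fun n hn => by
    rw [exC_trace, Polynomial.coeff_eq_zero_of_natDegree_lt hn]

end Padic

end Pool.Agent.P.MP_9484ad_co
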