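import Mathlib

/-! Formal exponentials `exp (∑ t r * T ^ r / r)`: algebra and integrality. -/

set_option autoImplicit false

namespace Pool.Agent.P.MP_9484ad_co

open Finset PowerSeries

variable {K : Type*} [Field K]

/-- The coefficients of `exp (∑ r ≥ 1, t r * T ^ r / r)`; the value `t 0` is not used. -/
noncomputable def Ex (t : ℕ → K) : ℕ → K
  | 0 => 1
  | n + 1 => (∑ r : Fin (n + 1), t (r + 1) * Ex t (n - r)) / (n + 1)
decreasing_by omega

theorem Ex_realize : True := by
  have := @Ex.eq_def.{0}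
  have := @Ex.eq_1.{0}
  have := @Ex.eq_2.{0}
  trivial

theorem Ex_zero (t : ℕ → K) : Ex t 0 = 1 := by rw [Ex]

theorem Ex_succ' (t : ℕ → K) (n : ℕ) :
    Ex t (n + 1) = (∑ r ∈ range (n + 1), t (r + 1) * Ex t (n - r)) / (n + 1) := by
  rw [Ex, Fin.sum_univ_eq_sum_range (fun r => t (r + 1) * Ex t (n - r)) (n + 1)]

/-- `Ex t n` depends on `t 1, …, t n` only. -/
theorem Ex_congr {s t : ℕ → K} {n : ℕ} (h : ∀ r, 1 ≤ r → r ≤ n → s r = t r) :
    Ex s n = Ex t n := by
  induction n using Nat.strong_induction_on with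
  | _ n ih =>
    cases n with
    | zero => rw [Ex_zero, Ex_zero]
    | succ n =>
      rw [Ex_succ', Ex_succ']
      congr 1
      refine sum_congr rfl fun r hr => ?_
      have hr' := mem_range.1 hr
      rw [h (r + 1) (by omega) (by omega), ih (n - r) (by omega) fun k h1 h2 => h k h1 (by omega)]

variable [CharZero K]

theorem Ex_succ (t : ℕ → K) (n : ℕ) :
    ((n : K) + 1) * Ex t (n + 1) = ∑ r ∈ range (n + 1), t (r + 1) * Ex t (n - r) := by
  rw [Ex_succ', mul_div_cancel₀ _ (Nat.cast_add_one_ne_zero n)]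

theorem Ex_unique {t e : ℕ → K} (h0 : e 0 = 1)
    (h : ∀ n : ℕ, ((n : K) + 1) * e (n + 1) = ∑ r ∈ range (n + 1), t (r + 1) * e (n - r))
    (n : ℕ) : e n = Ex t n := by
  induction n using Nat.strong_induction_on with
  | _ n ih =>
    cases n with
    | zero => rw [h0, Ex_zero]
    | succ n =>
      apply mul_left_cancel₀ (Nat.cast_add_one_ne_zero (R := K) n)
      rw [h, Ex_succ]
      exact sum_congr rfl fun r _ => by rw [ih (n - r) (by omega)]

theorem Ex_inj {s t : ℕ → K} (h : ∀ n, Ex s n = Ex t n) (r : ℕ) (hr : 1 ≤ r) : s r = t r := by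
  induction r using Nat.strong_induction_on with
  | _ r ih =>
    obtain ⟨n, rfl⟩ : ∃ n, r = n + 1 := ⟨r - 1, by omega⟩
    have h1 := Ex_succ s n
    have h2 := Ex_succ t n
    rw [h, h2, sum_range_succ, sum_range_succ, Nat.sub_self, Ex_zero, Ex_zero, mul_one, mul_one,
      sum_congr rfl (g := fun r => s (r + 1) * Ex s (n - r)) fun k hk => by
        rw [ih (k + 1) (by have := mem_range.1 hk; omega) (by omega), h]] at h1
    exact (add_left_cancel h1).symm

/-- Transport along a homomorphism of a subring that contains all the numbers involved. -/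
theorem Ex_map_subring {L : Type*} [Field L] [CharZero L] (O : Subring K) (σ : O →+* L)
    (t : ℕ → O) (h : ∀ n, Ex (fun r => (t r : K)) n ∈ O) (n : ℕ) :
    σ ⟨Ex (fun r => (t r : K)) n, h n⟩ = Ex (fun r => σ (t r)) n := by
  refine Ex_unique (e := fun n => σ ⟨Ex (fun r => (t r : K)) n, h n⟩) ?_ (fun n => ?_) n
  · have : (⟨Ex (fun r => (t r : K)) 0, h 0⟩ : O) = 1 := Subtype.ext (Ex_zero _)
    simp only [this, map_one]
  · have h1 : ((n : O) + 1) * ⟨Ex (fun r => (t r : K)) (n + 1), h _⟩ =
        ∑ r ∈ range (n + 1), t (r + 1) * ⟨Ex (fun r => (t r : K)) (n - r), h _⟩ := by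
      apply Subtype.ext
      simpa using Ex_succ (fun r => (t r : K)) n
    simpa using congrArg σ h1

theorem Ex_map {L : Type*} [Field L] [CharZero L] (σ : K →+* L) (t : ℕ → K) (n : ℕ) :
    σ (Ex t n) = Ex (fun r => σ (t r)) n := by
  refine Ex_unique (e := fun n => σ (Ex t n)) (by simp [Ex_zero]) (fun n => ?_) n
  simpa using congrArg σ (Ex_succ t n)

/-- The power series with coefficients `Ex t`. -/
noncomputable def ES (t : ℕ → K) : K⟦X⟧ := PowerSeries.mk (Ex t)

omit [CharZero K] in
theorem coeff_ES (t : ℕ → K) (n : ℕ) : coeff n (ES t) = Ex t n := coeff_mk _ _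

omit [CharZero K] in
theorem constantCoeff_ES (t : ℕ → K) : constantCoeff (ES t) = 1 := by
  rw [← coeff_zero_eq_constantCoeff_apply, coeff_ES, Ex_zero]

omit [CharZero K] in
theorem coeff_shift_mul (t : ℕ → K) (f : K⟦X⟧) (n : ℕ) :
    coeff n (PowerSeries.mk (fun r => t (r + 1)) * f) =
      ∑ r ∈ range (n + 1), t (r + 1) * coeff (n - r) f := by
  rw [coeff_mul, Finset.Nat.sum_antidiagonal_eq_sum_range_succ_mk]
  simp only [coeff_mk]

theorem deriv_ES (t : ℕ → K) :
    d⁄dX K (ES t) = PowerSeries.mk (fun r => t (r + 1)) * ES t := by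
  ext n
  rw [coeff_derivative, coeff_shift_mul, coeff_ES, mul_comm, Ex_succ]
  simp only [coeff_ES]

theorem ES_unique {t : ℕ → K} {f : K⟦X⟧} (h0 : constantCoeff f = 1)
    (h : d⁄dX K f = PowerSeries.mk (fun r => t (r + 1)) * f) : f = ES t := by
  ext n
  rw [coeff_ES]
  refine Ex_unique (e := fun n => coeff n f) (by simpa using h0) (fun n => ?_) n
  rw [← coeff_shift_mul, ← h, coeff_derivative, mul_comm]

theorem ES_add (s t : ℕ → K) : ES (s + t) = ES s * ES t := by
  symm
  apply ES_unique
  · rw [map_mul, constantCoeff_ES, constantCoeff_ES, mul_one]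
  · have h : (PowerSeries.mk fun r => (s + t) (r + 1)) =
        PowerSeries.mk (fun r => s (r + 1)) + PowerSeries.mk fun r => t (r + 1) := by
      ext n; simp
    rw [Derivation.leibniz, deriv_ES, deriv_ES, h, smul_eq_mul, smul_eq_mul]
    ring

theorem ES_zero : ES (0 : ℕ → K) = 1 := by
  symm
  apply ES_unique
  · simp
  · have h : (PowerSeries.mk fun r => (0 : ℕ → K) (r + 1)) = 0 := by ext n; simp
    rw [h, zero_mul, derivative_one]

theorem ES_mul_neg (t : ℕ → K) : ES t * ES (-t) = 1 := by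
  rw [← ES_add, add_neg_cancel, ES_zero]

theorem Ex_add (s t : ℕ → K) (n : ℕ) :
    Ex (s + t) n = ∑ x ∈ antidiagonal n, Ex s x.1 * Ex t x.2 := by
  rw [← coeff_ES, ES_add, coeff_mul]
  simp only [coeff_ES]

omit [CharZero K] in
theorem ES_congr {s t : ℕ → K} (h : ∀ r, 1 ≤ r → s r = t r) : ES s = ES t := by
  ext n
  rw [coeff_ES, coeff_ES]
  exact Ex_congr fun r h1 _ => h r h1

/-- The power sums of one cycle of length `d` and weight `w`. -/
noncomputable def cyc (d : ℕ) (w : K) (r : ℕ) : K := if d ∣ r then d * w ^ (r / d) else 0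

omit [CharZero K] in
theorem geo_mul {d : ℕ} (hd : 0 < d) (w : K) :
    (PowerSeries.mk fun n => if d ∣ n then w ^ (n / d) else 0) * (1 - C w * X ^ d) = 1 := by
  ext n
  rw [mul_sub, mul_one, map_sub, ← mul_assoc, coeff_mul_X_pow', coeff_mk, coeff_one]
  by_cases h0 : n = 0
  · subst h0
    rw [if_pos (dvd_zero d), if_neg (by omega), if_pos rfl]
    simp
  rw [if_neg h0]
  by_cases h1 : d ≤ n
  · rw [if_pos h1, coeff_mul_C, coeff_mk]
    by_cases h2 : d ∣ n
    · rw [if_pos h2, if_pos (Nat.dvd_sub h2 dvd_rfl), ← pow_succ,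
        ← Nat.div_eq_sub_div hd h1, sub_self]
    · rw [if_neg h2, if_neg fun h3 => h2 ((Nat.dvd_sub_iff_left h1 dvd_rfl).1 h3)]
      simp
  · rw [if_neg h1, if_neg fun h2 => h1 (Nat.le_of_dvd (by omega) h2), sub_zero]

theorem ES_neg_cyc {d : ℕ} (hd : 0 < d) (w : K) : ES (-cyc d w) = 1 - C w * X ^ d := by
  symm
  apply ES_unique
  · simp [hd.ne']
  · obtain ⟨e, rfl⟩ : ∃ e, d = e + 1 := ⟨d - 1, by omega⟩
    have h1 : (PowerSeries.mk fun r => (-cyc (e + 1) w) (r + 1)) =
        -(C (((e + 1 : ℕ) : K) * w) * X ^ e) *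
          PowerSeries.mk fun n => if e + 1 ∣ n then w ^ (n / (e + 1)) else 0 := by
      ext n
      rw [neg_mul, map_neg, mul_assoc, coeff_C_mul, coeff_X_pow_mul', coeff_mk, Pi.neg_apply, cyc]
      congr 1
      by_cases h1 : e ≤ n
      · rw [if_pos h1, coeff_mk]
        have h2 : n - e = n + 1 - (e + 1) := by omega
        by_cases h3 : e + 1 ∣ n + 1
        · rw [if_pos h3, h2, if_pos (Nat.dvd_sub h3 dvd_rfl),
            Nat.div_eq_sub_div hd (by omega : e + 1 ≤ n + 1), pow_succ]
          ring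
        · rw [if_neg h3, h2,
            if_neg fun h4 => h3 ((Nat.dvd_sub_iff_left (by omega) dvd_rfl).1 h4), mul_zero]
      · rw [if_neg h1, if_neg fun h2 => h1 (by have := Nat.le_of_dvd (by omega) h2; omega),
          mul_zero]
    rw [h1, mul_assoc, geo_mul hd, mul_one, map_sub, derivative_one, Derivation.leibniz,
      derivative_C, derivative_pow, derivative_X]
    simp only [smul_eq_mul, mul_zero, add_zero, Nat.add_sub_cancel, mul_one, zero_sub, map_mul,
      map_natCast]
    ring

theorem ES_cyc {d : ℕ} (hd : 0 < d) (w : K) :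
    ES (cyc d w) = PowerSeries.mk fun n => if d ∣ n then w ^ (n / d) else 0 := by
  have h1 := ES_mul_neg (cyc d w)
  rw [ES_neg_cyc hd] at h1
  have h2 := geo_mul hd w
  calc ES (cyc d w) = ES (cyc d w) * ((PowerSeries.mk fun n => if d ∣ n then w ^ (n / d) else 0) *
        (1 - C w * X ^ d)) := by rw [h2, mul_one]
    _ = (ES (cyc d w) * (1 - C w * X ^ d)) *
        PowerSeries.mk fun n => if d ∣ n then w ^ (n / d) else 0 := by ring
    _ = _ := by rw [h1, one_mul]

theorem ES_neg_pow (w : K) : ES (fun r => -w ^ r) = 1 - C w * X := by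
  have h := ES_neg_cyc (K := K) Nat.one_pos w
  rw [pow_one] at h
  rw [← h]
  exact ES_congr fun r _ => by simp [cyc]

theorem ES_neg_multiset (s : Multiset K) :
    ES (fun r => -(s.map (· ^ r)).sum) = (s.map fun w => 1 - C w * X).prod := by
  induction s using Multiset.induction_on with
  | empty =>
    simp only [Multiset.map_zero, Multiset.sum_zero, neg_zero, Multiset.prod_zero]
    exact ES_zero
  | cons w s ih =>
    rw [Multiset.map_cons, Multiset.prod_cons, ← ih, ← ES_neg_pow, ← ES_add]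
    exact ES_congr fun r _ => by simp [add_comm]

/-- If the exponential is a polynomial then `-t r` are the power sums of a multiset. -/
theorem exists_multiset [IsAlgClosed K] {t : ℕ → K} {N : ℕ} (h : ∀ n, N < n → Ex t n = 0) :
    ∃ s : Multiset K, s.card = N ∧ ∀ r, 1 ≤ r → t r = -(s.map (· ^ r)).sum := by
  let P : Polynomial K := ∑ n ∈ range (N + 1), Polynomial.monomial (N - n) (Ex t n)
  have hc : ∀ n ≤ N, P.coeff (N - n) = Ex t n := by
    intro n hn
    rw [Polynomial.finsetSum_coeff, sum_eq_single n]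
    · simp
    · intro k hk hkn
      have := mem_range.1 hk
      rw [Polynomial.coeff_monomial, if_neg (by omega)]
    · intro hk
      exact absurd (mem_range.2 (by omega)) hk
  have hle : P.natDegree ≤ N := by
    refine Polynomial.natDegree_sum_le_of_forall_le _ _ fun n _ => ?_
    exact (Polynomial.natDegree_monomial_le _).trans (Nat.sub_le _ _)
  have htop : P.coeff N = 1 := by simpa [Ex_zero] using hc 0 (Nat.zero_le _)
  have hm : P.Monic := Polynomial.monic_of_natDegree_le_of_coeff_eq_one N hle htop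
  have hdeg : P.natDegree = N :=
    le_antisymm hle (Polynomial.le_natDegree_of_ne_zero (by rw [htop]; exact one_ne_zero))
  have hsp := IsAlgClosed.splits P
  have hcard : P.roots.card = N := by rw [← hdeg]; exact hsp.natDegree_eq_card_roots.symm
  have hprod := hsp.eq_prod_roots_of_monic hm
  have hrefl : ∀ s : Multiset K,
      Polynomial.reflect s.card (s.map fun a => Polynomial.X - Polynomial.C a).prod =
        (s.map fun a => 1 - Polynomial.C a * Polynomial.X).prod := by
    intro s
    induction s using Multiset.induction_on with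
    | empty => simp
    | cons a s ih =>
      rw [Multiset.map_cons, Multiset.prod_cons, Multiset.card_cons, add_comm,
        Polynomial.reflect_mul _ _ (Polynomial.natDegree_X_sub_C_le a)
          (by rw [Polynomial.natDegree_multiset_prod_X_sub_C_eq_card]), ih, Multiset.map_cons,
        Multiset.prod_cons]
      congr 1
      rw [Polynomial.reflect_sub, Polynomial.reflect_one_X, Polynomial.reflect_C, pow_one]
  refine ⟨P.roots, hcard, Ex_inj fun n => ?_⟩
  have h1 := hrefl P.roots
  rw [← hprod, hcard] at h1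
  have h2 : ES (fun r => -(P.roots.map (· ^ r)).sum) = (Polynomial.reflect N P : K⟦X⟧) := by
    rw [ES_neg_multiset, h1, ← Polynomial.coeToPowerSeries.ringHom_apply, map_multiset_prod,
      Multiset.map_map]
    congr 1
    refine Multiset.map_congr rfl fun a _ => ?_
    simp
  rw [← coeff_ES (fun r => -(P.roots.map (· ^ r)).sum), h2, Polynomial.coeff_coe,
    Polynomial.coeff_reflect]
  by_cases hn : n ≤ N
  · rw [Polynomial.revAt_le hn, hc n hn]
  · rw [Polynomial.revAt_eq_self_of_lt (not_le.1 hn), h n (not_le.1 hn),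
      Polynomial.coeff_eq_zero_of_natDegree_lt (by omega)]

/-- Both `exp (∑ t r T ^ r / r)` and its inverse have coefficients in `O`. -/
def IntE (O : Subring K) (t : ℕ → K) : Prop := ∀ n, Ex t n ∈ O ∧ Ex (-t) n ∈ O

theorem IntE.add {O : Subring K} {s t : ℕ → K} (hs : IntE O s) (ht : IntE O t) :
    IntE O (s + t) := by
  intro n
  rw [neg_add, Ex_add, Ex_add]
  exact ⟨O.sum_mem fun x _ => O.mul_mem (hs _).1 (ht _).1,
    O.sum_mem fun x _ => O.mul_mem (hs _).2 (ht _).2⟩

omit [CharZero K] in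
theorem IntE.neg {O : Subring K} {t : ℕ → K} (ht : IntE O t) : IntE O (-t) := by
  intro n
  rw [neg_neg]
  exact ⟨(ht n).2, (ht n).1⟩

theorem IntE.sub {O : Subring K} {s t : ℕ → K} (hs : IntE O s) (ht : IntE O t) :
    IntE O (s - t) := by
  rw [sub_eq_add_neg]
  exact hs.add ht.neg

omit [CharZero K] in
theorem IntE.congr {O : Subring K} {s t : ℕ → K} (hs : IntE O s) (h : ∀ r, 1 ≤ r → t r = s r) :
    IntE O t := by
  intro n
  rw [Ex_congr (t := s) fun r h1 _ => h r h1,
    Ex_congr (s := -t) (t := -s) fun r h1 _ => by simp [h r h1]]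
  exact hs n

theorem IntE.zero (O : Subring K) : IntE O (0 : ℕ → K) := by
  intro n
  rw [neg_zero, and_self, ← coeff_ES, ES_zero, coeff_one]
  split_ifs
  · exact O.one_mem
  · exact O.zero_mem

theorem IntE.sum {O : Subring K} {ι : Type*} (s : Finset ι) (t : ι → ℕ → K)
    (h : ∀ i ∈ s, IntE O (t i)) : IntE O (∑ i ∈ s, t i) :=
  sum_induction _ _ (fun _ _ => IntE.add) (IntE.zero O) h

theorem IntE.zsmul {O : Subring K} {t : ℕ → K} (ht : IntE O t) (z : ℤ) : IntE O (z • t) := by
  induction z using Int.induction_on with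
  | zero => rw [zero_smul]; exact IntE.zero O
  | succ n ih => rw [add_smul, one_smul]; exact ih.add ht
  | pred n ih => rw [sub_smul, one_smul]; exact ih.sub ht

theorem IntE.cyc {O : Subring K} {d : ℕ} (hd : 0 < d) {w : K} (hw : w ∈ O) :
    IntE O (cyc d w) := by
  intro n
  rw [← coeff_ES, ← coeff_ES, ES_cyc hd, ES_neg_cyc hd, coeff_mk, map_sub, coeff_one, coeff_C_mul,
    coeff_X_pow]
  refine ⟨?_, O.sub_mem ?_ (O.mul_mem hw ?_)⟩ <;> split_ifs
  exacts [O.pow_mem hw _, O.zero_mem, O.one_mem, O.zero_mem, O.one_mem, O.zero_mem]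

theorem IntE.pow {O : Subring K} {w : K} (hw : w ∈ O) : IntE O fun r => w ^ r :=
  (IntE.cyc Nat.one_pos hw).congr fun r _ => by simp [MP_9484ad_co.cyc]

open Classical in
theorem dold_fin {Om : Type*} (O : Subring K) (F : Om → Om) (w : ℕ → Om → K)
    (hF : ∀ r v, 1 ≤ r → F^[r] v = v → w r (F v) = w r v)
    (hpow : ∀ d k v, 1 ≤ d → 1 ≤ k → F^[d] v = v → w (d * k) v = w d v ^ k)
    (hO : ∀ r v, 1 ≤ r → F^[r] v = v → w r v ∈ O) (S : Finset Om)
    (hS : ∀ v ∈ S, F v ∈ S ∧ v ∈ Function.periodicPts F) :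
    IntE O fun r => ∑ v ∈ S with F^[r] v = v, w r v := by
  induction S using Finset.strongInduction with
  | _ S ih =>
    rcases S.eq_empty_or_nonempty with h0 | ⟨v, hv⟩
    · subst h0
      exact (IntE.zero O).congr fun r _ => by simp
    have hper := (hS v hv).2
    set d := Function.minimalPeriod F v with hd
    have hd0 : 0 < d := Function.minimalPeriod_pos_of_mem_periodicPts hper
    have hdv : F^[d] v = v := Function.iterate_minimalPeriod
    let Ob : Finset Om := (range d).image fun i => F^[i] v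
    have hit : ∀ u ∈ S, ∀ i, F^[i] u ∈ S := by
      intro u hu i
      induction i with
      | zero => exact hu
      | succ i ih => rw [Function.iterate_succ_apply']; exact (hS _ ih).1
    have hmem : ∀ i, F^[i] v ∈ Ob := fun i => mem_image.2
      ⟨i % d, mem_range.2 (Nat.mod_lt _ hd0), Function.iterate_mod_minimalPeriod_eq⟩
    have hsub : Ob ⊆ S := by
      intro u hu
      obtain ⟨i, _, rfl⟩ := mem_image.1 hu
      exact hit v hv i
    have h1 := ih (S \ Ob) (sdiff_ssubset hsub ⟨v, hmem 0⟩) (by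
      intro u hu
      obtain ⟨hu1, hu2⟩ := mem_sdiff.1 hu
      refine ⟨mem_sdiff.2 ⟨(hS u hu1).1, fun h => hu2 ?_⟩, (hS u hu1).2⟩
      obtain ⟨i, _, hi⟩ := mem_image.1 h
      obtain ⟨m, hm, hmu⟩ := (hS u hu1).2
      obtain ⟨m, rfl⟩ : ∃ k, m = k + 1 := ⟨m - 1, by omega⟩
      have h2 : u = F^[m + i] v := by
        rw [Function.iterate_add_apply, hi, ← Function.iterate_succ_apply]
        exact hmu.eq.symm
      rw [h2]
      exact hmem _)
    refine ((IntE.cyc hd0 (hO d v hd0 hdv)).add h1).congr fun r hr => ?_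
    rw [Pi.add_apply, sum_filter, sum_filter, ← sum_sdiff hsub, add_comm]
    congr 1
    rw [sum_image fun i hi j hj h =>
      Function.iterate_injOn_Iio_minimalPeriod (mem_range.1 hi) (mem_range.1 hj) h]
    unfold MP_9484ad_co.cyc
    by_cases hdr : d ∣ r
    · have hrv : F^[r] v = v := (Function.isPeriodicPt_iff_minimalPeriod_dvd.2 hdr).eq
      have hfix : ∀ i, F^[r] (F^[i] v) = F^[i] v := fun i => by
        rw [← Function.iterate_add_apply, add_comm, Function.iterate_add_apply, hrv]
      have hw : ∀ i, w r (F^[i] v) = w r v := by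
        intro i
        induction i with
        | zero => rfl
        | succ i ih => rw [Function.iterate_succ_apply', hF r _ hr (hfix i), ih]
      rw [if_pos hdr, sum_congr rfl fun i _ => by rw [if_pos (hfix i), hw i], sum_const, card_range,
        nsmul_eq_mul]
      obtain ⟨k, rfl⟩ := hdr
      rw [hpow d k v hd0 (Nat.pos_of_mul_pos_left hr) hdv, Nat.mul_div_cancel_left _ hd0]
    · rw [if_neg hdr]
      refine sum_eq_zero fun i _ => if_neg fun h => hdr ?_
      have h2 : Function.minimalPeriod F (F^[i] v) ∣ r :=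
        Function.isPeriodicPt_iff_minimalPeriod_dvd.1 h
      rwa [Function.minimalPeriod_apply_iterate hper] at h2

/-- Integrality of zeta functions of weighted dynamical systems. -/
theorem dold {Om : Type*} (O : Subring K) (F : Om → Om) (w : ℕ → Om → K) (Fx : ℕ → Finset Om)
    (hFx : ∀ r v, 1 ≤ r → (v ∈ Fx r ↔ F^[r] v = v))
    (hF : ∀ r v, 1 ≤ r → F^[r] v = v → w r (F v) = w r v)
    (hpow : ∀ d k v, 1 ≤ d → 1 ≤ k → F^[d] v = v → w (d * k) v = w d v ^ k)
    (hO : ∀ r v, 1 ≤ r → F^[r] v = v → w r v ∈ O) :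
    IntE O fun r => ∑ v ∈ Fx r, w r v := by
  classical
  intro n
  have hn := Nat.factorial_pos n
  have h1 := dold_fin O F w hF hpow hO (Fx n.factorial) (by
    intro v hv
    have h2 := (hFx _ v hn).1 hv
    refine ⟨(hFx _ _ hn).2 ?_, n.factorial, hn, h2⟩
    rw [← Function.iterate_succ_apply, Function.iterate_succ_apply', h2]) n
  have h2 : ∀ r, 1 ≤ r → r ≤ n →
      ∑ v ∈ Fx r, w r v = ∑ v ∈ Fx n.factorial with F^[r] v = v, w r v := by
    intro r h3 h4
    refine sum_congr ?_ fun _ _ => rfl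
    ext v
    rw [mem_filter, hFx r v h3, hFx _ v hn]
    refine ⟨fun h => ⟨?_, h⟩, fun h => h.2⟩
    exact (Function.IsPeriodicPt.trans_dvd h (Nat.dvd_factorial h3 h4)).eq
  rw [Ex_congr h2, Ex_congr (s := -fun r => ∑ v ∈ Fx r, w r v)
    (t := -fun r => ∑ v ∈ Fx n.factorial with F^[r] v = v, w r v)
    fun r h3 h4 => by simp only [Pi.neg_apply, h2 r h3 h4]]
  exact h1

end Pool.Agent.P.MP_9484ad_co
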