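import Pool.Agent.P.MP_9484ad_co.Branch

/-! Families of matrices in the character aspect. -/

namespace Pool.Agent.P.MP_9484ad_co

open Finset

noncomputable section

structure Fam (K : Type) [NontriviallyNormedField K] [CompleteSpace K] (ι : Type) [Fintype ι]
    (q : ℕ) where
  Φ : ℕ → Matrix ι ι (An K 2)
  Φ0 : Matrix ι ι (An K 2)
  X : Matrix ι ι (An K 2)
  Y : Matrix ι ι (An K 2)
  z : ℕ → K → Matrix ι ι K
  Φr : ℕ → ℕ → K → Matrix ι ι K
  hX : ∀ j < q, ∀ s : K, ‖s‖ ≤ 1 → evM s (Φ j) * evM (q * s + j) X = z j s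
  hY : ∀ j < q, ∀ s : K, ‖s‖ ≤ 1 → evM s (Φ j) * evM (q * s + j) Y = z (j + 1) s
  h0 : ∀ s : K, ‖s‖ ≤ 1 → z 0 s = evM s X * evM s Φ0
  hq : ∀ s : K, ‖s‖ ≤ 1 → z q s = evM s Y * evM (s + 1) Φ0
  inj : ∀ n : ℕ, ∃ Z : Matrix ι ι K,
    Z * (evM (n : K) Y * evM ((n : K) + 1) Φ0) = evM ((n : K) + 1) Φ0
  one : ∀ j < q, ∀ s : K, ‖s‖ ≤ 1 → Φr 1 j s = evM s (Φ j)
  comp : ∀ r, 1 ≤ r → ∀ j < q, ∀ j' < q ^ r, ∀ s : K, ‖s‖ ≤ 1 →
    Φr (r + 1) (q ^ r * j + j') s = evM s (Φ j) * Φr r j' (q * s + j)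

variable {K : Type} [NontriviallyNormedField K] [CompleteSpace K] {ι ν : Type} [Fintype ι]
  [DecidableEq ι] [Fintype ν] [DecidableEq ν] {q : ℕ}

/-- Kronecker product of a family of matrices -/
def tens {A : Type} [CommRing A] (M : ν → Matrix ι ι A) : Matrix (ν → ι) (ν → ι) A :=
  Matrix.of fun a b => ∏ n, M n (a n) (b n)

theorem tens_mul {A : Type} [CommRing A] (M N : ν → Matrix ι ι A) :
    tens M * tens N = tens fun n => M n * N n := by
  ext a c
  simp only [tens, Matrix.mul_apply, Matrix.of_apply]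
  rw [Finset.prod_univ_sum, Fintype.piFinset_univ]
  exact sum_congr rfl fun b _ => prod_mul_distrib.symm

theorem trace_tens {A : Type} [CommRing A] (M : ν → Matrix ι ι A) :
    (tens M).trace = ∏ n, (M n).trace := by
  simp only [tens, Matrix.trace, Matrix.diag_apply, Matrix.of_apply]
  rw [Finset.prod_univ_sum, Fintype.piFinset_univ]

theorem tens_pow {A : Type} [CommRing A] (M : ν → Matrix ι ι A) (r : ℕ) :
    tens M ^ r = tens fun n => M n ^ r := by
  induction r with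
  | zero =>
    ext a b
    simp only [pow_zero, tens, Matrix.of_apply]
    by_cases h : a = b
    · subst h
      simp
    · obtain ⟨n, hn⟩ := Function.ne_iff.mp h
      rw [Matrix.one_apply_ne h]
      exact (prod_eq_zero (mem_univ n) (Matrix.one_apply_ne (i := a n) (j := b n) hn)).symm
  | succ r ih => simp only [pow_succ, ih, tens_mul]

theorem evM_tens {s : K} (hs : ‖s‖ ≤ 2) (M : ν → Matrix ι ι (An K 2)) :
    evM s (tens M) = tens fun n => evM s (M n) := by
  have hp : An.PB 2 s := An.PB.of_le (by exact_mod_cast hs)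
  ext a b
  simp only [evM, tens, Matrix.map_apply, Matrix.of_apply]
  exact map_prod (An.evH (K := K) s hp) _ _

variable [IsUltrametricDist K]

omit [CompleteSpace K] in
theorem famdef_nat (n : ℕ) : ‖(n : K)‖ ≤ 1 := IsUltrametricDist.norm_natCast_le_one K n

omit [CompleteSpace K] in
theorem famdef_aff (a b : ℕ) {s : K} (hs : ‖s‖ ≤ 1) : ‖(a : K) * s + b‖ ≤ 1 := by
  refine (IsUltrametricDist.norm_add_le_max _ _).trans (max_le ?_ (famdef_nat b))
  rw [norm_mul]
  exact mul_le_one₀ (famdef_nat a) (norm_nonneg _) hs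

omit [CompleteSpace K] in
theorem famdef_succ {s : K} (hs : ‖s‖ ≤ 1) : ‖s + 1‖ ≤ 1 :=
  (IsUltrametricDist.norm_add_le_max _ _).trans (max_le hs norm_one.le)

theorem Fam.exists_tens (F : ν → Fam K ι q) : ∃ T : Fam K (ν → ι) q,
    (∀ r j s, T.Φr r j s = tens fun n => (F n).Φr r j s) ∧ T.Φ0 = tens fun n => (F n).Φ0 := by
  have two : ∀ {s : K}, ‖s‖ ≤ 1 → ‖s‖ ≤ 2 := fun h => h.trans one_le_two
  refine ⟨{ Φ := fun j => tens fun n => (F n).Φ j
            Φ0 := tens fun n => (F n).Φ0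
            X := tens fun n => (F n).X
            Y := tens fun n => (F n).Y
            z := fun j s => tens fun n => (F n).z j s
            Φr := fun r j s => tens fun n => (F n).Φr r j s
            hX := fun j hj s hs => ?_
            hY := fun j hj s hs => ?_
            h0 := fun s hs => ?_
            hq := fun s hs => ?_
            inj := fun m => ?_
            one := fun j hj s hs => ?_
            comp := fun r hr j hj j' hj' s hs => ?_ }, fun _ _ _ => rfl, rfl⟩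
  · rw [evM_tens (two hs), evM_tens (two (famdef_aff q j hs)), tens_mul]
    exact congrArg tens (funext fun n => (F n).hX j hj s hs)
  · rw [evM_tens (two hs), evM_tens (two (famdef_aff q j hs)), tens_mul]
    exact congrArg tens (funext fun n => (F n).hY j hj s hs)
  · rw [evM_tens (two hs), evM_tens (two hs), tens_mul]
    exact congrArg tens (funext fun n => (F n).h0 s hs)
  · rw [evM_tens (two hs), evM_tens (two (famdef_succ hs)), tens_mul]
    exact congrArg tens (funext fun n => (F n).hq s hs)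
  · choose Z hZ using fun n => (F n).inj m
    refine ⟨tens Z, ?_⟩
    rw [evM_tens (two (famdef_nat m)), evM_tens (two (famdef_succ (famdef_nat m))), tens_mul,
      tens_mul]
    exact congrArg tens (funext hZ)
  · rw [evM_tens (two hs)]
    exact congrArg tens (funext fun n => (F n).one j hj s hs)
  · rw [evM_tens (two hs), tens_mul]
    exact congrArg tens (funext fun n => (F n).comp r hr j hj j' hj' s hs)

theorem famdef_geom {j : ℕ} (hj : j < q) (r : ℕ) : (∑ t ∈ range r, q ^ t) * j < q ^ r := by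
  induction r with
  | zero => simp
  | succ r ih =>
    rw [sum_range_succ, add_mul, pow_succ]
    calc _ < q ^ r * (j + 1) := by rw [mul_add, mul_one]; omega
      _ ≤ q ^ r * q := Nat.mul_le_mul_left _ hj

/-- at a fixed point the iterated matrices are powers -/
theorem Fam.pow (F : Fam K ι q) {j : ℕ} (hj : j < q) {s : K} (hs : ‖s‖ ≤ 1) (hfix : q * s + j = s)
    {r : ℕ} (hr : 1 ≤ r) : F.Φr r ((∑ t ∈ range r, q ^ t) * j) s = evM s (F.Φ j) ^ r := by
  induction r, hr using Nat.le_induction with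
  | base => simpa using F.one j hj s hs
  | succ r hr ih =>
    rw [sum_range_succ, add_mul, add_comm (_ * j), F.comp r hr j hj _ (famdef_geom hj r) s hs, hfix, ih,
      pow_succ']

/-- the difference operator `v ↦ X v - Y v (s + 1)` -/
def Fam.Δ (F : Fam K ι q) : (ι → An K 2) →L[K] (ι → An K 2) :=
  mulM F.X - brM F.Y 1 1

def Fam.Ψ1 (F : Fam K ι q) : (ι → An K 2) →L[K] (ι → An K 2) :=
  ∑ j ∈ range q, brM (F.Φ j) q j

def Fam.Ψ0 (F : Fam K ι q) : (ι → An K 2) →L[K] (ι → An K 2) := brM F.Φ0 q 0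

/-- the value of a vector of power series -/
def famdef_evV (s : K) (v : ι → An K 2) : ι → K := fun a => An.ev s (v a)

omit [IsUltrametricDist K] in
theorem famdef_ev_aff {s : K} (hs : An.PB 2 s) (Q i : K) :
    An.ev s (An.C Q * An.X + An.C i : An K 2) = Q * s + i := by
  have : (An.C Q * An.X + An.C i : An K 2) =
      An.ofPoly (Polynomial.C Q * Polynomial.X + Polynomial.C i) := by
    rw [map_add, map_mul]; rfl
  rw [this, An.ev_ofPoly hs]
  simp

omit [IsUltrametricDist K] in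
theorem famdef_pb {s : K} (hs : ‖s‖ ≤ 1) : An.PB 2 s :=
  An.PB.of_le (hs.trans (by norm_num))

omit [IsUltrametricDist K] [DecidableEq ι] in
theorem famdef_mulVec {s : K} (hs : ‖s‖ ≤ 1) (M : Matrix ι ι (An K 2)) (v : ι → An K 2) :
    famdef_evV s (M.mulVec v) = (evM s M).mulVec (famdef_evV s v) := by
  funext a
  simp only [famdef_evV, Matrix.mulVec, dotProduct, evM, Matrix.map_apply, map_sum,
    An.ev_mul (famdef_pb hs)]

omit [IsUltrametricDist K] in
theorem famdef_brM {s : K} (hs : ‖s‖ ≤ 1) (M : Matrix ι ι (An K 2)) {Q i : K}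
    (h : An.PB 2 (An.C Q * An.X + An.C i : An K 2)) (v : ι → An K 2) :
    famdef_evV s (brM M Q i v) = (evM s M).mulVec (famdef_evV (Q * s + i) v) := by
  rw [brM_apply, famdef_mulVec hs]
  congr 1
  funext a
  simp only [famdef_evV]
  rw [(An.ev_ev h (famdef_pb hs) (v a)).2, famdef_ev_aff (famdef_pb hs)]

omit [CompleteSpace K] in
theorem famdef_small {Q : K} (hQ : ‖Q‖ ≤ 1 / 4) (j : ℕ) :
    ‖Q‖ * ((2 : ℕ) : ℝ) + ‖(j : K)‖ ≤ 3 / 2 := by
  have := famdef_nat (K := K) j
  push_cast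
  linarith

theorem famdef_pb_aff {Q : K} (hQ : ‖Q‖ ≤ 1 / 4) (j : ℕ) :
    An.PB 2 (An.C Q * An.X + An.C (j : K) : An K 2) :=
  An.PB.of_le ((norm_aff_le _ _).trans ((famdef_small hQ j).trans (by norm_num)))

omit [CompleteSpace K] [IsUltrametricDist K] in
theorem famdef_pow {Q : K} (hQ : ‖Q‖ ≤ 1 / 4) {r : ℕ} (hr : 1 ≤ r) : ‖Q ^ r‖ ≤ 1 / 4 := by
  rw [norm_pow]
  exact (pow_le_of_le_one (norm_nonneg _) (hQ.trans (by norm_num)) (by omega)).trans hQ

theorem famdef_sum_mul {A : Type*} [AddCommMonoid A] (f : ℕ → A) (m n : ℕ) :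
    ∑ J ∈ range (m * n), f J = ∑ j ∈ range n, ∑ j' ∈ range m, f (m * j + j') := by
  induction n with
  | zero => simp
  | succ n ih => rw [Nat.mul_succ, sum_range_add, ih, sum_range_succ]

theorem famdef_Ψ0 (F : Fam K ι q) (hq : ‖(q : K)‖ ≤ 1 / 4) {s : K} (hs : ‖s‖ ≤ 1)
    (v : ι → An K 2) :
    famdef_evV s (F.Ψ0 v) = (evM s F.Φ0).mulVec (famdef_evV (q * s) v) := by
  have h := famdef_pb_aff hq 0
  rw [Nat.cast_zero] at h
  rw [Fam.Ψ0, famdef_brM hs _ h, add_zero]

/-- the powers of the operator are sums over the branches of the iterated map -/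
theorem famdef_iter (F : Fam K ι q) (hq : ‖(q : K)‖ ≤ 1 / 4) {r : ℕ} (hr : 1 ≤ r) :
    ∃ M : ℕ → Matrix ι ι (An K 2), F.Ψ1 ^ r = ∑ j ∈ range (q ^ r), brM (M j) ((q : K) ^ r) j ∧
      ∀ j < q ^ r, ∀ s : K, ‖s‖ ≤ 1 → evM s (M j) = F.Φr r j s := by
  induction r, hr using Nat.le_induction with
  | base =>
    refine ⟨F.Φ, by simp only [pow_one]; rfl, fun j hj s hs => ?_⟩
    rw [pow_one] at hj
    exact (F.one j hj s hs).symm
  | succ r hr ih =>
    obtain ⟨M, h1, h2⟩ := ih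
    have hd : ∀ j, ∀ j' < q ^ r, (q ^ r * j + j') / q ^ r = j ∧ (q ^ r * j + j') % q ^ r = j' := by
      intro j j' hj'
      have hp : 0 < q ^ r := by omega
      constructor
      · rw [Nat.mul_add_div hp, Nat.div_eq_of_lt hj', add_zero]
      · rw [Nat.mul_add_mod, Nat.mod_eq_of_lt hj']
    refine ⟨fun J => F.Φ (J / q ^ r) * (M (J % q ^ r)).map
      (An.ev (An.C (q : K) * An.X + An.C ((J / q ^ r : ℕ) : K) : An K 2)), ?_, ?_⟩
    · rw [pow_succ', h1, pow_succ q, famdef_sum_mul, Fam.Ψ1, sum_mul]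
      refine sum_congr rfl fun j _ => ?_
      rw [mul_sum]
      refine sum_congr rfl fun j' hj' => ?_
      obtain ⟨e1, e2⟩ := hd j j' (mem_range.mp hj')
      beta_reduce
      rw [e1, e2, ContinuousLinearMap.mul_def,
        brM_comp _ _ ((famdef_small hq j).trans (by norm_num))
          ((famdef_small (famdef_pow hq hr) j').trans (by norm_num))]
      push_cast
      rw [pow_succ]
    · intro J hJ s hs
      have hq0 : 0 < q := Nat.pos_of_ne_zero (by rintro rfl; simp at hJ)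
      have hp : 0 < q ^ r := by positivity
      have hj : J / q ^ r < q := Nat.div_lt_of_lt_mul (by rwa [← pow_succ])
      have hc := F.comp r hr _ hj _ (Nat.mod_lt J hp) s hs
      rw [Nat.div_add_mod] at hc
      rw [hc, evM_mul (hs.trans (by norm_num)), ← h2 _ (Nat.mod_lt J hp) _ (famdef_aff q _ hs)]
      congr 1
      ext a b
      simp only [evM, Matrix.map_apply]
      rw [(An.ev_ev (famdef_pb_aff hq _) (famdef_pb hs) _).2, famdef_ev_aff (famdef_pb hs)]

variable [CharZero K]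

theorem famdef_Δ (F : Fam K ι q) {s : K} (hs : ‖s‖ ≤ 1) (v : ι → An K 2) :
    famdef_evV s (F.Δ v) = (evM s F.X).mulVec (famdef_evV s v) -
      (evM s F.Y).mulVec (famdef_evV (s + 1) v) := by
  have h : An.PB 2 (An.C (1 : K) * An.X + An.C (1 : K) : An K 2) := by
    rw [show (An.C (1 : K) * An.X : An K 2) = An.X by rw [map_one, one_mul]]
    exact An.pb_X_add_C norm_one.le
  have e := famdef_brM hs F.Y h v
  rw [one_mul] at e
  rw [← e, ← famdef_mulVec hs, ← mulM_apply]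
  funext a
  simp [famdef_evV, Fam.Δ]

omit [Fintype ι] [DecidableEq ι] in
theorem famdef_ext (hq0 : q ≠ 0) (hq : ‖(q : K)‖ ≤ 1 / 4) {v w : ι → An K 2}
    (h : ∀ n : ℕ, famdef_evV (n : K) v = famdef_evV (n : K) w) : v = w := by
  funext a
  refine sub_eq_zero.mp (An.eq_zero_of_nat ⟨q, hq0, hq.trans_lt (by norm_num)⟩ fun n => ?_)
  rw [map_sub, sub_eq_zero]
  exact congrFun (h n) a

theorem Fam.intertwine (F : Fam K ι q) (hq0 : q ≠ 0) (hq : ‖(q : K)‖ ≤ 1 / 4) :
    F.Ψ1 ∘L F.Δ = F.Δ ∘L F.Ψ0 := by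
  refine ContinuousLinearMap.ext fun v => famdef_ext hq0 hq fun n => ?_
  have hn := famdef_nat (K := K) n
  have e1 : famdef_evV (n : K) (F.Ψ1 (F.Δ v)) =
      ∑ j ∈ range q, famdef_evV (n : K) (brM (F.Φ j) q j (F.Δ v)) := by
    funext a
    simp [famdef_evV, Fam.Ψ1]
  have e2 : ∀ j ∈ range q, famdef_evV (n : K) (brM (F.Φ j) q j (F.Δ v)) =
      (F.z j n).mulVec (famdef_evV ((q : K) * n + j) v) -
        (F.z (j + 1) n).mulVec (famdef_evV ((q : K) * n + ((j + 1 : ℕ) : K)) v) := by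
    intro j hj
    rw [famdef_brM hn _ (famdef_pb_aff hq j), famdef_Δ F (famdef_aff q j hn), Matrix.mulVec_sub,
      Matrix.mulVec_mulVec, Matrix.mulVec_mulVec, F.hX j (mem_range.mp hj) _ hn,
      F.hY j (mem_range.mp hj) _ hn, Nat.cast_succ, add_assoc]
  rw [ContinuousLinearMap.comp_apply, ContinuousLinearMap.comp_apply, e1, sum_congr rfl e2,
    sum_range_sub' (fun j : ℕ => (F.z j n).mulVec (famdef_evV ((q : K) * n + j) v)),
    famdef_Δ F hn, famdef_Ψ0 F hq hn, famdef_Ψ0 F hq (famdef_succ hn), Matrix.mulVec_mulVec,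
    Matrix.mulVec_mulVec, F.h0 _ hn, F.hq _ hn, Nat.cast_zero, add_zero, mul_add, mul_one]

theorem Fam.eq_zero (F : Fam K ι q) (hq0 : q ≠ 0) (hq : ‖(q : K)‖ ≤ 1 / 4) (v : ι → An K 2)
    (h : F.Δ (F.Ψ0 v) = 0) (h0 : ∀ a, An.co 0 (F.Ψ0 v a) = 0) : F.Ψ0 v = 0 := by
  have z : ∀ s : K, famdef_evV s (0 : ι → An K 2) = 0 := fun s => by
    funext a
    simp [famdef_evV]
  refine famdef_ext hq0 hq fun n => ?_
  rw [z]
  induction n with
  | zero =>
    funext a
    rw [Nat.cast_zero, famdef_evV, An.ev_zero, h0 a, Pi.zero_apply]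
  | succ n ih =>
    have hn := famdef_nat (K := K) n
    have e := famdef_Δ F hn (F.Ψ0 v)
    rw [h, z, ih, Matrix.mulVec_zero, zero_sub, famdef_Ψ0 F hq (famdef_succ hn),
      Matrix.mulVec_mulVec, eq_comm, neg_eq_zero] at e
    obtain ⟨Z, hZ⟩ := F.inj n
    rw [Nat.cast_succ, famdef_Ψ0 F hq (famdef_succ hn), ← hZ, ← Matrix.mulVec_mulVec, e,
      Matrix.mulVec_zero]

theorem Fam.tr_pow (F : Fam K ι q) (hq : ‖(q : K)‖ ≤ 1 / 4) {r : ℕ} (hr : 1 ≤ r) :
    (An.basisPi ι).tr (F.Ψ1 ^ r) =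
      (1 - (q : K) ^ r)⁻¹ * ∑ j ∈ range (q ^ r), (F.Φr r j (j / (1 - (q : K) ^ r))).trace := by
  obtain ⟨M, h1, h2⟩ := famdef_iter F hq hr
  have hQ := famdef_pow hq hr
  have hn : ‖1 - (q : K) ^ r‖ = 1 := by
    rw [sub_eq_add_neg, IsUltrametricDist.norm_add_eq_max_of_norm_ne_norm, norm_one, norm_neg]
    · exact max_eq_left (hQ.trans (by norm_num))
    · rw [norm_one, norm_neg]
      exact (hQ.trans_lt (by norm_num)).ne'
  rw [h1, L1B.tr_sum _ _ fun j _ => nuc_brM _ ((famdef_small hQ j).trans_lt (by norm_num)),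
    mul_sum]
  refine sum_congr rfl fun j hj => ?_
  rw [tr_brM _ hQ (famdef_nat j), h2 j (mem_range.mp hj)]
  rw [norm_div, hn, div_one]
  exact famdef_nat j

theorem Fam.norm_Ψ1 (F : Fam K ι q) (hq : ‖(q : K)‖ ≤ 1 / 4) :
    ∃ c : ℝ, ∀ j : ι × ℕ, ‖F.Ψ1 ((An.basisPi ι).e j)‖ ≤
      c * (3 / 4) ^ j.2 * (An.basisPi (K := K) (R := 2) ι).w j := by
  choose c hc using fun j : ℕ => norm_brM_basis (F.Φ j) (Q := (q : K)) (i := (j : K))
    ((famdef_small hq j).trans (by norm_num))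
  refine ⟨∑ j ∈ range q, |c j|, fun i => ?_⟩
  have hw := ((An.basisPi (K := K) (R := 2) ι).w_pos i).le
  rw [Fam.Ψ1, _root_.sum_apply, sum_mul, sum_mul]
  refine (norm_sum_le _ _).trans (sum_le_sum fun j _ => (hc j i).trans ?_)
  refine mul_le_mul_of_nonneg_right ?_ hw
  refine (mul_le_mul_of_nonneg_right (le_abs_self _) (by positivity)).trans ?_
  refine mul_le_mul_of_nonneg_left (pow_le_pow_left₀ (by positivity) ?_ _) (abs_nonneg _)
  have := famdef_small hq j
  rw [div_le_iff₀ (by norm_num)]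
  refine this.trans ?_
  norm_num

end

end Pool.Agent.P.MP_9484ad_co
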