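import Pool.Agent.P.MP_9484ad_co.Dwork

/-! Overconvergence of `exp (π (x - x ^ p))`. -/

namespace Pool.Agent.P.MP_9484ad_co

open Finset

variable {K : Type} [NontriviallyNormedField K] [CompleteSpace K] [IsUltrametricDist K] [CharZero K]
  {π : K} {p : ℕ}

/-- the closed unit ball as a subring -/
def hasse_O (K : Type) [NontriviallyNormedField K] [IsUltrametricDist K] : Subring K where
  carrier := {x | ‖x‖ ≤ 1}
  zero_mem' := by simp
  one_mem' := by simp
  add_mem' := fun {a b} ha hb =>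
    (IsUltrametricDist.norm_add_le_max a b).trans (max_le ha hb)
  neg_mem' := fun {a} ha => by simpa using ha
  mul_mem' := fun {a b} ha hb => by
    have ha' : ‖a‖ ≤ 1 := ha
    have hb' : ‖b‖ ≤ 1 := hb
    show ‖a * b‖ ≤ 1
    rw [norm_mul]
    exact mul_le_one₀ ha' (norm_nonneg _) hb'

omit [CompleteSpace K] [CharZero K] in
theorem hasse_mem {x : K} : x ∈ hasse_O K ↔ ‖x‖ ≤ 1 := Iff.rfl

omit [CompleteSpace K] [IsUltrametricDist K] [CharZero K] in
theorem hasse_cont (s : ℕ → K) (n : ℕ) : Continuous fun a : K => Ex (fun r => a * s r) n := by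
  induction n using Nat.strong_induction_on with
  | _ n ih =>
    rcases n with _ | n
    · simp only [Ex_zero]
      exact continuous_const
    · simp only [Ex_succ']
      refine Continuous.div_const (continuous_finsetSum _ fun r hr => ?_) _
      exact (continuous_id.mul continuous_const).mul (ih _ (by omega))

omit [CompleteSpace K] in
theorem hasse_smul {s : ℕ → K} (hs : IntE (hasse_O K) s) {a : K}
    (ha : a ∈ closure (Set.range (Int.cast : ℤ → K))) : IntE (hasse_O K) fun r => a * s r := by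
  have key : ∀ s : ℕ → K, IntE (hasse_O K) s → ∀ n, ‖Ex (fun r => a * s r) n‖ ≤ 1 := by
    intro s hs n
    have hc : IsClosed {a : K | ‖Ex (fun r => a * s r) n‖ ≤ 1} :=
      isClosed_le (hasse_cont s n).norm continuous_const
    refine closure_minimal (t := {a : K | ‖Ex (fun r => a * s r) n‖ ≤ 1}) ?_ hc ha
    rintro _ ⟨z, rfl⟩
    have h1 := (hs.zsmul z n).1
    have h2 : z • s = fun r => (z : K) * s r := by
      funext r
      simp
    rw [h2] at h1
    exact h1
  intro n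
  refine ⟨key s hs n, ?_⟩
  have h3 : (-fun r => a * s r) = fun r => a * (-s) r := by
    funext r
    simp
  rw [h3]
  exact key _ hs.neg n

omit [CompleteSpace K] in
theorem hasse_inv_mem (hp : p.Prime) (hn : ‖(p : K)‖ = (p : ℝ)⁻¹) {q : ℕ} (hq : ¬ p ∣ q) :
    (q : K)⁻¹ ∈ closure (Set.range (Int.cast : ℤ → K)) := by
  rw [Metric.mem_closure_iff]
  intro ε hε
  have hp1 : (1 : ℝ) < p := by exact_mod_cast hp.one_lt
  obtain ⟨k, hk⟩ := exists_pow_lt_of_lt_one hε (inv_lt_one_of_one_lt₀ hp1)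
  have hc : IsCoprime (q : ℤ) ((p : ℤ) ^ k) :=
    (Nat.isCoprime_iff_coprime.2 ((Nat.Prime.coprime_iff_not_dvd hp).2 hq).symm).pow_right
  obtain ⟨u, v, huv⟩ := hc
  have hq1 := norm_coprime hp hn hq
  have hq0 : (q : K) ≠ 0 := by
    intro h
    rw [h, norm_zero] at hq1
    exact zero_ne_one hq1
  refine ⟨u, ⟨u, rfl⟩, ?_⟩
  have h1 : (u : K) * q + v * (p : K) ^ k = 1 := by exact_mod_cast congrArg (Int.cast : ℤ → K) huv
  have h2 : (q : K)⁻¹ - u = v * (p : K) ^ k * (q : K)⁻¹ := by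
    field_simp
    linear_combination -h1
  rw [dist_eq_norm, h2, norm_mul, norm_mul, norm_inv, hq1, inv_one, mul_one, norm_pow, hn]
  refine lt_of_le_of_lt ?_ hk
  exact mul_le_of_le_one_left (by positivity) (IsUltrametricDist.norm_intCast_le_one K v)

omit [CompleteSpace K] in
theorem hasse_expand {s : ℕ → K} (hs : IntE (hasse_O K) s) {d : ℕ} (hd : 0 < d) :
    IntE (hasse_O K) fun r => if d ∣ r then d * s (r / d) else 0 := by
  have key : ∀ s : ℕ → K, IntE (hasse_O K) s → ∀ n,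
      Ex (fun r => if d ∣ r then d * s (r / d) else 0) n ∈ hasse_O K := by
    intro s hs n
    rw [← exC_eq, exC_expand s hd, exC_eq]
    split_ifs
    · exact (hs _).1
    · exact zero_mem _
  intro n
  refine ⟨key s hs n, ?_⟩
  have h3 : (-fun r => if d ∣ r then (d : K) * s (r / d) else 0) =
      fun r => if d ∣ r then d * (-s) (r / d) else 0 := by
    funext r
    simp only [Pi.neg_apply]
    split_ifs <;> simp
  rw [h3]
  exact key _ hs.neg n

omit [CompleteSpace K] in
open Classical in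
theorem hasse_sieve (hp : p.Prime) (hn : ‖(p : K)‖ = (p : ℝ)⁻¹) (S : Finset ℕ)
    (hS : ∀ q ∈ S, q.Prime ∧ q ≠ p) :
    IntE (hasse_O K) fun r => if ∀ q ∈ S, ¬ q ∣ r then (1 : K) else 0 := by
  induction S using Finset.induction_on with
  | empty => exact (IntE.pow (one_mem _)).congr fun r _ => by simp
  | insert q S hq ih =>
    have hq' := hS q (mem_insert_self _ _)
    have ih' := ih fun q' h => hS q' (mem_insert_of_mem h)
    have hpq : ¬ p ∣ q := fun h => hq'.2 ((Nat.prime_dvd_prime_iff_eq hp hq'.1).1 h).symm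
    have h1 := ih'.sub (hasse_smul (hasse_expand ih' hq'.1.pos) (hasse_inv_mem hp hn hpq))
    refine h1.congr fun r _ => ?_
    have hq0 : (q : K) ≠ 0 := Nat.cast_ne_zero.2 hq'.1.ne_zero
    simp only [Pi.sub_apply, forall_mem_insert]
    by_cases hr : q ∣ r
    · obtain ⟨m, rfl⟩ := hr
      have h2 : (∀ q' ∈ S, ¬ q' ∣ q * m) ↔ ∀ q' ∈ S, ¬ q' ∣ m := by
        refine forall₂_congr fun q' h => not_congr ?_
        have h3 := hS q' (mem_insert_of_mem h)
        rw [Nat.Prime.dvd_mul h3.1, Nat.prime_dvd_prime_iff_eq h3.1 hq'.1]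
        refine or_iff_right fun h4 => hq (h4 ▸ h)
      rw [if_neg (by simp), if_pos (dvd_mul_right _ _), Nat.mul_div_cancel_left _ hq'.1.pos,
        ← mul_assoc, inv_mul_cancel₀ hq0, one_mul]
      simp only [h2, sub_self]
    · simp [hr]

open Classical in
/-- integrality of the Artin-Hasse series -/
theorem norm_hasse_le (hp : p.Prime) (hn : ‖(p : K)‖ = (p : ℝ)⁻¹) (n : ℕ) :
    ‖exC (fun r => if ∃ i, r = p ^ i then (1 : K) else 0) n‖ ≤ 1 := by
  have h := (hasse_sieve hp hn ((range (n + 1)).filter fun q => q.Prime ∧ q ≠ p)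
    (fun q hq => (mem_filter.1 hq).2) n).1
  rw [exC_eq, Ex_congr (t := fun r => if ∀ q ∈ (range (n + 1)).filter fun q => q.Prime ∧ q ≠ p,
    ¬ q ∣ r then (1 : K) else 0)]
  · exact h
  intro r h1 h2
  refine if_congr ⟨?_, fun h3 => ?_⟩ rfl rfl
  · rintro ⟨i, rfl⟩ q hq h3
    have h4 := (mem_filter.1 hq).2
    exact h4.2 ((Nat.prime_dvd_prime_iff_eq h4.1 hp).1 (h4.1.dvd_of_dvd_pow h3))
  · refine ⟨_, Nat.eq_prime_pow_of_unique_prime_dvd (by omega) fun {q} hq h4 => ?_⟩
    by_contra h5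
    refine h3 q (mem_filter.2 ⟨mem_range.2 ?_, hq, h5⟩) h4
    have := Nat.le_of_dvd (by omega) h4
    omega

/-- geometric bound for all coefficients -/
def hasse_Bn (ρ : ℝ) (t : ℕ → K) : Prop := ∀ n, ‖exC t n‖ ≤ ρ ^ n

omit [CompleteSpace K] in
theorem hasse_Bn_add {ρ : ℝ} (hρ : 0 ≤ ρ) {s t : ℕ → K} (hs : hasse_Bn ρ s) (ht : hasse_Bn ρ t) :
    hasse_Bn ρ fun r => s r + t r := by
  intro n
  rw [exC_add]
  refine IsUltrametricDist.norm_sum_le_of_forall_le_of_nonneg (by positivity) fun ij hij => ?_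
  rw [HasAntidiagonal.mem_antidiagonal] at hij
  rw [norm_mul, ← hij, pow_add]
  exact mul_le_mul (hs _) (ht _) (norm_nonneg _) (by positivity)

omit [CompleteSpace K] [IsUltrametricDist K] in
theorem hasse_exC_single (y : K) (m : ℕ) :
    exC (fun r => if r = 1 then y else 0) m = y ^ m / m.factorial := by
  symm
  refine congrFun (exC_unique (e := fun m => y ^ m / m.factorial) (by simp) fun n => ?_) m
  rw [sum_eq_single 0]
  · have h1 : ((n + 1 : ℕ) : K) ≠ 0 := Nat.cast_ne_zero.2 n.succ_ne_zero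
    have h2 : (n.factorial : K) ≠ 0 := Nat.cast_ne_zero.2 n.factorial_ne_zero
    rw [Nat.factorial_succ, Nat.cast_mul]
    simp only [zero_add, if_true, Nat.sub_zero]
    field_simp
    ring
  · intro b _ hb
    simp [hb]
  · simp

omit [CompleteSpace K] [IsUltrametricDist K] in
theorem hasse_Bn_zero {ρ : ℝ} (hρ : 0 ≤ ρ) : hasse_Bn ρ fun _ => (0 : K) := by
  intro n
  have h := hasse_exC_single (0 : K) n
  simp only [ite_self] at h
  rw [h]
  rcases n with _ | n
  · simp
  · simp only [ne_eq, Nat.add_eq_zero_iff, one_ne_zero, and_false, not_false_eq_true, zero_pow,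
      zero_div, norm_zero]
    positivity

omit [CompleteSpace K] in
theorem hasse_Bn_sum {ρ : ℝ} (hρ : 0 ≤ ρ) (S : Finset ℕ) (t : ℕ → ℕ → K)
    (h : ∀ i ∈ S, hasse_Bn ρ (t i)) : hasse_Bn ρ fun r => ∑ i ∈ S, t i r := by
  induction S using Finset.induction_on with
  | empty => simpa using hasse_Bn_zero hρ
  | insert i S hi ih =>
    simp only [sum_insert hi]
    exact hasse_Bn_add hρ (h i (mem_insert_self _ _)) (ih fun j hj => h j (mem_insert_of_mem hj))

omit [CompleteSpace K] [IsUltrametricDist K] in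
theorem hasse_exC_scale (a : K) (t : ℕ → K) (n : ℕ) :
    exC (fun r => a ^ r * t r) n = a ^ n * exC t n := by
  symm
  refine congrFun (exC_unique (e := fun n => a ^ n * exC t n) (by simp [exC_zero]) fun n => ?_) n
  rw [mul_left_comm, exC_succ, mul_sum]
  refine sum_congr rfl fun r hr => ?_
  rw [mem_range] at hr
  have : n + 1 = r + 1 + (n - r) := by omega
  rw [this, pow_add]
  ring

omit [CompleteSpace K] in
theorem hasse_Bn_single (hp : p.Prime) (hn : ‖(p : K)‖ = (p : ℝ)⁻¹) {a ρ : ℝ} (ha : 0 < a)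
    (hap : a ^ (p - 1) = (p : ℝ)⁻¹) (hρ : 0 ≤ ρ) {d : ℕ} (hd : 0 < d) {y : K}
    (hy : ‖y‖ ≤ a * ρ ^ d) : hasse_Bn ρ fun r => if r = d then d * y else 0 := by
  intro n
  have h1 : exC (fun r => if r = d then d * y else 0) =
      exC fun r => if d ∣ r then d * (if r / d = 1 then y else 0) else 0 := by
    refine exC_congr fun r _ => ?_
    by_cases h : r = d
    · subst h
      simp [Nat.div_self hd]
    · rw [if_neg h]
      split_ifs with h2 h3
      · obtain ⟨m, rfl⟩ := h2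
        rw [Nat.mul_div_cancel_left _ hd] at h3
        subst h3
        simp at h
      · simp
      · rfl
  rw [h1, exC_expand (fun r => if r = 1 then y else 0) hd]
  split_ifs with h2
  · obtain ⟨m, rfl⟩ := h2
    rw [Nat.mul_div_cancel_left _ hd, hasse_exC_single, norm_div, norm_pow]
    have h3 := pow_le_norm_factorial hp hn ha.le hap m
    have h4 : 0 < a ^ m := pow_pos ha m
    rw [div_le_iff₀ (h4.trans_le h3)]
    calc ‖y‖ ^ m ≤ (a * ρ ^ d) ^ m := pow_le_pow_left₀ (norm_nonneg _) hy m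
      _ = ρ ^ (d * m) * a ^ m := by rw [mul_pow, pow_mul, mul_comm]
      _ ≤ _ := mul_le_mul_of_nonneg_left h3 (by positivity)
  · rw [norm_zero]
    positivity

theorem hasse_exp_le (hp : p.Prime) (j : ℕ) :
    1 + (p - 1) * (p ^ (j + 1) + (j + 1)) ≤ p ^ (j + 2) := by
  obtain ⟨k, rfl⟩ : ∃ k, p = k + 1 := ⟨p - 1, by have := hp.pos; omega⟩
  have h : 1 + (j + 1) * k ≤ (1 + k) ^ (j + 1) := by
    have := one_add_mul_le_pow (a := (k : ℤ)) (by omega) (j + 1)
    exact_mod_cast this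
  rw [Nat.add_sub_cancel, pow_succ (k + 1) (j + 1), add_comm k 1]
  nlinarith

theorem hasse_real (hp : p.Prime) {a : ℝ} (ha : 0 < a) (ha1 : a ≤ 1)
    (hap : a ^ (p - 1) = (p : ℝ)⁻¹) (j : ℕ) :
    a ^ p ^ (j + 2) * (p : ℝ) ^ (j + 2) ≤ a * (2 / p) ^ p ^ (j + 1) := by
  have hp0 : (0 : ℝ) < p := by exact_mod_cast hp.pos
  have h1 : a ^ p ^ (j + 2) ≤ a * ((p : ℝ)⁻¹) ^ (p ^ (j + 1) + (j + 1)) := by
    rw [← hap, ← pow_mul, ← pow_succ']
    refine pow_le_pow_of_le_one ha.le ha1 ?_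
    have := hasse_exp_le hp j
    omega
  have h2 : (p : ℝ) ≤ 2 ^ p ^ (j + 1) := by
    have h3 : p ≤ p ^ (j + 1) := Nat.le_self_pow (by omega) p
    have h4 : p ^ (j + 1) ≤ 2 ^ p ^ (j + 1) := Nat.lt_two_pow_self.le
    exact_mod_cast h3.trans h4
  calc a ^ p ^ (j + 2) * (p : ℝ) ^ (j + 2)
      ≤ a * ((p : ℝ)⁻¹) ^ (p ^ (j + 1) + (j + 1)) * (p : ℝ) ^ (j + 2) :=
        mul_le_mul_of_nonneg_right h1 (by positivity)
    _ = a * (p * ((p : ℝ)⁻¹) ^ p ^ (j + 1)) := by
        rw [pow_add, pow_succ (p : ℝ) (j + 1), inv_pow (p : ℝ) (j + 1)]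
        field_simp
    _ ≤ a * (2 ^ p ^ (j + 1) * ((p : ℝ)⁻¹) ^ p ^ (j + 1)) :=
        mul_le_mul_of_nonneg_left (mul_le_mul_of_nonneg_right h2 (by positivity)) ha.le
    _ = _ := by rw [← mul_pow, div_eq_mul_inv]

omit [CompleteSpace K] [IsUltrametricDist K] [CharZero K] in
open Classical in
theorem hasse_split (c : Ctx K p π) {n r : ℕ} (h1 : 1 ≤ r) (h2 : r ≤ n) :
    dwt π p r = π ^ r * (if ∃ i, r = p ^ i then (1 : K) else 0) +
      ∑ j ∈ range n, if r = p ^ (j + 2) then -π ^ r else 0 := by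
  have hp := c.prime
  have hinj : ∀ {i j : ℕ}, p ^ i = p ^ j → i = j := fun h => Nat.pow_right_injective hp.two_le h
  by_cases h : ∃ i, r = p ^ i
  · rw [if_pos h, mul_one]
    obtain ⟨i, rfl⟩ := h
    rcases i with _ | _ | i
    · rw [sum_eq_zero fun j _ => if_neg fun h => by have := hinj h; omega]
      simp [dwt, hp.ne_one.symm]
    · rw [sum_eq_zero fun j _ => if_neg fun h => by have := hinj h; omega]
      have h3 : π ^ p = π * π ^ (p - 1) := by
        rw [← pow_succ']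
        congr 1
        have := hp.pos
        omega
      simp [dwt, hp.ne_one, h3, c.pi_pow]
    · rw [sum_eq_single i]
      · have h3 : p ^ (i + 1 + 1) ≠ 1 := fun h => by
          have := hinj (h.trans (pow_zero p).symm)
          omega
        have h4 : p ^ (i + 1 + 1) ≠ p := fun h => by
          have := hinj (h.trans (pow_one p).symm)
          omega
        rw [dwt, if_neg h3, if_neg h4]
        simp
      · intro j _ hj
        exact if_neg fun h => by have := hinj h; omega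
      · intro hi
        have := Nat.lt_pow_self (n := i + 1 + 1) hp.one_lt
        exact absurd (mem_range.2 (by omega)) hi
  · rw [if_neg h, sum_eq_zero fun j _ => if_neg fun h' => h ⟨_, h'⟩]
    have h3 : r ≠ 1 := fun h' => h ⟨0, by simpa using h'⟩
    have h4 : r ≠ p := fun h' => h ⟨1, by simpa using h'⟩
    simp [dwt, h3, h4]

open Classical in
theorem Ctx.bd_p (c : Ctx K p π) : Bd π p := by
  obtain ⟨hπ1, hπ2, hπ3⟩ := c.norm_pi
  have hp := c.prime
  have hbig : (10 : ℝ) ^ 5 ≤ p := by exact_mod_cast c.big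
  have hp0 : (0 : ℝ) < p := by exact_mod_cast hp.pos
  have hπ0 : 0 < ‖π‖ := by linarith
  set ρ : ℝ := (2 / p : ℝ) ^ ((p : ℝ)⁻¹) with hρdef
  have hρ0 : 0 ≤ ρ := by positivity
  have hρp : ρ ^ p = 2 / p := Real.rpow_inv_natCast_pow (by positivity) hp.ne_zero
  have hρ1 : ρ < 1 := by
    refine lt_of_pow_lt_pow_left₀ p zero_le_one ?_
    rw [hρp, one_pow, div_lt_one hp0]
    linarith
  have hπρ : ‖π‖ ≤ ρ := by
    refine le_of_pow_le_pow_left₀ hp.ne_zero hρ0 ?_
    have h3 : ‖π‖ ^ p = ‖π‖ * ‖π‖ ^ (p - 1) := by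
      rw [← pow_succ']
      congr 1
      have := hp.pos
      omega
    rw [hρp, h3, hπ1, div_eq_mul_inv]
    exact mul_le_mul_of_nonneg_right (by linarith) (by positivity)
  refine ⟨norm_pos_iff.1 hπ0, hπ3.le, hp.two_le, ?_, ρ, hρ0, hρ1, ?_, fun n => ?_⟩
  · rw [c.norm_p, inv_mul_le_iff₀ hp0]
    linarith
  · rw [hρp]
    refine le_trans ?_ hπ2
    rw [div_mul_eq_mul_div, div_le_iff₀ hp0]
    linarith
  have hA : hasse_Bn ρ fun r => π ^ r * (if ∃ i, r = p ^ i then (1 : K) else 0) := by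
    intro m
    rw [hasse_exC_scale, norm_mul, norm_pow]
    exact (mul_le_of_le_one_right (by positivity) (norm_hasse_le hp c.norm_p m)).trans
      (pow_le_pow_left₀ (norm_nonneg _) hπρ m)
  have hB : ∀ j ∈ range n, hasse_Bn ρ fun r => if r = p ^ (j + 2) then -π ^ r else 0 := by
    intro j _
    have hd : 0 < p ^ (j + 2) := pow_pos hp.pos _
    have hd0 : ((p ^ (j + 2) : ℕ) : K) ≠ 0 := Nat.cast_ne_zero.2 hd.ne'
    have h := hasse_Bn_single hp c.norm_p hπ0 hπ1 hρ0 hd
      (y := -π ^ p ^ (j + 2) / ((p ^ (j + 2) : ℕ) : K)) (by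
        rw [norm_div, norm_neg, norm_pow, Nat.cast_pow, norm_pow, c.norm_p, inv_pow, div_inv_eq_mul,
          pow_succ' p (j + 1), pow_mul ρ, hρp, ← pow_succ' p (j + 1)]
        exact hasse_real hp hπ0 hπ3.le hπ1 j)
    have h2 : (fun r => if r = p ^ (j + 2) then -π ^ r else 0) = fun r => if r = p ^ (j + 2) then
        ((p ^ (j + 2) : ℕ) : K) * (-π ^ p ^ (j + 2) / ((p ^ (j + 2) : ℕ) : K)) else 0 := by
      funext r
      split_ifs with h3
      · rw [mul_div_cancel₀ _ hd0, h3]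
      · rfl
    rw [h2]
    exact h
  have hC := hasse_Bn_add hρ0 hA (hasse_Bn_sum hρ0 _ _ hB) n
  rw [exC_eq, ← Ex_congr (s := dwt π p) fun r h1 h2 => hasse_split c h1 h2, ← exC_eq] at hC
  simpa [dwc] using hC

theorem Ctx.bd (c : Ctx K p π) {f : ℕ} (hf : 1 ≤ f) : Bd π (p ^ f) := c.bd_p.pow hf

end Pool.Agent.P.MP_9484ad_co
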