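import Pool.Agent.P.MP_9484ad_co.Dwork
import Pool.Agent.P.MP_9484ad_co.Endgame

/-! Symmetries of the hypergeometric sums and their form as sums over periodic points. -/

namespace Pool.Agent.P.MP_9484ad_co

open Finset

noncomputable section

variable {K : Type} [NontriviallyNormedField K] [CompleteSpace K] [IsUltrametricDist K] [CharZero K]
  {π : K} {p q Q : ℕ}

theorem syma_shift_one {M : Type} [AddCommGroup M] (f : ℤ → M) (N : ℕ) (x : ℤ)
    (hf : f (x + N) = f x) :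
    ∑ i ∈ range N, f ((i : ℤ) + (x + 1)) = ∑ i ∈ range N, f ((i : ℤ) + x) := by
  have h1 := Finset.sum_range_succ (fun i : ℕ => f ((i : ℤ) + x)) N
  have h2 := Finset.sum_range_succ' (fun i : ℕ => f ((i : ℤ) + x)) N
  rw [h1] at h2
  simp only [Nat.cast_zero, zero_add, add_comm (N : ℤ) x, hf] at h2
  rw [add_right_cancel h2]
  refine Finset.sum_congr rfl fun i _ => ?_
  congr 1
  push_cast
  ring

theorem syma_shift {M : Type} [AddCommGroup M] (f : ℤ → M) (N : ℕ)
    (hf : ∀ x, f (x + N) = f x) (x : ℤ) :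
    ∑ i ∈ range N, f ((i : ℤ) + x) = ∑ i ∈ range N, f (i : ℤ) := by
  induction x using Int.induction_on with
  | zero => simp
  | succ n ih => rw [syma_shift_one f N _ (hf _), ih]
  | pred n ih =>
    rw [← ih, ← syma_shift_one f N _ (hf _)]
    refine Finset.sum_congr rfl fun i _ => ?_
    congr 1
    ring

theorem syma_neg {M : Type} [AddCommGroup M] (f : ℤ → M) (N : ℕ)
    (hf : ∀ x, f (x + N) = f x) :
    ∑ i ∈ range N, f (-(i : ℤ)) = ∑ i ∈ range N, f (i : ℤ) := by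
  rw [← syma_shift f N hf (1 - N), ← Finset.sum_range_reflect]
  refine Finset.sum_congr rfl fun i hi => ?_
  have := mem_range.1 hi
  congr 1
  omega

theorem syma_per (π : K) (hQ : 2 ≤ Q) (ku kl : Fin 4 → ℤ) (x : ℤ) :
    (∏ m, G π Q (ku m - (x + ((Q - 1 : ℕ) : ℤ)))) * ∏ m, G π Q (kl m + (x + ((Q - 1 : ℕ) : ℤ))) =
      (∏ m, G π Q (ku m - x)) * ∏ m, G π Q (kl m + x) := by
  have e : ((Q - 1 : ℕ) : ℤ) = (Q : ℤ) - 1 := by omega
  rw [e]
  congr 1
  · refine Finset.prod_congr rfl fun m _ => G_congr π hQ ?_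
    exact (Int.modEq_iff_dvd.2 ⟨1, by ring⟩)
  · refine Finset.prod_congr rfl fun m _ => G_congr π hQ ?_
    exact (Int.modEq_iff_dvd.2 ⟨-1, by ring⟩)

theorem syma_Hs_neg (π : K) (hQ : 2 ≤ Q) (ku kl : Fin 4 → ℤ) :
    Hs π Q ku kl = ((Q : K) - 1)⁻¹ *
      ∑ i ∈ range (Q - 1), (∏ m, G π Q (ku m + i)) * ∏ m, G π Q (kl m - i) := by
  unfold Hs
  congr 1
  rw [← syma_neg (fun x => (∏ m, G π Q (ku m - x)) * ∏ m, G π Q (kl m + x)) (Q - 1)
    (syma_per π hQ ku kl)]
  simp only [sub_neg_eq_add, ← sub_eq_add_neg]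

theorem syma_prod_zpow {ι : Type} (s : Finset ι) (f : ι → ℤ) :
    ∏ m ∈ s, (-1 : ℂ) ^ f m = (-1) ^ ∑ m ∈ s, f m := by
  classical
  induction s using Finset.induction_on with
  | empty => simp
  | insert a s ha ih =>
    rw [Finset.prod_insert ha, Finset.sum_insert ha, ih, zpow_add₀ (by norm_num)]

theorem Hs_congr (π : K) (hQ : 2 ≤ Q) {ku kl ku' kl' : Fin 4 → ℤ}
    (hu : ∀ m, ku m ≡ ku' m [ZMOD ((Q : ℤ) - 1)]) (hl : ∀ m, kl m ≡ kl' m [ZMOD ((Q : ℤ) - 1)]) :
    Hs π Q ku kl = Hs π Q ku' kl' := by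
  unfold Hs
  congr 1
  refine Finset.sum_congr rfl fun i _ => ?_
  congr 1
  · exact Finset.prod_congr rfl fun m _ => G_congr π hQ ((hu m).sub_right _)
  · exact Finset.prod_congr rfl fun m _ => G_congr π hQ ((hl m).add_right _)

theorem Ht_congr (π : K) (hQ : 2 ≤ Q) {n n' : ℤ} {ku ku' : Fin 2 → ℤ} {kl kl' : Fin 4 → ℤ}
    (hn : n ≡ n' [ZMOD ((Q : ℤ) ^ 2 - 1)]) (hu : ∀ m, ku m ≡ ku' m [ZMOD ((Q : ℤ) - 1)])
    (hl : ∀ m, kl m ≡ kl' m [ZMOD ((Q : ℤ) - 1)]) : Ht π Q n ku kl = Ht π Q n' ku' kl' := by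
  unfold Ht
  congr 1
  refine Finset.sum_congr rfl fun i _ => ?_
  have h2 : 2 ≤ Q ^ 2 := by nlinarith
  congr 1
  · congr 1
    · refine G_congr π h2 ?_
      push_cast
      exact hn.sub_right _
    · exact Finset.prod_congr rfl fun m _ => G_congr π hQ ((hu m).sub_right _)
  · exact Finset.prod_congr rfl fun m _ => G_congr π hQ ((hl m).add_right _)

theorem Hs_perm (π : K) (Q : ℕ) (ku kl : Fin 4 → ℤ) (σ τ : Equiv.Perm (Fin 4)) :
    Hs π Q (fun m => ku (σ m)) (fun m => kl (τ m)) = Hs π Q ku kl := by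
  unfold Hs
  congr 1
  refine Finset.sum_congr rfl fun i _ => ?_
  rw [Equiv.prod_comp σ fun m => G π Q (ku m - i), Equiv.prod_comp τ fun m => G π Q (kl m + i)]

theorem Hs_swap (π : K) (hQ : 2 ≤ Q) (ku kl : Fin 4 → ℤ) : Hs π Q ku kl = Hs π Q kl ku := by
  rw [syma_Hs_neg π hQ ku kl]
  unfold Hs
  congr 1
  exact Finset.sum_congr rfl fun i _ => mul_comm _ _

theorem Hs_shift (π : K) (hQ : 2 ≤ Q) (ku kl : Fin 4 → ℤ) (x : ℤ) :
    Hs π Q (fun m => ku m - x) (fun m => kl m + x) = Hs π Q ku kl := by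
  unfold Hs
  congr 1
  rw [← syma_shift (fun y => (∏ m, G π Q (ku m - y)) * ∏ m, G π Q (kl m + y)) (Q - 1)
    (syma_per π hQ ku kl) x]
  refine Finset.sum_congr rfl fun i _ => ?_
  congr 1
  · refine Finset.prod_congr rfl fun m _ => ?_
    congr 1
    ring
  · refine Finset.prod_congr rfl fun m _ => ?_
    congr 1
    ring

theorem conj_Hs (c : Ctx K p π) (h : Bd π Q) (hQ : Odd Q) (φ : K →+* ℂ) (ku kl : Fin 4 → ℤ) :
    (starRingEnd ℂ) (φ (Hs π Q ku kl)) =
      (-1) ^ (∑ m, ku m + ∑ m, kl m) * φ (Hs π Q (fun m => -ku m) fun m => -kl m) := by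
  rw [syma_Hs_neg π h.two_le (fun m => -ku m) fun m => -kl m]
  unfold Hs
  simp only [map_mul, map_sum, map_prod, map_inv₀, map_sub, map_natCast, map_one,
    conj_G c h hQ φ]
  rw [mul_left_comm]
  congr 1
  rw [Finset.mul_sum]
  refine Finset.sum_congr rfl fun i _ => ?_
  rw [Finset.prod_mul_distrib, Finset.prod_mul_distrib, syma_prod_zpow, syma_prod_zpow,
    mul_mul_mul_comm, ← zpow_add₀ (by norm_num)]
  congr 1
  · congr 1
    rw [Finset.sum_sub_distrib, Finset.sum_add_distrib]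
    ring
  · congr 1
    · refine Finset.prod_congr rfl fun m _ => ?_
      congr 2
      ring
    · refine Finset.prod_congr rfl fun m _ => ?_
      congr 2
      ring

omit [CompleteSpace K] [IsUltrametricDist K] [CharZero K] in
theorem symb_card_mu (n : ℕ) : (mu K n).card ≤ n := by
  classical
  unfold mu
  rw [Polynomial.nthRootsFinset_def]
  exact (Multiset.toFinset_card_le _).trans (Polynomial.card_nthRoots _ _)

omit [CompleteSpace K] [IsUltrametricDist K] [CharZero K] in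
theorem symb_cyc (f : ℕ → K) {r : ℕ} (hr : 1 ≤ r) (hf : f r = f 0) :
    ∏ t ∈ range r, f (t + 1) = ∏ t ∈ range r, f t := by
  obtain ⟨s, rfl⟩ : ∃ s, r = s + 1 := ⟨r - 1, by omega⟩
  rw [prod_range_succ (fun t => f (t + 1)), hf, prod_range_succ' f]

omit [CompleteSpace K] [IsUltrametricDist K] [CharZero K] in
theorem symb_fix {y : K} (hy : y ^ Q = y) (t : ℕ) : y ^ Q ^ t = y := by
  induction t with
  | zero => simp
  | succ t ih => rw [pow_succ, pow_mul, ih, hy]

theorem symb_zpow_Nr {y : K} (hy0 : y ≠ 0) (hy : y ^ Q = y) (k : ℕ) : y ^ Nr Q k = y ^ k := by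
  induction k with
  | zero => simp [Nr]
  | succ k ih =>
    rw [Nr_succ, zpow_add₀ hy0, ih, ← Nat.cast_pow, zpow_natCast, symb_fix hy, pow_succ']

theorem symb_pos (h : Bd π q) {r : ℕ} (hr : 1 ≤ r) : 0 < q ^ r - 1 := by
  have := (h.pow hr).two_le
  omega

theorem symb_mem (h : Bd π q) {r : ℕ} (hr : 1 ≤ r) {x : K} :
    x ∈ mu K (q ^ r - 1) ↔ x ≠ 0 ∧ x ^ q ^ r = x := by
  have h1 := symb_pos h hr
  have h2 : x ^ q ^ r = x ^ (q ^ r - 1) * x := by
    rw [← pow_succ]; congr 1; omega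
  rw [mem_mu h1, h2]
  constructor
  · intro h3
    refine ⟨?_, by rw [h3, one_mul]⟩
    rintro rfl
    rw [zero_pow h1.ne'] at h3
    exact zero_ne_one h3
  · rintro ⟨h3, h4⟩
    exact mul_right_cancel₀ h3 (by rw [h4, one_mul])

/-- the weight of one coordinate -/
theorem symb_weight (c : Ctx K p π) (h : Bd π q) {r : ℕ} (hr : 1 ≤ r) {x : K}
    (hx : x ∈ mu K (q ^ r - 1)) (k : ℤ) :
    (x ^ q) ^ (Nr q r * k) * dwF π (q ^ r) (x ^ q) = x ^ (Nr q r * k) * dwF π (q ^ r) x ∧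
    (x ^ (Nr q r * k) * dwF π (q ^ r) x) ^ (p * (q - 1)) = 1 ∧
    ∀ l, 1 ≤ l → x ^ (Nr q (r * l) * k) * dwF π (q ^ (r * l)) x =
      (x ^ (Nr q r * k) * dwF π (q ^ r) x) ^ l := by
  have h1 := symb_pos h hr
  have hn : ‖x‖ = 1 := norm_of_mem_mu h1 hx
  obtain ⟨h0, h2⟩ := (symb_mem h hr).1 hx
  have hq := h.two_le
  have h3 : (x ^ Nr q r) ^ (q - 1) = 1 := by
    rw [← zpow_natCast, ← zpow_mul, Nat.cast_sub (by omega), Nat.cast_one, Nr_mul]
    have h4 : (q : ℤ) ^ r - 1 = ((q ^ r - 1 : ℕ) : ℤ) := by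
      rw [Nat.cast_sub (by omega)]; simp
    rw [h4, zpow_natCast]
    exact (mem_mu h1).1 hx
  have h4 : (x ^ (Nr q r * k)) ^ (q - 1) = 1 := by
    rw [zpow_mul, ← zpow_natCast, ← zpow_mul, mul_comm k, zpow_mul, zpow_natCast, h3, one_zpow]
  refine ⟨?_, ?_, fun l hl => ?_⟩
  · congr 1
    · have h5 : x ^ q = x ^ (q - 1) * x := by
        rw [← pow_succ]; congr 1; omega
      rw [h5, mul_zpow, ← zpow_natCast x, ← zpow_mul, mul_comm ((q - 1 : ℕ) : ℤ), zpow_mul,
        zpow_natCast, h4, one_mul]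
    · rw [dwF_pow h (by rw [norm_pow, hn, one_pow]) hr, dwF_pow h hn.le hr,
        ← symb_cyc (fun t => dwF π q (x ^ q ^ t)) hr (by simp [h2])]
      refine prod_congr rfl fun t _ => ?_
      rw [← pow_mul, pow_succ']
  · rw [mul_pow, pow_mul (dwF π (q ^ r) x), dwF_pow_p c (h.pow hr) h2, one_pow, mul_one,
      mul_comm p, pow_mul, h4, one_pow]
  · rw [mul_pow]
    congr 1
    · have h5 : (x ^ (Nr q r * k)) ^ q ^ r = x ^ (Nr q r * k) := by
        rw [← zpow_natCast, ← zpow_mul, mul_comm _ ((q ^ r : ℕ) : ℤ), zpow_mul, zpow_natCast, h2]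
      rw [← Nr_comp, ← symb_zpow_Nr (zpow_ne_zero _ h0) h5, ← zpow_mul]
      congr 1
      ring
    · rw [pow_mul, dwF_pow (h.pow hr) hn.le hl]
      simp only [symb_fix h2, prod_const, card_range]

open Classical in
/-- sums over the torus points satisfying a condition stable under `x ↦ x ^ q` -/
theorem symb_dold (c : Ctx K p π) (h : Bd π q) {ν σ : Type} [Fintype ν] [Fintype σ]
    [DecidableEq ν] [DecidableEq σ] (k : ν → σ → ℤ) (P : (ν → σ → K) → Prop) [DecidablePred P] (hP : ∀ x, P x → P fun n s => x n s ^ q)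
    {t : ℕ → K} (ht : ∀ r, 1 ≤ r → t r =
      ∑ x ∈ Fintype.piFinset fun _ : ν => Fintype.piFinset fun _ : σ => mu K (q ^ r - 1),
        if P x then ∏ n, ∏ s, x n s ^ (Nr q r * k n s) * dwF π (q ^ r) (x n s) else 0) :
    Dold (p * (q - 1)) t := by
  let F : {x : ν → σ → K // P x ∧ ∀ n s, x n s ≠ 0} → {x : ν → σ → K // P x ∧ ∀ n s, x n s ≠ 0} :=
    fun x => ⟨fun n s => x.1 n s ^ q, hP _ x.2.1, fun n s => pow_ne_zero _ (x.2.2 n s)⟩
  have hF : ∀ r x, (F^[r] x).1 = fun n s => x.1 n s ^ q ^ r := by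
    intro r
    induction r with
    | zero => intro x; simp
    | succ r ih =>
      intro x
      rw [Function.iterate_succ_apply, ih]
      funext n s
      simp only [F]
      rw [← pow_mul, pow_succ']
  refine ⟨{x : ν → σ → K // P x ∧ ∀ n s, x n s ≠ 0}, F, fun r =>
    (Fintype.piFinset fun _ : ν => Fintype.piFinset fun _ : σ => mu K (q ^ r - 1)).subtype _,
    fun r x => ∏ n, ∏ s, x.1 n s ^ (Nr q r * k n s) * dwF π (q ^ r) (x.1 n s),
    q ^ (Fintype.card σ * Fintype.card ν), fun r x hr => ?_, fun r hr => ?_,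
    fun r hr x hx => ?_, fun r hr => ?_⟩
  · simp only [mem_subtype, Fintype.mem_piFinset, symb_mem h hr]
    rw [Subtype.ext_iff, hF]
    constructor
    · intro h1
      funext n s
      exact (h1 n s).2
    · intro h1 n s
      exact ⟨x.2.2 n s, congrFun (congrFun h1 n) s⟩
  · rw [card_subtype]
    refine (card_filter_le _ _).trans ?_
    simp only [Fintype.card_piFinset, prod_const, card_univ]
    rw [← pow_mul, ← pow_mul, mul_comm _ r, pow_mul q r]
    exact Nat.pow_le_pow_left ((symb_card_mu _).trans (Nat.sub_le _ _)) _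
  · simp only [mem_subtype, Fintype.mem_piFinset] at hx
    refine ⟨?_, ?_, fun l hl => ?_⟩
    · exact prod_congr rfl fun n _ => prod_congr rfl fun s _ =>
        (symb_weight c h hr (hx n s) (k n s)).1
    · rw [← prod_pow]
      refine prod_eq_one fun n _ => ?_
      rw [← prod_pow]
      exact prod_eq_one fun s _ => (symb_weight c h hr (hx n s) (k n s)).2.1
    · rw [← prod_pow]
      refine prod_congr rfl fun n _ => ?_
      rw [← prod_pow]
      exact prod_congr rfl fun s _ => (symb_weight c h hr (hx n s) (k n s)).2.2 l hl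
  · rw [ht r hr, sum_subtype_eq_sum_filter
      (fun x : ν → σ → K => ∏ n, ∏ s, x n s ^ (Nr q r * k n s) * dwF π (q ^ r) (x n s)),
      sum_filter]
    refine sum_congr rfl fun x hx => ?_
    simp only [Fintype.mem_piFinset, symb_mem h hr] at hx
    have h1 : ∀ n s, x n s ≠ 0 := fun n s => (hx n s).1
    simp only [h1, ne_eq, not_false_eq_true, implies_true, and_true]

open Classical in
/-- averaging a character of `mu` -/
theorem symb_avg (hQ : 2 ≤ Q) {z : K} (hz : z ∈ mu K (Q - 1)) (a : K) :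
    ((Q : K) - 1)⁻¹ * ∑ j ∈ range (Q - 1), a * z ^ (j : ℤ) = if z = 1 then a else 0 := by
  have h1 := sum_range_zpow (by omega) hz 1
  simp only [one_mul, zpow_one] at h1
  have h2 : ((Q - 1 : ℕ) : K) = (Q : K) - 1 := by
    rw [Nat.cast_sub (by omega), Nat.cast_one]
  have h3 : (Q : K) - 1 ≠ 0 := by
    rw [← h2]; exact Nat.cast_ne_zero.2 (by omega)
  rw [← mul_sum, h1, h2]
  split_ifs
  · field_simp
  · simp

open Classical in
theorem symb_Hs (π : K) (hQ : 2 ≤ Q) (a b : Fin 4 → ℤ) : Hs π Q a b =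
    ∑ x ∈ Fintype.piFinset fun _ : Fin 4 ⊕ Fin 4 => mu K (Q - 1),
      if ∏ m, x (Sum.inl m) = ∏ m, x (Sum.inr m) then
        ∏ s, x s ^ Sum.elim a b s * dwF π Q (x s) else 0 := by
  have h1 : ∀ i : ℕ, (∏ m, G π Q (a m - i)) * ∏ m, G π Q (b m + i) =
      ∑ x ∈ Fintype.piFinset fun _ : Fin 4 ⊕ Fin 4 => mu K (Q - 1),
        ∏ s, x s ^ Sum.elim (fun m => a m - i) (fun m => b m + i) s * dwF π Q (x s) := by
    intro i
    rw [← prod_univ_sum (fun _ : Fin 4 ⊕ Fin 4 => mu K (Q - 1))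
      fun s y => y ^ Sum.elim (fun m => a m - i) (fun m => b m + i) s * dwF π Q y,
      Fintype.prod_sum_type]
    rfl
  unfold Hs
  simp only [h1]
  rw [sum_comm, mul_sum]
  refine sum_congr rfl fun x hx => ?_
  have hn : 0 < Q - 1 := by omega
  simp only [Fintype.mem_piFinset, mem_mu hn] at hx
  have h0 : ∀ s, x s ≠ 0 := fun s hs => by
    have h2 := hx s
    rw [hs, zero_pow hn.ne'] at h2
    exact zero_ne_one h2
  have h2 : ∏ m, x (Sum.inl m) ≠ 0 := prod_ne_zero_iff.2 fun m _ => h0 _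
  have h3 : (∏ m, x (Sum.inr m)) / ∏ m, x (Sum.inl m) ∈ mu K (Q - 1) := by
    rw [mem_mu hn, div_pow, ← prod_pow, ← prod_pow]
    simp [hx]
  have h4 := symb_avg hQ h3 (∏ s, x s ^ Sum.elim a b s * dwF π Q (x s))
  rw [div_eq_one_iff_eq h2, eq_comm (a := ∏ m, x (Sum.inr m))] at h4
  rw [← h4]
  congr 1
  refine sum_congr rfl fun i _ => ?_
  simp only [Fintype.prod_sum_type, Sum.elim_inl, Sum.elim_inr, prod_mul_distrib,
    zpow_sub₀ (h0 _), zpow_add₀ (h0 _), prod_div_distrib, prod_zpow, div_zpow]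
  ring

open Classical in
theorem symb_prod (π : K) (hQ : 2 ≤ Q) {ν : Type} [Fintype ν] [DecidableEq ν] (a b : ν → Fin 4 → ℤ) :
    ∏ n, Hs π Q (a n) (b n) =
    ∑ x ∈ Fintype.piFinset fun _ : ν => Fintype.piFinset fun _ : Fin 4 ⊕ Fin 4 => mu K (Q - 1),
      if ∀ n, ∏ m, x n (Sum.inl m) = ∏ m, x n (Sum.inr m) then
        ∏ n, ∏ s, x n s ^ Sum.elim (a n) (b n) s * dwF π Q (x n s) else 0 := by
  simp only [symb_Hs π hQ]
  rw [prod_univ_sum]
  refine sum_congr rfl fun x _ => ?_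
  rw [Fintype.prod_ite_zero]

/-- moments along a line of characters are sums over periodic points -/
theorem dold_moment (c : Ctx K p π) (h : Bd π q) {ν : Type} [Fintype ν] (ku kl e : ν → Fin 4 → ℤ) :
    Dold (p * (q - 1)) fun r => ((q : K) ^ r - 1)⁻¹ * ∑ j ∈ range (q ^ r - 1),
      ∏ n, Hs π (q ^ r) (fun m => Nr q r * ku n m + e n m * j) fun m => Nr q r * kl n m := by
  classical
  refine symb_dold c h (fun n => Sum.elim (ku n) (kl n))
    (fun x => (∀ n, ∏ m, x n (Sum.inl m) = ∏ m, x n (Sum.inr m)) ∧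
      ∏ n, ∏ m, x n (Sum.inl m) ^ e n m = 1) (fun x hx => ⟨fun n => ?_, ?_⟩) fun r hr => ?_
  · rw [prod_pow, prod_pow, hx.1 n]
  · have h1 : ∀ n m, (x n (Sum.inl m) ^ q) ^ e n m = (x n (Sum.inl m) ^ e n m) ^ q := by
      intro n m
      rw [← zpow_natCast, ← zpow_natCast, ← zpow_mul, ← zpow_mul, mul_comm]
    simp only [h1, prod_pow, hx.2, one_pow]
  have hQ := (h.pow hr).two_le
  simp only [symb_prod π hQ]
  rw [sum_comm, mul_sum]
  refine sum_congr rfl fun x hx => ?_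
  have hn := symb_pos h hr
  have h0 : ∀ n s, x n s ≠ 0 := by
    simp only [Fintype.mem_piFinset, symb_mem h hr] at hx
    exact fun n s => (hx n s).1
  simp only [Fintype.mem_piFinset, mem_mu hn] at hx
  by_cases h1 : ∀ n, ∏ m, x n (Sum.inl m) = ∏ m, x n (Sum.inr m)
  · have h3 : ∏ n, ∏ m, x n (Sum.inl m) ^ e n m ∈ mu K (q ^ r - 1) := by
      rw [mem_mu hn, ← prod_pow]
      refine prod_eq_one fun n _ => ?_
      rw [← prod_pow]
      refine prod_eq_one fun m _ => ?_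
      rw [← zpow_natCast, ← zpow_mul, mul_comm, zpow_mul, zpow_natCast, hx, one_zpow]
    have h4 := symb_avg hQ h3
      (∏ n, ∏ s, x n s ^ (Nr q r * Sum.elim (ku n) (kl n) s) * dwF π (q ^ r) (x n s))
    rw [Nat.cast_pow] at h4
    simp only [h1, implies_true, if_true, true_and]
    refine Eq.trans ?_ (h4.trans ?_)
    · congr 1
      refine sum_congr rfl fun j _ => ?_
      rw [← prod_zpow, ← prod_mul_distrib]
      refine prod_congr rfl fun n _ => ?_
      simp only [Fintype.prod_sum_type, Sum.elim_inl, Sum.elim_inr, prod_mul_distrib,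
        zpow_add₀ (h0 _ _), zpow_mul (x n _) (e n _), prod_zpow]
      ring
    · congr
  · simp only [h1, if_false, false_and, sum_const_zero, mul_zero]

theorem dold_base (c : Ctx K p π) (h : Bd π q) {ν : Type} [Fintype ν] (ku kl : ν → Fin 4 → ℤ) :
    Dold (p * (q - 1)) fun r =>
      ∏ n, Hs π (q ^ r) (fun m => Nr q r * ku n m) fun m => Nr q r * kl n m := by
  classical
  refine symb_dold c h (fun n => Sum.elim (ku n) (kl n))
    (fun x => ∀ n, ∏ m, x n (Sum.inl m) = ∏ m, x n (Sum.inr m)) (fun x hx n => ?_) fun r hr => ?_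
  · rw [prod_pow, prod_pow, hx n]
  have hQ := (h.pow hr).two_le
  simp only [symb_prod π hQ]
  refine sum_congr rfl fun x _ => ?_
  by_cases h1 : ∀ n, ∏ m, x n (Sum.inl m) = ∏ m, x n (Sum.inr m)
  · rw [if_pos h1, if_pos h1]
    refine prod_congr rfl fun n _ => ?_
    simp only [Fintype.prod_sum_type, Sum.elim_inl, Sum.elim_inr]
  · rw [if_neg h1, if_neg h1]

end

end Pool.Agent.P.MP_9484ad_co
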