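import Pool.Agent.P.MP_9484ad_co.FibDef
import Pool.Agent.P.MP_9484ad_co.Branch

/-! The trace formula. -/

namespace Pool.Agent.P.MP_9484ad_co

open Finset Polynomial

noncomputable section

variable {K : Type} [NontriviallyNormedField K] [CompleteSpace K] [IsUltrametricDist K] [CharZero K]
  {π : K} {Q : ℕ} {t : Par K} {D : RD K}

omit [IsUltrametricDist K] [CharZero K] in
theorem trace_ev_pow {E : Type*} [NormedCommRing E] [NormedAlgebra K E] [CompleteSpace E] {R : ℕ}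
    [R.AtLeastTwo] {y : E} (h : An.PB R y) (n : ℕ) : An.ev y (An.X ^ n : An K R) = y ^ n := by
  obtain ⟨c, hc⟩ := h
  exact An.lift_X_pow hc n

omit [CompleteSpace K] [IsUltrametricDist K] [CharZero K] in
theorem trace_X_pow (R n : ℕ) : (An.X ^ n : An K R) = An.ofPoly (X ^ n) := by
  rw [map_pow]; rfl

omit [CompleteSpace K] [IsUltrametricDist K] [CharZero K] in
theorem trace_smul {R : ℕ} [R.AtLeastTwo] (a : K) (f : K[X]) :
    a • (An.ofPoly f : An K R) = An.ofPoly (C a * f) := by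
  rw [map_mul]; rfl

omit [CompleteSpace K] [CharZero K] in
theorem trace_norm_Q (h : Bd π Q) : ‖(Q : K)‖ ≤ 1 / 10 ^ 5 := by
  have := h.norm_Q
  rw [le_div_iff₀ (by positivity)]; exact this

omit [CompleteSpace K] [CharZero K] in
theorem trace_norm_one_sub (h : Bd π Q) : ‖1 - (Q : K)‖ = 1 := by
  have h1 : ‖(Q : K)‖ < 1 := (trace_norm_Q h).trans_lt (by norm_num)
  have h2 : ‖(1 : K)‖ ≠ ‖-(Q : K)‖ := by rw [norm_neg, norm_one]; exact h1.ne'
  rw [sub_eq_add_neg, IsUltrametricDist.norm_add_eq_max_of_norm_ne_norm h2, norm_neg, norm_one]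
  exact max_eq_left h1.le

omit [CompleteSpace K] [CharZero K] in
theorem trace_one_sub_ne (h : Bd π Q) : 1 - (Q : K) ≠ 0 := by
  intro e
  have := trace_norm_one_sub h
  rw [e, norm_zero] at this
  exact zero_ne_one this

omit [CompleteSpace K] [CharZero K] in
theorem trace_norm_pt (h : Bd π Q) (i : ℕ) : ‖(i : K) / (1 - (Q : K))‖ ≤ 1 := by
  rw [norm_div, trace_norm_one_sub h, div_one]
  exact IsUltrametricDist.norm_natCast_le_one K i

omit [CompleteSpace K] [IsUltrametricDist K] [CharZero K] in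
theorem trace_map_id (t : Par K) : t.map (algebraMap K K) = t := rfl

/-- the inclusion -/
def traceJ (K : Type) [NontriviallyNormedField K] [CompleteSpace K] : An K 4096 →L[K] An K 3 :=
  An.ev (An.X : An K 3)

omit [IsUltrametricDist K] [CharZero K] in
theorem traceJ_pow (n : ℕ) : traceJ K (An.X ^ n) = An.X ^ n :=
  trace_ev_pow (An.PB.of_le (by rw [An.norm_X]; norm_num)) n

omit [CharZero K] in
theorem trace_brS_J (h : Bd π Q) (w : An K 4096) {i : K} (hi : ‖i‖ ≤ 1) :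
    brS 3 w (Q : K) i ∘L traceJ K = brS 4096 w (Q : K) i := by
  have h1 := trace_norm_Q h
  have h2 : ‖(An.C (Q : K) * An.X + An.C i : An K 4096)‖ ≤ 3 := by
    refine (norm_aff_le _ _).trans ?_
    push_cast; nlinarith
  refine An.clm_ext fun n => ?_
  simp only [brS, ContinuousLinearMap.comp_apply, traceJ_pow]
  rw [trace_ev_pow (An.PB.of_le (by exact_mod_cast h2)),
    trace_ev_pow (An.PB.of_le (h2.trans (by norm_num)))]

/-- the embedding of the representatives -/
def traceIo (d : Fin 4 → ℕ) : (Fin 4 → K) →L[K] An K 3 :=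
  ∑ i, (ContinuousLinearMap.proj i : (Fin 4 → K) →L[K] K).smulRight (An.X ^ d i)

omit [CompleteSpace K] [IsUltrametricDist K] [CharZero K] in
theorem traceIo_apply (d : Fin 4 → ℕ) (v : Fin 4 → K) : traceIo d v = An.ofPoly (iot d v) := by
  simp only [traceIo, iot, ContinuousLinearMap.sum_apply, ContinuousLinearMap.smulRight_apply,
    ContinuousLinearMap.proj_apply, map_sum]
  exact sum_congr rfl fun i _ => by rw [trace_X_pow, trace_smul]

omit [CompleteSpace K] [IsUltrametricDist K] [CharZero K] in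
theorem traceIo_single (d : Fin 4 → ℕ) (i : Fin 4) : traceIo d (Pi.single i (1 : K)) = An.X ^ d i := by
  simp only [traceIo, ContinuousLinearMap.sum_apply, ContinuousLinearMap.smulRight_apply,
    ContinuousLinearMap.proj_apply]
  rw [sum_eq_single i]
  · simp
  · intro j _ hj
    simp [Pi.single_eq_of_ne hj]
  · simp

theorem trace_Lmat (h : Bd π Q) (ht : t.Ok) (hD : IsRed (Pu t.u) (Pl t.l) D)
    (hu : Pu (t.su Q) = Pu t.u) (hl : Pl (t.sl Q) = Pl t.l) :
    (Lmat π Q t D D.d).trace =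
      (1 - (Q : K))⁻¹ * (∑ i ∈ range Q, wtAt π Q t i (i / (1 - (Q : K))) - w0At π Q t 0) := by
  obtain ⟨c, hc⟩ := hD.bd
  have hQ := trace_norm_Q h
  have hn : ∀ i : ℕ, ‖(i : K)‖ ≤ 1 := fun i => IsUltrametricDist.norm_natCast_le_one K i
  have h0 : ‖(0 : K)‖ ≤ 1 := by simp
  have hg : ∀ n, ‖(An.ofPoly (D.g n) : An K 3)‖ ≤ c * ((4096 : ℕ) : ℝ) ^ n := fun n => by
    exact_mod_cast (hc n).2
  have hr : ∀ n, ‖D.r n‖ ≤ c * ((4096 : ℕ) : ℝ) ^ n := fun n => by exact_mod_cast (hc n).1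
  set Gm : An K 4096 →L[K] An K 3 := An.lift fun n => (An.ofPoly (D.g n) : An K 3) with hGm
  have e1 : traceJ K = dlA 3 (Pu t.u) (Pl t.l) ∘L Gm + traceIo D.d ∘L redL D := by
    refine An.clm_ext fun n => ?_
    simp only [ContinuousLinearMap.add_apply, ContinuousLinearMap.comp_apply, traceJ_pow, hGm, redL]
    rw [An.lift_X_pow hg, An.lift_X_pow hr, dlA_ofPoly, traceIo_apply, ← map_add, ← hD.split,
      trace_X_pow]
  have e2 : Gm ∘L dlA 4096 (Pu t.u) (Pl t.l) = traceJ K := by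
    refine An.clm_ext fun n => ?_
    rw [ContinuousLinearMap.comp_apply, traceJ_pow, trace_X_pow 4096, dlA_ofPoly, hGm,
      An.lift_ofPoly hg, trace_X_pow 3]
    conv_rhs => rw [← hD.g_dl n]
    simp only [RD.gP, Polynomial.sum, map_sum, trace_smul, smul_eq_C_mul]
  have hL : ∀ (R : ℕ) [R.AtLeastTwo],
      Lop R π Q t = ∑ i ∈ range Q, brS R (wt π Q t i) (Q : K) (i : K) := fun R _ => rfl
  have hA : ∀ (R : ℕ) [R.AtLeastTwo], Aop R π Q t = brS R (w0 π Q t) (Q : K) 0 := fun R _ => rfl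
  have e3 : Lop 3 π Q t ∘L traceJ K = Lop 4096 π Q t := by
    rw [hL, hL, ContinuousLinearMap.finsetSum_comp]
    exact sum_congr rfl fun i _ => trace_brS_J h _ (hn i)
  have e4 : Aop 3 π Q t ∘L traceJ K = Aop 4096 π Q t := by
    rw [hA, hA]; exact trace_brS_J h _ h0
  have n3 : ∀ (w : An K 4096) {i : K}, ‖i‖ ≤ 1 → Nuc (brS 3 w (Q : K) i) := fun w i hi =>
    nuc_brS w (by push_cast; nlinarith)
  have n4 : ∀ (w : An K 4096) {i : K}, ‖i‖ ≤ 1 → Nuc (brS 4096 w (Q : K) i) := fun w i hi =>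
    nuc_brS w (by push_cast; nlinarith)
  have nL : Nuc (Lop 3 π Q t) := by
    rw [hL]; exact Nuc.sum _ fun i _ => n3 _ (hn i)
  have nA : Nuc (Aop 3 π Q t) := by
    rw [hA]; exact n3 _ h0
  have e5 : Lop 3 π Q t ∘L (dlA 3 (Pu t.u) (Pl t.l) ∘L Gm) =
      dlA 4096 (Pu t.u) (Pl t.l) ∘L (Aop 3 π Q t ∘L Gm) := by
    ext1 f
    simp only [ContinuousLinearMap.comp_apply]
    rw [← Lop_dlA h ht, hu, hl]
  have e6 : An.basis.tr (Lop 4096 π Q t) =
      An.basis.tr (Aop 4096 π Q t) + (Lmat π Q t D D.d).trace := by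
    rw [← e3, e1, ContinuousLinearMap.comp_add,
      L1B.tr_add _ (nL.comp_right _) (nL.comp_right _), e5,
      L1B.tr_comm An.basis An.basis (nA.comp_right Gm), ContinuousLinearMap.comp_assoc, e2, e4,
      ← ContinuousLinearMap.comp_assoc, L1B.tr_fin, Matrix.trace]
    congr 1
    refine sum_congr rfl fun i _ => ?_
    rw [ContinuousLinearMap.comp_apply, traceIo_single, Matrix.diag_apply, Lmat_apply (R := 3) h hD]
  have hQ4 : ‖(Q : K)‖ ≤ 1 / 4 := hQ.trans (by norm_num)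
  have hpb : ∀ {a : K}, ‖a‖ ≤ 1 → An.PB 4096 a := fun ha =>
    An.PB.of_le (ha.trans (by norm_num))
  rw [hL, hA, L1B.tr_sum _ _ fun i _ => n4 _ (hn i), tr_brS _ hQ4 h0, zero_div,
    ev_w0 h ht (hpb h0), trace_map_id] at e6
  rw [mul_sub, mul_sum, sub_eq_iff_eq_add'.2 ?_]
  rw [← e6]
  refine sum_congr rfl fun i _ => ?_
  rw [tr_brS _ hQ4 (hn i), ev_wt h ht i (hpb (trace_norm_pt h i)), trace_map_id]

variable [IsAlgClosed K]

theorem trace_low (h : Bd π Q) (ht : t.Ok) (hl : t.sl Q = t.l) (i : ℕ) (m : Fin 4) :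
    gam π Q (t.kl m + i) (t.l m + i / (1 - (Q : K))) = -G π Q (t.kl m + i) := by
  have h1 := trace_one_sub_ne h
  have h2 : (Q : K) * t.l m + t.kl m = t.l m := congrFun hl m
  have h3 := ht.kl m
  have h4 := h.two_le
  refine gam_eq_G h (by omega) ?_
  rw [mul_add, mul_div_cancel₀ _ h1]
  push_cast
  linear_combination -h2

theorem trace_up (h : Bd π Q) (ht : t.Ok) {m : Fin 4} (hu : t.su Q m = t.u m) {i : ℕ}
    (hi : i < Q - 1) : gam π Q (t.ku m - i) (t.u m - i / (1 - (Q : K))) = -G π Q (t.ku m - i) := by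
  have h1 := trace_one_sub_ne h
  have h2 : (Q : K) * t.u m + t.ku m = t.u m := hu
  have h3 := ht.ku m
  refine gam_eq_G h (by omega) ?_
  rw [mul_sub, mul_div_cancel₀ _ h1]
  push_cast
  linear_combination -h2

theorem trace_last (h : Bd π Q) (ht : t.Ok) (hl : t.sl Q = t.l) :
    ∑ i ∈ range Q, wtAt π Q t i (i / (1 - (Q : K))) - w0At π Q t 0 =
      ∑ i ∈ range (Q - 1), wtAt π Q t i (i / (1 - (Q : K))) := by
  have h1 := trace_one_sub_ne h
  have h4 := h.two_le
  obtain ⟨n, hn⟩ : ∃ n, Q = n + 1 := ⟨Q - 1, by omega⟩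
  have e : wtAt π Q t n (n / (1 - (Q : K))) = w0At π Q t 0 := by
    unfold wtAt w0At
    congr 1
    · refine prod_congr rfl fun m _ => ?_
      have e1 : (n : K) / (1 - (Q : K)) = -1 := by
        rw [div_eq_iff h1, hn]; push_cast; ring
      have e2 : t.ku m - n = t.ku m + 1 - Q := by rw [hn]; push_cast; ring
      rw [e1, e2, sub_neg_eq_add, sub_zero]
    · refine prod_congr rfl fun m _ => ?_
      have e1 := trace_low h ht hl 0 m
      simp only [Nat.cast_zero, add_zero, zero_div] at e1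
      rw [trace_low h ht hl n m, add_zero, e1, G_congr π h4]
      have : ((Q : ℤ) - 1) = n := by rw [hn]; push_cast; ring
      rw [this]
      exact Int.add_modEq_right
  have e' : Q - 1 = n := by omega
  rw [e', ← e]
  conv_lhs => rw [show range Q = range (n + 1) by rw [hn]]
  rw [sum_range_succ, add_sub_cancel_right]

theorem trace_Lmat_Hs (h : Bd π Q) (ht : t.Ok) (hD : IsRed (Pu t.u) (Pl t.l) D)
    (hu : t.su Q = t.u) (hl : t.sl Q = t.l) : (Lmat π Q t D D.d).trace = -Hs π Q t.ku t.kl := by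
  rw [trace_Lmat h ht hD (by rw [hu]) (by rw [hl]), trace_last h ht hl, Hs, ← neg_mul, ← inv_neg,
    neg_sub]
  congr 1
  refine sum_congr rfl fun i hi => ?_
  unfold wtAt
  simp only [trace_low h ht hl i, fun m => trace_up h ht (congrFun hu m) (mem_range.1 hi),
    Fin.prod_univ_four]
  ring

theorem trace_Lmat_Ht (h : Bd π Q) (ht : t.Ok) (hD : IsRed (Pu t.u) (Pl t.l) D)
    (h0 : t.su Q 0 = t.u 1) (h1 : t.su Q 1 = t.u 0) (h2 : t.su Q 2 = t.u 2) (h3 : t.su Q 3 = t.u 3)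
    (hl : t.sl Q = t.l) :
    (Lmat π Q t D D.d).trace = Ht π Q (Q * t.ku 0 + t.ku 1) ![t.ku 2, t.ku 3] t.kl := by
  have hu : Pu (t.su Q) = Pu t.u := by
    simp only [Pu, Fin.prod_univ_four, h0, h1, h2, h3]; ring
  have hne := trace_one_sub_ne h
  rw [trace_Lmat h ht hD hu (by rw [hl]), trace_last h ht hl, Ht, ← neg_sub (1 : K), inv_neg,
    neg_mul, ← mul_neg, ← sum_neg_distrib]
  congr 1
  refine sum_congr rfl fun i hi => ?_
  have hi' := mem_range.1 hi
  have k0 := ht.ku 0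
  have k1 := ht.ku 1
  have g0 : (Q : K) * t.u 0 + t.ku 0 = t.u 1 := h0
  have g1 : (Q : K) * t.u 1 + t.ku 1 = t.u 0 := h1
  have ha : (1 - (Q : K)) * (i / (1 - (Q : K))) = i := mul_div_cancel₀ _ hne
  have e : gam π Q (t.ku 0 - i) (t.u 0 - i / (1 - (Q : K))) *
      gam π Q (t.ku 1 - i) (t.u 1 - i / (1 - (Q : K))) =
      -G π (Q ^ 2) (Q * t.ku 0 + t.ku 1 - (Q + 1) * i) := by
    have e1 : t.u 1 - i / (1 - (Q : K)) =
        (Q : K) * (t.u 0 - i / (1 - (Q : K))) + ((t.ku 0 - i : ℤ) : K) := by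
      push_cast
      linear_combination -g0 - ha
    have e2 : (Q : ℤ) * t.ku 0 + t.ku 1 - (Q + 1) * i = Q * (t.ku 0 - i) + (t.ku 1 - i) := by ring
    have hb : ‖t.u 0 - i / (1 - (Q : K))‖ ≤ 4999 :=
      (norm_sub_le _ _).trans (by linarith [ht.nu 0, trace_norm_pt h i])
    rw [e1, gam_comp h h (by omega) (by omega) hb, e2, sq]
    refine gam_eq_G (h.mul h) ?_ ?_
    · have : (i : ℤ) + 2 ≤ Q := by omega
      have hQ : (0 : ℤ) ≤ Q := by omega
      push_cast
      nlinarith [mul_nonneg hQ k0]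
    · push_cast
      linear_combination -(Q : K) * g0 - g1 - (1 + (Q : K)) * ha
  unfold wtAt
  simp only [trace_low h ht hl i, Fin.prod_univ_four, Fin.prod_univ_two, trace_up h ht h2 hi',
    trace_up h ht h3 hi', e, Matrix.cons_val_zero, Matrix.cons_val_one]
  ring

end

end Pool.Agent.P.MP_9484ad_co
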