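import Pool.Agent.P.MP_9484ad_co.Fib
import Pool.Agent.P.MP_9484ad_co.Trace
import Pool.Agent.P.MP_9484ad_co.FamDef
import Pool.Agent.P.MP_9484ad_co.Hasse
import Pool.Agent.P.MP_9484ad_co.Sym

/-! The hypergeometric family on a line of characters; rationality and descent. -/

namespace Pool.Agent.P.MP_9484ad_co

open Finset

noncomputable section

variable {K : Type} [NontriviallyNormedField K] [CompleteSpace K] [IsUltrametricDist K] [CharZero K]
  [IsAlgClosed K] {π : K} {p q : ℕ}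

/-- the point `j` of the line through `N • k` -/
def onLine (N : ℤ) (k : Fin 4 → ℤ) (j : ℤ) : Fin 4 → ℤ :=
  ![N * k 0 - j, N * k 1 + j, N * k 2, N * k 3]

/-- `k / (1 - q)` plus an integer does not vanish unless `q - 1` divides `k` -/
theorem div_add_ne_zero (hq : 2 ≤ q) {k : ℤ} (h : ¬ ((q : ℤ) - 1) ∣ k) (n : ℤ) :
    (k : K) / (1 - (q : K)) + n ≠ 0 := by
  intro h0
  have h1 : (1 - (q : K)) ≠ 0 := by
    rw [sub_ne_zero]
    exact_mod_cast (show (1 : ℕ) ≠ q by omega)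
  apply h
  refine ⟨n, ?_⟩
  have h2 : (k : K) = ((q : K) - 1) * n := by
    field_simp at h0
    linear_combination h0
  exact_mod_cast h2

section FamA

omit [IsAlgClosed K] [CharZero K] [CompleteSpace K] in
theorem fama_norm_one_sub {Q : ℕ} (h : Bd π Q) : ‖1 - (Q : K)‖ = 1 := by
  have h1 := h.norm_Q
  have h2 : ‖(1 : K)‖ ≠ ‖-(Q : K)‖ := by
    rw [norm_one, norm_neg]; intro e; rw [← e] at h1; norm_num at h1
  rw [sub_eq_add_neg, IsUltrametricDist.norm_add_eq_max_of_norm_ne_norm h2, norm_one, norm_neg]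
  exact max_eq_left (by linarith [norm_nonneg (Q : K)])

omit [IsAlgClosed K] [CharZero K] [CompleteSpace K] in
theorem fama_norm_div {Q : ℕ} (h : Bd π Q) (k : ℤ) : ‖(k : K) / (1 - (Q : K))‖ ≤ 1 := by
  rw [norm_div, fama_norm_one_sub h, div_one]
  exact IsUltrametricDist.norm_intCast_le_one K k

omit [IsAlgClosed K] [CharZero K] [CompleteSpace K] in
theorem fama_add_le {a b : K} (ha : ‖a‖ ≤ 1) (hb : ‖b‖ ≤ 1) : ‖a + b‖ ≤ 1 :=
  (IsUltrametricDist.norm_add_le_max a b).trans (max_le ha hb)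

omit [IsAlgClosed K] [CharZero K] [CompleteSpace K] in
theorem fama_aff_le (q j : ℕ) {s : K} (hs : ‖s‖ ≤ 1) : ‖(q : K) * s + j‖ ≤ 1 := by
  refine fama_add_le ?_ (IsUltrametricDist.norm_natCast_le_one K j)
  rw [norm_mul]
  exact mul_le_one₀ (IsUltrametricDist.norm_natCast_le_one K q) (norm_nonneg _) hs

omit [IsAlgClosed K] [CharZero K] [CompleteSpace K] [IsUltrametricDist K] in
theorem fama_two {s : K} (hs : ‖s‖ ≤ 1) : ‖s‖ ≤ ((2 : ℕ) : ℝ) := hs.trans (by norm_num)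

open Classical in
/-- the reduction data at a point of the line -/
def famaD (D : RD (An K 2)) (s : K) : RD K :=
  if h : ‖s‖ ≤ 1 then D.map (An.evH s (An.PB.of_le (fama_two h))) else ⟨fun _ _ => 0, fun _ => 0, D.d⟩

omit [IsAlgClosed K] [CharZero K] [IsUltrametricDist K] in
theorem famaD_eq (D : RD (An K 2)) {s : K} (hs : ‖s‖ ≤ 1) :
    famaD D s = D.map (An.evH s (An.PB.of_le (fama_two hs))) := dif_pos hs

omit [IsAlgClosed K] [CharZero K] [IsUltrametricDist K] in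
theorem famaD_d (D : RD (An K 2)) (s : K) : (famaD D s).d = D.d := by
  unfold famaD
  split_ifs <;> rfl

omit [IsAlgClosed K] [CharZero K] [IsUltrametricDist K] in
theorem fama_ev_C {s : K} (h : An.PB 2 s) (a : K) : An.evH s h (An.C a : An K 2) = a := by
  have := An.ev_ofPoly (K := K) (R := 2) h (Polynomial.C a)
  rw [Polynomial.aeval_C] at this
  exact this

omit [IsAlgClosed K] [CharZero K] [IsUltrametricDist K] in
theorem fama_ev_X {s : K} (h : An.PB 2 s) : An.evH s h (An.X : An K 2) = s := by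
  have := An.anb_ev_X_pow (K := K) (R := 2) h 1
  simpa using this

omit [IsAlgClosed K] [CharZero K] [IsUltrametricDist K] in
theorem fama_line {s : K} (h : An.PB 2 s) (x y u v : K) :
    (fun m => An.evH s h (lineU (An.C x) (An.C y) (An.C u) (An.C v) (An.X : An K 2) m)) =
      lineU x y u v s := by
  funext m
  fin_cases m <;>
    simp only [lineU, Fin.zero_eta, Fin.mk_one, Fin.reduceFinMk, Matrix.cons_val_zero,
      Matrix.cons_val_one, Matrix.cons_val, map_sub, map_add, fama_ev_C, fama_ev_X]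

omit [IsAlgClosed K] [CharZero K] [IsUltrametricDist K] in
theorem fama_isRed {x y u v : K} {l : Fin 4 → K} {D : RD (An K 2)}
    (hD : IsRed (Pu (lineU (An.C x) (An.C y) (An.C u) (An.C v) An.X)) (Pl fun j => An.C (l j)) D)
    {s : K} (hs : ‖s‖ ≤ 1) : IsRed (Pu (lineU x y u v s)) (Pl l) (famaD D s) := by
  have := hD.map (An.evH s (An.PB.of_le (fama_two hs))) fun a => An.norm_ev_le (fama_two hs) a
  rw [Pu_map, Pl_map, fama_line] at this
  simp only [fama_ev_C] at this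
  rwa [famaD_eq D hs]

omit [IsAlgClosed K] in
theorem fama_evL {Q : ℕ} (h : Bd π Q) {x y u v : K} {l : Fin 4 → K} {D : RD (An K 2)}
    (hD : IsRed (Pu (lineU (An.C x) (An.C y) (An.C u) (An.C v) An.X)) (Pl fun j => An.C (l j)) D)
    (hx : ‖x‖ ≤ 1) (hy : ‖y‖ ≤ 1) (hu : ‖u‖ ≤ 1) (hv : ‖v‖ ≤ 1) (hl : ∀ j, ‖l j‖ ≤ 1)
    {k k' : Fin 4 → ℤ} (hk : ∀ m, 0 ≤ k m) (hk' : ∀ m, 0 ≤ k' m) (d : Fin 4 → ℕ) {s : K}
    (hs : ‖s‖ ≤ 1) :
    evM s (Lmat π Q ⟨lineU (An.C x) (An.C y) (An.C u) (An.C v) An.X, fun j => An.C (l j), k, k'⟩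
      D d) = Lmat π Q ⟨lineU x y u v s, l, k, k'⟩ (famaD D s) d := by
  have hX : ‖(An.X : An K 2)‖ = 2 := by rw [An.norm_X]; norm_num
  have hok : Par.Ok (⟨lineU (An.C x) (An.C y) (An.C u) (An.C v) An.X, fun j => An.C (l j), k, k'⟩ :
      Par (An K 2)) := by
    refine ⟨fun m => ?_, fun m => ?_, hk, hk'⟩
    · fin_cases m
      · refine (norm_sub_le (An.C x : An K 2) An.X).trans ?_
        rw [An.norm_C, hX]; linarith
      · refine (norm_add_le (An.C y : An K 2) An.X).trans ?_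
        rw [An.norm_C, hX]; linarith
      · exact (An.norm_C u).le.trans (by linarith)
      · exact (An.norm_C v).le.trans (by linarith)
    · exact (An.norm_C (l m)).le.trans (by linarith [hl m])
  have := Lmat_map h hok hD d (An.evH s (An.PB.of_le (fama_two hs)))
    (fun a => An.norm_ev_le (fama_two hs) a) fun k a => (An.ev s).map_smul k a
  rw [famaD_eq D hs]
  refine this.trans ?_
  simp only [Par.map, fama_line, fama_ev_C]

omit [IsAlgClosed K] in
theorem fama_evC (y : An K 2) (D : RD (An K 2)) (d : Fin 4 → ℕ) {s : K} (hs : ‖s‖ ≤ 1) :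
    evM s (Cmat π y D d) = Cmat π (An.evH s (An.PB.of_le (fama_two hs)) y) (famaD D s) d := by
  rw [famaD_eq D hs]
  exact Cmat_map π y D d (An.evH s (An.PB.of_le (fama_two hs))) fun k a => (An.ev s).map_smul k a

omit [IsAlgClosed K] [CharZero K] [CompleteSpace K] [IsUltrametricDist K] in
theorem fama_ok {x y u v s : K} {l : Fin 4 → K} (hx : ‖x‖ ≤ 1) (hy : ‖y‖ ≤ 1) (hu : ‖u‖ ≤ 1)
    (hv : ‖v‖ ≤ 1) (hl : ∀ j, ‖l j‖ ≤ 1) (hs : ‖s‖ ≤ 1) {k k' : Fin 4 → ℤ} (hk : ∀ m, 0 ≤ k m)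
    (hk' : ∀ m, 0 ≤ k' m) : Par.Ok (⟨lineU x y u v s, l, k, k'⟩ : Par K) := by
  refine ⟨fun m => ?_, fun m => (hl m).trans (by norm_num), hk, hk'⟩
  fin_cases m
  · exact (norm_sub_le x s).trans (by linarith)
  · exact (norm_add_le y s).trans (by linarith)
  · exact hu.trans (by norm_num)
  · exact hv.trans (by norm_num)

theorem fama_vec_nonneg {a b c d : ℤ} (ha : 0 ≤ a) (hb : 0 ≤ b) (hc : 0 ≤ c) (hd : 0 ≤ d) :
    ∀ m, 0 ≤ (![a, b, c, d] : Fin 4 → ℤ) m := by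
  intro m
  fin_cases m
  · exact ha
  · exact hb
  · exact hc
  · exact hd

theorem fama_vec_ext {A : Type} {f g : Fin 4 → A} (h0 : f 0 = g 0) (h1 : f 1 = g 1)
    (h2 : f 2 = g 2) (h3 : f 3 = g 3) : f = g := by
  funext m
  fin_cases m
  · exact h0
  · exact h1
  · exact h2
  · exact h3

theorem fama_exists (c : Ctx K p π) (h : Bd π q) (ku kl : Fin 4 → ℤ) (h0 : (q : ℤ) - 1 ≤ ku 0)
    (hu : ∀ m, 0 ≤ ku m) (hl : ∀ m, 0 ≤ kl m) (x l : Fin 4 → K)
    (hx : ∀ m, q * x m + ku m = x m) (hl' : ∀ m, q * l m + kl m = l m)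
    (nx : ∀ m, ‖x m‖ ≤ 1) (nl : ∀ m, ‖l m‖ ≤ 1) (g1 : ∀ (n : ℕ) j, x 1 + n + l j ≠ 0)
    (g2 : ∀ (n : ℕ) j, x 2 + n + l j ≠ 0)
    (hs : ∃ m : ℤ, 2 * (x 0 + x 1 + x 2 + x 3 + ∑ j, l j) = m) :
    ∃ F : Fam K (Fin 4) q,
      (∀ r, 1 ≤ r → ∀ j < q ^ r, (F.Φr r j (j / (1 - (q : K) ^ r))).trace =
        -Hs π (q ^ r) (onLine (Nr q r) ku j) fun m => Nr q r * kl m) ∧
      ∀ r, 1 ≤ r → (evM 0 F.Φ0 ^ r).trace =
        -Hs π (q ^ r) (fun m => Nr q r * ku m) fun m => Nr q r * kl m := by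
  have nx0 : ‖x 0 + 1‖ ≤ 1 := fama_add_le (nx 0) norm_one.le
  obtain ⟨D1, hD1⟩ := exists_red c (x 0) (x 1) (x 2) (x 3) l (nx 0) (nx 1) (nx 2) (nx 3) nl hs g2
  obtain ⟨D0, hD0⟩ := exists_red c (x 0 + 1) (x 1) (x 2) (x 3) l nx0 (nx 1) (nx 2) (nx 3) nl
    (hs.elim fun m hm => ⟨m + 2, by push_cast; linear_combination hm⟩) g2
  have hq2 := h.two_le
  have hk0 : ∀ m, 0 ≤ (![ku 0 + 1 - q, ku 1, ku 2, ku 3] : Fin 4 → ℤ) m :=
    fama_vec_nonneg (by omega) (hu 1) (hu 2) (hu 3)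
  have hkj : ∀ j : ℕ, j < q → ∀ m, 0 ≤ (![ku 0 - j, ku 1 + j, ku 2, ku 3] : Fin 4 → ℤ) m :=
    fun j hj => fama_vec_nonneg (by omega) (by have := hu 1; omega) (hu 2) (hu 3)
  have hN := Nr_nonneg q
  have hNl : ∀ r m, 0 ≤ Nr q r * kl m := fun r m => mul_nonneg (hN r) (hl m)
  have hon : ∀ r (j : ℕ), j < q ^ r → ∀ m, 0 ≤ onLine (Nr q r) ku j m := by
    intro r j hj
    refine fama_vec_nonneg ?_ (add_nonneg (mul_nonneg (hN r) (hu 1)) (Int.natCast_nonneg j))
      (mul_nonneg (hN r) (hu 2)) (mul_nonneg (hN r) (hu 3))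
    have h1 := mul_le_mul_of_nonneg_left h0 (hN r)
    rw [Nr_mul] at h1
    have h2 : (j : ℤ) < (q : ℤ) ^ r := by exact_mod_cast hj
    omega
  have hNK : ∀ r, ((Nr q r : ℤ) : K) * ((q : K) - 1) = (q : K) ^ r - 1 := fun r => by
    exact_mod_cast congrArg (Int.cast : ℤ → K) (Nr_mul q r)
  have hxr : ∀ r m, (q : K) ^ r * x m + (Nr q r : ℤ) * (ku m : K) = x m := fun r m => by
    linear_combination (Nr q r : K) * hx m - x m * hNK r
  have hlr : ∀ r m, (q : K) ^ r * l m + (Nr q r : ℤ) * (kl m : K) = l m := fun r m => by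
    linear_combination (Nr q r : K) * hl' m - l m * hNK r
  have hsl : ∀ (u : Fin 4 → K) (k : Fin 4 → ℤ), Par.sl (⟨u, l, k, kl⟩ : Par K) q = l :=
    fun u k => funext hl'
  have hsu : ∀ (s : K) (j : ℕ),
      Par.su (⟨lineU (x 0) (x 1) (x 2) (x 3) s, l, ![ku 0 - j, ku 1 + j, ku 2, ku 3], kl⟩ : Par K) q
        = lineU (x 0) (x 1) (x 2) (x 3) (q * s + j) := by
    intro s j
    refine fama_vec_ext ?_ ?_ (hx 2) (hx 3)
    · simp only [Par.su, lineU, Matrix.cons_val_zero]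
      push_cast
      linear_combination hx 0
    · simp only [Par.su, lineU, Matrix.cons_val_one, Matrix.cons_val_zero]
      push_cast
      linear_combination hx 1
  have eΦ : ∀ j : ℕ, j < q → ∀ s : K, ‖s‖ ≤ 1 → evM s (Lmat π q
      ⟨lineU (An.C (x 0)) (An.C (x 1)) (An.C (x 2)) (An.C (x 3)) An.X, fun j => An.C (l j),
        ![ku 0 - j, ku 1 + j, ku 2, ku 3], kl⟩ D1 D1.d) =
      Lmat π q ⟨lineU (x 0) (x 1) (x 2) (x 3) s, l, ![ku 0 - j, ku 1 + j, ku 2, ku 3], kl⟩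
        (famaD D1 s) D1.d := fun j hj s hs =>
    fama_evL h hD1 (nx 0) (nx 1) (nx 2) (nx 3) nl (hkj j hj) hl _ hs
  have eΦ0 : ∀ s : K, ‖s‖ ≤ 1 → evM s (Lmat π q
      ⟨lineU (An.C (x 0 + 1)) (An.C (x 1)) (An.C (x 2)) (An.C (x 3)) An.X, fun j => An.C (l j),
        ![ku 0 + 1 - q, ku 1, ku 2, ku 3], kl⟩ D0 D0.d) =
      Lmat π q ⟨lineU (x 0 + 1) (x 1) (x 2) (x 3) s, l, ![ku 0 + 1 - q, ku 1, ku 2, ku 3], kl⟩
        (famaD D0 s) D0.d := fun s hs =>
    fama_evL h hD0 nx0 (nx 1) (nx 2) (nx 3) nl hk0 hl _ hs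
  have eX : ∀ s : K, ‖s‖ ≤ 1 → evM s (Cmat π (An.C (x 0) - An.X : An K 2) D1 D0.d) =
      Cmat π (x 0 - s) (famaD D1 s) D0.d := fun s hs => by
    rw [fama_evC _ _ _ hs, map_sub, fama_ev_C, fama_ev_X]
  have eY : ∀ s : K, ‖s‖ ≤ 1 → evM s (Cmat π (An.C (x 1) + An.X : An K 2) D1 D0.d) =
      Cmat π (x 1 + s) (famaD D1 s) D0.d := fun s hs => by
    rw [fama_evC _ _ _ hs, map_add, fama_ev_C, fama_ev_X]
  have hup : ∀ s : K, lineU (x 0 + 1) (x 1) (x 2) (x 3) (s + 1) =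
      Function.update (lineU (x 0) (x 1) (x 2) (x 3) s) 1
        (lineU (x 0) (x 1) (x 2) (x 3) s 1 + 1) := fun s =>
    fama_vec_ext (by simp [lineU]) (by simp [lineU, add_assoc]) (by simp [lineU]) (by simp [lineU])
  refine ⟨{
    Φ := fun j => Lmat π q
      ⟨lineU (An.C (x 0)) (An.C (x 1)) (An.C (x 2)) (An.C (x 3)) An.X, fun j => An.C (l j),
        ![ku 0 - j, ku 1 + j, ku 2, ku 3], kl⟩ D1 D1.d
    Φ0 := Lmat π q
      ⟨lineU (An.C (x 0 + 1)) (An.C (x 1)) (An.C (x 2)) (An.C (x 3)) An.X, fun j => An.C (l j),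
        ![ku 0 + 1 - q, ku 1, ku 2, ku 3], kl⟩ D0 D0.d
    X := Cmat π (An.C (x 0) - An.X : An K 2) D1 D0.d
    Y := Cmat π (An.C (x 1) + An.X : An K 2) D1 D0.d
    z := fun j s => Lmat π q
      ⟨lineU (x 0) (x 1) (x 2) (x 3) s, l, ![ku 0 - j + 1, ku 1 + j, ku 2, ku 3], kl⟩
        (famaD D1 s) D0.d
    Φr := fun r j s => Lmat π (q ^ r)
      ⟨lineU (x 0) (x 1) (x 2) (x 3) s, l, onLine (Nr q r) ku j, fun m => Nr q r * kl m⟩
        (famaD D1 s) D1.d
    hX := ?_, hY := ?_, h0 := ?_, hq := ?_, inj := ?_, one := ?_, comp := ?_ }, ?_, ?_⟩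
  · intro j hj s hs
    have hs' := fama_aff_le q j hs
    rw [eΦ j hj s hs, eX _ hs']
    have := Lmat_mul_Cmat (t' := ⟨lineU (x 0) (x 1) (x 2) (x 3) s, l,
        ![ku 0 - j + 1, ku 1 + j, ku 2, ku 3], kl⟩) (D' := famaD D1 (q * s + j)) h
      (fama_ok (nx 0) (nx 1) (nx 2) (nx 3) nl hs (hkj j hj) hl) 0 rfl rfl
      (fama_vec_ext (by simp) (by simp) (by simp) (by simp)) rfl (fama_isRed hD1 hs)
      (by rw [hsu, hsl]; exact fama_isRed hD1 hs') D0.d
    rw [famaD_d, hsu] at this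
    exact this
  · intro j hj s hs
    have hs' := fama_aff_le q j hs
    rw [eΦ j hj s hs, eY _ hs']
    have := Lmat_mul_Cmat (t' := ⟨lineU (x 0) (x 1) (x 2) (x 3) s, l,
        ![ku 0 - (j + 1 : ℕ) + 1, ku 1 + (j + 1 : ℕ), ku 2, ku 3], kl⟩)
      (D' := famaD D1 (q * s + j)) h
      (fama_ok (nx 0) (nx 1) (nx 2) (nx 3) nl hs (hkj j hj) hl) 1 rfl rfl
      (fama_vec_ext (by simp; ring) (by simp; ring) (by simp) (by simp)) rfl (fama_isRed hD1 hs)
      (by rw [hsu, hsl]; exact fama_isRed hD1 hs') D0.d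
    rw [famaD_d, hsu] at this
    exact this
  · intro s hs
    rw [eΦ0 s hs, eX s hs]
    have := Cmat_mul_Lmat (t := ⟨lineU (x 0) (x 1) (x 2) (x 3) s, l,
        ![ku 0 - (0 : ℕ) + 1, ku 1 + (0 : ℕ), ku 2, ku 3], kl⟩) (D := famaD D1 s) h
      (fama_ok nx0 (nx 1) (nx 2) (nx 3) nl hs hk0 hl) 0
      (fama_vec_ext (by simp [lineU]; ring) (by simp [lineU]) (by simp [lineU]) (by simp [lineU]))
      rfl (fama_vec_ext (by simp) (by simp) (by simp) (by simp)) rfl (fama_isRed hD1 hs)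
      (fama_isRed hD0 hs) D0.d
    rw [famaD_d] at this
    exact this.symm
  · intro s hs
    have hs' := fama_add_le hs norm_one.le
    rw [eΦ0 _ hs', eY s hs]
    have := Cmat_mul_Lmat (t := ⟨lineU (x 0) (x 1) (x 2) (x 3) s, l,
        ![ku 0 - q + 1, ku 1 + q, ku 2, ku 3], kl⟩) (D := famaD D1 s) h
      (fama_ok nx0 (nx 1) (nx 2) (nx 3) nl hs' hk0 hl) 1 (hup s)
      rfl (fama_vec_ext (by simp; ring) (by simp) (by simp) (by simp)) rfl (fama_isRed hD1 hs)
      (fama_isRed hD0 hs') D0.d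
    rw [famaD_d] at this
    exact this.symm
  · intro n
    have hs : ‖(n : K)‖ ≤ 1 := IsUltrametricDist.norm_natCast_le_one K n
    have hs' := fama_add_le hs norm_one.le
    obtain ⟨Z, hZ⟩ := Cmat_inj h.pi_ne 1 (hup n) (fama_isRed hD1 hs) (fama_isRed hD0 hs') (g1 n)
    refine ⟨Z, ?_⟩
    rw [eΦ0 _ hs', eY _ hs, ← Matrix.mul_assoc]
    rw [famaD_d] at hZ
    exact (congrArg (· * _) hZ).trans (Emat_mul_Lmat h (fama_isRed hD0 hs') _)
  · intro j hj s hs
    rw [eΦ j hj s hs]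
    have e : Nr q 1 = 1 := by simp [Nr]
    simp only [e, onLine, one_mul, pow_one]
  · intro r hr j hj j' hj' s hs
    have hs' := fama_aff_le q j hs
    rw [eΦ j hj s hs]
    have := Lmat_comp (t'' := ⟨lineU (x 0) (x 1) (x 2) (x 3) s, l,
        onLine (Nr q (r + 1)) ku (q ^ r * j + j' : ℕ), fun m => Nr q (r + 1) * kl m⟩)
      h (h.pow hr) (fama_ok (nx 0) (nx 1) (nx 2) (nx 3) nl hs (hkj j hj) hl)
      (fama_ok (nx 0) (nx 1) (nx 2) (nx 3) nl hs' (hon r j' hj') (hNl r)) (hsu s j).symm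
      (hsl _ _).symm rfl rfl
      (congrFun (fama_vec_ext (f := onLine (Nr q (r + 1)) ku (q ^ r * j + j' : ℕ))
        (g := fun m => ((q ^ r : ℕ) : ℤ) * (![ku 0 - j, ku 1 + j, ku 2, ku 3] : Fin 4 → ℤ) m +
          onLine (Nr q r) ku j' m)
        (by simp [onLine, Nr_succ]; ring) (by simp [onLine, Nr_succ]; ring)
        (by simp [onLine, Nr_succ]; ring) (by simp [onLine, Nr_succ]; ring)))
      (fun m => by simp only [Nr_succ]; push_cast; ring) (fama_isRed hD1 hs) (fama_isRed hD1 hs')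
      D1.d
    rw [famaD_d, ← pow_succ'] at this
    exact this.symm
  · intro r hr j hj
    have hr' := h.pow hr
    have hs : ‖(j : K) / (1 - (q : K) ^ r)‖ ≤ 1 := by
      simpa using fama_norm_div hr' j
    have hne : 1 - (q : K) ^ r ≠ 0 := by
      have := fama_norm_one_sub hr'
      intro e
      rw [Nat.cast_pow, e] at this
      simp at this
    have hfix : (q : K) ^ r * (j / (1 - (q : K) ^ r)) + j = j / (1 - (q : K) ^ r) := by
      field_simp; ring
    have := trace_Lmat_Hs hr'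
      (fama_ok (nx 0) (nx 1) (nx 2) (nx 3) nl hs (hon r j hj) (hNl r)) (fama_isRed hD1 hs)
      (fama_vec_ext
        (by simp only [Par.su, lineU, onLine, Matrix.cons_val_zero]; push_cast
            linear_combination hxr r 0 - hfix)
        (by simp only [Par.su, lineU, onLine, Matrix.cons_val_one, Matrix.cons_val_zero]; push_cast
            linear_combination hxr r 1 + hfix)
        (by simpa [Par.su, lineU, onLine] using hxr r 2)
        (by simpa [Par.su, lineU, onLine] using hxr r 3))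
      (funext fun m => by simpa [Par.sl] using hlr r m)
    rw [famaD_d] at this
    exact this
  · intro r hr
    have hs : ‖(0 : K)‖ ≤ 1 := by simp
    have hok : ∀ r, Par.Ok (⟨lineU (x 0 + 1) (x 1) (x 2) (x 3) 0, l,
        fun m => Nr q r * (![ku 0 + 1 - q, ku 1, ku 2, ku 3] : Fin 4 → ℤ) m,
        fun m => Nr q r * kl m⟩ : Par K) := fun r =>
      fama_ok nx0 (nx 1) (nx 2) (nx 3) nl hs (fun m => mul_nonneg (hN r) (hk0 m)) (hNl r)
    have hpow : Lmat π q ⟨lineU (x 0 + 1) (x 1) (x 2) (x 3) 0, l,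
        ![ku 0 + 1 - q, ku 1, ku 2, ku 3], kl⟩ (famaD D0 0) D0.d ^ r =
        Lmat π (q ^ r) ⟨lineU (x 0 + 1) (x 1) (x 2) (x 3) 0, l,
          fun m => Nr q r * (![ku 0 + 1 - q, ku 1, ku 2, ku 3] : Fin 4 → ℤ) m,
          fun m => Nr q r * kl m⟩ (famaD D0 0) D0.d := by
      induction r, hr using Nat.le_induction with
      | base =>
        have e : Nr q 1 = 1 := by simp [Nr]
        simp only [e, one_mul, pow_one]
      | succ r hr ih =>
        have := Lmat_comp (t'' := ⟨lineU (x 0 + 1) (x 1) (x 2) (x 3) 0, l,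
            fun m => Nr q (r + 1) * (![ku 0 + 1 - q, ku 1, ku 2, ku 3] : Fin 4 → ℤ) m,
            fun m => Nr q (r + 1) * kl m⟩)
          h (h.pow hr) (fama_ok nx0 (nx 1) (nx 2) (nx 3) nl hs hk0 hl) (hok r)
          (fama_vec_ext
            (by simp only [Par.su, lineU, Matrix.cons_val_zero]; push_cast
                linear_combination -hx 0)
            (by simpa [Par.su, lineU] using (hx 1).symm) (hx 2).symm (hx 3).symm)
          (hsl _ _).symm rfl rfl (fun m => by simp only [Nr_succ]; push_cast; ring)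
          (fun m => by simp only [Nr_succ]; push_cast; ring) (fama_isRed hD0 hs)
          (fama_isRed hD0 hs) D0.d
        rw [famaD_d, ← pow_succ'] at this
        rw [pow_succ', ih, this]
    have := trace_Lmat_Hs (h.pow hr) (hok r) (fama_isRed hD0 hs)
      (fama_vec_ext
        (by simp only [Par.su, lineU, Matrix.cons_val_zero]; push_cast
            linear_combination hxr r 0 - hNK r)
        (by simpa [Par.su, lineU] using hxr r 1)
        (by simpa [Par.su, lineU] using hxr r 2)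
        (by simpa [Par.su, lineU] using hxr r 3))
      (funext fun m => by simpa [Par.sl] using hlr r m)
    rw [famaD_d] at this
    change (evM 0 _ ^ r).trace = _
    rw [eΦ0 0 hs, hpow, this]
    congr 1
    refine Hs_congr π (h.pow hr).two_le (fun m => ?_) fun m => rfl
    fin_cases m
    · refine Int.modEq_iff_dvd.2 ⟨1, ?_⟩
      have := Nr_mul q r
      simp only [Fin.zero_eta, Matrix.cons_val_zero]
      push_cast
      linear_combination this
    · rfl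
    · rfl
    · rfl

end FamA

theorem exists_fam (c : Ctx K p π) (h : Bd π q) (ku kl : Fin 4 → ℤ) (h0 : (q : ℤ) - 1 ≤ ku 0)
    (hu : ∀ m, 0 ≤ ku m) (hl : ∀ m, 0 ≤ kl m) (g1 : ∀ m, ¬ ((q : ℤ) - 1) ∣ ku 1 + kl m)
    (g2 : ∀ m, ¬ ((q : ℤ) - 1) ∣ ku 2 + kl m)
    (hs : ((q : ℤ) - 1) ∣ 2 * (∑ m, ku m + ∑ m, kl m)) :
    ∃ F : Fam K (Fin 4) q,
      (∀ r, 1 ≤ r → ∀ j < q ^ r, (F.Φr r j (j / (1 - (q : K) ^ r))).trace =
        -Hs π (q ^ r) (onLine (Nr q r) ku j) fun m => Nr q r * kl m) ∧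
      ∀ r, 1 ≤ r → (evM 0 F.Φ0 ^ r).trace =
        -Hs π (q ^ r) (fun m => Nr q r * ku m) fun m => Nr q r * kl m := by
  have hne : 1 - (q : K) ≠ 0 := by
    intro e
    have := fama_norm_one_sub h
    rw [e] at this
    simp at this
  have hg : ∀ (a b : ℤ), ¬ ((q : ℤ) - 1) ∣ a + b → ∀ n : ℕ,
      (a : K) / (1 - (q : K)) + n + (b : K) / (1 - (q : K)) ≠ 0 := by
    intro a b hab n e
    refine div_add_ne_zero (K := K) h.two_le hab n ?_
    push_cast
    rw [add_div]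
    linear_combination e
  refine fama_exists c h ku kl h0 hu hl (fun m => ku m / (1 - (q : K)))
    (fun m => kl m / (1 - (q : K))) (fun m => by field_simp; ring) (fun m => by field_simp; ring)
    (fun m => fama_norm_div h _) (fun m => fama_norm_div h _) (fun n j => hg _ _ (g1 j) n)
    (fun n j => hg _ _ (g2 j) n) ?_
  obtain ⟨m, hm⟩ := hs
  refine ⟨-m, ?_⟩
  have h1 := congrArg (Int.cast : ℤ → K) hm
  simp only [Fin.sum_univ_four] at h1 ⊢
  push_cast at h1 ⊢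
  field_simp
  linear_combination h1

/-- the bound `A * Q ^ (7 / 2)` over all extensions -/
def RB (φ : K →+* ℂ) (π : K) (q : ℕ) (ku kl : Fin 4 → ℤ) (A : ℝ) : Prop :=
  ∀ r, 1 ≤ r →
    ‖φ (Hs π (q ^ r) (fun m => Nr q r * ku m) fun m => Nr q r * kl m)‖ ≤ A * (√q ^ 7) ^ r

omit [CompleteSpace K] [IsUltrametricDist K] [CharZero K] [IsAlgClosed K] in
theorem famb_Nr_mul_sub (Q r : ℕ) : Nr Q r * ((Q : ℤ) - 1) = (Q : ℤ) ^ r - 1 :=
  geom_sum_mul _ _

theorem famb_Nr_succ (Q r : ℕ) : Nr Q (r + 1) = (Q : ℤ) ^ r + Nr Q r := by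
  unfold Nr
  rw [sum_range_succ, add_comm]

theorem famb_Nr_one (Q : ℕ) : Nr Q 1 = 1 := by simp [Nr]

theorem famb_Nr_two (Q : ℕ) : Nr Q 2 = (Q : ℤ) + 1 := by
  rw [famb_Nr_succ, famb_Nr_one, pow_one]

theorem famb_Nr_mul {Q : ℕ} (hQ : 2 ≤ Q) (d r : ℕ) : Nr (Q ^ d) r * Nr Q d = Nr Q (d * r) := by
  have h1 : (Q : ℤ) - 1 ≠ 0 := by omega
  refine mul_right_cancel₀ h1 ?_
  have h2 := famb_Nr_mul_sub (Q ^ d) r
  rw [Nat.cast_pow] at h2
  rw [mul_assoc, famb_Nr_mul_sub, famb_Nr_mul_sub, h2, pow_mul]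

theorem famb_cong (Q r : ℕ) {a b : ℤ} (h : a ≡ b [ZMOD ((Q : ℤ) - 1)]) :
    Nr Q r * a ≡ Nr Q r * b [ZMOD (((Q ^ r : ℕ) : ℤ) - 1)] := by
  rw [Nat.cast_pow, ← famb_Nr_mul_sub]
  exact Int.ModEq.mul_left' h

theorem famb_Nr_nonneg (Q r : ℕ) : 0 ≤ Nr Q r := sum_nonneg fun _ _ => by positivity

/-- the iterated parameter -/
def famb_it (t : Par K) (Q r : ℕ) : Par K :=
  ⟨t.u, t.l, fun m => Nr Q r * t.ku m, fun m => Nr Q r * t.kl m⟩

omit [CompleteSpace K] [IsUltrametricDist K] [CharZero K] [IsAlgClosed K] in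
theorem famb_it_ok {t : Par K} (ht : t.Ok) (Q r : ℕ) : (famb_it t Q r).Ok :=
  ⟨ht.nu, ht.nl, fun m => mul_nonneg (famb_Nr_nonneg Q r) (ht.ku m),
    fun m => mul_nonneg (famb_Nr_nonneg Q r) (ht.kl m)⟩

omit [CompleteSpace K] [IsUltrametricDist K] [CharZero K] [IsAlgClosed K] in
theorem famb_fix {Q : ℕ} {x : K} {k : ℤ} (h : Q * x + k = x) (r : ℕ) :
    ((Q ^ r : ℕ) : K) * x + ((Nr Q r * k : ℤ) : K) = x := by
  have h1 : ((Nr Q r * ((Q : ℤ) - 1) : ℤ) : K) = (((Q : ℤ) ^ r - 1 : ℤ) : K) := by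
    rw [famb_Nr_mul_sub]
  push_cast at h1 ⊢
  linear_combination (Nr Q r : K) * h - x * h1

omit [IsAlgClosed K] in
theorem famb_pow {Q : ℕ} (h : Bd π Q) {t : Par K} (ht : t.Ok) {D : RD K}
    (hD : IsRed (Pu t.u) (Pl t.l) D) (hu : t.su Q = t.u) (hl : t.sl Q = t.l) {r : ℕ}
    (hr : 1 ≤ r) : Lmat π Q t D D.d ^ r = Lmat π (Q ^ r) (famb_it t Q r) D D.d := by
  induction r, hr using Nat.le_induction with
  | base =>
    have : famb_it t Q 1 = t := by
      unfold famb_it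
      simp only [famb_Nr_one, one_mul]
    rw [pow_one, pow_one, this]
  | succ r hr ih =>
    rw [pow_succ' (Lmat π Q t D D.d), ih, pow_succ' Q r]
    refine Lmat_comp (t := t) (t' := famb_it t Q r) (t'' := famb_it t Q (r + 1)) (D := D) (D' := D)
      h (h.pow hr) ht (famb_it_ok ht Q r) hu.symm hl.symm rfl rfl
      (fun m => ?_) (fun m => ?_) hD hD D.d
    · simp only [famb_it, famb_Nr_succ]
      push_cast
      ring
    · simp only [famb_it, famb_Nr_succ]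
      push_cast
      ring

theorem famb_trace {Q : ℕ} (h : Bd π Q) {t : Par K} (ht : t.Ok) {D : RD K}
    (hD : IsRed (Pu t.u) (Pl t.l) D) (hu : t.su Q = t.u) (hl : t.sl Q = t.l)
    {ku kl : Fin 4 → ℤ} (cu : ∀ m, t.ku m ≡ ku m [ZMOD ((Q : ℤ) - 1)])
    (cl : ∀ m, t.kl m ≡ kl m [ZMOD ((Q : ℤ) - 1)]) {r : ℕ} (hr : 1 ≤ r) :
    (Lmat π Q t D D.d ^ r).trace =
      -Hs π (Q ^ r) (fun m => Nr Q r * ku m) fun m => Nr Q r * kl m := by
  rw [famb_pow h ht hD hu hl hr,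
    trace_Lmat_Hs (h.pow hr) (famb_it_ok ht Q r) (D := D) hD
      (funext fun m => famb_fix (congrFun hu m) r) (funext fun m => famb_fix (congrFun hl m) r)]
  exact congrArg Neg.neg
    (Hs_congr π (h.pow hr).two_le (fun m => famb_cong Q r (cu m)) fun m => famb_cong Q r (cl m))

omit [CompleteSpace K] [CharZero K] [IsAlgClosed K] in
theorem famb_norm_one_sub {x : K} (hx : ‖x‖ < 1) : ‖1 - x‖ = 1 := by
  have h1 : ‖(1 : K)‖ ≠ ‖-x‖ := by
    rw [norm_one, norm_neg]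
    exact hx.ne'
  rw [sub_eq_add_neg, IsUltrametricDist.norm_add_eq_max_of_norm_ne_norm h1, norm_one, norm_neg,
    max_eq_left hx.le]

omit [CompleteSpace K] [IsUltrametricDist K] [CharZero K] [IsAlgClosed K] in
theorem famb_norm_lt {Q : ℕ} (h : Bd π Q) : ‖(Q : K)‖ < 1 := by
  have := h.norm_Q
  have h0 := norm_nonneg (Q : K)
  nlinarith

omit [CompleteSpace K] [CharZero K] [IsAlgClosed K] in
theorem famb_norm_div {Q : ℕ} (h : Bd π Q) (k : ℤ) : ‖(k : K) / (1 - (Q : K))‖ ≤ 1 := by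
  rw [norm_div, famb_norm_one_sub (famb_norm_lt h), div_one]
  exact IsUltrametricDist.norm_intCast_le_one K k

omit [CompleteSpace K] [CharZero K] [IsAlgClosed K] in
theorem famb_ne {Q : ℕ} (h : Bd π Q) : (1 - (Q : K)) ≠ 0 := by
  intro h0
  have := famb_norm_one_sub (famb_norm_lt h)
  rw [h0, norm_zero] at this
  exact zero_ne_one this

theorem famb_sqrt_pow (q d : ℕ) : √((q ^ d : ℕ) : ℝ) = √q ^ d := by
  rw [Real.sqrt_eq_iff_mul_self_eq (by positivity) (by positivity), ← mul_pow,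
    Real.mul_self_sqrt (by positivity), Nat.cast_pow]

omit [CompleteSpace K] [IsUltrametricDist K] [CharZero K] [IsAlgClosed K] in
theorem famb_descent (φ : K →+* ℂ) (M : Matrix (Fin 4) (Fin 4) K) {d : ℕ} (hd : 1 ≤ d) {A : ℝ}
    (h : ∀ r, 1 ≤ r → ‖φ (M ^ (d * r)).trace‖ ≤ A * (√((q ^ d : ℕ) : ℝ) ^ 7) ^ r) :
    ‖φ M.trace‖ ≤ 4 * √q ^ 7 := by
  have e : ∀ r, (φ.mapMatrix M ^ r).trace = φ (M ^ r).trace := fun r => by
    rw [← map_pow, RingHom.mapMatrix_apply, ← AddMonoidHom.map_trace]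
  have h1 := norm_trace_pow_le (φ.mapMatrix M) (d := d) hd (A := A) (B := √q ^ 7)
    (by positivity) (fun r hr => by
      rw [e]
      refine (h r hr).trans (le_of_eq ?_)
      rw [famb_sqrt_pow, ← pow_mul, ← pow_mul, ← pow_mul]
      congr 2
      ring) 1
  rw [e, pow_one, pow_one, Fintype.card_fin] at h1
  exact_mod_cast h1

theorem famb_dvd {a b c e : ℤ} (h : a ≡ b [ZMOD c]) (he : ¬ c ∣ b + e) : ¬ c ∣ a + e := fun h' =>
  he (by
    have := h.dvd
    have h2 := this.add h'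
    rwa [show b - a + (a + e) = b + e by ring] at h2)

theorem descent_split (c : Ctx K p π) (h : Bd π q) (φ : K →+* ℂ) (ku kl : Fin 4 → ℤ)
    (g2 : ∀ m, ¬ ((q : ℤ) - 1) ∣ ku 2 + kl m)
    (hs : ((q : ℤ) - 1) ∣ 2 * (∑ m, ku m + ∑ m, kl m)) {d : ℕ} (hd : 1 ≤ d) {A : ℝ}
    (hb : RB φ π (q ^ d) (fun m => Nr q d * ku m) (fun m => Nr q d * kl m) A) :
    ‖φ (Hs π q ku kl)‖ ≤ 4 * √q ^ 7 := by
  have hq := h.two_le
  have hq1 : (q : ℤ) - 1 ≠ 0 := by omega
  have hne := famb_ne h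
  obtain ⟨ku', hu0, cu⟩ : ∃ ku' : Fin 4 → ℤ, (∀ m, 0 ≤ ku' m) ∧
      ∀ m, ku' m ≡ ku m [ZMOD ((q : ℤ) - 1)] :=
    ⟨fun m => ku m % ((q : ℤ) - 1), fun m => Int.emod_nonneg _ hq1, fun m => Int.mod_modEq _ _⟩
  obtain ⟨kl', hl0, cl⟩ : ∃ kl' : Fin 4 → ℤ, (∀ m, 0 ≤ kl' m) ∧
      ∀ m, kl' m ≡ kl m [ZMOD ((q : ℤ) - 1)] :=
    ⟨fun m => kl m % ((q : ℤ) - 1), fun m => Int.emod_nonneg _ hq1, fun m => Int.mod_modEq _ _⟩
  let t : Par K := ⟨fun m => (ku' m : K) / (1 - (q : K)), fun m => (kl' m : K) / (1 - (q : K)),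
    ku', kl'⟩
  have ht : t.Ok := ⟨fun m => (famb_norm_div h _).trans (by norm_num),
    fun m => (famb_norm_div h _).trans (by norm_num), hu0, hl0⟩
  have hu : t.su q = t.u := by
    funext m
    simp only [Par.su, t]
    field_simp
    ring
  have hl : t.sl q = t.l := by
    funext m
    simp only [Par.sl, t]
    field_simp
    ring
  have hs' : ((q : ℤ) - 1) ∣ 2 * (∑ m, ku' m + ∑ m, kl' m) := by
    have : 2 * (∑ m, ku' m + ∑ m, kl' m) ≡ 2 * (∑ m, ku m + ∑ m, kl m) [ZMOD ((q : ℤ) - 1)] := by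
      simp only [Fin.sum_univ_four]
      exact (((((cu 0).add (cu 1)).add (cu 2)).add (cu 3)).add
        ((((cl 0).add (cl 1)).add (cl 2)).add (cl 3))).mul_left 2
    exact (Int.ModEq.dvd_iff this).2 hs
  obtain ⟨D, hD⟩ := exists_red_field c t.u t.l (fun m => famb_norm_div h _)
    (fun m => famb_norm_div h _) (by
      obtain ⟨e, he⟩ := hs'
      refine ⟨-e, ?_⟩
      have h1 : ((2 * (∑ m, ku' m + ∑ m, kl' m) : ℤ) : K) = ((((q : ℤ) - 1) * e : ℤ) : K) := by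
        rw [he]
      simp only [t, Fin.sum_univ_four] at h1 ⊢
      push_cast at h1 ⊢
      field_simp
      linear_combination h1) (fun n j => by
      have h1 : ¬ ((q : ℤ) - 1) ∣ ku' 2 + kl' j := by
        refine famb_dvd (cu 2) ?_
        rw [add_comm]
        refine famb_dvd (cl j) ?_
        rw [add_comm]
        exact g2 j
      have h2 := div_add_ne_zero (K := K) hq h1 n
      intro h3
      apply h2
      simp only [t] at h3
      push_cast
      rw [add_div]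
      linear_combination h3)
  have h1 := famb_trace h ht hD hu hl cu cl le_rfl
  simp only [pow_one, famb_Nr_one, one_mul] at h1
  have h2 := famb_descent (q := q) φ (Lmat π q t D D.d) hd (A := A) fun r hr => by
    rw [famb_trace h ht hD hu hl cu cl (Nat.mul_pos hd hr), map_neg, norm_neg]
    have h3 := hb r hr
    simp only [← mul_assoc, famb_Nr_mul hq, ← pow_mul] at h3
    rw [← pow_mul]
    exact h3
  rwa [h1, map_neg, norm_neg] at h2

theorem descent_twist (c : Ctx K p π) (h : Bd π q) (φ : K →+* ℂ) (n : ℤ) (ku : Fin 2 → ℤ)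
    (kl : Fin 4 → ℤ) (g2 : ∀ m, ¬ ((q : ℤ) - 1) ∣ ku 0 + kl m)
    (hs : ((q : ℤ) - 1) ∣ 2 * (n + ∑ m, ku m + ∑ m, kl m)) {d : ℕ} (hd : 1 ≤ d) {A : ℝ}
    (hb : RB φ π (q ^ (2 * d))
      ![Nr (q ^ 2) d * n, Nr (q ^ 2) d * (q * n), Nr q (2 * d) * ku 0, Nr q (2 * d) * ku 1]
      (fun m => Nr q (2 * d) * kl m) A) :
    ‖φ (Ht π q n ku kl)‖ ≤ 4 * √q ^ 7 := by
  have hq := h.two_le
  have hq1 : (q : ℤ) - 1 ≠ 0 := by omega
  have h2 : Bd π (q ^ 2) := h.pow (by norm_num)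
  have hq2 : ((q ^ 2 : ℕ) : ℤ) - 1 ≠ 0 := by
    have := h2.two_le
    omega
  have hne := famb_ne h
  have hne2 := famb_ne h2
  have hfac : (1 - ((q ^ 2 : ℕ) : K)) = (1 - (q : K)) * (1 + q) := by
    push_cast
    ring
  have hne3 : (1 + (q : K)) ≠ 0 := fun h0 => hne2 (by rw [hfac, h0, mul_zero])
  obtain ⟨n', hn0, cn⟩ : ∃ n' : ℤ, 0 ≤ n' ∧ n' ≡ n [ZMOD (((q ^ 2 : ℕ) : ℤ) - 1)] :=
    ⟨n % (((q ^ 2 : ℕ) : ℤ) - 1), Int.emod_nonneg _ hq2, Int.mod_modEq _ _⟩
  have cn1 : n' ≡ n [ZMOD ((q : ℤ) - 1)] :=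
    cn.of_dvd ⟨(q : ℤ) + 1, by push_cast; ring⟩
  obtain ⟨ku', hu0, cu⟩ : ∃ ku' : Fin 2 → ℤ, (∀ m, 0 ≤ ku' m) ∧
      ∀ m, ku' m ≡ ku m [ZMOD ((q : ℤ) - 1)] :=
    ⟨fun m => ku m % ((q : ℤ) - 1), fun m => Int.emod_nonneg _ hq1, fun m => Int.mod_modEq _ _⟩
  obtain ⟨kl', hl0, cl⟩ : ∃ kl' : Fin 4 → ℤ, (∀ m, 0 ≤ kl' m) ∧
      ∀ m, kl' m ≡ kl m [ZMOD ((q : ℤ) - 1)] :=
    ⟨fun m => kl m % ((q : ℤ) - 1), fun m => Int.emod_nonneg _ hq1, fun m => Int.mod_modEq _ _⟩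
  obtain ⟨u0, hu0def⟩ : ∃ u0 : K, u0 = (n' : K) / (1 - ((q ^ 2 : ℕ) : K)) := ⟨_, rfl⟩
  have nu0 : ‖u0‖ ≤ 1 := hu0def ▸ famb_norm_div h2 n'
  have nu1 : ‖(q : K) * u0‖ ≤ 1 := by
    rw [norm_mul]
    exact mul_le_one₀ (famb_norm_lt h).le (norm_nonneg _) nu0
  have eu0 : (q : K) ^ 2 * u0 + n' = u0 := by
    rw [hu0def, hfac]
    field_simp
    ring
  obtain ⟨a, ha⟩ : ∃ a : Fin 2 → K, ∀ m, a m = (ku' m : K) / (1 - (q : K)) := ⟨_, fun _ => rfl⟩
  obtain ⟨l, hl⟩ : ∃ l : Fin 4 → K, ∀ m, l m = (kl' m : K) / (1 - (q : K)) := ⟨_, fun _ => rfl⟩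
  have na : ∀ m, ‖a m‖ ≤ 1 := fun m => ha m ▸ famb_norm_div h _
  have nl : ∀ m, ‖l m‖ ≤ 1 := fun m => hl m ▸ famb_norm_div h _
  have ea : ∀ m, (q : K) * a m + ku' m = a m := fun m => by
    rw [ha]
    field_simp
    ring
  have el : ∀ m, (q : K) * l m + kl' m = l m := fun m => by
    rw [hl]
    field_simp
    ring
  let t : Par K := ⟨![u0, q * u0, a 0, a 1], l, ![0, n', ku' 0, ku' 1], kl'⟩
  let t' : Par K := ⟨![q * u0, u0, a 0, a 1], l, ![n', 0, ku' 0, ku' 1], kl'⟩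
  let t2 : Par K := ⟨![u0, q * u0, a 0, a 1], l,
    ![n', q * n', (q + 1) * ku' 0, (q + 1) * ku' 1], fun m => (q + 1) * kl' m⟩
  have nu : ∀ m, ‖t.u m‖ ≤ 1 := fun m => by
    fin_cases m
    · exact nu0
    · exact nu1
    · exact na 0
    · exact na 1
  have ht : t.Ok := ⟨fun m => (nu m).trans (by norm_num), fun m => (nl m).trans (by norm_num),
    fun m => by
      fin_cases m
      · exact le_rfl
      · exact hn0
      · exact hu0 0
      · exact hu0 1, hl0⟩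
  have ht' : t'.Ok := ⟨fun m => by
      fin_cases m
      · exact nu1.trans (by norm_num)
      · exact nu0.trans (by norm_num)
      · exact (na 0).trans (by norm_num)
      · exact (na 1).trans (by norm_num), fun m => (nl m).trans (by norm_num),
    fun m => by
      fin_cases m
      · exact hn0
      · exact le_rfl
      · exact hu0 0
      · exact hu0 1, hl0⟩
  have hq0 : (0 : ℤ) ≤ q := by positivity
  have ht2 : t2.Ok := ⟨ht.nu, ht.nl,
    fun m => by
      fin_cases m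
      · exact hn0
      · exact mul_nonneg hq0 hn0
      · exact mul_nonneg (by positivity) (hu0 0)
      · exact mul_nonneg (by positivity) (hu0 1), fun m => mul_nonneg (by positivity) (hl0 m)⟩
  have s0 : t.su q 0 = t.u 1 := by simp [Par.su, t]
  have s1 : t.su q 1 = t.u 0 := by
    simp only [Par.su, t, Matrix.cons_val_one, Matrix.cons_val_zero]
    linear_combination eu0
  have s2 : t.su q 2 = t.u 2 := by
    simpa [Par.su, t] using ea 0
  have s3 : t.su q 3 = t.u 3 := by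
    simpa [Par.su, t] using ea 1
  have sl : t.sl q = t.l := funext el
  have hs' : ((q : ℤ) - 1) ∣ 2 * (n' + ∑ m, ku' m + ∑ m, kl' m) := by
    have : 2 * (n' + ∑ m, ku' m + ∑ m, kl' m) ≡ 2 * (n + ∑ m, ku m + ∑ m, kl m)
        [ZMOD ((q : ℤ) - 1)] := by
      simp only [Fin.sum_univ_four, Fin.sum_univ_two]
      exact ((cn1.add ((cu 0).add (cu 1))).add
        ((((cl 0).add (cl 1)).add (cl 2)).add (cl 3))).mul_left 2
    exact (Int.ModEq.dvd_iff this).2 hs
  obtain ⟨D, hD⟩ := exists_red_field c t.u t.l nu nl (by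
      obtain ⟨e, he⟩ := hs'
      refine ⟨-e, ?_⟩
      have h1 : ((2 * (n' + ∑ m, ku' m + ∑ m, kl' m) : ℤ) : K) =
          ((((q : ℤ) - 1) * e : ℤ) : K) := by
        rw [he]
      simp only [Fin.sum_univ_four, Fin.sum_univ_two] at h1
      push_cast at h1
      have h3 : t.u 0 + t.u 1 + t.u 2 + t.u 3 = u0 + q * u0 + a 0 + a 1 := by simp [t]
      have h4 : ∀ m, t.l m = l m := fun _ => rfl
      simp only [Fin.sum_univ_four, h3, h4]
      refine mul_left_cancel₀ hne ?_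
      push_cast
      linear_combination h1 - 2 * eu0 - 2 * ea 0 - 2 * ea 1 - 2 * el 0 - 2 * el 1 - 2 * el 2 -
        2 * el 3) (fun k j => by
      have h1 : ¬ ((q : ℤ) - 1) ∣ ku' 0 + kl' j := by
        refine famb_dvd (cu 0) ?_
        rw [add_comm]
        refine famb_dvd (cl j) ?_
        rw [add_comm]
        exact g2 j
      have h2 := div_add_ne_zero (K := K) hq h1 k
      intro h3
      apply h2
      have h4 : t.u 2 = a 0 := by simp [t]
      have h5 : t.l j = l j := rfl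
      rw [h4, h5, ha, hl] at h3
      push_cast
      rw [add_div]
      linear_combination h3)
  have hP : Pu t'.u = Pu t.u := by
    simp only [Pu, Fin.prod_univ_four, t, t', Matrix.cons_val_zero, Matrix.cons_val_one,
      Matrix.cons_val]
    ring
  have hw : ∀ i, wt π q t' i = wt π q t i := fun i => by
    simp only [wt, wtAt, Par.map, Fin.prod_univ_four, t, t', Matrix.cons_val_zero,
      Matrix.cons_val_one, Matrix.cons_val]
    ring
  have hL : Lmat π q t' D D.d = Lmat π q t D D.d := by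
    simp only [Lmat, hw]
  have hsq : Lmat π q t D D.d ^ 2 = Lmat π (q ^ 2) t2 D D.d := by
    have hD' : IsRed (Pu t'.u) (Pl t'.l) D := by
      rw [hP]
      exact hD
    have e : Lmat π q t D D.d ^ 2 = Lmat π q t D D.d * Lmat π q t' D D.d := by
      rw [hL, pow_two]
    rw [e, pow_two q]
    refine Lmat_comp (t := t) (t' := t') (t'' := t2) (D := D) (D' := D) h h ht ht' ?_ sl.symm rfl rfl
      (fun m => ?_) (fun m => ?_) hD hD' D.d
    · funext m
      fin_cases m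
      · exact s0.symm
      · exact s1.symm
      · exact s2.symm
      · exact s3.symm
    · fin_cases m <;> simp [t, t', t2] <;> ring
    · simp only [t, t', t2]
      ring
  have hu2 : t2.su (q ^ 2) = t2.u := by
    funext m
    fin_cases m
    · simpa [Par.su, t2] using eu0
    · simp only [Par.su, t2, Fin.mk_one, Matrix.cons_val_one, Matrix.cons_val_zero]
      push_cast
      linear_combination (q : K) * eu0
    · simp only [Par.su, t2, Fin.reduceFinMk, Matrix.cons_val]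
      push_cast
      linear_combination ((q : K) + 1) * ea 0
    · simp only [Par.su, t2, Fin.reduceFinMk, Matrix.cons_val]
      push_cast
      linear_combination ((q : K) + 1) * ea 1
  have hl2 : t2.sl (q ^ 2) = t2.l := by
    funext m
    simp only [Par.sl, t2]
    push_cast
    linear_combination ((q : K) + 1) * el m
  have up : ∀ {x y : ℤ}, x ≡ y [ZMOD ((q : ℤ) - 1)] →
      (q + 1) * x ≡ (q + 1) * y [ZMOD (((q ^ 2 : ℕ) : ℤ) - 1)] := fun hxy => by
    have := famb_cong q 2 hxy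
    rwa [famb_Nr_two] at this
  have cu2 : ∀ m, t2.ku m ≡ ![n, q * n, (q + 1) * ku 0, (q + 1) * ku 1] m
      [ZMOD (((q ^ 2 : ℕ) : ℤ) - 1)] := fun m => by
    fin_cases m
    · exact cn
    · exact cn.mul_left q
    · exact up (cu 0)
    · exact up (cu 1)
  have cl2 : ∀ m, t2.kl m ≡ (fun m => ((q : ℤ) + 1) * kl m) m
      [ZMOD (((q ^ 2 : ℕ) : ℤ) - 1)] := fun m => up (cl m)
  have h1 : (Lmat π q t D D.d).trace = Ht π q n ku kl := by
    rw [trace_Lmat_Ht h ht hD s0 s1 s2 s3 sl]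
    refine Ht_congr π hq ?_ (fun m => ?_) cl
    · simpa [t] using cn
    · fin_cases m
      · exact cu 0
      · exact cu 1
  have e1 : ∀ r, Nr (q ^ (2 * d)) r * Nr (q ^ 2) d = Nr (q ^ 2) (d * r) := fun r => by
    rw [pow_mul, famb_Nr_mul h2.two_le]
  have e2 : ∀ r, Nr (q ^ (2 * d)) r * Nr q (2 * d) = Nr (q ^ 2) (d * r) * (q + 1) := fun r => by
    rw [famb_Nr_mul hq, ← famb_Nr_two, famb_Nr_mul hq, mul_assoc]
  have h3 := famb_descent (q := q) φ (Lmat π q t D D.d) (d := 2 * d) (by omega) (A := A)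
    fun r hr => by
      rw [mul_assoc, pow_mul, hsq,
        famb_trace h2 ht2 (D := D) hD hu2 hl2 cu2 cl2 (Nat.mul_pos hd hr), map_neg, norm_neg]
      have h4 := hb r hr
      have f0 : (q ^ (2 * d)) ^ r = (q ^ 2) ^ (d * r) := by
        rw [← pow_mul, ← pow_mul, mul_assoc]
      have f1 : (fun m => Nr (q ^ (2 * d)) r *
          ![Nr (q ^ 2) d * n, Nr (q ^ 2) d * (q * n), Nr q (2 * d) * ku 0, Nr q (2 * d) * ku 1] m) =
          fun m => Nr (q ^ 2) (d * r) * ![n, q * n, (q + 1) * ku 0, (q + 1) * ku 1] m := by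
        funext m
        fin_cases m
        · simp only [Fin.zero_eta, Matrix.cons_val_zero]
          rw [← mul_assoc, e1]
        · simp only [Fin.mk_one, Matrix.cons_val_one, Matrix.cons_val_zero]
          rw [← mul_assoc, e1]
        · simp only [Fin.reduceFinMk, Matrix.cons_val]
          rw [← mul_assoc, e2, mul_assoc]
        · simp only [Fin.reduceFinMk, Matrix.cons_val]
          rw [← mul_assoc, e2, mul_assoc]
      have f2 : (fun m => Nr (q ^ (2 * d)) r * (Nr q (2 * d) * kl m)) =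
          fun m => Nr (q ^ 2) (d * r) * (((q : ℤ) + 1) * kl m) := by
        funext m
        rw [← mul_assoc, e2, mul_assoc]
      rw [f0, f1, f2] at h4
      exact h4
  rwa [h1] at h3

end

end Pool.Agent.P.MP_9484ad_co
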