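import Pool.Agent.P.MP_9484ad_co.FibDef

/-! Relations between the Frobenius and contiguity matrices. -/

namespace Pool.Agent.P.MP_9484ad_co

open Finset Polynomial

noncomputable section

variable {K : Type} [NontriviallyNormedField K] [CompleteSpace K] [IsUltrametricDist K] [CharZero K]
  {π : K} {Q Q' : ℕ} {t t' t'' : Par K} {D D' : RD K}

omit [CompleteSpace K] [IsUltrametricDist K] [CharZero K] in
theorem fib_prod {A : Type*} [CommRing A] {f g : Fin 4 → A} (I : Fin 4) {c e : A}
    (h : ∀ m, m ≠ I → g m = f m) (hI : e * g I = c * f I) : e * ∏ m, g m = c * ∏ m, f m := by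
  rw [← mul_prod_erase univ g (mem_univ I), ← mul_prod_erase univ f (mem_univ I), ← mul_assoc, hI,
    mul_assoc, prod_congr rfl fun m hm => h m (ne_of_mem_erase hm)]

theorem fib_sum_range {A : Type*} [AddCommMonoid A] (f : ℕ → A) (m n : ℕ) :
    ∑ i ∈ range m, ∑ j ∈ range n, f (n * i + j) = ∑ k ∈ range (m * n), f k := by
  induction m with
  | zero => simp
  | succ m ih => rw [sum_range_succ, ih, Nat.succ_mul, sum_range_add, mul_comm n m]

omit [CompleteSpace K] [IsUltrametricDist K] [CharZero K] in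
theorem fib_factor {M E : Matrix (Fin 4) (Fin 4) K} (h : ∀ v, M.mulVec v = 0 → E.mulVec v = 0) :
    ∃ Z : Matrix (Fin 4) (Fin 4) K, Z * M = E := by
  have hk : LinearMap.ker (Matrix.toLin' M) ≤ LinearMap.ker (Matrix.toLin' E) := fun v hv => h v hv
  obtain ⟨z, hz⟩ := LinearMap.exists_extend
    (((LinearMap.ker (Matrix.toLin' M)).liftQ (Matrix.toLin' E) hk).comp
      (Matrix.toLin' M).quotKerEquivRange.symm.toLinearMap)
  refine ⟨LinearMap.toMatrix' z, Matrix.toLin'.injective ?_⟩
  rw [Matrix.toLin'_mul, Matrix.toLin'_toMatrix']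
  refine LinearMap.ext fun v => ?_
  have := LinearMap.congr_fun hz ⟨Matrix.toLin' M v, LinearMap.mem_range_self _ v⟩
  simp only [LinearMap.comp_apply, Submodule.subtype_apply, LinearEquiv.coe_coe] at this
  rw [LinearMap.comp_apply, this, LinearMap.quotKerEquivRange_symm_apply_image]
  rfl

omit [IsUltrametricDist K] [CharZero K] in
theorem fib_Lop_apply (π : K) (Q : ℕ) (t : Par K) (f : An K 4096) :
    Lop 4096 π Q t f = ∑ i ∈ range Q,
      wt π Q t i * An.ev (An.C (Q : K) * An.X + An.C (i : K) : An K 4096) f := by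
  simp only [Lop, _root_.sum_apply, ContinuousLinearMap.comp_apply,
    ContinuousLinearMap.mul_apply']

omit [CharZero K] in
theorem fib_pb (h : Bd π Q) (i : ℕ) :
    An.PB 4096 (An.C (Q : K) * An.X + An.C (i : K) : An K 4096) := by
  refine An.PB.of_le ((norm_add_le _ _).trans ?_)
  have h1 := An.norm_C_mul_X_pow (R := 4096) (Q : K) 1
  rw [pow_one] at h1
  have h2 := h.norm_Q
  have h3 := IsUltrametricDist.norm_natCast_le_one K i
  rw [h1, An.norm_C]
  push_cast
  linarith

omit [CompleteSpace K] [IsUltrametricDist K] [CharZero K] in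
theorem fib_norm_sub {a : K} (ha : ‖a‖ ≤ 11) : ‖(An.C a - An.X : An K 4096)‖ ≤ 4998 := by
  refine (norm_sub_le _ _).trans ?_
  rw [An.norm_C, An.norm_X]
  push_cast
  linarith

omit [CompleteSpace K] [IsUltrametricDist K] [CharZero K] in
theorem fib_norm_add {a : K} (ha : ‖a‖ ≤ 11) : ‖(An.C a + An.X : An K 4096)‖ ≤ 4998 := by
  refine (norm_add_le _ _).trans ?_
  rw [An.norm_C, An.norm_X]
  push_cast
  linarith

omit [CompleteSpace K] [IsUltrametricDist K] [CharZero K] in
theorem fib_ofPoly_lin (c y : K) :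
    (An.ofPoly (C c * (X - C y)) : An K 4096) = An.C c * (An.X - An.C y) := by
  rw [map_mul, map_sub]
  rfl

omit [IsUltrametricDist K] [CharZero K] in
theorem fib_ev_C {y : An K 4096} (hy : An.PB 4096 y) (c : K) :
    An.ev y (An.C c : An K 4096) = An.C c := by
  have := An.ev_ofPoly (R := 4096) hy (C c)
  rw [aeval_C] at this
  exact this

omit [IsUltrametricDist K] [CharZero K] in
theorem fib_ev_X {y : An K 4096} (hy : An.PB 4096 y) : An.ev y (An.X : An K 4096) = y := by
  have := An.ev_ofPoly (R := 4096) hy (X : K[X])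
  rw [aeval_X] at this
  exact this

omit [CompleteSpace K] [IsUltrametricDist K] [CharZero K] in
theorem fib_iot (T : An K 4096 →L[K] (Fin 4 → K)) (d : Fin 4 → ℕ) (v : Fin 4 → K) :
    T (An.ofPoly (iot d v)) = (Matrix.of fun a b => T (An.X ^ d b) a).mulVec v := by
  have : (An.ofPoly (iot d v) : An K 4096) = ∑ i, v i • An.X ^ d i := by
    rw [iot, map_sum]
    refine sum_congr rfl fun i _ => ?_
    rw [map_mul, map_pow]
    rfl
  rw [this, map_sum]
  ext a
  simp only [map_smul, Finset.sum_apply, Pi.smul_apply, smul_eq_mul, Matrix.mulVec, dotProduct,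
    Matrix.of_apply, mul_comm]

omit [IsUltrametricDist K] [CharZero K] in
theorem fib_redL_X_pow {P Qy : K[X]} (hD : IsRed P Qy D) (n : ℕ) :
    redL D (An.X ^ n) = D.r n := by
  obtain ⟨c, hc⟩ := hD.bd
  exact An.lift_X_pow (c := c) (fun n => by exact_mod_cast (hc n).1) n

omit [IsUltrametricDist K] [CharZero K] in
theorem fib_ext {P Qy : K[X]} (hD : IsRed P Qy D) (T : An K 4096 →L[K] (Fin 4 → K))
    (hT : ∀ g, T (An.ofPoly (dl P Qy g)) = 0) (f : An K 4096) :
    (Matrix.of fun a b => T (An.X ^ D.d b) a).mulVec (redL D f) = T f := by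
  have := An.clm_ext (S := LinearMap.toContinuousLinearMap
    (Matrix.of fun a b => T (An.X ^ D.d b) a).mulVecLin ∘L redL D) (T := T) fun n => by
    have e : (An.X ^ n : An K 4096) =
        An.ofPoly (dl P Qy (D.g n)) + An.ofPoly (iot D.d (D.r n)) := by
      rw [← map_add, ← hD.split n, map_pow]
      rfl
    rw [ContinuousLinearMap.comp_apply, fib_redL_X_pow hD, e, map_add, hT, zero_add, fib_iot]
    rfl
  exact congrArg (fun L => L f) this

omit [CompleteSpace K] [IsUltrametricDist K] [CharZero K] in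
theorem fib_dl {u u' l : Fin 4 → K} (I : Fin 4) (hu : u' = Function.update u I (u I + 1))
    (g : K[X]) : (X - C (u I)) * dl (Pu u') (Pl l) g =
      dl (Pu u) (Pl l) ((X - C (u I + 1)) * g) := by
  have e : (X - C (u I)) * Pu u' = (X - C (u I + 1)) * Pu u :=
    fib_prod I (fun m hm => by rw [hu, Function.update_of_ne hm])
      (by rw [hu, Function.update_self, mul_comm])
  simp only [dl, mul_comp, sub_comp, X_comp, C_comp]
  rw [map_add C, map_one] at e ⊢
  linear_combination g * e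

omit [CompleteSpace K] [IsUltrametricDist K] [CharZero K] in
theorem fib_dl_C (P Qy : K[X]) (c : K) (g : K[X]) : dl P Qy (C c * g) = C c * dl P Qy g := by
  simp only [dl, mul_comp, C_comp]
  ring

theorem fib_Cmat {P Qy : K[X]} (π y : K) (hD : IsRed P Qy D) (d : Fin 4 → ℕ) :
    Cmat π y D d = Matrix.of fun a b => (redL D ∘L ContinuousLinearMap.mul K (An K 4096)
      (An.ofPoly (C π⁻¹ * (X - C y)))) (An.X ^ d b) a := by
  ext a b
  rw [Cmat, Matrix.of_apply, Matrix.of_apply, ← redL_ofPoly hD, map_mul An.ofPoly _ (X ^ d b),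
    map_pow]
  rfl

omit [IsUltrametricDist K] [CharZero K] in
theorem fib_Emat {P Qy : K[X]} (hD : IsRed P Qy D) :
    Emat D = Matrix.of fun a b => redL D (An.X ^ D.d b) a := by
  ext a b
  rw [Emat, Matrix.of_apply, Matrix.of_apply, fib_redL_X_pow hD]

theorem fib_mul_Lmat (h : Bd π Q) {P Qy : K[X]} (hD : IsRed P Qy D) (d : Fin 4 → ℕ)
    (M : Matrix (Fin 4) (Fin 4) K) (a b : Fin 4) :
    (M * Lmat π Q t D d) a b = M.mulVec (redL D (Lop 4096 π Q t (An.X ^ d b))) a := by
  simp only [Matrix.mul_apply, Matrix.mulVec, dotProduct, Lmat_apply (R := 4096) h hD]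

omit [CompleteSpace K] [IsUltrametricDist K] [CharZero K] in
theorem fib_wt (π : K) (Q : ℕ) (t : Par K) (i : ℕ) : wt π Q t i =
    (∏ m, gam π Q (t.ku m - i) (An.C (t.u m) - An.X : An K 4096)) *
      ∏ m, gam π Q (t.kl m + i) (An.C (t.l m) + An.X : An K 4096) := rfl

omit [CompleteSpace K] [IsUltrametricDist K] [CharZero K] in
theorem fib_wtAt (π : K) (Q : ℕ) (t : Par K) (i : ℕ) (y : An K 4096) :
    wtAt π Q (t.map (algebraMap K (An K 4096))) i y =
      (∏ m, gam π Q (t.ku m - i) (An.C (t.u m) - y)) *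
        ∏ m, gam π Q (t.kl m + i) (An.C (t.l m) + y) := rfl

omit [CompleteSpace K] [IsUltrametricDist K] [CharZero K] in
theorem fib_smul (c : K) (f : An K 4096) : (-c) • f = -An.C c * f := by
  rw [← map_neg]
  rfl

/-- `Lmat` computes `Lop` modulo the image of the difference operator -/
theorem Lmat_redL (h : Bd π Q) (ht : t.Ok) (hD : IsRed (Pu t.u) (Pl t.l) D)
    (hD' : IsRed (Pu (t.su Q)) (Pl (t.sl Q)) D') (f : An K 4096) :
    (Lmat π Q t D D'.d).mulVec (redL D' f) = redL D (Lop 4096 π Q t f) := by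
  have e : Lmat π Q t D D'.d =
      Matrix.of fun a b => (redL D ∘L Lop 4096 π Q t) (An.X ^ D'.d b) a := by
    ext a b
    exact Lmat_apply h hD _ a b
  rw [e]
  refine fib_ext hD' (redL D ∘L Lop 4096 π Q t) (fun g => ?_) f
  rw [ContinuousLinearMap.comp_apply, ← dlA_ofPoly, Lop_dlA h ht, redL_dlA hD]

theorem Lop_comp (h : Bd π Q) (h' : Bd π Q') (ht : t.Ok) (ht' : t'.Ok) (hu : t'.u = t.su Q)
    (hl : t'.l = t.sl Q) (hu' : t''.u = t.u) (hl' : t''.l = t.l)
    (hku : ∀ m, t''.ku m = Q' * t.ku m + t'.ku m) (hkl : ∀ m, t''.kl m = Q' * t.kl m + t'.kl m)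
    (f : An K 4096) : Lop 4096 π Q t (Lop 4096 π Q' t' f) = Lop 4096 π (Q * Q') t'' f := by
  rw [fib_Lop_apply π Q t, fib_Lop_apply π (Q * Q'), ← fib_sum_range]
  refine sum_congr rfl fun i hi => ?_
  have hy := fib_pb h i
  rw [fib_Lop_apply, map_sum, mul_sum]
  refine sum_congr rfl fun j hj => ?_
  have hi' : (i : ℤ) < Q := by exact_mod_cast mem_range.1 hi
  have hj' : (j : ℤ) < Q' := by exact_mod_cast mem_range.1 hj
  rw [An.ev_mul hy, (An.ev_ev (fib_pb h' j) hy f).2, ev_wt h' ht' j hy, ← mul_assoc]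
  congr 1
  · rw [fib_wt, fib_wt, fib_wtAt, mul_mul_mul_comm, ← prod_mul_distrib, ← prod_mul_distrib]
    congr 1
    · refine prod_congr rfl fun m _ => ?_
      have h1 := ht.ku m
      have h2 := ht'.ku m
      have := gam_comp h h' (κ := t.ku m - i) (κ' := t'.ku m - j) (by linarith) (by linarith)
        ((fib_norm_sub (a := t.u m) ((ht.nu m).trans (by norm_num))).trans (by norm_num))
      have e1 : (An.C (t'.u m) - (An.C (Q : K) * An.X + An.C (i : K)) : An K 4096) =
          (Q : An K 4096) * (An.C (t.u m) - An.X) + ((t.ku m - i : ℤ) : An K 4096) := by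
        rw [hu, Par.su]
        simp only [map_add, map_mul, map_natCast, map_intCast]
        push_cast
        ring
      have e2 : t''.ku m - ((Q' * i + j : ℕ) : ℤ) = Q' * (t.ku m - i) + (t'.ku m - j) := by
        rw [hku]
        push_cast
        ring
      rw [e1, e2, hu', this]
    · refine prod_congr rfl fun m _ => ?_
      have h1 := ht.kl m
      have h2 := ht'.kl m
      have hi0 : (0 : ℤ) ≤ i := Int.natCast_nonneg i
      have hj0 : (0 : ℤ) ≤ j := Int.natCast_nonneg j
      have := gam_comp h h' (κ := t.kl m + i) (κ' := t'.kl m + j) (by linarith) (by linarith)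
        ((fib_norm_add (a := t.l m) ((ht.nl m).trans (by norm_num))).trans (by norm_num))
      have e1 : (An.C (t'.l m) + (An.C (Q : K) * An.X + An.C (i : K)) : An K 4096) =
          (Q : An K 4096) * (An.C (t.l m) + An.X) + ((t.kl m + i : ℤ) : An K 4096) := by
        rw [hl, Par.sl]
        simp only [map_add, map_mul, map_natCast, map_intCast]
        push_cast
        ring
      have e2 : t''.kl m + ((Q' * i + j : ℕ) : ℤ) = Q' * (t.kl m + i) + (t'.kl m + j) := by
        rw [hkl]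
        push_cast
        ring
      rw [e1, e2, hl', this]
  · congr 2
    rw [map_add, An.ev_mul hy, fib_ev_C hy, fib_ev_C hy, fib_ev_X hy]
    simp only [map_natCast]
    push_cast
    ring

theorem Lmat_comp (h : Bd π Q) (h' : Bd π Q') (ht : t.Ok) (ht' : t'.Ok) (hu : t'.u = t.su Q)
    (hl : t'.l = t.sl Q) (hu' : t''.u = t.u) (hl' : t''.l = t.l)
    (hku : ∀ m, t''.ku m = Q' * t.ku m + t'.ku m) (hkl : ∀ m, t''.kl m = Q' * t.kl m + t'.kl m)
    (hD : IsRed (Pu t.u) (Pl t.l) D) (hD' : IsRed (Pu t'.u) (Pl t'.l) D') (d : Fin 4 → ℕ) :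
    Lmat π Q t D D'.d * Lmat π Q' t' D' d = Lmat π (Q * Q') t'' D d := by
  ext a b
  rw [fib_mul_Lmat h' hD', Lmat_redL h ht hD (hu ▸ hl ▸ hD'),
    Lop_comp h h' ht ht' hu hl hu' hl' hku hkl, Lmat_apply (R := 4096) (h.mul h') hD]

/-- contiguity on the source -/
theorem Lmat_mul_Cmat (h : Bd π Q) (ht : t.Ok) (I : Fin 4) (hu : t'.u = t.u) (hl : t'.l = t.l)
    (hku : t'.ku = Function.update t.ku I (t.ku I + 1)) (hkl : t'.kl = t.kl)
    (hD : IsRed (Pu t.u) (Pl t.l) D) (hD' : IsRed (Pu (t.su Q)) (Pl (t.sl Q)) D') (d : Fin 4 → ℕ) :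
    Lmat π Q t D D'.d * Cmat π (t.su Q I) D' d = Lmat π Q t' D d := by
  ext a b
  have e : (Lmat π Q t D D'.d * Cmat π (t.su Q I) D' d) a b = (Lmat π Q t D D'.d).mulVec
      (redL D' (An.ofPoly (C π⁻¹ * (X - C (t.su Q I))) * An.X ^ d b)) a := by
    rw [fib_Cmat π _ hD']
    rfl
  rw [e, Lmat_redL h ht hD hD', Lmat_apply (R := 4096) h hD, fib_Lop_apply, fib_Lop_apply]
  refine congrArg (fun z => redL D z a) (sum_congr rfl fun i hi => ?_)
  have hy := fib_pb h i
  have hi' : (i : ℤ) < Q := by exact_mod_cast mem_range.1 hi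
  rw [An.ev_mul hy, ← mul_assoc, fib_ofPoly_lin, An.ev_mul hy, map_sub, fib_ev_C hy, fib_ev_C hy,
    fib_ev_X hy, fib_wt, fib_wt, hu, hl, hkl, mul_comm (_ * _) (An.C _ * _), ← mul_assoc]
  congr 2
  symm
  rw [← one_mul (∏ m, gam π Q (t'.ku m - i) _)]
  refine fib_prod I (fun m hm => by rw [hku, Function.update_of_ne hm]) ?_
  have h1 := ht.ku I
  have := gam_succ h (κ := t.ku I - i) (by linarith)
    ((fib_norm_sub (a := t.u I) ((ht.nu I).trans (by norm_num))).trans (by norm_num))
  rw [hku, Function.update_self, show t.ku I + 1 - i = t.ku I - i + 1 by ring, this, fib_smul,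
    Par.su]
  simp only [map_add, map_mul, map_natCast, map_intCast]
  push_cast
  ring

theorem Cmat_redL {u u' l : Fin 4 → K} (π : K) (I : Fin 4) (hu : u' = Function.update u I (u I + 1))
    (hD : IsRed (Pu u) (Pl l) D) (hD' : IsRed (Pu u') (Pl l) D') (f : An K 4096) :
    (Cmat π (u I) D D'.d).mulVec (redL D' f) =
      redL D (An.ofPoly (C π⁻¹ * (X - C (u I))) * f) := by
  rw [fib_Cmat π _ hD]
  refine fib_ext hD' (redL D ∘L ContinuousLinearMap.mul K (An K 4096)
    (An.ofPoly (C π⁻¹ * (X - C (u I))))) (fun g => ?_) f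
  rw [ContinuousLinearMap.comp_apply, ContinuousLinearMap.mul_apply', ← map_mul, mul_assoc,
    fib_dl I hu, ← fib_dl_C, redL_ofPoly hD, hD.red_dl_poly]

/-- contiguity on the target -/
theorem Cmat_mul_Lmat (h : Bd π Q) (ht' : t'.Ok) (I : Fin 4)
    (hu : t'.u = Function.update t.u I (t.u I + 1)) (hl : t'.l = t.l)
    (hku : t.ku = Function.update t'.ku I (t'.ku I + Q)) (hkl : t'.kl = t.kl)
    (hD : IsRed (Pu t.u) (Pl t.l) D) (hD' : IsRed (Pu t'.u) (Pl t'.l) D') (d : Fin 4 → ℕ) :
    Cmat π (t.u I) D D'.d * Lmat π Q t' D' d = Lmat π Q t D d := by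
  ext a b
  rw [fib_mul_Lmat h hD', Cmat_redL π I hu hD (hl ▸ hD'), Lmat_apply (R := 4096) h hD,
    fib_Lop_apply, fib_Lop_apply, mul_sum]
  refine congrArg (fun z => redL D z a) (sum_congr rfl fun i hi => ?_)
  have hi' : (i : ℤ) < Q := by exact_mod_cast mem_range.1 hi
  rw [← mul_assoc, fib_ofPoly_lin, fib_wt, fib_wt, hl, hkl, ← mul_assoc]
  congr 2
  symm
  rw [← one_mul (∏ m, gam π Q (t.ku m - i) _)]
  refine fib_prod I (fun m hm => by
    rw [hku, hu, Function.update_of_ne hm, Function.update_of_ne hm]) ?_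
  have h1 := ht'.ku I
  have h2 : t'.u I = t.u I + 1 := by rw [hu, Function.update_self]
  have h3 : ‖t.u I‖ ≤ 11 := by
    have h4 := norm_sub_le (t'.u I) 1
    have h5 := ht'.nu I
    rw [h2, add_sub_cancel_right, norm_one, ← h2] at h4
    linarith
  have := gam_add h (κ := t'.ku I - i) (by linarith) (fib_norm_sub h3)
  rw [hku, Function.update_self, show t'.ku I + Q - i = t'.ku I - i + Q by ring, this, fib_smul,
    h2, map_add, map_one, add_sub_right_comm]
  ring

theorem Emat_mul_Lmat (h : Bd π Q) {P Qy : K[X]} (hD : IsRed P Qy D) (d : Fin 4 → ℕ) :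
    Emat D * Lmat π Q t D d = Lmat π Q t D d := by
  ext a b
  rw [fib_mul_Lmat h hD, fib_Emat hD, fib_ext hD (redL D)
    (fun g => by rw [redL_ofPoly hD, hD.red_dl_poly]), Lmat_apply (R := 4096) h hD]

/-- the contiguity map is injective on the cokernel -/
theorem Cmat_inj {u u' l : Fin 4 → K} (hπ : π ≠ 0) (I : Fin 4)
    (hu : u' = Function.update u I (u I + 1)) (hD : IsRed (Pu u) (Pl l) D)
    (hD' : IsRed (Pu u') (Pl l) D') (hg : ∀ j, u I + l j ≠ 0) :
    ∃ Z : Matrix (Fin 4) (Fin 4) K, Z * Cmat π (u I) D D'.d = Emat D' := by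
  refine fib_factor fun v hv => ?_
  rw [fib_Cmat π _ hD, ← fib_iot, ContinuousLinearMap.comp_apply, ContinuousLinearMap.mul_apply',
    ← map_mul, redL_ofPoly hD] at hv
  have h1 := hD.split_poly (C π⁻¹ * (X - C (u I)) * iot D'.d v)
  rw [hv] at h1
  generalize D.gP (C π⁻¹ * (X - C (u I)) * iot D'.d v) = g at h1
  have h0 : iot D.d (0 : Fin 4 → K) = 0 := by simp [iot]
  rw [h0, add_zero] at h1
  have h2 : g.IsRoot (u I + 1) := by
    have h3 := congrArg (eval (u I)) h1
    have h4 : eval (u I) (Pu u) = 0 := by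
      rw [Pu, eval_prod]
      exact prod_eq_zero (mem_univ I) (by simp)
    have h5 : eval (u I) (Pl l) ≠ 0 := by
      rw [Pl, eval_prod]
      exact prod_ne_zero_iff.2 fun j _ => by simpa using hg j
    simp only [dl, eval_mul, eval_sub, eval_X, eval_C, sub_self, mul_zero, zero_mul, h4,
      eval_comp, eval_add, eval_one, zero_sub, zero_eq_neg] at h3
    exact (mul_eq_zero.1 h3).resolve_left h5
  obtain ⟨k, rfl⟩ := dvd_iff_isRoot.2 h2
  rw [← fib_dl I hu, mul_comm (C π⁻¹), mul_assoc] at h1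
  have h6 := mul_left_cancel₀ (X_sub_C_ne_zero (u I)) h1
  have h7 : iot D'.d v = dl (Pu u') (Pl l) (C π * k) := by
    rw [fib_dl_C, ← h6, ← mul_assoc, ← map_mul, mul_inv_cancel₀ hπ, map_one, one_mul]
  rw [fib_Emat hD', ← fib_iot, h7, redL_ofPoly hD', hD'.red_dl_poly]

end

end Pool.Agent.P.MP_9484ad_co
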