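import Pool.Agent.P.MP_9484ad_co.Dwork

/-! The Dwork-Boyarsky gamma functions and the formula of Gross and Koblitz. -/

namespace Pool.Agent.P.MP_9484ad_co

open Finset

noncomputable section

variable {K : Type} [NontriviallyNormedField K]

def poch {D : Type*} [CommRing D] [Algebra K D] (π : K) (b : D) (k : ℕ) : D :=
  ∏ i ∈ range k, (-π⁻¹) • (b + (i : D))

def gam {D : Type*} [NormedCommRing D] [NormedAlgebra K D] (π : K) (Q : ℕ) (κ : ℤ) (b : D) : D :=
  ∑' k : ℕ, dwc π Q (Q * k - κ) • poch π b k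

variable [CompleteSpace K] [IsUltrametricDist K] [CharZero K]
  {D D' : Type*} [NormedCommRing D] [NormedAlgebra K D] [NormOneClass D] [CompleteSpace D]
  [NormedCommRing D'] [NormedAlgebra K D'] [CompleteSpace D'] {π : K} {Q Q' : ℕ}

omit [CompleteSpace K] [IsUltrametricDist K] [CharZero K] in
theorem gama_bd (h : Bd π Q) : ∃ ρ : ℝ, 0 < ρ ∧ ρ < 1 ∧ ρ ^ Q * 10 ^ 4 = ‖π‖ ∧
    ∀ n : ℤ, ‖dwc π Q n‖ ≤ ρ ^ n := by
  obtain ⟨ρ, h0, -, h2, h3⟩ := h.bd
  have hQ : Q ≠ 0 := by have := h.two_le; omega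
  have hπ := norm_pos_iff.2 h.pi_ne
  have e := Real.rpow_inv_natCast_pow (x := ‖π‖ / 10 ^ 4) (by positivity) hQ
  have p : 0 < (‖π‖ / 10 ^ 4) ^ (Q : ℝ)⁻¹ := by positivity
  refine ⟨_, p, lt_of_pow_lt_pow_left₀ Q zero_le_one ?_, by rw [e]; ring, fun n => ?_⟩
  · rw [e, one_pow]; linarith [h.pi_le]
  rcases lt_or_ge n 0 with hn | hn
  · rw [dwc, if_neg hn.not_ge, norm_zero]; positivity
  · lift n to ℕ using hn
    rw [zpow_natCast]
    refine (h3 n).trans (pow_le_pow_left₀ h0 (le_of_pow_le_pow_left₀ hQ p.le ?_) n)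
    rw [e]; linarith

omit [CompleteSpace K] [CharZero K] [CompleteSpace D] in
theorem gama_poch (π : K) {b : D} (hb : ‖b‖ ≤ 4999) (k : ℕ) :
    ‖poch π b k‖ ≤ (5000 / ‖π‖) ^ k := by
  refine (Finset.norm_prod_le _ _).trans ((prod_le_prod (fun _ _ => norm_nonneg _)
    (g := fun _ => 5000 / ‖π‖) fun i _ => ?_).trans_eq (by rw [prod_const, card_range]))
  have : ‖(i : D)‖ ≤ 1 := by
    rw [← map_natCast (algebraMap K D), norm_algebraMap']
    exact IsUltrametricDist.norm_natCast_le_one K i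
  rw [norm_smul, norm_neg, norm_inv, div_eq_inv_mul]
  gcongr
  linarith [norm_add_le b i]

omit [CompleteSpace K] [CharZero K] [CompleteSpace D] in
theorem gama_term {ρ : ℝ} (h0 : 0 < ρ) (h1 : ρ ^ Q * 10 ^ 4 = ‖π‖) (h2 : ∀ n : ℤ, ‖dwc π Q n‖ ≤ ρ ^ n)
    (κ : ℤ) {b : D} (hb : ‖b‖ ≤ 4999) (k : ℕ) :
    ‖dwc π Q (Q * k - κ) • poch π b k‖ ≤ ρ ^ (-κ) * (1 / 2) ^ k := by
  rw [norm_smul]
  refine (mul_le_mul (h2 _) (gama_poch π hb k) (norm_nonneg _) (by positivity)).trans_eq ?_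
  rw [sub_eq_neg_add, zpow_add₀ h0.ne', ← Nat.cast_mul, zpow_natCast, pow_mul, mul_assoc, ← mul_pow,
    ← h1]
  congr 2
  field_simp
  norm_num

theorem gam_summable (h : Bd π Q) (κ : ℤ) {b : D} (hb : ‖b‖ ≤ 4999) :
    Summable fun k : ℕ => ‖dwc π Q (Q * k - κ) • poch π b k‖ := by
  obtain ⟨ρ, h0, -, h1, h2⟩ := gama_bd h
  exact .of_nonneg_of_le (fun _ => norm_nonneg _) (gama_term h0 h1 h2 κ hb)
    (summable_geometric_two.mul_left _)

theorem gama_hasSum (h : Bd π Q) (κ : ℤ) {b : D} (hb : ‖b‖ ≤ 4999) :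
    HasSum (fun k : ℕ => dwc π Q (Q * k - κ) • poch π b k) (gam π Q κ b) :=
  (gam_summable h κ hb).of_norm.hasSum

theorem gama_shift (h : Bd π Q) (κ : ℤ) {b : D} (hb : ‖b‖ ≤ 4999) :
    HasSum (fun k : ℕ => dwc π Q (Q * k - κ) • poch π b (k + 1))
      (gam π Q (κ + Q) b - dwc π Q (-Q - κ) • (1 : D)) := by
  have := (hasSum_nat_add_iff' (G := D) 1).2 (gama_hasSum h (κ + Q) hb)
  have e : ∀ k : ℕ, (Q * (k + 1 : ℕ) - (κ + Q) : ℤ) = Q * k - κ := fun k => by push_cast; ring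
  simp only [e, range_one, sum_singleton, show poch π b 0 = 1 from prod_range_zero _] at this
  rwa [show (Q * (0 : ℕ) - (κ + Q) : ℤ) = -Q - κ by push_cast; ring] at this

theorem gam_map (h : Bd π Q) (κ : ℤ) {b : D} (hb : ‖b‖ ≤ 4999) (φ : D →+* D') (hφ : Continuous φ)
    (hs : ∀ (k : K) (d : D), φ (k • d) = k • φ d) : φ (gam π Q κ b) = gam π Q κ (φ b) := by
  rw [gam, (gam_summable h κ hb).of_norm.map_tsum φ hφ]
  simp only [gam, poch, hs, map_prod, map_add, map_natCast]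

theorem gam_succ' (h : Bd π Q) (κ : ℤ) {b : D} (hb : ‖b‖ ≤ 4999) :
    gam π Q (κ + 1) b =
      (-π⁻¹) • (((Q : D) * b + (κ : D)) * gam π Q κ b) + ((Q : K) * dwc π Q (-Q - κ)) • (1 : D) := by
  have h1 := ((gama_hasSum h (κ + 1) hb).sub ((gama_hasSum h (κ + Q) hb).const_smul (Q : K))).add
    ((gama_shift h κ hb).const_smul (Q : K))
  have h2 := ((gama_hasSum h κ hb).mul_left ((Q : D) * b + (κ : D))).const_smul (-π⁻¹)
  rw [← sub_eq_iff_eq_add, ← h2.tsum_eq, mul_smul]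
  refine Eq.trans (by rw [smul_sub]; ring) (h1.tsum_eq.symm.trans (tsum_congr fun k => ?_))
  have e := dwc_rec π h.two_le (Q * k - κ)
  rw [show dwc π Q (Q * k - (κ + 1)) = π⁻¹ * (Q * k - κ) * dwc π Q (Q * k - κ) +
      Q * dwc π Q (Q * k - (κ + Q)) by
    rw [← sub_sub, ← sub_sub]
    push_cast at e
    field_simp [h.pi_ne]
    linear_combination -e]
  simp only [poch, prod_range_succ, Algebra.smul_def, map_add, map_mul, map_sub, map_neg,
    map_natCast, map_intCast]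
  ring

theorem gam_add' (h : Bd π Q) (κ : ℤ) {b : D} (hb : ‖b‖ ≤ 4998) :
    gam π Q (κ + Q) b = (-π⁻¹) • (b * gam π Q κ (b + 1)) + dwc π Q (-Q - κ) • (1 : D) := by
  have h2 := ((gama_hasSum h κ (b := b + 1) (by
    linarith [norm_add_le b 1, norm_one (α := D)])).mul_left b).const_smul (-π⁻¹)
  rw [← sub_eq_iff_eq_add, ← h2.tsum_eq, ← (gama_shift h κ (by linarith)).tsum_eq]
  refine tsum_congr fun k => ?_
  simp only [poch, prod_range_succ', Algebra.smul_def, Nat.cast_add, Nat.cast_one, Nat.cast_zero,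
    add_assoc, add_comm (1 : D)]
  ring

theorem gam_succ (h : Bd π Q) {κ : ℤ} (hκ : -(Q : ℤ) < κ) {b : D} (hb : ‖b‖ ≤ 4999) :
    gam π Q (κ + 1) b = (-π⁻¹) • (((Q : D) * b + (κ : D)) * gam π Q κ b) := by
  rw [gam_succ' h κ hb, dwc_neg π Q (by omega), mul_zero, zero_smul, add_zero]

theorem gam_add (h : Bd π Q) {κ : ℤ} (hκ : -(Q : ℤ) < κ) {b : D} (hb : ‖b‖ ≤ 4998) :
    gam π Q (κ + Q) b = (-π⁻¹) • (b * gam π Q κ (b + 1)) := by
  rw [gam_add' h κ hb, dwc_neg π Q (by omega), zero_smul, add_zero]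

theorem gamc_iter (h : Bd π Q) {κ : ℤ} (hκ : -(Q : ℤ) < κ) {b : D} (hb : ‖b‖ ≤ 4999) (k : ℕ) :
    gam π Q κ b * poch π ((Q : D) * b + (κ : D)) k = gam π Q (κ + k) b := by
  induction k with
  | zero => simp [poch]
  | succ k ih =>
    rw [Nat.cast_succ, ← add_assoc, gam_succ h (by omega) hb, ← ih, poch, prod_range_succ, ← poch]
    simp only [Algebra.smul_def]
    push_cast
    ring

theorem gamc_conv (h : Bd π Q) (h' : Bd π Q') {κ' : ℤ} (hκ' : -(Q' : ℤ) < κ') (M : ℤ) :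
    HasSum (fun k : ℕ => dwc π Q' (Q' * k - κ') * dwc π Q (M - k))
      (dwc π (Q * Q') (Q' * M - κ')) := by
  have q0 : (0 : ℤ) < Q' := by have := h'.two_le; omega
  rcases lt_or_ge M 0 with hM | hM
  · rw [dwc_neg π _ (by nlinarith : Q' * M - κ' < 0)]
    have : ∀ k : ℕ, dwc π Q' (Q' * k - κ') * dwc π Q (M - k) = 0 := fun k => by
      rw [dwc_neg π Q (by omega), mul_zero]
    simp only [this]
    exact hasSum_zero
  · lift M to ℕ using hM
    rw [dwc_mul π h.two_le h'.two_le _ (N := M + 1) (by push_cast; nlinarith), ← sum_range_reflect]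
    have e : ∑ j ∈ range (M + 1), dwc π Q ((M + 1 - 1 - j : ℕ) : ℤ) *
        dwc π Q' (Q' * M - κ' - Q' * ((M + 1 - 1 - j : ℕ) : ℤ)) =
        ∑ k ∈ range (M + 1), dwc π Q' (Q' * k - κ') * dwc π Q (M - k) := by
      refine sum_congr rfl fun j hj => ?_
      have : ((M + 1 - 1 - j : ℕ) : ℤ) = M - j := by have := mem_range.1 hj; omega
      rw [this, mul_comm]
      congr 2
      ring
    rw [e]
    refine hasSum_sum_of_ne_finset_zero fun k hk => ?_
    rw [mem_range] at hk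
    rw [dwc_neg π Q (by omega), mul_zero]

theorem gam_comp (h : Bd π Q) (h' : Bd π Q') {κ κ' : ℤ} (hκ : -(Q : ℤ) < κ) (hκ' : -(Q' : ℤ) < κ')
    {b : D} (hb : ‖b‖ ≤ 4999) :
    gam π Q κ b * gam π Q' κ' ((Q : D) * b + (κ : D)) = gam π (Q * Q') (Q' * κ + κ') b := by
  obtain ⟨ρ, h0, h1, h2, h3⟩ := gama_bd h
  obtain ⟨σ, g0, -, g2, g3⟩ := gama_bd h'
  have hb' : ‖(Q : D) * b + (κ : D)‖ ≤ 4999 := by
    have a1 : ‖(Q : D)‖ * 10 ^ 5 ≤ 1 := by
      rw [← map_natCast (algebraMap K D), norm_algebraMap']; exact h.norm_Q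
    have a2 : ‖(κ : D)‖ ≤ 1 := by
      rw [← map_intCast (algebraMap K D), norm_algebraMap']
      exact IsUltrametricDist.norm_intCast_le_one K κ
    nlinarith [norm_add_le ((Q : D) * b) κ, norm_mul_le (Q : D) b, norm_nonneg (Q : D),
      norm_nonneg b]
  have lt : σ ^ Q' / ρ < 1 := by
    rw [div_lt_one h0, show σ ^ Q' = ρ ^ Q by linarith]
    exact pow_lt_self_of_lt_one₀ h0 h1 h.two_le
  set f : ℕ × ℕ → D := fun x =>
    dwc π Q' (Q' * x.1 - κ') • (dwc π Q (Q * x.2 - (κ + x.1)) • poch π b x.2) with hf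
  have sf : Summable f := by
    refine Summable.of_norm_bounded (g := fun x : ℕ × ℕ =>
      (σ ^ (-κ') * ρ ^ (-κ) * (σ ^ Q' / ρ) ^ x.1) * (1 / 2 : ℝ) ^ x.2)
      (((summable_geometric_of_lt_one (by positivity) lt).mul_left _).mul_of_nonneg
        summable_geometric_two (fun _ => by positivity) fun _ => by positivity) fun x => ?_
    rw [hf, norm_smul]
    refine (mul_le_mul (g3 _) (gama_term h0 h2 h3 _ hb _) (norm_nonneg _)
      (by positivity)).trans_eq ?_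
    rw [sub_eq_neg_add, zpow_add₀ g0.ne', neg_add, zpow_add₀ h0.ne', ← Nat.cast_mul, zpow_natCast,
      pow_mul, zpow_neg ρ (x.1 : ℤ), zpow_natCast, div_pow (σ ^ Q')]
    ring
  have s1 : HasSum (fun k : ℕ => dwc π Q' (Q' * k - κ') • gam π Q (κ + k) b) (∑' x, f x) :=
    sf.hasSum.prod_fiberwise fun k => (gama_hasSum h (κ + k) hb).const_smul _
  have s2 : HasSum (fun n : ℕ => dwc π (Q * Q') ((Q * Q' : ℕ) * n - (Q' * κ + κ')) • poch π b n)
      (∑' x, f x) := by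
    refine ((Equiv.prodComm ℕ ℕ).hasSum_iff.2 sf.hasSum).prod_fiberwise fun n => ?_
    have := (gamc_conv h h' hκ' (Q * n - κ)).smul_const (poch π b n)
    rw [show (Q' * (Q * n - κ) - κ' : ℤ) = (Q * Q' : ℕ) * n - (Q' * κ + κ') by push_cast; ring]
      at this
    simpa only [hf, Function.comp, Equiv.prodComm_apply, Prod.swap, mul_smul, sub_sub] using this
  have s3 := (gama_hasSum h' κ' hb').mul_left (gam π Q κ b)
  simp only [mul_smul_comm, gamc_iter h hκ hb] at s3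
  rw [s3.unique s1, gam, s2.tsum_eq]

/-- Gross-Koblitz -/
theorem gam_eq_G [IsAlgClosed K] (h : Bd π Q) {κ : ℤ} (hκ : 1 - (Q : ℤ) < κ) {b : K}
    (hb : (1 - (Q : K)) * b = κ) : gam π Q κ b = -G π Q κ := by
  obtain ⟨ρ, h0, h1, h2, h3⟩ := gama_bd h
  have hQ : ‖(Q : K)‖ < 1 := by linarith [h.norm_Q, norm_nonneg (Q : K)]
  have b1 : ‖b‖ ≤ 1 := by
    have := congrArg norm hb
    rw [norm_mul, sub_eq_add_neg, IsUltrametricDist.norm_add_eq_max_of_norm_ne_norm
      (by rw [norm_neg, norm_one]; exact hQ.ne'), norm_neg, norm_one, max_eq_left hQ.le,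
      one_mul] at this
    exact this ▸ IsUltrametricDist.norm_intCast_le_one K κ
  have b2 : ∀ N : ℕ, ‖b + N‖ ≤ 2 := fun N => by
    linarith [norm_add_le b N, IsUltrametricDist.norm_natCast_le_one K N]
  set g : ℕ → K := fun N => gam π Q (κ - (Q - 1) * N) (b + N) with hg
  have e : ∀ N : ℕ, ((Q : K) - 1) * dwc π Q (((Q : ℤ) - 1) * N - κ) = g (N + 1) - g N := fun N => by
    have e1 := gam_add' h (κ - (Q - 1) * N - Q) (b := b + N) (by linarith [b2 N])
    have e2 := gam_succ' h (κ - (Q - 1) * N - Q) (b := b + N + 1) (by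
      have := b2 (N + 1)
      push_cast at this
      rw [add_assoc]; linarith)
    rw [sub_add_cancel] at e1
    rw [show κ - (Q - 1) * N - Q + 1 = κ - (Q - 1) * (N + 1 : ℕ) by push_cast; ring] at e2
    rw [show -(Q : ℤ) - (κ - (Q - 1) * N - Q) = (Q - 1) * N - κ by ring] at e1 e2
    simp only [hg, Nat.cast_add, Nat.cast_one, ← add_assoc, smul_eq_mul] at e1 e2 ⊢
    push_cast at e2
    rw [e1, e2]
    linear_combination -π⁻¹ * gam π Q (κ - (Q - 1) * N - Q) (b + N + 1) * hb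
  have t : Filter.Tendsto g Filter.atTop (nhds 0) := by
    obtain ⟨m, rfl⟩ : ∃ m, Q = m + 1 := ⟨Q - 1, by have := h.two_le; omega⟩
    have hm : m ≠ 0 := by have := h.two_le; omega
    refine squeeze_zero_norm (a := fun N => ρ ^ (-κ) * 2 * (ρ ^ m) ^ N) (fun N => ?_) ?_
    · refine (tsum_of_norm_bounded (hasSum_geometric_two.mul_left _)
        (gama_term h0 h2 h3 _ (by linarith [b2 N]))).trans_eq ?_
      rw [show -(κ - ((m + 1 : ℕ) - 1) * N) = -κ + (m * N : ℕ) by push_cast; ring, zpow_add₀ h0.ne',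
        zpow_natCast, pow_mul]
      ring
    · simpa using (tendsto_pow_atTop_nhds_zero_of_lt_one (by positivity)
        (pow_lt_one₀ h0.le h1 hm)).const_mul (ρ ^ (-κ) * 2)
  have := (hasSum_G h hκ).tendsto_sum_nat
  simp only [e, sum_range_sub] at this
  rw [tendsto_nhds_unique this (t.sub_const _)]
  simp [hg]

end

end Pool.Agent.P.MP_9484ad_co
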