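import Pool.Agent.P.MP_9484ad_co.Red
import Pool.Agent.P.MP_9484ad_co.Gam

/-! Frobenius and contiguity matrices on the cokernel of the difference operator. -/

namespace Pool.Agent.P.MP_9484ad_co

open Finset Polynomial

noncomputable section

variable {K : Type} [NontriviallyNormedField K]

/-- parameters: `τ` and the integers `k` -/
structure Par (A : Type) where
  u : Fin 4 → A
  l : Fin 4 → A
  ku : Fin 4 → ℤ
  kl : Fin 4 → ℤ

section Defs

variable {A B : Type} [NormedCommRing A] [NormedAlgebra K A] [NormedCommRing B] [NormedAlgebra K B]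

def Par.map (φ : A →+* B) (t : Par A) : Par B :=
  ⟨fun m => φ (t.u m), fun m => φ (t.l m), t.ku, t.kl⟩

/-- the upper parameters `Q τ + k` of the source -/
def Par.su (t : Par A) (Q : ℕ) : Fin 4 → A := fun m => Q * t.u m + t.ku m

/-- the lower parameters `Q τ + k` of the source -/
def Par.sl (t : Par A) (Q : ℕ) : Fin 4 → A := fun m => Q * t.l m + t.kl m

structure Par.Ok (t : Par A) : Prop where
  nu : ∀ m, ‖t.u m‖ ≤ 10
  nl : ∀ m, ‖t.l m‖ ≤ 10
  ku : ∀ m, 0 ≤ t.ku m
  kl : ∀ m, 0 ≤ t.kl m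

/-- the weight of the branch `i` at the point `a` -/
def wtAt {E : Type} [NormedCommRing E] [NormedAlgebra K E] (π : K) (Q : ℕ) (t : Par E) (i : ℕ)
    (a : E) : E :=
  (∏ m, gam π Q (t.ku m - i) (t.u m - a)) * ∏ m, gam π Q (t.kl m + i) (t.l m + a)

/-- the weight of the only branch on the source of the difference operator -/
def w0At {E : Type} [NormedCommRing E] [NormedAlgebra K E] (π : K) (Q : ℕ) (t : Par E)
    (a : E) : E :=
  (∏ m, gam π Q (t.ku m + 1 - Q) (t.u m + 1 - a)) * ∏ m, gam π Q (t.kl m) (t.l m + a)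

def wt (π : K) (Q : ℕ) (t : Par A) (i : ℕ) : An A 4096 := wtAt π Q (t.map An.C) i An.X

def w0 (π : K) (Q : ℕ) (t : Par A) : An A 4096 := w0At π Q (t.map An.C) An.X

def RD.redA (D : RD A) (f : An A 4096) : Fin 4 → A := ∑' n, An.co n f • D.r n

/-- the Frobenius matrix -/
def Lmat (π : K) (Q : ℕ) (t : Par A) (D : RD A) (d : Fin 4 → ℕ) : Matrix (Fin 4) (Fin 4) A :=
  Matrix.of fun a b => D.redA
    (∑ i ∈ range Q, wt π Q t i * An.ofPoly ((C (Q : A) * X + C (i : A)) ^ d b)) a

/-- multiplication by `(X - y) / π` -/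
def Cmat (π : K) (y : A) (D : RD A) (d : Fin 4 → ℕ) : Matrix (Fin 4) (Fin 4) A :=
  Matrix.of fun a b => D.redP (C (algebraMap K A π⁻¹) * (X - C y) * X ^ d b) a

def Emat (D : RD A) : Matrix (Fin 4) (Fin 4) A := Matrix.of fun a b => D.r (D.d b) a

end Defs

variable [CompleteSpace K] [IsUltrametricDist K] [CharZero K] {π : K} {Q Q' : ℕ}

section Map

variable {A B : Type} [NormedCommRing A] [NormedAlgebra K A] [NormOneClass A] [CompleteSpace A]
  [NormedCommRing B] [NormedAlgebra K B] [NormOneClass B] [CompleteSpace B]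

theorem fibdef_cont {A B : Type} [NormedCommRing A] [NormedCommRing B] (φ : A →+* B)
    (hφ : ∀ a, ‖φ a‖ ≤ ‖a‖) : Continuous φ :=
  AddMonoidHomClass.continuous_of_bound φ 1 fun a => by rw [one_mul]; exact hφ a

theorem fibdef_nu {A : Type} [NormedCommRing A] [NormOneClass A] {t : Par A} (ht : t.Ok)
    (m : Fin 4) : ‖(An.C (t.u m) - An.X : An A 4096)‖ ≤ 4106 := by
  refine (norm_sub_le _ _).trans ?_
  rw [An.norm_C, An.norm_X]
  have := ht.nu m
  push_cast
  linarith

theorem fibdef_nu' {A : Type} [NormedCommRing A] [NormOneClass A] {t : Par A} (ht : t.Ok)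
    (m : Fin 4) : ‖(An.C (t.u m) + 1 - An.X : An A 4096)‖ ≤ 4107 := by
  rw [add_sub_right_comm]
  refine (norm_add_le _ _).trans ?_
  rw [norm_one]
  have := fibdef_nu ht m
  linarith

theorem fibdef_nl {A : Type} [NormedCommRing A] [NormOneClass A] {t : Par A} (ht : t.Ok)
    (m : Fin 4) : ‖(An.C (t.l m) + An.X : An A 4096)‖ ≤ 4106 := by
  refine (norm_add_le _ _).trans ?_
  rw [An.norm_C, An.norm_X]
  have := ht.nl m
  push_cast
  linarith

theorem fibdef_wtAt_map {E E' : Type} [NormedCommRing E] [NormedAlgebra K E] [NormOneClass E]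
    [CompleteSpace E] [NormedCommRing E'] [NormedAlgebra K E'] [CompleteSpace E'] (h : Bd π Q)
    (t : Par E) (i : ℕ) (a : E) (hu : ∀ m, ‖t.u m - a‖ ≤ 4999) (hl : ∀ m, ‖t.l m + a‖ ≤ 4999)
    (φ : E →+* E') (hφ : Continuous φ) (hs : ∀ (k : K) (d : E), φ (k • d) = k • φ d) :
    φ (wtAt π Q t i a) = wtAt π Q (t.map φ) i (φ a) := by
  unfold wtAt
  rw [map_mul, map_prod, map_prod]
  congr 1
  · exact Finset.prod_congr rfl fun m _ => by rw [gam_map h _ (hu m) φ hφ hs, map_sub]; rfl
  · exact Finset.prod_congr rfl fun m _ => by rw [gam_map h _ (hl m) φ hφ hs, map_add]; rfl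

theorem fibdef_w0At_map {E E' : Type} [NormedCommRing E] [NormedAlgebra K E] [NormOneClass E]
    [CompleteSpace E] [NormedCommRing E'] [NormedAlgebra K E'] [CompleteSpace E'] (h : Bd π Q)
    (t : Par E) (a : E) (hu : ∀ m, ‖t.u m + 1 - a‖ ≤ 4999) (hl : ∀ m, ‖t.l m + a‖ ≤ 4999)
    (φ : E →+* E') (hφ : Continuous φ) (hs : ∀ (k : K) (d : E), φ (k • d) = k • φ d) :
    φ (w0At π Q t a) = w0At π Q (t.map φ) (φ a) := by
  unfold w0At
  rw [map_mul, map_prod, map_prod]
  congr 1
  · exact Finset.prod_congr rfl fun m _ => by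
      rw [gam_map h _ (hu m) φ hφ hs, map_sub, map_add, map_one]; rfl
  · exact Finset.prod_congr rfl fun m _ => by rw [gam_map h _ (hl m) φ hφ hs, map_add]; rfl

theorem fibdef_redA_map {A B : Type} [NormedCommRing A] [CompleteSpace A] [NormedCommRing B]
    {P Qy : A[X]} {D : RD A} (hD : IsRed P Qy D) (φ : A →+* B) (hφ : ∀ a, ‖φ a‖ ≤ ‖a‖)
    (f : An A 4096) (a : Fin 4) : φ (D.redA f a) = (D.map φ).redA (An.map φ hφ f) a := by
  obtain ⟨c, hc⟩ := hD.bd
  have hs : Summable fun n => An.co n f • D.r n := by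
    refine Summable.of_norm_bounded ((An.summable f).mul_left c) fun n => ?_
    refine (norm_smul_le _ _).trans ?_
    rw [mul_left_comm]
    exact mul_le_mul_of_nonneg_left (by exact_mod_cast (hc n).1) (norm_nonneg _)
  have h2 : HasSum (fun n => An.co n (An.map φ hφ f) • (D.map φ).r n) fun a => φ (D.redA f a) := by
    refine Pi.hasSum.2 fun a => ?_
    have := (Pi.hasSum.1 hs.hasSum a).map φ (fibdef_cont φ hφ)
    simpa [RD.map, Function.comp_def, RD.redA] using this
  exact (congrFun h2.tsum_eq a).symm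

theorem Lmat_map (h : Bd π Q) {t : Par A} (ht : t.Ok) {P Qy : A[X]} {D : RD A} (hD : IsRed P Qy D)
    (d : Fin 4 → ℕ) (φ : A →+* B) (hφ : ∀ a, ‖φ a‖ ≤ ‖a‖)
    (hs : ∀ (k : K) (a : A), φ (k • a) = k • φ a) :
    (Lmat π Q t D d).map φ = Lmat π Q (t.map φ) (D.map φ) d := by
  have hc : Continuous φ := fibdef_cont φ hφ
  have hX : An.map φ hφ (An.X : An A 4096) = An.X := by
    rw [An.X, An.map_ofPoly, Polynomial.map_X]
    rfl
  have hC : ∀ a, An.map φ hφ (An.C a : An A 4096) = An.C (φ a) := fun a => by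
    change An.map φ hφ (An.ofPoly (C a)) = An.ofPoly (C (φ a))
    rw [An.map_ofPoly, Polynomial.map_C]
  have hw : ∀ i, An.map φ hφ (wt π Q t i) = wt π Q (t.map φ) i := fun i => by
    unfold wt
    refine (fibdef_wtAt_map h (t.map (An.C : A →+* An A 4096)) i An.X
      (fun m => (fibdef_nu ht m).trans (by norm_num))
      (fun m => (fibdef_nl ht m).trans (by norm_num)) (An.map φ hφ : An A 4096 →+* An B 4096)
      (fibdef_cont _ (An.norm_map_le φ hφ))
      (fun k f => An.ext_co fun n => by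
        rw [An.co_map, An.co_smul, An.co_smul, An.co_map, hs])).trans ?_
    rw [hX]
    simp only [Par.map, hC]
  ext a b
  simp only [Lmat, Matrix.map_apply, Matrix.of_apply]
  rw [fibdef_redA_map hD φ hφ, map_sum]
  congr 1
  refine Finset.sum_congr rfl fun i _ => ?_
  rw [map_mul, hw, An.map_ofPoly]
  simp

theorem Cmat_map (π : K) (y : A) (D : RD A) (d : Fin 4 → ℕ) (φ : A →+* B)
    (hs : ∀ (k : K) (a : A), φ (k • a) = k • φ a) :
    (Cmat π y D d).map φ = Cmat π (φ y) (D.map φ) d := by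
  have h1 : φ (algebraMap K A π⁻¹) = algebraMap K B π⁻¹ := by
    rw [Algebra.algebraMap_eq_smul_one, Algebra.algebraMap_eq_smul_one, hs, map_one]
  ext a b
  simp only [Cmat, Matrix.map_apply, Matrix.of_apply]
  rw [RD.redP_map]
  simp [h1]

end Map

section Ops

/-- the difference operator on power series -/
def dlA (R : ℕ) [R.AtLeastTwo] (P Qy : K[X]) : An K R →L[K] An K R :=
  ContinuousLinearMap.mul K (An K R) (An.ofPoly P) -
    ContinuousLinearMap.mul K (An K R) (An.ofPoly Qy) ∘L An.ev (An.X + An.C 1 : An K R)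

/-- the operator `f ↦ ∑ wt i * f (Q X + i)` -/
def Lop (R : ℕ) [R.AtLeastTwo] (π : K) (Q : ℕ) (t : Par K) : An K R →L[K] An K 4096 :=
  ∑ i ∈ range Q, ContinuousLinearMap.mul K (An K 4096) (wt π Q t i) ∘L
    An.ev (An.C (Q : K) * An.X + An.C (i : K) : An K 4096)

/-- the operator `f ↦ w0 * f (Q X)` -/
def Aop (R : ℕ) [R.AtLeastTwo] (π : K) (Q : ℕ) (t : Par K) : An K R →L[K] An K 4096 :=
  ContinuousLinearMap.mul K (An K 4096) (w0 π Q t) ∘L
    An.ev (An.C (Q : K) * An.X + An.C (0 : K) : An K 4096)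

def redL (D : RD K) : An K 4096 →L[K] (Fin 4 → K) := An.lift D.r

variable {R : ℕ} [R.AtLeastTwo] {t : Par K} {P Qy : K[X]} {D : RD K}

omit [CompleteSpace K] [IsUltrametricDist K] [CharZero K] in
theorem fibdef_aeval (q g : K[X]) : aeval (An.ofPoly q : An K R) g = An.ofPoly (g.comp q) := by
  rw [Polynomial.comp, Polynomial.hom_eval₂, aeval_def]
  rfl

omit [CompleteSpace K] [IsUltrametricDist K] [CharZero K] in
theorem fibdef_bd (hD : IsRed P Qy D) : ∃ c : ℝ, ∀ n, ‖D.r n‖ ≤ c * ((4096 : ℕ) : ℝ) ^ n := by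
  obtain ⟨c, hc⟩ := hD.bd
  exact ⟨c, fun n => by exact_mod_cast (hc n).1⟩

omit [CharZero K] in
theorem fibdef_pb (h : Bd π Q) (i : ℕ) :
    An.PB R (An.C (Q : K) * An.X + An.C (i : K) : An K 4096) := by
  refine An.PB.of_le ((norm_add_le _ _).trans ?_)
  have h1 := An.norm_C_mul_X_pow (R := 4096) (Q : K) 1
  rw [pow_one] at h1
  rw [h1, An.norm_C]
  have h2 := h.norm_Q
  have h3 := IsUltrametricDist.norm_natCast_le_one K i
  have h4 : (2 : ℝ) ≤ R := by exact_mod_cast Nat.AtLeastTwo.prop (n := R)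
  have h5 := norm_nonneg (Q : K)
  push_cast
  linarith

omit [IsUltrametricDist K] [CharZero K] in
theorem fibdef_ev_X {E : Type} [NormedCommRing E] [NormedAlgebra K E] [CompleteSpace E] {a : E}
    (ha : An.PB R a) : An.ev a (An.X : An K R) = a := by
  simpa using An.anb_ev_X_pow (K := K) ha 1

omit [IsUltrametricDist K] [CharZero K] in
theorem fibdef_ev_C {E : Type} [NormedCommRing E] [NormedAlgebra K E] [CompleteSpace E] {a : E}
    (ha : An.PB R a) (k : K) : An.ev a (An.C k : An K R) = algebraMap K E k := by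
  change An.ev a (An.ofPoly (C k)) = _
  rw [An.ev_ofPoly ha, aeval_C]

omit [IsUltrametricDist K] [CharZero K] in
theorem fibdef_evH_cont {E : Type} [NormedCommRing E] [NormedAlgebra K E] [CompleteSpace E] {a : E}
    (ha : An.PB R a) : Continuous (An.evH a ha : An K R →+* E) := by
  have e : ⇑(An.evH a ha : An K R →+* E) = (An.ev a : An K R →L[K] E) := rfl
  rw [e]
  exact ContinuousLinearMap.continuous _

omit [IsUltrametricDist K] [CharZero K] in
theorem fibdef_evH_smul {E : Type} [NormedCommRing E] [NormedAlgebra K E] [CompleteSpace E] {a : E}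
    (ha : An.PB R a) (k : K) (d : An K R) : An.evH a ha (k • d) = k • An.evH a ha d := by
  rw [An.evH_apply, An.evH_apply, map_smul]

omit [CompleteSpace K] [IsUltrametricDist K] [CharZero K] in
theorem fibdef_alg (k : K) : algebraMap K (An K R) k = An.C k := rfl

theorem dlA_ofPoly (P Qy g : K[X]) : dlA R P Qy (An.ofPoly g) = An.ofPoly (dl P Qy g) := by
  have h1 : (An.X + An.C 1 : An K R) = An.ofPoly (X + 1) := by
    rw [map_add, map_one, map_one]
    rfl
  simp only [dlA, dl, ContinuousLinearMap.sub_apply, ContinuousLinearMap.comp_apply,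
    ContinuousLinearMap.mul_apply', map_sub, map_mul]
  rw [An.ev_ofPoly (An.pb_X_add_C norm_one.le), h1, fibdef_aeval]

theorem redL_eq (hD : IsRed P Qy D) (f : An K 4096) : redL D f = D.redA f := by
  obtain ⟨c, hc⟩ := fibdef_bd hD
  exact (An.hasSum_lift hc f).tsum_eq.symm

theorem redL_ofPoly (hD : IsRed P Qy D) (f : K[X]) : redL D (An.ofPoly f) = D.redP f := by
  obtain ⟨c, hc⟩ := fibdef_bd hD
  exact An.lift_ofPoly hc f

theorem redL_dlA (hD : IsRed P Qy D) (f : An K 4096) : redL D (dlA 4096 P Qy f) = 0 := by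
  have := An.clm_ext (S := redL D ∘L dlA 4096 P Qy) (T := 0) fun n => by
    rw [ContinuousLinearMap.comp_apply, An.X, ← map_pow, dlA_ofPoly, redL_ofPoly hD, hD.red_dl]
    rfl
  exact congrArg (fun L => L f) this

theorem Lmat_apply (h : Bd π Q) (hD : IsRed P Qy D) (d : Fin 4 → ℕ) (a b : Fin 4) :
    Lmat π Q t D d a b = redL D (Lop R π Q t (An.X ^ d b)) a := by
  rw [redL_eq hD]
  simp only [Lmat, Matrix.of_apply, Lop, ContinuousLinearMap.sum_apply,
    ContinuousLinearMap.comp_apply, ContinuousLinearMap.mul_apply']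
  congr 1
  refine Finset.sum_congr rfl fun i _ => ?_
  rw [An.anb_ev_X_pow (fibdef_pb h i), map_pow, map_add, map_mul]
  rfl

theorem Lmat_mulVec (h : Bd π Q) (hD : IsRed P Qy D) (d : Fin 4 → ℕ) (v : Fin 4 → K) :
    (Lmat π Q t D d).mulVec v = redL D (Lop R π Q t (An.ofPoly (iot d v))) := by
  have e : (An.ofPoly (iot d v) : An K R) = ∑ b, v b • An.X ^ d b := by
    rw [iot, map_sum]
    refine Finset.sum_congr rfl fun b _ => ?_
    rw [map_mul, map_pow]
    rfl
  rw [e, map_sum, map_sum]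
  funext a
  rw [Finset.sum_apply, Matrix.mulVec, dotProduct]
  refine Finset.sum_congr rfl fun b _ => ?_
  rw [Lmat_apply (R := R) h hD, map_smul, map_smul, Pi.smul_apply, smul_eq_mul, mul_comm]

theorem ev_wt (h : Bd π Q) (ht : t.Ok) (i : ℕ) {E : Type} [NormedCommRing E] [NormedAlgebra K E]
    [CompleteSpace E] {a : E} (ha : An.PB 4096 a) :
    An.ev a (wt π Q t i) = wtAt π Q (t.map (algebraMap K E)) i a := by
  have := fibdef_wtAt_map h (t.map (An.C : K →+* An K 4096)) i An.X
    (fun m => (fibdef_nu ht m).trans (by norm_num)) (fun m => (fibdef_nl ht m).trans (by norm_num))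
    (An.evH a ha) (fibdef_evH_cont ha) (fibdef_evH_smul ha)
  simpa only [An.evH_apply, fibdef_ev_X ha, Par.map, fibdef_ev_C ha, wt] using this

theorem ev_w0 (h : Bd π Q) (ht : t.Ok) {E : Type} [NormedCommRing E] [NormedAlgebra K E]
    [CompleteSpace E] {a : E} (ha : An.PB 4096 a) :
    An.ev a (w0 π Q t) = w0At π Q (t.map (algebraMap K E)) a := by
  have := fibdef_w0At_map h (t.map (An.C : K →+* An K 4096)) An.X
    (fun m => (fibdef_nu' ht m).trans (by norm_num)) (fun m => (fibdef_nl ht m).trans (by norm_num))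
    (An.evH a ha) (fibdef_evH_cont ha) (fibdef_evH_smul ha)
  simpa only [An.evH_apply, fibdef_ev_X ha, Par.map, fibdef_ev_C ha, w0] using this

omit [CompleteSpace K] [IsUltrametricDist K] [CharZero K] in
theorem fibdef_flip (hπ : π ≠ 0) {g x : An K 4096} (e : g = (-π⁻¹) • x) : x = -An.C π * g := by
  rw [e, ← map_neg, ← An.anb_smul, smul_smul, neg_mul_neg, mul_inv_cancel₀ hπ, one_smul]

/-- the intertwining relation -/
theorem Lop_dlA (h : Bd π Q) (ht : t.Ok) (f : An K R) :
    Lop R π Q t (dlA R (Pu (t.su Q)) (Pl (t.sl Q)) f) =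
      dlA 4096 (Pu t.u) (Pl t.l) (Aop R π Q t f) := by
  have hQ : (0 : ℤ) < Q := by exact_mod_cast (by have := h.two_le; omega : 0 < Q)
  have p1 : An.PB R (An.X + An.C 1 : An K R) := An.pb_X_add_C norm_one.le
  have p2 : An.PB 4096 (An.X + An.C 1 : An K 4096) := An.pb_X_add_C norm_one.le
  set y : ℕ → An K 4096 := fun i => An.C (Q : K) * An.X + An.C (i : K) with hy
  set gu : ℤ → Fin 4 → An K 4096 := fun κ m => gam π Q (t.ku m + κ) (An.C (t.u m) - An.X) with hgu
  set gl : ℤ → Fin 4 → An K 4096 := fun κ m => gam π Q (t.kl m + κ) (An.C (t.l m) + An.X) with hgl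
  set z : ℕ → An K 4096 := fun i =>
    An.C π ^ 4 * ((∏ m, gu (1 - i) m) * ∏ m, gl i m) * An.ev (y i) f with hz
  have hwt : ∀ i : ℕ, wt π Q t i = (∏ m, gu (-i) m) * ∏ m, gl i m := fun i => by
    simp only [wt, wtAt, Par.map, hgu, hgl, sub_eq_add_neg]
  have step : ∀ i ∈ range Q, wt π Q t i * An.ev (y i) (dlA R (Pu (t.su Q)) (Pl (t.sl Q)) f)
      = z i - z (i + 1) := by
    intro i hi
    have hi' : (i : ℤ) < Q := by exact_mod_cast mem_range.1 hi
    have py : An.PB R (y i) := fibdef_pb h i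
    have e1 : An.ev (y i) (An.X + An.C 1 : An K R) = y (i + 1) := by
      rw [map_add, fibdef_ev_X py, fibdef_ev_C py]
      simp only [hy, Nat.cast_add, Nat.cast_one, map_add, map_one, add_assoc]
    have e2 : ∀ m, (y i - An.C (t.su Q m)) * gu (-i) m = An.C π * gu (1 - i) m := fun m => by
      have := fibdef_flip h.pi_ne (gam_succ h (κ := t.ku m + -i) (by have := ht.ku m; omega)
        ((fibdef_nu ht m).trans (by norm_num)))
      simp only [hgu, hy, Par.su, map_add, map_mul, map_natCast, map_intCast]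
      rw [show t.ku m + (1 - (i : ℤ)) = t.ku m + -i + 1 by ring]
      push_cast at this
      linear_combination -this
    have e3 : ∀ m, (y i + An.C (t.sl Q m)) * gl i m = -An.C π * gl (i + 1 : ℕ) m := fun m => by
      have := fibdef_flip h.pi_ne (gam_succ h (κ := t.kl m + i) (by have := ht.kl m; omega)
        ((fibdef_nl ht m).trans (by norm_num)))
      simp only [hgl, hy, Par.sl, map_add, map_mul, map_natCast, map_intCast]
      rw [show t.kl m + ((i + 1 : ℕ) : ℤ) = t.kl m + i + 1 by push_cast; ring]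
      push_cast at this
      linear_combination this
    have e4 : aeval (y i) (Pu (t.su Q)) * ∏ m, gu (-i) m = An.C π ^ 4 * ∏ m, gu (1 - i) m := by
      simp only [Pu, map_prod, map_sub, aeval_X, aeval_C, fibdef_alg]
      rw [← Finset.prod_mul_distrib, Finset.prod_congr rfl fun m _ => e2 m,
        Finset.prod_mul_distrib]
      simp
    have e5 : aeval (y i) (Pl (t.sl Q)) * ∏ m, gl i m = An.C π ^ 4 * ∏ m, gl (i + 1 : ℕ) m := by
      simp only [Pl, map_prod, map_add, aeval_X, aeval_C, fibdef_alg]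
      rw [← Finset.prod_mul_distrib, Finset.prod_congr rfl fun m _ => e3 m,
        Finset.prod_mul_distrib]
      simp only [Finset.prod_const, Finset.card_univ, Fintype.card_fin]
      ring
    simp only [dlA, ContinuousLinearMap.sub_apply, ContinuousLinearMap.comp_apply,
      ContinuousLinearMap.mul_apply', map_sub]
    rw [An.ev_mul py, An.ev_mul py, An.ev_ofPoly py, An.ev_ofPoly py, (An.ev_ev p1 py f).2, e1,
      hwt]
    simp only [hz]
    rw [show (1 : ℤ) - ((i + 1 : ℕ) : ℤ) = -i by push_cast; ring]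
    linear_combination ((∏ m, gl i m) * An.ev (y i) f) * e4
      - ((∏ m, gu (-i) m) * An.ev (y (i + 1)) f) * e5
  have hy0 : (An.C (Q : K) * An.X + An.C (0 : K) : An K 4096) = y 0 := by
    simp only [hy, Nat.cast_zero]
  have py0 : An.PB R (y 0) := fibdef_pb h 0
  have f1 : An.ev (An.X + An.C 1 : An K 4096) (y 0) = y Q := by
    simp only [hy]
    rw [map_add, An.ev_mul p2, fibdef_ev_X p2, fibdef_ev_C p2, fibdef_ev_C p2]
    change An.C (Q : K) * (An.X + An.C 1) + An.C ((0 : ℕ) : K) = _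
    simp only [Nat.cast_zero, map_zero, map_one]
    ring
  have f2 : ∀ m, (An.X - An.C (t.u m)) * gam π Q (t.ku m + 1 - Q) (An.C (t.u m) + 1 - An.X)
      = An.C π * gu (1 - (0 : ℕ)) m := fun m => by
    have := fibdef_flip h.pi_ne (gam_add h (κ := t.ku m + 1 - Q) (by have := ht.ku m; omega)
      ((fibdef_nu ht m).trans (by norm_num)))
    simp only [hgu]
    rw [show t.ku m + (1 - ((0 : ℕ) : ℤ)) = t.ku m + 1 - Q + Q by push_cast; ring,
      add_sub_right_comm (An.C (t.u m))]
    linear_combination -this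
  have f3 : ∀ m, (An.X + An.C (t.l m)) * gam π Q (t.kl m) (An.C (t.l m) + (An.X + An.C 1))
      = -An.C π * gl Q m := fun m => by
    have := fibdef_flip h.pi_ne (gam_add h (κ := t.kl m) (by have := ht.kl m; omega)
      ((fibdef_nl ht m).trans (by norm_num)))
    simp only [hgl]
    rw [map_one, ← add_assoc]
    linear_combination this
  have f4 : An.ofPoly (Pu t.u) * w0 π Q t
      = An.C π ^ 4 * ((∏ m, gu (1 - (0 : ℕ)) m) * ∏ m, gl (0 : ℕ) m) := by
    have : (An.ofPoly (Pu t.u) : An K 4096) = ∏ m, (An.X - An.C (t.u m)) := by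
      simp only [Pu, map_prod, map_sub]
      rfl
    simp only [this, w0, w0At, Par.map]
    rw [← mul_assoc, ← Finset.prod_mul_distrib, Finset.prod_congr rfl fun m _ => f2 m,
      Finset.prod_mul_distrib]
    simp [hgl, mul_assoc]
  have f5 : An.ofPoly (Pl t.l) * An.ev (An.X + An.C 1 : An K 4096) (w0 π Q t)
      = An.C π ^ 4 * ((∏ m, gu (1 - Q) m) * ∏ m, gl Q m) := by
    have : (An.ofPoly (Pl t.l) : An K 4096) = ∏ m, (An.X + An.C (t.l m)) := by
      simp only [Pl, map_prod, map_add]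
      rfl
    rw [this, ev_w0 h ht p2]
    change _ * ((∏ m, gam π Q (t.ku m + 1 - Q) (An.C (t.u m) + 1 - (An.X + An.C 1))) *
      ∏ m, gam π Q (t.kl m) (An.C (t.l m) + (An.X + An.C 1))) = _
    rw [mul_left_comm, ← Finset.prod_mul_distrib, Finset.prod_congr rfl fun m _ => f3 m,
      Finset.prod_mul_distrib]
    have e : ∀ m, gam π Q (t.ku m + 1 - Q) (An.C (t.u m) + 1 - (An.X + An.C 1)) = gu (1 - Q) m :=
      fun m => by simp only [hgu, map_one, add_sub_add_right_eq_sub, add_sub_assoc (t.ku m)]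
    simp only [Finset.prod_const, Finset.card_univ, Fintype.card_fin, e]
    ring
  have lhs : Lop R π Q t (dlA R (Pu (t.su Q)) (Pl (t.sl Q)) f) = z 0 - z Q := by
    rw [← Finset.sum_range_sub', ← Finset.sum_congr rfl step]
    simp only [Lop, ContinuousLinearMap.sum_apply, ContinuousLinearMap.comp_apply,
      ContinuousLinearMap.mul_apply', hy]
  rw [lhs]
  simp only [dlA, Aop, ContinuousLinearMap.sub_apply, ContinuousLinearMap.comp_apply,
    ContinuousLinearMap.mul_apply']
  rw [hy0, An.ev_mul p2, (An.ev_ev py0 p2 f).2, f1, ← mul_assoc, ← mul_assoc, f4, f5]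

end Ops

end

end Pool.Agent.P.MP_9484ad_co
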