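import Pool.Agent.P.MP_9484ad_co.RH
import Pool.Agent.P.MP_9484ad_co.Diag
import Pool.Agent.P.MP_9484ad_co.SosFinal

/-! The degree-4 relaxation of the clique number of the Paley graph is of order `√p`. -/

namespace Pool.Agent.P.MP_9484ad_co

open Finset

theorem hard_prime (p : ℕ) [hp : Fact p.Prime] (hb : 10 ^ 5 ≤ p) (h4 : p % 4 = 1) :
    Hard (ZMod p) (562 * √p ^ 3) 562 := by
  let E := GaloisField p 2
  have : Fintype E := Fintype.ofFinite E
  have hE : Module.finrank (ZMod p) E = 2 := GaloisField.finrank p two_ne_zero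
  obtain ⟨ψ, H⟩ := rhin p hb h4 hE
  have hK : ringChar (ZMod p) ≠ 2 := by rw [ZMod.ringChar_zmod_n]; omega
  have h1 : IsSquare (-1 : ZMod p) := ZMod.exists_sq_eq_neg_one_iff.2 (by omega)
  have := hard_of_RHin hK h1 hE (by norm_num) H
  rw [ZMod.card] at this
  norm_num at this ⊢
  exact this

theorem paley_sos :
    ¬ (∃ ε : ℝ, 0 < ε ∧ ∃ C : ℝ, 0 < C ∧
      ∀ (p : ℕ) [NeZero p], p.Prime → p % 4 = 1 →
        ∀ y : Finset (ZMod p) → ℝ,
          y ∅ = 1 →
          (∀ S : Finset (ZMod p), S.card ≤ 4 →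
              (∃ a ∈ S, ∃ b ∈ S, a ≠ b ∧ ¬ IsSquare (a - b)) → y S = 0) →
          (∀ c : Finset (ZMod p) → ℝ, (∀ S : Finset (ZMod p), 2 < S.card → c S = 0) →
              0 ≤ ∑ S : Finset (ZMod p), ∑ T : Finset (ZMod p), c S * c T * y (S ∪ T)) →
          ∑ i : ZMod p, y {i} ≤ C * (p : ℝ) ^ ((1 : ℝ) / 2 - ε)) := by
  refine not_main_of_hard fun δ hδ => ⟨562, by norm_num, fun n => ?_⟩
  obtain ⟨p, hp, hlt, h4⟩ := Nat.exists_prime_gt_modEq_one (k := 4) (n + 10 ^ 5) (by norm_num)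
  have h4' : p % 4 = 1 := h4
  haveI : Fact p.Prime := ⟨hp⟩
  refine ⟨p, this, by omega, h4', fun x hx he => ?_⟩
  have h := hard_prime p (by omega) h4' x hx he
  have p1 : (1 : ℝ) ≤ p := by exact_mod_cast hp.pos
  have e : √p ^ 3 ≤ (p : ℝ) ^ (3 / 2 + δ) := by
    rw [Real.sqrt_eq_rpow, ← Real.rpow_natCast, ← Real.rpow_mul (by linarith)]
    exact Real.rpow_le_rpow_of_exponent_le p1 (by push_cast; linarith)
  have := mul_le_mul_of_nonneg_right e (nn_nonneg x)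
  nlinarith

end Pool.Agent.P.MP_9484ad_co
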