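import Pool.Agent.P.MP_9484ad_co.Ex

/-! Traces of nuclear operators on spaces with an absolutely convergent basis. -/

namespace Pool.Agent.P.MP_9484ad_co

open Finset

/-- a basis of `ℓ¹` type with weights `w` -/
structure L1B (K V : Type*) (I : Type) [NontriviallyNormedField K] [NormedAddCommGroup V]
    [NormedSpace K V] where
  e : I → V
  c : I → V →L[K] K
  w : I → ℝ
  C : ℝ
  w_pos : ∀ i, 0 < w i
  norm_e : ∀ i, ‖e i‖ ≤ w i
  summ : ∀ v, Summable fun i => ‖c i v‖ * w i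
  tsum_le : ∀ v, ∑' i, ‖c i v‖ * w i ≤ C * ‖v‖
  hasSum : ∀ v, HasSum (fun i => c i v • e i) v
  ce_self : ∀ i, c i (e i) = 1
  ce_ne : ∀ i j, i ≠ j → c i (e j) = 0

variable {K : Type*} [NontriviallyNormedField K] [CompleteSpace K]
  {U V W : Type*} [NormedAddCommGroup U] [NormedSpace K U] [CompleteSpace U]
  [NormedAddCommGroup V] [NormedSpace K V] [CompleteSpace V]
  [NormedAddCommGroup W] [NormedSpace K W] [CompleteSpace W] {I J : Type}

noncomputable def L1B.tr (b : L1B K V I) (T : V →L[K] V) : K := ∑' i, b.c i (T (b.e i))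

def Nuc (T : V →L[K] W) : Prop :=
  ∃ (J : Type) (φ : J → V →L[K] K) (w : J → W), (Summable fun j => ‖φ j‖ * ‖w j‖) ∧
    ∀ v, HasSum (fun j => φ j v • w j) (T v)

omit [CompleteSpace K] [CompleteSpace V] in
theorem L1B.norm_c_le (b : L1B K V I) (i : I) : ‖b.c i‖ ≤ |b.C| / b.w i := by
  have hw := b.w_pos i
  refine ContinuousLinearMap.opNorm_le_bound _ (by positivity) fun v => ?_
  rw [div_mul_eq_mul_div, le_div_iff₀ hw]
  exact ((b.summ v).le_tsum i fun j _ => mul_nonneg (norm_nonneg _) (b.w_pos j).le).trans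
    ((b.tsum_le v).trans (mul_le_mul_of_nonneg_right (le_abs_self _) (norm_nonneg _)))

omit [CompleteSpace V] in
/-- the diagonal of a nuclear operator is summable, and its sum can be read off from any
nuclear representation -/
theorem L1B.hasSum_diag (b : L1B K V I) {T : V →L[K] V} {φ : J → V →L[K] K} {w : J → V}
    (h1 : Summable fun j => ‖φ j‖ * ‖w j‖) (h2 : ∀ v, HasSum (fun j => φ j v • w j) (T v)) :
    ∃ s, HasSum (fun i => b.c i (T (b.e i))) s ∧ HasSum (fun j => φ j (w j)) s := by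
  have hn : ∀ j i, 0 ≤ ‖φ j‖ * (‖b.c i (w j)‖ * b.w i) := fun j i =>
    mul_nonneg (norm_nonneg _) (mul_nonneg (norm_nonneg _) (b.w_pos i).le)
  have hb : Summable fun p : J × I => ‖φ p.1‖ * (‖b.c p.2 (w p.1)‖ * b.w p.2) := by
    have h3 : ∀ j, Summable fun i => ‖φ j‖ * (‖b.c i (w j)‖ * b.w i) :=
      fun j => (b.summ (w j)).mul_left ‖φ j‖
    have h4 : Summable fun j => ∑' i, ‖φ j‖ * (‖b.c i (w j)‖ * b.w i) := by
      refine Summable.of_nonneg_of_le (fun j => tsum_nonneg (hn j)) (fun j => ?_)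
        (h1.mul_left b.C)
      rw [tsum_mul_left, mul_left_comm]
      exact mul_le_mul_of_nonneg_left (b.tsum_le _) (norm_nonneg _)
    exact (summable_prod_of_nonneg
      (f := fun p : J × I => ‖φ p.1‖ * (‖b.c p.2 (w p.1)‖ * b.w p.2))
      fun p => hn p.1 p.2).2 ⟨h3, h4⟩
  have hs : Summable fun p : J × I => φ p.1 (b.e p.2) * b.c p.2 (w p.1) := by
    refine Summable.of_norm_bounded hb fun p => ?_
    rw [norm_mul, mul_comm ‖b.c p.2 (w p.1)‖ (b.w p.2), ← mul_assoc]
    refine mul_le_mul_of_nonneg_right (((φ p.1).le_opNorm _).trans ?_) (norm_nonneg _)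
    exact mul_le_mul_of_nonneg_left (b.norm_e _) (norm_nonneg _)
  obtain ⟨s, hs⟩ := hs
  refine ⟨s, ?_, ?_⟩
  · have hs' : HasSum (fun p : I × J => φ p.2 (b.e p.1) * b.c p.1 (w p.2)) s :=
      (Equiv.prodComm I J).hasSum_iff.2 hs
    refine hs'.prod_fiberwise fun i => ?_
    simpa using (h2 (b.e i)).mapL (b.c i)
  · refine hs.prod_fiberwise fun j => ?_
    simpa [mul_comm] using (b.hasSum (w j)).mapL (φ j)

omit [CompleteSpace V] in
theorem L1B.tr_eq (b : L1B K V I) {T : V →L[K] V} {φ : J → V →L[K] K} {w : J → V}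
    (h1 : Summable fun j => ‖φ j‖ * ‖w j‖) (h2 : ∀ v, HasSum (fun j => φ j v • w j) (T v)) :
    b.tr T = ∑' j, φ j (w j) := by
  obtain ⟨s, hs, hs'⟩ := b.hasSum_diag h1 h2
  rw [L1B.tr, hs.tsum_eq, hs'.tsum_eq]

omit [CompleteSpace V] in
theorem L1B.summable_diag (b : L1B K V I) {T : V →L[K] V} (h : Nuc T) :
    Summable fun i => b.c i (T (b.e i)) := by
  obtain ⟨J, φ, w, h1, h2⟩ := h
  obtain ⟨s, hs, -⟩ := b.hasSum_diag h1 h2
  exact hs.summable

omit [CompleteSpace K] [CompleteSpace U] [CompleteSpace V] [CompleteSpace W] in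
theorem nuc_left {T : V →L[K] W} {φ : J → V →L[K] K} {w : J → W}
    (h1 : Summable fun j => ‖φ j‖ * ‖w j‖) (h2 : ∀ v, HasSum (fun j => φ j v • w j) (T v))
    (S : W →L[K] U) : (Summable fun j => ‖φ j‖ * ‖S (w j)‖) ∧
      ∀ v, HasSum (fun j => φ j v • S (w j)) ((S ∘L T) v) := by
  refine ⟨Summable.of_nonneg_of_le (fun j => by positivity) (fun j => ?_) (h1.mul_left ‖S‖),
    fun v => by simpa using (h2 v).mapL S⟩
  rw [mul_left_comm]
  exact mul_le_mul_of_nonneg_left (S.le_opNorm _) (norm_nonneg _)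

omit [CompleteSpace K] [CompleteSpace U] [CompleteSpace V] [CompleteSpace W] in
theorem nuc_right {T : V →L[K] W} {φ : J → V →L[K] K} {w : J → W}
    (h1 : Summable fun j => ‖φ j‖ * ‖w j‖) (h2 : ∀ v, HasSum (fun j => φ j v • w j) (T v))
    (S : U →L[K] V) : (Summable fun j => ‖φ j ∘L S‖ * ‖w j‖) ∧
      ∀ v, HasSum (fun j => (φ j ∘L S) v • w j) ((T ∘L S) v) := by
  refine ⟨Summable.of_nonneg_of_le (fun j => by positivity) (fun j => ?_) (h1.mul_left ‖S‖),
    fun v => h2 (S v)⟩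
  rw [← mul_assoc, mul_comm ‖S‖]
  exact mul_le_mul_of_nonneg_right ((φ j).opNorm_comp_le S) (norm_nonneg _)

omit [CompleteSpace K] [CompleteSpace V] in
theorem nuc_fin {ι : Type} [Fintype ι] [DecidableEq ι] (T : V →L[K] (ι → K)) (v : V) :
    HasSum (fun i : ι => (ContinuousLinearMap.proj (R := K) (φ := fun _ : ι => K) i ∘L T) v •
      (Pi.single i 1 : ι → K)) (T v) := by
  have h := hasSum_fintype fun i : ι =>
    (ContinuousLinearMap.proj (R := K) (φ := fun _ : ι => K) i ∘L T) v • (Pi.single i 1 : ι → K)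
  convert h
  ext j
  simp [Pi.single_apply]

theorem Nuc.of_cols (b : L1B K V I) {T : V →L[K] W} (h : Summable fun i => ‖T (b.e i)‖ / b.w i) :
    Nuc T := by
  refine ⟨I, b.c, fun i => T (b.e i), Summable.of_nonneg_of_le (fun i => by positivity)
    (fun i => ?_) (h.mul_left |b.C|), fun v => by simpa using (b.hasSum v).mapL T⟩
  rw [← mul_div_assoc, ← div_mul_eq_mul_div]
  exact mul_le_mul_of_nonneg_right (b.norm_c_le i) (norm_nonneg _)

theorem Nuc.comp_left {T : V →L[K] W} (h : Nuc T) (S : W →L[K] U) : Nuc (S ∘L T) := by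
  obtain ⟨J, φ, w, h1, h2⟩ := h
  exact ⟨J, φ, fun j => S (w j), nuc_left h1 h2 S⟩

theorem Nuc.comp_right {T : V →L[K] W} (h : Nuc T) (S : U →L[K] V) : Nuc (T ∘L S) := by
  obtain ⟨J, φ, w, h1, h2⟩ := h
  exact ⟨J, fun j => φ j ∘L S, w, nuc_right h1 h2 S⟩

theorem Nuc.add {S T : V →L[K] W} (hS : Nuc S) (hT : Nuc T) : Nuc (S + T) := by
  obtain ⟨J, φ, w, h1, h2⟩ := hS
  obtain ⟨J', φ', w', h1', h2'⟩ := hT
  exact ⟨J ⊕ J', Sum.elim φ φ', Sum.elim w w', Summable.sum _ h1 h1',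
    fun v => HasSum.sum (h2 v) (h2' v)⟩

theorem Nuc.sum {α : Type*} (s : Finset α) {T : α → V →L[K] W} (h : ∀ a ∈ s, Nuc (T a)) :
    Nuc (∑ a ∈ s, T a) := by
  classical
  induction s using Finset.induction_on with
  | empty =>
    exact ⟨Empty, fun j => j.elim, fun j => j.elim, summable_empty, fun v => by simp⟩
  | insert a s ha ih =>
    rw [sum_insert ha]
    exact (h a (mem_insert_self _ _)).add (ih fun x hx => h x (mem_insert_of_mem hx))

theorem Nuc.of_fin {ι : Type} [Fintype ι] (T : V →L[K] (ι → K)) : Nuc T := by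
  classical
  exact ⟨ι, _, _, (hasSum_fintype _).summable, nuc_fin T⟩

theorem L1B.tr_add (b : L1B K V I) {S T : V →L[K] V} (hS : Nuc S) (hT : Nuc T) :
    b.tr (S + T) = b.tr S + b.tr T := by
  rw [L1B.tr, L1B.tr, L1B.tr, ← (b.summable_diag hS).tsum_add (b.summable_diag hT)]
  simp

theorem L1B.tr_sum (b : L1B K V I) {α : Type*} (s : Finset α) {T : α → V →L[K] V}
    (h : ∀ a ∈ s, Nuc (T a)) : b.tr (∑ a ∈ s, T a) = ∑ a ∈ s, b.tr (T a) := by
  classical
  induction s using Finset.induction_on with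
  | empty => simp [L1B.tr]
  | insert a s ha ih =>
    have h' : ∀ x ∈ s, Nuc (T x) := fun x hx => h x (mem_insert_of_mem hx)
    rw [sum_insert ha, sum_insert ha, b.tr_add (h a (mem_insert_self _ _)) (Nuc.sum s h'), ih h']

theorem L1B.tr_comm (b : L1B K V I) (b' : L1B K W J) {T : V →L[K] W} (h : Nuc T) (S : W →L[K] V) :
    b.tr (S ∘L T) = b'.tr (T ∘L S) := by
  obtain ⟨J', φ, w, h1, h2⟩ := h
  rw [b.tr_eq (nuc_left h1 h2 S).1 (nuc_left h1 h2 S).2,
    b'.tr_eq (nuc_right h1 h2 S).1 (nuc_right h1 h2 S).2]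
  rfl

theorem L1B.tr_fin (b : L1B K V I) {ι : Type} [Fintype ι] [DecidableEq ι] (T : V →L[K] (ι → K))
    (S : (ι → K) →L[K] V) : b.tr (S ∘L T) = ∑ i, T (S (Pi.single i 1)) i := by
  have h := nuc_left (hasSum_fintype _).summable (nuc_fin T) S
  rw [b.tr_eq h.1 h.2, tsum_fintype]
  rfl

section NucB

open Filter Topology

omit [CompleteSpace K] [CompleteSpace V] in
theorem nucb_coef (b : L1B K V I) (i : I) (v : V) : ‖b.c i v‖ * b.w i ≤ |b.C| * ‖v‖ :=
  ((b.summ v).le_tsum i fun j _ => mul_nonneg (norm_nonneg _) (b.w_pos j).le).trans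
    ((b.tsum_le v).trans (mul_le_mul_of_nonneg_right (le_abs_self _) (norm_nonneg _)))

/-- projection on finitely many coordinates -/
noncomputable def nucb_P (b : L1B K V I) (s : Finset I) : V →L[K] V :=
  ∑ i ∈ s, (b.c i).smulRight (b.e i)

omit [CompleteSpace K] [CompleteSpace V] in
theorem nucb_P_apply (b : L1B K V I) (s : Finset I) (v : V) :
    nucb_P b s v = ∑ i ∈ s, b.c i v • b.e i := by
  simp [nucb_P]

omit [CompleteSpace K] [CompleteSpace V] in
theorem nucb_P_norm (b : L1B K V I) (s : Finset I) : ‖nucb_P b s‖ ≤ |b.C| := by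
  refine ContinuousLinearMap.opNorm_le_bound _ (abs_nonneg _) fun v => ?_
  rw [nucb_P_apply]
  refine (norm_sum_le _ _).trans (le_trans (sum_le_sum fun i _ => ?_)
    (((b.summ v).sum_le_tsum s fun j _ => mul_nonneg (norm_nonneg _) (b.w_pos j).le).trans
      ((b.tsum_le v).trans (mul_le_mul_of_nonneg_right (le_abs_self _) (norm_nonneg _)))))
  rw [norm_smul]
  exact mul_le_mul_of_nonneg_left (b.norm_e i) (norm_nonneg _)

omit [CompleteSpace K] [CompleteSpace V] in
theorem nucb_P_mem (b : L1B K V I) {s : Finset I} {k : I} (hk : k ∈ s) :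
    nucb_P b s (b.e k) = b.e k := by
  rw [nucb_P_apply, sum_eq_single_of_mem k hk, b.ce_self, one_smul]
  intro i _ hi
  rw [b.ce_ne i k hi, zero_smul]

omit [CompleteSpace K] [CompleteSpace V] in
theorem nucb_P_not_mem (b : L1B K V I) {s : Finset I} {k : I} (hk : k ∉ s) :
    nucb_P b s (b.e k) = 0 := by
  rw [nucb_P_apply]
  refine sum_eq_zero fun i hi => ?_
  rw [b.ce_ne i k (fun h => hk (h ▸ hi)), zero_smul]

omit [CompleteSpace K] [CompleteSpace V] in
theorem nucb_pow_norm (b : L1B K V I) (T : V →L[K] V) (s : Finset I) (r : ℕ) (v : V) :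
    ‖((T * nucb_P b s) ^ r) v‖ ≤ (‖T‖ * |b.C|) ^ r * ‖v‖ := by
  induction r with
  | zero => simp
  | succ r ih =>
    rw [pow_succ', mul_apply_eq_comp, pow_succ', mul_assoc]
    refine ((T * nucb_P b s).le_opNorm _).trans (mul_le_mul ?_ ih (norm_nonneg _) (by positivity))
    exact (norm_mul_le _ _).trans (mul_le_mul_of_nonneg_left (nucb_P_norm b s) (norm_nonneg _))

omit [CompleteSpace K] [CompleteSpace V] in
theorem nucb_pow_tendsto (b : L1B K V I) (T : V →L[K] V) (r : ℕ) (v : V) :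
    Tendsto (fun s : Finset I => ((T * nucb_P b s) ^ r) v) atTop (𝓝 ((T ^ r) v)) := by
  induction r with
  | zero => simp
  | succ r ih =>
    have h1 : Tendsto (fun s : Finset I => nucb_P b s ((T ^ r) v)) atTop (𝓝 ((T ^ r) v)) := by
      simp only [nucb_P_apply]
      exact b.hasSum _
    have h2 : Tendsto (fun s : Finset I => nucb_P b s (((T * nucb_P b s) ^ r) v - (T ^ r) v))
        atTop (𝓝 0) := by
      refine squeeze_zero_norm (fun s => (nucb_P b s).le_of_opNorm_le (nucb_P_norm b s) _) ?_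
      have := (tendsto_iff_norm_sub_tendsto_zero.1 ih).const_mul |b.C|
      rwa [mul_zero] at this
    have h3 := (T.continuous.tendsto _).comp (h2.add h1)
    rw [zero_add] at h3
    rw [pow_succ', mul_apply_eq_comp]
    refine h3.congr fun s => ?_
    simp [pow_succ']

theorem nucb_sum_pow (h : I → ℕ) (hh : ∀ n, {i | h i = n}.Finite) {N : ℕ}
    (hN : ∀ n, {i | h i = n}.ncard ≤ N) {ρ : ℝ} (hρ0 : 0 ≤ ρ) (hρ : ρ < 1) (s : Finset I) :
    ∑ i ∈ s, ρ ^ h i ≤ N * (1 - ρ)⁻¹ := by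
  rw [sum_comp (fun n => ρ ^ n) h, ← tsum_geometric_of_lt_one hρ0 hρ]
  refine le_trans (sum_le_sum (g := fun n => N * ρ ^ n) fun n _ => ?_) ?_
  · rw [nsmul_eq_mul]
    refine mul_le_mul_of_nonneg_right (Nat.cast_le.2 (le_trans ?_ (hN n))) (by positivity)
    rw [← Set.ncard_coe_finset]
    exact Set.ncard_le_ncard (fun i hi => (mem_filter.1 hi).2) (hh n)
  · rw [← mul_sum]
    exact mul_le_mul_of_nonneg_left ((summable_geometric_of_lt_one hρ0 hρ).sum_le_tsum _
      fun n _ => by positivity) (by positivity)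

theorem nucb_summable (h : I → ℕ) (hh : ∀ n, {i | h i = n}.Finite) {N : ℕ}
    (hN : ∀ n, {i | h i = n}.ncard ≤ N) {ρ : ℝ} (hρ0 : 0 ≤ ρ) (hρ : ρ < 1) :
    Summable fun i => ρ ^ h i :=
  summable_of_sum_le (fun _ => by positivity) (nucb_sum_pow h hh hN hρ0 hρ)

/-- the finite sections of the matrix of `T` -/
noncomputable def nucb_M (b : L1B K V I) (T : V →L[K] V) (s : Finset I) : Matrix s s K :=
  Matrix.of fun i k => b.c i (T (b.e k))

omit [CompleteSpace K] [CompleteSpace V] in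
theorem nucb_M_pow [DecidableEq I] (b : L1B K V I) (T : V →L[K] V) (s : Finset I) (r : ℕ)
    (i k : s) : (nucb_M b T s ^ r) i k = b.c i (((T * nucb_P b s) ^ r) (b.e k)) := by
  induction r generalizing i with
  | zero =>
    rw [pow_zero, pow_zero, one_apply_eq_self, Matrix.one_apply]
    split_ifs with hik
    · rw [hik, b.ce_self]
    · rw [b.ce_ne _ _ fun e => hik (Subtype.ext e)]
  | succ r ih =>
    rw [pow_succ', pow_succ', Matrix.mul_apply, mul_apply_eq_comp,
      mul_apply_eq_comp, nucb_P_apply, map_sum, map_sum, ← sum_coe_sort s]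
    refine sum_congr rfl fun j _ => ?_
    rw [ih, map_smul, map_smul, smul_eq_mul, mul_comm]
    rfl

omit [CompleteSpace V] in
theorem nucb_trace_tendsto [DecidableEq I] (b : L1B K V I) (T : V →L[K] V) {u : I → ℝ}
    (hu : Summable u) (hT : ∀ i, ‖T (b.e i)‖ ≤ u i * b.w i) (r : ℕ) :
    Tendsto (fun s : Finset I => (nucb_M b T s ^ (r + 1)).trace) atTop
      (𝓝 (b.tr (T ^ (r + 1)))) := by
  have e : ∀ s : Finset I, (nucb_M b T s ^ (r + 1)).trace =
      ∑' i, b.c i (((T * nucb_P b s) ^ (r + 1)) (b.e i)) := by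
    intro s
    rw [tsum_eq_sum (s := s), ← sum_coe_sort s]
    · exact sum_congr rfl fun i _ => nucb_M_pow b T s (r + 1) i i
    · intro i hi
      rw [pow_succ, mul_apply_eq_comp, mul_apply_eq_comp,
        nucb_P_not_mem b hi, map_zero, map_zero, map_zero]
  simp only [e]
  refine tendsto_tsum_of_dominated_convergence (hu.mul_left (|b.C| * (‖T‖ * |b.C|) ^ r))
    (fun i => ((b.c i).continuous.tendsto _).comp (nucb_pow_tendsto b T (r + 1) _))
    (Eventually.of_forall fun s i => ?_)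
  refine le_of_mul_le_mul_right ((nucb_coef b i _).trans ?_) (b.w_pos i)
  rw [mul_assoc, mul_assoc, pow_succ, mul_apply_eq_comp]
  refine mul_le_mul_of_nonneg_left ((nucb_pow_norm b T s r _).trans
    (mul_le_mul_of_nonneg_left ?_ (by positivity))) (abs_nonneg _)
  rw [mul_apply_eq_comp]
  by_cases hi : i ∈ s
  · rw [nucb_P_mem b hi]
    exact hT i
  · rw [nucb_P_not_mem b hi, map_zero, norm_zero]
    exact (norm_nonneg _).trans (hT i)

omit [CompleteSpace K] in
theorem nucb_exC_tendsto {α : Type*} {l : Filter α} {t : α → ℕ → K} {t0 : ℕ → K}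
    (h : ∀ r, Tendsto (fun a => t a (r + 1)) l (𝓝 (t0 (r + 1)))) (n : ℕ) :
    Tendsto (fun a => exC (t a) n) l (𝓝 (exC t0 n)) := by
  induction n using Nat.strong_induction_on with
  | _ n ih =>
    rcases n with _ | n
    · simp only [exC_zero]
      exact tendsto_const_nhds
    · simp only [exC]
      exact (tendsto_finsetSum _ fun (r : Fin (n + 1)) _ =>
        (h r).mul (ih (n - r) (by omega))).const_mul _

omit [CompleteSpace K] in
theorem nucb_det [IsUltrametricDist K] {ι : Type*} [Fintype ι] [DecidableEq ι] (M : Matrix ι ι K)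
    {u w : ι → ℝ} (hu : ∀ k, 0 ≤ u k) (hw : ∀ k, 0 < w k)
    (hM : ∀ i k, ‖M i k‖ * w i ≤ u k * w k) : ‖M.det‖ ≤ ∏ k, u k := by
  rw [Matrix.det_apply']
  refine IsUltrametricDist.norm_sum_le_of_forall_le_of_nonneg (prod_nonneg fun k _ => hu k)
    fun σ _ => ?_
  have h1 : ‖((Equiv.Perm.sign σ : ℤ) : K)‖ = 1 := by
    rcases Int.units_eq_one_or (Equiv.Perm.sign σ) with h | h <;> simp [h]
  rw [norm_mul, h1, one_mul, norm_prod]
  refine le_of_mul_le_mul_right ?_ (prod_pos (s := univ) fun k _ => hw k)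
  rw [← prod_mul_distrib (f := u), ← Equiv.prod_comp σ w, ← prod_mul_distrib]
  exact prod_le_prod (fun k _ => mul_nonneg (norm_nonneg _) (hw _).le) fun k _ => hM _ _

omit [CompleteSpace K] in
theorem nucb_coeff [IsUltrametricDist K] {ι : Type*} [Fintype ι] [DecidableEq ι]
    (M : Matrix ι ι K) {u w : ι → ℝ} (hu : ∀ k, 0 ≤ u k) (hw : ∀ k, 0 < w k)
    (hM : ∀ i k, ‖M i k‖ * w i ≤ u k * w k) {θ : ℝ} (hθ : 0 < θ) (n : ℕ) :
    ‖M.charpolyRev.coeff n‖ ≤ Real.exp ((∑ k, u k) / θ) * θ ^ n := by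
  have e : M.charpolyRev =
      Matrix.det (1 + (Polynomial.X : Polynomial K) • (-M).map Polynomial.C) := by
    simp only [Matrix.charpolyRev, sub_eq_add_neg]
    congr 2
    rw [Matrix.map_neg Polynomial.C (map_neg Polynomial.C) M, smul_neg]
  rw [e, Matrix.coeff_det_one_add_X_smul_eq_sum_minors]
  refine IsUltrametricDist.norm_sum_le_of_forall_le_of_nonneg (by positivity) fun J hJ => ?_
  refine (nucb_det _ (u := fun k : J => u k) (w := fun k : J => w k) (fun k => hu k)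
    (fun k => hw k) fun i k => by simpa using hM i k).trans ?_
  rw [prod_coe_sort J u, ← (mem_powersetCard.1 hJ).2]
  calc ∏ k ∈ J, u k ≤ ∏ k ∈ J, (Real.exp (u k / θ) * θ) := by
        refine prod_le_prod (fun k _ => hu k) fun k _ => ?_
        rw [← div_le_iff₀ hθ]
        linarith [Real.add_one_le_exp (u k / θ)]
    _ = Real.exp ((∑ k ∈ J, u k) / θ) * θ ^ J.card := by
        rw [prod_mul_distrib, prod_const, ← Real.exp_sum, sum_div]
    _ ≤ _ := by
        have := sum_le_sum_of_subset_of_nonneg (subset_univ J) fun k _ _ => hu k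
        gcongr

omit [CompleteSpace K] [CompleteSpace V] in
/-- functionals on a finite-dimensional subspace extend -/
theorem nucb_extend (b : L1B K V I) (Z : Submodule K V) [FiniteDimensional K Z]
    (l : Z →ₗ[K] K) : ∃ φ : V →L[K] K, ∀ z : Z, φ z = l z := by
  have h : Submodule.span K (Set.range fun i => (b.c i : V →ₗ[K] K) ∘ₗ Z.subtype) = ⊤ := by
    refine Submodule.span_eq_top_of_ne_zero fun z hz => ?_
    by_contra hc
    push Not at hc
    have h1 := b.hasSum z
    have h2 : (fun i => b.c i z • b.e i) = fun _ => 0 := by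
      funext i
      have : b.c i z = 0 := hc _ ⟨i, rfl⟩
      rw [this, zero_smul]
    rw [h2] at h1
    exact hz (Subtype.ext (h1.unique hasSum_zero))
  have hl : l ∈ Submodule.span K (Set.range fun i => (b.c i : V →ₗ[K] K) ∘ₗ Z.subtype) := by
    rw [h]
    trivial
  induction hl using Submodule.span_induction with
  | mem x hx =>
    obtain ⟨i, rfl⟩ := hx
    exact ⟨b.c i, fun _ => rfl⟩
  | zero => exact ⟨0, fun _ => rfl⟩
  | add x y _ _ hx hy =>
    obtain ⟨φ, hφ⟩ := hx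
    obtain ⟨ψ, hψ⟩ := hy
    exact ⟨φ + ψ, fun z => by simp [hφ, hψ]⟩
  | smul a x _ hx =>
    obtain ⟨φ, hφ⟩ := hx
    exact ⟨a • φ, fun z => by simp [hφ]⟩

end NucB

variable [IsUltrametricDist K] [CharZero K]

omit [CompleteSpace V] in
/-- the Fredholm determinant is entire -/
theorem L1B.dec (b : L1B K V I) (T : V →L[K] V) (h : I → ℕ) (hh : ∀ n, {i | h i = n}.Finite)
    {N : ℕ} (hN : ∀ n, {i | h i = n}.ncard ≤ N) {C ρ : ℝ} (hρ0 : 0 ≤ ρ) (hρ : ρ < 1)
    (hT : ∀ i, ‖T (b.e i)‖ ≤ C * ρ ^ h i * b.w i) {θ : ℝ} (hθ : 0 < θ) :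
    Dec θ fun r => -b.tr (T ^ r) := by
  classical
  refine ⟨Real.exp (|b.C| * |C| * (N * (1 - ρ)⁻¹) / θ), fun n => ?_⟩
  have h1 := nucb_exC_tendsto (t := fun s r => -(nucb_M b T s ^ r).trace)
    (t0 := fun r => -b.tr (T ^ r)) (fun r => (nucb_trace_tendsto b T
      ((nucb_summable h hh hN hρ0 hρ).mul_left C) hT r).neg) n
  refine le_of_tendsto' h1.norm fun s => ?_
  rw [exC_trace]
  refine (nucb_coeff _ (u := fun k : s => |b.C| * |C| * ρ ^ h k) (w := fun k : s => b.w k)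
    (fun k => by positivity) (fun k => b.w_pos k) (fun i k => ?_) hθ n).trans ?_
  · refine (nucb_coef b i _).trans ?_
    rw [mul_assoc, mul_assoc]
    refine mul_le_mul_of_nonneg_left ((hT k).trans ?_) (abs_nonneg _)
    rw [mul_assoc]
    exact mul_le_mul_of_nonneg_right (le_abs_self _) (mul_nonneg (by positivity) (b.w_pos k).le)
  · rw [← mul_sum, sum_coe_sort s fun k => ρ ^ h k]
    gcongr
    exact nucb_sum_pow h hh hN hρ0 hρ s

/-- the same after removing a finite-dimensional invariant subspace -/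
theorem L1B.dec_sub (b : L1B K V I) (T : V →L[K] V) (h : I → ℕ) (hh : ∀ n, {i | h i = n}.Finite)
    {N : ℕ} (hN : ∀ n, {i | h i = n}.ncard ≤ N) {C ρ : ℝ} (hρ0 : 0 ≤ ρ) (hρ : ρ < 1)
    (hT : ∀ i, ‖T (b.e i)‖ ≤ C * ρ ^ h i * b.w i) (Z : Submodule K V) [FiniteDimensional K Z]
    (hZ : ∀ z ∈ Z, T z ∈ Z) {θ : ℝ} (hθ : 0 < θ) :
    Dec θ fun r => -b.tr (T ^ r) + LinearMap.trace K Z (((T : V →ₗ[K] V).restrict hZ) ^ r) := by
  let β := Module.finBasis K Z
  choose φ hφ using fun j => nucb_extend b Z (β.coord j)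
  let A : V →L[K] (Fin (Module.finrank K Z) → K) := ContinuousLinearMap.pi φ
  let B : (Fin (Module.finrank K Z) → K) →L[K] V := Z.subtypeL ∘L (β.equivFunL.symm : _ →L[K] Z)
  have hA : ∀ z : Z, A z = β.equivFun z := fun z => funext fun j => hφ j z
  have hB : ∀ x, B x = (β.equivFun.symm x : Z) := fun x => rfl
  have hBA : ∀ z ∈ Z, B (A z) = z := fun z hz => by
    rw [hB, hA ⟨z, hz⟩, LinearEquiv.symm_apply_apply]
  set Q : V →L[K] V := 1 - B ∘L A with hQ
  have hQa : ∀ v, Q v = v - B (A v) := fun v => rfl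
  have hQT : ∀ r, (Q * T) ^ (r + 1) = Q * T ^ (r + 1) := by
    intro r
    induction r with
    | zero => simp
    | succ r ih =>
      rw [pow_succ', ih, pow_succ' T (r + 1)]
      refine ContinuousLinearMap.ext fun v => ?_
      simp only [mul_apply_eq_comp]
      have hz : T (B (A ((T ^ (r + 1)) v))) ∈ Z := hZ _ (by rw [hB]; exact Subtype.prop _)
      rw [hQa ((T ^ (r + 1)) v), map_sub, map_sub, hQa (T (B _)), hBA _ hz, sub_self, sub_zero]
  have hN0 : Nuc T := Nuc.of_cols b (Summable.of_nonneg_of_le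
    (fun i => div_nonneg (norm_nonneg _) (b.w_pos i).le)
    (fun i => (div_le_iff₀ (b.w_pos i)).2 (hT i)) ((nucb_summable h hh hN hρ0 hρ).mul_left C))
  obtain ⟨a, ha⟩ := b.dec (Q * T) h hh hN (C := ‖Q‖ * C) hρ0 hρ (fun i => by
    rw [mul_assoc, mul_assoc, ← mul_assoc C]
    exact (Q.le_opNorm _).trans (mul_le_mul_of_nonneg_left (hT i) (norm_nonneg _))) hθ
  refine ⟨a, fun n => ?_⟩
  rw [exC_congr (t := fun r => -b.tr ((Q * T) ^ r))]
  · exact ha n
  intro r hr
  obtain ⟨r, rfl⟩ : ∃ m, r = m + 1 := ⟨r - 1, by omega⟩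
  have hNr : Nuc (T ^ (r + 1)) := by
    rw [pow_succ]
    exact hN0.comp_left _
  have e1 : T ^ (r + 1) = B ∘L (A ∘L T ^ (r + 1)) + Q ∘L T ^ (r + 1) := by
    refine ContinuousLinearMap.ext fun v => ?_
    simp [hQa]
  have e2 := b.tr_add ((hNr.comp_left A).comp_left B) (hNr.comp_left Q)
  rw [← e1, b.tr_fin] at e2
  have e3 : LinearMap.trace K Z (((T : V →ₗ[K] V).restrict hZ) ^ (r + 1)) =
      ∑ j, (A ∘L T ^ (r + 1)) (B (Pi.single j 1)) j := by
    rw [LinearMap.trace_eq_matrix_trace K β]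
    refine sum_congr rfl fun j _ => ?_
    have e4 : B (Pi.single j 1) = β j := by
      rw [hB]
      simp [Pi.single_apply]
    have e5 : (T ^ (r + 1)) (β j) =
        ((((T : V →ₗ[K] V).restrict hZ) ^ (r + 1)) (β j) : Z) := by
      rw [Module.End.pow_restrict, LinearMap.coe_restrict_apply]
      rw [← ContinuousLinearMap.toLinearMap_pow]
      rfl
    rw [Matrix.diag_apply, LinearMap.toMatrix_apply, e4, ContinuousLinearMap.comp_apply, e5, hA]
    rfl
  rw [hQT, e2, e3]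
  change _ = -b.tr (Q ∘L T ^ (r + 1))
  ring

end Pool.Agent.P.MP_9484ad_co
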