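import Pool.Agent.P.MP_9484ad_co.Chain

/-! Square-root cancellation in the three families over the prime field. -/

namespace Pool.Agent.P.MP_9484ad_co

open Finset

open Cardinal in
theorem rh_card_le {X Y : Type} [TopologicalSpace Y] [T2Space Y] [FrechetUrysohnSpace Y]
    (f : X → Y) (hf : DenseRange f) (hX : Cardinal.mk X ≤ 𝔠) : Cardinal.mk Y ≤ 𝔠 := by
  have h : ∀ y : Y, ∃ u : ℕ → X, Filter.Tendsto (fun n => f (u n)) Filter.atTop (nhds y) := by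
    intro y
    obtain ⟨x, hx, hl⟩ := mem_closure_iff_seq_limit.1 (hf y)
    choose u hu using hx
    exact ⟨u, by simpa only [hu] using hl⟩
  choose g hg using h
  have hinj : Function.Injective g := fun y y' hy =>
    tendsto_nhds_unique (hg y) (by rw [hy]; exact hg y')
  calc Cardinal.mk Y ≤ Cardinal.mk (ℕ → X) := mk_le_of_injective hinj
    _ = Cardinal.mk X ^ ℵ₀ := by simp
    _ ≤ 𝔠 ^ ℵ₀ := power_le_power_right hX
    _ = 𝔠 := continuum_power_aleph0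

open Cardinal in
theorem rh_card (p : ℕ) [Fact p.Prime] : Cardinal.mk ℂ_[p] = 𝔠 := by
  refine le_antisymm ?_ (continuum_le_cardinal_of_nontriviallyNormedField ℂ_[p])
  have h1 : Cardinal.mk ℚ_[p] ≤ 𝔠 := rh_card_le _ (Padic.denseRange_ratCast p)
    (mk_le_aleph0.trans aleph0_le_continuum)
  have h2 : Cardinal.mk (PadicAlgCl p) ≤ 𝔠 :=
    (Algebra.IsAlgebraic.cardinalMk_le_max ℚ_[p] (PadicAlgCl p)).trans
      (max_le h1 aleph0_le_continuum)
  exact rh_card_le _ (UniformSpace.Completion.denseRange_coe (α := PadicAlgCl p)) h2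

theorem exists_ctx (p : ℕ) [Fact p.Prime] (hp : 10 ^ 5 ≤ p) :
    ∃ (π : ℂ_[p]) (_ : ℂ_[p] →+* ℂ), Ctx ℂ_[p] p π := by
  obtain ⟨π, hπ⟩ := IsAlgClosed.exists_pow_nat_eq (-(p : ℂ_[p])) (n := p - 1) (by omega)
  obtain ⟨e⟩ := IsAlgClosed.ringEquiv_of_equiv_of_charZero (K := ℂ_[p]) (L := ℂ)
    (by rw [rh_card]; exact Cardinal.aleph0_lt_continuum)
    (Cardinal.eq.1 (by rw [rh_card, Cardinal.mk_complex]))
  refine ⟨π, e.toRingHom, Fact.out, hp, ?_, hπ⟩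
  have h := PadicComplex.norm_extends' p (p : ℚ_[p])
  rw [Padic.norm_p] at h
  rw [← h]
  simp

section Aux

variable {K : Type} [NontriviallyNormedField K] [CompleteSpace K] [IsUltrametricDist K]
  [CharZero K] [IsAlgClosed K] {π : K} {p : ℕ}

/-- the three families in terms of exponents, `p = 4 t + 1` -/
def rh_Case (t s k : ℤ) : Prop :=
  (k = 0 ∧ (s ≡ 0 [ZMOD 4 * t] ∨ s ≡ 2 * t [ZMOD 4 * t])) ∨
    ((k = t ∨ k = -t) ∧ s ≡ 2 * t [ZMOD 4 * t])

theorem rh_adm {F : Type} [Field F] [Fintype F] {ω : F →*₀ K} (h : IsTeich ω) (φ : K →+* ℂ)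
    {t : ℤ} (ht : (Fintype.card F : ℤ) - 1 = 4 * t) {s : ℤ} {κ : MulChar F ℂ}
    (ha : Adm (mc φ ω s) κ) : ∃ k, κ = mc φ ω k ∧ rh_Case t s k := by
  have hchi : chi F = mc φ ω (2 * t) := (mc_half h (by rw [ht]; ring)).symm
  have hone : (1 : MulChar F ℂ) = mc φ ω 0 := (mc_zero φ ω).symm
  rcases ha with ⟨h1, h2⟩ | ⟨h1, h2⟩
  · refine ⟨0, h1.trans hone, Or.inl ⟨rfl, ?_⟩⟩
    rcases h2 with h2 | h2
    · rw [hone, mc_eq_iff h, ht] at h2; exact Or.inl h2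
    · rw [hchi, mc_eq_iff h, ht] at h2; exact Or.inr h2
  · rw [hchi, mc_eq_iff h, ht] at h2
    obtain ⟨k, rfl⟩ := mc_surj (φ := φ) h κ
    rw [← mc_add, hchi, mc_eq_iff h, ht] at h1
    obtain ⟨c, hc⟩ := h1.dvd
    rcases Int.even_or_odd' c with ⟨d, hd | hd⟩
    · refine ⟨t, ?_, Or.inr ⟨Or.inl rfl, h2⟩⟩
      rw [mc_eq_iff h, ht, Int.modEq_iff_dvd]
      exact ⟨d, by rw [hd] at hc; linarith⟩
    · refine ⟨-t, ?_, Or.inr ⟨Or.inr rfl, h2⟩⟩
      rw [mc_eq_iff h, ht, Int.modEq_iff_dvd]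
      exact ⟨d, by rw [hd] at hc; linarith⟩

theorem rh_rb (c : Ctx K p π) (φ : K →+* ℂ) {t : ℤ} (ht : (p : ℤ) - 1 = 4 * t) {s k : ℤ}
    (h : rh_Case t s k) (x y : ℤ) (hxy : x + y = Nr p 4 * s) :
    RB φ π (p ^ 4) ![x, y, Nr p 4 * (2 * t), Nr p 4 * (2 * t)]
      ![0, 0, Nr p 4 * k, Nr p 4 * k] 4 := by
  have hp : (p : ℤ) = 4 * t + 1 := by linarith
  set M : ℤ := 1 + 6 * t + 16 * t ^ 2 + 16 * t ^ 3 with hM
  have hN : Nr p 4 = 4 * M := by
    simp only [Nr, Finset.sum_range_succ, Finset.sum_range_zero]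
    rw [hp, hM]; ring
  have hw : 16 * (M * t) = (p : ℤ) ^ 4 - 1 := by rw [hp, hM]; ring
  have h8 : Nr p 4 * (2 * t) = 8 * (M * t) := by rw [hN]; ring
  have hmod : ∀ a : ℤ, s ≡ a [ZMOD 4 * t] → x + y ≡ 4 * M * a [ZMOD 16 * (M * t)] := by
    intro a ha
    obtain ⟨d, hd⟩ := ha.dvd
    rw [Int.modEq_iff_dvd, hxy, hN]
    exact ⟨d, by linear_combination 4 * M * hd⟩
  have hmod8 : s ≡ 2 * t [ZMOD 4 * t] → x + y ≡ 8 * (M * t) [ZMOD 16 * (M * t)] := fun ha => by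
    have := hmod _ ha
    rwa [show 4 * M * (2 * t) = 8 * (M * t) by ring] at this
  rw [h8]
  rcases h with ⟨rfl, h | h⟩ | ⟨h1, h⟩
  · rw [mul_zero]
    exact rb_bowtie c (by norm_num) hw φ x y (by simpa using hmod 0 h)
  · rw [mul_zero]
    exact rb_fan c (by norm_num) hw φ x y (hmod8 h)
  · rcases h1 with rfl | rfl
    · rw [show Nr p 4 * k = 1 * (4 * (M * k)) by rw [hN]; ring]
      exact rb_wheel c (by norm_num) hw φ x y (hmod8 h) (Or.inl rfl)
    · rw [show Nr p 4 * -t = -1 * (4 * (M * t)) by rw [hN]; ring]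
      exact rb_wheel c (by norm_num) hw φ x y (hmod8 h) (Or.inr rfl)

theorem rh_g2 {t s k : ℤ} (ht : 0 < t) (h : rh_Case t s k) (m : Fin 4) :
    ¬ 4 * t ∣ 2 * t + (![0, 0, k, k] : Fin 4 → ℤ) m := by
  have h0 : ¬ 4 * t ∣ 2 * t + 0 := fun hd => by
    have := Int.le_of_dvd (by omega) hd
    omega
  have hk : ¬ 4 * t ∣ 2 * t + k := fun hd => by
    rcases h with ⟨rfl, -⟩ | ⟨rfl | rfl, -⟩
    · exact h0 hd
    · have := Int.le_of_dvd (by omega) hd
      omega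
    · have := Int.le_of_dvd (by omega) hd
      omega
  fin_cases m
  · exact h0
  · exact h0
  · exact hk
  · exact hk

theorem rh_hs {t s k : ℤ} (h : rh_Case t s k) : 4 * t ∣ 2 * (s + 4 * t + 2 * k) := by
  rcases h with ⟨rfl, h | h⟩ | ⟨rfl | rfl, h⟩
  · obtain ⟨d, hd⟩ := h.dvd
    exact ⟨2 - 2 * d, by linear_combination -2 * hd⟩
  · obtain ⟨d, hd⟩ := h.dvd
    exact ⟨3 - 2 * d, by linear_combination -2 * hd⟩
  · obtain ⟨d, hd⟩ := h.dvd
    exact ⟨4 - 2 * d, by linear_combination -2 * hd⟩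
  · obtain ⟨d, hd⟩ := h.dvd
    exact ⟨2 - 2 * d, by linear_combination -2 * hd⟩

theorem rh_final (hp : 1 ≤ p) {z : ℂ} (hz : ‖z‖ ≤ 4 * √p ^ 7) :
    ‖((p : ℂ) - 1) * z‖ ≤ 4 * √p ^ 9 := by
  have h1 : (1 : ℝ) ≤ p := by exact_mod_cast hp
  have h2 : ‖(p : ℂ) - 1‖ ≤ √p ^ 2 := by
    rw [Real.sq_sqrt (by positivity), show (p : ℂ) - 1 = ((p - 1 : ℝ) : ℂ) by push_cast; ring,
      Complex.norm_real, Real.norm_eq_abs, abs_of_nonneg (by linarith)]
    linarith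
  calc ‖((p : ℂ) - 1) * z‖ = ‖(p : ℂ) - 1‖ * ‖z‖ := norm_mul _ _
    _ ≤ √p ^ 2 * (4 * √p ^ 7) := by gcongr
    _ = 4 * √p ^ 9 := by ring

end Aux

theorem rhin_of_ctx {K : Type} [NontriviallyNormedField K] [CompleteSpace K] [IsUltrametricDist K]
    [CharZero K] [IsAlgClosed K] {π : K} {p : ℕ} (c : Ctx K p π) (φ : K →+* ℂ) (h4 : p % 4 = 1)
    {F E : Type} [Field F] [Fintype F] [Field E] [Fintype E] [Algebra F E]
    (hF : Fintype.card F = p) (h2 : Module.finrank F E = 2) :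
    ∃ ψ : AddChar F ℂ, RHin E ψ 4 := by
  have : Fact p.Prime := ⟨c.prime⟩
  have : CharP F p := charP_of_card_eq_prime hF
  have : CharP E p := charP_of_injective_algebraMap (algebraMap F E).injective p
  have hbig := c.big
  obtain ⟨ω, hω⟩ := exists_teich c E
  have hω0 : IsTeich (resT F ω) := hω.resT
  obtain ⟨ψ, hprim, hψ⟩ := exists_psi c φ hω0
  obtain ⟨t, ht, ht0⟩ : ∃ t : ℤ, (p : ℤ) - 1 = 4 * t ∧ 0 < t := ⟨(p / 4 : ℕ), by omega, by omega⟩
  have htF : (Fintype.card F : ℤ) - 1 = 4 * t := by rw [hF]; exact ht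
  have hchi : chi F = mc φ (resT F ω) (2 * t) := (mc_half hω0 (by rw [htF]; ring)).symm
  have hone : (1 : MulChar F ℂ) = mc φ (resT F ω) 0 := (mc_zero φ _).symm
  have hl : ∀ k : ℤ, (![1, 1, mc φ (resT F ω) k, mc φ (resT F ω) k] : Fin 4 → MulChar F ℂ) =
      fun m => mc φ (resT F ω) ((![0, 0, k, k] : Fin 4 → ℤ) m) := fun k => by
    funext m
    fin_cases m
    · exact hone
    · exact hone
    · rfl
    · rfl
  have hkl : ∀ k : ℤ, (fun m => Nr p 4 * (![0, 0, k, k] : Fin 4 → ℤ) m) =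
      ![0, 0, Nr p 4 * k, Nr p 4 * k] := fun k => by
    funext m
    fin_cases m <;> simp
  refine ⟨ψ, hprim, fun a b κ hadm => ?_, fun Ξ κ hadm => ?_⟩
  · obtain ⟨x, rfl⟩ := mc_surj (φ := φ) hω0 a
    obtain ⟨y, rfl⟩ := mc_surj (φ := φ) hω0 b
    rw [← mc_add] at hadm
    obtain ⟨k, rfl, hk⟩ := rh_adm hω0 φ htF hadm
    have hu : (![mc φ (resT F ω) x, mc φ (resT F ω) y, chi F, chi F] : Fin 4 → MulChar F ℂ) =
        fun m => mc φ (resT F ω) ((![x, y, 2 * t, 2 * t] : Fin 4 → ℤ) m) := by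
      funext m
      fin_cases m
      · rfl
      · rfl
      · exact hchi
      · exact hchi
    rw [hu, hl, hypS_mc hω0 hψ, hF]
    refine rh_final (by omega) (descent_split c c.bd_p φ _ _ ?_ ?_ (d := 4) (by norm_num) (A := 4) ?_)
    · intro m
      rw [ht]
      exact rh_g2 ht0 hk m
    · rw [ht]
      convert rh_hs hk using 2
      simp [Fin.sum_univ_four]
      ring
    · have := rh_rb c φ ht hk (Nr p 4 * x) (Nr p 4 * y) (by ring)
      rw [hkl]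
      convert this using 1
      funext m
      fin_cases m <;> simp
  · obtain ⟨n, rfl⟩ := mc_surj (φ := φ) hω Ξ
    rw [res_mc] at hadm
    obtain ⟨k, rfl, hk⟩ := rh_adm hω0 φ htF hadm
    have hu : (![chi F, chi F] : Fin 2 → MulChar F ℂ) =
        fun m => mc φ (resT F ω) ((![2 * t, 2 * t] : Fin 2 → ℤ) m) := by
      funext m
      fin_cases m
      · exact hchi
      · exact hchi
    rw [hu, hl, hypT_mc c h2 hω hψ, hF]
    refine rh_final (by omega)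
      (descent_twist c c.bd_p φ _ _ _ ?_ ?_ (d := 2) (by norm_num) (A := 4) ?_)
    · intro m
      rw [ht]
      exact rh_g2 ht0 hk m
    · rw [ht]
      convert rh_hs hk using 2
      simp [Fin.sum_univ_four]
      ring
    · have := rh_rb c φ ht hk (Nr (p ^ 2) 2 * n) (Nr (p ^ 2) 2 * (p * n)) (by
        simp only [Nr, Finset.sum_range_succ, Finset.sum_range_zero]
        push_cast
        ring)
      rw [show 2 * 2 = 4 from rfl, hkl]
      exact this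

theorem rhin (p : ℕ) [Fact p.Prime] (hp : 10 ^ 5 ≤ p) (h4 : p % 4 = 1) {E : Type} [Field E]
    [Fintype E] [Algebra (ZMod p) E] (h2 : Module.finrank (ZMod p) E = 2) :
    ∃ ψ : AddChar (ZMod p) ℂ, RHin E ψ 4 := by
  obtain ⟨π, φ, c⟩ := exists_ctx p hp
  exact rhin_of_ctx c φ h4 (ZMod.card p) h2

end Pool.Agent.P.MP_9484ad_co
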