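import Pool.Agent.P.MP_9484ad_co.Ex

/-! The invariant subspace of the large eigenvalues: the abstract part. -/

namespace Pool.Agent.P.MP_9484ad_co

open Finset Polynomial

section Alg

variable {K : Type*} [Field K] {V U : Type*} [AddCommGroup V] [Module K V] [AddCommGroup U]
  [Module K U]

theorem ranka_pow {T : V →ₗ[K] V} {S : U →ₗ[K] U} {π : V →ₗ[K] U} (h : ∀ v, π (T v) = S (π v))
    (r : ℕ) (v : V) : π ((T ^ r) v) = (S ^ r) (π v) := by
  induction r with
  | zero => rfl
  | succ r ih => rw [pow_succ', pow_succ', Module.End.mul_apply, Module.End.mul_apply, h, ih]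

theorem ranka_aeval {T : V →ₗ[K] V} {S : U →ₗ[K] U} {π : V →ₗ[K] U} (h : ∀ v, π (T v) = S (π v))
    (f : K[X]) (v : V) : π (aeval T f v) = aeval S f (π v) := by
  induction f using Polynomial.induction_on' with
  | add f g hf hg => simp only [map_add, LinearMap.add_apply, hf, hg]
  | monomial n a =>
    simp only [aeval_monomial, Module.End.mul_apply, Module.algebraMap_end_apply, map_smul,
      ranka_pow h]

theorem ranka_trace_equiv {T : V →ₗ[K] V} {S : U →ₗ[K] U} (e : V ≃ₗ[K] U)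
    (h : ∀ v, e (T v) = S (e v)) (r : ℕ) :
    LinearMap.trace K U (S ^ r) = LinearMap.trace K V (T ^ r) := by
  rw [← LinearMap.trace_conj' (T ^ r) e]
  congr 1
  ext u
  rw [LinearEquiv.conj_apply_apply]
  exact ((ranka_pow (π := e.toLinearMap) h r (e.symm u)).trans (by simp)).symm

theorem ranka_prodMap_pow (T : V →ₗ[K] V) (S : U →ₗ[K] U) (r : ℕ) :
    T.prodMap S ^ r = (T ^ r).prodMap (S ^ r) := by
  induction r with
  | zero => rfl
  | succ r ih => rw [pow_succ, ih, LinearMap.prodMap_mul, ← pow_succ, ← pow_succ]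

theorem ranka_mem_of_eval {s : Multiset K} {a : K}
    (h : eval a (s.map fun b => X - C b).prod = 0) : a ∈ s := by
  rw [eval_multiset_prod, Multiset.prod_eq_zero_iff, Multiset.map_map, Multiset.mem_map] at h
  obtain ⟨b, hb, h⟩ := h
  have : a = b := by simpa [sub_eq_zero] using h
  exact this ▸ hb

theorem ranka_eigen {T : V →ₗ[K] V} {s : Multiset K} {a : K} {v : V} (hv : v ≠ 0)
    (h1 : T v = a • v) (h2 : aeval T (s.map fun b => X - C b).prod v = 0) : a ∈ s := by
  rw [Module.End.aeval_apply_of_hasEigenvector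
    (Module.End.hasEigenvector_iff.2 ⟨Module.End.mem_eigenspace_iff.2 h1, hv⟩)] at h2
  exact ranka_mem_of_eval ((smul_eq_zero.1 h2).resolve_right hv)

theorem ranka_bijOn {T : V →ₗ[K] V} {N : Set V} (s : Multiset K)
    (h : ∀ a ∈ s, Set.BijOn (fun v => T v - a • v) N N) :
    Set.BijOn (aeval T (s.map fun b => X - C b).prod) N N := by
  induction s using Multiset.induction_on with
  | empty => exact (Set.bijOn_id N).congr fun v _ => by simp
  | cons a s ih =>
    rw [Multiset.map_cons, Multiset.prod_cons, map_mul]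
    refine ((h a (Multiset.mem_cons_self a s)).comp
      (ih fun b hb => h b (Multiset.mem_cons_of_mem hb))).congr fun v _ => ?_
    simp [Module.algebraMap_end_apply]

theorem ranka_ker_stable (T : V →ₗ[K] V) (f : K[X]) :
    ∀ v ∈ LinearMap.ker (aeval T f), T v ∈ LinearMap.ker (aeval T f) := fun v hv => by
  rw [LinearMap.mem_ker, ← ranka_aeval (π := T) (fun _ => rfl), LinearMap.mem_ker.1 hv, map_zero]

end Alg

variable {K : Type*} [NontriviallyNormedField K] [IsUltrametricDist K]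

theorem ranka_norm_sum (s : Multiset K) {B : ℝ} (hB : 0 ≤ B) (h : ∀ z ∈ s, ‖z‖ ≤ B) (r : ℕ) :
    ‖(s.map (· ^ r)).sum‖ ≤ B ^ r := by
  induction s using Multiset.induction_on with
  | empty => simpa using pow_nonneg hB r
  | cons a s ih =>
    rw [Multiset.map_cons, Multiset.sum_cons]
    refine (IsUltrametricDist.norm_add_le_max _ _).trans
      (max_le ?_ (ih fun z hz => h z (Multiset.mem_cons_of_mem hz)))
    rw [norm_pow]
    exact pow_le_pow_left₀ (norm_nonneg _) (h a (Multiset.mem_cons_self a s)) r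

variable [CharZero K] [IsAlgClosed K]

theorem ranka_norm_trace {U : Type*} [AddCommGroup U] [Module K U] [FiniteDimensional K U]
    (S : U →ₗ[K] U) {B : ℝ} (hB : 0 ≤ B) (h : ∀ (a : K) (u : U), u ≠ 0 → S u = a • u → ‖a‖ ≤ B)
    (r : ℕ) : ‖LinearMap.trace K U (S ^ r)‖ ≤ B ^ r := by
  let b := Module.finBasis K U
  rw [LinearMap.trace_eq_matrix_trace K b, ← LinearMap.toMatrix_pow, trace_pow_eq,
    LinearMap.charpoly_toMatrix]
  refine ranka_norm_sum _ hB (fun z hz => ?_) r
  obtain ⟨u, hu⟩ := ((Module.End.hasEigenvalue_iff_isRoot_charpoly S z).2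
    (isRoot_of_mem_roots hz)).exists_hasEigenvector
  exact h z u hu.2 hu.apply_eq_smul

theorem ranka_matrix_trace {ι : Type*} [Fintype ι] [DecidableEq ι] (M : Matrix ι ι K) :
    ∃ B : ℝ, 0 ≤ B ∧ ∀ r, ‖(M ^ r).trace‖ ≤ B ^ r := by
  have h0 : ∀ x ∈ M.charpoly.roots.map (‖·‖), 0 ≤ x := fun x hx => by
    obtain ⟨y, _, rfl⟩ := Multiset.mem_map.1 hx
    exact norm_nonneg y
  refine ⟨_, Multiset.sum_nonneg h0, fun r => ?_⟩
  rw [trace_pow_eq]
  exact ranka_norm_sum _ (Multiset.sum_nonneg h0)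
    (fun z hz => Multiset.single_le_sum h0 _ (Multiset.mem_map_of_mem _ hz)) r

/-- the abstract lemma -/
theorem ranka_alg {V U : Type*} [AddCommGroup V] [Module K V] [AddCommGroup U] [Module K U]
    [FiniteDimensional K U] (T : V →ₗ[K] V) (S : U →ₗ[K] U) (π : V →ₗ[K] U)
    (hπ : Function.Surjective π) (hc : ∀ v, π (T v) = S (π v)) {θ : ℝ} (hθ : 0 ≤ θ)
    (hb : ∀ a : K, θ < ‖a‖ →
      Set.BijOn (fun v => T v - a • v) (LinearMap.ker π) (LinearMap.ker π)) :
    ∃ (W : Submodule K V) (_ : FiniteDimensional K W) (hW : ∀ v ∈ W, T v ∈ W),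
      (∀ v ∈ W, ∃ v' ∈ W, T v' = v) ∧
      ∀ r, ‖LinearMap.trace K U (S ^ r) - LinearMap.trace K W (T.restrict hW ^ r)‖ ≤ θ ^ r := by
  classical
  set s := S.charpoly.roots.filter fun a => θ < ‖a‖ with hs
  set t := S.charpoly.roots.filter fun a => ¬ θ < ‖a‖ with ht
  set g := (s.map fun b => X - C b).prod with hg
  set h := (t.map fun b => X - C b).prod with hh
  have hgh : g * h = S.charpoly := by
    rw [hg, hh, ← Multiset.prod_add, ← Multiset.map_add, hs, ht, Multiset.filter_add_not]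
    exact ((IsAlgClosed.splits S.charpoly).eq_prod_roots_of_monic S.charpoly_monic).symm
  have hco : IsCoprime g h := (isCoprime_iff_aeval_ne_zero_of_isAlgClosed K K g h).2 fun a => by
    by_contra h1
    rw [not_or, not_not, not_not, coe_aeval_eq_eval] at h1
    exact (Multiset.mem_filter.1 (ranka_mem_of_eval h1.2)).2
      (Multiset.mem_filter.1 (ranka_mem_of_eval h1.1)).2
  have hbij : Set.BijOn (aeval T g) (LinearMap.ker π) (LinearMap.ker π) :=
    ranka_bijOn s fun a ha => hb a (Multiset.mem_filter.1 ha).2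
  set W := LinearMap.ker (aeval T g)
  set Z := LinearMap.ker (aeval S h)
  have hW := ranka_ker_stable T g
  have hZ := ranka_ker_stable S h
  have hinj : ∀ w ∈ W, π w = 0 → w = 0 := fun w hw h0 =>
    hbij.injOn h0 (LinearMap.ker π).zero_mem ((LinearMap.mem_ker.1 hw).trans (map_zero _).symm)
  let Φ : (W × Z) →ₗ[K] U := (π ∘ₗ W.subtype).coprod Z.subtype
  have hΦ : ∀ x : W × Z, Φ x = π x.1 + x.2 := fun _ => rfl
  have hΦb : Function.Bijective Φ := by
    refine ⟨(injective_iff_map_eq_zero Φ).2 fun x hx => ?_, fun u => ?_⟩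
    · have h1 : π x.1 = -x.2 := eq_neg_of_add_eq_zero_left hx
      have h2 : π x.1 = 0 := by
        refine Submodule.disjoint_def.1 (disjoint_ker_aeval_of_isCoprime S hco) _ ?_ ?_
        · rw [LinearMap.mem_ker, ← ranka_aeval hc, LinearMap.mem_ker.1 x.1.2, map_zero]
        · rw [h1]
          exact Z.neg_mem x.2.2
      exact Prod.ext (Subtype.ext (hinj _ x.1.2 h2)) (Subtype.ext (neg_eq_zero.1 (h1 ▸ h2)))
    · have h1 : u ∈ LinearMap.ker (aeval S g) ⊔ Z := by
        rw [sup_ker_aeval_eq_ker_aeval_mul_of_coprime S hco, hgh, LinearMap.aeval_self_charpoly]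
        exact LinearMap.mem_ker.2 rfl
      obtain ⟨u1, h2, z, hz, rfl⟩ := Submodule.mem_sup.1 h1
      obtain ⟨v, rfl⟩ := hπ u1
      obtain ⟨n, hn, h3⟩ := hbij.surjOn (show aeval T g v ∈ LinearMap.ker π from
        LinearMap.mem_ker.2 ((ranka_aeval hc g v).trans h2))
      refine ⟨(⟨v - n, LinearMap.mem_ker.2 ?_⟩, ⟨z, hz⟩), ?_⟩
      · rw [map_sub, h3, sub_self]
      · rw [hΦ, map_sub, LinearMap.mem_ker.1 hn, sub_zero]
  have hfin : FiniteDimensional K W := FiniteDimensional.of_injective (π ∘ₗ W.subtype)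
    ((injective_iff_map_eq_zero _).2 fun w hw => Subtype.ext (hinj w w.2 hw))
  refine ⟨W, hfin, hW, fun v hv => ?_, fun r => ?_⟩
  · have h1 : Function.Injective (T.restrict hW) := (injective_iff_map_eq_zero _).2 fun w hw => by
      by_contra h2
      have h3 := ranka_eigen (a := 0) (fun h4 => h2 (Subtype.ext h4))
        ((congrArg Subtype.val hw).trans (zero_smul K _).symm) w.2
      exact absurd (Multiset.mem_filter.1 h3).2 (by simpa using hθ)
    obtain ⟨w, hw⟩ := LinearMap.injective_iff_surjective.1 h1 ⟨v, hv⟩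
    exact ⟨w, w.2, congrArg Subtype.val hw⟩
  · rw [ranka_trace_equiv (T := (T.restrict hW).prodMap (S.restrict hZ))
      (LinearEquiv.ofBijective Φ hΦb) (fun x => by
        rw [LinearEquiv.ofBijective_apply, LinearEquiv.ofBijective_apply, hΦ, hΦ, map_add, ← hc]
        rfl), ranka_prodMap_pow, LinearMap.trace_prodMap', add_sub_cancel_left]
    refine ranka_norm_trace _ hθ (fun a z hz h1 => ?_) r
    exact not_lt.1 (Multiset.mem_filter.1 (ranka_eigen (fun h4 => hz (Subtype.ext h4))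
      (congrArg Subtype.val h1) z.2)).2

omit [IsUltrametricDist K] [CharZero K] [IsAlgClosed K] in
/-- Neumann series on a closed invariant subspace -/
theorem ranka_neumann {V : Type*} [NormedAddCommGroup V] [NormedSpace K V] [CompleteSpace V]
    (T : V →L[K] V) (N : Submodule K V) (hN : IsClosed (N : Set V)) (hT : ∀ v ∈ N, T v ∈ N)
    {c : ℝ} (h0 : 0 ≤ c) (hc : ∀ v ∈ N, ‖T v‖ ≤ c * ‖v‖) {a : K} (ha : c < ‖a‖) :
    Set.BijOn (fun v => T v - a • v) N N := by
  have := hN.completeSpace_coe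
  have h1 : ‖T.restrict hT‖ ≤ c :=
    ContinuousLinearMap.opNorm_le_bound _ h0 fun v => hc v v.2
  have h2 : IsUnit (algebraMap K (N →L[K] N) a - T.restrict hT) :=
    spectrum.mem_resolventSet_of_norm_lt_mul (lt_of_le_of_lt ((mul_le_of_le_one_right
      (norm_nonneg _) ContinuousLinearMap.norm_id_le).trans h1) ha)
  have h3 := ContinuousLinearMap.isUnit_iff_bijective.1 h2.neg
  have h4 : ∀ v : N, ((-(algebraMap K (N →L[K] N) a - T.restrict hT)) v : V) = T v - a • v :=
    fun v => by simp [Algebra.algebraMap_eq_smul_one]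
  refine ⟨fun v hv => N.sub_mem (hT v hv) (N.smul_mem a hv), fun v hv w hw h => ?_, fun v hv => ?_⟩
  · exact congrArg Subtype.val (h3.1 (a₁ := ⟨v, hv⟩) (a₂ := ⟨w, hw⟩)
      (Subtype.ext ((h4 ⟨v, hv⟩).trans (Eq.trans h (h4 ⟨w, hw⟩).symm))))
  · obtain ⟨w, hw⟩ := h3.2 ⟨v, hv⟩
    exact ⟨w, w.2, (h4 w).symm.trans (congrArg Subtype.val hw)⟩

end Pool.Agent.P.MP_9484ad_co
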