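import Pool.Agent.P.MP_9484ad_co.FamDef
import Pool.Agent.P.MP_9484ad_co.RankAux

/-! The series attached to a family is entire. -/

namespace Pool.Agent.P.MP_9484ad_co

open Finset Polynomial

noncomputable section

variable {K : Type} [NontriviallyNormedField K] [CompleteSpace K] [IsUltrametricDist K] [CharZero K]
  [IsAlgClosed K] {ι : Type} [Fintype ι] [DecidableEq ι] {p q : ℕ}

section RankA

omit [IsUltrametricDist K] [CharZero K] [IsAlgClosed K]

theorem ranka_co_ev {Q : K} (hQ : ‖Q‖ ≤ 1) (f : An K 2) (j : ℕ) :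
    An.co j (An.ev (An.C Q * An.X + An.C 0 : An K 2) f) = Q ^ j * An.co j f := by
  obtain ⟨c, hc⟩ : An.PB 2 (An.C Q * An.X + An.C 0 : An K 2) :=
    An.PB.of_le ((norm_aff_le Q 0).trans (by rw [norm_zero]; push_cast; linarith))
  have h1 := (An.hasSum_lift hc f).mapL (An.coL j)
  refine h1.unique ?_
  have h2 : ∀ n, An.coL j (An.co n f • (An.C Q * An.X + An.C 0 : An K 2) ^ n) =
      if n = j then Q ^ j * An.co j f else 0 := fun n => by
    rw [map_smul, map_zero, add_zero, mul_pow, ← map_pow, An.coL_apply, An.co_C_mul_X_pow]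
    split_ifs with h
    · rw [h, smul_eq_mul, mul_comm]
    · exact smul_zero _
  simp only [h2]
  exact hasSum_ite_eq j _

theorem ranka_norm_ev {Q : K} (hQ : ‖Q‖ ≤ 1) {f : An K 2} {N : ℕ} (hf : ∀ n < N, An.co n f = 0) :
    ‖An.ev (An.C Q * An.X + An.C 0 : An K 2) f‖ ≤ ‖Q‖ ^ N * ‖f‖ := by
  rw [An.norm_def, An.norm_def f, ← tsum_mul_left]
  refine (An.summable _).tsum_le_tsum (fun n => ?_) ((An.summable f).mul_left _)
  rw [ranka_co_ev hQ, norm_mul, norm_pow, mul_assoc]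
  rcases lt_or_ge n N with h | h
  · simp [hf n h]
  · exact mul_le_mul_of_nonneg_right (pow_le_pow_of_le_one (norm_nonneg _) hQ h) (by positivity)

theorem ranka_co_brM (M : Matrix ι ι (An K 2)) {Q : K} (hQ : ‖Q‖ ≤ 1) {v : ι → An K 2} {n : ℕ}
    (hv : ∀ a, ∀ m < n, An.co m (v a) = 0) (a : ι) :
    An.co n (brM M Q 0 v a) = Q ^ n * (evM 0 M).mulVec (fun b => An.co n (v b)) a := by
  rw [brM_apply, Matrix.mulVec, Matrix.mulVec, dotProduct, dotProduct, An.co_sum, mul_sum]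
  refine sum_congr rfl fun b _ => ?_
  rw [An.co_mul, sum_eq_single (0, n), ranka_co_ev hQ, evM, Matrix.map_apply, An.ev_zero,
    mul_left_comm]
  · intro x hx h
    have h1 := mem_antidiagonal.1 hx
    rw [ranka_co_ev hQ, hv b x.2 (lt_of_not_ge fun h2 => h (Prod.ext (by omega) (by omega))),
      mul_zero, mul_zero]
  · simp

theorem ranka_van (M : Matrix ι ι (An K 2)) {Q : K} (hQ : ‖Q‖ ≤ 1) {v : ι → An K 2} {n : ℕ}
    (hv : ∀ a, ∀ m < n, An.co m (v a) = 0) : ∀ a, ∀ m < n, An.co m (brM M Q 0 v a) = 0 := by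
  intro a m hm
  rw [ranka_co_brM M hQ fun b k hk => hv b k (hk.trans hm), funext fun b => hv b m hm]
  simp [← Pi.zero_def]

theorem ranka_co_pow (M : Matrix ι ι (An K 2)) {Q : K} (hQ : ‖Q‖ ≤ 1) {v : ι → An K 2} {n : ℕ}
    (hv : ∀ a, ∀ m < n, An.co m (v a) = 0) (r : ℕ) :
    (∀ a, ∀ m < n,
      An.co m (((brM M Q 0 : (ι → An K 2) →ₗ[K] (ι → An K 2)) ^ r) v a) = 0) ∧
    (fun a => An.co n (((brM M Q 0 : (ι → An K 2) →ₗ[K] (ι → An K 2)) ^ r) v a)) =
      (Q ^ r) ^ n • (evM 0 M ^ r).mulVec fun b => An.co n (v b) := by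
  induction r with
  | zero => exact ⟨hv, by simp⟩
  | succ r ih =>
    rw [pow_succ', Module.End.mul_apply]
    refine ⟨ranka_van M hQ ih.1, funext fun a => (ranka_co_brM M hQ ih.1 a).trans ?_⟩
    rw [ih.2, Matrix.mulVec_smul, Matrix.mulVec_mulVec, ← pow_succ', pow_succ' Q, mul_pow,
      mul_smul]
    rfl

end RankA

/-- the large eigenvalues of `v ↦ M v (Q s)` live on a finite-dimensional invariant subspace -/
theorem exists_big (hp : p.Prime) (hn : ‖(p : K)‖ = (p : ℝ)⁻¹) (M : Matrix ι ι (An K 2)) {Q : K}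
    (hQ : ‖Q‖ ≤ 1 / 4) {θ : ℝ} (hθ : 0 < θ) :
    ∃ (W : Submodule K (ι → An K 2)) (_ : FiniteDimensional K W)
      (hW : ∀ v ∈ W, (brM M Q 0 : (ι → An K 2) →ₗ[K] (ι → An K 2)) v ∈ W),
      (∀ v ∈ W, ∃ v' ∈ W, brM M Q 0 v' = v) ∧
      Dec θ fun r => (1 - Q ^ r)⁻¹ * (evM 0 M ^ r).trace -
        LinearMap.trace K W (((brM M Q 0 : (ι → An K 2) →ₗ[K] (ι → An K 2)).restrict hW) ^ r) := by
  have hQ1 : ‖Q‖ ≤ 1 := hQ.trans (by norm_num)
  have hp0 : (0 : ℝ) < p := by exact_mod_cast hp.pos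
  have hη : 0 < θ / p := div_pos hθ hp0
  obtain ⟨B, hB, hM⟩ := ranka_matrix_trace (evM 0 M)
  obtain ⟨N, hN⟩ : ∃ N : ℕ, ‖Q‖ ^ N * (‖mulM M‖ + B) ≤ θ / p := by
    have h1 := (tendsto_pow_atTop_nhds_zero_of_lt_one (norm_nonneg Q)
      (hQ.trans_lt (by norm_num))).mul_const (‖mulM M‖ + B)
    rw [zero_mul] at h1
    exact (h1.eventually (ge_mem_nhds hη)).exists
  have hQN : 0 ≤ ‖Q‖ ^ N := by positivity
  have hN1 : ‖mulM M‖ * ‖Q‖ ^ N ≤ θ / p := by nlinarith [mul_nonneg hQN hB]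
  have hN2 : ‖Q‖ ^ N * B ≤ θ / p := by nlinarith [mul_nonneg hQN (norm_nonneg (mulM M))]
  let π : (ι → An K 2) →L[K] (ι × Fin N → K) :=
    ContinuousLinearMap.pi fun x => An.coL x.2 ∘L ContinuousLinearMap.proj x.1
  have hπ : ∀ v x, π v x = An.co x.2 (v x.1) := fun _ _ => rfl
  have hker : ∀ v, π v = 0 ↔ ∀ a, ∀ m < N, An.co m (v a) = 0 := fun v =>
    ⟨fun h a m hm => congrFun h (a, ⟨m, hm⟩), fun h => funext fun x => h x.1 x.2 x.2.2⟩
  let e : ι × Fin N → ι → An K 2 := fun x => Pi.single x.1 (An.X ^ (x.2 : ℕ))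
  have he0 : ∀ x a m, An.co m (e x a) = if a = x.1 ∧ m = x.2 then 1 else 0 := fun x a m => by
    by_cases h : a = x.1
    · simp [e, h, An.anb_co_X_pow]
    · simp [e, h, An.co_zero]
  have he : ∀ x, π (e x) = Pi.single x 1 := fun x => funext fun y => by
    rw [hπ, he0, Pi.single_apply]
    simp only [Prod.ext_iff, Fin.ext_iff]
  let σ := Fintype.linearCombination K e
  have hσ : ∀ u, π (σ u) = u := fun u => by
    rw [Fintype.linearCombination_apply, map_sum]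
    simp only [map_smul, he, ← Pi.single_smul', smul_eq_mul, mul_one, univ_sum_single]
  let S := (π : (ι → An K 2) →ₗ[K] (ι × Fin N → K)) ∘ₗ
    (brM M Q 0 : (ι → An K 2) →ₗ[K] (ι → An K 2)) ∘ₗ σ
  have hst : ∀ v, π v = 0 → π (brM M Q 0 v) = 0 := fun v hv =>
    (hker _).2 (ranka_van M hQ1 ((hker v).1 hv))
  have hc : ∀ v, π (brM M Q 0 v) = S (π v) := fun v => by
    have h1 := hst (v - σ (π v)) (by rw [map_sub, hσ, sub_self])
    rw [map_sub, map_sub, sub_eq_zero] at h1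
    exact h1
  obtain ⟨W, hfin, hW, hsurj, htr⟩ := ranka_alg (brM M Q 0 : (ι → An K 2) →ₗ[K] (ι → An K 2)) S
    (π : (ι → An K 2) →ₗ[K] (ι × Fin N → K)) (fun u => ⟨σ u, hσ u⟩) hc hη.le fun a ha =>
      ranka_neumann (brM M Q 0) _ π.isClosed_ker hst (c := ‖mulM M‖ * ‖Q‖ ^ N) (by positivity)
        (fun v hv => by
          rw [brM_apply, ← mulM_apply, mul_assoc]
          refine (mulM M).le_opNorm_of_le ((pi_norm_le_iff_of_nonneg (by positivity)).2 fun b => ?_)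
          exact (ranka_norm_ev hQ1 ((hker v).1 hv b)).trans
            (mul_le_mul_of_nonneg_left (norm_le_pi_norm v b) hQN))
        (hN1.trans_lt ha)
  refine ⟨W, hfin, hW, hsurj, 1, fun n => ?_⟩
  rw [one_mul, ← mul_div_cancel₀ θ hp0.ne']
  refine norm_exC_le hp hn hη.le (fun r hr => ?_) n
  have h1 : LinearMap.trace K _ (S ^ r) = (∑ n ∈ range N, (Q ^ r) ^ n) * (evM 0 M ^ r).trace := by
    rw [LinearMap.trace_eq_matrix_trace K (Pi.basisFun K _), Matrix.trace, Matrix.trace,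
      Fintype.sum_prod_type, mul_sum]
    refine sum_congr rfl fun a _ => ?_
    rw [sum_mul, ← Fin.sum_univ_eq_sum_range (fun n => (Q ^ r) ^ n * (evM 0 M ^ r).diag a)]
    refine sum_congr rfl fun n _ => ?_
    have h2 := congrFun (ranka_co_pow M hQ1 (v := e (a, n)) (n := n) (fun b m hm => by
      rw [he0, if_neg fun h => hm.ne h.2]) r).2 a
    have h3 : (fun b => An.co n (e (a, n) b)) = Pi.single a 1 := funext fun b => by
      rw [he0, Pi.single_apply]
      simp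
    rw [h3, Matrix.mulVec_single_one] at h2
    rw [Matrix.diag_apply, LinearMap.toMatrix_apply, Pi.basisFun_apply, Pi.basisFun_repr, ← he]
    exact (congrFun (ranka_pow (π := (π : (ι → An K 2) →ₗ[K] (ι × Fin N → K))) hc r _).symm
      (a, n)).trans h2
  have h2 : ‖Q ^ r‖ < 1 := by
    rw [norm_pow]
    exact pow_lt_one₀ (norm_nonneg _) (hQ.trans_lt (by norm_num)) (by omega)
  have h3 : ‖1 - Q ^ r‖ = 1 := by
    rw [sub_eq_add_neg, IsUltrametricDist.norm_add_eq_max_of_norm_ne_norm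
      (by rw [norm_one, norm_neg]; exact h2.ne'), norm_one, norm_neg, max_eq_left h2.le]
  have h4 : 1 - Q ^ r ≠ 0 := norm_ne_zero_iff.1 (by rw [h3]; exact one_ne_zero)
  have h5 : (1 - Q ^ r)⁻¹ = (1 - Q ^ r)⁻¹ * (Q ^ r) ^ N + ∑ n ∈ range N, (Q ^ r) ^ n := by
    rw [← mul_right_inj' h4, mul_add, mul_neg_geom_sum, mul_inv_cancel_left₀ h4,
      mul_inv_cancel₀ h4, add_sub_cancel]
  rw [h5, add_mul, ← h1, add_sub_assoc]
  refine (IsUltrametricDist.norm_add_le_max _ _).trans (max_le ?_ (htr r))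
  rw [norm_mul, norm_mul, norm_inv, h3, inv_one, one_mul, ← pow_mul, mul_comm r, pow_mul, norm_pow,
    norm_pow]
  refine (mul_le_mul_of_nonneg_left (hM r) (by positivity)).trans ?_
  rw [← mul_pow]
  exact pow_le_pow_left₀ (by positivity) hN2 r

/-- additivity of the trace in a short exact sequence -/
theorem rankb_trace_exact {k A W B : Type*} [Field k] [AddCommGroup A] [Module k A]
    [FiniteDimensional k A] [AddCommGroup W] [Module k W] [FiniteDimensional k W]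
    [AddCommGroup B] [Module k B] [FiniteDimensional k B] (i : A →ₗ[k] W) (π : W →ₗ[k] B)
    (hi : LinearMap.ker i = ⊥) (hπ : LinearMap.range π = ⊤) (h0 : ∀ a, π (i a) = 0)
    (hex : ∀ w, π w = 0 → ∃ a, i a = w) (SA : A →ₗ[k] A) (S : W →ₗ[k] W) (SB : B →ₗ[k] B)
    (h1 : ∀ a, S (i a) = i (SA a)) (h2 : ∀ w, π (S w) = SB (π w)) :
    LinearMap.trace k W S = LinearMap.trace k A SA + LinearMap.trace k B SB := by
  obtain ⟨ρ, hρ⟩ := i.exists_leftInverse_of_injective hi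
  obtain ⟨σ, hσ⟩ := π.exists_rightInverse_of_surjective hπ
  have hρ' : ∀ a, ρ (i a) = a := fun a => LinearMap.congr_fun hρ a
  have hσ' : ∀ x, π (σ x) = x := fun x => LinearMap.congr_fun hσ x
  let τ : B →ₗ[k] W := σ - i ∘ₗ ρ ∘ₗ σ
  have hτ : ∀ x, τ x = σ x - i (ρ (σ x)) := fun x => rfl
  have e : S = (S ∘ₗ i) ∘ₗ ρ + (S ∘ₗ τ) ∘ₗ π := by
    refine LinearMap.ext fun w => ?_
    obtain ⟨a, ha⟩ := hex (w - σ (π w)) (by rw [map_sub, hσ', sub_self])
    have h3 : i (ρ w) - i (ρ (σ (π w))) = w - σ (π w) := by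
      rw [← map_sub, ← map_sub, ← ha, hρ']
    have h4 : i (ρ w) + τ (π w) = w := by
      rw [hτ, add_sub_left_comm, h3, add_sub_cancel]
    simp only [LinearMap.add_apply, LinearMap.comp_apply]
    rw [← map_add, h4]
  have e1 : ρ ∘ₗ S ∘ₗ i = SA := LinearMap.ext fun a => by
    simp only [LinearMap.comp_apply]
    rw [h1, hρ']
  have e2 : π ∘ₗ S ∘ₗ τ = SB := LinearMap.ext fun x => by
    simp only [LinearMap.comp_apply]
    rw [h2, hτ, map_sub, h0, sub_zero, hσ']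
  conv_lhs => rw [e]
  rw [map_add, LinearMap.trace_comp_comm' ρ, LinearMap.trace_comp_comm' π, e1, e2]

theorem rankb_pow {k A W : Type*} [Field k] [AddCommGroup A] [Module k A] [AddCommGroup W]
    [Module k W] (i : A →ₗ[k] W) (SA : A →ₗ[k] A) (S : W →ₗ[k] W) (h : ∀ a, S (i a) = i (SA a))
    (r : ℕ) (a : A) : (S ^ r) (i a) = i ((SA ^ r) a) := by
  induction r with
  | zero => rfl
  | succ r ih => rw [pow_succ', pow_succ', Module.End.mul_apply, Module.End.mul_apply, ih, h]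

theorem rankb_trace_pow {k A W B : Type*} [Field k] [AddCommGroup A] [Module k A]
    [FiniteDimensional k A] [AddCommGroup W] [Module k W] [FiniteDimensional k W]
    [AddCommGroup B] [Module k B] [FiniteDimensional k B] (i : A →ₗ[k] W) (π : W →ₗ[k] B)
    (hi : LinearMap.ker i = ⊥) (hπ : LinearMap.range π = ⊤) (h0 : ∀ a, π (i a) = 0)
    (hex : ∀ w, π w = 0 → ∃ a, i a = w) (SA : A →ₗ[k] A) (S : W →ₗ[k] W) (SB : B →ₗ[k] B)
    (h1 : ∀ a, S (i a) = i (SA a)) (h2 : ∀ w, π (S w) = SB (π w)) (r : ℕ) :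
    LinearMap.trace k W (S ^ r) = LinearMap.trace k A (SA ^ r) + LinearMap.trace k B (SB ^ r) :=
  rankb_trace_exact i π hi hπ h0 hex _ _ _ (rankb_pow i SA S h1 r)
    fun w => (rankb_pow π S SB (fun w => (h2 w).symm) r w).symm

omit [CompleteSpace K] [IsUltrametricDist K] [IsAlgClosed K] in
theorem rankb_dec_end {B : Type*} [AddCommGroup B] [Module K B] [FiniteDimensional K B]
    (S : B →ₗ[K] B) {θ : ℝ} (hθ : 0 < θ) : Dec θ fun r => -LinearMap.trace K B (S ^ r) := by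
  have h := dec_trace hθ (LinearMap.toMatrix (Module.finBasis K B) (Module.finBasis K B) S)
  refine (congrArg (Dec θ) (funext fun r => ?_)).mp h
  rw [LinearMap.trace_eq_matrix_trace K (Module.finBasis K B), LinearMap.toMatrix_pow]

/-- an injective intertwiner into a product -/
theorem dec_of_inj {V W : Type} [NormedAddCommGroup V] [NormedSpace K V] [CompleteSpace V]
    [AddCommGroup W] [Module K W] [FiniteDimensional K W] {I : Type} (b : L1B K V I)
    (T : V →L[K] V) (h : I → ℕ) (hh : ∀ n, {i | h i = n}.Finite) {N : ℕ}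
    (hN : ∀ n, {i | h i = n}.ncard ≤ N) {C ρ : ℝ} (hρ0 : 0 ≤ ρ) (hρ : ρ < 1)
    (hT : ∀ i, ‖T (b.e i)‖ ≤ C * ρ ^ h i * b.w i) (M : Matrix ι ι K) (S : W →ₗ[K] W)
    (f : W →ₗ[K] V) (g : W →ₗ[K] (ι → K)) (hf : ∀ w, f (S w) = T (f w))
    (hg : ∀ w, g (S w) = M.mulVec (g w)) (hinj : ∀ w, f w = 0 → g w = 0 → w = 0) {θ : ℝ}
    (hθ : 0 < θ) :
    Dec θ fun r => -b.tr (T ^ r) - (M ^ r).trace + LinearMap.trace K W (S ^ r) := by
  have hZ : ∀ z ∈ LinearMap.range f, T z ∈ LinearMap.range f := by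
    rintro _ ⟨w, rfl⟩
    exact ⟨S w, hf w⟩
  have hA : ∀ w ∈ LinearMap.ker f, S w ∈ LinearMap.ker f := fun w hw => by
    rw [LinearMap.mem_ker, hf, LinearMap.mem_ker.1 hw, map_zero]
  let i : LinearMap.ker f →ₗ[K] (ι → K) := g ∘ₗ (LinearMap.ker f).subtype
  have hi : ∀ a, Matrix.toLin' M (i a) = i (S.restrict hA a) := fun a => by
    rw [Matrix.toLin'_apply]
    exact (hg a).symm
  have hR : LinearMap.range i ≤ (LinearMap.range i).comap (Matrix.toLin' M) := by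
    rintro _ ⟨a, rfl⟩
    exact ⟨_, (hi a).symm⟩
  have e1 := rankb_trace_pow (LinearMap.ker f).subtype f.rangeRestrict (Submodule.ker_subtype _)
    f.range_rangeRestrict (fun a => Subtype.ext a.2)
    (fun w hw => ⟨⟨w, congrArg Subtype.val hw⟩, rfl⟩) (S.restrict hA) S
    ((T : V →ₗ[K] V).restrict hZ) (fun a => rfl) (fun w => Subtype.ext (hf w))
  have e2 := rankb_trace_pow i (LinearMap.range i).mkQ
    (LinearMap.ker_eq_bot'.2 fun a ha => Subtype.ext (hinj a a.2 ha)) (Submodule.range_mkQ _)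
    (fun a => (Submodule.Quotient.mk_eq_zero _).2 ⟨a, rfl⟩)
    (fun w hw => (Submodule.Quotient.mk_eq_zero _).1 hw) (S.restrict hA) (Matrix.toLin' M)
    ((LinearMap.range i).mapQ _ (Matrix.toLin' M) hR) hi (fun w => rfl)
  have h1 := (b.dec_sub T h hh hN hρ0 hρ hT (LinearMap.range f) hZ hθ).add hθ.le
    (rankb_dec_end ((LinearMap.range i).mapQ _ (Matrix.toLin' M) hR) hθ)
  refine (congrArg (Dec θ) (funext fun r => ?_)).mp h1
  have e3 := e2 r
  rw [← Matrix.toLin'_pow, Matrix.trace_toLin'_eq] at e3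
  rw [e1 r, e3]
  ring

omit [IsUltrametricDist K] [CharZero K] [IsAlgClosed K] in
theorem rankb_co (M : Matrix ι ι (An K 2)) {Q : K} (hQ : ‖Q‖ ≤ 1 / 4) (v : ι → An K 2) :
    (fun a => An.co 0 (brM M Q 0 v a)) = (evM 0 M).mulVec fun a => An.co 0 (v a) := by
  have h0 : An.PB 2 (0 : K) := An.PB.of_le (by simp)
  have hy : An.PB 2 (An.C Q * An.X + An.C 0 : An K 2) :=
    An.PB.of_le ((norm_aff_le Q 0).trans (by rw [norm_zero]; push_cast; linarith))
  have h1 : An.ev (0 : K) (An.C Q * An.X + An.C 0 : An K 2) = 0 := by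
    have := An.co_C_mul_X_pow (R := 2) Q 1 0
    rw [pow_one, if_neg one_ne_zero] at this
    rw [map_zero, add_zero, An.ev_zero, this]
  funext a
  rw [brM_apply, ← An.ev_zero]
  simp only [Matrix.mulVec, dotProduct, map_sum, evM, Matrix.map_apply]
  refine sum_congr rfl fun c _ => ?_
  rw [An.ev_mul h0, (An.ev_ev hy h0 _).2, h1, An.ev_zero (v c)]

theorem Fam.dec (hp : p.Prime) (hn : ‖(p : K)‖ = (p : ℝ)⁻¹) (F : Fam K ι q) (hq0 : q ≠ 0)
    (hq : ‖(q : K)‖ ≤ 1 / 4) {θ : ℝ} (hθ : 0 < θ) :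
    Dec θ fun r => ((q : K) ^ r - 1)⁻¹ *
      (∑ j ∈ range (q ^ r), (F.Φr r j (j / (1 - (q : K) ^ r))).trace - (evM 0 F.Φ0 ^ r).trace) -
        (evM 0 F.Φ0 ^ r).trace := by
  obtain ⟨W, _, hW, hsurj, hd⟩ := exists_big hp hn F.Φ0 hq hθ
  obtain ⟨c, hc⟩ := F.norm_Ψ1 hq
  have hset : ∀ n : ℕ, {j : ι × ℕ | j.2 = n} = (fun a : ι => (a, n)) '' Set.univ := fun n => by
    ext ⟨a, m⟩
    simp [eq_comm]
  let g : (ι → An K 2) →ₗ[K] (ι → K) :=
    LinearMap.pi fun a => (An.coL 0 : An K 2 →L[K] K).toLinearMap ∘ₗ LinearMap.proj a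
  have hg : ∀ v, g v = fun a => An.co 0 (v a) := fun v => rfl
  have h1 := dec_of_inj (An.basisPi (K := K) (R := 2) ι) F.Ψ1 Prod.snd
    (fun n => by rw [hset]; exact Set.finite_univ.image _) (N := Fintype.card ι)
    (fun n => by
      rw [hset]
      exact (Set.ncard_image_le Set.finite_univ).trans (by simp))
    (by norm_num) (by norm_num) hc (evM 0 F.Φ0)
    ((brM F.Φ0 (q : K) 0 : (ι → An K 2) →ₗ[K] (ι → An K 2)).restrict hW)
    (F.Δ.toLinearMap ∘ₗ W.subtype) (g ∘ₗ W.subtype)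
    (fun w => (DFunLike.congr_fun (F.intertwine hq0 hq) (w : ι → An K 2)).symm)
    (fun w => rankb_co F.Φ0 hq w)
    (fun w h2 h3 => by
      obtain ⟨v, -, hv⟩ := hsurj w w.2
      have h4 : F.Ψ0 v = w := hv
      refine Subtype.ext (h4.symm.trans (F.eq_zero hq0 hq v ?_ fun a => ?_))
      · rw [h4]
        exact h2
      · rw [h4]
        exact congrFun h3 a) hθ
  obtain ⟨A, hA⟩ := h1.add hθ.le hd
  refine ⟨A, fun n => ?_⟩
  rw [exC_congr (t := _) ?_]
  · exact hA n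
  intro r hr
  rw [F.tr_pow hq hr, ← neg_sub (1 : K), inv_neg]
  ring

end

end Pool.Agent.P.MP_9484ad_co
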