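import Pool.Agent.P.MP_9484ad_co.An
import Pool.Agent.P.MP_9484ad_co.Dwork

/-! Reduction modulo the image of the hypergeometric difference operator. -/

namespace Pool.Agent.P.MP_9484ad_co

open Finset Polynomial

noncomputable section

section Defs

variable {A B : Type} [CommRing A] [CommRing B]

def Pu (u : Fin 4 → A) : A[X] := ∏ i, (X - C (u i))

def Pl (l : Fin 4 → A) : A[X] := ∏ i, (X + C (l i))

/-- the difference operator -/
def dl (P Qy g : A[X]) : A[X] := P * g - Qy * g.comp (X + 1)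

structure RD (A : Type) [CommRing A] where
  r : ℕ → Fin 4 → A
  g : ℕ → A[X]
  d : Fin 4 → ℕ

def RD.map (φ : A →+* B) (D : RD A) : RD B :=
  ⟨fun n i => φ (D.r n i), fun n => (D.g n).map φ, D.d⟩

def RD.redP (D : RD A) (f : A[X]) : Fin 4 → A := f.sum fun n a => a • D.r n

def RD.gP (D : RD A) (f : A[X]) : A[X] := f.sum fun n a => a • D.g n

def iot (d : Fin 4 → ℕ) (v : Fin 4 → A) : A[X] := ∑ i, C (v i) * X ^ d i

end Defs

structure IsRed {A : Type} [NormedCommRing A] (P Qy : A[X]) (D : RD A) : Prop where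
  bd : ∃ c : ℝ, ∀ n, ‖D.r n‖ ≤ c * 4096 ^ n ∧ ‖(An.ofPoly (D.g n) : An A 3)‖ ≤ c * 4096 ^ n
  split : ∀ n, X ^ n = dl P Qy (D.g n) + iot D.d (D.r n)
  red_dl : ∀ n, D.redP (dl P Qy (X ^ n)) = 0
  g_dl : ∀ n, D.gP (dl P Qy (X ^ n)) = X ^ n

section Map

variable {A B : Type} [NormedCommRing A] [NormedCommRing B] {P Qy : A[X]} {D : RD A}

theorem Pu_map (φ : A →+* B) (u : Fin 4 → A) : (Pu u).map φ = Pu fun i => φ (u i) := by
  simp [Pu, Polynomial.map_prod]

theorem Pl_map (φ : A →+* B) (l : Fin 4 → A) : (Pl l).map φ = Pl fun i => φ (l i) := by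
  simp [Pl, Polynomial.map_prod]

theorem reda_redP_add (D : RD A) (f g : A[X]) : D.redP (f + g) = D.redP f + D.redP g :=
  Polynomial.sum_add_index f g _ (fun _ => zero_smul _ _) fun _ _ _ => add_smul _ _ _

theorem reda_gP_add (D : RD A) (f g : A[X]) : D.gP (f + g) = D.gP f + D.gP g :=
  Polynomial.sum_add_index f g _ (fun _ => zero_smul _ _) fun _ _ _ => add_smul _ _ _

theorem reda_redP_monomial (D : RD A) (n : ℕ) (a : A) : D.redP (monomial n a) = a • D.r n :=
  Polynomial.sum_monomial_index a _ (zero_smul _ _)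

theorem reda_gP_monomial (D : RD A) (n : ℕ) (a : A) : D.gP (monomial n a) = a • D.g n :=
  Polynomial.sum_monomial_index a _ (zero_smul _ _)

theorem reda_redP_smul (D : RD A) (a : A) (f : A[X]) : D.redP (a • f) = a • D.redP f := by
  induction f using Polynomial.induction_on' with
  | add f g hf hg => rw [smul_add, reda_redP_add, reda_redP_add, hf, hg, smul_add]
  | monomial n b =>
    rw [smul_monomial, reda_redP_monomial, reda_redP_monomial, smul_eq_mul, mul_smul]

theorem reda_gP_smul (D : RD A) (a : A) (f : A[X]) : D.gP (a • f) = a • D.gP f := by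
  induction f using Polynomial.induction_on' with
  | add f g hf hg => rw [smul_add, reda_gP_add, reda_gP_add, hf, hg, smul_add]
  | monomial n b =>
    rw [smul_monomial, reda_gP_monomial, reda_gP_monomial, smul_eq_mul, mul_smul]

theorem reda_dl_add (P Qy f g : A[X]) : dl P Qy (f + g) = dl P Qy f + dl P Qy g := by
  simp only [dl, add_comp]; ring

theorem reda_dl_smul (P Qy : A[X]) (a : A) (f : A[X]) : dl P Qy (a • f) = a • dl P Qy f := by
  simp only [dl, smul_eq_C_mul, mul_comp, C_comp]; ring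

theorem reda_iot_add (d : Fin 4 → ℕ) (v w : Fin 4 → A) : iot d (v + w) = iot d v + iot d w := by
  simp only [iot, Pi.add_apply, map_add, add_mul, sum_add_distrib]

theorem reda_iot_smul (d : Fin 4 → ℕ) (a : A) (v : Fin 4 → A) : iot d (a • v) = a • iot d v := by
  simp only [iot, Pi.smul_apply, smul_eq_mul, map_mul, smul_eq_C_mul, mul_sum, mul_assoc]

theorem reda_monomial (n : ℕ) (a : A) : (monomial n a : A[X]) = a • X ^ n := by
  rw [smul_eq_C_mul, C_mul_X_pow_eq_monomial]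

theorem reda_dl_map (φ : A →+* B) (P Qy f : A[X]) :
    (dl P Qy f).map φ = dl (P.map φ) (Qy.map φ) (f.map φ) := by
  simp [dl, Polynomial.map_comp]

theorem reda_iot_map (φ : A →+* B) (d : Fin 4 → ℕ) (v : Fin 4 → A) :
    (iot d v).map φ = iot d fun i => φ (v i) := by
  simp [iot, Polynomial.map_sum]

theorem RD.redP_map (φ : A →+* B) (D : RD A) (f : A[X]) (i : Fin 4) :
    φ (D.redP f i) = (D.map φ).redP (f.map φ) i := by
  induction f using Polynomial.induction_on' with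
  | add f g hf hg =>
    rw [Polynomial.map_add, reda_redP_add, reda_redP_add, Pi.add_apply, Pi.add_apply, map_add,
      hf, hg]
  | monomial n b =>
    rw [Polynomial.map_monomial, reda_redP_monomial, reda_redP_monomial, Pi.smul_apply,
      Pi.smul_apply, smul_eq_mul, smul_eq_mul, map_mul]
    rfl

theorem reda_gP_map (φ : A →+* B) (D : RD A) (f : A[X]) :
    (D.gP f).map φ = (D.map φ).gP (f.map φ) := by
  induction f using Polynomial.induction_on' with
  | add f g hf hg =>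
    rw [Polynomial.map_add, reda_gP_add, reda_gP_add, Polynomial.map_add, hf, hg]
  | monomial n b =>
    rw [Polynomial.map_monomial, reda_gP_monomial, reda_gP_monomial, smul_eq_C_mul,
      smul_eq_C_mul, Polynomial.map_mul, Polynomial.map_C]
    rfl

theorem IsRed.map (h : IsRed P Qy D) (φ : A →+* B) (hφ : ∀ a, ‖φ a‖ ≤ ‖a‖) :
    IsRed (P.map φ) (Qy.map φ) (D.map φ) := by
  have hX : ∀ n : ℕ, (X ^ n : B[X]) = (X ^ n : A[X]).map φ := fun n => by simp
  refine ⟨?_, fun n => ?_, fun n => ?_, fun n => ?_⟩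
  · obtain ⟨c, hc⟩ := h.bd
    refine ⟨c, fun n => ⟨?_, ?_⟩⟩
    · refine le_trans ?_ (hc n).1
      exact (pi_norm_le_iff_of_nonneg (norm_nonneg _)).2 fun i =>
        (hφ _).trans (norm_le_pi_norm (D.r n) i)
    · refine le_trans ?_ (hc n).2
      have := An.norm_map_le (R := 3) φ hφ (An.ofPoly (D.g n))
      rwa [An.map_ofPoly] at this
  · have := congrArg (Polynomial.map φ) (h.split n)
    rw [Polynomial.map_add, reda_dl_map, reda_iot_map, ← hX] at this
    exact this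
  · funext i
    rw [hX, ← reda_dl_map, ← RD.redP_map, h.red_dl, Pi.zero_apply, Pi.zero_apply, map_zero]
  · rw [hX, ← reda_dl_map, ← reda_gP_map, h.g_dl]

theorem IsRed.split_poly (h : IsRed P Qy D) (f : A[X]) :
    f = dl P Qy (D.gP f) + iot D.d (D.redP f) := by
  induction f using Polynomial.induction_on' with
  | add f g hf hg =>
    rw [reda_gP_add, reda_redP_add, reda_dl_add, reda_iot_add]
    linear_combination hf + hg
  | monomial n b =>
    rw [reda_gP_monomial, reda_redP_monomial, reda_dl_smul, reda_iot_smul, ← smul_add,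
      ← h.split, reda_monomial]

theorem IsRed.red_dl_poly (h : IsRed P Qy D) (f : A[X]) : D.redP (dl P Qy f) = 0 := by
  induction f using Polynomial.induction_on' with
  | add f g hf hg => rw [reda_dl_add, reda_redP_add, hf, hg, add_zero]
  | monomial n b => rw [reda_monomial, reda_dl_smul, reda_redP_smul, h.red_dl, smul_zero]

theorem IsRed.g_dl_poly (h : IsRed P Qy D) (f : A[X]) : D.gP (dl P Qy f) = f := by
  induction f using Polynomial.induction_on' with
  | add f g hf hg => rw [reda_dl_add, reda_gP_add, hf, hg]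
  | monomial n b => rw [reda_monomial, reda_dl_smul, reda_gP_smul, h.g_dl]

end Map

section RedB

theorem redb_seq {A W : Type} [CommRing A] [AddCommGroup W] [Module A W] (b : ℕ → W)
    (e : ℕ → ℕ → A) : ∃ w : ℕ → W, ∀ n, w n = b n + ∑ j ∈ range n, e n j • w j := by
  refine ⟨(wellFounded_lt (α := ℕ)).fix fun n ih =>
    b n + ∑ j ∈ (range n).attach, e n j • ih j (mem_range.1 j.2), fun n => ?_⟩
  rw [WellFounded.fix_eq]
  congr 1
  exact sum_attach (range n) fun j => e n j • (wellFounded_lt (α := ℕ)).fix (fun n ih =>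
    b n + ∑ j ∈ (range n).attach, e n j • ih j (mem_range.1 j.2)) j

section Alg

variable {A B : Type} [CommRing A] [CommRing B]

/-- the two top coefficients of a monic polynomial -/
def RedbTop (n : ℕ) (a : A) (f : A[X]) : Prop :=
  f.coeff (n + 1) = 1 ∧ f.coeff n = a ∧ ∀ j, n + 1 < j → f.coeff j = 0

theorem redb_coeff_succ (f : A[X]) (b : A) (j : ℕ) :
    (f * (X + C b)).coeff (j + 1) = f.coeff j + f.coeff (j + 1) * b := by
  rw [mul_add, coeff_add, coeff_mul_X, coeff_mul_C]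

theorem redb_top_base (b : A) : RedbTop 0 b (X + C b) := by
  refine ⟨by simp, by simp, fun j hj => ?_⟩
  rw [coeff_add, coeff_X_of_ne_one (by omega), coeff_C_of_ne_zero (by omega), add_zero]

theorem RedbTop.mul {n : ℕ} {a : A} {f : A[X]} (h : RedbTop n a f) (b : A) :
    RedbTop (n + 1) (a + b) (f * (X + C b)) := by
  obtain ⟨h1, h2, h3⟩ := h
  refine ⟨?_, ?_, fun j hj => ?_⟩
  · rw [redb_coeff_succ, h1, h3 _ (by omega), zero_mul, add_zero]
  · rw [redb_coeff_succ, h1, h2, one_mul]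
  · obtain ⟨j, rfl⟩ : ∃ i, j = i + 1 := ⟨j - 1, by omega⟩
    rw [redb_coeff_succ, h3 _ (by omega), h3 _ (by omega), zero_mul, add_zero]

theorem RedbTop.pow {n : ℕ} {a : A} {f : A[X]} (h : RedbTop n a f) (b : A) (k : ℕ) :
    RedbTop (n + k) (a + k * b) (f * (X + C b) ^ k) := by
  induction k with
  | zero => simpa using h
  | succ k ih =>
    have := ih.mul b
    rw [mul_assoc, ← pow_succ] at this
    rw [Nat.cast_succ, add_mul, one_mul, ← add_assoc, ← add_assoc]
    exact this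

theorem redb_top_Pl (l : Fin 4 → A) : RedbTop 3 (∑ j, l j) (Pl l) := by
  rw [Pl, Fin.prod_univ_four, Fin.sum_univ_four]
  exact (((redb_top_base _).mul _).mul _).mul _

theorem redb_Pu (u : Fin 4 → A) : Pu u = Pl fun i => -u i := by
  simp only [Pu, Pl, map_neg, sub_eq_add_neg]

theorem redb_dl_pow (P Qy : A[X]) (k : ℕ) :
    dl P Qy (X ^ k) = P * (X + C 0) ^ k - Qy * (X + C 1) ^ k := by
  simp [dl]

theorem redb_dl_coeff (u l : Fin 4 → A) (k : ℕ) :
    (dl (Pu u) (Pl l) (X ^ k)).coeff (k + 3) = -(∑ j, u j + ∑ j, l j + k) ∧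
      ∀ j, k + 3 < j → (dl (Pu u) (Pl l) (X ^ k)).coeff j = 0 := by
  obtain ⟨a1, a2, a3⟩ := (redb_top_Pl fun i => -u i).pow 0 k
  obtain ⟨b1, b2, b3⟩ := (redb_top_Pl l).pow 1 k
  rw [redb_dl_pow, redb_Pu]
  refine ⟨?_, fun j hj => ?_⟩
  · rw [coeff_sub, add_comm k 3, a2, b2, sum_neg_distrib]
    ring
  · rw [coeff_sub]
    by_cases h : j = 3 + k + 1
    · rw [h, a1, b1, sub_self]
    · rw [a3 _ (by omega), b3 _ (by omega), sub_self]

theorem redb_sum {V : Type} [AddCommGroup V] [Module A V] (v : ℕ → V) {f : A[X]} {n : ℕ}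
    (h : ∀ j, n < j → f.coeff j = 0) :
    (f.sum fun n a => a • v n) = ∑ j ∈ range n, f.coeff j • v j + f.coeff n • v n := by
  rw [Polynomial.sum_over_range' f (f := fun n a => a • v n) (fun _ => zero_smul _ _) (n + 1)
    (Nat.lt_succ_of_le (natDegree_le_iff_coeff_eq_zero.2 h)), sum_range_succ]

theorem redb_sum_self (f : A[X]) : (f.sum fun n a => a • (X ^ n : A[X])) = f := by
  simp only [smul_eq_C_mul]
  exact sum_C_mul_X_pow_eq f

theorem redb_map_sum {V W : Type} [AddCommGroup V] [Module A V] [AddCommGroup W] [Module A W]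
    (T : V →ₗ[A] W) (v : ℕ → V) (f : A[X]) :
    T (f.sum fun n a => a • v n) = f.sum fun n a => a • T (v n) := by
  simp only [Polynomial.sum, map_sum, map_smul]

/-- the map `(r, g) ↦ Δ g + ι r` -/
def redbL (P Qy : A[X]) (d : Fin 4 → ℕ) : ((Fin 4 → A) × A[X]) →ₗ[A] A[X] where
  toFun w := dl P Qy w.2 + iot d w.1
  map_add' v w := by
    simp only [dl, iot, Prod.fst_add, Prod.snd_add, add_comp, Pi.add_apply, map_add, add_mul,
      sum_add_distrib]
    ring
  map_smul' a w := by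
    simp only [dl, iot, Prod.smul_fst, Prod.smul_snd, smul_eq_C_mul, mul_comp, C_comp,
      Pi.smul_apply, smul_eq_mul, map_mul, RingHom.id_apply, mul_add, mul_sum, mul_assoc]
    ring

theorem redbL_apply (P Qy : A[X]) (d : Fin 4 → ℕ) (r : Fin 4 → A) (g : A[X]) :
    redbL P Qy d (r, g) = dl P Qy g + iot d r := rfl

theorem redb_iot_single (d : Fin 4 → ℕ) (i : Fin 4) :
    iot d (Pi.single i (1 : A)) = X ^ d i := by
  rw [iot, sum_eq_single i]
  · simp
  · intro j _ hj
    simp [hj]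
  · simp

theorem redb_iot_zero (d : Fin 4 → ℕ) : iot d (0 : Fin 4 → A) = 0 := by simp [iot]

theorem redb_dl_zero (P Qy : A[X]) : dl P Qy 0 = 0 := by simp [dl]

theorem redb_dl_map (φ : A →+* B) (P Qy g : A[X]) :
    (dl P Qy g).map φ = dl (P.map φ) (Qy.map φ) (g.map φ) := by
  simp [dl, Polynomial.map_comp]

theorem redb_iot_map (φ : A →+* B) (d : Fin 4 → ℕ) (r : Fin 4 → A) :
    (iot d r).map φ = iot d fun i => φ (r i) := by
  simp [iot, Polynomial.map_sum]

end Alg

section Nrm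

variable {A : Type} [NormedCommRing A]

theorem redb_coeff_le {f : A[X]} {B : ℝ} (h : ∀ j, ‖f.coeff j‖ ≤ B) {b : A} (hb : ‖b‖ ≤ 3) (j : ℕ) :
    ‖(f * (X + C b)).coeff j‖ ≤ 4 * B := by
  have hB : 0 ≤ B := (norm_nonneg _).trans (h 0)
  have h1 : ∀ i, ‖f.coeff i * b‖ ≤ B * 3 := fun i =>
    (norm_mul_le _ _).trans (mul_le_mul (h i) hb (norm_nonneg _) hB)
  rcases j with _ | j
  · rw [mul_add, coeff_add, coeff_mul_C, mul_coeff_zero, coeff_X_zero, mul_zero, zero_add]
    linarith [h1 0]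
  · rw [redb_coeff_succ]
    linarith [norm_add_le (f.coeff j) (f.coeff (j + 1) * b), h j, h1 (j + 1)]

theorem redb_coeff_Pl {f : A[X]} (h : ∀ j, ‖f.coeff j‖ ≤ 1) {l : Fin 4 → A} (hl : ∀ i, ‖l i‖ ≤ 3)
    (j : ℕ) : ‖(Pl l * f).coeff j‖ ≤ 256 := by
  have := redb_coeff_le (redb_coeff_le (redb_coeff_le (redb_coeff_le h (hl 0)) (hl 1)) (hl 2))
    (hl 3) j
  rw [Pl, Fin.prod_univ_four, mul_comm, ← mul_assoc, ← mul_assoc, ← mul_assoc]
  linarith

theorem redb_dl_le (hn : ∀ n : ℕ, ‖(n : A)‖ ≤ 1) {u l : Fin 4 → A} (hu : ∀ i, ‖u i‖ ≤ 3)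
    (hl : ∀ i, ‖l i‖ ≤ 3) (k j : ℕ) : ‖(dl (Pu u) (Pl l) (X ^ k)).coeff j‖ ≤ 512 := by
  have h1 := redb_coeff_Pl (f := (X ^ k : A[X])) (fun j => by
    rw [coeff_X_pow]
    split_ifs
    · simpa using hn 1
    · simp) (l := fun i => -u i) (fun i => by simpa using hu i) j
  have h2 := redb_coeff_Pl (f := ((X + 1) ^ k : A[X])) (fun j => by
    rw [coeff_X_add_one_pow]
    exact hn _) hl j
  have e : dl (Pu u) (Pl l) (X ^ k) = Pl (fun i => -u i) * X ^ k - Pl l * (X + 1) ^ k := by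
    simp [dl, redb_Pu]
  rw [e, coeff_sub]
  linarith [norm_sub_le ((Pl (fun i => -u i) * X ^ k).coeff j) ((Pl l * (X + 1) ^ k).coeff j)]

/-- the size of a pair -/
def redbN (w : (Fin 4 → A) × A[X]) : ℝ := ‖w.1‖ + ‖(An.ofPoly w.2 : An A 3)‖

theorem redbN_nonneg (w : (Fin 4 → A) × A[X]) : 0 ≤ redbN w := by
  unfold redbN
  positivity

theorem redbN_add (v w : (Fin 4 → A) × A[X]) : redbN (v + w) ≤ redbN v + redbN w := by
  simp only [redbN, Prod.fst_add, Prod.snd_add, map_add]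
  linarith [norm_add_le v.1 w.1, norm_add_le (An.ofPoly v.2 : An A 3) (An.ofPoly w.2)]

theorem redbN_smul (a : A) (w : (Fin 4 → A) × A[X]) : redbN (a • w) ≤ ‖a‖ * redbN w := by
  simp only [redbN, Prod.smul_fst, Prod.smul_snd, smul_eq_C_mul, map_mul, mul_add]
  refine add_le_add (norm_smul_le _ _) ((norm_mul_le _ _).trans (le_of_eq ?_))
  congr 1
  exact An.norm_C a

theorem redbN_sum (s : Finset ℕ) (w : ℕ → (Fin 4 → A) × A[X]) :
    redbN (∑ j ∈ s, w j) ≤ ∑ j ∈ s, redbN (w j) := by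
  induction s using Finset.induction_on with
  | empty => simp [redbN]
  | insert a s ha ih =>
    rw [sum_insert ha, sum_insert ha]
    linarith [redbN_add (w a) (∑ j ∈ s, w j)]

theorem redbN_X_pow (h1 : ‖(1 : A)‖ ≤ 1) (k : ℕ) :
    redbN ((0, X ^ k) : (Fin 4 → A) × A[X]) ≤ 3 ^ k := by
  have := An.norm_C_mul_X_pow (R := 3) (1 : A) k
  rw [map_one, one_mul] at this
  simp only [redbN, norm_zero, zero_add, map_pow]
  change ‖(An.X ^ k : An A 3)‖ ≤ _
  rw [this]
  exact mul_le_of_le_one_left (by positivity) h1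

end Nrm

theorem redb_growth {K : Type} [NontriviallyNormedField K] [IsUltrametricDist K]
    (hf : ∀ N : ℕ, (1 / 2 : ℝ) ^ N ≤ ‖(N.factorial : K)‖) {S : ℕ → ℝ} (h0 : ∀ n, 0 ≤ S n)
    (hS : Monotone S) (M t : ℕ)
    (h : ∀ n, ‖((t + 2 * n + 1 : ℕ) : K)‖ * S (M + n + 1) ≤ 516 * S (M + n)) :
    ∃ c : ℝ, 0 ≤ c ∧ ∀ n, S n ≤ c * 4096 ^ n := by
  have key : ∀ n, ‖((t + 2 * n).factorial : K)‖ * S (M + n) ≤ 516 ^ n * S M := by
    intro n
    induction n with
    | zero =>
      simpa using mul_le_of_le_one_left (h0 M) (IsUltrametricDist.norm_natCast_le_one K _)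
    | succ n ih =>
      rw [show t + 2 * (n + 1) = t + 2 * n + 1 + 1 by ring, Nat.factorial_succ, Nat.factorial_succ,
        Nat.cast_mul, Nat.cast_mul, norm_mul, norm_mul]
      have h1 := IsUltrametricDist.norm_natCast_le_one K (t + 2 * n + 1 + 1)
      have h2 := mul_le_mul_of_nonneg_left (h n) (norm_nonneg ((t + 2 * n).factorial : K))
      have h3 : 0 ≤ ‖((t + 2 * n + 1 : ℕ) : K)‖ * ‖((t + 2 * n).factorial : K)‖ * S (M + (n + 1)) :=
        mul_nonneg (by positivity) (h0 _)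
      calc _ = ‖((t + 2 * n + 1 + 1 : ℕ) : K)‖ * (‖((t + 2 * n + 1 : ℕ) : K)‖ *
            ‖((t + 2 * n).factorial : K)‖ * S (M + (n + 1))) := by ring
        _ ≤ ‖((t + 2 * n + 1 : ℕ) : K)‖ * ‖((t + 2 * n).factorial : K)‖ * S (M + (n + 1)) :=
          mul_le_of_le_one_left h3 h1
        _ ≤ 516 * (‖((t + 2 * n).factorial : K)‖ * S (M + n)) := by
          rw [← add_assoc]
          linarith
        _ ≤ _ := by rw [pow_succ]; linarith
  refine ⟨2 ^ t * S M, mul_nonneg (by positivity) (h0 M), fun n => ?_⟩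
  have h1 := (mul_le_mul_of_nonneg_right (hf (t + 2 * n)) (h0 (M + n))).trans (key n)
  rw [one_div, inv_pow, inv_mul_le_iff₀ (by positivity)] at h1
  calc S n ≤ S (M + n) := hS (by omega)
    _ ≤ _ := h1
    _ = 2 ^ t * S M * (4 * 516) ^ n := by rw [pow_add, pow_mul, mul_pow]; ring
    _ ≤ _ := by
      have := h0 M
      gcongr
      norm_num

section Main

variable {K A : Type} [NontriviallyNormedField K] [IsUltrametricDist K] [CharZero K]
  [NormedCommRing A]

omit [IsUltrametricDist K] in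
open Classical in
theorem redb_rec (ι : K →+* A) (u l : Fin 4 → A) (c : K) (hc : ∑ j, u j + ∑ j, l j = ι c) :
    ∃ (d : Fin 4 → ℕ) (w : ℕ → (Fin 4 → A) × A[X]),
      (∀ n, redbL (Pu u) (Pl l) d (w n) = X ^ n) ∧
      (∀ n i, n < i + 3 → (w n).2.coeff i = 0) ∧
      ∀ k : ℕ, c + k ≠ 0 → ι (c + k) • w (k + 3) = -(0, X ^ k) +
        ∑ j ∈ range (k + 3), (dl (Pu u) (Pl l) (X ^ k)).coeff j • w j := by
  obtain ⟨k0, hk0⟩ : ∃ k0 : ℕ, ∀ k : ℕ, c + k = 0 → k = k0 := by
    by_cases h : ∃ k : ℕ, c + k = 0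
    · obtain ⟨k0, h⟩ := h
      refine ⟨k0, fun k hk => ?_⟩
      have : (k : K) = k0 := by linear_combination hk - h
      exact_mod_cast this
    · exact ⟨0, fun k hk => absurd ⟨k, hk⟩ h⟩
  obtain ⟨w, hw⟩ := redb_seq (A := A) (W := (Fin 4 → A) × A[X])
    (fun n => if h : n < 3 then (Pi.single ⟨n, by omega⟩ 1, 0) else
      if c + (n - 3 : ℕ) = 0 then (Pi.single 3 1, 0) else
        ι (c + (n - 3 : ℕ))⁻¹ • -(0, X ^ (n - 3)))
    (fun n j => if n < 3 then 0 else
      ι (c + (n - 3 : ℕ))⁻¹ * (dl (Pu u) (Pl l) (X ^ (n - 3))).coeff j)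
  have h1 : ∀ (n : ℕ) (h : n < 3), w n = (Pi.single ⟨n, by omega⟩ 1, 0) := fun n h => by
    rw [hw n]
    simp [h]
  have h2 : ∀ k : ℕ, c + k = 0 → w (k + 3) = (Pi.single 3 1, 0) := fun k h => by
    rw [hw]
    simp [h]
  have h3 : ∀ k : ℕ, c + k ≠ 0 → w (k + 3) = ι (c + k)⁻¹ • (-(0, X ^ k) +
      ∑ j ∈ range (k + 3), (dl (Pu u) (Pl l) (X ^ k)).coeff j • w j) := fun k h => by
    rw [hw, dif_neg (by omega), Nat.add_sub_cancel, if_neg h, smul_add, smul_sum]
    simp only [if_neg (show ¬ k + 3 < 3 by omega), mul_smul]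
  refine ⟨![0, 1, 2, k0 + 3], w, fun n => ?_, fun n => ?_, fun k hk => ?_⟩
  · induction n using Nat.strong_induction_on with
    | _ n ih =>
    by_cases h : n < 3
    · rw [h1 n h, redbL_apply, redb_dl_zero, zero_add, redb_iot_single]
      interval_cases n <;> rfl
    obtain ⟨k, rfl⟩ : ∃ k, n = k + 3 := ⟨n - 3, by omega⟩
    by_cases hk : c + k = 0
    · rw [h2 k hk, redbL_apply, redb_dl_zero, zero_add, redb_iot_single, hk0 k hk]
      rfl
    · obtain ⟨e1, e2⟩ := redb_dl_coeff u l k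
      have e3 := redb_sum (fun n => (X ^ n : A[X])) e2
      rw [redb_sum_self, e1, hc, ← map_natCast ι, ← map_add] at e3
      rw [h3 k hk, map_smul, map_add, map_neg, map_sum, redbL_apply, redb_iot_zero, add_zero,
        sum_congr rfl fun j hj => by rw [map_smul, ih j (mem_range.1 hj)]]
      have e4 : -dl (Pu u) (Pl l) (X ^ k) + ∑ j ∈ range (k + 3),
          (dl (Pu u) (Pl l) (X ^ k)).coeff j • (X ^ j : A[X]) = ι (c + k) • X ^ (k + 3) := by
        nth_rewrite 1 [e3]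
        rw [neg_smul]
        abel
      rw [e4, smul_smul, ← map_mul, inv_mul_cancel₀ hk, map_one, one_smul]
  · induction n using Nat.strong_induction_on with
    | _ n ih =>
    intro i hi
    by_cases h : n < 3
    · rw [h1 n h, coeff_zero]
    obtain ⟨k, rfl⟩ : ∃ k, n = k + 3 := ⟨n - 3, by omega⟩
    by_cases hk : c + k = 0
    · rw [h2 k hk, coeff_zero]
    · rw [h3 k hk, Prod.smul_snd, Prod.snd_add, Prod.snd_neg, Prod.snd_sum, coeff_smul, coeff_add,
        coeff_neg, finsetSum_coeff, coeff_X_pow, if_neg (by omega), neg_zero, zero_add,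
        sum_eq_zero, smul_zero]
      intro j hj
      rw [mem_range] at hj
      rw [Prod.smul_snd, coeff_smul, ih j hj i (by omega), smul_zero]
  · rw [h3 k hk, smul_smul, ← map_mul, mul_inv_cancel₀ hk, map_one, one_smul]

theorem redb_bound (ι : K →+* A) (hι : ∀ a, ‖ι a‖ ≤ ‖a‖) {u l : Fin 4 → A}
    (hu : ∀ i, ‖u i‖ ≤ 3) (hl : ∀ i, ‖l i‖ ≤ 3) {c : K}
    (hf : ∀ N : ℕ, (1 / 2 : ℝ) ^ N ≤ ‖(N.factorial : K)‖) (M t : ℕ)
    (hM : ∀ n : ℕ, ‖c + (M + n : ℕ)‖ = ‖((t + 2 * n + 1 : ℕ) : K)‖) {w : ℕ → (Fin 4 → A) × A[X]}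
    (hw : ∀ k : ℕ, c + k ≠ 0 → ι (c + k) • w (k + 3) = -(0, X ^ k) +
        ∑ j ∈ range (k + 3), (dl (Pu u) (Pl l) (X ^ k)).coeff j • w j) :
    ∃ b : ℝ, ∀ n, redbN (w n) ≤ b * 4096 ^ n := by
  have hn : ∀ n : ℕ, ‖(n : A)‖ ≤ 1 := fun n => by
    rw [← map_natCast ι]
    exact (hι _).trans (IsUltrametricDist.norm_natCast_le_one K n)
  have hs : ∀ n, 0 ≤ ∑ j ∈ range n, redbN (w j) := fun n => sum_nonneg fun j _ => redbN_nonneg _
  obtain ⟨b, hb0, hb⟩ := redb_growth hf (S := fun n => 3 ^ n + ∑ j ∈ range n, redbN (w j))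
    (fun n => add_nonneg (by positivity) (hs n))
    (monotone_nat_of_le_succ fun n => by
      rw [sum_range_succ, pow_succ]
      have := redbN_nonneg (w n)
      have : (0 : ℝ) < 3 ^ n := by positivity
      linarith) (M + 3) t fun n => by
      have h0 : ((t + 2 * n + 1 : ℕ) : K) ≠ 0 := Nat.cast_ne_zero.2 (by omega)
      have hk : c + (M + n : ℕ) ≠ 0 := by
        rw [← norm_ne_zero_iff, hM, norm_ne_zero_iff]
        exact h0
      have h1 : ‖c + (M + n : ℕ)‖ ≤ 1 := by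
        rw [hM]
        exact IsUltrametricDist.norm_natCast_le_one K _
      rw [← hM, show M + 3 + n = M + n + 3 by ring]
      set k := M + n
      have e : w (k + 3) = ι (c + k)⁻¹ • (ι (c + k) • w (k + 3)) := by
        rw [smul_smul, ← map_mul, inv_mul_cancel₀ hk, map_one, one_smul]
      have h2 : redbN (ι (c + k) • w (k + 3)) ≤ 3 ^ k + 512 * ∑ j ∈ range (k + 3), redbN (w j) := by
        rw [hw k hk]
        refine (redbN_add _ _).trans (add_le_add ?_ ((redbN_sum _ _).trans ?_))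
        · rw [← neg_one_smul A]
          refine (redbN_smul _ _).trans ?_
          have h1 : ‖(1 : A)‖ ≤ 1 := by simpa using hn 1
          rw [norm_neg]
          exact (mul_le_of_le_one_left (redbN_nonneg _) h1).trans (redbN_X_pow h1 k)
        · rw [mul_sum]
          exact sum_le_sum fun j _ => (redbN_smul _ _).trans
            (mul_le_mul_of_nonneg_right (redb_dl_le hn hu hl k j) (redbN_nonneg _))
      have h3 : ‖c + k‖ * redbN (w (k + 3)) ≤ redbN (ι (c + k) • w (k + 3)) := by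
        have h4 := (redbN_smul (ι (c + k)⁻¹) (ι (c + k) • w (k + 3))).trans
          (mul_le_mul_of_nonneg_right (hι _) (redbN_nonneg _))
        rw [← e, norm_inv] at h4
        exact (le_inv_mul_iff₀ (norm_pos_iff.2 hk)).1 h4
      have h5 := mul_le_of_le_one_left (add_nonneg (by positivity : (0 : ℝ) ≤ 3 ^ (k + 3 + 1))
        (hs (k + 3))) h1
      have h6 : (0 : ℝ) < 3 ^ k := by positivity
      simp only [sum_range_succ _ (k + 3)]
      simp only [pow_succ] at h5 ⊢
      have := hs (k + 3)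
      linarith
  refine ⟨b * 4096, fun n => ?_⟩
  have h1 := hb (n + 1)
  simp only [sum_range_succ] at h1
  have h2 : (0 : ℝ) < 3 ^ (n + 1) := by positivity
  have := hs n
  rw [pow_succ (4096 : ℝ)] at h1
  linarith

theorem redb_main (ι : K →+* A) (hι : ∀ a, ‖ι a‖ ≤ ‖a‖) {u l : Fin 4 → A}
    (hu : ∀ i, ‖u i‖ ≤ 3) (hl : ∀ i, ‖l i‖ ≤ 3) {c : K} (hc : ∑ j, u j + ∑ j, l j = ι c)
    (hf : ∀ N : ℕ, (1 / 2 : ℝ) ^ N ≤ ‖(N.factorial : K)‖) (M t : ℕ)
    (hM : ∀ n : ℕ, ‖c + (M + n : ℕ)‖ = ‖((t + 2 * n + 1 : ℕ) : K)‖)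
    (hB : ∀ (d : Fin 4 → ℕ) (ρ : Fin 4 → A) (h : A[X]) (k : ℕ),
      dl (Pu u) (Pl l) h = iot d ρ → h.coeff k = 1 → ∃ a : Fin 4 → A, ∑ i, a i * ρ i = 1) :
    ∃ D : RD A, IsRed (Pu u) (Pl l) D := by
  obtain ⟨d, w, h1, h2, h3⟩ := redb_rec ι u l c hc
  obtain ⟨b, hb⟩ := redb_bound ι hι hu hl hf M t hM h3
  set Ω : ℕ → (Fin 4 → A) × A[X] := fun k =>
    (dl (Pu u) (Pl l) (X ^ k)).sum fun n a => a • w n with hΩ
  have hΩ1 : ∀ k : ℕ, Ω k = ∑ j ∈ range (k + 3), (dl (Pu u) (Pl l) (X ^ k)).coeff j • w j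
      - ι (c + k) • w (k + 3) := fun k => by
    obtain ⟨e1, e2⟩ := redb_dl_coeff u l k
    rw [hΩ]
    simp only
    rw [redb_sum w e2, e1, hc, ← map_natCast ι, ← map_add, neg_smul, sub_eq_add_neg]
  have hΩ2 : ∀ k : ℕ, c + k ≠ 0 → Ω k = (0, X ^ k) := fun k hk => by
    rw [hΩ1, h3 k hk]
    abel
  have hΩ3 : ∀ k, redbL (Pu u) (Pl l) d (Ω k) = dl (Pu u) (Pl l) (X ^ k) := fun k => by
    rw [hΩ]
    simp only
    rw [redb_map_sum]
    simp only [h1]
    exact redb_sum_self _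
  obtain ⟨a, z, hz, hT⟩ : ∃ (a : Fin 4 → A) (z : (Fin 4 → A) × A[X]),
      redbL (Pu u) (Pl l) d z = 0 ∧ ∀ k, Ω k + (∑ i, a i * (Ω k).1 i) • z = (0, X ^ k) := by
    by_cases h : ∃ k : ℕ, c + k = 0
    · obtain ⟨k0, h⟩ := h
      have e1 : redbL (Pu u) (Pl l) d ((0, X ^ k0) - Ω k0) = 0 := by
        rw [map_sub, hΩ3, redbL_apply, redb_iot_zero, add_zero, sub_self]
      obtain ⟨a, ha⟩ := hB d (Ω k0).1 (X ^ k0 - (Ω k0).2) k0 (by
        have e2 := (redbL (Pu u) (Pl l) d).map_sub (0, X ^ k0 - (Ω k0).2) ((Ω k0).1, 0)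
        rw [redbL_apply _ _ _ 0, redbL_apply _ _ _ _ 0, redb_iot_zero, redb_dl_zero, add_zero,
          zero_add] at e2
        have e3 : ((0 : Fin 4 → A), X ^ k0 - (Ω k0).2) - ((Ω k0).1, 0) = (0, X ^ k0) - Ω k0 :=
          Prod.ext rfl (sub_zero _)
        rw [← sub_eq_zero, ← e2, e3, e1]) (by
        rw [coeff_sub, coeff_X_pow_self, hΩ1, h, map_zero, zero_smul, sub_zero, Prod.snd_sum,
          finsetSum_coeff, sum_eq_zero, sub_zero]
        intro j hj
        rw [Prod.smul_snd, coeff_smul, h2 j k0 (mem_range.1 hj), smul_zero])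
      refine ⟨a, _, e1, fun k => ?_⟩
      by_cases hk : c + k = 0
      · have : (k : K) = k0 := by linear_combination hk - h
        rw [Nat.cast_inj.1 this, ha, one_smul, add_sub_cancel]
      · simp [hΩ2 k hk]
    · exact ⟨0, 0, map_zero _, fun k => by simp [hΩ2 k fun hk => h ⟨k, hk⟩]⟩
  set T : ((Fin 4 → A) × A[X]) →ₗ[A] (Fin 4 → A) × A[X] := LinearMap.id +
    (∑ i, a i • (LinearMap.proj i ∘ₗ LinearMap.fst A (Fin 4 → A) A[X])).smulRight z with hTd
  have hT1 : ∀ v, T v = v + (∑ i, a i * v.1 i) • z := fun v => by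
    simp [hTd]
  have hT2 : ∀ k, ((dl (Pu u) (Pl l) (X ^ k)).sum fun n a => a • T (w n)) = (0, X ^ k) := fun k => by
    rw [← redb_map_sum, hT1]
    exact hT k
  have hT3 : ∀ n, redbN (T (w n)) ≤ (1 + (∑ i, ‖a i‖) * redbN z) * b * 4096 ^ n := fun n => by
    have e1 : ‖∑ i, a i * (w n).1 i‖ ≤ (∑ i, ‖a i‖) * redbN (w n) := by
      rw [sum_mul]
      refine (norm_sum_le _ _).trans (sum_le_sum fun i _ => (norm_mul_le _ _).trans ?_)
      exact mul_le_mul_of_nonneg_left ((norm_le_pi_norm _ i).trans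
        (le_add_of_nonneg_right (norm_nonneg _))) (norm_nonneg _)
    have e2 : 0 ≤ 1 + (∑ i, ‖a i‖) * redbN z :=
      add_nonneg zero_le_one (mul_nonneg (by positivity) (redbN_nonneg _))
    rw [hT1, mul_assoc]
    refine le_trans ?_ (mul_le_mul_of_nonneg_left (hb n) e2)
    have e3 := (redbN_smul _ z).trans (mul_le_mul_of_nonneg_right e1 (redbN_nonneg _))
    linarith [redbN_add (w n) ((∑ i, a i * (w n).1 i) • z)]
  refine ⟨⟨fun n => (T (w n)).1, fun n => (T (w n)).2, d⟩,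
    ⟨_, fun n => ⟨le_trans (le_add_of_nonneg_right (norm_nonneg _)) (hT3 n),
      le_trans (le_add_of_nonneg_left (norm_nonneg _)) (hT3 n)⟩⟩, fun n => ?_, fun n => ?_,
    fun n => ?_⟩
  · change _ = redbL (Pu u) (Pl l) d (T (w n))
    rw [hT1, map_add, map_smul, hz, smul_zero, add_zero, h1]
  · have := redb_map_sum (LinearMap.fst A (Fin 4 → A) A[X]) (fun n => T (w n))
      (dl (Pu u) (Pl l) (X ^ n))
    rw [hT2] at this
    exact this.symm
  · have := redb_map_sum (LinearMap.snd A (Fin 4 → A) A[X]) (fun n => T (w n))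
      (dl (Pu u) (Pl l) (X ^ n))
    rw [hT2] at this
    exact this.symm

end Main

theorem redb_inj {K : Type} [Field K] [CharZero K] {u l : Fin 4 → K}
    (hg : ∀ (n : ℕ) j, u 2 + n + l j ≠ 0) {g : K[X]} (h : dl (Pu u) (Pl l) g = 0) : g = 0 := by
  have h1 : ∀ z : K, (Pu u).eval z * g.eval z = (Pl l).eval z * g.eval (z + 1) := fun z => by
    have := congrArg (eval z) h
    simpa [dl, eval_comp, sub_eq_zero] using this
  have h2 : ∀ n : ℕ, (Pl l).eval (u 2 + n) ≠ 0 := fun n => by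
    simp only [Pl, eval_prod, eval_add, eval_X, eval_C]
    exact prod_ne_zero_iff.2 fun j _ => hg n j
  have h3 : ∀ n : ℕ, g.eval (u 2 + n + 1) = 0 := by
    intro n
    induction n with
    | zero =>
      refine (mul_eq_zero.1 ?_).resolve_left (h2 0)
      rw [← h1, Pu, eval_prod, prod_eq_zero (mem_univ 2) (by simp), zero_mul]
    | succ n ih =>
      refine (mul_eq_zero.1 ?_).resolve_left (h2 (n + 1))
      rw [← h1, Nat.cast_succ, ← add_assoc, ih, mul_zero]
  refine eq_zero_of_infinite_isRoot g (Set.infinite_of_injective_forall_mem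
    (f := fun n : ℕ => u 2 + n + 1) (fun a b hab => ?_) h3)
  simpa using hab

theorem redb_bezout {K : Type} [Field K] [IsAlgClosed K] (ρ : Fin 4 → K[X])
    (h : ∀ s : K, ∃ i, (ρ i).eval s ≠ 0) : ∃ a : Fin 4 → K[X], ∑ i, a i * ρ i = 1 := by
  obtain ⟨g, hg⟩ := (IsPrincipalIdealRing.principal (Ideal.span (Set.range ρ))).principal
  have hu : IsUnit g := by
    rw [isUnit_iff_degree_eq_zero]
    by_contra hd
    obtain ⟨s, hs⟩ := IsAlgClosed.exists_root g hd
    obtain ⟨i, hi⟩ := h s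
    have : ρ i ∈ Ideal.span {g} := by
      rw [← Ideal.submodule_span_eq, ← hg]
      exact Ideal.subset_span ⟨i, rfl⟩
    exact hi (hs.dvd (Ideal.mem_span_singleton.1 this))
  refine Ideal.mem_span_range_iff_exists_fun.1 ?_
  rw [hg, Ideal.submodule_span_eq, Ideal.span_singleton_eq_top.2 hu]
  trivial

/-- polynomials with the norm of `An K 2` -/
def RedbS (K : Type) [NontriviallyNormedField K] : Type := K[X]

namespace RedbS

variable {K : Type} [NontriviallyNormedField K]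

instance : CommRing (RedbS K) := inferInstanceAs (CommRing K[X])

/-- the embedding -/
def toAn : RedbS K →+* An K 2 := An.ofPoly

theorem toAn_inj : Function.Injective (toAn : RedbS K → An K 2) := fun a b h =>
  Polynomial.ext fun n =>
    (An.co_ofPoly (R := 2) a n).symm.trans ((congrArg (An.co n) h).trans (An.co_ofPoly b n))

instance : NormedCommRing (RedbS K) := NormedCommRing.induced (RedbS K) (An K 2) toAn toAn_inj

theorem norm_eq (a : RedbS K) : ‖a‖ = ‖toAn a‖ := rfl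

/-- constants -/
def cst : K →+* RedbS K := Polynomial.C

/-- the variable -/
def var : RedbS K := (X : K[X])

/-- evaluation -/
def evl (s : K) : RedbS K →+* K := evalRingHom s

theorem toAn_cst (a : K) : toAn (cst a) = An.C a := rfl

theorem toAn_var : toAn (var : RedbS K) = An.X := rfl

theorem norm_cst (a : K) : ‖cst a‖ = ‖a‖ := An.norm_C a

theorem norm_var : ‖(var : RedbS K)‖ = 2 := An.norm_X (A := K) (R := 2)

theorem evl_cst (s a : K) : evl s (cst a) = a := eval_C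

theorem bezout [IsAlgClosed K] (ρ : Fin 4 → RedbS K) (h : ∀ s : K, ∃ i, evl s (ρ i) ≠ 0) :
    ∃ a : Fin 4 → RedbS K, ∑ i, a i * ρ i = 1 := redb_bezout ρ h

end RedbS

end RedB

/-- the line `(x - s, y + s, u, v)` -/
def lineU {A : Type} [CommRing A] (x y u v s : A) : Fin 4 → A := ![x - s, y + s, u, v]

variable {K : Type} [NontriviallyNormedField K] [CompleteSpace K] [IsUltrametricDist K] [CharZero K]
  [IsAlgClosed K] {π : K} {p : ℕ}

theorem exists_red (c : Ctx K p π) (x y u v : K) (l : Fin 4 → K) (hx : ‖x‖ ≤ 1) (hy : ‖y‖ ≤ 1)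
    (hu : ‖u‖ ≤ 1) (hv : ‖v‖ ≤ 1) (hl : ∀ j, ‖l j‖ ≤ 1)
    (hc : ∃ m : ℤ, 2 * (x + y + u + v + ∑ j, l j) = m) (hg : ∀ (n : ℕ) j, u + n + l j ≠ 0) :
    ∃ D : RD (An K 2), IsRed (Pu (lineU (An.C x) (An.C y) (An.C u) (An.C v) An.X))
      (Pl fun j => An.C (l j)) D := by
  obtain ⟨m, hm⟩ := hc
  have hC : ∀ {a : K}, ‖a‖ ≤ 1 → ‖RedbS.cst a‖ ≤ 1 := fun h => (RedbS.norm_cst _).trans_le h
  have h2 : ‖(2 : K)‖ = 1 := by
    have := c.big
    exact_mod_cast norm_coprime (K := K) c.prime c.norm_p (m := 2)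
      fun h => by have := Nat.le_of_dvd two_pos h; omega
  obtain ⟨D, hD⟩ := redb_main (A := RedbS K) RedbS.cst (fun a => (RedbS.norm_cst a).le)
    (u := lineU (RedbS.cst x) (RedbS.cst y) (RedbS.cst u) (RedbS.cst v) RedbS.var)
    (l := fun j => RedbS.cst (l j))
    (fun i => by
      have h1 := norm_sub_le (RedbS.cst x) RedbS.var
      have h2 := norm_add_le (RedbS.cst y) RedbS.var
      rw [RedbS.norm_var] at h1 h2
      fin_cases i
      · exact h1.trans (by linarith [hC hx])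
      · exact h2.trans (by linarith [hC hy])
      · exact (hC hu).trans (by norm_num)
      · exact (hC hv).trans (by norm_num))
    (fun i => (hC (hl i)).trans (by norm_num)) (c := x + y + u + v + ∑ j, l j)
    (by
      simp only [lineU, Fin.sum_univ_four, Matrix.cons_val, map_add]
      ring)
    (fun N => (pow_le_pow_left₀ (by norm_num) c.norm_pi.2.1 N).trans
      (pow_le_norm_factorial c.prime c.norm_p (norm_nonneg _) c.norm_pi.1 N))
    (m.natAbs + 1) (m + 2 * m.natAbs + 1).toNat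
    (fun n => by
      have e : (((m + 2 * m.natAbs + 1).toNat + 2 * n + 1 : ℕ) : ℤ)
          = m + 2 * ((m.natAbs + 1 + n : ℕ) : ℤ) := by omega
      rw [← Int.cast_natCast ((m + 2 * m.natAbs + 1).toNat + 2 * n + 1), e, Int.cast_add,
        Int.cast_mul, Int.cast_natCast, ← hm, Int.cast_ofNat, ← mul_add, norm_mul, h2, one_mul])
    (fun d ρ h k h1 hk => RedbS.bezout ρ fun s => by
      by_contra h0
      push Not at h0
      have h3 := congrArg (Polynomial.map (RedbS.evl s)) h1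
      rw [redb_dl_map, redb_iot_map, Pu_map, Pl_map, funext h0] at h3
      have h4 := redb_inj (fun n j => by
        simpa only [lineU, Matrix.cons_val, RedbS.evl_cst] using hg n j)
        (h3.trans (redb_iot_zero d))
      have h5 := congrArg (fun f => f.coeff k) h4
      simp [hk] at h5)
  have h := hD.map RedbS.toAn fun a => (RedbS.norm_eq a).ge
  rw [Pu_map, Pl_map] at h
  refine ⟨D.map RedbS.toAn, ?_⟩
  convert h using 2
  · funext i
    fin_cases i <;> simp [lineU, RedbS.toAn_cst, RedbS.toAn_var]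
  · rfl

theorem exists_red_field (c : Ctx K p π) (u l : Fin 4 → K) (hu : ∀ j, ‖u j‖ ≤ 1)
    (hl : ∀ j, ‖l j‖ ≤ 1) (hc : ∃ m : ℤ, 2 * (∑ j, u j + ∑ j, l j) = m)
    (hg : ∀ (n : ℕ) j, u 2 + n + l j ≠ 0) : ∃ D : RD K, IsRed (Pu u) (Pl l) D := by
  obtain ⟨D, hD⟩ := exists_red c (u 0) (u 1) (u 2) (u 3) l (hu 0) (hu 1) (hu 2) (hu 3) hl
    (by simpa only [Fin.sum_univ_four (f := u)] using hc) hg
  have h0 : ‖(0 : K)‖ ≤ ((2 : ℕ) : ℝ) := by simp
  have hC : ∀ a : K, An.evH (0 : K) (An.PB.of_le h0) (An.C a : An K 2) = a := fun a => by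
    rw [An.evH_apply, An.ev_zero]
    exact (An.co_ofPoly _ _).trans (coeff_C_zero)
  have hX : An.evH (0 : K) (An.PB.of_le h0) (An.X : An K 2) = 0 := by
    rw [An.evH_apply, An.ev_zero]
    exact (An.co_ofPoly _ _).trans (coeff_X_zero)
  have h := hD.map (An.evH (0 : K) (An.PB.of_le h0)) fun f => An.norm_ev_le h0 f
  rw [Pu_map, Pl_map] at h
  have e1 : (fun i => An.evH (0 : K) (An.PB.of_le h0)
      (lineU (An.C (u 0)) (An.C (u 1)) (An.C (u 2)) (An.C (u 3)) (An.X : An K 2) i)) = u := by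
    funext i
    fin_cases i <;> simp [lineU, -An.evH_apply, hC, hX]
  simp only [e1, hC] at h
  exact ⟨_, h⟩

end

end Pool.Agent.P.MP_9484ad_co
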