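import Pool.Agent.P.MP_9484ad_co.Fam
import Pool.Agent.P.MP_9484ad_co.Rank
import Pool.Agent.P.MP_9484ad_co.Sym

/-! The Rankin trick in the character aspect. -/

namespace Pool.Agent.P.MP_9484ad_co

open Finset

noncomputable section

variable {K : Type} [NontriviallyNormedField K] [CompleteSpace K] [IsUltrametricDist K] [CharZero K]
  [IsAlgClosed K] {π : K} {p q : ℕ}

/-- a representative modulo `q - 1` that is at least `q - 1` -/
def step_up (q : ℕ) (k : ℤ) : ℤ := k + ((q : ℤ) - 1) * (|k| + 1)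

theorem step_up_ge (hq : 2 ≤ q) (k : ℤ) : (q : ℤ) - 1 ≤ step_up q k := by
  have h1 : (2 : ℤ) ≤ q := by exact_mod_cast hq
  have h2 := neg_abs_le k
  have h3 := abs_nonneg k
  unfold step_up
  nlinarith

theorem step_up_nonneg (hq : 2 ≤ q) (k : ℤ) : 0 ≤ step_up q k := by
  have h1 : (2 : ℤ) ≤ q := by exact_mod_cast hq
  have h2 := step_up_ge hq k
  omega

theorem step_up_dvd {a b : ℤ} (h : ¬ ((q : ℤ) - 1) ∣ a + b) :
    ¬ ((q : ℤ) - 1) ∣ step_up q a + step_up q b := by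
  intro h'
  apply h
  have h2 : a + b = step_up q a + step_up q b - ((q : ℤ) - 1) * (|a| + 1 + (|b| + 1)) := by
    unfold step_up
    ring
  rw [h2]
  exact dvd_sub h' (dvd_mul_right _ _)

theorem step_up_sum {ku kl : Fin 4 → ℤ} (h : ((q : ℤ) - 1) ∣ 2 * (∑ m, ku m + ∑ m, kl m)) :
    ((q : ℤ) - 1) ∣ 2 * (∑ m, step_up q (ku m) + ∑ m, step_up q (kl m)) := by
  have h2 : 2 * (∑ m, step_up q (ku m) + ∑ m, step_up q (kl m)) =
      2 * (∑ m, ku m + ∑ m, kl m) +
        ((q : ℤ) - 1) * (2 * (∑ m, (|ku m| + 1) + ∑ m, (|kl m| + 1))) := by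
    simp only [step_up, Fin.sum_univ_four]
    ring
  rw [h2]
  exact dvd_add h (dvd_mul_right _ _)

theorem step_modEq (q r : ℕ) {a b : ℤ} (t : ℤ) (h : b - a = Nr q r * ((q : ℤ) - 1) * t) :
    a ≡ b [ZMOD (((q ^ r : ℕ) : ℤ) - 1)] := by
  rw [Int.modEq_iff_dvd, h, Nr_mul]
  push_cast
  exact dvd_mul_right _ _

theorem step_up_modEq (q r : ℕ) (k : ℤ) :
    Nr q r * step_up q k ≡ Nr q r * k [ZMOD (((q ^ r : ℕ) : ℤ) - 1)] :=
  step_modEq q r (-(|k| + 1)) (by unfold step_up; ring)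

theorem step_onLine_modEq {N M : ℤ} {k k' : Fin 4 → ℤ} {j j' : ℤ}
    (hk : ∀ m, N * k m ≡ N * k' m [ZMOD M]) (hj : j ≡ j' [ZMOD M]) (m : Fin 4) :
    onLine N k j m ≡ onLine N k' j' m [ZMOD M] := by
  fin_cases m
  · exact (hk 0).sub hj
  · exact (hk 1).add hj
  · exact hk 2
  · exact hk 3

theorem step_onLine_zero (N : ℤ) (k : Fin 4 → ℤ) : onLine N k 0 = fun m => N * k m := by
  funext m
  fin_cases m <;> simp [onLine]

theorem step_two_le (hq : 2 ≤ q) {r : ℕ} (hr : 1 ≤ r) : 2 ≤ q ^ r :=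
  hq.trans (Nat.le_self_pow (by omega) q)

omit [IsAlgClosed K] [CompleteSpace K] [IsUltrametricDist K] [CharZero K] in
theorem step_norm_q (h : Bd π q) : ‖(q : K)‖ ≤ 1 / 4 := by
  have := h.norm_Q
  have h2 := norm_nonneg (q : K)
  linarith

/-- the family attached to arbitrary exponents -/
theorem step_fam (c : Ctx K p π) (h : Bd π q) (ku kl : Fin 4 → ℤ)
    (g1 : ∀ m, ¬ ((q : ℤ) - 1) ∣ ku 1 + kl m) (g2 : ∀ m, ¬ ((q : ℤ) - 1) ∣ ku 2 + kl m)
    (hs : ((q : ℤ) - 1) ∣ 2 * (∑ m, ku m + ∑ m, kl m)) :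
    ∃ F : Fam K (Fin 4) q,
      (∀ r, 1 ≤ r → ∀ j < q ^ r, (F.Φr r j (j / (1 - (q : K) ^ r))).trace =
        -Hs π (q ^ r) (onLine (Nr q r) ku j) fun m => Nr q r * kl m) ∧
      ∀ r, 1 ≤ r → (evM 0 F.Φ0 ^ r).trace =
        -Hs π (q ^ r) (fun m => Nr q r * ku m) fun m => Nr q r * kl m := by
  have hq := h.two_le
  obtain ⟨F, h1, h2⟩ := exists_fam c h (fun m => step_up q (ku m)) (fun m => step_up q (kl m))
    (step_up_ge hq _) (fun m => step_up_nonneg hq _) (fun m => step_up_nonneg hq _)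
    (fun m => step_up_dvd (g1 m)) (fun m => step_up_dvd (g2 m)) (step_up_sum hs)
  refine ⟨F, fun r hr j hj => ?_, fun r hr => ?_⟩
  · rw [h1 r hr j hj, Hs_congr π (step_two_le hq hr)
      (step_onLine_modEq (k' := ku) (fun m => step_up_modEq q r _) (Int.ModEq.refl _))
      fun m => step_up_modEq q r _]
  · rw [h2 r hr, Hs_congr π (step_two_le hq hr) (fun m => step_up_modEq q r _)
      fun m => step_up_modEq q r _]

theorem step_prod_neg {ν : Type} [Fintype ν] (hν : Even (Fintype.card ν)) {A : Type}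
    [CommRing A] (f : ν → A) : ∏ n, -f n = ∏ n, f n := by
  rw [Finset.prod_neg, card_univ, hν.neg_one_pow, one_mul]

/-- the moment of a product of families differs from the base term by a finite power sum -/
theorem moment_powerSum (c : Ctx K p π) (h : Bd π q) {ν : Type} [Fintype ν] (hν : Even (Fintype.card ν))
    (ku kl : ν → Fin 4 → ℤ) (g1 : ∀ n m, ¬ ((q : ℤ) - 1) ∣ ku n 1 + kl n m)
    (g2 : ∀ n m, ¬ ((q : ℤ) - 1) ∣ ku n 2 + kl n m)
    (hs : ∀ n, ((q : ℤ) - 1) ∣ 2 * (∑ m, ku n m + ∑ m, kl n m)) :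
    ∃ M : Multiset K, ∀ r, 1 ≤ r →
      ((q : K) ^ r - 1)⁻¹ * ∑ j ∈ range (q ^ r - 1),
        ∏ n, Hs π (q ^ r) (onLine (Nr q r) (ku n) j) (fun m => Nr q r * kl n m) -
      ∏ n, Hs π (q ^ r) (fun m => Nr q r * ku n m) (fun m => Nr q r * kl n m) =
        -(M.map (· ^ r)).sum := by
  classical
  have hq := h.two_le
  choose F hF1 hF2 using fun n => step_fam c h (ku n) (kl n) (g1 n) (g2 n) (hs n)
  obtain ⟨T, hT1, hT2⟩ := Fam.exists_tens F
  have hM : 0 < p * (q - 1) := Nat.mul_pos c.prime.pos (by omega)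
  have hd := dold_moment c h ku kl fun _ => ![-1, 1, 0, 0]
  have he : ∀ (r : ℕ) (n : ν) (j : ℕ), (fun m => Nr q r * ku n m + (![-1, 1, 0, 0] : Fin 4 → ℤ) m * j) =
      onLine (Nr q r) (ku n) j := by
    intro r n j
    funext m
    fin_cases m <;> simp [onLine, sub_eq_add_neg]
  simp only [he] at hd
  refine exists_powerSum c.prime c.norm_p hM hd (dold_base c h ku kl) fun θ hθ => ?_
  obtain ⟨A, hA⟩ := T.dec c.prime c.norm_p (by omega) (step_norm_q h) hθ
  refine ⟨A, fun n => ?_⟩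
  rw [exC_congr (fun r hr => ?_)]
  · exact hA n
  have hb : (evM 0 T.Φ0 ^ r).trace =
      ∏ n, Hs π (q ^ r) (fun m => Nr q r * ku n m) (fun m => Nr q r * kl n m) := by
    rw [hT2, evM_tens (by simp), tens_pow, trace_tens, ← step_prod_neg hν]
    exact Finset.prod_congr rfl fun n _ => by rw [hF2 n r hr, neg_neg]
  have hj : ∀ j ∈ range (q ^ r), (T.Φr r j (j / (1 - (q : K) ^ r))).trace =
      ∏ n, Hs π (q ^ r) (onLine (Nr q r) (ku n) j) (fun m => Nr q r * kl n m) := by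
    intro j hj
    rw [hT1, trace_tens, ← step_prod_neg hν]
    exact Finset.prod_congr rfl fun n _ => by rw [hF1 n r hr j (mem_range.1 hj), neg_neg]
  have h2 := step_two_le hq hr
  obtain ⟨a, ha⟩ : ∃ a, q ^ r = a + 1 := ⟨q ^ r - 1, by omega⟩
  have hlast : ∏ n, Hs π (q ^ r) (onLine (Nr q r) (ku n) (a : ℕ)) (fun m => Nr q r * kl n m) =
      ∏ n, Hs π (q ^ r) (fun m => Nr q r * ku n m) (fun m => Nr q r * kl n m) := by
    refine Finset.prod_congr rfl fun n _ => ?_
    rw [← step_onLine_zero (Nr q r) (ku n)]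
    refine Hs_congr π h2 (step_onLine_modEq (fun m => Int.ModEq.refl _) ?_) fun m => Int.ModEq.refl _
    rw [Int.modEq_zero_iff_dvd, ha]
    push_cast
    simp
  rw [Finset.sum_congr rfl hj, hb]
  have h3 : range (q ^ r) = range (a + 1) := by rw [ha]
  have h4 : range (q ^ r - 1) = range a := by rw [ha, Nat.add_sub_cancel]
  rw [h3, h4, Finset.sum_range_succ, hlast, add_sub_cancel_right]

/-- the exponents of the conjugate factor -/
def step_cu (ku : Fin 4 → ℤ) : Bool → Fin 4 → ℤ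
  | true => ku
  | false => ![-ku 1, -ku 0, -ku 2, -ku 3]

def step_cl (kl : Fin 4 → ℤ) : Bool → Fin 4 → ℤ
  | true => kl
  | false => fun m => -kl m

theorem step_c_realize : True := by
  have := @step_cu.eq_def
  have := @step_cu.eq_1
  have := @step_cu.eq_2
  have := @step_cl.eq_def
  have := @step_cl.eq_1
  have := @step_cl.eq_2
  trivial

omit [IsAlgClosed K] in
theorem step_term (c : Ctx K p π) {Q : ℕ} (h : Bd π Q) (hQ : Odd Q) (φ : K →+* ℂ) (N : ℤ)
    (ku kl : Fin 4 → ℤ) (j : ℤ) (m : ℕ) :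
    φ (∏ n : Fin (2 * m) × Bool, Hs π Q (onLine N (step_cu ku n.2) j)
      fun i => N * step_cl kl n.2 i) =
      ((‖φ (Hs π Q (onLine N ku j) fun i => N * kl i)‖ ^ (4 * m) : ℝ) : ℂ) := by
  have h1 := conj_Hs c h hQ φ (onLine N ku j) fun i => N * kl i
  have h2 : Hs π Q (onLine N (step_cu ku false) j) (fun i => N * step_cl kl false i) =
      Hs π Q (fun i => -onLine N ku j i) fun i => -(N * kl i) := by
    rw [← Hs_perm π Q (fun i => -onLine N ku j i) (fun i => -(N * kl i)) (Equiv.swap 0 1)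
      (Equiv.refl _)]
    congr 1
    · funext i
      fin_cases i <;> simp [onLine, step_cu, Equiv.swap_apply_def] <;> ring
    · funext i
      simp [step_cl]
  rw [map_prod, Fintype.prod_prod_type]
  simp only [Fintype.prod_bool, h2]
  rw [Finset.prod_const, card_univ, Fintype.card_fin]
  set e : ℤ := ∑ i, onLine N ku j i + ∑ i, N * kl i
  set x := φ (Hs π Q (onLine N ku j) fun i => N * kl i) with hx
  set y := φ (Hs π Q (fun i => -onLine N ku j i) fun i => -(N * kl i))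
  have h3 : ((-1 : ℂ) ^ e) ^ 2 = 1 := by
    rw [sq, ← mul_zpow]
    simp
  have h4 : (x * y) ^ 2 = (x * (starRingEnd ℂ) x) ^ 2 := by
    rw [h1, mul_pow, mul_pow, mul_pow, h3, one_mul]
  have h5 : φ (Hs π Q (onLine N (step_cu ku true) j) fun i => N * step_cl kl true i) = x := rfl
  rw [h5, pow_mul, h4, Complex.mul_conj', ← pow_mul, ← pow_mul]
  push_cast
  congr 1
  ring

theorem step (c : Ctx K p π) (h : Bd π q) (hq : Odd q) (φ : K →+* ℂ) (ku kl : Fin 4 → ℤ)
    (g : ∀ m m', ¬ ((q : ℤ) - 1) ∣ ku m + kl m')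
    (hs : ((q : ℤ) - 1) ∣ 2 * (∑ m, ku m + ∑ m, kl m)) {A : ℝ} (hb : RB φ π q ku kl A) (j : ℤ) :
    RB φ π q (onLine 1 ku j) kl 4 := by
  classical
  have hq2 := h.two_le
  have hq2' : (2 : ℤ) ≤ q := by exact_mod_cast hq2
  obtain ⟨F, hF, -⟩ := step_fam c h ku kl (g 1) (g 2) hs
  obtain ⟨j0, hj0⟩ : ∃ j0 : ℕ, (j0 : ℤ) = j % ((q : ℤ) - 1) :=
    ⟨_, Int.toNat_of_nonneg (Int.emod_nonneg _ (by omega))⟩
  have hj1 : (j0 : ℤ) < (q : ℤ) - 1 := hj0 ▸ Int.emod_lt_of_pos _ (by omega)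
  have hn1 : ‖1 - (q : K)‖ = 1 := by
    have h1 := step_norm_q h
    rw [sub_eq_add_neg, IsUltrametricDist.norm_add_eq_max_of_norm_ne_norm
      (by rw [norm_one, norm_neg]; linarith), norm_one, norm_neg, max_eq_left (by linarith)]
  have hne : 1 - (q : K) ≠ 0 := norm_ne_zero_iff.1 (by rw [hn1]; exact one_ne_zero)
  set s0 : K := j0 / (1 - (q : K)) with hs0
  have hs1 : ‖s0‖ ≤ 1 := by
    rw [hs0, norm_div, hn1, div_one]
    exact IsUltrametricDist.norm_natCast_le_one K j0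
  have hfix : q * s0 + j0 = s0 := by
    rw [hs0]
    field_simp
    ring
  set M : Matrix (Fin 4) (Fin 4) ℂ := φ.mapMatrix (evM s0 (F.Φ j0)) with hM
  have hN : ∀ r, ((∑ t ∈ range r, q ^ t : ℕ) : ℤ) = Nr q r := fun r => by
    unfold Nr
    push_cast
    rfl
  have hNpos : ∀ r, 1 ≤ r → 1 ≤ Nr q r := fun r hr => by
    obtain ⟨a, rfl⟩ : ∃ a, r = a + 1 := ⟨r - 1, by omega⟩
    have h1 := Nr_nonneg q a
    have h2 : (0 : ℤ) < (q : ℤ) ^ a := by positivity
    rw [Nr_succ]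
    omega
  have hlt : ∀ r, 1 ≤ r → (∑ t ∈ range r, q ^ t) * j0 < q ^ r - 1 := fun r hr => by
    have h1 := Nr_mul q r
    have h2 := hNpos r hr
    have h3 : (((∑ t ∈ range r, q ^ t) * j0 + 1 : ℕ) : ℤ) < ((q ^ r : ℕ) : ℤ) := by
      rw [Nat.cast_add, Nat.cast_mul, hN]
      push_cast
      nlinarith
    have h4 : (∑ t ∈ range r, q ^ t) * j0 + 1 < q ^ r := by exact_mod_cast h3
    omega
  have htr : ∀ r, 1 ≤ r → ‖(M ^ r).trace‖ = ‖φ (Hs π (q ^ r)
      (onLine (Nr q r) ku (((∑ t ∈ range r, q ^ t) * j0 : ℕ) : ℤ)) fun m => Nr q r * kl m)‖ := by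
    intro r hr
    have h1 := hF r hr _ ((hlt r hr).trans_le (Nat.sub_le _ _))
    have h2 : (((∑ t ∈ range r, q ^ t) * j0 : ℕ) : K) / (1 - (q : K) ^ r) = s0 := by
      have h3 : ((∑ t ∈ range r, q ^ t : ℕ) : K) ≠ 0 := by
        have h4 := hNpos r hr
        rw [← hN] at h4
        exact Nat.cast_ne_zero.2 (by omega)
      have h4 : 1 - (q : K) ^ r = ((∑ t ∈ range r, q ^ t : ℕ) : K) * (1 - q) := by
        push_cast
        rw [geom_sum_mul_neg]
      rw [h4, Nat.cast_mul, mul_div_mul_left _ _ h3]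
    rw [h2, F.pow (by omega) hs1 hfix hr] at h1
    rw [hM, ← map_pow, RingHom.mapMatrix_apply, ← AddMonoidHom.map_trace, h1, map_neg, norm_neg]
  have key := rankin M (q := q) (B := √q ^ 7) (by exact_mod_cast (by omega : 1 ≤ q))
    (by positivity)
    (fun m r => φ (((q : K) ^ r - 1)⁻¹ * ∑ j ∈ range (q ^ r - 1),
      ∏ n : Fin (2 * m) × Bool, Hs π (q ^ r) (onLine (Nr q r) (step_cu ku n.2) j)
        fun i => Nr q r * step_cl kl n.2 i))
    (fun m r => φ (∏ n : Fin (2 * m) × Bool, Hs π (q ^ r) (fun i => Nr q r * step_cu ku n.2 i)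
        fun i => Nr q r * step_cl kl n.2 i))
    (fun m r _ hr => by
      rw [map_mul, map_sum]
      simp only [step_term c (h.pow hr) hq.pow]
      have h1 : φ (((q : K) ^ r - 1)⁻¹) = ((((q : ℝ) ^ r - 1)⁻¹ : ℝ) : ℂ) := by simp
      rw [h1, ← Complex.ofReal_sum, ← Complex.ofReal_mul, Complex.ofReal_re, htr r hr]
      have h2 : (2 : ℝ) ≤ (q : ℝ) ^ r := by exact_mod_cast step_two_le hq2 hr
      have h3 := Finset.single_le_sum (f := fun j : ℕ => ‖φ (Hs π (q ^ r)
        (onLine (Nr q r) ku j) fun i => Nr q r * kl i)‖ ^ (4 * m)) (fun _ _ => by positivity)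
        (mem_range.2 (hlt r hr))
      refine h3.trans ?_
      rw [← mul_assoc]
      refine le_mul_of_one_le_left (Finset.sum_nonneg fun _ _ => by positivity) ?_
      rw [← div_eq_mul_inv, one_le_div (by linarith)]
      linarith)
    (fun m _ => ⟨A ^ (4 * m), fun r hr => by
      have h1 := step_term c (h.pow hr) hq.pow φ (Nr q r) ku kl 0 m
      simp only [step_onLine_zero] at h1
      rw [h1, Complex.norm_real, norm_pow, norm_norm, ← pow_mul (√q ^ 7 : ℝ), mul_comm (4 * m) r,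
        pow_mul (√q ^ 7 : ℝ), ← mul_pow]
      exact pow_le_pow_left₀ (norm_nonneg _) (hb r hr) _⟩)
    (fun m _ => by
      obtain ⟨n, hn⟩ := moment_powerSum c h (ν := Fin (2 * m) × Bool) (by simp)
        (fun n => step_cu ku n.2) (fun n => step_cl kl n.2)
        (by
          rintro ⟨_, _ | _⟩ i
          · intro hd
            refine g 0 i (dvd_neg.1 ?_)
            simpa [step_cu, step_cl, add_comm] using hd
          · exact g 1 i)
        (by
          rintro ⟨_, _ | _⟩ i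
          · intro hd
            refine g 2 i (dvd_neg.1 ?_)
            simpa [step_cu, step_cl, add_comm] using hd
          · exact g 2 i)
        (by
          rintro ⟨_, _ | _⟩
          · refine dvd_neg.1 (hs.trans (dvd_of_eq ?_))
            simp [step_cu, step_cl, Fin.sum_univ_four]
            ring
          · exact hs)
      refine ⟨n.map φ, fun r hr => ?_⟩
      rw [← map_sub, hn r hr, map_neg, map_multiset_sum, Multiset.map_map, Multiset.map_map]
      simp only [Function.comp_def, map_pow])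
  intro r hr
  have h1 := key r
  rw [htr r hr, Fintype.card_fin] at h1
  rw [Hs_congr π (step_two_le hq2 hr)
    (ku' := onLine (Nr q r) ku (((∑ t ∈ range r, q ^ t) * j0 : ℕ) : ℤ)) (fun m => ?_)
    fun m => Int.ModEq.refl _]
  · exact_mod_cast h1
  have h2 : Nr q r * j ≡ (((∑ t ∈ range r, q ^ t) * j0 : ℕ) : ℤ) [ZMOD (((q ^ r : ℕ) : ℤ) - 1)] := by
    refine step_modEq q r (-(j / ((q : ℤ) - 1))) ?_
    rw [Nat.cast_mul, hN, hj0, Int.emod_def]
    ring
  refine Int.ModEq.trans ?_ (step_onLine_modEq (k := ku) (fun m => Int.ModEq.refl _) h2 m)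
  have h3 : Nr q r * onLine 1 ku j m = onLine (Nr q r) ku (Nr q r * j) m := by
    fin_cases m <;> simp [onLine] <;> ring
  rw [h3]

end

end Pool.Agent.P.MP_9484ad_co
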